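import Mathlib

section

/-! Definitions for the girth Ramsey theorem: cyclic lists, incidence geometries, labelled
hypergraphs, trains. -/

open Function

namespace Pool.Agent.MP_1c0fc2_co.GR

section Lists
variable {α β : Type}

/-- consecutive pairs of a list -/
def path : List α → List (α × α)
  | a :: b :: t => (a, b) :: path (b :: t)
  | _ => []

/-- cyclically consecutive pairs of a list -/
def steps : List α → List (α × α)
  | [] => []
  | a :: t => path (a :: (t ++ [a]))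

/-- `x` and `y` occupy cyclically non-consecutive positions of `l` -/
def NonCons (l : List α) (x y : α) : Prop :=
  ∃ a b : List α, a ≠ [] ∧ b ≠ [] ∧ l ~r (x :: (a ++ y :: b))

/-- weight of a step: 1 between a vertex and a centre, 2 otherwise -/
def wt : α ⊕ β → α ⊕ β → ℕ
  | .inl _, .inr _ => 1
  | .inr _, .inl _ => 1
  | _, _ => 2

/-- weight of a cyclic list of nodes -/
def wsum (l : List (α ⊕ β)) : ℕ := ((steps l).map (fun p => wt p.1 p.2)).sum

/-- cycles of weight at most `w` and length at most `n` for the relation `R` -/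
structure Cyc (R : α ⊕ β → α ⊕ β → Prop) (w n : ℕ) (l : List (α ⊕ β)) : Prop where
  nodup : l.Nodup
  three : 3 ≤ l.length
  len : l.length ≤ n
  wle : wsum l ≤ w
  step : ∀ p ∈ steps l, R p.1 p.2

end Lists

/-- incidence geometry: vertices, centres, incidence -/
structure Geo where
  V : Type
  C : Type
  M : V → C → Prop

namespace Geo

/-- nodes -/
abbrev N (A : Geo) : Type := A.V ⊕ A.C

/-- the bag of the centre `d` -/
def WB (A : Geo) (d : A.C) : A.N → Prop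
  | .inl v => A.M v d
  | .inr c => c = d

/-- two nodes in the bag of one centre -/
def WP (A : Geo) (x y : A.N) : Prop := ∃ d, A.WB d x ∧ A.WB d y

/-- linearity -/
def B3 (A : Geo) : Prop :=
  ∀ u v c d, u ≠ v → A.M u c → A.M v c → A.M u d → A.M v d → c = d

/-- weak cycle: distinct vertices, each centre contains its vertex and the next one -/
def WCyc (A : Geo) (l : List (A.V × A.C)) : Prop :=
  (l.map Prod.fst).Nodup ∧ ∀ p ∈ steps l, A.M p.1.1 p.1.2 ∧ A.M p.2.1 p.1.2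

/-- girth larger than `g` -/
def Gir (A : Geo) (g : ℕ) : Prop :=
  ∀ l, A.WCyc l → 2 ≤ l.length → l.length ≤ g → ∀ a ∈ l, ∀ b ∈ l, a.2 = b.2

/-- keep only the incidences with centres satisfying `P` -/
def res (A : Geo) (P : A.C → Prop) : Geo := ⟨A.V, A.C, fun v c => A.M v c ∧ P c⟩

end Geo

/-- injective homomorphism of geometries -/
@[ext] structure GHom (A B : Geo) where
  v : A.V → B.V
  c : A.C → B.C
  v_inj : Injective v
  c_inj : Injective c
  map : ∀ x y, A.M x y → B.M (v x) (c y)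

namespace GHom
variable {A B C : Geo}

/-- the map on nodes -/
def n (h : GHom A B) : A.N → B.N := Sum.map h.v h.c

/-- the bag of a copy -/
def Bag (h : GHom A B) (x : B.N) : Prop := ∃ y, h.n y = x

/-- induced -/
def Ind (h : GHom A B) : Prop := ∀ x y, B.M (h.v x) (h.c y) → A.M x y

/-- strongly induced -/
def Str (h : GHom A B) : Prop :=
  ∀ x y d, x ≠ y → B.M (h.v x) d → B.M (h.v y) d → ∃ c, h.c c = d

def id (A : Geo) : GHom A A := ⟨_root_.id, _root_.id, injective_id, injective_id, fun _ _ h => h⟩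

def comp (g : GHom B C) (h : GHom A B) : GHom A C :=
  ⟨g.v ∘ h.v, g.c ∘ h.c, g.v_inj.comp h.v_inj, g.c_inj.comp h.c_inj,
    fun _ _ hm => g.map _ _ (h.map _ _ hm)⟩

end GHom

section Sys
variable {A B : Geo} {P : Type}

/-- two nodes in a common bag -/
def Adj (φ : P → GHom A B) (x y : B.N) : Prop :=
  (∃ p, (φ p).Bag x ∧ (φ p).Bag y) ∨ B.WP x y

/-- all nodes in one bag -/
def InBag (φ : P → GHom A B) (l : List B.N) : Prop :=
  (∃ p, ∀ x ∈ l, (φ p).Bag x) ∨ ∃ d, ∀ x ∈ l, B.WB d x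

/-- clean intersections -/
def B2 (φ : P → GHom A B) : Prop :=
  ∀ p q x y, p ≠ q → x ≠ y → (φ p).Bag x → (φ p).Bag y → (φ q).Bag x → (φ q).Bag y → B.WP x y

structure Basic (φ : P → GHom A B) : Prop where
  ind : ∀ p, (φ p).Ind
  str : ∀ p, (φ p).Str
  b2 : B2 φ
  b3 : B.B3

/-- short cycles have a chord or lie in a bag -/
def AC (φ : P → GHom A B) (w n : ℕ) : Prop :=
  ∀ l, Cyc (Adj φ) w n l → (∃ x y, NonCons l x y ∧ Adj φ x y) ∨ InBag φ l

/-- outcome of the triangulation lemma -/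
def TLo (φ : P → GHom A B) (l : List B.N) : Prop :=
  (∃ x y, NonCons l x y ∧ B.WP x y) ∨ InBag φ l

end Sys

/-- `Z` is the amalgam of the copies `ι a` of `X` along the copies `q a` of `S` in `G` -/
structure GAmal {S X G Z : Geo} {Q : Type} (σ : GHom S X) (q : Q → GHom S G)
    (ι : Q → GHom X Z) (j : GHom G Z) : Prop where
  comm : ∀ a x, (ι a).n (σ.n x) = j.n ((q a).n x)
  cover : ∀ z, j.Bag z ∨ ∃ a, (ι a).Bag z
  shared : ∀ a x y, (ι a).n x = j.n y → σ.Bag x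
  sep : ∀ a b x y, (ι a).n x = (ι b).n y → a = b ∨ σ.Bag x
  inc : ∀ v c, Z.M v c → (∃ v' c', j.v v' = v ∧ j.c c' = c ∧ G.M v' c') ∨
    ∃ a v' c', (ι a).v v' = v ∧ (ι a).c c' = c ∧ X.M v' c'

/-- the composed system -/
def prodSys {F X Z : Geo} {P Q : Type} (ι : Q → GHom X Z) (φ : P → GHom F X) :
    Q × P → GHom F Z := fun a => (ι a.1).comp (φ a.2)

/-- two nodes coming from one wagon bag of `G` -/
def GW {G Z : Geo} (j : GHom G Z) (x y : Z.N) : Prop :=
  ∃ x' y', j.n x' = x ∧ j.n y' = y ∧ G.WP x' y'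

/-- local pair of nodes of an amalgam -/
def Loc {X G Z : Geo} {Q : Type} (ι : Q → GHom X Z) (j : GHom G Z) (x y : Z.N) : Prop :=
  (∃ a, (ι a).Bag x ∧ (ι a).Bag y) ∨ GW j x y

/-- outcome for local cycles -/
def OutL {X G Z : Geo} {Q : Type} (ι : Q → GHom X Z) (j : GHom G Z) (l : List Z.N) : Prop :=
  (∃ a, ∀ x ∈ l, (ι a).Bag x) ∨ (∃ x y, NonCons l x y ∧ GW j x y) ∨
    ∃ d, ∀ x ∈ l, ∃ x', j.n x' = x ∧ G.WB d x'

/-- the extra properties of level zero -/
structure Lev0 {F S X : Geo} {P : Type} (σ : GHom S X) (φ : P → GHom F X) : Prop where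
  ind : σ.Ind
  str : σ.Str
  full : ∀ v c, X.M v (σ.c c) → ∃ u, σ.v u = v
  meet : ∀ p x y, x ≠ y → (φ p).Bag x → (φ p).Bag y → σ.Bag x → σ.Bag y → X.WP x y

/-- labelled hypergraph with template `K` and vertex classes `I` -/
structure HG {K I : Type} (cl : K → I) where
  V : Type
  E : Type
  [finV : Finite V]
  [finE : Finite E]
  vc : V → I
  inc : E → K → V
  inc_inj : ∀ e, Injective (inc e)
  vc_inc : ∀ e k, vc (inc e k) = cl k

attribute [instance] HG.finV HG.finE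

section HGs
variable {K I : Type} {cl : K → I}

namespace HG

def On (F : HG cl) (v : F.V) (e : F.E) : Prop := ∃ k, F.inc e k = v

def Lin (F : HG cl) : Prop :=
  ∀ e e' u v, u ≠ v → F.On u e → F.On v e → F.On u e' → F.On v e' → e = e'

def Ord [LinearOrder K] (F : HG cl) : Prop :=
  ∃ ρ : F.V → ℕ, ∀ e, StrictMono (fun k => ρ (F.inc e k))

def NoIso (F : HG cl) : Prop := ∀ v, ∃ e, F.On v e

/-- a `K`-partite hypergraph seen with the classes `cl` -/
@[reducible] def up (S : HG (id : K → K)) (cl : K → I) : HG cl where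
  V := S.V
  E := S.E
  vc := fun v => cl (S.vc v)
  inc := S.inc
  inc_inj := S.inc_inj
  vc_inc := fun e k => congrArg cl (S.vc_inc e k)

end HG

structure Hom (F H : HG cl) where
  v : F.V → H.V
  e : F.E → H.E
  vc_v : ∀ x, H.vc (v x) = F.vc x
  inc_e : ∀ f k, H.inc (e f) k = v (F.inc f k)

structure Emb (F H : HG cl) extends Hom F H where
  v_inj : Injective v
  e_inj : Injective e

/-- strongly induced -/
def Emb.Str {F H : HG cl} (φ : Emb F H) : Prop :=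
  ∀ x u w, u ≠ w → H.On (φ.v u) x → H.On (φ.v w) x → ∃ f, φ.e f = x

def Emb.comp {F G H : HG cl} (ψ : Emb G H) (φ : Emb F G) : Emb F H where
  v := ψ.v ∘ φ.v
  e := ψ.e ∘ φ.e
  vc_v := fun x => (ψ.vc_v _).trans (φ.vc_v x)
  inc_e := fun f k => (ψ.inc_e _ k).trans (congrArg ψ.v (φ.inc_e f k))
  v_inj := ψ.v_inj.comp φ.v_inj
  e_inj := ψ.e_inj.comp φ.e_inj

def Emb.up {S G : HG (id : K → K)} (φ : Emb S G) (cl : K → I) : Emb (S.up cl) (G.up cl) where
  v := φ.v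
  e := φ.e
  vc_v := fun x => congrArg cl (φ.vc_v x)
  inc_e := φ.inc_e
  v_inj := φ.v_inj
  e_inj := φ.e_inj

/-- Ramsey property of a family of maps -/
def Ram {P A B : Type} (m : P → A → B) (κ : Type) : Prop :=
  ∀ χ : B → κ, ∃ p, ∀ f f', χ (m p f) = χ (m p f')

/-- the constituent of `X` over the edge `e` -/
def Con [Finite K] {X H : HG cl} (ψ : Hom X H) (e : H.E) : HG (id : K → K) where
  V := {p : K × X.V // ∃ f, ψ.e f = e ∧ X.inc f p.1 = p.2}
  E := {f : X.E // ψ.e f = e}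
  vc := fun p => p.1.1
  inc := fun f k => ⟨(k, X.inc f.1 k), f.1, f.2, rfl⟩
  inc_inj := fun _ _ _ h => congrArg (fun p => p.1.1) h
  vc_inc := fun _ _ => rfl

def conEmb [Finite K] {X H : HG cl} (ψ : Hom X H) (e : H.E) : Emb ((Con ψ e).up cl) X where
  v := fun p => p.1.2
  e := fun f => f.1
  vc_v := fun p => by
    obtain ⟨⟨k, v⟩, f, _, h⟩ := p
    exact (congrArg X.vc h.symm).trans (X.vc_inc f k)
  inc_e := fun _ _ => rfl
  v_inj := by
    rintro ⟨⟨k, v⟩, f, hf, h⟩ ⟨⟨k', v'⟩, f', hf', h'⟩ (hv : v = v')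
    have h1 : H.inc e k = H.inc e k' := by
      have a := ψ.inc_e f k
      have b := ψ.inc_e f' k'
      simp only at h h'
      rw [hf, h] at a
      rw [hf', h'] at b
      rw [a, b, hv]
    have h2 := H.inc_inj e h1
    subst h2; subst hv; rfl
  e_inj := fun _ _ h => Subtype.ext h

/-- partite amalgamation -/
structure Amal [Finite K] {X H : HG cl} (ψ : Hom X H) (e : H.E) {G : HG (id : K → K)} {Q : Type}
    (q : Q → Emb (Con ψ e) G) where
  Z : HG cl
  ψ' : Hom Z H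
  ι : Q → Emb X Z
  j : Emb (G.up cl) Z
  ι_v : ∀ a x, ψ'.v ((ι a).v x) = ψ.v x
  ι_e : ∀ a f, ψ'.e ((ι a).e f) = ψ.e f
  j_v : ∀ w : G.V, ψ'.v (j.v w) = H.inc e (G.vc w)
  j_e : ∀ y : G.E, ψ'.e (j.e y) = e
  comm_v : ∀ a x, (ι a).v ((conEmb ψ e).v x) = j.v ((q a).v x)
  comm_e : ∀ a f, (ι a).e ((conEmb ψ e).e f) = j.e ((q a).e f)
  cover_v : ∀ z, (∃ w, j.v w = z) ∨ ∃ a x, (ι a).v x = z
  cover_e : ∀ z, (∃ y, j.e y = z) ∨ ∃ a f, (ι a).e f = z
  shared_v : ∀ a x w, (ι a).v x = j.v w → ∃ u, (conEmb ψ e).v u = x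
  sep_v : ∀ a b x y, (ι a).v x = (ι b).v y → a = b ∨ ∃ u, (conEmb ψ e).v u = x
  sep_e : ∀ a b f f', (ι a).e f = (ι b).e f' → a = b ∨ ψ.e f = e

/-- picture over the system `h` -/
structure Pic {F H : HG cl} {R : Type} (h : R → Hom F H) where
  X : HG cl
  ψ : Hom X H
  P : Type
  [finP : Finite P]
  φ : P → Emb F X
  ov : P → R
  ov_v : ∀ p x, ψ.v ((φ p).v x) = (h (ov p)).v x
  ov_e : ∀ p f, ψ.e ((φ p).e f) = (h (ov p)).e f

attribute [instance] Pic.finP

/-- disjoint union of copies of `F` -/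
def HG.mul (R : Type) [Finite R] (F : HG cl) : HG cl where
  V := R × F.V
  E := R × F.E
  vc := fun x => F.vc x.2
  inc := fun f k => (f.1, F.inc f.2 k)
  inc_inj := fun f _ _ h => F.inc_inj f.2 (congrArg Prod.snd h)
  vc_inc := fun f k => F.vc_inc f.2 k

def mulEmb {R : Type} [Finite R] (F : HG cl) (r : R) : Emb F (F.mul R) where
  v := fun x => (r, x)
  e := fun f => (r, f)
  vc_v := fun _ => rfl
  inc_e := fun _ _ => rfl
  v_inj := fun _ _ h => congrArg Prod.snd h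
  e_inj := fun _ _ h => congrArg Prod.snd h

/-- picture zero -/
def pic0 {F H : HG cl} {R : Type} [Finite R] (h : R → Hom F H) : Pic h where
  X := F.mul R
  ψ := ⟨fun x => (h x.1).v x.2, fun f => (h f.1).e f.2, fun x => (h x.1).vc_v x.2,
    fun f k => (h f.1).inc_e f.2 k⟩
  P := R
  φ := mulEmb F
  ov := id
  ov_v := fun _ _ => rfl
  ov_e := fun _ _ => rfl

/-- the next picture -/
def Amal.pic [Finite K] {F H : HG cl} {R : Type} {h : R → Hom F H} (Y : Pic h) {e : H.E}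
    {G : HG (id : K → K)} {Q : Type} [Finite Q] {q : Q → Emb (Con Y.ψ e) G}
    (A : Amal Y.ψ e q) : Pic h where
  X := A.Z
  ψ := A.ψ'
  P := Q × Y.P
  φ := fun a => (A.ι a.1).comp (Y.φ a.2)
  ov := fun a => Y.ov a.2
  ov_v := fun a x => (A.ι_v a.1 _).trans (Y.ov_v a.2 x)
  ov_e := fun a f => (A.ι_e a.1 _).trans (Y.ov_e a.2 f)

/-- train of height `m` with parameter `A` -/
structure IsTrain (F : HG cl) (s : ℕ → Setoid F.E) (A : ℕ → Set I) (m : ℕ) : Prop where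
  zero : ∀ e e', s 0 e e' → e = e'
  mono : ∀ μ e e', s μ e e' → s (μ + 1) e e'
  top : ∀ μ, m ≤ μ → ∀ e e', s μ e e'
  cond : ∀ μ e e' v, F.On v e → F.On v e' → ¬ s μ e e' → s (μ + 1) e e' → F.vc v ∈ A μ

/-- the classes that may be shared by different wagons of level `μ` -/
def Hi (A : ℕ → Set I) (m μ : ℕ) : Set I := {i | ∃ ν, μ ≤ ν ∧ ν < m ∧ i ∈ A ν}

/-- geometry of the wagons, all vertices -/
def wg (F : HG cl) (r : Setoid F.E) : Geo :=
  ⟨F.V, Quotient r, fun v c => ∃ e, Quotient.mk r e = c ∧ F.On v e⟩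

/-- geometry of the wagons, vertices with class in `D` -/
def hg (F : HG cl) (r : Setoid F.E) (D : Set I) : Geo :=
  ⟨{v : F.V // F.vc v ∈ D}, Quotient r, fun v c => ∃ e, Quotient.mk r e = c ∧ F.On v.1 e⟩

/-- local geometry: only edges in `O` that are `r'`-equivalent to `z` -/
def lg (F : HG cl) (O : F.E → Prop) (r r' : Setoid F.E) (z : F.E) : Geo :=
  ⟨F.V, Quotient r, fun v c => ∃ e, Quotient.mk r e = c ∧ O e ∧ r' e z ∧ F.On v e⟩

def Compat {F H : HG cl} (φ : Emb F H) (r : Setoid F.E) (t : Setoid H.E) : Prop :=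
  ∀ f f', t (φ.e f) (φ.e f') ↔ r f f'

def Emb.hg {F H : HG cl} (φ : Emb F H) {r : Setoid F.E} {t : Setoid H.E} (hc : Compat φ r t)
    (D : Set I) : GHom (hg F r D) (hg H t D) where
  v := fun x => ⟨φ.v x.1, by rw [φ.vc_v]; exact x.2⟩
  c := Quotient.map φ.e (fun a b h => (hc a b).2 h)
  v_inj := fun _ _ h => Subtype.ext (φ.v_inj (congrArg Subtype.val h))
  c_inj := by
    intro a b
    induction a using Quotient.inductionOn
    induction b using Quotient.inductionOn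
    intro h
    exact Quotient.sound ((hc _ _).1 (Quotient.exact h))
  map := by
    rintro x _ ⟨e, rfl, k, hk⟩
    exact ⟨φ.e e, rfl, k, by rw [φ.inc_e, hk]⟩

/-- the system is good at one level -/
def GoodL {F H : HG cl} {P : Type} (φ : P → Emb F H) (r : Setoid F.E) (t : Setoid H.E)
    (D : Set I) (w n : ℕ) : Prop :=
  ∃ hc : ∀ p, Compat (φ p) r t,
    Basic (fun p => (φ p).hg (hc p) D) ∧ AC (fun p => (φ p).hg (hc p) D) w n

/-- restriction of the wagons to a constituent -/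
def conS [Finite K] {X H : HG cl} (ψ : Hom X H) (e : H.E) (r : Setoid X.E) :
    Setoid (Con ψ e).E := r.comap Subtype.val

theorem con_compat [Finite K] {X H : HG cl} (ψ : Hom X H) (e : H.E) (r : Setoid X.E) :
    Compat (conEmb ψ e) (conS ψ e r) r := fun _ _ => Iff.rfl

/-- the wagons of an amalgam -/
structure TRel [Finite K] {X H : HG cl} {ψ : Hom X H} {e : H.E} {G : HG (id : K → K)} {Q : Type}
    {q : Q → Emb (Con ψ e) G} (A : Amal ψ e q) (s : ℕ → Setoid X.E) (u : ℕ → Setoid G.E)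
    (t : ℕ → Setoid A.Z.E) (m : ℕ) : Prop where
  ι_c : ∀ a μ, Compat (A.ι a) (s μ) (t μ)
  j_c : ∀ μ, Compat A.j (u μ) (t μ)
  tie : ∀ μ, μ < m → ∀ a f y, t μ ((A.ι a).e f) (A.j.e y) → ∃ f0, ψ.e f0 = e ∧ s μ f f0
  sep : ∀ μ, μ < m → ∀ a b f f', t μ ((A.ι a).e f) ((A.ι b).e f') →
    a = b ∨ ∃ f0, ψ.e f0 = e ∧ s μ f f0
  zero : ∀ x x', t 0 x x' → x = x'
  mono : ∀ μ x x', t μ x x' → t (μ + 1) x x'
  top : ∀ μ, m ≤ μ → ∀ x x', t μ x x'

/-- hypotheses on the train -/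
structure Dom (F : HG cl) (s : ℕ → Setoid F.E) (A : ℕ → Set I) (m : ℕ) (γ : ℕ → ℕ) : Prop where
  tr : IsTrain F s A m
  lin : F.Lin
  gir : ∀ μ, 1 ≤ μ → μ < m → (wg F (s μ)).Gir (γ μ)

/-- conclusions for the levels above zero -/
structure Up {F H : HG cl} {P : Type} (φ : P → Emb F H) (s : ℕ → Setoid F.E)
    (t : ℕ → Setoid H.E) (A : ℕ → Set I) (m : ℕ) (γ : ℕ → ℕ) : Prop where
  tr : IsTrain H t A m
  lin : H.Lin
  cpt : ∀ p μ, Compat (φ p) (s μ) (t μ)
  good : ∀ μ, 1 ≤ μ → μ < m → GoodL φ (s μ) (t μ) (Hi A m μ) (2 * γ μ) (2 * γ μ)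

/-- a revision of the first level on the edges in `O` -/
structure IsRev (F : HG cl) (O : F.E → Prop) (s1 : Setoid F.E) (A0 : Set K) (g M : ℕ)
    (r : ℕ → Setoid F.E) (B : ℕ → Set K) : Prop where
  pos : 0 < M
  zero : ∀ e e', O e → O e' → r 0 e e' → e = e'
  mono : ∀ j, j < M → ∀ e e', O e → O e' → r j e e' → r (j + 1) e e'
  last : ∀ e e', O e → O e' → (r M e e' ↔ s1 e e')
  sing : ∀ j, j < M → (B j).Subsingleton
  sub : ∀ j, j < M → B j ⊆ A0
  cov : ∀ k ∈ A0, ∃ j, j < M ∧ k ∈ B j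
  cond : ∀ j, j < M → ∀ e e' k, O e → O e' → F.inc e k = F.inc e' k → ¬ r j e e' →
    r (j + 1) e e' → k ∈ B j
  gir : ∀ j, j < M → ∀ z, (lg F O (r j) (r (j + 1)) z).Gir g

def Rev (F : HG cl) (O : F.E → Prop) (s1 : Setoid F.E) (A0 : Set K) (g : ℕ) : Prop :=
  ∃ M r B, IsRev F O s1 A0 g M r B

end HGs

/-- the Ramsey statement for trains of height `m` -/
def St (m : ℕ) (γ : ℕ → ℕ) (w n : ℕ) : Prop :=
  ∀ (K I : Type) [Finite K] [Finite I] [LinearOrder K] (cl : K → I) (F : HG cl)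
    (s : ℕ → Setoid F.E) (A : ℕ → Set I), Dom F s A m γ → F.Ord →
    ∀ (κ : Type) [Finite κ] [Nonempty κ],
    ∃ (H : HG cl) (t : ℕ → Setoid H.E) (P : Type) (_ : Finite P) (φ : P → Emb F H),
      Ram (fun p => (φ p).e) κ ∧ Up φ s t A m γ ∧ GoodL φ (s 0) (t 0) (Hi A m 0) w n

/-- the partite lemma -/
def Hor (b : Prop) (m : ℕ) (γ : ℕ → ℕ) (w n g : ℕ) : Prop :=
  ∀ (K : Type) [Finite K] [LinearOrder K] (S : HG (id : K → K))
    (s : ℕ → Setoid S.E) (A : ℕ → Set K), Dom S s A m γ → S.NoIso →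
    (b → Rev S (fun _ => True) (s 1) (A 0) g) →
    ∀ (κ : Type) [Finite κ] [Nonempty κ],
    ∃ (G : HG (id : K → K)) (t : ℕ → Setoid G.E) (Q : Type) (_ : Finite Q) (q : Q → Emb S G),
      Ram (fun p => (q p).e) κ ∧ Up q s t A m γ ∧
      (b → GoodL q (s 0) (t 0) (Hi A m 0) w n ∧ (2 * (n + 1) ≤ w → (wg G (t 0)).Gir (n + 1)))

def T (m : ℕ) (γ : ℕ → ℕ) : Prop := St m γ (2 * γ 0) (2 * γ 0)

def rep (M g : ℕ) (γ : ℕ → ℕ) : ℕ → ℕ := fun μ => if μ < M then g else γ (μ - M)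

end Pool.Agent.MP_1c0fc2_co.GR

end

section

open Function

namespace Pool.Agent.MP_1c0fc2_co.GR

variable {K I : Type} {cl : K → I}

section xamale
variable {S X G Q : Type}

/-- the pushout of sets -/
abbrev xamaleP (Q G : Type) (σ : S → X) : Type := G ⊕ Q × {x : X // ¬ ∃ u, σ u = x}

open Classical in
/-- the inclusion of a copy -/
noncomputable def xamaleI (σ : S → X) (q : Q → S → G) (a : Q) (x : X) : xamaleP Q G σ :=
  if h : ∃ u, σ u = x then .inl (q a h.choose) else .inr (a, ⟨x, h⟩)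

theorem xamale_pos {σ : S → X} (hσ : Injective σ) (q : Q → S → G) (a : Q) (u : S) :
    xamaleI σ q a (σ u) = .inl (q a u) := by
  have h : ∃ u', σ u' = σ u := ⟨u, rfl⟩
  rw [xamaleI, dif_pos h, hσ h.choose_spec]

theorem xamale_neg {σ : S → X} (q : Q → S → G) (a : Q) {x : X} (h : ¬ ∃ u, σ u = x) :
    xamaleI σ q a x = .inr (a, ⟨x, h⟩) := dif_neg h

theorem xamale_inj {σ : S → X} (hσ : Injective σ) {q : Q → S → G} {a : Q} (hq : Injective (q a)) :
    Injective (xamaleI σ q a) := by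
  intro x y h
  by_cases hx : ∃ u, σ u = x <;> by_cases hy : ∃ u, σ u = y
  · obtain ⟨u, rfl⟩ := hx
    obtain ⟨w, rfl⟩ := hy
    rw [xamale_pos hσ, xamale_pos hσ] at h
    rw [hq (Sum.inl.inj h)]
  · obtain ⟨u, rfl⟩ := hx
    rw [xamale_pos hσ, xamale_neg q a hy] at h
    cases h
  · obtain ⟨w, rfl⟩ := hy
    rw [xamale_pos hσ, xamale_neg q a hx] at h
    cases h
  · rw [xamale_neg q a hx, xamale_neg q a hy] at h
    exact congrArg (fun p => p.2.1) (Sum.inr.inj h)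

theorem xamale_cover (σ : S → X) (q : Q → S → G) (z : xamaleP Q G σ) :
    (∃ w, Sum.inl w = z) ∨ ∃ a x, xamaleI σ q a x = z := by
  rcases z with w | ⟨a, x, h⟩
  · exact Or.inl ⟨w, rfl⟩
  · exact Or.inr ⟨a, x, xamale_neg q a h⟩

theorem xamale_shared {σ : S → X} {q : Q → S → G} {a : Q} {x : X} {w : G}
    (h : xamaleI σ q a x = .inl w) : ∃ u, σ u = x := by
  by_contra hx
  rw [xamale_neg q a hx] at h
  cases h

theorem xamale_sep {σ : S → X} (hσ : Injective σ) {q : Q → S → G} {a b : Q} {x y : X}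
    (h : xamaleI σ q a x = xamaleI σ q b y) : a = b ∨ ∃ u, σ u = x := by
  by_cases hy : ∃ u, σ u = y
  · obtain ⟨w, rfl⟩ := hy
    rw [xamale_pos hσ] at h
    exact Or.inr (xamale_shared h)
  · by_cases hx : ∃ u, σ u = x
    · exact Or.inr hx
    · rw [xamale_neg q a hx, xamale_neg q b hy] at h
      exact Or.inl (congrArg Prod.fst (Sum.inr.inj h))

theorem xamale_elim {T : Type} {σ : S → X} (hσ : Injective σ) {q : Q → S → G} (a : Q) (f : G → T)
    (g : X → T) (h : ∀ u, f (q a u) = g (σ u)) (x : X) :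
    Sum.elim f (fun p => g p.2.1) (xamaleI σ q a x) = g x := by
  by_cases hx : ∃ u, σ u = x
  · obtain ⟨u, rfl⟩ := hx
    rw [xamale_pos hσ]
    exact h u
  · rw [xamale_neg q a hx]
    rfl

end xamale

theorem xamale_con [Finite K] {X H : HG cl} (ψ : Hom X H) (e : H.E) (u : (Con ψ e).V) :
    ψ.v ((conEmb ψ e).v u) = H.inc e u.1.1 := by
  obtain ⟨⟨k, v⟩, f, hf, h⟩ := u
  have := ψ.inc_e f k
  rw [hf] at this
  exact (congrArg ψ.v h).symm.trans this.symm

/-- the amalgam -/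
@[reducible] noncomputable def xamaleZ [Finite K] {X H : HG cl} (ψ : Hom X H) (e : H.E)
    {G : HG (id : K → K)} {Q : Type} [Finite Q] (q : Q → Emb (Con ψ e) G) : HG cl where
  V := xamaleP Q G.V (conEmb ψ e).v
  E := xamaleP Q G.E (conEmb ψ e).e
  vc := Sum.elim (fun w => cl (G.vc w)) fun p => X.vc p.2.1
  inc := Sum.elim (fun y k => .inl (G.inc y k))
    fun p k => xamaleI (conEmb ψ e).v (fun a => (q a).v) p.1 (X.inc p.2.1 k)
  inc_inj := by
    rintro (y | p)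
    · exact Sum.inl_injective.comp (G.inc_inj y)
    · exact (xamale_inj (q := fun a => (q a).v) (a := p.1) (conEmb ψ e).v_inj
        (q p.1).v_inj).comp (X.inc_inj p.2.1)
  vc_inc := by
    rintro (y | p) k
    · exact congrArg cl (G.vc_inc y k)
    · exact (xamale_elim (q := fun a => (q a).v) (conEmb ψ e).v_inj p.1 (fun w => cl (G.vc w)) X.vc
        (fun u => (congrArg cl ((q p.1).vc_v u)).trans ((conEmb ψ e).vc_v u).symm) _).trans
        (X.vc_inc _ k)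

theorem xamale_on {F H : HG cl} (φ : Hom F H) {v : F.V} {f : F.E} (h : F.On v f) :
    H.On (φ.v v) (φ.e f) := by
  obtain ⟨k, rfl⟩ := h
  exact ⟨k, φ.inc_e f k⟩

theorem xamale_pull {F H : HG cl} (φ : Emb F H) (hF : F.Lin) {f f' : F.E} {u v : H.V}
    (huv : u ≠ v) (h1 : H.On u (φ.e f)) (h2 : H.On v (φ.e f)) (h3 : H.On u (φ.e f'))
    (h4 : H.On v (φ.e f')) : f = f' := by
  obtain ⟨k1, rfl⟩ := h1
  obtain ⟨k2, rfl⟩ := h2
  obtain ⟨k3, h3⟩ := h3
  obtain ⟨k4, h4⟩ := h4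
  rw [φ.inc_e, φ.inc_e] at huv h3 h4
  exact hF f f' _ _ (fun h => huv (congrArg φ.v h)) ⟨k1, rfl⟩ ⟨k2, rfl⟩ ⟨k3, φ.v_inj h3⟩
    ⟨k4, φ.v_inj h4⟩

theorem amal_exists [Finite K] {X H : HG cl} (ψ : Hom X H) (e : H.E) {G : HG (id : K → K)}
    {Q : Type} [Finite Q] (q : Q → Emb (Con ψ e) G) : Nonempty (Amal ψ e q) := by
  have hv : ∀ a x, Sum.elim (fun w => H.inc e (G.vc w)) (fun p => ψ.v p.2.1)
      (xamaleI (conEmb ψ e).v (fun a => (q a).v) a x) = ψ.v x := fun a =>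
    xamale_elim (conEmb ψ e).v_inj a _ ψ.v fun u =>
      (congrArg (H.inc e) ((q a).vc_v u)).trans (xamale_con ψ e u).symm
  exact ⟨{
    Z := xamaleZ ψ e q
    ψ' :=
      { v := Sum.elim (fun w => H.inc e (G.vc w)) fun p => ψ.v p.2.1
        e := Sum.elim (fun _ => e) fun p => ψ.e p.2.1
        vc_v := by
          rintro (w | p)
          · exact H.vc_inc e _
          · exact ψ.vc_v _
        inc_e := by
          rintro (y | p) k
          · exact congrArg (H.inc e) (G.vc_inc y k).symm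
          · exact (ψ.inc_e _ k).trans (hv _ _).symm }
    ι := fun a =>
      { v := xamaleI (conEmb ψ e).v (fun a => (q a).v) a
        e := xamaleI (conEmb ψ e).e (fun a => (q a).e) a
        vc_v := xamale_elim (conEmb ψ e).v_inj a (fun w => cl (G.vc w)) X.vc
          fun u => (congrArg cl ((q a).vc_v u)).trans ((conEmb ψ e).vc_v u).symm
        inc_e := fun f k => by
          by_cases hf : ∃ u, (conEmb ψ e).e u = f
          · obtain ⟨u, rfl⟩ := hf
            rw [xamale_pos (conEmb ψ e).e_inj, (conEmb ψ e).inc_e, xamale_pos (conEmb ψ e).v_inj]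
            exact congrArg Sum.inl ((q a).inc_e u k)
          · rw [xamale_neg _ a hf]
            rfl
        v_inj := xamale_inj (conEmb ψ e).v_inj (q a).v_inj
        e_inj := xamale_inj (conEmb ψ e).e_inj (q a).e_inj }
    j :=
      { v := Sum.inl
        e := Sum.inl
        vc_v := fun _ => rfl
        inc_e := fun _ _ => rfl
        v_inj := Sum.inl_injective
        e_inj := Sum.inl_injective }
    ι_v := hv
    ι_e := fun a => xamale_elim (q := fun a => (q a).e) (conEmb ψ e).e_inj a (fun _ => e) ψ.e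
      fun u => u.2.symm
    j_v := fun _ => rfl
    j_e := fun _ => rfl
    comm_v := xamale_pos (conEmb ψ e).v_inj fun a => (q a).v
    comm_e := xamale_pos (conEmb ψ e).e_inj fun a => (q a).e
    cover_v := xamale_cover (conEmb ψ e).v fun a => (q a).v
    cover_e := xamale_cover (conEmb ψ e).e fun a => (q a).e
    shared_v := fun a x w => xamale_shared (σ := (conEmb ψ e).v) (q := fun a => (q a).v) (a := a)
      (x := x) (w := w)
    sep_v := fun a b x y => xamale_sep (q := fun a => (q a).v) (a := a) (b := b) (x := x) (y := y)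
      (conEmb ψ e).v_inj
    sep_e := fun a b f f' h => (xamale_sep (q := fun a => (q a).e) (a := a) (b := b) (x := f)
      (y := f') (conEmb ψ e).e_inj h).imp_right fun ⟨u, hu⟩ => hu ▸ u.2 }⟩

theorem Amal.over_e [Finite K] {X H : HG cl} {ψ : Hom X H} {e : H.E} {G : HG (id : K → K)}
    {Q : Type} {q : Q → Emb (Con ψ e) G} (A : Amal ψ e q) {z : A.Z.E} (hz : A.ψ'.e z = e) :
    ∃ y, A.j.e y = z := by
  rcases A.cover_e z with h | ⟨a, f, rfl⟩
  · exact h
  · rw [A.ι_e] at hz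
    exact ⟨_, (A.comm_e a ⟨f, hz⟩).symm⟩

theorem Amal.lin [Finite K] {X H : HG cl} {ψ : Hom X H} {e : H.E} {G : HG (id : K → K)}
    {Q : Type} {q : Q → Emb (Con ψ e) G} (A : Amal ψ e q) (hH : H.Lin) (hX : X.Lin)
    (hG : G.Lin) : A.Z.Lin := by
  intro z z' u v huv h1 h2 h3 h4
  have hne : A.ψ'.v u ≠ A.ψ'.v v := by
    obtain ⟨k, rfl⟩ := h1
    obtain ⟨k', rfl⟩ := h2
    rw [← A.ψ'.inc_e, ← A.ψ'.inc_e]
    exact fun h => huv (congrArg _ (H.inc_inj _ h))
  have hz := hH _ _ _ _ hne (xamale_on A.ψ' h1) (xamale_on A.ψ' h2) (xamale_on A.ψ' h3)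
    (xamale_on A.ψ' h4)
  by_cases he : A.ψ'.e z = e
  · obtain ⟨y, rfl⟩ := A.over_e he
    obtain ⟨y', rfl⟩ := A.over_e (hz ▸ he)
    rw [xamale_pull A.j hG huv h1 h2 h3 h4]
  · obtain ⟨a, f, rfl⟩ := (A.cover_e z).resolve_left fun ⟨y, h⟩ => he (h ▸ A.j_e y)
    obtain ⟨b, f', rfl⟩ := (A.cover_e z').resolve_left fun ⟨y, h⟩ => he (hz ▸ h ▸ A.j_e y)
    by_cases hab : a = b
    · subst hab
      rw [xamale_pull (A.ι a) hX huv h1 h2 h3 h4]
    · have key : ∀ w, A.Z.On w ((A.ι a).e f) → A.Z.On w ((A.ι b).e f') → H.On (A.ψ'.v w) e := by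
        rintro w ⟨k, rfl⟩ ⟨k', h⟩
        rw [(A.ι a).inc_e, (A.ι b).inc_e] at h
        obtain ⟨x, hx⟩ := (A.sep_v a b _ _ h.symm).resolve_left hab
        rw [(A.ι a).inc_e, ← hx, A.comm_v, A.j_v]
        exact ⟨_, rfl⟩
      exact absurd (hH _ _ _ _ hne (xamale_on A.ψ' h1) (xamale_on A.ψ' h2) (key u h1 h3)
        (key v h2 h4)) he

end Pool.Agent.MP_1c0fc2_co.GR

end

section

open Function

namespace Pool.Agent.MP_1c0fc2_co.GR

variable {α β γ : Type}

theorem xcyca_fst (l : List α) (x : α) : (path (l ++ [x])).map Prod.fst = l := by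
  induction l with
  | nil => rfl
  | cons a t ih =>
    cases t with
    | nil => rfl
    | cons b t => exact congrArg (List.cons a) ih

theorem xcyca_snd (l : List α) (x : α) : (path (x :: l)).map Prod.snd = l := by
  induction l generalizing x with
  | nil => rfl
  | cons a t ih => exact congrArg (List.cons a) (ih a)

theorem xcyca_mem {l : List α} {x y : α} (h : (x, y) ∈ path l) :
    ∃ a b, l = a ++ x :: y :: b := by
  induction l with
  | nil => simp [path] at h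
  | cons c t ih =>
    cases t with
    | nil => simp [path] at h
    | cons d t =>
      rcases List.mem_cons.1 h with e | h
      · obtain ⟨rfl, rfl⟩ := Prod.mk.inj e
        exact ⟨[], t, rfl⟩
      · obtain ⟨a, b, e⟩ := ih h
        exact ⟨c :: a, b, by rw [e]; rfl⟩

theorem path_append (a : List α) (y : α) (b : List α) :
    path (a ++ y :: b) = path (a ++ [y]) ++ path (y :: b) := by
  induction a with
  | nil => rfl
  | cons x t ih =>
    cases t with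
    | nil => rfl
    | cons x' t => exact congrArg (List.cons (x, x')) ih

theorem steps_split (x y : α) (a b : List α) :
    steps (x :: (a ++ y :: b)) = path (x :: (a ++ [y])) ++ path (y :: (b ++ [x])) := by
  have h := path_append (x :: a) y (b ++ [x])
  simpa [steps] using h

theorem steps_close (x y : α) (a : List α) :
    steps (x :: (a ++ [y])) = path (x :: (a ++ [y])) ++ [(y, x)] := by
  have h := steps_split x y a []
  exact h

theorem steps_two (x y : α) (t : List α) :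
    steps (x :: y :: t) = (x, y) :: path (y :: (t ++ [x])) := by
  rfl

theorem steps_three (x z y : α) (t : List α) :
    steps (x :: z :: y :: t) = (x, z) :: (z, y) :: path (y :: (t ++ [x])) := by
  rfl

theorem steps_perm {l l' : List α} (h : l ~r l') : (steps l).Perm (steps l') := by
  obtain ⟨n, rfl⟩ := h
  induction n generalizing l with
  | zero => simp
  | succ n ih =>
    cases l with
    | nil => simp
    | cons a t =>
      rw [List.rotate_cons_succ]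
      refine List.Perm.trans ?_ ih
      cases t with
      | nil => exact List.Perm.refl _
      | cons b t =>
        rw [steps_two, List.cons_append, steps_close]
        exact (List.perm_append_singleton _ _).symm

theorem path_map (f : α → β) (l : List α) :
    path (l.map f) = (path l).map (Prod.map f f) := by
  induction l with
  | nil => rfl
  | cons x t ih =>
    cases t with
    | nil => rfl
    | cons x' t => exact congrArg (List.cons (f x, f x')) ih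

theorem steps_map (f : α → β) (l : List α) :
    steps (l.map f) = (steps l).map (Prod.map f f) := by
  cases l with
  | nil => rfl
  | cons x t =>
    rw [steps, ← path_map]
    simp [steps]

theorem steps_map_fst (l : List α) : (steps l).map Prod.fst = l := by
  cases l with
  | nil => rfl
  | cons x t => exact xcyca_fst (x :: t) x

theorem steps_map_snd (l : List α) : ((steps l).map Prod.snd).Perm l := by
  cases l with
  | nil => exact List.Perm.refl _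
  | cons x t =>
    rw [steps, xcyca_snd]
    exact List.perm_append_singleton _ _

theorem length_steps (l : List α) : (steps l).length = l.length := by
  conv_rhs => rw [← steps_map_fst l]
  rw [List.length_map]

theorem isChain_iff_path (R : α → α → Prop) (l : List α) :
    l.IsChain R ↔ ∀ p ∈ path l, R p.1 p.2 := by
  induction l with
  | nil => simp [path]
  | cons x t ih =>
    cases t with
    | nil => simp [path]
    | cons x' t => rw [List.isChain_cons_cons, ih, path, List.forall_mem_cons]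

theorem mem_of_mem_path {l : List α} {p : α × α} (h : p ∈ path l) : p.1 ∈ l ∧ p.2 ∈ l := by
  obtain ⟨a, b, rfl⟩ := xcyca_mem (x := p.1) (y := p.2) h
  simp

theorem mem_of_mem_steps {l : List α} {p : α × α} (h : p ∈ steps l) : p.1 ∈ l ∧ p.2 ∈ l := by
  refine ⟨?_, (steps_map_snd l).mem_iff.1 (List.mem_map_of_mem h)⟩
  rw [← steps_map_fst l]
  exact List.mem_map_of_mem h

theorem exists_step_fst {l : List α} {x : α} (h : x ∈ l) : ∃ y, (x, y) ∈ steps l := by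
  rw [← steps_map_fst l] at h
  obtain ⟨p, hp, rfl⟩ := List.mem_map.1 h
  exact ⟨p.2, hp⟩

theorem exists_step_snd {l : List α} {y : α} (h : y ∈ l) : ∃ x, (x, y) ∈ steps l := by
  obtain ⟨p, hp, rfl⟩ := List.mem_map.1 ((steps_map_snd l).mem_iff.2 h)
  exact ⟨p.1, hp⟩

theorem step_rot {l : List α} (h2 : 2 ≤ l.length) {x y : α} (h : (x, y) ∈ steps l) :
    ∃ t, l ~r (x :: y :: t) := by
  cases l with
  | nil => simp at h2
  | cons c t =>
    obtain ⟨a, b, e⟩ := xcyca_mem (l := c :: (t ++ [c])) h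
    rcases b.eq_nil_or_concat' with rfl | ⟨b, d, rfl⟩
    · have e' : (c :: t) ++ [c] = (a ++ [x]) ++ [y] := by simpa using e
      obtain ⟨e1, e2⟩ := List.append_inj' e' rfl
      obtain rfl : c = y := by simpa using e2
      cases a with
      | nil =>
        rw [e1] at h2
        simp at h2
      | cons d a =>
        obtain rfl : c = d := by simpa using congrArg List.head? e1
        rw [e1]
        exact ⟨a, List.isRotated_concat _ _⟩
    · have e' : (c :: t) ++ [c] = (a ++ x :: y :: b) ++ [d] := by simpa using e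
      rw [(List.append_inj' e' rfl).1]
      exact ⟨b ++ a, List.isRotated_append⟩

theorem step_ne {l : List α} (hn : l.Nodup) (h2 : 2 ≤ l.length) {x y : α}
    (h : (x, y) ∈ steps l) : x ≠ y := by
  obtain ⟨t, ht⟩ := step_rot h2 h
  have h3 := ht.nodup_iff.1 hn
  rintro rfl
  simp at h3

theorem step_unique {l : List α} (hn : l.Nodup) {x y y' : α} (h : (x, y) ∈ steps l)
    (h' : (x, y') ∈ steps l) : y = y' := by
  rw [← steps_map_fst l] at hn
  exact (Prod.mk.inj (List.inj_on_of_nodup_map hn h h' rfl)).2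

theorem mid_rot {l : List α} (h3 : 3 ≤ l.length) {z : α} (hz : z ∈ l) :
    ∃ x y t, l ~r (x :: z :: y :: t) := by
  obtain ⟨x, hx⟩ := exists_step_snd hz
  obtain ⟨t, ht⟩ := step_rot (by omega) hx
  cases t with
  | nil =>
    rw [ht.perm.length_eq] at h3
    simp at h3
  | cons y t => exact ⟨x, y, t, ht⟩

theorem const_of_steps {l : List α} (f : α → β) (h : ∀ p ∈ steps l, f p.1 = f p.2) :
    ∀ a ∈ l, ∀ b ∈ l, f a = f b := by
  have key : ∀ (t : List α) (c : α), (∀ p ∈ path (c :: t), f p.1 = f p.2) →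
      ∀ a ∈ c :: t, f a = f c := by
    intro t
    induction t with
    | nil => simp
    | cons d t ih =>
      intro c hc a ha
      rw [path, List.forall_mem_cons] at hc
      rcases List.mem_cons.1 ha with rfl | ha
      · rfl
      · exact (ih d hc.2 a ha).trans hc.1.symm
  cases l with
  | nil => simp
  | cons c t =>
    intro a ha b hb
    exact (key _ c h a (List.mem_append_left [c] ha)).trans
      (key _ c h b (List.mem_append_left [c] hb)).symm

theorem exists_label {l : List α} (hn : l.Nodup) (R : α → γ → Prop)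
    (h : ∀ p ∈ steps l, ∃ c, R p.1 c ∧ R p.2 c) :
    ∃ l' : List (α × γ), l'.map Prod.fst = l ∧ ∀ p ∈ steps l', R p.1.1 p.1.2 ∧ R p.2.1 p.1.2 := by
  rcases l.eq_nil_or_concat' with rfl | ⟨s, x0, e⟩
  · exact ⟨[], rfl, by simp [steps]⟩
  obtain ⟨y0, h0⟩ := exists_step_fst (l := l) (x := x0) (by simp [e])
  obtain ⟨c0, -⟩ := h _ h0
  have key : ∀ x, ∃ c, ∀ y, (x, y) ∈ steps l → R x c ∧ R y c := fun x => by
    by_cases hx : ∃ y, (x, y) ∈ steps l
    · obtain ⟨y, hy⟩ := hx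
      obtain ⟨c, hc⟩ := h _ hy
      exact ⟨c, fun y' hy' => step_unique hn hy hy' ▸ hc⟩
    · exact ⟨c0, fun y hy => absurd ⟨y, hy⟩ hx⟩
  choose g hg using key
  refine ⟨l.map fun x => (x, g x), by simp [Function.comp_def], fun p hp => ?_⟩
  rw [steps_map] at hp
  obtain ⟨q, hq, rfl⟩ := List.mem_map.1 hp
  exact hg q.1 q.2 hq

theorem exists_nodup_chain (R : α → α → Prop) {a b : α} (h : Relation.ReflTransGen R a b) :
    a = b ∨ ∃ c : List α, (a :: (c ++ [b])).Nodup ∧ ∀ p ∈ path (a :: (c ++ [b])), R p.1 p.2 := by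
  have key : ∃ t, (a :: t).Nodup ∧ (a :: t).IsChain R ∧ (a :: t).getLast? = some b := by
    induction h using Relation.ReflTransGen.head_induction_on with
    | refl => exact ⟨[], by simp, by simp, rfl⟩
    | @head a c hac _ ih =>
      obtain ⟨t, h1, h2, h3⟩ := ih
      by_cases ha : a ∈ c :: t
      · obtain ⟨s, u, e⟩ := List.append_of_mem ha
        rw [e] at h1 h2 h3
        exact ⟨u, h1.of_append_right, h2.right_of_append, by simpa using h3⟩
      · exact ⟨c :: t, List.nodup_cons.2 ⟨ha, h1⟩, List.isChain_cons_cons.2 ⟨hac, h2⟩,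
          by simpa using h3⟩
  obtain ⟨t, h1, h2, h3⟩ := key
  rcases t.eq_nil_or_concat' with rfl | ⟨c, d, rfl⟩
  · exact Or.inl (by simpa using h3)
  · obtain rfl : d = b := by
      rw [← List.cons_append, List.getLast?_concat] at h3
      simpa using h3
    exact Or.inr ⟨c, h1, (isChain_iff_path R _).1 h2⟩

end Pool.Agent.MP_1c0fc2_co.GR

end

section

open Function

namespace Pool.Agent.MP_1c0fc2_co.GR

variable {α β α' β' : Type}

theorem one_le_wt (x y : α ⊕ β) : 1 ≤ wt x y := by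
  cases x <;> cases y <;> simp [wt]

theorem wt_le_two (x y : α ⊕ β) : wt x y ≤ 2 := by
  cases x <;> cases y <;> simp [wt]

theorem xcycw_le (L : List ((α ⊕ β) × (α ⊕ β))) :
    L.length ≤ (L.map (fun p => wt p.1 p.2)).sum := by
  induction L with
  | nil => simp
  | cons p L ih =>
    have := one_le_wt p.1 p.2
    simp only [List.length_cons, List.map_cons, List.sum_cons]
    omega

theorem xcycw_ge (L : List ((α ⊕ β) × (α ⊕ β))) :
    (L.map (fun p => wt p.1 p.2)).sum ≤ 2 * L.length := by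
  induction L with
  | nil => simp
  | cons p L ih =>
    have := wt_le_two p.1 p.2
    simp only [List.length_cons, List.map_cons, List.sum_cons]
    omega

theorem xcycw_len_path {γ : Type} (t : List γ) : ∀ a : γ, (path (a :: t)).length = t.length := by
  induction t with
  | nil => intro a; rfl
  | cons b t ih =>
    intro a
    show (path (b :: t)).length + 1 = t.length + 1
    rw [ih b]

theorem xcycw_wt_map (f : α → α') (g : β → β') (x y : α ⊕ β) :
    wt (Sum.map f g x) (Sum.map f g y) = wt x y := by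
  cases x <;> cases y <;> rfl

theorem wsum_rot {l l' : List (α ⊕ β)} (h : l ~r l') : wsum l = wsum l' := by
  unfold wsum
  exact ((steps_perm h).map _).sum_eq

theorem length_le_wsum (l : List (α ⊕ β)) : l.length ≤ wsum l := by
  unfold wsum
  rw [← length_steps l]
  exact xcycw_le _

theorem wsum_le (l : List (α ⊕ β)) : wsum l ≤ 2 * l.length := by
  unfold wsum
  rw [← length_steps l]
  exact xcycw_ge _

theorem wsum_arc (x y : α ⊕ β) (a : List (α ⊕ β)) {b : List (α ⊕ β)} (hb : b ≠ []) :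
    wsum (x :: (a ++ [y])) ≤ wsum (x :: (a ++ y :: b)) := by
  unfold wsum
  rw [steps_close, steps_split]
  simp only [List.map_append, List.sum_append, List.map_cons, List.map_nil, List.sum_cons,
    List.sum_nil]
  have h1 := wt_le_two y x
  have h2 := xcycw_le (path (y :: (b ++ [x])))
  rw [xcycw_len_path, List.length_append] at h2
  have h3 : 0 < b.length := List.length_pos_iff.mpr hb
  simp only [List.length_cons, List.length_nil] at h2
  omega

theorem wsum_del (x z y : α ⊕ β) (t : List (α ⊕ β)) :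
    wsum (x :: y :: t) ≤ wsum (x :: z :: y :: t) := by
  unfold wsum
  rw [steps_two, steps_three]
  simp only [List.map_cons, List.sum_cons]
  have h1 := wt_le_two x y
  have h2 := one_le_wt x z
  have h3 := one_le_wt z y
  omega

theorem wsum_ins (u v : α) (c : β) (t : List (α ⊕ β)) :
    wsum (.inl u :: .inr c :: .inl v :: t) = wsum (.inl u :: .inl v :: t) := by
  unfold wsum
  rw [steps_three, steps_two]
  simp only [List.map_cons, List.sum_cons]
  have h1 : wt (Sum.inl u : α ⊕ β) (.inr c) = 1 := rfl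
  have h2 : wt (Sum.inr c : α ⊕ β) (.inl v) = 1 := rfl
  have h3 : wt (Sum.inl u : α ⊕ β) (.inl v) = 2 := rfl
  rw [h1, h2, h3]
  omega

theorem wsum_map (f : α → α') (g : β → β') (l : List (α ⊕ β)) :
    wsum (l.map (Sum.map f g)) = wsum l := by
  unfold wsum
  rw [steps_map, List.map_map]
  congr 1
  apply List.map_congr_left
  intro p _
  exact xcycw_wt_map f g p.1 p.2

theorem wsum_inl (l : List α) : wsum (l.map (Sum.inl : α → α ⊕ β)) = 2 * l.length := by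
  unfold wsum
  rw [steps_map, List.map_map, ← length_steps l]
  generalize steps l = L
  induction L with
  | nil => rfl
  | cons p L ih =>
    simp only [List.map_cons, List.sum_cons, List.length_cons]
    rw [ih]
    have h : ((fun p : (α ⊕ β) × (α ⊕ β) => wt p.1 p.2) ∘ Prod.map Sum.inl Sum.inl) p = 2 := rfl
    rw [h]
    omega

variable {R R' : α ⊕ β → α ⊕ β → Prop} {w n : ℕ}

theorem Cyc.rot {l l' : List (α ⊕ β)} (h : Cyc R w n l) (hr : l ~r l') : Cyc R w n l' := by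
  have hl : l.length = l'.length := hr.perm.length_eq
  refine ⟨hr.nodup_iff.mp h.nodup, hl ▸ h.three, hl ▸ h.len, wsum_rot hr ▸ h.wle, ?_⟩
  intro p hp
  exact h.step p ((steps_perm hr).mem_iff.mpr hp)

theorem Cyc.imp {l : List (α ⊕ β)} (h : Cyc R w n l)
    (hR : ∀ x ∈ l, ∀ y ∈ l, x ≠ y → R x y → R' x y) : Cyc R' w n l := by
  refine ⟨h.nodup, h.three, h.len, h.wle, ?_⟩
  intro p hp
  have hm := mem_of_mem_steps hp
  have h2 : 2 ≤ l.length := le_trans (by norm_num) h.three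
  exact hR _ hm.1 _ hm.2 (step_ne h.nodup h2 (x := p.1) (y := p.2) hp) (h.step p hp)

theorem Cyc.mono {l : List (α ⊕ β)} {w' n' : ℕ} (h : Cyc R w n l) (hw : w ≤ w') (hn : n ≤ n') :
    Cyc R w' n' l :=
  ⟨h.nodup, h.three, h.len.trans hn, h.wle.trans hw, h.step⟩

theorem Cyc.arc {x y : α ⊕ β} {a b : List (α ⊕ β)} (h : Cyc R w n (x :: (a ++ y :: b)))
    (ha : a ≠ []) (hb : b ≠ []) (hyx : R y x) : Cyc R w n (x :: (a ++ [y])) := by
  have hs : (x :: (a ++ [y])).Sublist (x :: (a ++ y :: b)) :=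
    List.Sublist.cons_cons x (List.Sublist.append_left
      (List.Sublist.cons_cons y (List.nil_sublist b)) a)
  have h3 : 0 < a.length := List.length_pos_iff.mpr ha
  refine ⟨h.nodup.sublist hs, ?_, hs.length_le.trans h.len, (wsum_arc x y a hb).trans h.wle, ?_⟩
  · simp only [List.length_cons, List.length_append, List.length_nil]
    omega
  · intro p hp
    rw [steps_close, List.mem_append] at hp
    rcases hp with hp | hp
    · apply h.step
      rw [steps_split]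
      exact List.mem_append_left _ hp
    · rw [List.mem_singleton] at hp
      subst hp
      exact hyx

theorem Cyc.del {x z y : α ⊕ β} {t : List (α ⊕ β)} (h : Cyc R w (n + 1) (x :: z :: y :: t))
    (ht : t ≠ []) (hxy : R x y) : Cyc R w n (x :: y :: t) := by
  have hs : (x :: y :: t).Sublist (x :: z :: y :: t) :=
    List.Sublist.cons_cons x (List.sublist_cons_self z (y :: t))
  have h3 : 0 < t.length := List.length_pos_iff.mpr ht
  have h4 := h.len
  refine ⟨h.nodup.sublist hs, ?_, ?_, (wsum_del x z y t).trans h.wle, ?_⟩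
  · simp only [List.length_cons]
    omega
  · simp only [List.length_cons] at h4 ⊢
    omega
  · intro p hp
    rw [steps_two, List.mem_cons] at hp
    rcases hp with hp | hp
    · subst hp
      exact hxy
    · apply h.step
      rw [steps_three]
      exact List.mem_cons_of_mem _ (List.mem_cons_of_mem _ hp)

theorem Cyc.of_map {S : α' ⊕ β' → α' ⊕ β' → Prop} {f : α → α'} {g : β → β'}
    {l : List (α ⊕ β)} (h : Cyc S w n (l.map (Sum.map f g)))
    (hR : ∀ x ∈ l, ∀ y ∈ l, x ≠ y → S (Sum.map f g x) (Sum.map f g y) → R x y) :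
    Cyc R w n l := by
  have hn : l.Nodup := List.Nodup.of_map _ h.nodup
  have h3 : 3 ≤ l.length := by simpa using h.three
  refine ⟨hn, h3, by simpa using h.len, wsum_map f g l ▸ h.wle, ?_⟩
  intro p hp
  have hm := mem_of_mem_steps hp
  have h2 : 2 ≤ l.length := le_trans (by norm_num) h3
  refine hR _ hm.1 _ hm.2 (step_ne hn h2 (x := p.1) (y := p.2) hp) ?_
  have hq : Prod.map (Sum.map f g) (Sum.map f g) p ∈ steps (l.map (Sum.map f g)) := by
    rw [steps_map]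
    exact List.mem_map_of_mem hp
  exact h.step _ hq

end Pool.Agent.MP_1c0fc2_co.GR

end

section

open Function

namespace Pool.Agent.MP_1c0fc2_co.GR

variable {α β : Type} {l l' : List α} {x y z u v : α}

theorem xcycb_split (h : l ~r l') : ∃ a b, l = a ++ b ∧ l' = b ++ a := by
  obtain ⟨n, hn, rfl⟩ := List.isRotated_iff_mod.1 h
  exact ⟨l.take n, l.drop n, (List.take_append_drop n l).symm, List.rotate_eq_drop_append_take hn⟩

theorem xcycb_mid {p s a1 a2 : List α} (hp : p ≠ []) (hs : s ≠ [])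
    (h : u :: (p ++ v :: s) = a2 ++ a1) (b : List α) : NonCons (a2 ++ (b ++ a1)) u v := by
  rcases List.cons_eq_append_iff.1 h with ⟨rfl, rfl⟩ | ⟨a, rfl, h1⟩
  · refine ⟨p, s ++ b, hp, by simp [hs], ?_⟩
    simpa using List.isRotated_append (l := b) (l' := u :: (p ++ v :: s))
  · rcases List.append_eq_append_iff.1 h1 with ⟨c, rfl, h2⟩ | ⟨c, rfl, rfl⟩
    · rcases List.cons_eq_append_iff.1 h2 with ⟨rfl, rfl⟩ | ⟨c', rfl, rfl⟩
      · exact ⟨p ++ b, s, by simp [hp], hs, by simpa using List.IsRotated.refl _⟩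
      · refine ⟨p, c' ++ (b ++ a1), hp, fun e => hs ?_, by simpa using List.IsRotated.refl _⟩
        simp only [List.append_eq_nil_iff] at e ⊢
        exact ⟨e.1, e.2.2⟩
    · refine ⟨a ++ (b ++ c), s, fun e => hp ?_, hs, by simpa using List.IsRotated.refl _⟩
      simp only [List.append_eq_nil_iff] at e ⊢
      exact ⟨e.1, e.2.2⟩

theorem xcycb_not_step (h : NonCons l x y) (hn : l.Nodup) : (x, y) ∉ steps l := by
  obtain ⟨a, b, ha, -, hr⟩ := h
  obtain ⟨c, a, rfl⟩ := List.exists_cons_of_ne_nil ha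
  intro h1
  have h2 := hr.nodup_iff.1 hn
  obtain rfl := step_unique h2 ((steps_perm hr).mem_iff.1 h1)
    (show (x, c) ∈ steps (x :: c :: (a ++ y :: b)) by rw [steps_two]; exact List.mem_cons_self)
  simp at h2

theorem xcycb_two (hx : x ∈ l) (hy : y ∈ l) (hxy : x ≠ y) :
    ∃ a b, l ~r (x :: (a ++ y :: b)) := by
  obtain ⟨s, t, rfl⟩ := List.append_of_mem hx
  have hr : (s ++ x :: t) ~r (x :: (t ++ s)) := List.isRotated_append
  obtain ⟨a, b, e⟩ := List.append_of_mem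
    ((List.mem_cons.1 (hr.mem_iff.1 hy)).resolve_left hxy.symm)
  exact ⟨a, b, e ▸ hr⟩

theorem xcycb_or_step (hx : x ∈ l) (hy : y ∈ l) (hxy : x ≠ y) :
    NonCons l x y ∨ (x, y) ∈ steps l ∨ (y, x) ∈ steps l := by
  obtain ⟨a, b, hr⟩ := xcycb_two hx hy hxy
  rw [(steps_perm hr).mem_iff, (steps_perm hr).mem_iff]
  by_cases ha : a = []
  · subst ha
    exact Or.inr (Or.inl (by rw [List.nil_append, steps_two]; exact List.mem_cons_self))
  by_cases hb : b = []
  · subst hb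
    exact Or.inr (Or.inr (by rw [steps_close]; simp))
  exact Or.inl ⟨a, b, ha, hb, hr⟩

theorem xcycb_three {a b c : List α} (h4 : 4 ≤ l.length)
    (hr : l ~r (x :: (a ++ y :: (b ++ z :: c)))) :
    NonCons l x y ∨ NonCons l y z ∨ NonCons l x z := by
  by_cases ha : a = []
  swap
  · exact Or.inl ⟨a, _, ha, by simp, hr⟩
  by_cases hc : c = []
  swap
  · exact Or.inr (Or.inr ⟨a ++ y :: b, c, by simp, hc, by simpa using hr⟩)
  subst ha hc
  refine Or.inr (Or.inl ⟨b, [x], ?_, by simp, hr.trans ?_⟩)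
  · rintro rfl
    rw [hr.perm.length_eq] at h4
    simp at h4
  · simpa using List.isRotated_append (l := [x]) (l' := y :: (b ++ [z]))

theorem NonCons.symm (h : NonCons l x y) : NonCons l y x := by
  obtain ⟨a, b, ha, hb, hr⟩ := h
  exact ⟨b, a, hb, ha, hr.trans (List.isRotated_append (l := x :: a) (l' := y :: b))⟩

theorem NonCons.rot (h : NonCons l x y) (hr : l ~r l') : NonCons l' x y := by
  obtain ⟨a, b, ha, hb, hr'⟩ := h
  exact ⟨a, b, ha, hb, hr.symm.trans hr'⟩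

theorem NonCons.mem (h : NonCons l x y) : x ∈ l ∧ y ∈ l := by
  obtain ⟨a, b, -, -, hr⟩ := h
  exact ⟨hr.mem_iff.2 (by simp), hr.mem_iff.2 (by simp)⟩

theorem NonCons.ne (h : NonCons l x y) (hn : l.Nodup) : x ≠ y := by
  obtain ⟨a, b, -, -, hr⟩ := h
  rintro rfl
  have h1 := hr.nodup_iff.1 hn
  simp at h1

theorem NonCons.four_le (h : NonCons l x y) : 4 ≤ l.length := by
  obtain ⟨a, b, ha, hb, hr⟩ := h
  have h1 := List.length_pos_iff.2 ha
  have h2 := List.length_pos_iff.2 hb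
  rw [hr.perm.length_eq, List.length_cons, List.length_append, List.length_cons]
  omega

theorem NonCons.map (f : α → β) (h : NonCons l x y) : NonCons (l.map f) (f x) (f y) := by
  obtain ⟨a, b, ha, hb, hr⟩ := h
  exact ⟨a.map f, b.map f, by simpa using ha, by simpa using hb, by simpa using hr.map f⟩

theorem NonCons.of_map {f : α → β} {a b : β} (h : NonCons (l.map f) a b) :
    ∃ x y, f x = a ∧ f y = b ∧ NonCons l x y := by
  obtain ⟨p, q, hp, hq, n, hr⟩ := h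
  rw [← List.map_rotate] at hr
  obtain ⟨x, t, h1, rfl, h2⟩ := List.map_eq_cons_iff.1 hr
  obtain ⟨p', t', rfl, rfl, h3⟩ := List.map_eq_append_iff.1 h2
  obtain ⟨y, q', rfl, rfl, rfl⟩ := List.map_eq_cons_iff.1 h3
  exact ⟨x, y, rfl, rfl, p', q', by simpa using hp, by simpa using hq, n, h1⟩

theorem NonCons.append {a : List α} (h : NonCons a u v) (b : List α) : NonCons (a ++ b) u v := by
  obtain ⟨p, s, hp, hs, hr⟩ := h
  obtain ⟨a1, a2, rfl, h1⟩ := xcycb_split hr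
  refine NonCons.rot (xcycb_mid hp hs h1 b) ?_
  rw [← List.append_assoc, List.append_assoc a1]
  exact List.isRotated_append

theorem NonCons.arc {a : List α} (h : NonCons (x :: (a ++ [y])) u v) (b : List α) :
    NonCons (x :: (a ++ y :: b)) u v := by
  simpa using h.append b

theorem NonCons.ins {t : List α} (h : NonCons (x :: y :: t) u v) (z : α) :
    NonCons (x :: z :: y :: t) u v := by
  have h1 := (h.rot (List.isRotated_append (l := [x]) (l' := y :: t))).append [z]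
  rw [List.append_assoc] at h1
  exact h1.rot List.isRotated_append

theorem nonCons_ends {t : List α} (ht : t ≠ []) (x z y : α) : NonCons (x :: z :: y :: t) x y := by
  exact ⟨[z], t, List.cons_ne_nil _ _, ht, List.IsRotated.refl _⟩

theorem NonCons.del {t : List α} (h : NonCons (x :: z :: y :: t) u v)
    (hn : (x :: z :: y :: t).Nodup) (hu : u ≠ z) (hv : v ≠ z) :
    NonCons (x :: y :: t) u v ∨ (u = x ∧ v = y) ∨ (u = y ∧ v = x) := by
  have hm : ∀ w, w ∈ x :: z :: y :: t → w ≠ z → w ∈ x :: y :: t := fun w h1 h2 => by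
    simpa [h2] using h1
  have hs : ∀ a b, (a, b) ∈ steps (x :: y :: t) →
      (a = x ∧ b = y) ∨ (a, b) ∈ steps (x :: z :: y :: t) := fun a b h1 => by
    rw [steps_two, List.mem_cons] at h1
    rw [steps_three]
    exact h1.imp Prod.mk.inj fun h2 => List.mem_cons_of_mem _ (List.mem_cons_of_mem _ h2)
  rcases xcycb_or_step (hm u h.mem.1 hu) (hm v h.mem.2 hv) (h.ne hn) with h1 | h1 | h1
  · exact Or.inl h1
  · exact Or.inr (Or.inl ((hs _ _ h1).resolve_right (xcycb_not_step h hn)))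
  · exact Or.inr (Or.inr ((hs _ _ h1).resolve_right (xcycb_not_step h.symm hn)).symm)

theorem NonCons.not_step (h : NonCons l x y) (hn : l.Nodup) : (x, y) ∉ steps l := by
  exact xcycb_not_step h hn

theorem nonCons_or_step (hx : x ∈ l) (hy : y ∈ l) (hxy : x ≠ y) :
    NonCons l x y ∨ (x, y) ∈ steps l ∨ (y, x) ∈ steps l := by
  exact xcycb_or_step hx hy hxy

theorem nonCons_three (hn : l.Nodup) (h4 : 4 ≤ l.length) (hx : x ∈ l) (hy : y ∈ l) (hz : z ∈ l)
    (hxy : x ≠ y) (hyz : y ≠ z) (hxz : x ≠ z) :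
    NonCons l x y ∨ NonCons l y z ∨ NonCons l x z := by
  obtain ⟨a, b, hr⟩ := xcycb_two hx hy hxy
  have h1 := hr.mem_iff.1 hz
  rw [List.mem_cons, List.mem_append, List.mem_cons, or_iff_right hxz.symm,
    or_iff_right hyz.symm] at h1
  rcases h1 with h1 | h1
  · obtain ⟨p, q, rfl⟩ := List.append_of_mem h1
    rw [List.append_assoc] at hr
    rcases xcycb_three h4 hr with h2 | h2 | h2
    exacts [Or.inr (Or.inr h2), Or.inr (Or.inl h2.symm), Or.inl h2]
  · obtain ⟨p, q, rfl⟩ := List.append_of_mem h1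
    exact xcycb_three h4 hr

theorem nonCons_of_step (hn : l.Nodup) (h4 : 4 ≤ l.length) (h : (u, v) ∈ steps l) (hz : z ∈ l)
    (hu : z ≠ u) (hv : z ≠ v) : NonCons l z u ∨ NonCons l z v := by
  obtain ⟨h1, h2⟩ := mem_of_mem_steps h
  rcases nonCons_three hn h4 hz h1 h2 hu (step_ne hn (by omega) h) hv with h3 | h3 | h3
  exacts [Or.inl h3, absurd h (h3.not_step hn), Or.inr h3]

theorem exists_nonCons (h4 : 4 ≤ l.length) : ∃ x y, NonCons l x y := by
  match l, h4 with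
  | a :: b :: c :: d :: t, _ => exact ⟨a, c, nonCons_ends (List.cons_ne_nil _ _) a b c⟩

theorem mem_three (h3 : l.length = 3) (hx : x ∈ l) (hy : y ∈ l) (hz : z ∈ l)
    (hxy : x ≠ y) (hyz : y ≠ z) (hxz : x ≠ z) : ∀ a ∈ l, a = x ∨ a = y ∨ a = z := by
  obtain ⟨p, q, r, rfl⟩ := List.length_eq_three.1 h3
  simp only [List.mem_cons, List.not_mem_nil, or_false] at hx hy hz ⊢
  grind

end Pool.Agent.MP_1c0fc2_co.GR

end

section

open Function

namespace Pool.Agent.MP_1c0fc2_co.GR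

variable {A B C : Geo} {P : Type}

theorem GHom.n_inj (h : GHom A B) : Injective h.n := by
  exact Function.Injective.sumMap h.v_inj h.c_inj

theorem GHom.n_comp (g : GHom B C) (h : GHom A B) (x : A.N) : (g.comp h).n x = g.n (h.n x) := by
  cases x <;> rfl

theorem GHom.bag_comp (g : GHom B C) (h : GHom A B) (z : C.N) :
    (g.comp h).Bag z ↔ ∃ y, h.Bag y ∧ g.n y = z := by
  constructor
  · rintro ⟨x, rfl⟩
    exact ⟨h.n x, ⟨x, rfl⟩, (GHom.n_comp g h x).symm⟩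
  · rintro ⟨y, ⟨x, rfl⟩, rfl⟩
    exact ⟨x, GHom.n_comp g h x⟩

theorem GHom.bag_inl (h : GHom A B) (v : B.V) : h.Bag (.inl v) ↔ ∃ u, h.v u = v := by
  constructor
  · rintro ⟨x, hx⟩
    cases x with
    | inl u => exact ⟨u, Sum.inl.inj hx⟩
    | inr c => exact absurd hx Sum.inr_ne_inl
  · rintro ⟨u, rfl⟩
    exact ⟨.inl u, rfl⟩

theorem GHom.bag_inr (h : GHom A B) (c : B.C) : h.Bag (.inr c) ↔ ∃ d, h.c d = c := by
  constructor
  · rintro ⟨x, hx⟩
    cases x with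
    | inl u => exact absurd hx Sum.inl_ne_inr
    | inr d => exact ⟨d, Sum.inr.inj hx⟩
  · rintro ⟨u, rfl⟩
    exact ⟨.inr u, rfl⟩

theorem GHom.wb (h : GHom A B) {d : A.C} {x : A.N} (hx : A.WB d x) : B.WB (h.c d) (h.n x) := by
  cases x with
  | inl u => exact h.map u d hx
  | inr c =>
    have hc : c = d := hx
    exact congrArg h.c hc

theorem GHom.wp (h : GHom A B) {x y : A.N} (hx : A.WP x y) : B.WP (h.n x) (h.n y) := by
  obtain ⟨d, h1, h2⟩ := hx
  exact ⟨h.c d, h.wb h1, h.wb h2⟩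

theorem GHom.wb_pull {h : GHom A B} (hi : h.Ind) {d : A.C} {x : A.N}
    (hx : B.WB (h.c d) (h.n x)) : A.WB d x := by
  cases x with
  | inl u => exact hi u d hx
  | inr c =>
    have hc : h.c c = h.c d := hx
    exact h.c_inj hc

theorem GHom.wp_pull {h : GHom A B} (hi : h.Ind) (hs : h.Str) {x y : A.N} (hxy : x ≠ y)
    (hx : B.WP (h.n x) (h.n y)) : A.WP x y := by
  obtain ⟨d, h1, h2⟩ := hx
  have key : ∃ c, h.c c = d := by
    cases x with
    | inr c => exact ⟨c, h1⟩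
    | inl u =>
      cases y with
      | inr c => exact ⟨c, h2⟩
      | inl w => exact hs u w d (fun e => hxy (congrArg Sum.inl e)) h1 h2
  obtain ⟨c, rfl⟩ := key
  exact ⟨c, GHom.wb_pull hi h1, GHom.wb_pull hi h2⟩

theorem GHom.Ind.comp {g : GHom B C} {h : GHom A B} (hg : g.Ind) (hh : h.Ind) :
    (g.comp h).Ind := by
  intro x y hm
  exact hh x y (hg _ _ hm)

theorem GHom.Str.comp {g : GHom B C} {h : GHom A B} (hg : g.Str) (hi : g.Ind) (hh : h.Str) :
    (g.comp h).Str := by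
  intro x y d hxy h1 h2
  obtain ⟨c, rfl⟩ := hg (h.v x) (h.v y) d (fun e => hxy (h.v_inj e)) h1 h2
  obtain ⟨c', rfl⟩ := hh x y c hxy (hi _ _ h1) (hi _ _ h2)
  exact ⟨c', rfl⟩

theorem Geo.WP.symm {x y : A.N} (h : A.WP x y) : A.WP y x := by
  obtain ⟨d, h1, h2⟩ := h
  exact ⟨d, h2, h1⟩

theorem Geo.not_wp_inr {c d : A.C} (h : c ≠ d) : ¬ A.WP (.inr c) (.inr d) := by
  rintro ⟨e, h1, h2⟩
  have a : c = e := h1
  have b : d = e := h2
  exact h (a.trans b.symm)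

theorem Geo.wp_inl_inr {v : A.V} {d : A.C} : A.WP (.inl v) (.inr d) ↔ A.M v d := by
  constructor
  · rintro ⟨e, h1, h2⟩
    have b : d = e := h2
    subst b
    exact h1
  · intro hm
    exact ⟨d, hm, rfl⟩

theorem Adj.symm {φ : P → GHom A B} {x y : B.N} (h : Adj φ x y) : Adj φ y x := by
  rcases h with ⟨p, h1, h2⟩ | h
  · exact Or.inl ⟨p, h2, h1⟩
  · exact Or.inr h.symm

theorem InBag.adj {φ : P → GHom A B} {l : List B.N} (h : InBag φ l) {x y : B.N} (hx : x ∈ l)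
    (hy : y ∈ l) : Adj φ x y := by
  rcases h with ⟨p, h⟩ | ⟨d, h⟩
  · exact Or.inl ⟨p, h x hx, h y hy⟩
  · exact Or.inr ⟨d, h x hx, h y hy⟩

theorem InBag.sub {φ : P → GHom A B} {l l' : List B.N} (h : InBag φ l) (hs : ∀ x ∈ l', x ∈ l) :
    InBag φ l' := by
  rcases h with ⟨p, h⟩ | ⟨d, h⟩
  · exact Or.inl ⟨p, fun x hx => h x (hs x hx)⟩
  · exact Or.inr ⟨d, fun x hx => h x (hs x hx)⟩

theorem AC.mono {φ : P → GHom A B} {w n w' n' : ℕ} (h : AC φ w n) (hw : w' ≤ w) (hn : n' ≤ n) :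
    AC φ w' n' := by
  intro l hl
  exact h l ⟨hl.nodup, hl.three, hl.len.trans hn, hl.wle.trans hw, hl.step⟩

theorem AC.of_len {φ : P → GHom A B} {g : ℕ} (h : AC φ (2 * g) g) (w : ℕ) : AC φ w g := by
  intro l hl
  refine h l ⟨hl.nodup, hl.three, hl.len, ?_, hl.step⟩
  have h1 := wsum_le l
  have h2 := hl.len
  omega

theorem AC.all {φ : P → GHom A B} {w : ℕ} (h : AC φ w w) (n : ℕ) : AC φ w n := by
  intro l hl
  exact h l ⟨hl.nodup, hl.three, (length_le_wsum l).trans hl.wle, hl.wle, hl.step⟩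

theorem AC.two (φ : P → GHom A B) (w : ℕ) {n : ℕ} (h : n ≤ 2) : AC φ w n := by
  intro l hl
  have h1 := hl.three
  have h2 := hl.len
  omega

theorem AC.tri {φ : P → GHom A B} {w n : ℕ} (h : AC φ w n) (hn : 3 ≤ n) {x y z : B.N}
    (hxy : x ≠ y) (hyz : y ≠ z) (hxz : x ≠ z) (hw : wt x y + wt y z + wt z x ≤ w)
    (h1 : Adj φ x y) (h2 : Adj φ y z) (h3 : Adj φ z x) : InBag φ [x, y, z] := by
  have hs : steps [x, y, z] = [(x, y), (y, z), (z, x)] := rfl
  have hc : Cyc (Adj φ) w n [x, y, z] := by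
    refine ⟨?_, le_refl _, hn, ?_, ?_⟩
    · simp [hxy, hyz, hxz]
    · unfold wsum
      rw [hs]
      simp only [List.map_cons, List.map_nil, List.sum_cons, List.sum_nil]
      omega
    · intro p hp
      rw [hs] at hp
      simp only [List.mem_cons, List.not_mem_nil, or_false] at hp
      rcases hp with rfl | rfl | rfl
      · exact h1
      · exact h2
      · exact h3
  rcases h _ hc with ⟨a, b, hab, _⟩ | hb
  · have := hab.four_le
    simp at this
  · exact hb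

theorem AC.quad {φ : P → GHom A B} {w n : ℕ} (h : AC φ w n) (hn : 4 ≤ n) {x y z t : B.N}
    (hd : [x, y, z, t].Nodup) (hw : wt x y + wt y z + wt z t + wt t x ≤ w)
    (h1 : Adj φ x y) (h2 : Adj φ y z) (h3 : Adj φ z t) (h4 : Adj φ t x) :
    Adj φ x z ∨ Adj φ y t := by
  have hs : steps [x, y, z, t] = [(x, y), (y, z), (z, t), (t, x)] := rfl
  have hc : Cyc (Adj φ) w n [x, y, z, t] := by
    refine ⟨hd, by simp, hn, ?_, ?_⟩
    · unfold wsum
      rw [hs]
      simp only [List.map_cons, List.map_nil, List.sum_cons, List.sum_nil]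
      omega
    · intro p hp
      rw [hs] at hp
      simp only [List.mem_cons, List.not_mem_nil, or_false] at hp
      rcases hp with rfl | rfl | rfl | rfl
      · exact h1
      · exact h2
      · exact h3
      · exact h4
  rcases h _ hc with ⟨a, b, hab, hadj⟩ | hb
  · have hm := hab.mem
    have hne := hab.ne hd
    have n1 := hab.not_step hd
    have n2 := hab.symm.not_step hd
    rw [hs] at n1 n2
    obtain ⟨ha, hb⟩ := hm
    simp only [List.mem_cons, List.not_mem_nil, or_false] at ha hb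
    rcases ha with rfl | rfl | rfl | rfl <;> rcases hb with rfl | rfl | rfl | rfl
    all_goals first
      | exact absurd rfl hne
      | exact Or.inl hadj
      | exact Or.inr hadj
      | exact Or.inl hadj.symm
      | exact Or.inr hadj.symm
      | (exfalso; apply n1; simp; done)
      | (exfalso; apply n2; simp; done)
  · exact Or.inl (hb.adj (by simp) (by simp))

end Pool.Agent.MP_1c0fc2_co.GR

end

section

open Function

namespace Pool.Agent.MP_1c0fc2_co.GR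

variable {A B : Geo} {g : ℕ}

theorem Geo.WCyc.self {l : List (A.V × A.C)} (h : A.WCyc l) {a : A.V × A.C} (ha : a ∈ l) :
    A.M a.1 a.2 := by
  obtain ⟨y, hy⟩ := exists_step_fst ha
  exact (h.2 _ hy).1

theorem Geo.WCyc.rot {l l' : List (A.V × A.C)} (h : A.WCyc l) (hr : l ~r l') : A.WCyc l' := by
  exact ⟨(hr.perm.map _).nodup_iff.1 h.1, fun p hp => h.2 p ((steps_perm hr).mem_iff.2 hp)⟩

theorem Geo.WCyc.step_ne {l : List (A.V × A.C)} (h : A.WCyc l) (h2 : 2 ≤ l.length)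
    {p : (A.V × A.C) × (A.V × A.C)} (hp : p ∈ steps l) : p.1.1 ≠ p.2.1 := by
  refine GR.step_ne h.1 (by simpa using h2) ?_
  rw [steps_map]
  exact List.mem_map.2 ⟨p, hp, rfl⟩

theorem xgir_del (h : A.Gir g) {l : List (A.V × A.C)} (hl : A.WCyc l) (h2 : 2 ≤ l.length)
    (hg : l.length ≤ g + 1) (hp : ∃ p ∈ steps l, p.1.2 = p.2.2) :
    ∀ a ∈ l, ∀ b ∈ l, a.2 = b.2 := by
  obtain ⟨⟨x, z⟩, hp, e⟩ := hp
  obtain ⟨t, hr⟩ := step_rot h2 hp
  have h3 := hl.rot hr
  have key : ∀ a ∈ x :: t, a.2 = x.2 := by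
    rcases t with _ | ⟨y, t⟩
    · simp
    · have h4 : A.WCyc (x :: y :: t) := by
        refine ⟨h3.1.sublist (((List.sublist_cons_self z _).cons_cons x).map _), fun p hp => ?_⟩
        have h5 := h3.2
        rw [steps_three] at h5
        rw [steps_two] at hp
        rcases List.mem_cons.1 hp with rfl | hp
        · exact ⟨(h5 (x, z) (by simp)).1, by
            have := (h5 (z, y) (by simp)).2
            rwa [← show x.2 = z.2 from e] at this⟩
        · exact h5 p (by simp [hp])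
      have h5 := hr.perm.length_eq
      simp only [List.length_cons] at h5
      exact fun a ha => h _ h4 (by simp) (by simp only [List.length_cons]; omega) a ha x (by simp)
  have key' : ∀ a ∈ l, a.2 = x.2 := by
    intro a ha
    rcases List.mem_cons.1 (hr.perm.mem_iff.1 ha) with rfl | ha
    · rfl
    · rcases List.mem_cons.1 ha with rfl | ha
      · exact e.symm
      · exact key a (List.mem_cons_of_mem _ ha)
  exact fun a ha b hb => (key' a ha).trans (key' b hb).symm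

theorem gir_of_strict (h : ∀ l, A.WCyc l → 2 ≤ l.length → l.length ≤ g →
    (∀ p ∈ steps l, p.1.2 ≠ p.2.2) → False) : A.Gir g := by
  induction g with
  | zero => intro l _ h2 h3; omega
  | succ g ih =>
    intro l hl h2 h3
    by_cases hp : ∃ p ∈ steps l, p.1.2 = p.2.2
    · exact xgir_del (ih fun l h1 h2 h3 => h l h1 h2 (by omega)) hl h2 h3 hp
    · exact (h l hl h2 h3 fun p h4 e => hp ⟨p, h4, e⟩).elim

theorem Geo.Gir.del (h : A.Gir g) {l : List (A.V × A.C)} (hl : A.WCyc l) (h2 : 2 ≤ l.length)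
    (hg : l.length ≤ g + 1) (hp : ∃ p ∈ steps l, p.1.2 = p.2.2) :
    ∀ a ∈ l, ∀ b ∈ l, a.2 = b.2 := by
  exact xgir_del h hl h2 hg hp

theorem Geo.Gir.mono {g' : ℕ} (h : A.Gir g) (hg : g' ≤ g) : A.Gir g' := by
  exact fun l h1 h2 h3 => h l h1 h2 (h3.trans hg)

theorem gir_two : A.Gir 2 ↔ A.B3 := by
  constructor
  · intro h u v c d huv h1 h2 h3 h4
    refine h [(u, c), (v, d)] ⟨by simpa using huv, ?_⟩ (by simp) (by simp) (u, c) (by simp) (v, d)
      (by simp)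
    simp [steps, path, h1, h2, h3, h4]
  · intro h
    refine gir_of_strict fun l hl h2 h3 h4 => ?_
    obtain ⟨a, b, rfl⟩ := List.length_eq_two.1 (le_antisymm h3 h2)
    have h5 : (a, b) ∈ steps [a, b] := by simp [steps, path]
    have h6 : (b, a) ∈ steps [a, b] := by simp [steps, path]
    exact h4 _ h5 (h _ _ _ _ (hl.step_ne h2 h5) (hl.2 _ h5).1 (hl.2 _ h5).2 (hl.2 _ h6).2
      (hl.2 _ h6).1)

theorem gir_of_le_one (hg : g ≤ 1) : A.Gir g := by
  intro l _ h2 h3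
  omega

theorem gir_of_subsingleton (h : ∀ c d : A.C, c = d) : A.Gir g := by
  exact fun _ _ _ _ a _ b _ => h a.2 b.2

theorem Geo.Gir.pull (h : B.Gir g) (f : GHom A B) : A.Gir g := by
  intro l hl h2 h3 a ha b hb
  refine f.c_inj (h (l.map (Prod.map f.v f.c)) ⟨?_, ?_⟩ (by simpa using h2) (by simpa using h3)
    _ (List.mem_map_of_mem ha) _ (List.mem_map_of_mem hb))
  · have := hl.1.map f.v_inj
    simpa [Function.comp_def] using this
  · rw [steps_map]
    intro p hp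
    obtain ⟨q, hq, rfl⟩ := List.mem_map.1 hp
    exact ⟨f.map _ _ (hl.2 q hq).1, f.map _ _ (hl.2 q hq).2⟩

theorem Geo.Gir.of_two (h : A.Gir g) (f : GHom A B) (hi : f.Ind)
    (hv : ∀ v c c', c ≠ c' → B.M v c → B.M v c' → ∃ u, f.v u = v)
    (hc : ∀ v c, B.M v c → ∃ c', f.c c' = c) : B.Gir g := by
  refine gir_of_strict fun l hl h2 h3 h4 => ?_
  have h5 : ∀ b ∈ l, ∃ a, Prod.map f.v f.c a = b := by
    intro b hb
    obtain ⟨a, ha⟩ := exists_step_snd hb
    obtain ⟨u, hu⟩ := hv _ _ _ (h4 _ ha) (hl.2 _ ha).2 (hl.self hb)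
    obtain ⟨c, hc⟩ := hc _ _ (hl.self hb)
    exact ⟨(u, c), Prod.ext hu hc⟩
  obtain ⟨l', rfl⟩ : ∃ l' : List (A.V × A.C), l'.map (Prod.map f.v f.c) = l :=
    ⟨l.attach.map fun b => (h5 b.1 b.2).choose, by
      rw [List.map_map]
      exact (List.map_congr_left fun b _ => (h5 b.1 b.2).choose_spec).trans (List.attach_map_val ..
        |>.trans l.map_id)⟩
  rw [List.length_map] at h2 h3
  have h6 : A.WCyc l' := by
    refine ⟨List.Nodup.of_map f.v (by simpa [Function.comp_def] using hl.1), fun p hp => ?_⟩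
    have := hl.2 (Prod.map (Prod.map f.v f.c) (Prod.map f.v f.c) p)
      (by rw [steps_map]; exact List.mem_map_of_mem hp)
    exact ⟨hi _ _ this.1, hi _ _ this.2⟩
  obtain ⟨a, ha⟩ := List.exists_mem_of_length_pos (l := l') (by omega)
  obtain ⟨b, hb⟩ := exists_step_fst ha
  refine h4 (Prod.map (Prod.map f.v f.c) (Prod.map f.v f.c) (a, b))
    (by rw [steps_map]; exact List.mem_map_of_mem hb) ?_
  exact congrArg f.c (h l' h6 h2 h3 a ha b (mem_of_mem_steps hb).2)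

/-- local girth and girth one level higher give girth -/
theorem gir_run {V C C' : Type} (M : V → C → Prop) (M' : V → C' → Prop) (π : C → C')
    (hπ : ∀ v c, M v c → M' v (π c)) (h' : (Geo.mk V C' M').Gir g)
    (hl : ∀ z, ((Geo.mk V C M).res (fun c => π c = z)).Gir g) : (Geo.mk V C M).Gir g := by
  intro l h1 h2 h3 a ha
  have h4 := h' (l.map (Prod.map id π)) ⟨by simpa [Function.comp_def] using h1.1, by
    rw [steps_map]
    intro p hp
    obtain ⟨q, hq, rfl⟩ := List.mem_map.1 hp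
    exact ⟨hπ _ _ (h1.2 q hq).1, hπ _ _ (h1.2 q hq).2⟩⟩ (by simpa using h2) (by simpa using h3)
  refine hl (π a.2) l ⟨h1.1, fun p hp => ?_⟩ h2 h3 a ha
  have h5 : π p.1.2 = π a.2 :=
    h4 _ (List.mem_map_of_mem (mem_of_mem_steps hp).1) _ (List.mem_map_of_mem ha)
  exact ⟨⟨(h1.2 p hp).1, h5⟩, (h1.2 p hp).2, h5⟩

end Pool.Agent.MP_1c0fc2_co.GR

end

section

open Function

namespace Pool.Agent.MP_1c0fc2_co.GR

variable {A B : Geo} {P : Type} {φ : P → GHom A B} {w n g : ℕ}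

theorem xtl_rot {α : Type} (x y : α) (a b : List α) :
    (x :: (a ++ y :: b)) ~r (y :: (b ++ x :: a)) :=
  List.isRotated_append (l := x :: a) (l' := y :: b)

theorem xtl_mem {α : Type} {l a b : List α} {x y z : α} (hr : l ~r (x :: (a ++ y :: b))) :
    z ∈ l ↔ z ∈ x :: (a ++ [y]) ∨ z ∈ y :: (b ++ [x]) := by
  rw [hr.mem_iff]
  simp only [List.mem_cons, List.mem_append, List.not_mem_nil, or_false]
  tauto

theorem xtl_len {α : Type} {l a b : List α} {x y : α} (hr : l ~r (x :: (a ++ y :: b)))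
    (ha : a ≠ []) (hb : b ≠ []) :
    (x :: (a ++ [y])).length < l.length ∧ (y :: (b ++ [x])).length < l.length := by
  have h1 := List.length_pos_iff.2 ha
  have h2 := List.length_pos_iff.2 hb
  have h3 := hr.perm.length_eq
  simp only [List.length_cons, List.length_append, List.length_nil] at h3 ⊢
  omega

theorem xtl_split {l a b : List B.N} {x y : B.N} (hl : Cyc (Adj φ) w n l)
    (hr : l ~r (x :: (a ++ y :: b))) (ha : a ≠ []) (hb : b ≠ []) (hxy : Adj φ x y) :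
    Cyc (Adj φ) w n (x :: (a ++ [y])) ∧ Cyc (Adj φ) w n (y :: (b ++ [x])) :=
  ⟨(hl.rot hr).arc ha hb hxy.symm, (hl.rot (hr.trans (xtl_rot x y a b))).arc hb ha hxy⟩

/-- triangulation lemma -/
theorem tl (h2 : B2 φ) (h : AC φ w n) {l : List B.N} (hl : Cyc (Adj φ) w n l) : TLo φ l := by
  induction hk : l.length using Nat.strong_induction_on generalizing l with
  | _ k ih =>
    subst hk
    rcases h l hl with ⟨x, y, hnc, hxy⟩ | hb
    · obtain ⟨a, b, ha, hb, hr⟩ := id hnc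
      obtain ⟨c1, c2⟩ := xtl_split hl hr ha hb hxy
      obtain ⟨n1, n2⟩ := xtl_len hr ha hb
      rcases ih _ n1 c1 rfl with ⟨u, v, huv, hw⟩ | hb1
      · exact Or.inl ⟨u, v, (huv.arc b).rot hr.symm, hw⟩
      rcases ih _ n2 c2 rfl with ⟨u, v, huv, hw⟩ | hb2
      · exact Or.inl ⟨u, v, (huv.arc a).rot (hr.trans (xtl_rot x y a b)).symm, hw⟩
      rcases hb1 with ⟨p, hp⟩ | ⟨d, hd⟩
      · rcases hb2 with ⟨q, hq⟩ | ⟨d, hd⟩
        · by_cases hpq : p = q
          · subst hpq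
            exact Or.inr (Or.inl ⟨p, fun z hz => ((xtl_mem hr).1 hz).elim (hp z) (hq z)⟩)
          · exact Or.inl ⟨x, y, hnc, h2 p q x y hpq (hnc.ne hl.nodup) (hp x (by simp))
              (hp y (by simp)) (hq x (by simp)) (hq y (by simp))⟩
        · exact Or.inl ⟨x, y, hnc, d, hd x (by simp), hd y (by simp)⟩
      · exact Or.inl ⟨x, y, hnc, d, hd x (by simp), hd y (by simp)⟩
    · exact Or.inr hb

/-- every step of a short cycle lies in a triangle inside a bag -/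
theorem tri_of_step (h : AC φ w n) {l : List B.N} (hl : Cyc (Adj φ) w n l) {x y : B.N}
    (hxy : (x, y) ∈ steps l) : ∃ z ∈ l, z ≠ x ∧ z ≠ y ∧ InBag φ [x, y, z] := by
  induction hk : l.length using Nat.strong_induction_on generalizing l with
  | _ k ih =>
    subst hk
    rcases h l hl with ⟨u, v, ⟨a, b, ha, hb, hr⟩, huv⟩ | hb
    · obtain ⟨c1, c2⟩ := xtl_split hl hr ha hb huv
      obtain ⟨n1, n2⟩ := xtl_len hr ha hb
      have hs := (steps_perm hr).mem_iff.1 hxy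
      rw [steps_split, List.mem_append] at hs
      rcases hs with hs | hs
      · obtain ⟨z, hz, h3⟩ := ih _ n1 c1 (by rw [steps_close]; exact List.mem_append_left _ hs) rfl
        exact ⟨z, (xtl_mem hr).2 (Or.inl hz), h3⟩
      · obtain ⟨z, hz, h3⟩ := ih _ n2 c2 (by rw [steps_close]; exact List.mem_append_left _ hs) rfl
        exact ⟨z, (xtl_mem hr).2 (Or.inr hz), h3⟩
    · have h3 := hl.three
      obtain ⟨t, hr⟩ := step_rot (by omega) hxy
      have hlen := hr.perm.length_eq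
      obtain _ | ⟨z, t⟩ := t
      · simp only [List.length_cons, List.length_nil] at hlen
        omega
      have hnd := hr.nodup_iff.1 hl.nodup
      simp only [List.nodup_cons, List.mem_cons, not_or] at hnd
      refine ⟨z, hr.mem_iff.2 (by simp), fun e => hnd.1.2.1 e.symm, fun e => hnd.2.1.1 e.symm,
        hb.sub fun s hs => hr.mem_iff.2 ?_⟩
      simp only [List.mem_cons, List.not_mem_nil, or_false] at hs ⊢
      tauto

theorem xtl_path {α β : Type} (Q : α × β → α → Prop) (y y' : α × β) (hy : y.1 = y'.1)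
    (a : List (α × β)) : ∀ x, (∀ p ∈ path (x :: (a ++ [y])), Q p.1 p.2.1) →
      ∀ p ∈ path (x :: (a ++ [y'])), Q p.1 p.2.1 := by
  induction a with
  | nil =>
    intro x h p hp
    simp only [List.nil_append, path, List.mem_singleton] at h hp
    subst hp
    exact hy ▸ h (x, y) rfl
  | cons z a ih =>
    intro x h p hp
    simp only [List.cons_append, path, List.mem_cons] at h hp
    rcases hp with rfl | hp
    · exact h (x, z) (Or.inl rfl)
    · exact ih z (fun q hq => h q (Or.inr hq)) p hp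

theorem xtl_arc {x y : B.V × B.C} {a b : List (B.V × B.C)} {d : B.C}
    (h : B.WCyc (x :: (a ++ y :: b))) (hx : B.M x.1 d) (hy : B.M y.1 d) :
    B.WCyc (x :: (a ++ [(y.1, d)])) := by
  refine ⟨h.1.sublist ?_, fun p hp => ?_⟩
  · simp
  · rw [steps_close, List.mem_append, List.mem_singleton] at hp
    rcases hp with hp | rfl
    · refine xtl_path (fun s t => B.M s.1 s.2 ∧ B.M t s.2) y (y.1, d) rfl a x
        (fun q hq => h.2 q ?_) p hp
      rw [steps_split]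
      exact List.mem_append_left _ hq
    · exact ⟨hy, hx⟩

theorem xtl_cyc {γ : Type} {l : List (B.V × γ)} (hn : (l.map Prod.fst).Nodup)
    (h3 : 3 ≤ l.length) (ln : l.length ≤ n) (lw : 2 * l.length ≤ w)
    (hs : ∀ p ∈ steps l, Adj φ (.inl p.1.1) (.inl p.2.1)) :
    Cyc (Adj φ) w n (l.map fun a => (Sum.inl a.1 : B.N)) := by
  have e : (l.map fun a => (Sum.inl a.1 : B.N)) = (l.map Prod.fst).map Sum.inl := by
    rw [List.map_map]; rfl
  refine ⟨?_, by simpa using h3, by simpa using ln, ?_, fun p hp => ?_⟩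
  · rw [e]; exact hn.map Sum.inl_injective
  · rw [e, wsum_inl, List.length_map]; exact lw
  · rw [steps_map, List.mem_map] at hp
    obtain ⟨q, hq, rfl⟩ := hp
    exact hs q hq

/-- the host inherits the girth -/
theorem host_gir (hb : Basic φ) (h : AC φ w n) (hw : 2 * g ≤ w) (hn : g ≤ n) (hA : A.Gir g) :
    B.Gir g := by
  intro l hl l2 lg
  induction hk : l.length using Nat.strong_induction_on generalizing l with
  | _ k ih =>
    subst hk
    by_cases h3 : l.length ≤ 2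
    · exact gir_two.2 hb.b3 l hl l2 h3
    have hc : Cyc (Adj φ) w n (l.map fun a => (Sum.inl a.1 : B.N)) :=
      xtl_cyc hl.1 (by omega) (by omega) (by omega)
        fun p hp => Or.inr ⟨p.1.2, (hl.2 p hp).1, (hl.2 p hp).2⟩
    have fin : ∀ d, (∀ a ∈ l, a.2 = d) → ∀ a ∈ l, ∀ b ∈ l, a.2 = b.2 :=
      fun d hd a ha b hb => (hd a ha).trans (hd b hb).symm
    rcases tl hb.b2 h hc with ⟨X, Y, hnc, d, hX, hY⟩ | ⟨p, hp⟩ | ⟨d, hd⟩
    · obtain ⟨x, y, rfl, rfl, a, b, ha, hb', hr⟩ := hnc.of_map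
      have w1 := xtl_arc (hl.rot hr) hX hY
      have w2 := xtl_arc (hl.rot (hr.trans (xtl_rot x y a b))) hY hX
      obtain ⟨n1, n2⟩ := xtl_len hr ha hb'
      simp only [List.length_cons, List.length_append, List.length_nil] at n1 n2
      have e1 := ih (x :: (a ++ [(y.1, d)])).length
        (by simp only [List.length_cons, List.length_append, List.length_nil]; omega) _ w1
        (by simp) (by simp only [List.length_cons, List.length_append, List.length_nil]; omega) rfl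
      have e2 := ih (y :: (b ++ [(x.1, d)])).length
        (by simp only [List.length_cons, List.length_append, List.length_nil]; omega) _ w2
        (by simp) (by simp only [List.length_cons, List.length_append, List.length_nil]; omega) rfl
      refine fin d fun z hz => ?_
      rw [hr.mem_iff] at hz
      simp only [List.mem_cons, List.mem_append] at hz
      rcases hz with hz | hz | hz | hz
      · exact e1 z (by simp [hz]) (y.1, d) (by simp)
      · exact e1 z (by simp [hz]) (y.1, d) (by simp)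
      · exact e2 z (by simp [hz]) (x.1, d) (by simp)
      · exact e2 z (by simp [hz]) (x.1, d) (by simp)
    · have hv : ∀ a ∈ l, ∃ u, (φ p).v u = a.1 := fun a ha =>
        ((φ p).bag_inl _).1 (hp _ (List.mem_map_of_mem ha))
      have hr : l ∈ Set.range (List.map (Prod.map (φ p).v (φ p).c)) := by
        rw [Set.range_list_map]
        intro a ha
        obtain ⟨b, hab⟩ := exists_step_fst ha
        obtain ⟨u, hu⟩ := hv a ha
        obtain ⟨u', hu'⟩ := hv b (mem_of_mem_steps hab).2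
        have hne : a.1 ≠ b.1 := hl.step_ne l2 hab
        obtain ⟨c, hc⟩ := hb.str p u u' a.2 (fun e => hne (by rw [← hu, ← hu', e]))
          (hu ▸ (hl.2 _ hab).1) (hu' ▸ (hl.2 _ hab).2)
        exact ⟨(u, c), Prod.ext hu hc⟩
      obtain ⟨l', rfl⟩ := hr
      have hl' : A.WCyc l' := by
        refine ⟨List.Nodup.of_map (φ p).v ?_, fun q hq => ?_⟩
        · have := hl.1
          rw [List.map_map] at this ⊢
          exact this
        · have := hl.2 (Prod.map (Prod.map (φ p).v (φ p).c) (Prod.map (φ p).v (φ p).c) q)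
            (by rw [steps_map]; exact List.mem_map_of_mem hq)
          exact ⟨hb.ind p _ _ this.1, hb.ind p _ _ this.2⟩
      rw [List.length_map] at l2 lg
      intro a ha b hb'
      obtain ⟨a', ha', rfl⟩ := List.mem_map.1 ha
      obtain ⟨b', hb'', rfl⟩ := List.mem_map.1 hb'
      exact congrArg (φ p).c (hA l' hl' l2 lg a' ha' b' hb'')
    · refine fin d fun a ha => ?_
      obtain ⟨b, hab⟩ := exists_step_fst ha
      exact hb.b3 a.1 b.1 a.2 d (hl.step_ne l2 hab) (hl.2 _ hab).1 (hl.2 _ hab).2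
        (hd _ (List.mem_map_of_mem ha)) (hd _ (List.mem_map_of_mem (mem_of_mem_steps hab).2))

/-- a short cycle of copies through pairwise non-collinear vertices is trivial -/
theorem qc (h2 : B2 φ) (h : AC φ w n) (l : List (B.V × P)) (hn : (l.map Prod.fst).Nodup)
    (hs : ∀ p ∈ steps l, (φ p.1.2).Bag (.inl p.1.1) ∧ (φ p.1.2).Bag (.inl p.2.1))
    (hw : ∀ a ∈ l, ∀ b ∈ l, a.1 ≠ b.1 → ¬ B.WP (.inl a.1) (.inl b.1))
    (l2 : 2 ≤ l.length) (ln : l.length ≤ n) (lw : 2 * l.length ≤ w) :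
    ∀ a ∈ l, ∀ b ∈ l, a.2 = b.2 := by
  have hne : ∀ a b, (a, b) ∈ steps l → a.1 ≠ b.1 := fun a b hab =>
    step_ne hn (by simpa using l2) (by
      rw [steps_map]; exact List.mem_map_of_mem (f := Prod.map Prod.fst Prod.fst) hab)
  have key : ∀ p0, (∀ a ∈ l, (φ p0).Bag (.inl a.1)) → ∀ a ∈ l, ∀ b ∈ l, a.2 = b.2 := by
    intro p0 hp
    have : ∀ a ∈ l, a.2 = p0 := by
      intro a ha
      by_contra hap
      obtain ⟨b, hab⟩ := exists_step_fst ha
      have hb := (mem_of_mem_steps hab).2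
      exact hw a ha b hb (hne a b hab) (h2 a.2 p0 _ _ hap
        (fun e => hne a b hab (Sum.inl_injective e)) (hs _ hab).1 (hs _ hab).2 (hp a ha) (hp b hb))
    exact fun a ha b hb => (this a ha).trans (this b hb).symm
  by_cases h3 : l.length ≤ 2
  · obtain ⟨a, b, rfl⟩ := List.length_eq_two.1 (le_antisymm h3 l2)
    have := hs (a, b) (by simp [steps, path])
    refine key a.2 fun c hc => ?_
    simp only [List.mem_cons, List.not_mem_nil, or_false] at hc
    rcases hc with rfl | rfl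
    · exact this.1
    · exact this.2
  have hc : Cyc (Adj φ) w n (l.map fun a => (Sum.inl a.1 : B.N)) :=
    xtl_cyc hn (by omega) ln lw fun p hp => Or.inl ⟨p.1.2, hs p hp⟩
  rcases tl h2 h hc with ⟨X, Y, hnc, hXY⟩ | ⟨p, hp⟩ | ⟨d, hd⟩
  · have hXY' := hnc.ne hc.nodup
    obtain ⟨x, y, rfl, rfl, hxy⟩ := hnc.of_map
    exact absurd hXY (hw x hxy.mem.1 y hxy.mem.2 fun e => hXY' (by rw [e]))
  · exact key p fun a ha => hp _ (List.mem_map_of_mem ha)
  · intro a ha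
    obtain ⟨b, hab⟩ := exists_step_fst ha
    have hb := (mem_of_mem_steps hab).2
    exact absurd ⟨d, hd _ (List.mem_map_of_mem ha), hd _ (List.mem_map_of_mem hb)⟩
      (hw a ha b hb (hne a b hab))

end Pool.Agent.MP_1c0fc2_co.GR

end

section

open Function

namespace Pool.Agent.MP_1c0fc2_co.GR

variable {K I : Type} {cl : K → I} {F H : HG cl} {s : ℕ → Setoid F.E} {A : ℕ → Set I}
  {m μ ν g : ℕ} {γ : ℕ → ℕ}

theorem Emb.on (φ : Emb F H) {v : F.V} {e : F.E} : H.On (φ.v v) (φ.e e) ↔ F.On v e := by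
  constructor
  · rintro ⟨k, hk⟩
    exact ⟨k, φ.v_inj ((φ.inc_e e k).symm.trans hk)⟩
  · rintro ⟨k, hk⟩
    exact ⟨k, by rw [φ.inc_e, hk]⟩

theorem IsTrain.le (h : IsTrain F s A m) (hμ : μ ≤ ν) {e e' : F.E} (he : s μ e e') :
    s ν e e' := by
  induction ν, hμ using Nat.le_induction with
  | base => exact he
  | succ n _ ih => exact h.mono n e e' ih

theorem xtraina_between (h : IsTrain F s A m) {v : F.V} {e e' : F.E} (he : F.On v e)
    (he' : F.On v e') (h1 : ¬ s μ e e') (h2 : s ν e e') :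
    ∃ j, μ ≤ j ∧ j < ν ∧ ¬ s j e e' ∧ s (j + 1) e e' ∧ F.vc v ∈ A j := by
  induction ν with
  | zero => exact absurd (h.le (Nat.zero_le μ) h2) h1
  | succ n ih =>
    by_cases hn : s n e e'
    · obtain ⟨j, a, b, c⟩ := ih hn
      exact ⟨j, a, Nat.lt_succ_of_lt b, c⟩
    · refine ⟨n, ?_, Nat.lt_succ_self n, hn, h2, h.cond n e e' v he he' hn h2⟩
      by_contra hc
      exact h1 (h.le (Nat.succ_le_of_lt (not_le.1 hc)) h2)

theorem IsTrain.low (h : IsTrain F s A m) {v : F.V} {e e' : F.E} (he : F.On v e)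
    (he' : F.On v e') (hv : F.vc v ∉ Hi A m μ) : s μ e e' := by
  by_contra h1
  obtain ⟨j, a, b, -, -, c⟩ := xtraina_between h he he' h1 (h.top m le_rfl e e')
  exact hv ⟨j, a, b, c⟩

theorem IsTrain.between (h : IsTrain F s A m) {v : F.V} {e e' : F.E} (he : F.On v e)
    (he' : F.On v e') (h1 : ¬ s μ e e') (h2 : s ν e e') :
    ∃ j, μ ≤ j ∧ j < ν ∧ ¬ s j e e' ∧ s (j + 1) e e' ∧ F.vc v ∈ A j := by
  exact xtraina_between h he he' h1 h2

/-- the inclusion of the restricted geometry -/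
def xtraina_incl (F : HG cl) (r : Setoid F.E) (D : Set I) : GHom (hg F r D) (wg F r) :=
  ⟨Subtype.val, id, Subtype.val_injective, injective_id, fun _ _ h => h⟩

theorem gir_hg_of_wg {r : Setoid F.E} (h : (wg F r).Gir g) (D : Set I) : (hg F r D).Gir g := by
  exact h.pull (xtraina_incl F r D)

theorem IsTrain.gir_wg (h : IsTrain F s A m) (hg' : (hg F (s μ) (Hi A m μ)).Gir g) :
    (wg F (s μ)).Gir g := by
  refine hg'.of_two (xtraina_incl F (s μ) (Hi A m μ)) (fun _ _ hm => hm) ?_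
    (fun _ c _ => ⟨c, rfl⟩)
  rintro v _ _ hne ⟨e, rfl, he⟩ ⟨e', rfl, he'⟩
  by_contra hc
  exact hne (Quotient.sound (h.low he he' fun hv => hc ⟨⟨v, hv⟩, rfl⟩))

theorem lin_iff_gir {r : Setoid F.E} (h0 : ∀ e e', r e e' → e = e') :
    F.Lin ↔ (wg F r).Gir 2 := by
  rw [gir_two]
  constructor
  · rintro h u v _ _ huv ⟨e₁, rfl, h₁⟩ ⟨e₂, q₂, h₂⟩ ⟨e₃, rfl, h₃⟩ ⟨e₄, q₄, h₄⟩
    obtain rfl := h0 _ _ (Quotient.exact q₂)
    obtain rfl := h0 _ _ (Quotient.exact q₄)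
    exact congrArg _ (h _ _ u v huv h₁ h₂ h₃ h₄)
  · intro h e e' u v huv h₁ h₂ h₃ h₄
    exact h0 _ _ (Quotient.exact (h u v (Quotient.mk r e) (Quotient.mk r e') huv ⟨e, rfl, h₁⟩
      ⟨e, rfl, h₂⟩ ⟨e', rfl, h₃⟩ ⟨e', rfl, h₄⟩))

theorem gir_wg_top {r : Setoid F.E} (h0 : ∀ e e', r e e') : (wg F r).Gir g := by
  refine gir_of_subsingleton fun c d => ?_
  induction c using Quotient.inductionOn
  induction d using Quotient.inductionOn
  exact Quotient.sound (h0 _ _)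

/-- the map of wagon geometries -/
def xtraina_wg (φ : Emb F H) {r : Setoid F.E} {t : Setoid H.E} (hc : Compat φ r t) :
    GHom (wg F r) (wg H t) where
  v := φ.v
  c := (φ.hg hc Set.univ).c
  v_inj := φ.v_inj
  c_inj := (φ.hg hc Set.univ).c_inj
  map := by
    rintro x _ ⟨e, rfl, he⟩
    exact ⟨φ.e e, rfl, φ.on.2 he⟩

theorem Emb.gir_wg (φ : Emb F H) {r : Setoid F.E} {t : Setoid H.E} (hc : Compat φ r t)
    (h : (wg H t).Gir g) : (wg F r).Gir g := by
  exact h.pull (xtraina_wg φ hc)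

theorem Emb.lin (φ : Emb F H) (h : H.Lin) : F.Lin := by
  intro e e' u v huv h₁ h₂ h₃ h₄
  exact φ.e_inj (h _ _ _ _ (φ.v_inj.ne huv) (φ.on.2 h₁) (φ.on.2 h₂) (φ.on.2 h₃) (φ.on.2 h₄))

theorem Emb.isTrain (φ : Emb F H) {t : ℕ → Setoid H.E} (hc : ∀ μ, Compat φ (s μ) (t μ))
    (h : IsTrain H t A m) : IsTrain F s A m := by
  refine ⟨fun e e' h0 => φ.e_inj (h.zero _ _ ((hc 0 e e').2 h0)),
    fun μ e e' h0 => (hc (μ + 1) e e').1 (h.mono μ _ _ ((hc μ e e').2 h0)),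
    fun μ hμ e e' => (hc μ e e').1 (h.top μ hμ _ _), fun μ e e' v he he' h1 h2 => ?_⟩
  rw [← φ.vc_v]
  exact h.cond μ _ _ _ (φ.on.2 he) (φ.on.2 he') (fun h3 => h1 ((hc μ e e').1 h3))
    ((hc (μ + 1) e e').2 h2)

theorem Compat.comp {G : HG cl} {ψ : Emb G H} {φ : Emb F G} {r : Setoid F.E} {u : Setoid G.E}
    {t : Setoid H.E} (h1 : Compat ψ u t) (h2 : Compat φ r u) : Compat (ψ.comp φ) r t := by
  exact fun f f' => (h1 _ _).trans (h2 f f')

theorem Emb.hg_comp {G : HG cl} (ψ : Emb G H) (φ : Emb F G) {r : Setoid F.E} {u : Setoid G.E}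
    {t : Setoid H.E} (h1 : Compat ψ u t) (h2 : Compat φ r u) (h3 : Compat (ψ.comp φ) r t)
    (D : Set I) : (ψ.comp φ).hg h3 D = (ψ.hg h1 D).comp (φ.hg h2 D) := by
  refine GHom.ext rfl (funext fun c => ?_)
  induction c using Quotient.inductionOn
  rfl

theorem GoodL.gir {P : Type} {φ : P → Emb F H} {r : Setoid F.E} {t : Setoid H.E} {D : Set I}
    {w n : ℕ} (h : GoodL φ r t D w n) (hw : 2 * g ≤ w) (hn : g ≤ n) (hF : (hg F r D).Gir g) :
    (hg H t D).Gir g := by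
  obtain ⟨hc, h1, h2⟩ := h
  exact host_gir h1 h2 hw hn hF

theorem Up.dom {P : Type} {φ : P → Emb F H} {t : ℕ → Setoid H.E} (h : Up φ s t A m γ)
    (hF : Dom F s A m γ) : Dom H t A m γ := by
  refine ⟨h.tr, h.lin, fun μ h1 h2 => h.tr.gir_wg ?_⟩
  exact (h.good μ h1 h2).gir le_rfl (by omega) (gir_hg_of_wg (hF.gir μ h1 h2) _)

theorem ord_partite [Finite K] [LinearOrder K] (S : HG (id : K → K)) : S.Ord := by
  refine ⟨fun v => (Set.Iio (S.vc v)).ncard, fun e k k' hk => ?_⟩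
  simp only [S.vc_inc, id]
  exact Set.ncard_lt_ncard (Set.Iio_ssubset_Iio hk) (Set.toFinite _)

theorem con_noIso [Finite K] (ψ : Hom F H) (e : H.E) : (Con ψ e).NoIso := by
  rintro ⟨⟨k, v⟩, f, hf, h⟩
  exact ⟨⟨f, hf⟩, k, Subtype.ext (Prod.ext rfl h)⟩

theorem hi_preimage (cl : K → I) (A : ℕ → Set I) (m μ : ℕ) :
    Hi (fun ν => cl ⁻¹' A ν) m μ = cl ⁻¹' Hi A m μ := by
  rfl

theorem hi_shift (A : ℕ → Set I) (m μ : ℕ) :
    Hi (fun ν => A (ν + 1)) m μ = Hi A (m + 1) (μ + 1) := by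
  ext i
  constructor
  · rintro ⟨j, a, b, c⟩
    exact ⟨j + 1, by omega, by omega, c⟩
  · rintro ⟨j, a, b, c⟩
    obtain ⟨j, rfl⟩ : ∃ j', j = j' + 1 := ⟨j - 1, by omega⟩
    exact ⟨j, by omega, by omega, c⟩

theorem hi_anti (A : ℕ → Set I) (m : ℕ) (h : μ ≤ ν) : Hi A m ν ⊆ Hi A m μ := by
  rintro i ⟨j, a, b, c⟩
  exact ⟨j, h.trans a, b, c⟩

theorem Dom.con [Finite K] (h : Dom F s A m γ) (ψ : Hom F H) (e : H.E) :
    Dom (Con ψ e) (fun μ => conS ψ e (s μ)) (fun μ => cl ⁻¹' A μ) m γ := by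
  have h1 := (conEmb ψ e).isTrain (fun μ => con_compat ψ e (s μ)) h.tr
  have h2 := (conEmb ψ e).lin h.lin
  exact ⟨⟨h1.zero, h1.mono, h1.top, h1.cond⟩, h2, fun μ a b =>
    (conEmb ψ e).gir_wg (con_compat ψ e (s μ)) (h.gir μ a b)⟩

theorem GoodL.up {S G : HG (id : K → K)} {P : Type} {φ : P → Emb S G} {r : Setoid S.E}
    {t : Setoid G.E} {D : Set I} {w n : ℕ} (h : GoodL φ r t (cl ⁻¹' D) w n) :
    GoodL (fun p => (φ p).up cl) r t D w n := by
  obtain ⟨hc, h1, h2⟩ := h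
  exact ⟨hc, h1, h2⟩

end Pool.Agent.MP_1c0fc2_co.GR

end

section

open Function

namespace Pool.Agent.MP_1c0fc2_co.GR

variable {K I : Type} [Finite K] {cl : K → I} {X H : HG cl} {ψ : Hom X H} {e : H.E}
  {G : HG (id : K → K)} {Q : Type} {q : Q → Emb (Con ψ e) G}

/-- an edge of the amalgam tied to an edge of `G` -/
def xtreleTie (A : Amal ψ e q) (r : Setoid X.E) (x : A.Z.E) (y : G.E) : Prop :=
  x = A.j.e y ∨ ∃ a f, ∃ f0 : (Con ψ e).E, x = (A.ι a).e f ∧ r f f0.1 ∧ y = (q a).e f0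

/-- the generated relation -/
def xtreleRel (A : Amal ψ e q) (r : Setoid X.E) (w : Setoid G.E) (x x' : A.Z.E) : Prop :=
  (∃ y y', xtreleTie A r x y ∧ xtreleTie A r x' y' ∧ w y y') ∨
    ∃ a f f', x = (A.ι a).e f ∧ x' = (A.ι a).e f' ∧ r f f'

section
variable {A : Amal ψ e q} {r : Setoid X.E} {w : Setoid G.E}

theorem xtrele_comm (A : Amal ψ e q) (a : Q) {f : X.E} (h : ψ.e f = e) :
    (A.ι a).e f = A.j.e ((q a).e ⟨f, h⟩) := A.comm_e a ⟨f, h⟩

theorem xtrele_a {a : Q} {f : X.E} {y : G.E} (h : (A.ι a).e f = A.j.e y) :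
    ∃ h0 : ψ.e f = e, y = (q a).e ⟨f, h0⟩ := by
  have h0 : ψ.e f = e := by rw [← A.ι_e a, h, A.j_e]
  exact ⟨h0, A.j.e_inj (h.symm.trans (xtrele_comm A a h0))⟩

theorem xtrele_b (hq : ∀ a f f', w ((q a).e f) ((q a).e f') ↔ r f.1 f'.1) {a : Q} {f : X.E}
    {y : G.E} (h : xtreleTie A r ((A.ι a).e f) y) :
    ∃ f0 : (Con ψ e).E, r f f0.1 ∧ w y ((q a).e f0) := by
  rcases h with h | ⟨b, f', f0, h, h1, rfl⟩
  · obtain ⟨h0, rfl⟩ := xtrele_a h
    exact ⟨⟨f, h0⟩, r.refl _, w.refl _⟩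
  · rcases A.sep_e _ _ _ _ h with rfl | h0
    · obtain rfl := (A.ι a).e_inj h
      exact ⟨f0, h1, w.refl _⟩
    · obtain ⟨h2, h3⟩ := xtrele_a (h.symm.trans (xtrele_comm A a h0))
      refine ⟨⟨f, h0⟩, r.refl _, ?_⟩
      rw [h3]
      exact (hq _ _ _).2 (r.symm h1)

theorem xtrele_c (hq : ∀ a f f', w ((q a).e f) ((q a).e f') ↔ r f.1 f'.1) {x : A.Z.E}
    {y y' : G.E} (h : xtreleTie A r x y) (h' : xtreleTie A r x y') : w y y' := by
  rcases h with rfl | ⟨a, f, f0, rfl, h1, rfl⟩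
  · rcases h' with h' | ⟨a, f, f0, h', h1, rfl⟩
    · obtain rfl := A.j.e_inj h'
      exact w.refl _
    · obtain ⟨h0, rfl⟩ := xtrele_a h'.symm
      exact (hq _ _ _).2 h1
  · obtain ⟨f1, h2, h3⟩ := xtrele_b hq h'
    exact w.trans ((hq _ _ _).2 (r.trans (r.symm h1) h2)) (w.symm h3)

theorem xtrele_d (hq : ∀ a f f', w ((q a).e f) ((q a).e f') ↔ r f.1 f'.1) {a : Q} {f f' : X.E}
    {y : G.E} (h : xtreleTie A r ((A.ι a).e f) y) (h' : r f f') :
    ∃ y', xtreleTie A r ((A.ι a).e f') y' ∧ w y y' := by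
  obtain ⟨f0, h1, h2⟩ := xtrele_b hq h
  exact ⟨_, Or.inr ⟨a, f', f0, rfl, r.trans (r.symm h') h1, rfl⟩, h2⟩

theorem xtrele_refl (x : A.Z.E) : xtreleRel A r w x x := by
  rcases A.cover_e x with ⟨y, rfl⟩ | ⟨a, f, rfl⟩
  · exact Or.inl ⟨y, y, Or.inl rfl, Or.inl rfl, w.refl _⟩
  · exact Or.inr ⟨a, f, f, rfl, rfl, r.refl _⟩

theorem xtrele_symm {x x' : A.Z.E} (h : xtreleRel A r w x x') : xtreleRel A r w x' x := by
  rcases h with ⟨y, y', h1, h2, h3⟩ | ⟨a, f, f', h1, h2, h3⟩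
  · exact Or.inl ⟨y', y, h2, h1, w.symm h3⟩
  · exact Or.inr ⟨a, f', f, h2, h1, r.symm h3⟩

theorem xtrele_trans (hq : ∀ a f f', w ((q a).e f) ((q a).e f') ↔ r f.1 f'.1)
    {x x' x'' : A.Z.E} (h : xtreleRel A r w x x') (h' : xtreleRel A r w x' x'') :
    xtreleRel A r w x x'' := by
  rcases h with ⟨y, y', h1, h2, h3⟩ | ⟨a, f, f', rfl, rfl, h3⟩
  · rcases h' with ⟨z, z', k1, k2, k3⟩ | ⟨b, g, g', rfl, rfl, k3⟩
    · exact Or.inl ⟨y, z', h1, k2, w.trans h3 (w.trans (xtrele_c hq h2 k1) k3)⟩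
    · obtain ⟨z, k1, k2⟩ := xtrele_d hq h2 k3
      exact Or.inl ⟨y, z, h1, k1, w.trans h3 k2⟩
  · rcases h' with ⟨z, z', k1, k2, k3⟩ | ⟨b, g, g', k1, rfl, k3⟩
    · obtain ⟨y, h1, h2⟩ := xtrele_d hq k1 (r.symm h3)
      exact Or.inl ⟨y, z', h1, k2, w.trans (w.symm h2) k3⟩
    · rcases A.sep_e _ _ _ _ k1 with rfl | h0
      · obtain rfl := (A.ι a).e_inj k1
        exact Or.inr ⟨a, f, g', rfl, rfl, r.trans h3 k3⟩
      · obtain ⟨z, k4, k5⟩ := xtrele_d (A := A) hq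
          (Or.inl (k1.symm.trans (xtrele_comm A a h0))) k3
        exact Or.inl ⟨_, z, Or.inr ⟨a, f, ⟨f', h0⟩, rfl, h3, rfl⟩, k4, k5⟩

theorem xtrele_ι (hq : ∀ a f f', w ((q a).e f) ((q a).e f') ↔ r f.1 f'.1) {a : Q} {f f' : X.E}
    (h : xtreleRel A r w ((A.ι a).e f) ((A.ι a).e f')) : r f f' := by
  rcases h with ⟨y, y', h1, h2, h3⟩ | ⟨b, g, g', h1, h2, h3⟩
  · obtain ⟨f0, k1, k2⟩ := xtrele_b hq h1
    obtain ⟨f1, k3, k4⟩ := xtrele_b hq h2
    exact r.trans k1 (r.trans ((hq _ _ _).1 (w.trans (w.symm k2) (w.trans h3 k4))) (r.symm k3))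
  · by_cases hab : a = b
    · subst hab
      obtain rfl := (A.ι a).e_inj h1
      obtain rfl := (A.ι a).e_inj h2
      exact h3
    · have h4 := (A.sep_e _ _ _ _ h1).resolve_left hab
      have h5 := (A.sep_e _ _ _ _ h2).resolve_left hab
      obtain ⟨k1, k2⟩ := xtrele_a (h1.symm.trans (xtrele_comm A a h4))
      obtain ⟨k3, k4⟩ := xtrele_a (h2.symm.trans (xtrele_comm A a h5))
      refine (hq a ⟨f, h4⟩ ⟨f', h5⟩).1 ?_
      rw [k2, k4]
      exact (hq _ _ _).2 h3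

theorem xtrele_j (hq : ∀ a f f', w ((q a).e f) ((q a).e f') ↔ r f.1 f'.1) {y y' : G.E}
    (h : xtreleRel A r w (A.j.e y) (A.j.e y')) : w y y' := by
  rcases h with ⟨z, z', h1, h2, h3⟩ | ⟨b, g, g', h1, h2, h3⟩
  · exact w.trans (xtrele_c hq (Or.inl rfl) h1) (w.trans h3 (xtrele_c hq h2 (Or.inl rfl)))
  · obtain ⟨k1, rfl⟩ := xtrele_a h1.symm
    obtain ⟨k2, rfl⟩ := xtrele_a h2.symm
    exact (hq _ _ _).2 h3

theorem xtrele_mono {r' : Setoid X.E} {w' : Setoid G.E} (hr : ∀ f f', r f f' → r' f f')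
    (hw : ∀ f f', w f f' → w' f f') {x x' : A.Z.E} (h : xtreleRel A r w x x') :
    xtreleRel A r' w' x x' := by
  have key : ∀ x y, xtreleTie A r x y → xtreleTie A r' x y := by
    rintro x y (h | ⟨a, f, f0, h1, h2, h3⟩)
    · exact Or.inl h
    · exact Or.inr ⟨a, f, f0, h1, hr _ _ h2, h3⟩
  rcases h with ⟨y, y', h1, h2, h3⟩ | ⟨a, f, f', h1, h2, h3⟩
  · exact Or.inl ⟨y, y', key _ _ h1, key _ _ h2, hw _ _ h3⟩
  · exact Or.inr ⟨a, f, f', h1, h2, hr _ _ h3⟩

theorem xtrele_zero (hr : ∀ f f', r f f' → f = f') (hw : ∀ f f', w f f' → f = f')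
    {x x' : A.Z.E} (h : xtreleRel A r w x x') : x = x' := by
  have key : ∀ x y, xtreleTie A r x y → x = A.j.e y := by
    rintro x y (h | ⟨a, f, f0, rfl, h2, rfl⟩)
    · exact h
    · rw [hr _ _ h2]
      exact A.comm_e a f0
  rcases h with ⟨y, y', h1, h2, h3⟩ | ⟨a, f, f', rfl, rfl, h3⟩
  · rw [key _ _ h1, key _ _ h2, hw _ _ h3]
  · rw [hr _ _ h3]

end

theorem trel_exists (A : Amal ψ e q) {s : ℕ → Setoid X.E} {u : ℕ → Setoid G.E} {B : ℕ → Set I}
    {B' : ℕ → Set K} {m : ℕ} (hm : 1 ≤ m) (hX : IsTrain X s B m) (hG : IsTrain G u B' m)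
    (hq : ∀ a μ, Compat (q a) (conS ψ e (s μ)) (u μ)) : ∃ t, TRel A s u t m := by
  have hq' : ∀ μ a f f', u μ ((q a).e f) ((q a).e f') ↔ s μ f.1 f'.1 := fun μ a => hq a μ
  refine ⟨fun μ => ⟨fun x x' => m ≤ μ ∨ xtreleRel A (s μ) (u μ) x x',
    fun x => Or.inr (xtrele_refl x), fun h => h.imp_right xtrele_symm, fun h h' => h.elim Or.inl
      fun h1 => h'.imp_right (xtrele_trans (hq' μ) h1)⟩, fun a μ f f' => ⟨fun h => ?_, fun h => ?_⟩,
    fun μ y y' => ⟨fun h => ?_, fun h => ?_⟩, fun μ hμ a f y h => ?_, fun μ hμ a b f f' h => ?_,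
    fun x x' h => ?_, fun μ x x' h => ?_, fun μ hμ x x' => Or.inl hμ⟩
  · exact h.elim (fun h => hX.top μ h _ _) (xtrele_ι (hq' μ))
  · exact Or.inr (Or.inr ⟨a, f, f', rfl, rfl, h⟩)
  · exact h.elim (fun h => hG.top μ h _ _) (xtrele_j (hq' μ))
  · exact Or.inr (Or.inl ⟨y, y', Or.inl rfl, Or.inl rfl, h⟩)
  · rcases h with h | ⟨z, -, h1, -⟩ | ⟨b, g, g', h1, h2, h3⟩
    · omega
    · obtain ⟨f0, k1, -⟩ := xtrele_b (hq' μ) h1
      exact ⟨f0.1, f0.2, k1⟩
    · rcases A.sep_e _ _ _ _ h1 with rfl | h0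
      · obtain rfl := (A.ι a).e_inj h1
        exact ⟨g', (xtrele_a h2.symm).1, h3⟩
      · exact ⟨f, h0, (s μ).refl _⟩
  · rcases h with h | ⟨z, -, h1, -⟩ | ⟨c, g, g', h1, h2, h3⟩
    · omega
    · obtain ⟨f0, k1, -⟩ := xtrele_b (hq' μ) h1
      exact Or.inr ⟨f0.1, f0.2, k1⟩
    · rcases A.sep_e _ _ _ _ h1 with rfl | h0
      · obtain rfl := (A.ι a).e_inj h1
        exact (A.sep_e _ _ _ _ h2.symm).imp_right fun h0 => ⟨g', h0, h3⟩
      · exact Or.inr ⟨f, h0, (s μ).refl _⟩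
  · rcases h with h | h
    · omega
    · exact xtrele_zero hX.zero hG.zero h
  · exact h.imp (fun h => by omega) (xtrele_mono (hX.mono μ) (hG.mono μ))

end Pool.Agent.MP_1c0fc2_co.GR

end

section

open Function

namespace Pool.Agent.MP_1c0fc2_co.GR

variable {K I : Type} [Finite K] {cl : K → I} {X H : HG cl} {ψ : Hom X H} {e : H.E}
  {G : HG (id : K → K)} {Q : Type} {q : Q → Emb (Con ψ e) G} {A : Amal ψ e q}
  {s : ℕ → Setoid X.E} {u : ℕ → Setoid G.E} {t : ℕ → Setoid A.Z.E} {m : ℕ}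

omit [Finite K] in
theorem xtrelg_on {F F' : HG cl} (φ : Emb F F') {v : F'.V} {f : F.E} (h : F'.On v (φ.e f)) :
    ∃ w, φ.v w = v ∧ F.On w f := by
  obtain ⟨k, hk⟩ := h
  exact ⟨F.inc f k, (φ.inc_e f k).symm.trans hk, k, rfl⟩

theorem TRel.gamal (h : TRel A s u t m) {μ : ℕ} (hμ : μ < m)
    (hq : ∀ a, Compat ((q a).up cl) (conS ψ e (s μ)) (u μ)) (D : Set I) :
    GAmal ((conEmb ψ e).hg (con_compat ψ e (s μ)) D) (fun a => ((q a).up cl).hg (hq a) D)
      (fun a => (A.ι a).hg (h.ι_c a μ) D) (A.j.hg (h.j_c μ) D) := by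
  have bagv : ∀ (x : (hg X (s μ) D).V) (w : (Con ψ e).V), (conEmb ψ e).v w = x.1 →
      ((conEmb ψ e).hg (con_compat ψ e (s μ)) D).Bag (.inl x) := fun x w hw =>
    ⟨.inl ⟨w, by rw [← (conEmb ψ e).vc_v w, hw]; exact x.2⟩, congrArg Sum.inl (Subtype.ext hw)⟩
  have bage : ∀ f f0 : X.E, ψ.e f0 = e → s μ f f0 →
      ((conEmb ψ e).hg (con_compat ψ e (s μ)) D).Bag (.inr (Quotient.mk (s μ) f)) :=
    fun f f0 h0 h1 => ⟨.inr (Quotient.mk _ ⟨f0, h0⟩),
      congrArg Sum.inr (Quotient.sound ((s μ).symm h1))⟩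
  refine ⟨?_, ?_, ?_, ?_, ?_⟩
  · rintro a (x | c)
    · exact congrArg Sum.inl (Subtype.ext (A.comm_v a x.1))
    · induction c using Quotient.inductionOn with
      | h f => exact congrArg Sum.inr (congrArg (Quotient.mk _) (A.comm_e a f))
  · rintro (z | c)
    · rcases A.cover_v z.1 with ⟨w, hw⟩ | ⟨a, x, hx⟩
      · exact .inl ⟨.inl ⟨w, by rw [← A.j.vc_v w, hw]; exact z.2⟩,
          congrArg Sum.inl (Subtype.ext hw)⟩
      · exact .inr ⟨a, .inl ⟨x, by rw [← (A.ι a).vc_v x, hx]; exact z.2⟩,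
          congrArg Sum.inl (Subtype.ext hx)⟩
    · induction c using Quotient.inductionOn with
      | h z =>
        rcases A.cover_e z with ⟨y, hy⟩ | ⟨a, f, hf⟩
        · exact .inl ⟨.inr (Quotient.mk _ y), congrArg Sum.inr (congrArg (Quotient.mk _) hy)⟩
        · exact .inr ⟨a, .inr (Quotient.mk _ f), congrArg Sum.inr (congrArg (Quotient.mk _) hf)⟩
  · rintro a (x | c) (y | d) hxy
    · obtain ⟨w, hw⟩ := A.shared_v a x.1 y.1 (congrArg Subtype.val (Sum.inl.inj hxy))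
      exact bagv x w hw
    · exact absurd hxy Sum.inl_ne_inr
    · exact absurd hxy Sum.inr_ne_inl
    · induction c using Quotient.inductionOn with
      | h f =>
        induction d using Quotient.inductionOn with
        | h y =>
          obtain ⟨f0, h0, h1⟩ := h.tie μ hμ a f y (Quotient.exact (Sum.inr.inj hxy))
          exact bage f f0 h0 h1
  · rintro a b (x | c) (y | d) hxy
    · refine (A.sep_v a b x.1 y.1 (congrArg Subtype.val (Sum.inl.inj hxy))).imp id ?_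
      rintro ⟨w, hw⟩
      exact bagv x w hw
    · exact absurd hxy Sum.inl_ne_inr
    · exact absurd hxy Sum.inr_ne_inl
    · induction c using Quotient.inductionOn with
      | h f =>
        induction d using Quotient.inductionOn with
        | h f' =>
          refine (h.sep μ hμ a b f f' (Quotient.exact (Sum.inr.inj hxy))).imp id ?_
          rintro ⟨f0, h0, h1⟩
          exact bage f f0 h0 h1
  · rintro v _ ⟨z, rfl, hz⟩
    rcases A.cover_e z with ⟨y, rfl⟩ | ⟨a, f, rfl⟩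
    · obtain ⟨w, hw, hwy⟩ := xtrelg_on A.j hz
      exact .inl ⟨⟨w, by rw [← A.j.vc_v w, hw]; exact v.2⟩, Quotient.mk _ y, Subtype.ext hw, rfl,
        y, rfl, hwy⟩
    · obtain ⟨w, hw, hwy⟩ := xtrelg_on (A.ι a) hz
      exact .inr ⟨a, ⟨w, by rw [← (A.ι a).vc_v w, hw]; exact v.2⟩, Quotient.mk _ f,
        Subtype.ext hw, rfl, f, rfl, hwy⟩

theorem xtrelg_i (h : TRel A s u t m) {B : ℕ → Set I} (hX : IsTrain X s B m) {μ : ℕ} {a : Q}
    {f f' : X.E} {v : A.Z.V} (h1 : A.Z.On v ((A.ι a).e f)) (h2 : A.Z.On v ((A.ι a).e f'))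
    (h3 : ¬ t μ ((A.ι a).e f) ((A.ι a).e f')) (h4 : t (μ + 1) ((A.ι a).e f) ((A.ι a).e f')) :
    A.Z.vc v ∈ B μ := by
  obtain ⟨w, rfl, hw⟩ := xtrelg_on (A.ι a) h1
  rw [(A.ι a).vc_v]
  exact hX.cond μ f f' w hw ((A.ι a).on.1 h2) (fun h5 => h3 ((h.ι_c a μ f f').2 h5))
    ((h.ι_c a _ f f').1 h4)

theorem xtrelg_j (h : TRel A s u t m) {B : ℕ → Set I}
    (hG : IsTrain G u (fun μ => cl ⁻¹' B μ) m) {μ : ℕ}
    {y y' : G.E} {v : A.Z.V} (h1 : A.Z.On v (A.j.e y)) (h2 : A.Z.On v (A.j.e y'))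
    (h3 : ¬ t μ (A.j.e y) (A.j.e y')) (h4 : t (μ + 1) (A.j.e y) (A.j.e y')) :
    A.Z.vc v ∈ B μ := by
  obtain ⟨w, rfl, hw⟩ := xtrelg_on A.j h1
  rw [A.j.vc_v]
  exact hG.cond μ y y' w hw (A.j.on.1 h2) (fun h5 => h3 ((h.j_c μ y y').2 h5))
    ((h.j_c _ y y').1 h4)

theorem xtrelg_z (h : TRel A s u t m) {B : ℕ → Set I} (hX : IsTrain X s B m)
    (hq : ∀ μ, 1 ≤ μ → μ < m →
      ∃ w n, GoodL q (conS ψ e (s μ)) (u μ) (Hi (fun μ => cl ⁻¹' B μ) m μ) w n)
    {μ : ℕ} {a : Q} {f : X.E} {v : A.Z.V} {x' : A.Z.E} (h1 : A.Z.On v ((A.ι a).e f))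
    (h2 : A.Z.On v x') (h4 : t (μ + 1) ((A.ι a).e f) x')
    (hx' : (∃ y, A.j.e y = x') ∨ ∃ b f', a ≠ b ∧ (A.ι b).e f' = x') :
    ∃ f2 : (Con ψ e).E, A.Z.On v ((A.ι a).e f2.1) ∧ s (μ + 1) f f2.1 := by
  obtain ⟨v0, rfl, hv0⟩ := xtrelg_on (A.ι a) h1
  obtain ⟨v1, rfl⟩ : ∃ v1, (conEmb ψ e).v v1 = v0 := by
    rcases hx' with ⟨y, rfl⟩ | ⟨b, f', hab, rfl⟩
    · obtain ⟨w, hw, -⟩ := xtrelg_on A.j h2
      exact A.shared_v a v0 w hw.symm
    · obtain ⟨w, hw, -⟩ := xtrelg_on (A.ι b) h2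
      exact (A.sep_v a b v0 w hw.symm).resolve_left hab
  have hon : ∀ f2 : (Con ψ e).E, (Con ψ e).On v1 f2 → X.On ((conEmb ψ e).v v1) f2.1 :=
    fun f2 h2 => ((conEmb ψ e).on (e := f2)).2 h2
  obtain ⟨f1, hf1⟩ := con_noIso ψ e v1
  by_cases hm : m ≤ μ + 1
  · exact ⟨f1, (A.ι a).on.2 (hon f1 hf1), hX.top _ hm _ _⟩
  by_cases hv : X.vc ((conEmb ψ e).v v1) ∈ Hi B m (μ + 1)
  swap
  · exact ⟨f1, (A.ι a).on.2 (hon f1 hf1), hX.low hv0 (hon f1 hf1) hv⟩
  have hm' : μ + 1 < m := not_le.1 hm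
  obtain ⟨_, _, hc, hb, -⟩ := hq (μ + 1) (Nat.le_add_left 1 μ) hm'
  have hD : ∀ w : (Con ψ e).V, X.vc ((conEmb ψ e).v w) ∈ Hi B m (μ + 1) →
      (Con ψ e).vc w ∈ Hi (fun μ => cl ⁻¹' B μ) m (μ + 1) := fun w hw => by
    rw [hi_preimage]
    rw [(conEmb ψ e).vc_v w] at hw
    exact hw
  obtain ⟨f0, h0, hf0⟩ : ∃ f0, ψ.e f0 = e ∧ s (μ + 1) f f0 := by
    rcases hx' with ⟨y, rfl⟩ | ⟨b, f', hab, rfl⟩
    · exact h.tie _ hm' a f y h4
    · exact (h.sep _ hm' a b f f' h4).resolve_left hab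
  have ht0 : t (μ + 1) x' (A.j.e ((q a).e ⟨f0, h0⟩)) := by
    rw [← A.comm_e a ⟨f0, h0⟩]
    exact (t _).trans ((t _).symm h4) ((h.ι_c a _ f f0).2 hf0)
  have hM : (hg G (u (μ + 1)) (Hi (fun μ => cl ⁻¹' B μ) m (μ + 1))).M
      (((q a).hg (hc a) _).v ⟨v1, hD v1 hv⟩) (((q a).hg (hc a) _).c (Quotient.mk _ ⟨f0, h0⟩)) := by
    rcases hx' with ⟨y, rfl⟩ | ⟨b, f', hab, rfl⟩
    · rw [A.comm_v a v1] at h2
      exact ⟨y, Quotient.sound ((h.j_c _ _ _).1 ht0), A.j.on.1 h2⟩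
    · obtain ⟨w, hw, -⟩ := xtrelg_on (A.ι b) h2
      obtain ⟨w1, rfl⟩ := (A.sep_v b a w _ hw).resolve_left hab.symm
      obtain ⟨g0, k0, hg0⟩ := (h.sep _ hm' b a f' f ((t _).symm h4)).resolve_left hab.symm
      have e1 : (q b).v w1 = (q a).v v1 :=
        A.j.v_inj ((A.comm_v b w1).symm.trans (hw.trans (A.comm_v a v1)))
      have e2 : u (μ + 1) ((q b).e ⟨g0, k0⟩) ((q a).e ⟨f0, h0⟩) := by
        refine (h.j_c _ _ _).1 ((t _).trans ?_ ht0)
        rw [← A.comm_e b ⟨g0, k0⟩]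
        exact (h.ι_c b _ g0 f').2 ((s _).symm hg0)
      have e3 : X.vc ((conEmb ψ e).v w1) ∈ Hi B m (μ + 1) := by
        rw [← (A.ι b).vc_v, hw, (A.ι a).vc_v]
        exact hv
      obtain ⟨d, hd1, hd2⟩ := hb.b2 a b
        (.inl (((q a).hg (hc a) _).v ⟨v1, hD v1 hv⟩))
        (.inr (((q a).hg (hc a) _).c (Quotient.mk _ ⟨f0, h0⟩))) hab Sum.inl_ne_inr
        ⟨.inl ⟨v1, hD v1 hv⟩, rfl⟩ ⟨.inr (Quotient.mk _ ⟨f0, h0⟩), rfl⟩
        ⟨.inl ⟨w1, hD w1 e3⟩, congrArg Sum.inl (Subtype.ext e1)⟩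
        ⟨.inr (Quotient.mk _ ⟨g0, k0⟩), congrArg Sum.inr (Quotient.sound e2)⟩
      obtain rfl : _ = d := hd2
      exact hd1
  obtain ⟨f2, e2, hf2⟩ := hb.ind a _ _ hM
  have e3 : conS ψ e (s (μ + 1)) f2 ⟨f0, h0⟩ := Quotient.exact e2
  exact ⟨f2, (A.ι a).on.2 (hon f2 hf2), (s _).trans hf0 ((s _).symm e3)⟩

theorem TRel.isTrain (h : TRel A s u t m) {B : ℕ → Set I} (hX : IsTrain X s B m)
    (hG : IsTrain G u (fun μ => cl ⁻¹' B μ) m)
    (hq : ∀ μ, 1 ≤ μ → μ < m →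
      ∃ w n, GoodL q (conS ψ e (s μ)) (u μ) (Hi (fun μ => cl ⁻¹' B μ) m μ) w n) :
    IsTrain A.Z t B m := by
  refine ⟨h.zero, h.mono, h.top, fun μ x x' v h1 h2 h3 h4 => ?_⟩
  have mixed : ∀ a f y, A.Z.On v ((A.ι a).e f) → A.Z.On v (A.j.e y) →
      ¬ t μ ((A.ι a).e f) (A.j.e y) → t (μ + 1) ((A.ι a).e f) (A.j.e y) → A.Z.vc v ∈ B μ := by
    intro a f y h1 h2 h3 h4
    obtain ⟨f2, h5, h6⟩ := xtrelg_z h hX hq h1 h2 h4 (.inl ⟨y, rfl⟩)
    have h7 := (h.ι_c a _ f f2.1).2 h6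
    by_cases h8 : t μ ((A.ι a).e f) ((A.ι a).e f2.1)
    · have e : (A.ι a).e f2.1 = A.j.e ((q a).e f2) := A.comm_e a f2
      rw [e] at h5 h7 h8
      exact xtrelg_j h hG h5 h2 (fun h9 => h3 ((t _).trans h8 h9))
        ((t _).trans ((t _).symm h7) h4)
    · exact xtrelg_i h hX h1 h5 h8 h7
  rcases A.cover_e x with ⟨y, rfl⟩ | ⟨a, f, rfl⟩
  · rcases A.cover_e x' with ⟨y', rfl⟩ | ⟨b, f', rfl⟩
    · exact xtrelg_j h hG h1 h2 h3 h4
    · exact mixed b f' y h2 h1 (fun h5 => h3 ((t _).symm h5)) ((t _).symm h4)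
  · rcases A.cover_e x' with ⟨y', rfl⟩ | ⟨b, f', rfl⟩
    · exact mixed a f y' h1 h2 h3 h4
    · by_cases hab : a = b
      · subst hab
        exact xtrelg_i h hX h1 h2 h3 h4
      · obtain ⟨f2, h5, h6⟩ := xtrelg_z h hX hq h1 h2 h4 (.inr ⟨b, f', hab, rfl⟩)
        have h7 := (h.ι_c a _ f f2.1).2 h6
        by_cases h8 : t μ ((A.ι a).e f) ((A.ι a).e f2.1)
        · have e : (A.ι a).e f2.1 = A.j.e ((q a).e f2) := A.comm_e a f2
          rw [e] at h5 h7 h8
          exact mixed b f' _ h2 h5 (fun h9 => h3 ((t _).trans h8 ((t _).symm h9)))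
            ((t _).trans ((t _).symm h4) h7)
        · exact xtrelg_i h hX h1 h5 h8 h7

end Pool.Agent.MP_1c0fc2_co.GR

end

section

open Function

namespace Pool.Agent.MP_1c0fc2_co.GR

variable {F S X G Z : Geo} {P Q : Type} {σ : GHom S X} {q : Q → GHom S G} {ι : Q → GHom X Z}
  {j : GHom G Z} {φ : P → GHom F X}

theorem GAmal.bag_iff (h : GAmal σ q ι j) (a : Q) (y : G.N) :
    (ι a).Bag (j.n y) ↔ (q a).Bag y := by
  constructor
  · rintro ⟨x, hx⟩
    obtain ⟨s, rfl⟩ := h.shared a x y hx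
    exact ⟨s, j.n_inj ((h.comm a s).symm.trans hx)⟩
  · rintro ⟨s, rfl⟩
    exact ⟨σ.n s, h.comm a s⟩

theorem GAmal.two (h : GAmal σ q ι j) {a b : Q} (hab : a ≠ b) {z : Z.N} (ha : (ι a).Bag z)
    (hb : (ι b).Bag z) : ∃ y, j.n y = z ∧ (q a).Bag y ∧ (q b).Bag y := by
  obtain ⟨x, rfl⟩ := ha
  obtain ⟨y, hy⟩ := hb
  obtain ⟨s, rfl⟩ := (h.sep a b x y hy.symm).resolve_left hab
  exact ⟨(q a).n s, (h.comm a s).symm, ⟨s, rfl⟩, (h.bag_iff b _).1 ⟨y, hy.trans (h.comm a s)⟩⟩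

theorem GAmal.gw (h : GAmal σ q ι j) (h2 : B2 q) {a b : Q} (hab : a ≠ b) {x y : Z.N}
    (hxy : x ≠ y) (hxa : (ι a).Bag x) (hya : (ι a).Bag y) (hxb : (ι b).Bag x)
    (hyb : (ι b).Bag y) : GW j x y := by
  obtain ⟨x', rfl, hx1, hx2⟩ := h.two hab hxa hxb
  obtain ⟨y', rfl, hy1, hy2⟩ := h.two hab hya hyb
  exact ⟨x', y', rfl, rfl, h2 a b x' y' hab (fun e => hxy (congrArg _ e)) hx1 hy1 hx2 hy2⟩

theorem xclosea_v (h : GAmal σ q ι j) (a : Q) (v : G.V) :
    (ι a).Bag (.inl (j.v v)) ↔ (q a).Bag (.inl v) := h.bag_iff a (.inl v)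

theorem xclosea_c (h : GAmal σ q ι j) (a : Q) (c : G.C) :
    (ι a).Bag (.inr (j.c c)) ↔ (q a).Bag (.inr c) := h.bag_iff a (.inr c)

theorem xclosea_inc (h : GAmal σ q ι j) {v : Z.V} {c : Z.C} (hm : Z.M v c) :
    (∃ v' c', j.v v' = v ∧ j.c c' = c ∧ G.M v' c') ∨
      ∃ a, (ι a).Bag (.inl v) ∧ (ι a).Bag (.inr c) := by
  rcases h.inc v c hm with h1 | ⟨a, v', c', rfl, rfl, -⟩
  · exact Or.inl h1
  · exact Or.inr ⟨a, ⟨.inl v', rfl⟩, ⟨.inr c', rfl⟩⟩

theorem xclosea_eq (h : GAmal σ q ι j) {a b : Q} {z : Z.N} (hz : ¬ j.Bag z) (ha : (ι a).Bag z)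
    (hb : (ι b).Bag z) : a = b := by
  by_contra hab
  obtain ⟨y, hy, -⟩ := h.two hab ha hb
  exact hz ⟨y, hy⟩

/-- two vertices on an unshared centre lie in its copy -/
theorem xclosea_uc (h : GAmal σ q ι j) {u v : Z.V} {c : Z.C} (hc : ¬ j.Bag (.inr c))
    (hu : Z.M u c) (hv : Z.M v c) :
    ∃ a, (ι a).Bag (.inl u) ∧ (ι a).Bag (.inl v) ∧ (ι a).Bag (.inr c) := by
  rcases xclosea_inc h hu with ⟨-, c', -, rfl, -⟩ | ⟨a, h1, h2⟩
  · exact absurd ⟨.inr c', rfl⟩ hc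
  rcases xclosea_inc h hv with ⟨-, c', -, rfl, -⟩ | ⟨b, h3, h4⟩
  · exact absurd ⟨.inr c', rfl⟩ hc
  obtain rfl := xclosea_eq h hc h2 h4
  exact ⟨a, h1, h3, h2⟩

/-- two centres on an unshared vertex lie in its copy -/
theorem xclosea_uv (h : GAmal σ q ι j) {u : Z.V} {c d : Z.C} (hu : ¬ j.Bag (.inl u))
    (hc : Z.M u c) (hd : Z.M u d) :
    ∃ a, (ι a).Bag (.inl u) ∧ (ι a).Bag (.inr c) ∧ (ι a).Bag (.inr d) := by
  rcases xclosea_inc h hc with ⟨v', -, rfl, -, -⟩ | ⟨a, h1, h2⟩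
  · exact absurd ⟨.inl v', rfl⟩ hu
  rcases xclosea_inc h hd with ⟨v', -, rfl, -, -⟩ | ⟨b, h3, h4⟩
  · exact absurd ⟨.inl v', rfl⟩ hu
  obtain rfl := xclosea_eq h hu h1 h3
  exact ⟨a, h1, h2, h4⟩

theorem GAmal.adj (h : GAmal σ q ι j) {v : G.V} {c : G.C} (hm : Z.M (j.v v) (j.c c)) :
    Adj q (.inl v) (.inr c) := by
  rcases xclosea_inc h hm with ⟨v', c', h1, h2, h3⟩ | ⟨a, h1, h2⟩
  · obtain rfl := j.v_inj h1
    obtain rfl := j.c_inj h2
    exact Or.inr (Geo.wp_inl_inr.2 h3)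
  · exact Or.inl ⟨a, (xclosea_v h a v).1 h1, (xclosea_c h a c).1 h2⟩

theorem xclosea_g (h : GAmal σ q ι j) (hq : Basic q) (a : Q) {x : X.V} {y : X.C} {v : G.V}
    {c : G.C} (h1 : j.v v = (ι a).v x) (h2 : j.c c = (ι a).c y) (hm : G.M v c) : X.M x y := by
  obtain ⟨s, rfl⟩ := ((q a).bag_inl v).1 ((xclosea_v h a v).1 ⟨.inl x, congrArg Sum.inl h1.symm⟩)
  obtain ⟨t, rfl⟩ := ((q a).bag_inr c).1 ((xclosea_c h a c).1 ⟨.inr y, congrArg Sum.inr h2.symm⟩)
  obtain rfl : σ.v s = x := (ι a).v_inj ((Sum.inl.inj (h.comm a (.inl s))).trans h1)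
  obtain rfl : σ.c t = y := (ι a).c_inj ((Sum.inr.inj (h.comm a (.inr t))).trans h2)
  exact σ.map _ _ (hq.ind a _ _ hm)

theorem GAmal.k1 (h : GAmal σ q ι j) (hq : Basic q) (a : Q) : (ι a).Ind := by
  intro x y hm
  rcases h.inc _ _ hm with ⟨v', c', h1, h2, h3⟩ | ⟨b, v', c', h1, h2, h3⟩
  · exact xclosea_g h hq a h1 h2 h3
  by_cases hab : a = b
  · subst hab
    obtain rfl := (ι a).v_inj h1
    obtain rfl := (ι a).c_inj h2
    exact h3
  obtain ⟨x', y', e1, e2, hw⟩ := h.gw hq.b2 hab (x := .inl ((ι a).v x)) (y := .inr ((ι a).c y))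
    Sum.inl_ne_inr ⟨.inl x, rfl⟩ ⟨.inr y, rfl⟩ ⟨.inl v', congrArg Sum.inl h1⟩
    ⟨.inr c', congrArg Sum.inr h2⟩
  rcases x' with x' | x'
  · rcases y' with y' | y'
    · exact absurd e2 Sum.inl_ne_inr
    · exact xclosea_g h hq a (Sum.inl.inj e1) (Sum.inr.inj e2) (Geo.wp_inl_inr.1 hw)
  · exact absurd e1 Sum.inr_ne_inl

/-- linearity inside one copy -/
theorem xclosea_lin (h : GAmal σ q ι j) (hq : Basic q) (hX : X.B3) (a : Q) {u v : Z.V}
    {c d : Z.C} (huv : u ≠ v) (hu : (ι a).Bag (.inl u)) (hv : (ι a).Bag (.inl v))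
    (hc : (ι a).Bag (.inr c)) (hd : (ι a).Bag (.inr d)) (h1 : Z.M u c) (h2 : Z.M v c)
    (h3 : Z.M u d) (h4 : Z.M v d) : c = d := by
  obtain ⟨u, rfl⟩ := ((ι a).bag_inl u).1 hu
  obtain ⟨v, rfl⟩ := ((ι a).bag_inl v).1 hv
  obtain ⟨c, rfl⟩ := ((ι a).bag_inr c).1 hc
  obtain ⟨d, rfl⟩ := ((ι a).bag_inr d).1 hd
  have k := h.k1 hq a
  exact congrArg _ (hX u v c d (fun e => huv (congrArg _ e)) (k _ _ h1) (k _ _ h2) (k _ _ h3)
    (k _ _ h4))

theorem xclosea_str (hq : Basic q) (a : Q) {u v : G.V} {e : G.C} (huv : u ≠ v)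
    (hu : (q a).Bag (.inl u)) (hv : (q a).Bag (.inl v)) (h1 : G.M u e) (h2 : G.M v e) :
    (q a).Bag (.inr e) := by
  obtain ⟨u, rfl⟩ := ((q a).bag_inl u).1 hu
  obtain ⟨v, rfl⟩ := ((q a).bag_inl v).1 hv
  exact ((q a).bag_inr e).2 (hq.str a u v e (fun e => huv (congrArg _ e)) h1 h2)

theorem xclosea_other (h : GAmal σ q ι j) (hq : Basic q) (hX : X.B3) (a b : Q) {u v : G.V}
    {d : Z.C} (huv : u ≠ v) (hu : (q a).Bag (.inl u)) (hv : (q a).Bag (.inl v))
    (hu' : (q b).Bag (.inl u)) (hv' : (q b).Bag (.inl v)) (hd : (ι b).Bag (.inr d))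
    (h1 : Z.M (j.v u) d) (h2 : Z.M (j.v v) d) : (ι a).Bag (.inr d) := by
  by_cases hab : a = b
  · rwa [hab]
  obtain ⟨e, e1, e2⟩ := hq.b2 a b _ _ hab (fun e => huv (Sum.inl.inj e)) hu hv hu' hv'
  obtain rfl : d = j.c e := xclosea_lin h hq hX b (fun e => huv (j.v_inj e))
    ((xclosea_v h b u).2 hu') ((xclosea_v h b v).2 hv') hd
    ((xclosea_c h b e).2 (xclosea_str hq b huv hu' hv' e1 e2)) h1 h2 (j.map _ _ e1) (j.map _ _ e2)
  exact (xclosea_c h a e).2 (xclosea_str hq a huv hu hv e1 e2)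

theorem xclosea_tri (h : GAmal σ q ι j) (hac : AC q 4 4) {u v : G.V} {c : G.C} (huv : u ≠ v)
    (ha : Adj q (.inl u) (.inl v)) (h1 : Z.M (j.v u) (j.c c)) (h2 : Z.M (j.v v) (j.c c)) :
    (∃ b, (q b).Bag (.inl u) ∧ (q b).Bag (.inl v) ∧ (q b).Bag (.inr c)) ∨
      (G.M u c ∧ G.M v c) := by
  rcases hac.tri (by omega) (fun e => huv (Sum.inl.inj e)) Sum.inl_ne_inr Sum.inl_ne_inr
    (le_refl 4) ha (h.adj h2) (h.adj h1).symm with ⟨b, hb⟩ | ⟨e, he⟩
  · exact Or.inl ⟨b, hb _ (by simp), hb _ (by simp), hb _ (by simp)⟩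
  · obtain rfl : c = e := he (.inr c) (by simp)
    exact Or.inr ⟨he (.inl u) (by simp), he (.inl v) (by simp)⟩

theorem xclosea_k3 (h : GAmal σ q ι j) (hq : Basic q) (hac : AC q 4 4) (hX : X.B3) (a : Q)
    {u v : Z.V} {d : Z.C} (huv : u ≠ v) (hu : (ι a).Bag (.inl u)) (hv : (ι a).Bag (.inl v))
    (h1 : Z.M u d) (h2 : Z.M v d) : (ι a).Bag (.inr d) := by
  by_contra hd
  have sh : ∀ w, (ι a).Bag (.inl w) → Z.M w d → ∃ w', j.v w' = w := by
    intro w hw hm
    rcases xclosea_inc h hm with ⟨v', -, e, -, -⟩ | ⟨b, e1, e2⟩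
    · exact ⟨v', e⟩
    · obtain ⟨y, hy, -⟩ := h.two (a := a) (b := b) (fun e => hd (e ▸ e2)) hw e1
      exact (j.bag_inl w).1 ⟨y, hy⟩
  obtain ⟨u, rfl⟩ := sh u hu h1
  obtain ⟨v, rfl⟩ := sh v hv h2
  have huv' : u ≠ v := fun e => huv (congrArg _ e)
  rw [xclosea_v h] at hu hv
  by_cases hj : j.Bag (.inr d)
  · obtain ⟨c, rfl⟩ := (j.bag_inr d).1 hj
    rcases xclosea_tri h hac huv' (Or.inl ⟨a, hu, hv⟩) h1 h2 with ⟨b, e1, e2, e3⟩ | ⟨e1, e2⟩
    · exact hd (xclosea_other h hq hX a b huv' hu hv e1 e2 ((xclosea_c h b c).2 e3) h1 h2)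
    · exact hd ((xclosea_c h a c).2 (xclosea_str hq a huv' hu hv e1 e2))
  · obtain ⟨b, e1, e2, e3⟩ := xclosea_uc h hj h1 h2
    exact hd (xclosea_other h hq hX a b huv' hu hv ((xclosea_v h b u).1 e1)
      ((xclosea_v h b v).1 e2) e3 h1 h2)

theorem GAmal.k3 (h : GAmal σ q ι j) (hq : Basic q) (hac : AC q 4 4) (hX : X.B3) (a : Q) :
    (ι a).Str := by
  intro x y d hxy h1 h2
  exact ((ι a).bag_inr d).1 (xclosea_k3 h hq hac hX a (fun e => hxy ((ι a).v_inj e))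
    ⟨.inl x, rfl⟩ ⟨.inl y, rfl⟩ h1 h2)

theorem xclosea_cc (hq : Basic q) {a b : Q} {c d : G.C} (hcd : c ≠ d)
    (h1 : (q a).Bag (.inr c)) (h2 : (q a).Bag (.inr d)) (h3 : (q b).Bag (.inr c))
    (h4 : (q b).Bag (.inr d)) : a = b := by
  by_contra hab
  exact Geo.not_wp_inr hcd (hq.b2 a b _ _ hab (fun e => hcd (Sum.inr.inj e)) h1 h2 h3 h4)

theorem xclosea_on (h : GAmal σ q ι j) (hq : Basic q) (hac : AC q 4 4) {a : Q} {c d : G.C}
    (hcd : c ≠ d) (hc : (q a).Bag (.inr c)) (hd : (q a).Bag (.inr d)) {w : Z.V}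
    (h1 : Z.M w (j.c c)) (h2 : Z.M w (j.c d)) : (ι a).Bag (.inl w) := by
  by_cases hj : j.Bag (.inl w)
  · obtain ⟨w, rfl⟩ := (j.bag_inl w).1 hj
    rcases hac.tri (by omega) (fun e => hcd (Sum.inr.inj e)) Sum.inr_ne_inl Sum.inr_ne_inl
      (le_refl 4) (Or.inl ⟨a, hc, hd⟩) (h.adj h2).symm (h.adj h1) with ⟨b, hb⟩ | ⟨e, he⟩
    · obtain rfl := xclosea_cc hq hcd hc hd (hb _ (by simp)) (hb _ (by simp))
      exact (xclosea_v h a w).2 (hb _ (by simp))
    · have e1 : c = e := he (.inr c) (by simp)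
      have e2 : d = e := he (.inr d) (by simp)
      exact absurd (e1.trans e2.symm) hcd
  · obtain ⟨b, e1, e2, e3⟩ := xclosea_uv h hj h1 h2
    obtain rfl := xclosea_cc hq hcd hc hd ((xclosea_c h b c).1 e2) ((xclosea_c h b d).1 e3)
    exact e1

theorem GAmal.b3 (h : GAmal σ q ι j) (hq : Basic q) (hac : AC q 4 4) (hX : X.B3) : Z.B3 := by
  intro u v c d huv h1 h2 h3 h4
  have D : ∀ a, (ι a).Bag (.inl u) → (ι a).Bag (.inl v) → c = d := fun a hu hv =>
    xclosea_lin h hq hX a huv hu hv (xclosea_k3 h hq hac hX a huv hu hv h1 h2)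
      (xclosea_k3 h hq hac hX a huv hu hv h3 h4) h1 h2 h3 h4
  by_cases hc : j.Bag (.inr c)
  swap
  · obtain ⟨a, e1, e2, -⟩ := xclosea_uc h hc h1 h2
    exact D a e1 e2
  by_cases hd : j.Bag (.inr d)
  swap
  · obtain ⟨a, e1, e2, -⟩ := xclosea_uc h hd h3 h4
    exact D a e1 e2
  obtain ⟨c, rfl⟩ := (j.bag_inr c).1 hc
  obtain ⟨d, rfl⟩ := (j.bag_inr d).1 hd
  by_contra hcd
  have hcd' : c ≠ d := fun e => hcd (congrArg _ e)
  have E : ∀ a, (q a).Bag (.inr c) → (q a).Bag (.inr d) → False := fun a e1 e2 =>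
    hcd (D a (xclosea_on h hq hac hcd' e1 e2 h1 h3) (xclosea_on h hq hac hcd' e1 e2 h2 h4))
  have sh : ∀ w, Z.M w (j.c c) → Z.M w (j.c d) → ∃ w', j.v w' = w := by
    intro w e1 e2
    by_contra hw
    obtain ⟨a, -, e3, e4⟩ := xclosea_uv h (fun e => hw ((j.bag_inl w).1 e)) e1 e2
    exact E a ((xclosea_c h a c).1 e3) ((xclosea_c h a d).1 e4)
  obtain ⟨u, rfl⟩ := sh u h1 h3
  obtain ⟨v, rfl⟩ := sh v h2 h4
  have huv' : u ≠ v := fun e => huv (congrArg _ e)
  have D' : ∀ a, (q a).Bag (.inl u) → (q a).Bag (.inl v) → False := fun a e1 e2 =>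
    hcd (D a ((xclosea_v h a u).2 e1) ((xclosea_v h a v).2 e2))
  rcases hac.quad (x := .inl u) (y := .inr c) (z := .inl v) (t := .inr d) (le_refl 4)
    (by simp [huv', hcd']) (le_refl 4) (h.adj h1) (h.adj h2).symm (h.adj h4)
    (h.adj h3).symm with k | ⟨a, e1, e2⟩ | k
  · rcases xclosea_tri h hac huv' k h1 h2 with ⟨a, e1, e2, -⟩ | ⟨e1, e2⟩
    · exact D' a e1 e2
    rcases xclosea_tri h hac huv' k h3 h4 with ⟨a, e3, e4, -⟩ | ⟨e3, e4⟩
    · exact D' a e3 e4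
    exact hcd' (hq.b3 u v c d huv' e1 e2 e3 e4)
  · exact E a e1 e2
  · exact Geo.not_wp_inr hcd' k

theorem GAmal.basic (h : GAmal σ q ι j) (hq : Basic q) (hac : AC q 4 4) (hφ : Basic φ) :
    Basic (prodSys ι φ) := by
  refine ⟨fun a => GHom.Ind.comp (h.k1 hq a.1) (hφ.ind a.2),
    fun a => GHom.Str.comp (h.k3 hq hac hφ.b3 a.1) (h.k1 hq a.1) (hφ.str a.2), ?_,
    h.b3 hq hac hφ.b3⟩
  rintro ⟨a, p⟩ ⟨b, r⟩ x y hne hxy h1 h2 h3 h4
  obtain ⟨x1, e1, rfl⟩ := (GHom.bag_comp _ _ _).1 h1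
  obtain ⟨y1, e2, rfl⟩ := (GHom.bag_comp _ _ _).1 h2
  obtain ⟨x2, e3, f3⟩ := (GHom.bag_comp _ _ _).1 h3
  obtain ⟨y2, e4, f4⟩ := (GHom.bag_comp _ _ _).1 h4
  by_cases hab : a = b
  · subst hab
    obtain rfl := (ι a).n_inj f3
    obtain rfl := (ι a).n_inj f4
    exact (ι a).wp (hφ.b2 p r _ _ (fun e => hne (congrArg _ e)) (fun e => hxy (congrArg _ e))
      e1 e2 e3 e4)
  · obtain ⟨x', y', g1, g2, hw⟩ := h.gw hq.b2 hab hxy ⟨x1, rfl⟩ ⟨y1, rfl⟩ ⟨x2, f3⟩ ⟨y2, f4⟩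
    rw [← g1, ← g2]
    exact j.wp hw

end Pool.Agent.MP_1c0fc2_co.GR

end

section

open Function

namespace Pool.Agent.MP_1c0fc2_co.GR

variable {F S X G Z : Geo} {P Q : Type} {σ : GHom S X} {q : Q → GHom S G} {ι : Q → GHom X Z}
  {j : GHom G Z} {φ : P → GHom F X} {w n : ℕ}

theorem xcloseb_rot {l l' : List Z.N} (h : OutL ι j l') (hr : l ~r l') : OutL ι j l := by
  rcases h with ⟨a, ha⟩ | ⟨x, y, hn, hg⟩ | ⟨d, hd⟩
  · exact Or.inl ⟨a, fun x hx => ha x (hr.mem_iff.1 hx)⟩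
  · exact Or.inr (Or.inl ⟨x, y, hn.rot hr.symm, hg⟩)
  · exact Or.inr (Or.inr ⟨d, fun x hx => hd x (hr.mem_iff.1 hx)⟩)

theorem xcloseb_lift {A B : Geo} (f : GHom A B) {l : List B.N} (h : ∀ x ∈ l, f.Bag x) :
    ∃ l0 : List A.N, l0.map f.n = l := by
  induction l with
  | nil => exact ⟨[], rfl⟩
  | cons x t ih =>
    obtain ⟨y, hy⟩ := h x List.mem_cons_self
    obtain ⟨t0, ht0⟩ := ih (fun u hu => h u (List.mem_cons_of_mem _ hu))
    exact ⟨y :: t0, by rw [List.map_cons, hy, ht0]⟩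

theorem xcloseb_adj (a : Q) {x y : X.N} (h : Adj φ x y) :
    Adj (prodSys ι φ) ((ι a).n x) ((ι a).n y) := by
  rcases h with ⟨p, hx, hy⟩ | h
  · exact Or.inl ⟨(a, p), (GHom.bag_comp _ _ _).2 ⟨x, hx, rfl⟩,
      (GHom.bag_comp _ _ _).2 ⟨y, hy, rfl⟩⟩
  · exact Or.inr ((ι a).wp h)

theorem xcloseb_gw_wp {x y : Z.N} (h : GW j x y) : Z.WP x y := by
  obtain ⟨x', y', rfl, rfl, hw⟩ := h
  exact j.wp hw

theorem GAmal.loc_step (h : GAmal σ q ι j) (h2 : B2 q) {l : List Z.N}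
    (hl : Cyc (Loc ι j) w (n + 1) l) (hz : ∃ z ∈ l, ¬ j.Bag z)
    (ih : ∀ l', l'.length < l.length → Cyc (Loc ι j) w n l' → OutL ι j l') : OutL ι j l := by
  obtain ⟨z, hzl, hzj⟩ := hz
  obtain ⟨a, hza⟩ := (h.cover z).resolve_left hzj
  have huniq : ∀ b, (ι b).Bag z → b = a := by
    intro b hb
    by_contra hba
    obtain ⟨y, hy, -, -⟩ := h.two hba hb hza
    exact hzj ⟨y, hy⟩
  obtain ⟨x, y, t, hr⟩ := mid_rot hl.three hzl
  have hl' := hl.rot hr
  refine xcloseb_rot ?_ hr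
  have hxz : Loc ι j x z := hl'.step (x, z) (by rw [steps_three]; exact List.mem_cons_self)
  have hzy : Loc ι j z y := hl'.step (z, y) (by
    rw [steps_three]; exact List.mem_cons_of_mem _ List.mem_cons_self)
  have hxa : (ι a).Bag x := by
    rcases hxz with ⟨b, hb, hb'⟩ | ⟨x', z', -, hz', -⟩
    · rw [← huniq b hb']; exact hb
    · exact absurd ⟨z', hz'⟩ hzj
  have hya : (ι a).Bag y := by
    rcases hzy with ⟨b, hb', hb⟩ | ⟨z', y', hz', -, -⟩
    · rw [← huniq b hb']; exact hb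
    · exact absurd ⟨z', hz'⟩ hzj
  by_cases ht : t = []
  · subst ht
    refine Or.inl ⟨a, fun u hu => ?_⟩
    simp only [List.mem_cons, List.not_mem_nil, or_false] at hu
    rcases hu with rfl | rfl | rfl
    · exact hxa
    · exact hza
    · exact hya
  have hxy : x ≠ y := by
    have hn := hl'.nodup
    intro e
    rw [List.nodup_cons] at hn
    exact hn.1 (by rw [e]; exact List.mem_cons_of_mem _ List.mem_cons_self)
  have hdel : Cyc (Loc ι j) w n (x :: y :: t) := hl'.del ht (Or.inl ⟨a, hxa, hya⟩)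
  have hlen : (x :: y :: t).length < l.length := by
    rw [hr.perm.length_eq]; simp
  have hmx : x ∈ x :: y :: t := List.mem_cons_self
  have hmy : y ∈ x :: y :: t := List.mem_cons_of_mem _ List.mem_cons_self
  rcases ih _ hlen hdel with ⟨b, hb⟩ | ⟨u, v, huv, hg⟩ | ⟨d, hd⟩
  · by_cases hab : a = b
    · subst hab
      refine Or.inl ⟨a, fun u hu => ?_⟩
      rcases List.mem_cons.1 hu with rfl | hu
      · exact hxa
      rcases List.mem_cons.1 hu with rfl | hu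
      · exact hza
      · exact hb u (List.mem_cons_of_mem _ hu)
    · exact Or.inr (Or.inl ⟨x, y, nonCons_ends ht x z y,
        h.gw h2 hab hxy hxa hya (hb x hmx) (hb y hmy)⟩)
  · exact Or.inr (Or.inl ⟨u, v, huv.ins z, hg⟩)
  · obtain ⟨x', hx', hx''⟩ := hd x hmx
    obtain ⟨y', hy', hy''⟩ := hd y hmy
    exact Or.inr (Or.inl ⟨x, y, nonCons_ends ht x z y, x', y', hx', hy', d, hx'', hy''⟩)

theorem GAmal.loc_all (h : GAmal σ q ι j) (h2 : B2 q) (hac : AC q w n) {l : List Z.N}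
    (hl : Cyc (Loc ι j) w n l) : OutL ι j l := by
  induction hk : l.length using Nat.strong_induction_on generalizing l with
  | _ k ih =>
  by_cases hz : ∃ z ∈ l, ¬ j.Bag z
  · exact h.loc_step h2 (hl.mono le_rfl (Nat.le_succ n)) hz
      (fun l' hlt hc => ih l'.length (hk ▸ hlt) hc rfl)
  · have hall : ∀ z ∈ l, j.Bag z := by
      intro z hzl
      by_contra hzj
      exact hz ⟨z, hzl, hzj⟩
    obtain ⟨l0, rfl⟩ := xcloseb_lift j hall
    have hc : Cyc (Adj q) w n l0 := by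
      refine Cyc.of_map (S := Loc ι j) (f := j.v) (g := j.c) hl ?_
      intro x _ y _ _ hxy
      rcases hxy with ⟨a, hx, hy⟩ | ⟨x', y', hx, hy, hw⟩
      · exact Or.inl ⟨a, (h.bag_iff a x).1 hx, (h.bag_iff a y).1 hy⟩
      · have e1 : x' = x := j.n_inj hx
        have e2 : y' = y := j.n_inj hy
        subst e1; subst e2
        exact Or.inr hw
    rcases tl h2 hac hc with ⟨x, y, hn, hw⟩ | ⟨p, hp⟩ | ⟨d, hd⟩
    · exact Or.inr (Or.inl ⟨j.n x, j.n y, hn.map j.n, x, y, rfl, rfl, hw⟩)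
    · refine Or.inl ⟨p, fun u hu => ?_⟩
      obtain ⟨u0, hu0, rfl⟩ := List.mem_map.1 hu
      exact (h.bag_iff p u0).2 (hp u0 hu0)
    · refine Or.inr (Or.inr ⟨d, fun u hu => ?_⟩)
      obtain ⟨u0, hu0, rfl⟩ := List.mem_map.1 hu
      exact ⟨u0, rfl, hd u0 hu0⟩

theorem GAmal.k4 (h : GAmal σ q ι j) (h2 : B2 q) (hi : ∀ a, (ι a).Ind) (hs : ∀ a, (ι a).Str)
    (a : Q) {x y : X.N} (hxy : x ≠ y) (hadj : Adj (prodSys ι φ) ((ι a).n x) ((ι a).n y)) :
    Adj φ x y := by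
  rcases hadj with ⟨⟨b, p⟩, hx, hy⟩ | hw
  · obtain ⟨x', hx', ex⟩ := (GHom.bag_comp (ι b) (φ p) _).1 hx
    obtain ⟨y', hy', ey⟩ := (GHom.bag_comp (ι b) (φ p) _).1 hy
    by_cases hab : a = b
    · subst hab
      have e1 : x' = x := (ι a).n_inj ex
      have e2 : y' = y := (ι a).n_inj ey
      subst e1; subst e2
      exact Or.inl ⟨p, hx', hy'⟩
    · have hg : GW j ((ι a).n x) ((ι a).n y) :=
        h.gw h2 hab (fun e => hxy ((ι a).n_inj e)) ⟨x, rfl⟩ ⟨y, rfl⟩ ⟨x', ex⟩ ⟨y', ey⟩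
      exact Or.inr (GHom.wp_pull (hi a) (hs a) hxy (xcloseb_gw_wp hg))
  · exact Or.inr (GHom.wp_pull (hi a) (hs a) hxy hw)

theorem GAmal.sub (h : GAmal σ q ι j) (h2 : B2 q) (hi : ∀ a, (ι a).Ind) (hs : ∀ a, (ι a).Str)
    (hφ : AC φ w n) {l : List Z.N} (hl : Cyc (Adj (prodSys ι φ)) w n l) {a : Q}
    (ha : ∀ x ∈ l, (ι a).Bag x) :
    (∃ x y, NonCons l x y ∧ Adj (prodSys ι φ) x y) ∨ InBag (prodSys ι φ) l := by
  obtain ⟨l0, rfl⟩ := xcloseb_lift (ι a) ha
  have hc : Cyc (Adj φ) w n l0 := by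
    refine Cyc.of_map (S := Adj (prodSys ι φ)) (f := (ι a).v) (g := (ι a).c) hl ?_
    intro x _ y _ hxy hadj
    exact h.k4 h2 hi hs a hxy hadj
  rcases hφ l0 hc with ⟨x, y, hn, hadj⟩ | ⟨p, hp⟩ | ⟨d, hd⟩
  · exact Or.inl ⟨(ι a).n x, (ι a).n y, hn.map (ι a).n, xcloseb_adj a hadj⟩
  · refine Or.inr (Or.inl ⟨(a, p), fun u hu => ?_⟩)
    obtain ⟨u0, hu0, rfl⟩ := List.mem_map.1 hu
    exact (GHom.bag_comp (ι a) (φ p) _).2 ⟨u0, hp u0 hu0, rfl⟩
  · refine Or.inr (Or.inr ⟨(ι a).c d, fun u hu => ?_⟩)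
    obtain ⟨u0, hu0, rfl⟩ := List.mem_map.1 hu
    exact (ι a).wb (hd u0 hu0)

theorem GAmal.out (h : GAmal σ q ι j) (h2 : B2 q) (hi : ∀ a, (ι a).Ind) (hs : ∀ a, (ι a).Str)
    (hφ : AC φ w n) {l : List Z.N} (hl : Cyc (Adj (prodSys ι φ)) w n l) (ho : OutL ι j l) :
    (∃ x y, NonCons l x y ∧ Adj (prodSys ι φ) x y) ∨ InBag (prodSys ι φ) l := by
  rcases ho with ⟨a, ha⟩ | ⟨x, y, hn, hg⟩ | ⟨d, hd⟩
  · exact h.sub h2 hi hs hφ hl ha
  · exact Or.inl ⟨x, y, hn, Or.inr (xcloseb_gw_wp hg)⟩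
  · refine Or.inr (Or.inr ⟨j.c d, fun u hu => ?_⟩)
    obtain ⟨u', rfl, hu'⟩ := hd u hu
    exact j.wb hu'

end Pool.Agent.MP_1c0fc2_co.GR

end

section

open Function

namespace Pool.Agent.MP_1c0fc2_co.GR

variable {F S X G Z : Geo} {P Q : Type} {σ : GHom S X} {q : Q → GHom S G} {ι : Q → GHom X Z}
  {j : GHom G Z} {φ : P → GHom F X} {w n : ℕ}

/-- outcome for arbitrary cycles of an amalgam -/
def xclosecO (ι : Q → GHom X Z) (j : GHom G Z) (l : List Z.N) : Prop :=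
  (∃ a, ∀ x ∈ l, (ι a).Bag x) ∨ (∃ x y, NonCons l x y ∧ GW j x y) ∨
    (∃ d u v y, u ≠ v ∧ v ≠ y ∧ u ≠ y ∧ Sum.inl u ∈ l ∧ Sum.inl v ∈ l ∧ Sum.inl y ∈ l ∧
      Z.M u d ∧ Z.M v d ∧ Z.M y d) ∨
    (∃ d y, NonCons l (.inr d) (.inl y) ∧ Z.M y d) ∨ (l.length = 3 ∧ ∃ d, ∀ x ∈ l, Z.WB d x)

theorem xclosec_rot {l l' : List Z.N} (h : xclosecO ι j l) (hr : l ~r l') : xclosecO ι j l' := by
  have hm : ∀ x, x ∈ l ↔ x ∈ l' := fun x => hr.mem_iff
  rcases h with ⟨a, h⟩ | ⟨x, y, h, h'⟩ | ⟨d, u, v, y, h1, h2, h3, h4, h5, h6, h7⟩ |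
    ⟨d, y, h, h'⟩ | ⟨h, d, h'⟩
  · exact Or.inl ⟨a, fun x hx => h x ((hm x).2 hx)⟩
  · exact Or.inr (Or.inl ⟨x, y, h.rot hr, h'⟩)
  · exact Or.inr (Or.inr (Or.inl ⟨d, u, v, y, h1, h2, h3, (hm _).1 h4, (hm _).1 h5,
      (hm _).1 h6, h7⟩))
  · exact Or.inr (Or.inr (Or.inr (Or.inl ⟨d, y, h.rot hr, h'⟩)))
  · exact Or.inr (Or.inr (Or.inr (Or.inr ⟨hr.perm.length_eq ▸ h, d,
      fun x hx => h' x ((hm x).2 hx)⟩)))

theorem xclosec_gw_symm {x y : Z.N} (h : GW j x y) : GW j y x := by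
  obtain ⟨x', y', h1, h2, h3⟩ := h
  exact ⟨y', x', h2, h1, h3.symm⟩

theorem xclosec_loc_symm {x y : Z.N} (h : Loc ι j x y) : Loc ι j y x := by
  rcases h with ⟨a, h1, h2⟩ | h
  · exact Or.inl ⟨a, h2, h1⟩
  · exact Or.inr (xclosec_gw_symm h)

theorem xclosec_gw_wp {x y : Z.N} (h : GW j x y) : Z.WP x y := by
  obtain ⟨x', y', rfl, rfl, h3⟩ := h
  exact j.wp h3

theorem xclosec_loc_inc (h : GAmal σ q ι j) {v : Z.V} {c : Z.C} (hm : Z.M v c) :
    Loc ι j (.inl v) (.inr c) := by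
  rcases h.inc v c hm with ⟨v', c', rfl, rfl, h'⟩ | ⟨a, v', c', rfl, rfl, _⟩
  · exact Or.inr ⟨.inl v', .inr c', rfl, rfl, Geo.wp_inl_inr.2 h'⟩
  · exact Or.inl ⟨a, ⟨.inl v', rfl⟩, ⟨.inr c', rfl⟩⟩

theorem xclosec_nonloc (h : GAmal σ q ι j) {x y : Z.N} (hxy : x ≠ y)
    (ha : Adj (prodSys ι φ) x y) (hl : ¬ Loc ι j x y) :
    ∃ u v c, x = .inl u ∧ y = .inl v ∧ Z.M u c ∧ Z.M v c := by
  rcases ha with ⟨p, h1, h2⟩ | ⟨c, h1, h2⟩
  · obtain ⟨x', _, hx⟩ := (GHom.bag_comp _ _ _).1 h1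
    obtain ⟨y', _, hy⟩ := (GHom.bag_comp _ _ _).1 h2
    exact absurd (Or.inl ⟨p.1, ⟨x', hx⟩, ⟨y', hy⟩⟩) hl
  · rcases x with u | c1 <;> rcases y with v | c2
    · exact ⟨u, v, c, rfl, rfl, h1, h2⟩
    · obtain rfl : c2 = c := h2
      exact absurd (xclosec_loc_inc h h1) hl
    · obtain rfl : c1 = c := h1
      exact absurd (xclosec_loc_symm (xclosec_loc_inc h h2)) hl
    · obtain rfl : c1 = c := h1
      obtain rfl : c2 = c1 := h2
      exact absurd rfl hxy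

theorem xclosec_back {u v : Z.V} {c : Z.C} {t : List Z.N} (hu : Z.M u c) (hv : Z.M v c)
    (hl : ¬ Loc ι j (.inl u) (.inl v)) (hn : (Sum.inl u :: .inr c :: .inl v :: t).Nodup)
    (ht : t ≠ []) (h : xclosecO ι j (.inl u :: .inr c :: .inl v :: t)) :
    xclosecO ι j (.inl u :: .inl v :: t) := by
  have hm : ∀ y : Z.V, Sum.inl y ∈ (Sum.inl u :: .inr c :: .inl v :: t : List Z.N) →
      Sum.inl y ∈ (Sum.inl u :: .inl v :: t : List Z.N) := by
    intro y hy
    simpa using hy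
  have huv : u ≠ v := by
    rintro rfl
    simp at hn
  have key : ∀ y, NonCons (Sum.inl u :: .inr c :: .inl v :: t : List Z.N) (.inr c) (.inl y) →
      Z.M y c → xclosecO ι j (.inl u :: .inl v :: t) := by
    intro y hy hyc
    refine Or.inr (Or.inr (Or.inl ⟨c, u, v, y, huv, ?_, ?_, by simp, by simp, hm y hy.mem.2,
      hu, hv, hyc⟩))
    · rintro rfl
      exact hy.not_step hn (by rw [steps_three]; simp)
    · rintro rfl
      exact hy.symm.not_step hn (by rw [steps_three]; simp)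
  have key' : ∀ y, NonCons (Sum.inl u :: .inr c :: .inl v :: t : List Z.N) (.inr c) y →
      GW j (.inr c) y → xclosecO ι j (.inl u :: .inl v :: t) := by
    intro y hy hg
    obtain ⟨d, h1, h2⟩ := xclosec_gw_wp hg
    obtain rfl : c = d := h1
    rcases y with y | c'
    · exact key y hy h2
    · obtain rfl : c' = c := h2
      exact absurd rfl (hy.ne hn)
  rcases h with ⟨a, h⟩ | ⟨x, y, h, h'⟩ | ⟨d, u', v', y, h1, h2, h3, h4, h5, h6, h7⟩ |
    ⟨d, y, h, h'⟩ | ⟨h, _⟩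
  · refine Or.inl ⟨a, fun x hx => h x ?_⟩
    rcases List.mem_cons.1 hx with rfl | hx
    · simp
    · exact List.mem_cons_of_mem _ (List.mem_cons_of_mem _ hx)
  · by_cases hx : x = .inr c
    · subst hx
      exact key' y h h'
    by_cases hy : y = .inr c
    · subst hy
      exact key' x h.symm (xclosec_gw_symm h')
    rcases h.del hn hx hy with h2 | ⟨rfl, rfl⟩ | ⟨rfl, rfl⟩
    · exact Or.inr (Or.inl ⟨x, y, h2, h'⟩)
    · exact absurd (Or.inr h') hl
    · exact absurd (Or.inr (xclosec_gw_symm h')) hl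
  · exact Or.inr (Or.inr (Or.inl ⟨d, u', v', y, h1, h2, h3, hm _ h4, hm _ h5, hm _ h6, h7⟩))
  · by_cases hd : d = c
    · subst hd
      exact key y h h'
    rcases h.del hn (fun e => hd (Sum.inr.inj e)) (by simp) with h2 | ⟨h2, _⟩ | ⟨h2, _⟩
    · exact Or.inr (Or.inr (Or.inr (Or.inl ⟨d, y, h2, h'⟩)))
    · cases h2
    · cases h2
  · exfalso
    apply ht
    simpa using h

open Classical in
theorem xclosec_main (h : GAmal σ q ι j) (h2 : B2 q) (hac : AC q w w) (k : ℕ) :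
    ∀ l : List Z.N, (steps l).countP (fun p => ¬ Loc ι j p.1 p.2) = k →
      Cyc (Adj (prodSys ι φ)) w w l → xclosecO ι j l := by
  induction k using Nat.strong_induction_on with
  | _ k ih =>
  intro l hk hl
  by_cases hall : ∀ p ∈ steps l, Loc ι j p.1 p.2
  · rcases h.loc_all h2 hac ⟨hl.nodup, hl.three, hl.len, hl.wle, hall⟩ with h1 | h1 | ⟨d, h1⟩
    · exact Or.inl h1
    · exact Or.inr (Or.inl h1)
    · by_cases h3 : l.length = 3
      · refine Or.inr (Or.inr (Or.inr (Or.inr ⟨h3, j.c d, fun x hx => ?_⟩)))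
        obtain ⟨x', rfl, hx'⟩ := h1 x hx
        exact j.wb hx'
      · obtain ⟨x, y, hxy⟩ := exists_nonCons (l := l) (by have := hl.three; omega)
        obtain ⟨x', hx, hx'⟩ := h1 x hxy.mem.1
        obtain ⟨y', hy, hy'⟩ := h1 y hxy.mem.2
        exact Or.inr (Or.inl ⟨x, y, hxy, x', y', hx, hy, d, hx', hy'⟩)
  push Not at hall
  obtain ⟨⟨x, y⟩, hp, hnl⟩ := hall
  have h2l : 2 ≤ l.length := by have := hl.three; omega
  obtain ⟨u, v, c, rfl, rfl, hu, hv⟩ :=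
    xclosec_nonloc h (step_ne hl.nodup h2l hp) (hl.step _ hp) hnl
  obtain ⟨t, hr⟩ := step_rot h2l hp
  refine xclosec_rot ?_ hr.symm
  rw [(steps_perm hr).countP_eq] at hk
  have hl' := hl.rot hr
  have huv : (Sum.inl u : Z.N) ≠ .inl v := step_ne hl.nodup h2l hp
  by_cases hc : (Sum.inr c : Z.N) ∈ (Sum.inl u :: .inl v :: t : List Z.N)
  · by_cases h3 : (Sum.inl u :: .inl v :: t : List Z.N).length = 3
    · refine Or.inr (Or.inr (Or.inr (Or.inr ⟨h3, c, fun x hx => ?_⟩)))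
      rcases mem_three h3 (x := .inl u) (y := .inl v) (by simp) (by simp) hc huv (by simp)
        (by simp) x hx with rfl | rfl | rfl
      · exact hu
      · exact hv
      · rfl
    · rcases nonCons_of_step hl'.nodup (by have := hl'.three; omega) (u := .inl u) (v := .inl v)
        (by rw [steps_two]; simp) hc (by simp) (by simp) with h1 | h1
      · exact Or.inr (Or.inr (Or.inr (Or.inl ⟨c, u, h1, hu⟩)))
      · exact Or.inr (Or.inr (Or.inr (Or.inl ⟨c, v, h1, hv⟩)))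
  have hn : (Sum.inl u :: .inr c :: .inl v :: t : List Z.N).Nodup :=
    (List.Perm.swap _ _ _).nodup_iff.1 (List.nodup_cons.2 ⟨hc, hl'.nodup⟩)
  have hw : wsum (Sum.inl u :: .inr c :: .inl v :: t : List Z.N) ≤ w := by
    rw [wsum_ins]; exact hl'.wle
  have ht : t ≠ [] := by
    rintro rfl
    have := hl'.three
    simp at this
  have l1 : Loc ι j (.inl u) (.inr c) := xclosec_loc_inc h hu
  have l2 : Loc ι j (.inr c) (.inl v) := xclosec_loc_symm (xclosec_loc_inc h hv)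
  refine xclosec_back hu hv hnl hn ht (ih _ ?_ _ rfl
    ⟨hn, by simp, (length_le_wsum _).trans hw, hw, fun p hp => ?_⟩)
  · rw [← hk, steps_three, steps_two, List.countP_cons, List.countP_cons, List.countP_cons]
    simp only [l1, l2, hnl, not_true_eq_false, not_false_eq_true, decide_false, decide_true]
    simp
  · rw [steps_three] at hp
    rcases List.mem_cons.1 hp with rfl | hp
    · exact Or.inr ⟨c, hu, rfl⟩
    rcases List.mem_cons.1 hp with rfl | hp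
    · exact Or.inr ⟨c, rfl, hv⟩
    · exact hl'.step p (by rw [steps_two]; exact List.mem_cons_of_mem _ hp)

theorem GAmal.ac (h : GAmal σ q ι j) (hq : Basic q) (hac : AC q w w) (hw : 4 ≤ w)
    (hφ : Basic φ) (hφa : AC φ w w) : AC (prodSys ι φ) w w := by
  intro l hl
  rcases xclosec_main h hq.b2 hac _ l rfl hl with ⟨a, ha⟩ | ⟨x, y, h1, h2⟩ |
    ⟨d, u, v, y, h1, h2, h3, h4, h5, h6, h7, h8, h9⟩ | ⟨d, y, h1, h2⟩ | ⟨_, h1⟩
  · exact h.sub hq.b2 (h.k1 hq) (h.k3 hq (hac.mono hw hw) hφ.b3) hφa hl ha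
  · exact Or.inl ⟨x, y, h1, Or.inr (xclosec_gw_wp h2)⟩
  · have e1 : (Sum.inl u : Z.N) ≠ .inl v := fun e => h1 (Sum.inl.inj e)
    have e2 : (Sum.inl v : Z.N) ≠ .inl y := fun e => h2 (Sum.inl.inj e)
    have e3 : (Sum.inl u : Z.N) ≠ .inl y := fun e => h3 (Sum.inl.inj e)
    by_cases hl3 : l.length = 3
    · refine Or.inr (Or.inr ⟨d, fun x hx => ?_⟩)
      rcases mem_three hl3 h4 h5 h6 e1 e2 e3 x hx with rfl | rfl | rfl
      · exact h7
      · exact h8
      · exact h9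
    · rcases nonCons_three hl.nodup (by have := hl.three; omega) h4 h5 h6 e1 e2 e3 with
        hn | hn | hn
      · exact Or.inl ⟨_, _, hn, Or.inr ⟨d, h7, h8⟩⟩
      · exact Or.inl ⟨_, _, hn, Or.inr ⟨d, h8, h9⟩⟩
      · exact Or.inl ⟨_, _, hn, Or.inr ⟨d, h7, h9⟩⟩
  · exact Or.inl ⟨_, _, h1, Or.inr ⟨d, rfl, h2⟩⟩
  · exact Or.inr (Or.inr h1)

theorem xclosec_amal {q : Q → GHom X G} (j : GHom G Z) (hj : ∀ z, j.Bag z) (hi : j.Ind) :
    GAmal (GHom.id X) q (fun a => j.comp (q a)) j := by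
  have hid : ∀ x : X.N, (GHom.id X).n x = x := fun x => by cases x <;> rfl
  refine ⟨fun a x => by rw [hid, GHom.n_comp], fun z => Or.inl (hj z),
    fun _ x _ _ => ⟨x, hid x⟩, fun _ _ x _ _ => Or.inr ⟨x, hid x⟩, fun v c hm => Or.inl ?_⟩
  obtain ⟨v', rfl⟩ := (j.bag_inl v).1 (hj _)
  obtain ⟨c', rfl⟩ := (j.bag_inr c).1 (hj _)
  exact ⟨v', c', rfl, rfl, hi _ _ hm⟩

/-- composition of good systems -/
theorem comp_good {q : Q → GHom X G} (j : GHom G Z) (hj : ∀ z, j.Bag z) (hi : j.Ind)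
    (hq : Basic q) (hac : AC q w w) (hw : 4 ≤ w) (hφ : Basic φ) (hφa : AC φ w w) :
    Basic (prodSys (fun a => j.comp (q a)) φ) ∧ AC (prodSys (fun a => j.comp (q a)) φ) w w :=
  ⟨(xclosec_amal j hj hi).basic hq (hac.mono hw hw) hφ,
    (xclosec_amal j hj hi).ac hq hac hw hφ hφa⟩

end Pool.Agent.MP_1c0fc2_co.GR

end

section

open Function

namespace Pool.Agent.MP_1c0fc2_co.GR

variable {F S X G Z : Geo} {P Q : Type} {σ : GHom S X} {q : Q → GHom S G} {ι : Q → GHom X Z}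
  {j : GHom G Z} {φ : P → GHom F X} {w n : ℕ}

theorem xclose0_bag {a : Q} {r : P} {x : Z.N} (hx : (prodSys ι φ (a, r)).Bag x) :
    ∃ y, (φ r).Bag y ∧ (ι a).n y = x :=
  (GHom.bag_comp (ι a) (φ r) x).1 hx

theorem GAmal.b2_zero (h : GAmal σ q ι j) (h0 : Lev0 σ φ) (h2 : B2 φ) : B2 (prodSys ι φ) := by
  rintro ⟨a, r⟩ ⟨b, r'⟩ x y hp hxy hx hy hx' hy'
  obtain ⟨x0, hx0, rfl⟩ := xclose0_bag hx
  obtain ⟨y0, hy0, rfl⟩ := xclose0_bag hy
  obtain ⟨x1, hx1, ex⟩ := xclose0_bag hx'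
  obtain ⟨y1, hy1, ey⟩ := xclose0_bag hy'
  have hne : x0 ≠ y0 := fun e => hxy (by rw [e])
  by_cases hab : a = b
  · subst hab
    obtain rfl := (ι a).n_inj ex
    obtain rfl := (ι a).n_inj ey
    exact (ι a).wp (h2 r r' x1 y1 (fun e => hp (by rw [e])) hne hx0 hy0 hx1 hy1)
  · obtain ⟨x', hx', -⟩ := h.two hab ⟨x0, rfl⟩ ⟨x1, ex⟩
    obtain ⟨y', hy', -⟩ := h.two hab ⟨y0, rfl⟩ ⟨y1, ey⟩
    exact (ι a).wp (h0.meet r x0 y0 hne hx0 hy0 (h.shared a x0 x' hx'.symm)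
      (h.shared a y0 y' hy'.symm))

theorem xclose0_cv (h : GAmal σ q ι j) (a : Q) (u : S.V) :
    (ι a).v (σ.v u) = j.v ((q a).v u) :=
  Sum.inl.inj (h.comm a (.inl u))

theorem xclose0_cc (h : GAmal σ q ι j) (a : Q) (d : S.C) :
    (ι a).c (σ.c d) = j.c ((q a).c d) :=
  Sum.inr.inj (h.comm a (.inr d))

theorem xclose0_sh (h : GAmal σ q ι j) (a : Q) {x : X.N} (hx : σ.Bag x) :
    j.Bag ((ι a).n x) := by
  obtain ⟨u, rfl⟩ := hx
  exact ⟨_, (h.comm a u).symm⟩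

theorem xclose0_full (h : GAmal σ q ι j) (h0 : Lev0 σ φ) {v : Z.V} {c : G.C}
    (hm : Z.M v (j.c c)) : ∃ v', j.v v' = v ∧ G.M v' c := by
  rcases h.inc v _ hm with ⟨v', c', e1, e2, hm'⟩ | ⟨a, v', c', e1, e2, hm'⟩
  · obtain rfl := j.c_inj e2
    exact ⟨v', e1, hm'⟩
  · obtain ⟨d, rfl⟩ := (σ.bag_inr c').1 (h.shared a (.inr c') (.inr c) (congrArg Sum.inr e2))
    obtain ⟨u, rfl⟩ := h0.full v' d hm'
    rw [xclose0_cc h] at e2
    obtain rfl := j.c_inj e2
    exact ⟨(q a).v u, (xclose0_cv h a u).symm.trans e1, (q a).map _ _ (h0.ind u d hm')⟩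

theorem xclose0_wb (h : GAmal σ q ι j) (h0 : Lev0 σ φ) {x : Z.N} {c : G.C}
    (hm : Z.WB (j.c c) x) : ∃ x', j.n x' = x ∧ G.WB c x' := by
  rcases x with v | d
  · obtain ⟨v', e, hm'⟩ := xclose0_full h h0 (show Z.M v (j.c c) from hm)
    exact ⟨.inl v', congrArg Sum.inl e, hm'⟩
  · exact ⟨.inr c, congrArg Sum.inr (show d = j.c c from hm).symm, rfl⟩

theorem xclose0_un (h : GAmal σ q ι j) {a : Q} {c : X.C} (hc : ¬ j.Bag (.inr ((ι a).c c)))
    {x : Z.N} (hm : Z.WB ((ι a).c c) x) : ∃ x', (ι a).n x' = x ∧ X.WB c x' := by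
  rcases x with v | d
  · rcases h.inc v _ (show Z.M v ((ι a).c c) from hm) with
      ⟨v', c', e1, e2, hm'⟩ | ⟨b, v', c', e1, e2, hm'⟩
    · exact absurd ⟨.inr c', congrArg Sum.inr e2⟩ hc
    · rcases h.sep a b (.inr c) (.inr c') (congrArg Sum.inr e2.symm) with rfl | hs
      · obtain rfl := (ι a).c_inj e2
        exact ⟨.inl v', congrArg Sum.inl e1, hm'⟩
      · exact absurd (xclose0_sh h a hs) hc
  · exact ⟨.inr c, congrArg Sum.inr (show d = (ι a).c c from hm).symm, rfl⟩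

theorem xclose0_cases (h : GAmal σ q ι j) (d : Z.C) :
    (∃ c, j.c c = d) ∨ ∃ a c, (ι a).c c = d ∧ ¬ j.Bag (.inr d) := by
  by_cases hd : j.Bag (.inr d)
  · exact .inl ((j.bag_inr d).1 hd)
  · rcases h.cover (.inr d) with h' | ⟨a, h'⟩
    · exact absurd h' hd
    · obtain ⟨c, e⟩ := ((ι a).bag_inr d).1 h'
      exact .inr ⟨a, c, e, hd⟩

theorem xclose0_str (h : GAmal σ q ι j) (h0 : Lev0 σ φ) (hq : Basic q) (a : Q) :
    (ι a).Str := by
  intro x y d hxy hx hy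
  rcases xclose0_cases h d with ⟨c, rfl⟩ | ⟨b, c, rfl, hd⟩
  · obtain ⟨x', ex, hx'⟩ := xclose0_full h h0 hx
    obtain ⟨y', ey, hy'⟩ := xclose0_full h h0 hy
    obtain ⟨u, rfl⟩ := ((q a).bag_inl x').1
      ((h.bag_iff a (.inl x')).1 ⟨.inl x, congrArg Sum.inl ex.symm⟩)
    obtain ⟨u', rfl⟩ := ((q a).bag_inl y').1
      ((h.bag_iff a (.inl y')).1 ⟨.inl y, congrArg Sum.inl ey.symm⟩)
    have hne : u ≠ u' := by
      rintro rfl
      exact hxy ((ι a).v_inj (ex.symm.trans ey))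
    obtain ⟨c0, rfl⟩ := hq.str a u u' c hne hx' hy'
    exact ⟨σ.c c0, xclose0_cc h a c0⟩
  · by_cases hab : b = a
    · subst hab
      exact ⟨c, rfl⟩
    · exfalso
      obtain ⟨x', ex, hx'⟩ := xclose0_un h hd (x := .inl ((ι a).v x)) hx
      obtain ⟨y', ey, hy'⟩ := xclose0_un h hd (x := .inl ((ι a).v y)) hy
      have sx := (h.sep b a x' (.inl x) ex).resolve_left hab
      have sy := (h.sep b a y' (.inl y) ey).resolve_left hab
      rcases x' with x' | x'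
      swap
      · exact Sum.inr_ne_inl ex
      rcases y' with y' | y'
      swap
      · exact Sum.inr_ne_inl ey
      obtain ⟨u, rfl⟩ := (σ.bag_inl x').1 sx
      obtain ⟨u', rfl⟩ := (σ.bag_inl y').1 sy
      have hne : u ≠ u' := by
        rintro rfl
        exact hxy ((ι a).v_inj (Sum.inl.inj (ex.symm.trans ey)))
      obtain ⟨c0, rfl⟩ := h0.str u u' c hne hx' hy'
      exact hd (xclose0_sh h b (x := .inr (σ.c c0)) ⟨.inr c0, rfl⟩)

theorem xclose0_loc (h : GAmal σ q ι j) (h0 : Lev0 σ φ) {x y : Z.N}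
    (hxy : Adj (prodSys ι φ) x y) : Loc ι j x y := by
  rcases hxy with ⟨⟨a, r⟩, hx, hy⟩ | ⟨d, hx, hy⟩
  · obtain ⟨x0, -, ex⟩ := xclose0_bag hx
    obtain ⟨y0, -, ey⟩ := xclose0_bag hy
    exact .inl ⟨a, ⟨x0, ex⟩, ⟨y0, ey⟩⟩
  · rcases xclose0_cases h d with ⟨c, rfl⟩ | ⟨b, c, rfl, hd⟩
    · obtain ⟨x', ex, hx'⟩ := xclose0_wb h h0 hx
      obtain ⟨y', ey, hy'⟩ := xclose0_wb h h0 hy
      exact .inr ⟨x', y', ex, ey, c, hx', hy'⟩
    · obtain ⟨x', ex, -⟩ := xclose0_un h hd hx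
      obtain ⟨y', ey, -⟩ := xclose0_un h hd hy
      exact .inl ⟨b, ⟨x', ex⟩, ⟨y', ey⟩⟩

theorem xclose0_tr (h : GAmal σ q ι j) (h0 : Lev0 σ φ) {a : Q} {x0 y0 : X.N} {x y : G.N}
    (hxy : x ≠ y) (ex : (ι a).n x0 = j.n x) (ey : (ι a).n y0 = j.n y)
    (hw : σ.Bag x0 → σ.Bag y0 → X.WP x0 y0) : G.WP x y := by
  have sx := h.shared a x0 x ex
  have sy := h.shared a y0 y ey
  have hw' := hw sx sy
  obtain ⟨x1, rfl⟩ := sx
  obtain ⟨y1, rfl⟩ := sy
  rw [h.comm] at ex ey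
  obtain rfl := j.n_inj ex
  obtain rfl := j.n_inj ey
  exact (q a).wp (GHom.wp_pull h0.ind h0.str (fun e => hxy (by rw [e])) hw')

theorem xclose0_gw (h : GAmal σ q ι j) (h0 : Lev0 σ φ) {x y : G.N} (hne : x ≠ y)
    (hxy : Adj (prodSys ι φ) (j.n x) (j.n y)) : G.WP x y := by
  rcases hxy with ⟨⟨a, r⟩, hx, hy⟩ | ⟨d, hx, hy⟩
  · obtain ⟨x0, bx, ex⟩ := xclose0_bag hx
    obtain ⟨y0, bY, ey⟩ := xclose0_bag hy
    refine xclose0_tr h h0 hne ex ey (h0.meet r x0 y0 ?_ bx bY)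
    rintro rfl
    exact hne (j.n_inj (ex.symm.trans ey))
  · rcases xclose0_cases h d with ⟨c, rfl⟩ | ⟨b, c, rfl, hd⟩
    · obtain ⟨x', ex, hx'⟩ := xclose0_wb h h0 hx
      obtain ⟨y', ey, hy'⟩ := xclose0_wb h h0 hy
      obtain rfl := j.n_inj ex
      obtain rfl := j.n_inj ey
      exact ⟨c, hx', hy'⟩
    · obtain ⟨x', ex, hx'⟩ := xclose0_un h hd hx
      obtain ⟨y', ey, hy'⟩ := xclose0_un h hd hy
      exact xclose0_tr h h0 hne ex ey fun _ _ => ⟨c, hx', hy'⟩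

theorem xclose0_lift {α β : Type} (f : α → β) (l : List β) (hl : ∀ x ∈ l, ∃ y, f y = x) :
    ∃ l0 : List α, l0.map f = l := by
  induction l with
  | nil => exact ⟨[], rfl⟩
  | cons x t ih =>
    obtain ⟨y, rfl⟩ := hl x List.mem_cons_self
    obtain ⟨l0, rfl⟩ := ih fun z hz => hl z (List.mem_cons_of_mem _ hz)
    exact ⟨y :: l0, rfl⟩

theorem GAmal.ac_zero (h : GAmal σ q ι j) (h0 : Lev0 σ φ) (hq : Basic q) (hac : AC q w n)
    (hφ : AC φ w (n + 1)) (hg : 2 * (n + 1) ≤ w → G.Gir (n + 1)) :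
    AC (prodSys ι φ) w (n + 1) := by
  intro l hl
  have hl' : Cyc (Loc ι j) w (n + 1) l := hl.imp fun x _ y _ _ hxy => xclose0_loc h h0 hxy
  have hout := h.out hq.b2 (h.k1 hq) (xclose0_str h h0 hq) hφ hl
  by_cases hz : ∃ z ∈ l, ¬ j.Bag z
  · exact hout (h.loc_step hq.b2 hl' hz fun l' _ hc => h.loc_all hq.b2 hac hc)
  by_cases hlen : l.length ≤ n
  · exact hout (h.loc_all hq.b2 hac ⟨hl'.nodup, hl'.three, hlen, hl'.wle, hl'.step⟩)
  obtain ⟨l0, rfl⟩ := xclose0_lift j.n l fun x hx => by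
    by_contra hc
    exact hz ⟨x, hx, hc⟩
  have h1 : Cyc G.WP w (n + 1) l0 :=
    Cyc.of_map (f := j.v) (g := j.c) hl fun x _ y _ hne hxy => xclose0_gw h h0 hne hxy
  have hin : ∀ d : G.C, (∀ x ∈ l0, G.WB d x) → InBag (prodSys ι φ) (l0.map j.n) := by
    intro d hd
    refine .inr ⟨j.c d, fun x hx => ?_⟩
    obtain ⟨y, hy, rfl⟩ := List.mem_map.1 hx
    exact j.wb (hd y hy)
  by_cases hc : ∃ c, Sum.inr c ∈ l0
  · obtain ⟨c, hc⟩ := hc
    obtain ⟨x, y, t, hr⟩ := mid_rot h1.three hc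
    have h2 := (h1.rot hr).step
    rw [steps_three] at h2
    obtain ⟨d, hx, hd⟩ := h2 (x, .inr c) (by simp)
    obtain ⟨d', hd', hy⟩ := h2 (.inr c, y) (by simp)
    obtain rfl : c = d := hd
    obtain rfl : c = d' := hd'
    by_cases ht : t = []
    · subst ht
      refine .inr (hin c fun z hz => ?_)
      have := hr.mem_iff.1 hz
      simp only [List.mem_cons, List.not_mem_nil, or_false] at this
      rcases this with rfl | rfl | rfl
      · exact hx
      · exact rfl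
      · exact hy
    · exact .inl ⟨j.n x, j.n y, ((nonCons_ends ht x _ y).rot hr.symm).map j.n,
        .inr (j.wp ⟨c, hx, hy⟩)⟩
  · obtain ⟨l1, rfl⟩ := xclose0_lift (Sum.inl : G.V → G.N) l0 fun x hx => by
      rcases x with v | c
      · exact ⟨v, rfl⟩
      · exact absurd ⟨c, hx⟩ hc
    have e1 := h1.len
    have e2 := h1.wle
    have e3 := h1.three
    rw [wsum_inl] at e2
    simp only [List.length_map] at e1 e3 hlen
    have hn : l1.Nodup := h1.nodup.of_map _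
    obtain ⟨l', rfl, hs⟩ := exists_label hn G.M fun p hp => h1.step (.inl p.1, .inl p.2) (by
      rw [steps_map]
      exact List.mem_map.2 ⟨p, hp, rfl⟩)
    simp only [List.length_map] at e1 e2 e3 hlen
    have hall := hg (by omega) l' ⟨hn, hs⟩ (by omega) e1
    obtain ⟨a0, ha0⟩ := List.exists_mem_of_length_pos (show 0 < l'.length by omega)
    refine .inr (hin a0.2 fun x hx => ?_)
    obtain ⟨v, hv, rfl⟩ := List.mem_map.1 hx
    obtain ⟨a, ha, rfl⟩ := List.mem_map.1 hv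
    obtain ⟨b, hb⟩ := exists_step_fst ha
    rw [hall a0 ha0 a ha]
    exact (hs _ hb).1

end Pool.Agent.MP_1c0fc2_co.GR

end

section

open Function

namespace Pool.Agent.MP_1c0fc2_co.GR

variable {K I : Type} [Finite K] {cl : K → I}

omit [Finite K] in
/-- local girth can be moved along an embedding that covers the relevant edges -/
theorem lg_gir {F H : HG cl} (φ : Emb F H) {O : F.E → Prop} {O' : H.E → Prop}
    {r r' : Setoid F.E} {t t' : Setoid H.E} {z : F.E} {z' : H.E} {g : ℕ}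
    (hcov : ∀ x, O' x → t' x z' → ∃ f, φ.e f = x ∧ O f ∧ r' f z)
    (hr : ∀ f f', O f → O f' → r f f' → t (φ.e f) (φ.e f'))
    (hr' : ∀ f f', O f → O f' → t (φ.e f) (φ.e f') → r f f')
    (h : (lg F O r r' z).Gir g) : (lg H O' t t' z').Gir g := by
  intro l hl h2 hg a₀ ha₀
  have h1 : ∀ a ∈ l, ∃ p : F.V × F.E, φ.v p.1 = a.1 ∧ Quotient.mk t (φ.e p.2) = a.2 ∧ O p.2 ∧
      r' p.2 z ∧ F.On p.1 p.2 := by
    intro a ha
    obtain ⟨x, e1, e2, e3, k, e4⟩ := hl.self ha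
    obtain ⟨f, rfl, e5, e6⟩ := hcov x e2 e3
    exact ⟨(F.inc f k, f), (φ.inc_e f k).symm.trans e4, e1, e5, e6, k, rfl⟩
  have : Nonempty (F.V × F.E) := ⟨(h1 a₀ ha₀).choose⟩
  choose! c c1 c2 c3 c4 c5 using h1
  let m : H.V × Quotient t → F.V × Quotient r := fun a => ((c a).1, Quotient.mk r (c a).2)
  have hw : (lg F O r r' z).WCyc (List.map m l) := by
    refine ⟨List.Nodup.of_map φ.v ?_, fun p' hp' => ?_⟩
    · have e : List.map φ.v (List.map Prod.fst (List.map m l)) = List.map Prod.fst l := by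
        rw [List.map_map, List.map_map]
        exact List.map_congr_left c1
      exact e ▸ hl.1
    · have hp'' : p' ∈ (steps l).map (Prod.map m m) := steps_map m l ▸ hp'
      obtain ⟨p, hp, rfl⟩ := List.mem_map.1 hp''
      obtain ⟨m1, m2⟩ := mem_of_mem_steps hp
      refine ⟨⟨(c p.1).2, rfl, c3 _ m1, c4 _ m1, c5 _ m1⟩, ?_⟩
      obtain ⟨x, e1, e2, e3, e4⟩ := (hl.2 p hp).2
      obtain ⟨f, rfl, e5, e6⟩ := hcov x e2 e3
      refine ⟨f, Quotient.sound (hr' _ _ e5 (c3 _ m1)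
        (Quotient.exact (e1.trans (c2 _ m1).symm))), e5, e6, φ.on.1 ?_⟩
      exact (c1 _ m2).symm ▸ e4
  intro b hb
  have h3 := h _ hw (h2.trans (List.length_map m).ge) ((List.length_map m).le.trans hg) _
    (List.mem_map_of_mem ha₀) _
    (List.mem_map_of_mem hb)
  exact (c2 _ ha₀).symm.trans ((Quotient.sound
    (hr _ _ (c3 _ ha₀) (c3 _ hb) (Quotient.exact h3))).trans (c2 _ hb))

/-- pairwise disjoint edges have a revision -/
theorem rev_of_disjoint (X : HG cl) (O : X.E → Prop)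
    (hO : ∀ f f' v, O f → O f' → X.On v f → X.On v f' → f = f') (s1 : Setoid X.E) (A0 : Set K)
    (g : ℕ) : Rev X O s1 A0 g := by
  refine ⟨Nat.card K + 1, fun j => if j < Nat.card K + 1 then ⊥ else s1,
    fun j => {k | (Finite.equivFin K k : ℕ) = j} ∩ A0, Nat.succ_pos _, ?_, ?_, ?_, ?_, ?_, ?_,
    ?_, ?_⟩
  · intro e e' _ _ h
    rw [if_pos (Nat.succ_pos _)] at h
    exact h
  · intro j hj e e' _ _ h
    rw [if_pos hj] at h
    obtain rfl : e = e' := h
    exact Setoid.refl' _ _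
  · intro e e' _ _
    rw [if_neg (lt_irrefl _)]
  · intro j _ k hk k' hk'
    exact (Finite.equivFin K).injective (Fin.ext (hk.1.trans hk'.1.symm))
  · exact fun j _ => Set.inter_subset_right
  · exact fun k hk => ⟨_, Nat.lt_succ_of_lt (Finite.equivFin K k).2, rfl, hk⟩
  · intro j _ e e' k he he' h hn _
    obtain rfl := hO e e' _ he he' ⟨k, rfl⟩ ⟨k, h.symm⟩
    exact absurd (Setoid.refl' _ _) hn
  · intro j _ z l hl _ _
    refine const_of_steps Prod.snd fun p hp => ?_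
    obtain ⟨x, e1, e2, -, e4⟩ := (hl.2 p hp).2
    obtain ⟨y, f1, f2, -, f4⟩ := hl.self (mem_of_mem_steps hp).2
    obtain rfl := hO x y _ e2 f2 e4 f4
    exact e1.symm.trans f1

theorem rev_zero {F H : HG cl} {R : Type} [Finite R] (h : R → Emb F H) (ε : H.E)
    (s1 : Setoid (F.mul R).E) (A0 : Set K) (g : ℕ) :
    Rev (F.mul R) (fun f => (pic0 (fun r => (h r).toHom)).ψ.e f = ε) s1 A0 g := by
  refine rev_of_disjoint _ _ ?_ s1 A0 g
  rintro ⟨a, f⟩ ⟨b, f'⟩ v h1 h2 ⟨k, e1⟩ ⟨k', e2⟩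
  obtain rfl : a = b := congrArg Prod.fst (e1.trans e2.symm)
  obtain rfl : f = f' := (h a).e_inj (h1.trans h2.symm)
  rfl

theorem Rev.con {X H : HG cl} {ψ : Hom X H} {e : H.E} {s1 : Setoid X.E} {A0 : Set K} {g : ℕ}
    (h : Rev X (fun f => ψ.e f = e) s1 A0 g) :
    Rev (Con ψ e) (fun _ => True) (conS ψ e s1) A0 g := by
  obtain ⟨M, r, B, h⟩ := h
  refine ⟨M, fun j => conS ψ e (r j), B, h.pos,
    fun x y _ _ hr => Subtype.ext (h.zero _ _ x.2 y.2 hr),
    fun j hj x y _ _ hr => h.mono j hj _ _ x.2 y.2 hr, fun x y _ _ => h.last _ _ x.2 y.2,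
    h.sing, h.sub, h.cov, fun j hj x y k _ _ hk => h.cond j hj _ _ k x.2 y.2
      (congrArg (fun p => p.1.2) hk), fun j hj z => ?_⟩
  refine (h.gir j hj z.1).pull ⟨(conEmb ψ e).v, Quotient.map Subtype.val fun _ _ hab => hab,
    (conEmb ψ e).v_inj, fun a b => ?_, ?_⟩
  · induction a using Quotient.inductionOn
    induction b using Quotient.inductionOn
    intro hab
    exact Quotient.sound (Quotient.exact hab :)
  · rintro x _ ⟨f, rfl, -, hf, k, rfl⟩
    exact ⟨f.1, rfl, f.2, hf, k, rfl⟩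

end Pool.Agent.MP_1c0fc2_co.GR

end

section

open Function

namespace Pool.Agent.MP_1c0fc2_co.GR

variable {K I : Type} [Finite K] {cl : K → I} {X H : HG cl} {ψ : Hom X H} {e : H.E}
  {G : HG (id : K → K)} {Q : Type} {q : Q → Emb (Con ψ e) G} {A : Amal ψ e q}
  {s : ℕ → Setoid X.E} {u : ℕ → Setoid G.E} {t : ℕ → Setoid A.Z.E} {m : ℕ}

theorem xrevb_cov (A : Amal ψ e q) {ε : H.E} (hε : ε ≠ e) {x : A.Z.E} (hx : A.ψ'.e x = ε) :
    ∃ a f, (A.ι a).e f = x ∧ ψ.e f = ε := by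
  rcases A.cover_e x with ⟨y, rfl⟩ | ⟨a, f, rfl⟩
  · exact absurd (hx.symm.trans (A.j_e y)) hε
  · exact ⟨a, f, rfl, (A.ι_e a f).symm.trans hx⟩

theorem xrevb_uniq (A : Amal ψ e q) {ε : H.E} (hε : ε ≠ e) {a b : Q} {f f' : X.E}
    (hf : ψ.e f = ε) (h : (A.ι a).e f = (A.ι b).e f') : a = b ∧ f = f' := by
  rcases A.sep_e a b f f' h with rfl | h'
  · exact ⟨rfl, (A.ι a).e_inj h⟩
  · exact absurd (hf.symm.trans h') hε

/-- the relation `r` inside every copy, on the edges over `ε` -/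
def xrevbS (A : Amal ψ e q) {ε : H.E} (hε : ε ≠ e) (r : Setoid X.E) : Setoid A.Z.E where
  r x x' := x = x' ∨ ∃ a f f', (A.ι a).e f = x ∧ (A.ι a).e f' = x' ∧ ψ.e f = ε ∧ ψ.e f' = ε ∧
    r f f'
  iseqv := by
    refine ⟨fun _ => Or.inl rfl, ?_, ?_⟩
    · rintro x x' (rfl | ⟨a, f, f', h1, h2, h3, h4, h5⟩)
      · exact Or.inl rfl
      · exact Or.inr ⟨a, f', f, h2, h1, h4, h3, r.symm h5⟩
    · rintro x y z (rfl | ⟨a, f, f', h1, h2, h3, h4, h5⟩) h
      · exact h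
      · rcases h with rfl | ⟨b, g, g', k1, k2, k3, k4, k5⟩
        · exact Or.inr ⟨a, f, f', h1, h2, h3, h4, h5⟩
        · obtain ⟨rfl, rfl⟩ := xrevb_uniq A hε h4 (h2.trans k1.symm)
          exact Or.inr ⟨a, f, g', h1, k2, h3, k4, r.trans h5 k5⟩

theorem xrevb_of (A : Amal ψ e q) {ε : H.E} (hε : ε ≠ e) {r : Setoid X.E} (a : Q) {f f' : X.E}
    (hf : ψ.e f = ε) (hf' : ψ.e f' = ε) (h : r f f') :
    xrevbS A hε r ((A.ι a).e f) ((A.ι a).e f') :=
  Or.inr ⟨a, f, f', rfl, rfl, hf, hf', h⟩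

theorem xrevb_to (A : Amal ψ e q) {ε : H.E} (hε : ε ≠ e) {r : Setoid X.E} {a : Q} {f : X.E}
    {x : A.Z.E} (hf : ψ.e f = ε) (h : xrevbS A hε r x ((A.ι a).e f)) :
    ∃ f', (A.ι a).e f' = x ∧ ψ.e f' = ε ∧ r f' f := by
  rcases h with rfl | ⟨b, g, g', k1, k2, k3, k4, k5⟩
  · exact ⟨f, rfl, hf, r.refl f⟩
  · obtain ⟨rfl, rfl⟩ := xrevb_uniq A hε hf k2.symm
    exact ⟨g, k1, k3, k5⟩

theorem xrevb_low (A : Amal ψ e q) {ε : H.E} (hε : ε ≠ e) {r r' : Setoid X.E} {g : ℕ}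
    (h : ∀ z, (lg X (fun f => ψ.e f = ε) r r' z).Gir g) (z : A.Z.E) :
    (lg A.Z (fun x => A.ψ'.e x = ε) (xrevbS A hε r) (xrevbS A hε r') z).Gir g := by
  by_cases hz : A.ψ'.e z = ε
  · obtain ⟨a, z0, rfl, hz0⟩ := xrevb_cov A hε hz
    refine lg_gir (A.ι a) (fun x _ hx => xrevb_to A hε hz0 hx)
      (fun f f' hf hf' hr => xrevb_of A hε a hf hf' hr) (fun f f' _ hf' hr => ?_) (h z0)
    obtain ⟨f1, h1, -, h3⟩ := xrevb_to A hε hf' hr
    rwa [(A.ι a).e_inj h1] at h3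
  · intro l hl _ _ a ha
    obtain ⟨x, -, hx, hxz, -⟩ := hl.self ha
    refine absurd ?_ hz
    rcases hxz with rfl | ⟨b, g, g', -, k2, -, k4, -⟩
    · exact hx
    · rw [← k2, A.ι_e, k4]

omit [Finite K] in
theorem xrevb_same (hH : H.Lin) {ε : H.E} (hε : ε ≠ e) {k k' : K} (hk : H.On (H.inc ε k) e)
    (hk' : H.On (H.inc ε k') e) : k = k' := by
  by_contra hne
  exact hε (hH ε e _ _ (fun h => hne (H.inc_inj ε h)) ⟨k, rfl⟩ ⟨k', rfl⟩ hk hk')

theorem xrevb_over (A : Amal ψ e q) {a b : Q} (hab : a ≠ b) {x y : X.V}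
    (h : (A.ι a).v x = (A.ι b).v y) : ∃ w, A.j.v w = (A.ι a).v x := by
  rcases A.sep_v a b x y h with h' | ⟨v, rfl⟩
  · exact absurd h' hab
  · exact ⟨_, (A.comm_v a v).symm⟩

theorem xrevb_bag (A : Amal ψ e q) {a : Q} {x : X.V} {w : G.V} (h : (A.ι a).v x = A.j.v w) :
    ∃ v, (q a).v v = w := by
  obtain ⟨v, rfl⟩ := A.shared_v a x w h
  exact ⟨v, A.j.v_inj ((A.comm_v a v).symm.trans h)⟩

theorem xrevb_top (h : TRel A s u t m) (hm : 1 ≤ m) {B : ℕ → Set I} (hZ : IsTrain A.Z t B m)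
    (hG : ∀ y y', u 0 y y' → y = y') (hH : H.Lin) {w n g : ℕ}
    (hq : GoodL q (conS ψ e (s 0)) (u 0) (Hi (fun μ => cl ⁻¹' B μ) m 0) w n) (hn : g ≤ n)
    (hw : 2 * g ≤ w) {ε : H.E} (hε : ε ≠ e) {r : Setoid X.E}
    (hr : ∀ f f', ψ.e f = ε → ψ.e f' = ε → s 1 f f' → r f f') (z : A.Z.E) :
    (lg A.Z (fun x => A.ψ'.e x = ε) (xrevbS A hε r) (t 1) z).Gir g := by
  classical
  obtain ⟨hc, hb, hac⟩ := hq
  refine gir_of_strict fun l hl l2 lg' hst => ?_
  let Pz : Quotient (xrevbS A hε r) → Q → Prop := fun c a =>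
    ∃ f, ψ.e f = ε ∧ Quotient.mk _ ((A.ι a).e f) = c ∧ t 1 ((A.ι a).e f) z
  have hP1 : ∀ c c' a, Pz c a → Pz c' a → c = c' := by
    rintro _ _ a ⟨f, hf, rfl, h1⟩ ⟨f', hf', rfl, h2⟩
    exact Quotient.sound (xrevb_of A hε a hf hf'
      (hr f f' hf hf' ((h.ι_c a 1 f f').1 ((t 1).trans h1 ((t 1).symm h2)))))
  have hM : ∀ v c, (lg A.Z (fun x => A.ψ'.e x = ε) (xrevbS A hε r) (t 1) z).M v c →
      ∃ a f k, ψ.e f = ε ∧ Quotient.mk _ ((A.ι a).e f) = c ∧ t 1 ((A.ι a).e f) z ∧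
        (A.ι a).v (X.inc f k) = v := by
    rintro v c ⟨x, h1, h2, h3, k, h4⟩
    obtain ⟨a, f, rfl, hf⟩ := xrevb_cov A hε h2
    exact ⟨a, f, k, hf, h1, h3, ((A.ι a).inc_e f k).symm.trans h4⟩
  have hM' : ∀ v c a, (lg A.Z (fun x => A.ψ'.e x = ε) (xrevbS A hε r) (t 1) z).M v c →
      Pz c a → ∃ x, (A.ι a).v x = v := by
    rintro v c a hv ⟨f', hf', h1, -⟩
    obtain ⟨b, f, k, hf, h2, -, h4⟩ := hM v c hv
    obtain ⟨f1, k1, k2, -⟩ := xrevb_to A hε hf' (Quotient.exact (h2.trans h1.symm))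
    obtain ⟨rfl, -⟩ := xrevb_uniq A hε k2 k1
    exact ⟨_, h4⟩
  have hex : ∀ p ∈ l, ∃ y : (hg G (u 0) (Hi (fun μ => cl ⁻¹' B μ) m 0)).V × Q,
      A.j.v y.1.1 = p.1 ∧ Pz p.2 y.2 ∧ H.On (H.inc e (G.vc y.1.1)) ε := by
    intro p hp
    obtain ⟨p', hp'⟩ := exists_step_snd hp
    obtain ⟨a, f, k, hf, h1, h2, h3⟩ := hM _ _ (hl.self hp)
    obtain ⟨b, f', k', hf', h1', h2', h3'⟩ := hM _ _ (hl.2 _ hp').2
    have hne : p'.2 ≠ p.2 := hst _ hp'
    have hab : a ≠ b := by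
      rintro rfl
      exact hne (hP1 _ _ a ⟨f', hf', h1', h2'⟩ ⟨f, hf, h1, h2⟩)
    obtain ⟨y, hy⟩ := xrevb_over A hab (h3.trans h3'.symm)
    have hcl : A.Z.vc p.1 ∈ B 0 := by
      refine hZ.cond 0 ((A.ι a).e f) ((A.ι b).e f') p.1 ⟨k, ((A.ι a).inc_e f k).trans h3⟩
        ⟨k', ((A.ι b).inc_e f' k').trans h3'⟩ (fun h0 => ?_) ((t 1).trans h2 ((t 1).symm h2'))
      exact hab (xrevb_uniq A hε hf (hZ.zero _ _ h0)).1
    have hy' : cl (G.vc y) ∈ B 0 := by
      have : A.Z.vc (A.j.v y) = cl (G.vc y) := A.j.vc_v y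
      rwa [← this, hy, h3]
    refine ⟨(⟨y, 0, le_rfl, hm, hy'⟩, a), hy.trans h3, ⟨f, hf, h1, h2⟩, k, ?_⟩
    rw [← hf, ψ.inc_e, ← A.ι_v a, ← hy]
    exact A.j_v y
  have hl0 : ∃ p, p ∈ l := by
    cases l with
    | nil => simp at l2
    | cons p _ => exact ⟨p, List.mem_cons_self⟩
  obtain ⟨p0, hp0⟩ := hl0
  have : Nonempty ((hg G (u 0) (Hi (fun μ => cl ⁻¹' B μ) m 0)).V × Q) := ⟨(hex p0 hp0).choose⟩
  choose! F hF1 hF2 hF3 using hex
  have hbag : ∀ p ∈ l, ∀ p' ∈ l,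
      (lg A.Z (fun x => A.ψ'.e x = ε) (xrevbS A hε r) (t 1) z).M p'.1 p.2 →
      ((q (F p).2).hg (hc _) (Hi (fun μ => cl ⁻¹' B μ) m 0)).Bag (.inl (F p').1) := by
    intro p hp p' hp' hpp
    obtain ⟨x, hx⟩ := hM' _ _ _ hpp (hF2 p hp)
    obtain ⟨v, hv⟩ := xrevb_bag A (hx.trans (hF1 p' hp').symm)
    refine (GHom.bag_inl _ _).2 ⟨⟨v, ?_⟩, Subtype.ext hv⟩
    rw [← (q (F p).2).vc_v v, hv]
    exact (F p').1.2
  have key := qc hb.b2 hac (l.map F) ?_ ?_ ?_ (by simpa using l2) (by simpa using lg'.trans hn)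
    (by rw [List.length_map]; omega)
  · obtain ⟨p1, hp1⟩ := exists_step_fst hp0
    have hm1 := (mem_of_mem_steps hp1).2
    have e1 := key _ (List.mem_map_of_mem hp0) _ (List.mem_map_of_mem hm1)
    exact hst _ hp1 (hP1 _ _ _ (hF2 p0 hp0) (e1 ▸ hF2 p1 hm1))
  · refine List.Nodup.of_map (fun y => A.j.v y.1) ?_
    rw [List.map_map, List.map_map]
    have := hl.1
    rwa [← List.map_congr_left (f := _) (g := Prod.fst) hF1] at this
  · intro p hp
    rw [steps_map] at hp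
    obtain ⟨p', hp', rfl⟩ := List.mem_map.1 hp
    obtain ⟨m1, m2⟩ := mem_of_mem_steps hp'
    exact ⟨hbag _ m1 _ m1 (hl.2 _ hp').1, hbag _ m1 _ m2 (hl.2 _ hp').2⟩
  · intro a ha b hb' hab
    obtain ⟨p, hp, rfl⟩ := List.mem_map.1 ha
    obtain ⟨p', hp', rfl⟩ := List.mem_map.1 hb'
    rintro ⟨d, ⟨y, h1, k, hk⟩, y', h1', k', hk'⟩
    obtain rfl := hG y y' (Quotient.exact (h1.trans h1'.symm))
    have e1 : G.vc (F p).1.1 = k := by rw [← hk]; exact G.vc_inc y k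
    have e2 : G.vc (F p').1.1 = k' := by rw [← hk']; exact G.vc_inc y k'
    have e3 := xrevb_same hH hε.symm (hF3 p hp) (hF3 p' hp')
    refine hab (Subtype.ext ?_)
    rw [← hk, ← hk', ← e1, ← e2, e3]

theorem rev_step (h : TRel A s u t m) (hm : 1 ≤ m) {B : ℕ → Set I} (hZ : IsTrain A.Z t B m)
    (hG : ∀ y y', u 0 y y' → y = y') (hH : H.Lin) {w n g : ℕ}
    (hq : GoodL q (conS ψ e (s 0)) (u 0) (Hi (fun μ => cl ⁻¹' B μ) m 0) w n) (hn : g ≤ n)
    (hw : 2 * g ≤ w) {ε : H.E} (hε : ε ≠ e)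
    (hr : Rev X (fun f => ψ.e f = ε) (s 1) (cl ⁻¹' B 0) g) :
    Rev A.Z (fun x => A.ψ'.e x = ε) (t 1) (cl ⁻¹' B 0) g := by
  obtain ⟨M, r, B0, hr⟩ := hr
  obtain ⟨r', h1, h2⟩ : ∃ r' : ℕ → Setoid A.Z.E, (∀ j, j ≤ M → r' j = xrevbS A hε (r j)) ∧
      r' (M + 1) = t 1 :=
    ⟨fun j => if j ≤ M then xrevbS A hε (r j) else t 1, fun j hj => if_pos hj,
      if_neg (by omega)⟩
  obtain ⟨B', h3, h4⟩ : ∃ B' : ℕ → Set K, (∀ j, j < M → B' j = B0 j) ∧
      B' M = {k | cl k ∈ B 0 ∧ H.On (H.inc ε k) e} :=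
    ⟨fun j => if j < M then B0 j else {k | cl k ∈ B 0 ∧ H.On (H.inc ε k) e},
      fun j hj => if_pos hj, if_neg (by omega)⟩
  refine ⟨M + 1, r', B', by omega, ?_, ?_, ?_, ?_, ?_, ?_, ?_, ?_⟩
  · rw [h1 0 (by omega)]
    rintro x x' - - (h0 | ⟨a, f, f', rfl, rfl, k3, k4, k5⟩)
    · exact h0
    · rw [hr.zero f f' k3 k4 k5]
  · intro j hj x x' _ _
    rw [h1 j (by omega)]
    rcases Nat.lt_succ_iff_lt_or_eq.1 hj with hj | rfl
    · rw [h1 (j + 1) hj]
      rintro (h0 | ⟨a, f, f', rfl, rfl, k3, k4, k5⟩)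
      · exact Or.inl h0
      · exact xrevb_of A hε a k3 k4 (hr.mono j hj f f' k3 k4 k5)
    · rw [h2]
      rintro (rfl | ⟨a, f, f', rfl, rfl, k3, k4, k5⟩)
      · exact (t 1).refl _
      · exact (h.ι_c a 1 f f').2 ((hr.last f f' k3 k4).1 k5)
  · intro x x' _ _
    rw [h2]
  · intro j hj
    rcases Nat.lt_succ_iff_lt_or_eq.1 hj with hj | rfl
    · rw [h3 j hj]
      exact hr.sing j hj
    · rw [h4]
      exact fun k hk k' hk' => xrevb_same hH hε hk.2 hk'.2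
  · intro j hj
    rcases Nat.lt_succ_iff_lt_or_eq.1 hj with hj | rfl
    · rw [h3 j hj]
      exact hr.sub j hj
    · rw [h4]
      exact fun k hk => hk.1
  · intro k hk
    obtain ⟨j, hj, hk'⟩ := hr.cov k hk
    exact ⟨j, by omega, by rwa [h3 j hj]⟩
  · intro j hj x x' k hx hx' hk
    rw [h1 j (by omega)]
    rcases Nat.lt_succ_iff_lt_or_eq.1 hj with hj | rfl
    · rw [h1 (j + 1) hj, h3 j hj]
      rintro hn' (h0 | ⟨a, f, f', rfl, rfl, k3, k4, k5⟩)
      · exact absurd (Or.inl h0) hn'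
      · refine hr.cond j hj f f' k k3 k4 ((A.ι a).v_inj ?_)
          (fun h0 => hn' (xrevb_of A hε a k3 k4 h0)) k5
        rw [← (A.ι a).inc_e, ← (A.ι a).inc_e, hk]
    · rw [h2, h4]
      intro hn' ht
      obtain ⟨a, f, rfl, hf⟩ := xrevb_cov A hε hx
      obtain ⟨b, f', rfl, hf'⟩ := xrevb_cov A hε hx'
      have hab : a ≠ b := by
        rintro rfl
        exact hn' (xrevb_of A hε a hf hf' ((hr.last f f' hf hf').2 ((h.ι_c a 1 f f').1 ht)))
      refine ⟨?_, ?_⟩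
      · rw [← A.Z.vc_inc ((A.ι a).e f) k]
        exact hZ.cond 0 _ _ _ ⟨k, rfl⟩ ⟨k, hk.symm⟩
          (fun h0 => hab (xrevb_uniq A hε hf (hZ.zero _ _ h0)).1) ht
      · rw [(A.ι a).inc_e, (A.ι b).inc_e] at hk
        obtain ⟨y, hy⟩ := xrevb_over A hab hk
        refine ⟨G.vc y, ?_⟩
        rw [← hf, ψ.inc_e, ← A.ι_v a, ← hy]
        exact (A.j_v y).symm
  · intro j hj z
    rw [h1 j (by omega)]
    rcases Nat.lt_succ_iff_lt_or_eq.1 hj with hj | rfl
    · rw [h1 (j + 1) hj]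
      exact xrevb_low A hε (hr.gir j hj) z
    · rw [h2]
      exact xrevb_top h hm hZ hG hH hq hn hw hε (fun f f' hf hf' => (hr.last f f' hf hf').2) z

end Pool.Agent.MP_1c0fc2_co.GR

end

section

open Function

namespace Pool.Agent.MP_1c0fc2_co.GR

/-- disjoint copies with pendant vertices -/
theorem disj {A B : Geo} {L : Type} (h : L → GHom A B) (cp : B.N → L)
    (hM : ∀ v c, B.M v c → cp (.inl v) = cp (.inr c)) (hb : ∀ l x, cp ((h l).n x) = l)
    (hi : ∀ l, (h l).Ind) (hc : ∀ c, (h (cp (.inr c))).Bag (.inr c))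
    (hv : ∀ v, (h (cp (.inl v))).Bag (.inl v) ∨ ∀ c c', B.M v c → B.M v c' → c = c')
    (b3 : A.B3) : Basic h ∧ ∀ w n, AC h w n := by
  have bagcp : ∀ p x, (h p).Bag x → cp x = p := by
    rintro p _ ⟨y, rfl⟩
    exact hb p y
  have wbcp : ∀ d x, B.WB d x → cp x = cp (.inr d) := by
    rintro d (v | c) hx
    · exact hM v d hx
    · exact congrArg (fun c => cp (.inr c)) hx
  have adjcp : ∀ x y, Adj h x y → cp x = cp y := by
    rintro x y (⟨p, hx, hy⟩ | ⟨d, hx, hy⟩)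
    · rw [bagcp p x hx, bagcp p y hy]
    · rw [wbcp d x hx, wbcp d y hy]
  refine ⟨⟨hi, fun p x y d _ hx _ => ?_, fun p q x y hpq _ hx _ hx' _ => ?_,
    fun u v c d huv h1 h2 h3 h4 => ?_⟩, fun w n l hl => ?_⟩
  · have h1 := hc d
    rw [← hM _ _ hx, show cp (.inl ((h p).v x)) = p from hb p (.inl x)] at h1
    exact ((h p).bag_inr d).1 h1
  · exact absurd ((bagcp p x hx).symm.trans (bagcp q x hx')) hpq
  · by_contra hcd
    have hu := (hv u).resolve_right fun hh => hcd (hh c d h1 h3)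
    have hv' := (hv v).resolve_right fun hh => hcd (hh c d h2 h4)
    have hd := hc d
    rw [← hM _ _ h3] at hd
    rw [hM _ _ h1] at hu hd
    rw [hM _ _ h2] at hv'
    have hc' := hc c
    generalize cp (.inr c) = p at hu hv' hd hc'
    obtain ⟨u', rfl⟩ := ((h p).bag_inl u).1 hu
    obtain ⟨v', rfl⟩ := ((h p).bag_inl v).1 hv'
    obtain ⟨c', rfl⟩ := ((h p).bag_inr c).1 hc'
    obtain ⟨d', rfl⟩ := ((h p).bag_inr d).1 hd
    exact hcd (congrArg _ (b3 u' v' c' d' (fun e => huv (congrArg _ e)) (hi p _ _ h1)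
      (hi p _ _ h2) (hi p _ _ h3) (hi p _ _ h4)))
  · have hconst := const_of_steps cp fun p hp => adjcp _ _ (hl.step p hp)
    by_cases hall : ∀ x ∈ l, (h (cp x)).Bag x
    · obtain ⟨a, ha⟩ := List.exists_mem_of_length_pos (l := l) (by have := hl.three; omega)
      refine Or.inr (Or.inl ⟨cp a, fun x hx => ?_⟩)
      rw [hconst a ha x hx]
      exact hall x hx
    · push Not at hall
      obtain ⟨z, hz, hz'⟩ := hall
      obtain ⟨x, y, t, hr⟩ := mid_rot hl.three hz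
      have hl' := hl.rot hr
      have hwp : ∀ a, Adj h a z → B.WP a z := by
        rintro a (⟨p, -, hp⟩ | hw)
        · rw [bagcp p z hp] at hz'
          exact absurd hp hz'
        · exact hw
      obtain ⟨d, hxd, hzd⟩ := hwp x (hl'.step (x, z) (by simp [steps_three]))
      obtain ⟨d', hyd, hzd'⟩ := hwp y (hl'.step (z, y) (by simp [steps_three])).symm
      have hdd : d' = d := by
        rcases z with v | c
        · exact (hv v).resolve_left hz' d' d hzd' hzd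
        · exact absurd (hc c) hz'
      subst hdd
      by_cases ht : t = []
      · subst ht
        refine Or.inr (Or.inr ⟨d', fun a ha => ?_⟩)
        have := hr.mem_iff.1 ha
        simp only [List.mem_cons, List.not_mem_nil, or_false] at this
        rcases this with rfl | rfl | rfl
        · exact hxd
        · exact hzd
        · exact hyd
      · exact Or.inl ⟨x, y, (nonCons_ends ht x z y).rot hr.symm, Or.inr ⟨d', hxd, hyd⟩⟩

end Pool.Agent.MP_1c0fc2_co.GR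

end

section

open Function

namespace Pool.Agent.MP_1c0fc2_co.GR

variable {K I : Type} {cl : K → I}

/-- the wagons of a disjoint union -/
def xpic0S (F : HG cl) (R : Type) [Finite R] (b : Prop) (r : Setoid F.E) : Setoid (F.mul R).E where
  r a a' := b ∨ (a.1 = a'.1 ∧ r a.2 a'.2)
  iseqv :=
    { refl := fun _ => Or.inr ⟨rfl, r.refl _⟩
      symm := fun h => h.imp_right fun h => ⟨h.1.symm, r.symm h.2⟩
      trans := fun h h' => h.elim Or.inl fun h => h'.imp_right fun h' =>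
        ⟨h.1.trans h'.1, r.trans h.2 h'.2⟩ }

theorem xpic0_on {F : HG cl} {R : Type} [Finite R] {v : (F.mul R).V} {e : (F.mul R).E}
    (h : (F.mul R).On v e) : e.1 = v.1 ∧ F.On v.2 e.2 := by
  obtain ⟨k, rfl⟩ := h
  exact ⟨rfl, k, rfl⟩

theorem xpic0_good {F : HG cl} {R : Type} [Finite R] {b : Prop} (hb : ¬ b) {r : Setoid F.E}
    (D : Set I) (h : (wg F r).Gir 2) (w n : ℕ) :
    GoodL (fun a : R => mulEmb F a) r (xpic0S F R b r) D w n := by
  have hc : ∀ a : R, Compat (mulEmb F a) r (xpic0S F R b r) := fun a f f' =>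
    ⟨fun h => (h.resolve_left hb).2, fun h => Or.inr ⟨rfl, h⟩⟩
  have key := disj (fun a : R => (mulEmb F a).hg (hc a) D)
    (Sum.elim (fun v => v.1.1) (Quotient.lift Prod.fst fun _ _ h => (Or.resolve_left h hb).1))
    (by
      rintro v _ ⟨e, rfl, he⟩
      exact (xpic0_on he).1.symm)
    (by
      rintro a (x | ⟨⟨x⟩⟩) <;> rfl)
    (by
      rintro a x ⟨y⟩ ⟨e, h1, he⟩
      exact ⟨e.2, Quotient.sound (Or.resolve_left (Quotient.exact h1) hb).2, (xpic0_on he).2⟩)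
    (by
      rintro ⟨c⟩
      exact ⟨.inr (Quotient.mk r c.2), rfl⟩)
    (fun v => Or.inl ⟨.inl ⟨v.1.2, v.2⟩, rfl⟩)
    (gir_two.1 (gir_hg_of_wg h D))
  exact ⟨hc, key.1, key.2 w n⟩

theorem up_zero {F : HG cl} {s : ℕ → Setoid F.E} {A : ℕ → Set I} {m : ℕ} {γ : ℕ → ℕ}
    (h : Dom F s A m γ) (hm : 1 ≤ m) (hγ : ∀ μ, 2 ≤ γ μ) (R : Type) [Finite R] :
    ∃ t : ℕ → Setoid (F.mul R).E, Up (fun r : R => mulEmb F r) s t A m γ ∧
      ∀ w n, GoodL (fun r : R => mulEmb F r) (s 0) (t 0) (Hi A m 0) w n := by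
  refine ⟨fun μ => xpic0S F R (m ≤ μ) (s μ), ⟨⟨fun e e' h1 => ?_, fun μ e e' h1 => ?_,
    fun μ h1 e e' => Or.inl h1, fun μ e e' v h1 h2 h3 h4 => ?_⟩, fun e e' u v h1 h2 h3 h4 h5 => ?_,
    fun p μ f f' => ⟨fun h1 => h1.elim (fun h2 => h.tr.top μ h2 f f') And.right,
      fun h1 => Or.inr ⟨rfl, h1⟩⟩,
    fun μ h1 h2 => xpic0_good (not_le.2 h2) _ ((h.gir μ h1 h2).mono (hγ μ)) _ _⟩,
    xpic0_good (by omega) _ ((lin_iff_gir h.tr.zero).1 h.lin)⟩
  · have h2 := Or.resolve_left h1 (by omega)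
    exact Prod.ext h2.1 (h.tr.zero _ _ h2.2)
  · exact Or.imp Nat.le_succ_of_le (And.imp_right (h.tr.mono μ _ _)) h1
  · refine h.tr.cond μ e.2 e'.2 v.2 (xpic0_on h1).2 (xpic0_on h2).2
      (fun h5 => h3 (Or.inr ⟨(xpic0_on h1).1.trans (xpic0_on h2).1.symm, h5⟩)) ?_
    exact Or.elim h4 (fun h5 => h.tr.top _ h5 _ _) And.right
  · refine Prod.ext ((xpic0_on h2).1.trans (xpic0_on h4).1.symm)
      (h.lin e.2 e'.2 u.2 v.2 (fun h6 => h1 (Prod.ext ?_ h6)) (xpic0_on h2).2 (xpic0_on h3).2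
        (xpic0_on h4).2 (xpic0_on h5).2)
    exact (xpic0_on h2).1.symm.trans (xpic0_on h3).1

end Pool.Agent.MP_1c0fc2_co.GR

end

section

open Function

namespace Pool.Agent.MP_1c0fc2_co.GR

variable {K : Type} {S : HG (id : K → K)}

theorem xhreva_on {v : S.V} {e : S.E} (h : S.On v e) : S.inc e (S.vc v) = v := by
  obtain ⟨k, rfl⟩ := h
  rw [S.vc_inc]
  rfl

/-- the revised train -/
theorem revised {s : ℕ → Setoid S.E} {A : ℕ → Set K} {m g M : ℕ} {γ : ℕ → ℕ} {g' : ℕ}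
    (h : Dom S s A (m + 1) (rep 1 g' γ)) (hγ : ∀ μ, g ≤ γ μ) {r : ℕ → Setoid S.E}
    {B : ℕ → Set K} (hr : IsRev S (fun _ => True) (s 1) (A 0) g M r B) :
    ∃ (r' : ℕ → Setoid S.E) (B' : ℕ → Set K), Dom S r' B' (M + m) (rep M g γ) ∧
      (wg S (r' 0)).Gir g ∧ r' 0 = s 0 ∧ (∀ ν, r' (M + ν) = s (ν + 1)) ∧
      (∀ j, j < M → B' j = B j) ∧ ∀ ν, B' (M + ν) = A (ν + 1) := by
  have hM : r M = s 1 := Setoid.ext fun e e' => hr.last e e' trivial trivial
  have h0 : r 0 = s 0 := Setoid.ext fun e e' =>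
    ⟨fun he => hr.zero e e' trivial trivial he ▸ (s 0).refl e,
      fun he => h.tr.zero e e' he ▸ (r 0).refl e⟩
  have hg : ∀ j, j ≤ M → (wg S (r j)).Gir g := by
    intro j hj
    induction hj using Nat.decreasingInduction with
    | self =>
      rw [hM]
      rcases Nat.eq_zero_or_pos m with rfl | hm
      · exact gir_wg_top (h.tr.top 1 le_rfl)
      · exact (h.gir 1 le_rfl (by omega)).mono (hγ 0)
    | of_succ j hj ih =>
      refine gir_run (wg S (r j)).M (wg S (r (j + 1))).M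
        (Quotient.map id fun e e' => hr.mono j hj e e' trivial trivial) ?_ ih fun z => ?_
      · rintro v _ ⟨e, rfl, he⟩
        exact ⟨e, rfl, he⟩
      · induction z using Quotient.inductionOn with
        | h z =>
          refine (hr.gir j hj z).pull ⟨id, id, injective_id, injective_id, ?_⟩
          rintro v _ ⟨⟨e, rfl, he⟩, hz⟩
          exact ⟨e, rfl, trivial, Quotient.exact hz, he⟩
  obtain ⟨r', hlo, hhi⟩ : ∃ r' : ℕ → Setoid S.E, (∀ j, j ≤ M → r' j = r j) ∧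
      ∀ ν, r' (M + ν) = s (ν + 1) := by
    refine ⟨fun j => if j < M then r j else s (j - M + 1), fun j hj => ?_, fun ν => by simp⟩
    rcases hj.lt_or_eq with hj | rfl
    · exact if_pos hj
    · simp [hM]
  obtain ⟨B', hlo', hhi'⟩ : ∃ B' : ℕ → Set K, (∀ j, j < M → B' j = B j) ∧
      ∀ ν, B' (M + ν) = A (ν + 1) :=
    ⟨fun j => if j < M then B j else A (j - M + 1), fun j hj => if_pos hj, fun ν => by simp⟩
  refine ⟨r', B', ⟨⟨?_, fun μ e e' => ?_, fun μ hμ => ?_, fun μ e e' v he he' => ?_⟩, h.lin,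
    fun μ _ hμ => ?_⟩, ?_, (hlo 0 M.zero_le).trans h0, hhi, hlo', hhi'⟩
  · rw [hlo 0 M.zero_le, h0]
    exact h.tr.zero
  · rcases lt_or_ge μ M with hμ | hμ
    · rw [hlo μ hμ.le, hlo (μ + 1) hμ]
      exact hr.mono μ hμ e e' trivial trivial
    · obtain ⟨ν, rfl⟩ := Nat.exists_eq_add_of_le hμ
      rw [add_assoc, hhi, hhi]
      exact h.tr.mono _ e e'
  · obtain ⟨ν, rfl⟩ := Nat.exists_eq_add_of_le (le_of_add_le_left hμ)
    rw [hhi]
    exact h.tr.top _ (by omega)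
  · rcases lt_or_ge μ M with hμ | hμ
    · rw [hlo μ hμ.le, hlo (μ + 1) hμ, hlo' μ hμ]
      exact hr.cond μ hμ e e' _ trivial trivial ((xhreva_on he).trans (xhreva_on he').symm)
    · obtain ⟨ν, rfl⟩ := Nat.exists_eq_add_of_le hμ
      rw [add_assoc, hhi, hhi, hhi']
      exact h.tr.cond _ e e' v he he'
  · rcases lt_or_ge μ M with hμ' | hμ'
    · rw [hlo μ hμ'.le, rep, if_pos hμ']
      exact hg μ hμ'.le
    · obtain ⟨ν, rfl⟩ := Nat.exists_eq_add_of_le hμ'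
      have := h.gir (ν + 1) (by omega) (by omega)
      rw [hhi]
      simpa [rep] using this
  · rw [hlo 0 M.zero_le]
    exact hg 0 M.zero_le

/-- one more unit of girth in a partite train whose low parameters are single lines -/
theorem gir_succ {t : ℕ → Setoid S.E} {B : ℕ → Set K} {m M g : ℕ} (h : IsTrain S t B m)
    (hB : ∀ j, j < M → (B j).Subsingleton) (hg : ∀ j, j < M → (wg S (t j)).Gir g)
    (hM : (wg S (t M)).Gir (g + 1)) : (wg S (t 0)).Gir (g + 1) := by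
  intro (l : List (S.V × Quotient (t 0))) hl h2 hlen
  let π : ∀ j, Quotient (t 0) → Quotient (t j) := fun j =>
    Quotient.map id fun e e' he => h.le j.zero_le he
  have hw : ∀ j, (wg S (t j)).WCyc (l.map (Prod.map id (π j))) := fun j => by
    refine ⟨(List.map_map ..).symm ▸ hl.1, fun p hp => ?_⟩
    rw [steps_map] at hp
    obtain ⟨⟨⟨u, c⟩, ⟨v, d⟩⟩, hq, rfl⟩ := List.mem_map.1 hp
    obtain ⟨⟨e, h1, h3⟩, ⟨e', h4, h5⟩⟩ := hl.2 _ hq
    exact ⟨⟨e, congrArg (π j) h1, h3⟩, ⟨e', congrArg (π j) h4, h5⟩⟩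
  have hL : ∀ j, l.length = (l.map (Prod.map id (π j))).length := fun j =>
    (List.length_map _).symm
  have key : ∀ j, j ≤ M → ∀ a ∈ l, ∀ b ∈ l, π j a.2 = π j b.2 := by
    intro j hj
    induction hj using Nat.decreasingInduction with
    | self =>
      exact fun a ha b hb => hM _ (hw M) (h2.trans_eq (hL _)) ((hL _).symm.trans_le hlen) _
        (List.mem_map_of_mem ha) _ (List.mem_map_of_mem hb)
    | of_succ j hj ih =>
      obtain ⟨x, hx, hxB⟩ : ∃ x ∈ l, S.vc x.1 ∉ B j := by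
        obtain ⟨a, ha⟩ := List.exists_mem_of_length_pos (l := l) (zero_lt_two.trans_le h2)
        obtain ⟨b, hab⟩ := exists_step_fst ha
        by_contra hn
        push Not at hn
        obtain ⟨⟨e, h1, h3⟩, ⟨e', h4, h5⟩⟩ := hl.2 _ hab
        obtain rfl := h.zero e e' (Quotient.exact (h1.trans h4.symm))
        refine hl.step_ne h2 hab ((xhreva_on h3).symm.trans (Eq.trans ?_ (xhreva_on h5)))
        exact congrArg _ (hB j hj (hn a ha) (hn b (mem_of_mem_steps hab).2))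
      obtain ⟨y, hy⟩ := exists_step_snd hx
      obtain ⟨e, h1, h3⟩ := (hl.2 _ hy).2
      obtain ⟨e', h4, h5⟩ := hl.self hx
      have h6 : t (j + 1) e e' := Quotient.exact (((congrArg (π (j + 1)) h1).trans
        (ih y (mem_of_mem_steps hy).1 x hx)).trans (congrArg (π (j + 1)) h4).symm)
      have h7 : t j e e' := by_contra fun hn => hxB (h.cond j e e' x.1 h3 h5 hn h6)
      refine fun a ha b hb => (hg j hj).del (hw j) (h2.trans_eq (hL _))
        ((hL _).symm.trans_le hlen)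
        ⟨Prod.map (Prod.map id (π j)) (Prod.map id (π j)) (y, x), ?_, ?_⟩ _
        (List.mem_map_of_mem ha) _ (List.mem_map_of_mem hb)
      · rw [steps_map]
        exact List.mem_map_of_mem hy
      · exact ((congrArg (π j) h1).symm.trans (Quotient.sound h7)).trans (congrArg (π j) h4)
  have h0 : ∀ c, π 0 c = c := fun c => Quotient.inductionOn c fun _ => rfl
  exact fun a ha b hb => ((h0 _).symm.trans (key 0 M.zero_le a ha b hb)).trans (h0 _)

end Pool.Agent.MP_1c0fc2_co.GR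

end

section

open Function

namespace Pool.Agent.MP_1c0fc2_co.GR

theorem xhrev_lt {M g j : ℕ} (γ : ℕ → ℕ) (h : j < M) : rep M g γ j = g := if_pos h

theorem xhrev_add (M g ν : ℕ) (γ : ℕ → ℕ) : rep M g γ (M + ν) = γ ν := by
  unfold rep
  rw [if_neg (by omega), Nat.add_sub_cancel_left]

theorem xhrev_hi {K : Type} {A B : ℕ → Set K} {M : ℕ} (h : ∀ ν, B (M + ν) = A (ν + 1))
    (m ν : ℕ) : Hi B (M + m) (M + ν) = Hi A (m + 1) (ν + 1) := by
  ext k
  constructor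
  · rintro ⟨j, h1, h2, h3⟩
    obtain ⟨j, rfl⟩ : ∃ i, j = M + i := ⟨j - M, by omega⟩
    exact ⟨j + 1, by omega, by omega, h j ▸ h3⟩
  · rintro ⟨j, h1, h2, h3⟩
    obtain ⟨j, rfl⟩ : ∃ i, j = i + 1 := ⟨j - 1, by omega⟩
    exact ⟨M + j, by omega, by omega, (h j).symm ▸ h3⟩

theorem xhrev_hi0 {K : Type} {A B : ℕ → Set K} {M : ℕ} (h : ∀ ν, B (M + ν) = A (ν + 1))
    (h1 : ∀ j, j < M → B j ⊆ A 0) (h2 : ∀ k ∈ A 0, ∃ j, j < M ∧ k ∈ B j) (m : ℕ) :
    Hi B (M + m) 0 = Hi A (m + 1) 0 := by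
  ext k
  constructor
  · rintro ⟨j, -, h3, h4⟩
    by_cases hj : j < M
    · exact ⟨0, le_rfl, by omega, h1 j hj h4⟩
    · obtain ⟨j, rfl⟩ : ∃ i, j = M + i := ⟨j - M, by omega⟩
      exact ⟨j + 1, by omega, by omega, h j ▸ h4⟩
  · rintro ⟨j, -, h3, h4⟩
    cases j with
    | zero =>
      obtain ⟨i, h5, h6⟩ := h2 k h4
      exact ⟨i, by omega, by omega, h6⟩
    | succ j => exact ⟨M + j, by omega, by omega, (h j).symm ▸ h4⟩

theorem hrev {m g : ℕ} {γ : ℕ → ℕ} (hγ : ∀ μ, g + 1 ≤ γ μ)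
    (h : ∀ M, 0 < M → T (M + m) (rep M g γ)) :
    Hor True (m + 1) (rep 1 (g + 1) γ) (2 * (g + 1)) g g := by
  intro K _ _ S s A hD _ hrev κ _ _
  obtain ⟨M, r, B, hr⟩ := hrev trivial
  obtain ⟨r', B', hD', hg0, e0, e1, e2, e3⟩ :=
    revised hD (fun μ => (Nat.le_succ g).trans (hγ μ)) hr
  obtain ⟨G, t', Q, _, q, hR, hU, h0⟩ := h M hr.pos K K id S r' B' hD' (ord_partite S) κ
  rw [xhrev_lt γ hr.pos] at h0
  have hsub : ∀ j, j < M → B' j ⊆ A 0 := fun j hj => (e2 j hj).symm ▸ hr.sub j hj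
  have hi0 : Hi B' (M + m) 0 = Hi A (m + 1) 0 :=
    xhrev_hi0 e3 hsub (fun k hk => by
      obtain ⟨j, hj, hk'⟩ := hr.cov k hk
      exact ⟨j, hj, (e2 j hj).symm ▸ hk'⟩) m
  have hG := hU.dom hD'
  refine ⟨G, fun μ => Nat.casesOn μ (t' 0) fun ν => t' (M + ν), Q, ‹_›, q, hR,
    ⟨⟨hU.tr.zero, fun μ => ?_, fun μ hμ => ?_, fun μ => ?_⟩, hU.lin, fun p μ => ?_,
      fun μ h1 h2 => ?_⟩, fun _ => ⟨?_, fun _ => ?_⟩⟩
  · cases μ with
    | zero => exact fun e e' he => hU.tr.le (Nat.zero_le (M + 0)) he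
    | succ ν => exact hU.tr.mono (M + ν)
  · cases μ with
    | zero => omega
    | succ ν => exact hU.tr.top (M + ν) (by omega)
  · cases μ with
    | zero =>
      intro e e' v he he' h1 h2
      obtain ⟨j, -, hj, -, -, hv⟩ := hU.tr.between (μ := 0) (ν := M) he he' h1 h2
      exact hsub j hj hv
    | succ ν =>
      intro e e' v he he' h1 h2
      exact e3 ν ▸ hU.tr.cond (M + ν) e e' v he he' h1 h2
  · cases μ with
    | zero => exact e0 ▸ hU.cpt p 0
    | succ ν => exact e1 ν ▸ hU.cpt p (M + ν)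
  · cases μ with
    | zero => omega
    | succ ν =>
      have h3 := hU.good (M + ν) (by have := hr.pos; omega) (by omega)
      have h4 : rep 1 (g + 1) γ (ν + 1) = γ ν := by rw [add_comm ν 1, xhrev_add]
      rw [xhrev_add, xhrev_hi e3, e1] at h3
      rw [h4]
      exact h3
  · rw [hi0, e0] at h0
    obtain ⟨hc, h1, h2⟩ := h0
    exact ⟨hc, h1, (h2.mono le_rfl (by omega)).of_len _⟩
  · show (wg G (t' 0)).Gir (g + 1)
    refine gir_succ hU.tr (M := M) (fun j hj => (e2 j hj).symm ▸ hr.sing j hj) (fun j hj => ?_) ?_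
    · rcases Nat.eq_zero_or_pos j with rfl | hj0
      · exact hU.tr.gir_wg (h0.gir le_rfl (by omega) (gir_hg_of_wg hg0 _))
      · have h1 := hG.gir j hj0 (by omega)
        rwa [xhrev_lt γ hj] at h1
    · rcases Nat.eq_zero_or_pos m with rfl | hm
      · exact gir_wg_top (hU.tr.top M le_rfl)
      · have h1 := hG.gir (M + 0) hr.pos (by omega)
        rw [xhrev_add] at h1
        exact h1.mono (hγ 0)

end Pool.Agent.MP_1c0fc2_co.GR

end

section

open Function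

namespace Pool.Agent.MP_1c0fc2_co.GR

variable {A B : Geo} {P : Type} {φ : P → GHom A B} {g : ℕ}

theorem xatom_mem {α : Type} (b : α) : ∀ (l : List α) (x : α), x ∈ l →
    ∃ y, (x, y) ∈ path (l ++ [b])
  | [], _, h => by simp at h
  | [a], x, h => by
    have : x = a := by simpa using h
    subst this
    exact ⟨b, by simp [path]⟩
  | a :: c :: t, x, h => by
    rcases List.mem_cons.1 h with rfl | h
    · exact ⟨c, by simp [path]⟩
    · obtain ⟨y, hy⟩ := xatom_mem b (c :: t) x h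
      exact ⟨y, by
        simp only [List.cons_append, path] at hy ⊢
        exact List.mem_cons_of_mem _ hy⟩

theorem xatom_chain (C : Finset B.V)
    (hconn : ∀ a ∈ C, ∀ b ∈ C, Relation.ReflTransGen
      (fun u v => u ∈ C ∧ v ∈ C ∧ Adj φ (.inl u) (.inl v)) a b)
    {y : B.N} {a b : B.V} (ha : a ∈ C) (hb : b ∈ C) (hyb : Adj φ y (.inl b)) :
    ∃ c : List B.V, (a :: c).Nodup ∧ (∀ u ∈ a :: c, u ∈ C) ∧
      ∀ p ∈ path (((a :: c).map Sum.inl : List B.N) ++ [y]), Adj φ p.1 p.2 := by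
  rcases exists_nodup_chain _ (hconn a ha b hb) with rfl | ⟨c, hn, hc⟩
  · refine ⟨[], by simp, by simpa using ha, ?_⟩
    intro p hp
    have : p = (Sum.inl a, y) := by simpa [path] using hp
    subst this
    exact hyb.symm
  · refine ⟨c ++ [b], hn, ?_, ?_⟩
    · intro u hu
      have hu' : u ∈ (a :: c) ++ [b] := by simpa using hu
      rcases List.mem_append.1 hu' with h1 | h1
      · obtain ⟨v, hv⟩ := xatom_mem b (a :: c) u h1
        exact (hc (u, v) (by simpa using hv)).1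
      · have : u = b := by simpa using h1
        subst this
        exact hb
    · intro p hp
      have e1 : (((a :: (c ++ [b])).map Sum.inl : List B.N) ++ [y]) =
          ((a :: c).map Sum.inl : List B.N) ++ Sum.inl b :: [y] := by simp
      have e2 : ((a :: c).map Sum.inl : List B.N) ++ [Sum.inl b] =
          (a :: (c ++ [b])).map Sum.inl := by simp
      rw [e1, path_append, e2, path_map] at hp
      rcases List.mem_append.1 hp with h1 | h1
      · obtain ⟨q, hq, rfl⟩ := List.mem_map.1 h1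
        exact (hc q hq).2.2
      · have : p = (Sum.inl b, y) := by simpa [path] using h1
        subst this
        exact hyb.symm

theorem xatom_str {h : GHom A B} (hs : h.Str) {x y : B.V} {d : B.C} (hxy : x ≠ y)
    (hx : h.Bag (.inl x)) (hy : h.Bag (.inl y)) (hxd : B.M x d) (hyd : B.M y d) :
    h.Bag (.inr d) := by
  obtain ⟨x', rfl⟩ := (h.bag_inl x).1 hx
  obtain ⟨y', rfl⟩ := (h.bag_inl y).1 hy
  exact (h.bag_inr d).2 (hs x' y' d (fun e => hxy (congrArg h.v e)) hxd hyd)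

theorem atom_two (h : AC φ (2 * g + 4) (2 * g + 4)) (C : Finset B.V) (hC : C.card ≤ g)
    (hconn : ∀ a ∈ C, ∀ b ∈ C, Relation.ReflTransGen
      (fun u v => u ∈ C ∧ v ∈ C ∧ Adj φ (.inl u) (.inl v)) a b)
    {x y : B.N} (hxy : x ≠ y) (hadj : Adj φ x y) (hx : ∀ a ∈ C, x ≠ .inl a)
    (hy : ∀ a ∈ C, y ≠ .inl a) (ha : ∃ a ∈ C, Adj φ x (.inl a))
    (hb : ∃ b ∈ C, Adj φ y (.inl b)) : ∃ a ∈ C, InBag φ [x, y, .inl a] := by
  classical
  obtain ⟨a, haC, hxa⟩ := ha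
  obtain ⟨b, hbC, hyb⟩ := hb
  obtain ⟨c, hn, hm, hp⟩ := xatom_chain C hconn haC hbC hyb
  have hlen : (a :: c).length ≤ g := by
    rw [← List.toFinset_card_of_nodup hn]
    exact le_trans (Finset.card_le_card (fun u hu => hm u (List.mem_toFinset.1 hu))) hC
  have hlen' : (y :: x :: ((a :: c).map Sum.inl : List B.N)).length ≤ g + 2 := by
    simp only [List.length_cons, List.length_map] at hlen ⊢
    omega
  have hcyc : Cyc (Adj φ) (2 * g + 4) (2 * g + 4) (y :: x :: ((a :: c).map Sum.inl)) := by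
    refine ⟨?_, ?_, ?_, ?_, ?_⟩
    · refine List.nodup_cons.2 ⟨?_, List.nodup_cons.2 ⟨?_, hn.map Sum.inl_injective⟩⟩
      · intro hy'
        rcases List.mem_cons.1 hy' with e | hy'
        · exact hxy e.symm
        · obtain ⟨u, hu, e⟩ := List.mem_map.1 hy'
          exact hy u (hm u hu) e.symm
      · intro hx'
        obtain ⟨u, hu, e⟩ := List.mem_map.1 hx'
        exact hx u (hm u hu) e.symm
    · simp
    · omega
    · have := wsum_le (y :: x :: ((a :: c).map Sum.inl : List B.N))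
      omega
    · intro p hp'
      rw [steps_two] at hp'
      rcases List.mem_cons.1 hp' with rfl | hp'
      · exact hadj.symm
      · have e : path (x :: (((a :: c).map Sum.inl : List B.N) ++ [y])) =
            (x, Sum.inl a) :: path (((a :: c).map Sum.inl : List B.N) ++ [y]) := by
          simp [path]
        rw [e] at hp'
        rcases List.mem_cons.1 hp' with rfl | hp'
        · exact hxa
        · exact hp p hp'
  obtain ⟨z, hz, hzy, hzx, hin⟩ := tri_of_step h hcyc (x := y) (y := x)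
    (by rw [steps_two]; exact List.mem_cons_self)
  rcases List.mem_cons.1 hz with e | hz
  · exact absurd e hzy
  rcases List.mem_cons.1 hz with e | hz
  · exact absurd e hzx
  obtain ⟨u, hu, rfl⟩ := List.mem_map.1 hz
  refine ⟨u, hm u hu, hin.sub ?_⟩
  intro t ht
  simp only [List.mem_cons, List.not_mem_nil, or_false] at ht ⊢
  tauto

theorem atom_edge (hB : Basic φ) (h : AC φ (2 * g + 4) (2 * g + 4))
    (h2 : ∀ d u v x, B.M u d → B.M v d → B.M x d → u = v ∨ u = x ∨ v = x)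
    (C : Finset B.V) (hC : C.card ≤ g)
    (hconn : ∀ a ∈ C, ∀ b ∈ C, Relation.ReflTransGen
      (fun u v => u ∈ C ∧ v ∈ C ∧ Adj φ (.inl u) (.inl v)) a b)
    (p : P) (hp : ∀ a ∈ C, ¬ (φ p).Bag (.inl a)) {x y : B.V} (hxy : x ≠ y)
    (hx : (φ p).Bag (.inl x)) (hy : (φ p).Bag (.inl y)) (ha : ∃ a ∈ C, Adj φ (.inl x) (.inl a))
    (hb : ∃ b ∈ C, Adj φ (.inl y) (.inl b)) :
    ∃ d, B.M x d ∧ B.M y d ∧ (φ p).Bag (.inr d) ∧ ∃ a ∈ C, ∃ p', (φ p').Bag (.inl x) ∧
      (φ p').Bag (.inl y) ∧ (φ p').Bag (.inl a) ∧ (φ p').Bag (.inr d) := by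
  have hxa : ∀ a ∈ C, x ≠ a := fun a haC e => hp a haC (e ▸ hx)
  have hya : ∀ a ∈ C, y ≠ a := fun a haC e => hp a haC (e ▸ hy)
  have hne : (Sum.inl x : B.N) ≠ Sum.inl y := fun e => hxy (Sum.inl_injective e)
  obtain ⟨a, haC, hin⟩ := atom_two h C hC hconn hne (Or.inl ⟨p, hx, hy⟩)
    (fun a haC e => hxa a haC (Sum.inl_injective e))
    (fun a haC e => hya a haC (Sum.inl_injective e)) ha hb
  rcases hin with ⟨p', hp'⟩ | ⟨d, hd⟩
  · have h1 := hp' (.inl x) (by simp)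
    have h2' := hp' (.inl y) (by simp)
    have h3 := hp' (.inl a) (by simp)
    have hpp : p ≠ p' := fun e => hp a haC (e ▸ h3)
    obtain ⟨d, hxd, hyd⟩ := hB.b2 p p' _ _ hpp hne hx hy h1 h2'
    exact ⟨d, hxd, hyd, xatom_str (hB.str p) hxy hx hy hxd hyd, a, haC, p', h1, h2', h3,
      xatom_str (hB.str p') hxy h1 h2' hxd hyd⟩
  · have h1 : B.M x d := hd (.inl x) (by simp)
    have h2' : B.M y d := hd (.inl y) (by simp)
    have h3 : B.M a d := hd (.inl a) (by simp)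
    rcases h2 d x y a h1 h2' h3 with e | e | e
    · exact absurd e hxy
    · exact absurd e (hxa a haC)
    · exact absurd e (hya a haC)

theorem atom_three (hB : Basic φ) (h : AC φ (2 * g + 4) (2 * g + 4))
    (h2 : ∀ d u v x, B.M u d → B.M v d → B.M x d → u = v ∨ u = x ∨ v = x)
    (C : Finset B.V) (hC : C.card ≤ g)
    (hconn : ∀ a ∈ C, ∀ b ∈ C, Relation.ReflTransGen
      (fun u v => u ∈ C ∧ v ∈ C ∧ Adj φ (.inl u) (.inl v)) a b)
    (p : P) (hp : ∀ a ∈ C, ¬ (φ p).Bag (.inl a)) {x y z : B.V}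
    (hx : (φ p).Bag (.inl x)) (hy : (φ p).Bag (.inl y)) (hz : (φ p).Bag (.inl z))
    (ha : ∃ a ∈ C, Adj φ (.inl x) (.inl a)) (hb : ∃ b ∈ C, Adj φ (.inl y) (.inl b))
    (hc : ∃ c ∈ C, Adj φ (.inl z) (.inl c)) : x = y ∨ x = z ∨ y = z := by
  by_contra hne
  have hxy : x ≠ y := fun e => hne (Or.inl e)
  have hxz : x ≠ z := fun e => hne (Or.inr (Or.inl e))
  obtain ⟨d1, hx1, hy1, hp1, a1, ha1, p1, -, -, h11, h12⟩ :=
    atom_edge hB h h2 C hC hconn p hp hxy hx hy ha hb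
  obtain ⟨d2, hx2, hz2, hp2, a2, ha2, p2, -, -, h21, h22⟩ :=
    atom_edge hB h h2 C hC hconn p hp hxz hx hz ha hc
  have hd : d1 ≠ d2 := by
    intro e
    subst e
    exact hne (h2 d1 x y z hx1 hy1 hz2)
  have hd' : (Sum.inr d1 : B.N) ≠ Sum.inr d2 := fun e => hd (Sum.inr_injective e)
  obtain ⟨a, haC, hin⟩ := atom_two h C hC hconn hd' (Or.inl ⟨p, hp1, hp2⟩)
    (fun _ _ => Sum.inr_ne_inl) (fun _ _ => Sum.inr_ne_inl)
    ⟨a1, ha1, Or.inl ⟨p1, h12, h11⟩⟩ ⟨a2, ha2, Or.inl ⟨p2, h22, h21⟩⟩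
  rcases hin with ⟨p', hp'⟩ | ⟨d, hdd⟩
  · have h1 := hp' (.inr d1) (by simp)
    have h2' := hp' (.inr d2) (by simp)
    have h3 := hp' (.inl a) (by simp)
    have hpp : p ≠ p' := fun e => hp a haC (e ▸ h3)
    exact Geo.not_wp_inr hd (hB.b2 p p' _ _ hpp hd' hp1 hp2 h1 h2')
  · have h1 : d1 = d := hdd (.inr d1) (by simp)
    have h2' : d2 = d := hdd (.inr d2) (by simp)
    exact hd (h1.trans h2'.symm)

end Pool.Agent.MP_1c0fc2_co.GR

end
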