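import Mathlib
import Pool.Agent.MP_1c0fc2_co.Defs
import Pool.Agent.Mg.F1c0fc2.G3ab0dd

section

/-! Definitions for the proof that Ramsey equivalent connected graphs are isomorphic. -/

open Function Set Relation

namespace Pool.Agent.MP_1c0fc2_co.RE

section Graphs
variable {U V W : Type}

/-- `C` is connected for the relation `R` -/
def ConnOn (R : V → V → Prop) (C : Set V) : Prop :=
  ∀ a ∈ C, ∀ b ∈ C, ReflTransGen (fun x y => x ∈ C ∧ y ∈ C ∧ R x y) a b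

/-- `S` is 2-connected in `J` -/
def TwoConn (J : SimpleGraph V) (S : Set V) : Prop :=
  3 ≤ S.ncard ∧ ∀ v, ConnOn J.Adj (S \ {v})

/-- twice the number of edges inside `S` -/
noncomputable def ec (J : SimpleGraph V) (S : Set V) : ℕ :=
  {p : V × V | p.1 ∈ S ∧ p.2 ∈ S ∧ J.Adj p.1 p.2}.ncard

/-- neighbours of `C` inside `S` -/
def Nb (J : SimpleGraph V) (S C : Set V) : Set V := {x | x ∈ S ∧ ∃ c ∈ C, J.Adj x c}

/-- clique with at most two vertices -/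
def Cq (J : SimpleGraph V) (τ : Set V) : Prop :=
  τ.Subsingleton ∨ ∃ a b, J.Adj a b ∧ τ = {a, b}

/-- injective homomorphism on `S` -/
def IHo (J : SimpleGraph V) (J' : SimpleGraph W) (f : V → W) (S : Set V) : Prop :=
  InjOn f S ∧ ∀ x ∈ S, ∀ y ∈ S, J.Adj x y → J'.Adj (f x) (f y)

/-- injective homomorphism -/
def IH (J : SimpleGraph V) (J' : SimpleGraph W) (f : V → W) : Prop :=
  Injective f ∧ ∀ x y, J.Adj x y → J'.Adj (f x) (f y)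

/-- `J` is a subgraph of `J'` up to isomorphism -/
def In (J : SimpleGraph V) (J' : SimpleGraph W) : Prop := ∃ f, IH J J' f

/-- induced embedding on `S` -/
def Ind (J : SimpleGraph V) (J' : SimpleGraph W) (f : V → W) (S : Set V) : Prop :=
  InjOn f S ∧ ∀ x ∈ S, ∀ y ∈ S, (J'.Adj (f x) (f y) ↔ J.Adj x y)

/-- `S'` carries a torso of `J[S]` that embeds in `H` -/
def Torso (H : SimpleGraph W) (J : SimpleGraph V) (S S' : Set V) : Prop :=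
  S' ⊆ S ∧ S' ≠ S ∧ 3 ≤ S'.ncard ∧ ∃ f : V → W, IHo J H f S' ∧
    ∀ C, C ⊆ S \ S' → ConnOn J.Adj C → Cq H (f '' Nb J S' C)

/-- everywhere stiff -/
def ES (H : SimpleGraph W) (J : SimpleGraph V) (S : Set V) : Prop :=
  TwoConn J S ∧ ∀ S', ¬ Torso H J S S'

/-- stiff at the root edge `a b` -/
def RS (H : SimpleGraph W) (J : SimpleGraph V) (S : Set V) (a b : V) : Prop :=
  a ∈ S ∧ b ∈ S ∧ J.Adj a b ∧ TwoConn J S ∧ ∀ S', a ∈ S' → b ∈ S' → ¬ Torso H J S S'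

/-- triangle -/
def Tri (J : SimpleGraph V) (S : Set V) : Prop :=
  ∃ a b c, J.Adj a b ∧ J.Adj a c ∧ J.Adj b c ∧ S = {a, b, c}

/-- matching -/
def Mat (M : SimpleGraph V) : Prop := ∀ a b c, M.Adj a b → M.Adj a c → b = c

/-- bipartite -/
def Bip (M : SimpleGraph V) : Prop := ∃ s : V → Bool, ∀ a b, M.Adj a b → s a ≠ s b

/-- `M` is an induced matching of `A` -/
def IMat (A M : SimpleGraph V) : Prop :=
  M ≤ A ∧ Mat M ∧ ∀ a b c d, M.Adj a b → M.Adj c d → A.Adj a c → c = b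

/-- independent set -/
def Indp (A : SimpleGraph V) (I : Set V) : Prop := ∀ a ∈ I, ∀ b ∈ I, ¬ A.Adj a b

/-- no two vertices of `I` have a common neighbour -/
def NoCom (A : SimpleGraph V) (I : Set V) : Prop :=
  ∀ a ∈ I, ∀ b ∈ I, ∀ x, A.Adj a x → A.Adj b x → a = b

/-- no path of `F` between the ends of an edge of `A` avoids that edge -/
def NoBack (A F : SimpleGraph V) : Prop :=
  ∀ a b, A.Adj a b → ¬ ReflTransGen (fun x y => F.Adj x y ∧ s(x, y) ≠ s(a, b)) a b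

/-- colour class: `true` is red -/
def cc (G R : SimpleGraph V) : Bool → SimpleGraph V
  | true => R
  | false => G \ R

/-- `Br` is the branch of the object `O` below `τ` -/
def Cut (Y : SimpleGraph V) (O τ Br : Set V) : Prop :=
  τ ⊆ O ∧ O \ τ ⊆ Br ∧ Disjoint Br τ ∧ ∀ v ∈ Br, ∀ w, Y.Adj v w → w ∈ Br ∨ w ∈ τ

/-- objects that attach along allowed cliques -/
structure Atoms (Y : SimpleGraph V) (Al Ob : Set V → Prop) : Prop where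
  sub : ∀ τ τ', Al τ → τ' ⊆ τ → Al τ'
  one : ∀ v, Al {v}
  clq : ∀ τ, Al τ → ∀ a ∈ τ, ∀ b ∈ τ, a ≠ b → Y.Adj a b
  att : ∀ O C, Ob O → Disjoint C O → ConnOn Y.Adj C → Al (Nb Y O C)
  nsep : ∀ O τ, Ob O → Al τ → ConnOn Y.Adj (O \ τ) ∧ (O \ τ).Nonempty
  anti : ∀ O O', Ob O → Ob O' → O ⊆ O' → O = O'

end Graphs

/-- the numerical invariants of the pair of graphs -/
structure Par where
  vT : ℕ
  mT : ℕ
  vA : ℕ
  mA : ℕ
  θ : ℕ

section Objects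
variable {U V W : Type} (P : Par) (H : SimpleGraph W)

/-- `T`-sets -/
def TS (J : SimpleGraph V) (S : Set V) : Prop :=
  ES H J S ∧ S.ncard = P.vT ∧ P.mT ≤ ec J S

/-- `α`-sets -/
def AS (J : SimpleGraph V) (S : Set V) : Prop :=
  (∃ a b, RS H J S a b) ∧ S.ncard = P.vA ∧ P.mA ≤ ec J S

/-- the edges that lie in a `T`-set inside `Y` -/
def TG (J : SimpleGraph V) (Y : Set V) : SimpleGraph V where
  Adj x y := J.Adj x y ∧ ∃ S, S ⊆ Y ∧ TS P H J S ∧ x ∈ S ∧ y ∈ S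
  symm := ⟨fun _ _ ⟨h, S, h1, h2, h3, h4⟩ => ⟨h.symm, S, h1, h2, h4, h3⟩⟩
  loopless := ⟨fun _ h => h.1.ne rfl⟩

/-- `θ`-sets -/
def TH (J : SimpleGraph V) (S : Set V) : Prop := TwoConn (TG P H J S) S ∧ S.ncard = P.θ

/-- largest blocks of the `T`-graph -/
def MaxB (J : SimpleGraph V) (S : Set V) : Prop :=
  TwoConn (TG P H J univ) S ∧ ∀ S', TwoConn (TG P H J univ) S' → S'.ncard ≤ S.ncard

structure Par.Ok : Prop where
  exT : ∃ S, TS P H H S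
  maxT : ∀ S, ES H H S → S.ncard < P.vT ∨ (S.ncard = P.vT ∧ ec H S ≤ P.mT)
  exA : ∃ S, AS P H H S
  maxA : ∀ S a b, RS H H S a b → S.ncard < P.vA ∨ (S.ncard = P.vA ∧ ec H S ≤ P.mA)
  exθ : ∃ S, TH P H H S
  maxθ : ∀ S, TwoConn (TG P H H univ) S → S.ncard ≤ P.θ

/-- every edge of `M` is a bridge of `(A - M)_T ∪ M` -/
def Bridge (A M : SimpleGraph V) : Prop :=
  ∀ a b, M.Adj a b → ¬ ReflTransGen
    (fun x y => ((TG P H (A \ M) univ).Adj x y ∨ M.Adj x y) ∧ s(x, y) ≠ s(a, b)) a b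

/-- `y y'` is an isolating edge for the family `𝒯` -/
def Iso (J : SimpleGraph V) (𝒯 : Set (Set V)) (y y' : V) : Prop :=
  J.Adj y y' ∧ (∃ S ∈ 𝒯, y ∈ S) ∧ ∀ S ∈ 𝒯, y ∈ S → y' ∈ S

end Objects

/-- the four cases -/
inductive Mode
  | N1 | N2 | S1 | S2

section Families
variable {U V W : Type}

/-- red objects -/
def RO (P : Par) (H : SimpleGraph W) : Mode → SimpleGraph V → Set V → Prop
  | .N1, J, S => AS P H J S ∧ ∀ c ∈ S, ∃ v ∈ S, v ≠ c ∧ ¬ J.Adj c v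
  | .N2, J, S => TH P H J S ∧ ∀ c, ∃ D, D ⊆ S ∧ Tri J D ∧ c ∉ D
  | .S1, J, S => AS P H J S
  | .S2, J, S => TH P H J S

/-- blue objects -/
def BO (P : Par) (H : SimpleGraph W) : Mode → SimpleGraph V → Set V → Prop
  | .S1, J, S => AS P H J S
  | _, J, S => TH P H J S

/-- the hypothesis of each case -/
def Case (P : Par) (H : SimpleGraph W) : Mode → Prop
  | .N1 => 4 ≤ P.vA ∧ ∃ S, RO P H .N1 H S
  | .N2 => P.vA = 3 ∧ ∃ S, RO P H .N2 H S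
  | .S1 => 4 ≤ P.vA ∧ ∀ S, ¬ RO P H .N1 H S
  | .S2 => P.vA = 3 ∧ ∀ S, ¬ RO P H .N2 H S

def Mode.IsN : Mode → Prop
  | .N1 => True
  | .N2 => True
  | _ => False

/-- the local convexity rule for blue classes -/
def Rule : Mode → SimpleGraph V → Set V → Prop
  | .S1, J, K => ∀ t ∈ K, ∀ C, Disjoint C K → (∀ x ∈ C, J.Adj t x) → ConnOn J.Adj C →
      {a | a ∈ K ∧ J.Adj t a ∧ ∃ x ∈ C, J.Adj a x}.Subsingleton
  | .S2, J, K => ∀ a ∈ K, ∀ b ∈ K, ∀ w, J.Adj a b → J.Adj a w → J.Adj b w → w ∈ K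
  | _, _, _ => True

/-- the vertices of `K` through which `K` touches `Y` -/
def Port (J : SimpleGraph V) (K Y : Set V) : Set V :=
  {p | p ∈ K ∧ (p ∈ Y ∨ ∃ q ∈ Y, q ∉ K ∧ J.Adj p q)}

/-- the union of the other classes -/
def Oth {L : Type} (K : L → Set V) (𝒮 : Set L) (l : L) : Set V :=
  {x | ∃ l' ∈ 𝒮, l' ≠ l ∧ x ∈ K l'}

/-- rooted peelability; `vr` is the set of admissible root vertices -/
def RP (J : SimpleGraph V) {L : Type} (K : L → Set V) (vr : Set V) : Prop :=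
  ∀ (𝒮 : Set L) (R0 : Set V), 𝒮.Nonempty →
    (R0 = ∅ ∨ (∃ l0, l0 ∉ 𝒮 ∧ R0 = K l0) ∨ ∃ r ∈ vr, R0 = {r}) →
    ∃ l ∈ 𝒮, (Port J (K l) (R0 ∪ Oth K 𝒮 l)).Subsingleton

/-- peelability with external ports -/
def RPX (J : SimpleGraph V) {L : Type} (K : L → Set V) (Ex : Set V → Prop) : Prop :=
  ∀ (𝒮 : Set L) (Pt : Set V), 𝒮.Nonempty → Ex Pt →
    ∃ l ∈ 𝒮, ((K l ∩ Pt) ∪ Port J (K l) (Oth K 𝒮 l)).Subsingleton

/-- an object with the vertices that have two neighbours in it -/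
def Ext (J : SimpleGraph V) (O : Set V) : Set V :=
  {w | w ∈ O ∨ ∃ a ∈ O, ∃ b ∈ O, a ≠ b ∧ J.Adj w a ∧ J.Adj w b}

/-- red weight set of a class -/
def RW (J : SimpleGraph V) (Ob : Set V → Prop) (K : Set V) : Set V :=
  {w | ∃ O, Ob O ∧ O ⊆ K ∧ w ∈ Ext J O}

/-- blue weight set of a class -/
def BW (Ob : Set V → Prop) (K : Set V) : Set V := {w | ∃ O, Ob O ∧ O ⊆ K ∧ w ∈ O}

/-- red family -/
structure IsRF (J : SimpleGraph V) (Ob : Set V → Prop) {L : Type} (K : L → Set V) : Prop where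
  cov : ∀ O, Ob O → ∃ l, O ⊆ K l
  rp : RP J K univ

/-- blue family -/
structure IsBF (m : Mode) (J : SimpleGraph V) (Ob : Set V → Prop) {L : Type} (K : L → Set V) :
    Prop where
  cov : ∀ O, Ob O → ∃ l, O ⊆ K l
  rp : RP J K ∅
  dis : ∀ l l', l ≠ l' → Disjoint (K l) (K l')
  rule : ∀ l, Rule m J (K l)

def RFam (P : Par) (H : SimpleGraph W) (m : Mode) (J : SimpleGraph V) (s : ℕ) : Prop :=
  ∃ (L : Type) (_ : Finite L) (K : L → Set V), IsRF J (RO P H m J) K ∧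
    ∀ l, (RW J (RO P H m J) (K l)).ncard ≤ s

def BFam (P : Par) (H : SimpleGraph W) (m : Mode) (J : SimpleGraph V) (s : ℕ) : Prop :=
  ∃ (L : Type) (_ : Finite L) (K : L → Set V), IsBF m J (BO P H m J) K ∧
    ∀ l, (BW (BO P H m J) (K l)).ncard ≤ s

end Families

section Frames
variable {V : Type}

/-- two vertices in a common bag -/
def Tog (N : Set (Set V)) (x y : V) : Prop := ∃ ν ∈ N, x ∈ ν ∧ y ∈ ν

/-- the attachment of `C` in `X` -/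
def At (N : Set (Set V)) (X C : Set V) : Set V := {w | w ∈ X ∧ ∃ c ∈ C, Tog N w c}

/-- small connected sets attach to `X` inside a link -/
def Thin (N : Set (Set V)) (Lk : Set V → Prop) (g : ℕ) (X : Set V) : Prop :=
  ∀ C : Set V, C.ncard ≤ g → Disjoint C X → ConnOn (Tog N) C →
    At N X C = ∅ ∨ ∃ ℓ, Lk ℓ ∧ At N X C ⊆ ℓ ∧ ℓ ⊆ X ∧ ∃ ν ∈ N, ℓ ⊆ ν ∧ (ν ∩ C).Nonempty

/-- vertices and edges as links -/
def GLk (G : SimpleGraph V) (ℓ : Set V) : Prop :=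
  (∃ v, ℓ = {v}) ∨ ∃ a b, G.Adj a b ∧ ℓ = {a, b}

/-- small connected sets that meet `X` and `Y` contain `u` -/
def Far (N : Set (Set V)) (k : ℕ) (X Y : Set V) (u : V) : Prop :=
  ∀ C : Set V, C.ncard ≤ k → ConnOn (Tog N) C → (C ∩ X).Nonempty → (C ∩ Y).Nonempty → u ∈ C

end Frames

/-- hypergraph with kinds of points and types of edges; `prof t i` is the number of points of
kind `i` on an edge of type `t` -/
structure MH {I T : Type} (prof : T → I → ℕ) where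
  V : Type
  E : Type
  [finV : Finite V]
  [finE : Finite E]
  kd : V → I
  ty : E → T
  mem : V → E → Prop
  shape : ∀ e i, {v | mem v e ∧ kd v = i}.ncard = prof (ty e) i

attribute [instance] MH.finV MH.finE

section Hyper
variable {I T : Type} {prof : T → I → ℕ}

def MH.Lin (F : MH prof) : Prop :=
  ∀ e e' u v, u ≠ v → F.mem u e → F.mem v e → F.mem u e' → F.mem v e' → e = e'

/-- no three different edges meet pairwise in three different points -/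
def MH.NoTri (F : MH prof) : Prop :=
  ∀ a b c d e f, a ≠ b → a ≠ c → b ≠ c → F.mem a d → F.mem b d → F.mem a e → F.mem c e →
    F.mem b f → F.mem c f → d = e ∨ d = f ∨ e = f

/-- an edge with its points -/
def MH.WB (F : MH prof) (d : F.E) : Set (F.V ⊕ F.E) :=
  {n | n = .inr d ∨ ∃ v, F.mem v d ∧ n = .inl v}

def MH.Lk (F : MH prof) (ℓ : Set (F.V ⊕ F.E)) : Prop :=
  (∃ v, ℓ = {.inl v}) ∨ ∃ d, ℓ = F.WB d

structure MEmb (F H : MH prof) where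
  v : F.V → H.V
  e : F.E → H.E
  v_inj : Injective v
  e_inj : Injective e
  kd_v : ∀ x, H.kd (v x) = F.kd x
  ty_e : ∀ d, H.ty (e d) = F.ty d
  mem_iff : ∀ y d, H.mem y (e d) ↔ ∃ x, F.mem x d ∧ v x = y

def MEmb.Bag {F H : MH prof} (φ : MEmb F H) : Set (H.V ⊕ H.E) := range (Sum.map φ.v φ.e)

/-- a tree-like system of copies -/
structure Good {F H : MH prof} {Q : Type} (φ : Q → MEmb F H) (g : ℕ) : Prop where
  lin : H.Lin
  str : ∀ p x y d, x ≠ y → H.mem ((φ p).v x) d → H.mem ((φ p).v y) d → ∃ d0, (φ p).e d0 = d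
  cov : ∀ n, ∃ p, n ∈ (φ p).Bag
  b2 : ∀ p q, p ≠ q → ∀ x y, x ≠ y → x ∈ (φ p).Bag → y ∈ (φ p).Bag → x ∈ (φ q).Bag →
    y ∈ (φ q).Bag → ∃ d, x ∈ H.WB d ∧ y ∈ H.WB d
  thin : ∀ p, Thin (range fun q => (φ q).Bag) H.Lk g (φ p).Bag

/-- Ramsey property for the types in `𝒯` -/
def MRam {F H : MH prof} {Q : Type} (φ : Q → MEmb F H) (κ : Type) (𝒯 : Set T) : Prop :=
  ∀ χ : H.E → κ, ∃ p, ∀ d d', F.ty d ∈ 𝒯 → F.ty d = F.ty d' → χ ((φ p).e d) = χ ((φ p).e d')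

end Hyper

/-- a coloured copy of the target graph -/
structure Bag (U V : Type) where
  f : U → V
  old : SimpleGraph U
  red : SimpleGraph U
  top : Prop

section Systems
variable {U V W X : Type}

def Nodes (Ls : Set (Set V)) (Bs : Set (Bag U V)) : Set (Set V) :=
  Ls ∪ {ν | ∃ β ∈ Bs, ν = range β.f}

/-- lower nodes and bags -/
structure Pre (A : SimpleGraph U) (G R : SimpleGraph V) (Ls : Set (Set V)) (Bs : Set (Bag U V))
    (g : ℕ) : Prop where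
  le : R ≤ G
  ind : ∀ β ∈ Bs, Ind A G β.f univ
  col : ∀ β ∈ Bs, ∀ a b, R.Adj (β.f a) (β.f b) ↔ β.red.Adj a b
  old : ∀ β ∈ Bs, β.old ≤ A
  cov : ∀ x y, G.Adj x y → (∃ L ∈ Ls, x ∈ L ∧ y ∈ L) ∨
    ∃ β ∈ Bs, ∃ a b, β.f a = x ∧ β.f b = y ∧ ¬ β.old.Adj a b
  thin : ∀ ν ∈ Nodes Ls Bs, Thin (Nodes Ls Bs) (GLk G) g ν
  lb : ∀ L ∈ Ls, ∀ β ∈ Bs, ∀ a b, a ≠ b → β.f a ∈ L → β.f b ∈ L → ¬ β.top ∧ β.old.Adj a b
  bb : ∀ β ∈ Bs, ∀ β' ∈ Bs, ∀ a b a' b', A.Adj a b → ¬ β.old.Adj a b → ¬ β'.old.Adj a' b' →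
    β.f a = β'.f a' → β.f b = β'.f b' → β = β' ∨ (β.top ∧ β'.top)
  low : ∀ β ∈ Bs, ¬ β.top → Mat β.old ∧ ∃ c, cc A β.red c = A \ β.old
  dis : ∀ L ∈ Ls, ∀ L' ∈ Ls, L ≠ L' → Disjoint L L'

/-- the parameters of the engine -/
structure EP (U : Type) where
  M : Bool → SimpleGraph U
  F : SimpleGraph U
  S : Set U

structure EP.Ok (E : EP U) (A : SimpleGraph U) : Prop where
  M_le : ∀ c, E.M c ≤ A
  mat : ∀ c, Mat (E.M c)
  F_le : E.F ≤ A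
  bip : Bip E.F

/-- the edges between `S` and its complement -/
def cutG (A : SimpleGraph U) (S : Set U) : SimpleGraph U where
  Adj a b := A.Adj a b ∧ (a ∈ S ↔ b ∉ S)
  symm := ⟨fun _ _ ⟨h, h'⟩ => ⟨h.symm, by tauto⟩⟩
  loopless := ⟨fun _ h => h.1.ne rfl⟩

/-- the edges that meet `S` -/
def covG (A : SimpleGraph U) (S : Set U) : SimpleGraph U where
  Adj a b := A.Adj a b ∧ (a ∈ S ∨ b ∈ S)
  symm := ⟨fun _ _ ⟨h, h'⟩ => ⟨h.symm, h'.symm⟩⟩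
  loopless := ⟨fun _ h => h.1.ne rfl⟩

/-- protecting bags -/
def Low (A : SimpleGraph U) (E : EP U) (old red : SimpleGraph U) (top : Prop) : Prop :=
  ¬ top ∧ red ≤ A ∧ ∃ c, old = E.M c ∧ cc A red c = A \ E.M c

/-- all kinds of bags -/
def Kind (A : SimpleGraph U) (E : EP U) (old red : SimpleGraph U) (top : Prop) : Prop :=
  Low A E old red top ∨ (top ∧ old = E.F ∧ red = A \ E.F) ∨
    (top ∧ old = ⊥ ∧ (red = cutG A E.S ∨ red = covG A E.S))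

/-- copies of the coloured graph `Γ` as lower nodes -/
structure Core (A : SimpleGraph U) (Γ RΓ : SimpleGraph X) (Hub : Set X) (G R : SimpleGraph V)
    (Gs : Set (X → V)) (Bs : Set (Bag U V)) (g : ℕ) : Prop where
  pre : Pre A G R (range '' Gs) Bs g
  gind : ∀ γ ∈ Gs, Ind Γ G γ univ
  gcol : ∀ γ ∈ Gs, ∀ a b, R.Adj (γ a) (γ b) ↔ RΓ.Adj a b
  gdis : ∀ γ ∈ Gs, ∀ γ' ∈ Gs, γ ≠ γ' → Disjoint (range γ) (range γ')
  hub : ∀ γ ∈ Gs, ∀ β ∈ Bs, ∀ a, ∀ x ∈ Hub, β.f a ≠ γ x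

/-- the copy of `Γ` through `u`, or `u` alone -/
def cell (Gs : Set (X → V)) (u : V) : Set V := {z | z = u ∨ ∃ γ ∈ Gs, u ∈ range γ ∧ z ∈ range γ}

/-- every colouring that agrees with `R` on `D` has a monochromatic `A` -/
def RamOn (A : SimpleGraph U) (G R D : SimpleGraph V) : Prop :=
  ∀ R', R' ≤ G → (∀ x y, D.Adj x y → (R'.Adj x y ↔ R.Adj x y)) → In A R' ∨ In A (G \ R')

/-- an intermediate level with pending edges `D` -/
structure Lev (A : SimpleGraph U) (E : EP U) (Γ RΓ : SimpleGraph X) (Hub : Set X)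
    (G R D : SimpleGraph V) (Gs : Set (X → V)) (Bs : Set (Bag U V)) (g : ℕ) : Prop where
  core : Core A Γ RΓ Hub G R Gs Bs g
  low : ∀ β ∈ Bs, Low A E β.old β.red β.top
  le : D ≤ G
  ram : RamOn A G R D
  hub : ∀ γ ∈ Gs, ∀ x ∈ Hub, ∀ y, ¬ D.Adj (γ x) y

/-- pending edges are far from the copies of `Γ` at their ends -/
def FarD (D : SimpleGraph V) (Gs : Set (X → V)) (Bs : Set (Bag U V)) (k : ℕ) : Prop :=
  ∀ u v, D.Adj u v → Far (Nodes (range '' Gs) Bs) k (cell Gs u) (cell Gs v) u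

/-- the final graph -/
structure Last (A : SimpleGraph U) (E : EP U) (Γ RΓ : SimpleGraph X) (Hub : Set X)
    (G R : SimpleGraph V) (Gs : Set (X → V)) (Bs : Set (Bag U V)) (g : ℕ) : Prop where
  core : Core A Γ RΓ Hub G R Gs Bs g
  kind : ∀ β ∈ Bs, Kind A E β.old β.red β.top
  ram : RamOn A G R ⊥

/-- the edges that avoid `Hub` -/
def offG (Γ : SimpleGraph X) (Hub : Set X) : SimpleGraph X where
  Adj a b := Γ.Adj a b ∧ a ∉ Hub ∧ b ∉ Hub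
  symm := ⟨fun _ _ ⟨h, h1, h2⟩ => ⟨h.symm, h2, h1⟩⟩
  loopless := ⟨fun _ h => h.1.ne rfl⟩

/-- a bag is harmless for `T`-chains of colour `c` -/
def Tok (P : Par) (H : SimpleGraph W) (A : SimpleGraph U) (c : Bool) (old red : SimpleGraph U)
    (top : Prop) : Prop :=
  (¬ top ∧ cc A red c = A \ old ∧ Bridge P H A old) ∨
    ((∀ S, ¬ TS P H (cc A red c) S) ∧ NoBack A old)

/-- `c` is an `α`-colour -/
def ColA (P : Par) (H : SimpleGraph W) (A : SimpleGraph U) (E : EP U) (c : Bool) : Prop :=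
  ∀ old red top, Kind A E old red top → ∀ S, ¬ AS P H (cc A red c) S

/-- `c` is a `T`-colour -/
def ColT (P : Par) (H : SimpleGraph W) (A : SimpleGraph U) (E : EP U) (c : Bool) : Prop :=
  ∀ old red top, Kind A E old red top →
    Tok P H A c old red top ∧ ∀ S, ¬ TH P H (cc A red c) S

/-- the colours of a case -/
def Cols (P : Par) (H : SimpleGraph W) (A : SimpleGraph U) (E : EP U) : Mode → Prop
  | .N1 => ColA P H A E true ∧ ColT P H A E false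
  | .S1 => ColA P H A E true ∧ ColA P H A E false
  | _ => ColT P H A E true ∧ ColT P H A E false

/-- the bags of the frame of bodies and red parts -/
def RBags (M : SimpleGraph U) (I : Set U) (Us Xs : Set (U → X)) : Set (Set X) :=
  {ν | (∃ υ ∈ Us, ν = υ '' M.supportᶜ) ∨ ∃ ξ ∈ Xs, ν = ξ '' Iᶜ}

/-- the shared points with their kinds -/
def Cells {Q : Type} (pt : U → Option Q) (Us : Set (U → X)) : Set (Q × Set X) :=
  {z | ∃ υ ∈ Us, z.2 = υ '' {u | pt u = some z.1}}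

def RLk {Q : Type} (pt : U → Option Q) (Us : Set (U → X)) (ℓ : Set X) : Prop :=
  (∃ v, ℓ = {v}) ∨ ∃ z ∈ Cells pt Us, ℓ = z.2

/-- units as bags -/
def UBags (M : SimpleGraph U) (Us : Set (U → X)) : Set (Bag U X) :=
  {β | β.f ∈ Us ∧ β.old = M ∧ β.red = M ∧ ¬ β.top}

/-- hubs, units and red parts -/
structure Gam {Q : Type} (A M : SimpleGraph U) (I : Set U) (pt : U → Option Q)
    (Γ RΓ : SimpleGraph X) (Hub : Set X) (Hs Us Xs : Set (U → X)) (g : ℕ) : Prop where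
  le : RΓ ≤ Γ
  hind : ∀ h ∈ Hs, Ind A Γ h univ
  hred : ∀ h ∈ Hs, ∀ a b, A.Adj a b → RΓ.Adj (h a) (h b)
  hub : ∀ x, x ∈ Hub ↔ ∃ h ∈ Hs, x ∈ range h
  hcl : ∀ h ∈ Hs, ∀ a y, RΓ.Adj (h a) y → y ∈ range h
  uind : ∀ υ ∈ Us, Ind A Γ υ univ
  ucol : ∀ υ ∈ Us, ∀ a b, RΓ.Adj (υ a) (υ b) ↔ M.Adj a b
  uhub : ∀ υ ∈ Us, ∀ a, υ a ∈ Hub ↔ a ∈ M.support
  xind : ∀ ξ ∈ Xs, Ind A Γ ξ Iᶜ
  xred : ∀ ξ ∈ Xs, ∀ a ∉ I, ∀ b ∉ I, A.Adj a b → RΓ.Adj (ξ a) (ξ b)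
  xhub : ∀ ξ ∈ Xs, ∀ a ∉ I, ξ a ∉ Hub
  rcov : ∀ x y, RΓ.Adj x y → x ∉ Hub → ∃ ξ ∈ Xs, x ∈ ξ '' Iᶜ ∧ y ∈ ξ '' Iᶜ
  bcov : ∀ x y, (Γ \ RΓ).Adj x y → ∃ υ ∈ Us, x ∈ range υ ∧ y ∈ range υ
  ram : RamOn A Γ RΓ (offG Γ Hub)
  thin : ∀ ν ∈ RBags M I Us Xs, Thin (RBags M I Us Xs) (RLk pt Us) g ν
  xx : ∀ ξ ∈ Xs, ∀ ξ' ∈ Xs, ξ ≠ ξ' → (ξ '' Iᶜ ∩ ξ' '' Iᶜ).Subsingleton
  xu : ∀ ξ ∈ Xs, ∀ υ ∈ Us, (ξ '' Iᶜ ∩ range υ).Subsingleton
  cel : ∀ z ∈ Cells pt Us, ∀ υ ∈ Us, (z.2 ∩ range υ).Nonempty →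
    z.2 = υ '' {u | pt u = some z.1}
  uu : ∀ υ ∈ Us, ∀ υ' ∈ Us, υ ≠ υ' → range υ ∩ range υ' = ∅ ∨
    (∃ h ∈ Hs, range υ ∩ range υ' ⊆ range h) ∨ ∃ z ∈ Cells pt Us, range υ ∩ range υ' ⊆ z.2
  tri : ∀ S, Tri (Γ \ RΓ) S → ∃ υ ∈ Us, S ⊆ range υ
  preB : (∀ u, pt u = none) → ∃ G' R' : SimpleGraph X, G' \ R' = Γ \ RΓ ∧
    Pre A G' R' (range '' Hs) (UBags M Us) g

end Systems

end Pool.Agent.MP_1c0fc2_co.RE

end

section

/-! The statements of the steps of the proof. -/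

open Function Set Relation

namespace Pool.Agent.MP_1c0fc2_co.RE

section More
variable {U V W X : Type}

def Arr (G : SimpleGraph V) (A : SimpleGraph U) : Prop := ∀ R, R ≤ G → In A R ∨ In A (G \ R)

/-- every finite Ramsey graph of `A` is a Ramsey graph of `B` -/
def Imp (A : SimpleGraph U) (B : SimpleGraph V) : Prop :=
  ∀ (Z : Type) [Finite Z] (G : SimpleGraph Z), Arr G A → Arr G B

/-- one top bag `range b` with lower systems `Z f` glued along some of its edges -/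
structure Star {Φ : Type} (G : SimpleGraph V) (b : X → V) (π : X → Set V) (Pn : Set X)
    (Z : Φ → Set V) (x y : Φ → X) (loc : Φ → Set (Set V)) (g : ℕ) : Prop where
  bπ : ∀ a, b a ∈ π a
  dis : ∀ a a', a ≠ a' → Disjoint (π a) (π a')
  sing : ∀ a ∉ Pn, π a = {b a}
  ne : ∀ f, x f ≠ y f
  xZ : ∀ f, π (x f) ⊆ Z f
  yZ : ∀ f, π (y f) ⊆ Z f
  oZ : ∀ f a, a ≠ x f → a ≠ y f → Disjoint (π a) (Z f)
  ZZ : ∀ f f', f ≠ f' → ∃ a, Z f ∩ Z f' ⊆ π a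
  sub : ∀ f, ∀ ν ∈ loc f, ν ⊆ Z f
  pn : ∀ f, ∀ a ∈ Pn, (a = x f ∨ a = y f) → π a ∈ loc f
  thin : ∀ f, ∀ ν ∈ loc f, Thin (loc f) (GLk G) g ν
  tog : ∀ f, Tog (loc f) (b (x f)) (b (y f))
  adj : ∀ f, G.Adj (b (x f)) (b (y f))
  farx : ∀ f, Far (loc f) (g + 1) (π (x f)) (π (y f)) (b (x f))
  fary : ∀ f, Far (loc f) (g + 1) (π (y f)) (π (x f)) (b (y f))

def StarN {Φ : Type} (b : X → V) (π : X → Set V) (Pn : Set X) (loc : Φ → Set (Set V)) :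
    Set (Set V) :=
  {ν | ν = range b ∨ (∃ a ∈ Pn, ν = π a) ∨ ∃ f, ν ∈ loc f}

/-- admissible sets of external ports -/
def ExP (Γ RΓ : SimpleGraph X) (Hub : Set X) (c : Bool) (Y Pt : Set X) : Prop :=
  Pt ⊆ Y ∧ (Pt.Subsingleton ∨
    ∃ a b, a ∉ Hub ∧ b ∉ Hub ∧ (cc Γ RΓ (!c)).Adj a b ∧ Pt ⊆ {a, b})

/-- peelability inside small sets that avoid `Av` -/
def LocRP (Γ RΓ : SimpleGraph X) (Hub : Set X) (c : Bool) {L : Type} (K : L → Set X) (vr : Prop)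
    (Av : Set X) (g : ℕ) : Prop :=
  ∀ Y : Set X, Y.ncard ≤ g → Disjoint Y Av →
    RP (cc Γ RΓ c) (fun l => K l ∩ Y) {r | vr ∧ r ∈ Y} ∧
    RPX (cc Γ RΓ c) (fun l => K l ∩ Y) (ExP Γ RΓ Hub c Y)

/-- the cone shape of the blue objects -/
def Shape : Mode → SimpleGraph V → Set V → Prop
  | .S1, J, S => 4 ≤ S.ncard ∧ ∃ w ∈ S, (∀ x ∈ S, x ≠ w → J.Adj w x) ∧
      ∀ x, ConnOn J.Adj (S \ {w, x})
  | .S2, J, S => 3 ≤ S.ncard ∧ ∃ w ∈ S, (∀ x ∈ S, x ≠ w → J.Adj w x) ∧ ConnOn J.Adj (S \ {w})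
  | _, _, _ => True

/-- blue classes of the middle graph -/
structure BlueG (P : Par) (H : SimpleGraph W) (m : Mode) (Γ RΓ : SimpleGraph X) (Hub : Set X)
    {L : Type} (K : L → Set X) (s g : ℕ) : Prop where
  cov : ∀ S, BO P H m (Γ \ RΓ) S → Shape m (Γ \ RΓ) S → ∃ l, S ⊆ K l
  wt : ∀ l, (BW (BO P H m (Γ \ RΓ)) (K l)).ncard ≤ s
  dis : ∀ l l', l ≠ l' → Disjoint (K l) (K l')
  rule : ∀ l, Rule m (Γ \ RΓ) (K l)
  rp : LocRP Γ RΓ Hub false K False ∅ g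

/-- small 2-connected sets with a red edge away from the hubs embed in `H` -/
def RTr (H : SimpleGraph W) (Γ RΓ : SimpleGraph X) (Hub : Set X) (g : ℕ) : Prop :=
  ∀ S : Set X, S.ncard ≤ g → Disjoint S Hub → TwoConn Γ S → (∃ a ∈ S, ∃ b ∈ S, RΓ.Adj a b) →
    ∃ h : X → W, IHo Γ H h S

/-- red classes of the middle graph -/
structure RedG (P : Par) (H : SimpleGraph W) (m : Mode) (Γ RΓ : SimpleGraph X) (Hub : Set X)
    {L : Type} (K : L → Set X) (s g : ℕ) : Prop where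
  cov : ∀ S, Disjoint S Hub → RO P H m RΓ S → ∃ l, S ⊆ K l
  wt : ∀ l, (RW RΓ (RO P H m RΓ) (K l)).ncard ≤ s
  red : ∀ l, ∀ a ∈ K l, ∀ b ∈ K l, Γ.Adj a b → RΓ.Adj a b
  rp : LocRP Γ RΓ Hub true K True Hub g

/-- the shared points in the cone cases -/
def IsPt {L : Type} (M : SimpleGraph U) (K : L → Set U) (pt : U → Option (L ⊕ U)) : Prop :=
  (∀ a ∈ M.support, pt a = none) ∧ (∀ l a, pt a = some (.inl l) ↔ a ∈ K l) ∧
    ∀ a ∉ M.support, (∀ l, a ∉ K l) → pt a = some (.inr a)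

/-- blue data on `A` after the choice of the slot edges -/
structure MData (P : Par) (H : SimpleGraph W) (m : Mode) (A M : SimpleGraph U) {L : Type}
    (K : L → Set U) (s : ℕ) : Prop where
  imat : IMat A M
  fam : IsBF m (A \ M) (BO P H m (A \ M)) K
  wt : ∀ l, (BW (BO P H m (A \ M)) (K l)).ncard ≤ s
  off : ∀ l, Disjoint (K l) M.support
  br : m.IsN → Bridge P H A M

/-- red data on `A` after the choice of the centres -/
structure VData (P : Par) (H : SimpleGraph W) (m : Mode) (A : SimpleGraph U) (I : Set U)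
    {L : Type} (K : L → Set U) (s : ℕ) : Prop where
  ind : Indp A I
  nc : NoCom A I
  fam : IsRF A (RO P H m A) K
  wt : ∀ l, (RW A (RO P H m A) (K l) \ I).ncard ≤ s

end More

/-! ### B. structure theory -/

def ParStmt : Prop := ∀ (W : Type) [Finite W] (H : SimpleGraph W), ¬ H.IsAcyclic →
  ∃ P : Par, P.Ok H

def EqStmt : Prop := ∀ (W V V' : Type) [Finite W] [Finite V] [Finite V'] (H : SimpleGraph W)
  (P : Par), P.Ok H → ∀ (J : SimpleGraph V) (J' : SimpleGraph V') (f : V → V') (h : V' → W)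
  (S : Set V), IHo J J' f S → IHo J' H h (f '' S) → (TS P H J S ∨ AS P H J S) →
  ∀ x ∈ S, ∀ y ∈ S, J'.Adj (f x) (f y) → J.Adj x y

def ROMonoStmt : Prop := ∀ (W V V' : Type) [Finite W] [Finite V] [Finite V'] (H : SimpleGraph W)
  (P : Par), P.Ok H → ∀ (m : Mode) (J : SimpleGraph V) (J' : SimpleGraph V') (f : V → V')
  (h : V' → W) (S : Set V), IHo J J' f S → IHo J' H h (f '' S) → RO P H m J S →
  RO P H m J' (f '' S)

def K3Stmt : Prop := ∀ (W V : Type) [Finite W] [Finite V] (H : SimpleGraph W) (P : Par), P.Ok H →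
  (3 ≤ P.vT ∧ P.vT ≤ P.vA ∧ P.vA ≤ Nat.card W ∧ P.θ ≤ Nat.card W) ∧
  ∀ (J : SimpleGraph V) (S : Set V), (Tri J S → ES H J S) ∧ (P.vT = 3 → (TS P H J S ↔ Tri J S)) ∧
    (P.vA = 3 → (AS P H J S ↔ Tri J S))

def NsepStmt : Prop := ∀ (W V : Type) [Finite W] [Finite V] (H : SimpleGraph W)
  (J : SimpleGraph V), In J H → ∀ S a b τ, RS H J S a b → Cq J τ →
  ConnOn J.Adj (S \ τ) ∧ (S \ τ).Nonempty

def AtomAStmt : Prop := ∀ (W V : Type) [Finite W] [Finite V] (H : SimpleGraph W) (P : Par),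
  P.Ok H → ∀ J : SimpleGraph V, In J H → Atoms J (Cq J) (AS P H J)

def AtomBStmt : Prop := ∀ (W V : Type) [Finite W] [Finite V] (H : SimpleGraph W) (P : Par)
  (J : SimpleGraph V), Atoms (TG P H J univ) Set.Subsingleton (MaxB P H J) ∧
  (∀ O S, MaxB P H J O → TS P H J S → ¬ (S ∩ O).Subsingleton → S ⊆ O) ∧
  (∀ O, MaxB P H J O → TwoConn (TG P H J O) O) ∧
  (P.Ok H → In J H → ∀ O, TH P H J O → MaxB P H J O)

/-- the conclusion about isolating edges -/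
def IEC {V : Type} (J : SimpleGraph V) (𝒯 : Set (Set V)) : Prop :=
  (∀ p q, ∃ y y', y ≠ p ∧ y ≠ q ∧ Iso J 𝒯 y y') ∧ ∀ r, ∃ y y', y ≠ r ∧ y' ≠ r ∧ Iso J 𝒯 y y'

def IE4Stmt : Prop := ∀ (W V : Type) [Finite W] [Finite V] (H : SimpleGraph W) (P : Par),
  P.Ok H → 4 ≤ P.vT → ∀ J : SimpleGraph V, In J H → ∀ 𝒯 : Set (Set V), 𝒯.Nonempty →
  (∀ S ∈ 𝒯, TS P H J S) → IEC J 𝒯

def EdgeStmt : Prop := ∀ (W : Type) [Finite W] (H : SimpleGraph W) (P : Par),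
  P.Ok H → P.vT = 3 → ∀ S : Set W, 2 ≤ S.ncard → ec H S + 6 ≤ 4 * S.ncard

def IE3Stmt : Prop := ∀ (W V : Type) [Finite W] [Finite V] (H : SimpleGraph W) (P : Par),
  P.Ok H → P.vT = 3 → ∀ J : SimpleGraph V, In J H → ∀ 𝒯 : Set (Set V), 𝒯.Nonempty →
  (∀ S ∈ 𝒯, TS P H J S) → IEC J 𝒯

def IEStmt : Prop := ∀ (W V : Type) [Finite W] [Finite V] (H : SimpleGraph W) (P : Par),
  P.Ok H → ∀ J : SimpleGraph V, In J H → ∀ 𝒯 : Set (Set V), 𝒯.Nonempty →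
  (∀ S ∈ 𝒯, TS P H J S) → IEC J 𝒯

def Col2Stmt : Prop := ∀ (W V : Type) [Finite W] [Finite V] (H : SimpleGraph W) (P : Par),
  P.Ok H → ∀ J : SimpleGraph V, In J H → ∀ 𝒯 : Set (Set V), (∀ S ∈ 𝒯, TS P H J S) →
  ∀ (χ0 : V → Bool) (p q : V), ∃ χ : V → Bool, χ p = χ0 p ∧ χ q = χ0 q ∧
    ∀ S ∈ 𝒯, ∃ a ∈ S, ∃ b ∈ S, χ a ≠ χ b

def L6Stmt : Prop := ∀ (W V : Type) [Finite W] [Finite V] (H : SimpleGraph W) (P : Par),
  P.Ok H → 4 ≤ P.vA → ∀ J : SimpleGraph V, In J H → ∃ Y : Set V,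
  (∀ S, TS P H J S → ¬ S ⊆ Y ∧ ¬ S ⊆ Yᶜ) ∧
  ∀ S, AS P H J S → ∃ a ∈ S, ∃ b ∈ S, a ∉ Y ∧ b ∉ Y ∧ J.Adj a b

def BrStmt : Prop := ∀ (V : Type) [Finite V] (Y : SimpleGraph V) (Al Ob : Set V → Prop),
  Atoms Y Al Ob → ∀ 𝒪 : Set (Set V), 𝒪.Nonempty → (∀ O ∈ 𝒪, Ob O) → ∀ c, ∃ O ∈ 𝒪, ∃ τ Br,
  Al τ ∧ Cut Y O τ Br ∧ c ∉ Br ∧ ∀ O' ∈ 𝒪, O' ≠ O → Disjoint O' Br

def EOStmt : Prop := ∀ (V : Type) [Finite V] (Y : SimpleGraph V) (Al Ob : Set V → Prop),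
  Atoms Y Al Ob → ∃ (ρ : Set V → ℕ) (τ Br : Set V → Set V),
  (∀ O O', Ob O → Ob O' → ρ O = ρ O' → O = O') ∧ (∀ O, Ob O → Al (τ O) ∧ Cut Y O (τ O) (Br O)) ∧
  ∀ O O', Ob O → Ob O' → ρ O < ρ O' → Disjoint O' (Br O)

def MAStmt : Prop := ∀ (V : Type) [Finite V] (Y : SimpleGraph V) (Ob : Set V → Prop),
  Atoms Y (Cq Y) Ob → (∀ O, Ob O → 4 ≤ O.ncard) →
  ∃ M, M ≤ Y ∧ Mat M ∧ ∀ O, Ob O → ∃ a ∈ O, ∃ b ∈ O, M.Adj a b

def IAStmt : Prop := ∀ (V : Type) [Finite V] (Y : SimpleGraph V) (Ob : Set V → Prop),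
  Atoms Y (Cq Y) Ob → ∃ I, Indp Y I ∧ ∀ O, Ob O → ∃ v, O ∩ I = {v}

def FPStmt : Prop := ∀ (V : Type) [Finite V] (Y : SimpleGraph V), Atoms Y (Cq Y) (Tri Y) →
  ∃ F, F ≤ Y ∧ Bip F ∧ NoBack Y F ∧ ∀ O, Tri Y O → ∃ a ∈ O, ∃ b ∈ O, F.Adj a b

def BridgeStmt : Prop := ∀ (W V : Type) [Finite W] [Finite V] (H : SimpleGraph W) (P : Par),
  P.Ok H → ∀ J M : SimpleGraph V, In J H →
  (∀ O y y', M.Adj y y' → y ∈ O → Iso J {S | S ⊆ O ∧ TS P H J S} y y' →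
    ¬ TwoConn (TG P H (J \ M) O) O) ∧
  (Mat M → (∀ a b, M.Adj a b → ∃ O y y', MaxB P H J O ∧ s(y, y') = s(a, b) ∧
    Iso J {S | S ⊆ O ∧ TS P H J S} y y') → Bridge P H J M)

def MIStmt : Prop := ∀ (W V : Type) [Finite W] [Finite V] (H : SimpleGraph W) (P : Par),
  P.Ok H → ∀ J : SimpleGraph V, In J H →
  ∃ M, M ≤ J ∧ Mat M ∧ Bridge P H J M ∧ ∀ S, ¬ TH P H (J \ M) S

def ConeStmt : Prop := ∀ (W V : Type) [Finite W] [Finite V] (H : SimpleGraph W) (P : Par),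
  P.Ok H → ∀ m, Case P H m → ∀ J : SimpleGraph V, In J H → ∀ S, BO P H m J S →
  Shape m J S ∧ (m = .S1 → ES H J S)

/-! ### families -/

def RPStmt : Prop := ∀ (V L : Type) [Finite V] [Finite L] (J : SimpleGraph V) (K : L → Set V)
  (vr : Set V),
  (RP J K vr → ∀ (J' : SimpleGraph V) (Y : Set V), J' ≤ J → RP J' (fun l => K l ∩ Y) (vr ∩ Y)) ∧
  ((∀ (𝒮 : Set L) (R0 : Set V), 𝒮.Nonempty → ((∃ l0, l0 ∉ 𝒮 ∧ R0 = K l0) ∨ ∃ r ∈ vr, R0 = {r}) →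
    ∃ l ∈ 𝒮, (Port J (K l) (R0 ∪ Oth K 𝒮 l)).Subsingleton) → RP J K vr) ∧
  (RP J K vr → (∀ l l', l ≠ l' → Disjoint (K l) (K l')) → RPX J K Set.Subsingleton) ∧
  (RP J K vr → RPX J K fun Pt => Pt.Subsingleton ∧ Pt ⊆ vr) ∧
  (RP J K vr → Nonempty V → ∃ c : L → V, ∀ l l', l ≠ l' →
    Port J (K l) (K l') ⊆ {c l} ∨ Port J (K l') (K l) ⊆ {c l'})

def SplitStmt : Prop := ∀ (V L : Type) [Finite V] [Finite L] (J : SimpleGraph V)
  (Ob : Set V → Prop) (K : L → Set V), IsRF J Ob K → (∀ O, Ob O → ConnOn J.Adj O ∧ O.Nonempty) →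
  ∃ (L' : Type) (_ : Finite L') (K' : L' → Set V), IsRF J Ob K' ∧ (∀ l', ConnOn J.Adj (K' l')) ∧
    ∀ l', ∃ l, K' l' ⊆ K l

def V0AbsStmt : Prop := ∀ (V L : Type) [Finite V] [Finite L] (J : SimpleGraph V)
  (A0 Ob : Set V → Prop) (K : L → Set V), Atoms J (Cq J) A0 → (∀ D, A0 D → ¬ D.Subsingleton) →
  (∀ O, Ob O → O.Nonempty) →
  (∀ O x, Ob O → ∃ D, D ⊆ O ∧ A0 D ∧ (x ∉ D ∨ ∃ v ∈ D, v ≠ x ∧ ¬ J.Adj x v)) →
  RP J K univ → (∀ l, ConnOn J.Adj (K l)) →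
  ∃ I, Indp J I ∧ NoCom J I ∧ ∀ l, (∃ O, Ob O ∧ O ⊆ K l) → (I ∩ RW J Ob (K l)).Nonempty

def V0Stmt : Prop := ∀ (W U : Type) [Finite W] [Finite U] (H : SimpleGraph W) (P : Par),
  P.Ok H → ∀ m, m.IsN → Case P H m → ∀ A : SimpleGraph U, In A H → ∀ s, RFam P H m A (s + 1) →
  ∃ (I : Set U) (L : Type) (_ : Finite L) (K : L → Set U), VData P H m A I K s

def M0AStmt : Prop := ∀ (W U : Type) [Finite W] [Finite U] (H : SimpleGraph W) (P : Par),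
  P.Ok H → Case P H .S1 → ∀ A : SimpleGraph U, In A H → ∀ s, BFam P H .S1 A (s + 1) →
  ∃ (M : SimpleGraph U) (L : Type) (_ : Finite L) (K : L → Set U), MData P H .S1 A M K s

def M0TStmt : Prop := ∀ (W U : Type) [Finite W] [Finite U] (H : SimpleGraph W) (P : Par),
  P.Ok H → ∀ m, m ≠ .S1 → Case P H m → ∀ A : SimpleGraph U, In A H → ∀ s,
  BFam P H m A (s + 1) →
  ∃ (M : SimpleGraph U) (L : Type) (_ : Finite L) (K : L → Set U), MData P H m A M K s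

def PullBStmt : Prop := ∀ (W V Z L : Type) [Finite W] [Finite V] [Finite Z] [Finite L]
  (H : SimpleGraph W) (P : Par) (m : Mode) (B : SimpleGraph V) (Y : SimpleGraph Z) (φ : V → Z)
  (K : L → Set Z) (s : ℕ), IH B Y φ → (∀ O, BO P H m B O → ∃ l, φ '' O ⊆ K l) →
  RP Y (fun l => K l ∩ range φ) ∅ → (∀ l l', l ≠ l' → Disjoint (K l) (K l')) →
  (∀ l, Rule m Y (K l)) →
  (∀ l, ∃ D : Set Z, D.ncard ≤ s ∧ ∀ O, BO P H m B O → φ '' O ⊆ K l → φ '' O ⊆ D) →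
  BFam P H m B s

def PullRStmt : Prop := ∀ (W V Z L : Type) [Finite W] [Finite V] [Finite Z] [Finite L]
  (H : SimpleGraph W) (P : Par) (m : Mode) (B : SimpleGraph V) (Y : SimpleGraph Z) (φ : V → Z)
  (K : L → Set Z) (s : ℕ), IH B Y φ → (∀ O, RO P H m B O → ∃ l, φ '' O ⊆ K l) →
  RP Y (fun l => K l ∩ range φ) (range φ) →
  (∀ l, ∃ D : Set Z, D.ncard ≤ s ∧ ∀ O, RO P H m B O → φ '' O ⊆ K l → φ '' Ext B O ⊆ D) →
  RFam P H m B s

def FamStmt : Prop := ∀ (W U V : Type) [Finite W] [Finite U] [Finite V] (H : SimpleGraph W)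
  (P : Par) (m : Mode) (A : SimpleGraph U) (B : SimpleGraph V),
  (In B A → ∀ s, BFam P H m A s → BFam P H m B s) ∧
  BFam P H m A (Nat.card U) ∧ RFam P H m A (Nat.card U) ∧
  ((∃ O, BO P H m A O) → ¬ BFam P H m A 0) ∧ ((∃ O, RO P H m A O) → ¬ RFam P H m A 0)

/-! ### C. frames -/

def LeafStmt : Prop := ∀ (V : Type) [Finite V] (N : Set (Set V)) (Lk : Set V → Prop) (g : ℕ),
  (∀ ν ∈ N, Thin N Lk g ν) → ∀ Z : Set V, Z.ncard ≤ g → (∀ z ∈ Z, ∃ ν ∈ N, z ∈ ν) →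
  ∀ ν0 ∈ N, Z ⊆ ν0 ∨ ∃ μ ∈ N, ∃ ℓ, (ℓ = ∅ ∨ Lk ℓ) ∧ ℓ ⊆ μ ∧ ((Z ∩ μ) \ ℓ).Nonempty ∧
    ∀ s ∈ (Z ∩ μ) \ ℓ, s ∉ ν0 ∧ ∀ z ∈ Z, Tog N s z → z ∈ μ

def ProjStmt : Prop := ∀ (V : Type) [Finite V] (N N' : Set (Set V)) (Lk : Set V → Prop) (n : ℕ)
  (X C : Set V), Thin N Lk n X → (∀ x y, x ≠ y → x ∈ X → y ∈ X → Tog N x y → Tog N' x y) →
  (C \ X).ncard ≤ n → ConnOn (Tog N) C → ConnOn (Tog N') (C ∩ X) ∧
    ∀ w ∈ X, w ∉ C → (∃ c ∈ C, Tog N w c) → (C ∩ X).Nonempty → ∃ c ∈ C ∩ X, Tog N' w c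

def LocalStmt : Prop := ∀ (V : Type) [Finite V] (N N' : Set (Set V)) (Lk : Set V → Prop) (g : ℕ)
  (X Y : Set V), Thin N Lk g X → N' ⊆ N →
  (∀ x y, x ≠ y → x ∈ X → y ∈ X → Tog N x y → Tog N' x y) → Y ⊆ X → Thin N' Lk g Y →
  (∀ ℓ, Lk ℓ → ℓ ∩ Y = ∅ ∨ Lk (ℓ ∩ Y)) → Thin N Lk g Y

def GlueStmt : Prop := ∀ (N0 V Q : Type) [Finite N0] [Finite V] (B : Q → Set N0)
  (Lk0 : Set N0 → Prop) (own : V → Option N0) (X : Q → Set V) (loc : Q → Set (Set V))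
  (Lk : Set V → Prop) (g : ℕ), (∀ p, Thin (range B) Lk0 g (B p)) →
  (∀ p q, p ≠ q → B p ∩ B q = ∅ ∨ ∃ ℓ, Lk0 ℓ ∧ B p ∩ B q ⊆ ℓ ∧ ℓ ⊆ B p ∧ ℓ ⊆ B q) →
  (∀ x n p, own x = some n → (x ∈ X p ↔ n ∈ B p)) →
  (∀ x p q, own x = none → x ∈ X p → x ∈ X q → p = q) →
  (∀ p, ∀ ν ∈ loc p, ν ⊆ X p) →
  (∀ p q x y, x ≠ y → x ∈ X p → y ∈ X p → Tog (loc q) x y → Tog (loc p) x y) →
  (∀ p ℓ, Lk0 ℓ → ℓ ⊆ B p → Thin (loc p) Lk g {x | ∃ n ∈ ℓ, own x = some n}) →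
  ∀ p, Thin (⋃ q, loc q) Lk g (X p)

def PartsStmt : Prop := ∀ (V Q : Type) [Finite V] (X : Q → Set V) (loc : Q → Set (Set V))
  (Lk : Set V → Prop) (g : ℕ), (∀ p, ∀ ν ∈ loc p, ν ⊆ X p) →
  (∀ p q, p ≠ q → Disjoint (X p) (X q)) → ∀ p Y, Y ⊆ X p → Thin (loc p) Lk g Y →
  Thin (⋃ q, loc q) Lk g Y

def PairStmt : Prop := ∀ (V : Type) [Finite V] (N : Set (Set V)) (G : SimpleGraph V) (g : ℕ),
  (∀ ν ∈ N, Thin N (GLk G) g ν) → ∀ (u v : V) (C : Set V), u ≠ v → Tog N u v → C.ncard ≤ g →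
  ConnOn (Tog N) C → u ∉ C → v ∉ C → (∃ c ∈ C, Tog N u c) → (∃ c ∈ C, Tog N v c) →
  ∃ ν ∈ N, u ∈ ν ∧ v ∈ ν ∧ (ν ∩ C).Nonempty

def MapStmt : Prop := ∀ (V V' : Type) [Finite V] [Finite V'] (f : V → V') (N : Set (Set V))
  (g : ℕ), Injective f →
  (∀ (Lk : Set V → Prop) (Lk' : Set V' → Prop) (Y : Set V), (∀ ℓ, Lk ℓ → Lk' (f '' ℓ)) →
    Thin N Lk g Y → Thin (image f '' N) Lk' g (f '' Y)) ∧
  ∀ X Y u, Far N g X Y u → Far (image f '' N) g (f '' X) (f '' Y) (f u)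

def StarStmt : Prop := ∀ (V X Φ : Type) [Finite V] (G : SimpleGraph V) (b : X → V)
  (π : X → Set V) (Pn : Set X) (Z : Φ → Set V) (x y : Φ → X) (loc : Φ → Set (Set V)) (g : ℕ),
  Star G b π Pn Z x y loc g →
  (∀ ν ∈ StarN b π Pn loc, Thin (StarN b π Pn loc) (GLk G) g ν) ∧
  (∀ f, Thin (StarN b π Pn loc) (GLk G) g (Z f)) ∧
  (∀ a, Thin (StarN b π Pn loc) (GLk G) g (π a)) ∧
  ∀ a a', G.Adj (b a) (b a') → (∀ f, ¬ (x f = a ∧ y f = a') ∧ ¬ (x f = a' ∧ y f = a)) →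
    Thin (StarN b π Pn loc) (GLk G) g (π a ∪ π a')

def LinkStmt : Prop := ∀ (I T : Type) (prof : T → I → ℕ) (F H : MH prof) (Q : Type)
  (φ : Q → MEmb F H) (g : ℕ), Good φ g →
  (∀ p q, p ≠ q → (φ p).Bag ∩ (φ q).Bag = ∅ ∨ ∃ ℓ, H.Lk ℓ ∧ (φ p).Bag ∩ (φ q).Bag ⊆ ℓ ∧
    ℓ ⊆ (φ p).Bag ∧ ℓ ⊆ (φ q).Bag) ∧
  (∀ ℓ, H.Lk ℓ → Thin (range fun q => (φ q).Bag) H.Lk g ℓ) ∧
  (1 ≤ g → F.NoTri → H.NoTri)

def MT1Stmt : Prop := ∀ (I T : Type) [Finite I] [Finite T] (prof : T → I → ℕ) (F : MH prof),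
  F.Lin → ∀ (t : T) (κ : Type) [Finite κ] [Nonempty κ] (g : ℕ),
  ∃ (H : MH prof) (Q : Type) (_ : Finite Q) (φ : Q → MEmb F H), Good φ g ∧ MRam φ κ {t}

def MTStmt : Prop := ∀ (I T : Type) [Finite I] [Finite T] (prof : T → I → ℕ) (F : MH prof),
  F.Lin → ∀ (κ : Type) [Finite κ] [Nonempty κ] (g : ℕ),
  ∃ (H : MH prof) (Q : Type) (_ : Finite Q) (φ : Q → MEmb F H), Good φ g ∧ MRam φ κ univ

def MT0Stmt : Prop := ∀ (X κ : Type) [Finite X] [Finite κ] [Nonempty κ] (g : ℕ),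
  ∃ (Z Q : Type) (_ : Finite Z) (_ : Finite Q) (φ : Q → X → Z), (∀ p, Injective (φ p)) ∧
    (∀ χ : Z → κ, ∃ p, ∀ x x', χ (φ p x) = χ (φ p x')) ∧
    (∀ p q, p ≠ q → (range (φ p) ∩ range (φ q)).Subsingleton) ∧ (∀ n, ∃ p x, φ p x = n) ∧
    ∀ p, Thin (range fun q => range (φ q)) (fun ℓ => ∃ v, ℓ = {v}) g (range (φ p))

/-! ### D. constructions -/

def HostStmt : Prop := ∀ (U : Type) [Finite U] (A : SimpleGraph U) (g : ℕ),
  ∃ (V : Type) (_ : Finite V) (G : SimpleGraph V) (Bs : Set (Bag U V)),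
    Pre A G ⊥ ∅ Bs g ∧ Arr G A

def ProtStmt : Prop := ∀ (U X V : Type) [Finite U] [Finite X] [Finite V] (A : SimpleGraph U)
  (E : EP U) (Γ RΓ : SimpleGraph X) (Hub : Set X) (G R D : SimpleGraph V) (Gs : Set (X → V))
  (Bs : Set (Bag U V)) (g k : ℕ) (c : Bool), E.Ok A → k + 2 ≤ g → Lev A E Γ RΓ Hub G R D Gs Bs g →
  FarD D Gs Bs k → ∃ (V' : Type) (_ : Finite V') (G' R' D' : SimpleGraph V') (Gs' : Set (X → V'))
    (Bs' : Set (Bag U V')), Lev A E Γ RΓ Hub G' R' D' Gs' Bs' g ∧ D' ≤ cc G' R' (!c) ∧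
    (D ≤ cc G R c → FarD D' Gs' Bs' (k + 1))

def CloseStmt : Prop := ∀ (U X V : Type) [Finite U] [Finite X] [Finite V] (A : SimpleGraph U)
  (E : EP U) (Γ RΓ : SimpleGraph X) (Hub : Set X) (G R D : SimpleGraph V) (Gs : Set (X → V))
  (Bs : Set (Bag U V)) (g : ℕ), E.Ok A → Lev A E Γ RΓ Hub G R D Gs Bs g → D ≤ G \ R →
  FarD D Gs Bs (g + 1) → ∃ (V' : Type) (_ : Finite V') (G' R' : SimpleGraph V')
    (Gs' : Set (X → V')) (Bs' : Set (Bag U V')), Last A E Γ RΓ Hub G' R' Gs' Bs' g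

def EngineStmt : Prop := ∀ (U X : Type) [Finite U] [Finite X] (A : SimpleGraph U) (E : EP U)
  (Γ RΓ : SimpleGraph X) (Hub : Set X) (g : ℕ), E.Ok A → RΓ ≤ Γ → RamOn A Γ RΓ (offG Γ Hub) →
  ∃ (V : Type) (_ : Finite V) (G R : SimpleGraph V) (Gs : Set (X → V)) (Bs : Set (Bag U V)),
    Last A E Γ RΓ Hub G R Gs Bs g

def GamStmt : Prop := ∀ (U Q : Type) [Finite U] [Finite Q] (A M : SimpleGraph U) (I : Set U)
  (pt : U → Option Q) (g : ℕ), IMat A M → Indp A I → (∀ a ∈ M.support, pt a = none) →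
  (∀ u ∉ M.support, pt u = none → NoCom A I) →
  ∃ (X : Type) (_ : Finite X) (Γ RΓ : SimpleGraph X) (Hub : Set X) (Hs Us Xs : Set (U → X)),
    Gam A M I pt Γ RΓ Hub Hs Us Xs g

/-! ### E. analysis of thin systems -/

def ESNodeStmt : Prop := ∀ (W U V : Type) [Finite W] [Finite U] [Finite V] (H : SimpleGraph W)
  (A : SimpleGraph U) (G R : SimpleGraph V) (Ls : Set (Set V)) (Bs : Set (Bag U V)) (g : ℕ),
  In A H → Pre A G R Ls Bs g → ∀ J, J ≤ G → ∀ S : Set V, S.ncard ≤ g →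
  (ES H J S → (∃ L ∈ Ls, S ⊆ L) ∨ ∃ β ∈ Bs, S ⊆ range β.f) ∧
  ∀ a b, RS H J S a b → (∃ β ∈ Bs, S ⊆ range β.f) ∨ ∃ L ∈ Ls, a ∈ L ∧ b ∈ L ∧
    TwoConn G (S ∩ L) ∧ ∀ h : V → W, IHo G H h (S ∩ L) → S ⊆ L

def TwoNbStmt : Prop := ∀ (U V : Type) [Finite U] [Finite V]
  (A : SimpleGraph U) (G R : SimpleGraph V) (Ls : Set (Set V)) (Bs : Set (Bag U V)) (g : ℕ),
  1 ≤ g → Pre A G R Ls Bs g → ∀ c, ∀ L ∈ Ls, ∀ w ∉ L, ∀ a ∈ L, ∀ b ∈ L, a ≠ b →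
  (cc G R c).Adj w a → (cc G R c).Adj w b → (cc G R (!c)).Adj a b

def ThNodeStmt : Prop := ∀ (W U V : Type) [Finite W] [Finite U] [Finite V] (H : SimpleGraph W)
  (P : Par) (A : SimpleGraph U) (G R : SimpleGraph V) (Ls : Set (Set V)) (Bs : Set (Bag U V))
  (g : ℕ) (c : Bool), In A H → P.vT ≤ g → Pre A G R Ls Bs g →
  (∀ β ∈ Bs, Tok P H A c β.old β.red β.top) → ∀ S : Set V, S.ncard ≤ g →
  TwoConn (TG P H (cc G R c) univ) S → (∃ L ∈ Ls, S ⊆ L) ∨ ∃ β ∈ Bs, S ⊆ range β.f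

def PiStmt : Prop := ∀ (U V : Type) [Finite U] [Finite V]
  (A : SimpleGraph U) (G R : SimpleGraph V) (Ls : Set (Set V)) (Bs : Set (Bag U V)) (g : ℕ),
  Pre A G R Ls Bs g → ∀ (c : Bool) (𝒢 : Set (Set V)), 𝒢 ⊆ Ls → 𝒢.Nonempty →
  ∀ ν0 ∈ Nodes Ls Bs, ν0 ∉ 𝒢 → ∀ Y : Set V, Y.ncard ≤ g → Y ⊆ ν0 ∪ ⋃₀ 𝒢 →
  ∃ L ∈ 𝒢, {p | p ∈ Y ∩ L ∧ ∃ q ∈ Y \ L, (cc G R c).Adj p q}.Subsingleton ∨
    ∃ a b, (cc G R (!c)).Adj a b ∧ {p | p ∈ Y ∩ L ∧ ∃ q ∈ Y \ L, (cc G R c).Adj p q} = {a, b}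

def RPGStmt : Prop := ∀ (U X V L : Type) [Finite U] [Finite X] [Finite V] [Finite L]
  (A : SimpleGraph U) (Γ RΓ : SimpleGraph X) (Hub : Set X) (G R : SimpleGraph V)
  (Gs : Set (X → V)) (Bs : Set (Bag U V)) (g : ℕ) (c : Bool) (K : L → Set X) (vr : Prop)
  (Av : Set X), Core A Γ RΓ Hub G R Gs Bs g → LocRP Γ RΓ Hub c K vr Av g →
  ∀ Y : Set V, Y.ncard ≤ g → (∀ r ∈ Y, ∃ q, G.Adj r q) → (∀ γ ∈ Gs, ∀ x ∈ Av, γ x ∉ Y) →
  RP (cc G R c) (fun z : Gs × L => z.1.1 '' K z.2 ∩ Y) {r | vr ∧ r ∈ Y}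

/-! ### F. the cases -/

def ParamStmt : Prop := ∀ (W U : Type) [Finite W] [Finite U] (H : SimpleGraph W) (P : Par),
  P.Ok H → ∀ m, Case P H m → ∀ A : SimpleGraph U, In A H → ∃ E : EP U, E.Ok A ∧ Cols P H A E m

def LocStmt : Prop := ∀ (W U X V : Type) [Finite W] [Finite U] [Finite X] [Finite V]
  (H : SimpleGraph W) (P : Par), P.Ok H → ∀ (A : SimpleGraph U) (E : EP U) (Γ RΓ : SimpleGraph X)
  (Hub : Set X) (G R : SimpleGraph V) (Gs : Set (X → V)) (Bs : Set (Bag U V)) (g : ℕ) (c : Bool),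
  In A H → Nat.card W ≤ g → Last A E Γ RΓ Hub G R Gs Bs g → ∀ S : Set V,
  (ColT P H A E c → TH P H (cc G R c) S → ∃ γ ∈ Gs, S ⊆ range γ) ∧
  (ColA P H A E c → AS P H (cc G R c) S → ES H (cc G R c) S → ∃ γ ∈ Gs, S ⊆ range γ) ∧
  (ColA P H A E c → AS P H (cc G R c) S → ∃ γ ∈ Gs, (∃ a b, γ a ∈ S ∧ γ b ∈ S ∧
    (cc Γ RΓ c).Adj a b) ∧ TwoConn Γ (γ ⁻¹' S) ∧ ∀ h : X → W, IHo Γ H h (γ ⁻¹' S) → S ⊆ range γ)

def RedLocStmt : Prop := ∀ (W U X V Z : Type) [Finite W] [Finite U] [Finite X] [Finite V]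
  [Finite Z] (H : SimpleGraph W) (P : Par), P.Ok H → ∀ (m : Mode) (A : SimpleGraph U) (E : EP U)
  (Γ RΓ : SimpleGraph X) (Hub : Set X) (G R : SimpleGraph V) (Gs : Set (X → V))
  (Bs : Set (Bag U V)) (g : ℕ) (B : SimpleGraph Z) (φ : Z → V), In A H → Nat.card W ≤ g →
  Last A E Γ RΓ Hub G R Gs Bs g → Cols P H A E m → RTr H Γ RΓ Hub g → IH B R φ →
  (∀ γ ∈ Gs, ∀ x ∈ Hub, γ x ∉ range φ) → ∀ O, RO P H m B O →
  ∃ γ ∈ Gs, φ '' O ⊆ range γ ∧ RO P H m RΓ (γ ⁻¹' (φ '' O))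

def RedLiftStmt : Prop := ∀ (W U X V Z L : Type) [Finite W] [Finite U] [Finite X] [Finite V]
  [Finite Z] [Finite L] (H : SimpleGraph W) (P : Par), P.Ok H → ∀ (m : Mode) (A : SimpleGraph U)
  (E : EP U) (Γ RΓ : SimpleGraph X) (Hub : Set X) (G R : SimpleGraph V) (Gs : Set (X → V))
  (Bs : Set (Bag U V)) (g : ℕ) (B : SimpleGraph Z) (φ : Z → V) (K : L → Set X) (s : ℕ), In A H →
  In B H → (∀ z, ∃ z', B.Adj z z') → Nat.card W ≤ g → Last A E Γ RΓ Hub G R Gs Bs g →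
  Cols P H A E m → RTr H Γ RΓ Hub g → RedG P H m Γ RΓ Hub K s g → IH B R φ →
  (∀ γ ∈ Gs, ∀ x ∈ Hub, γ x ∉ range φ) → RFam P H m B s

def BlueLiftStmt : Prop := ∀ (W U X V Z L : Type) [Finite W] [Finite U] [Finite X] [Finite V]
  [Finite Z] [Finite L] (H : SimpleGraph W) (P : Par), P.Ok H → ∀ (m : Mode), Case P H m →
  ∀ (A : SimpleGraph U) (E : EP U) (Γ RΓ : SimpleGraph X) (Hub : Set X) (G R : SimpleGraph V)
  (Gs : Set (X → V)) (Bs : Set (Bag U V)) (g : ℕ) (B : SimpleGraph Z) (φ : Z → V)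
  (K : L → Set X) (s : ℕ), In A H → In B H → (∀ z, ∃ z', B.Adj z z') → Nat.card W ≤ g →
  Last A E Γ RΓ Hub G R Gs Bs g → Cols P H A E m → BlueG P H m Γ RΓ Hub K s g →
  IH B (G \ R) φ → BFam P H m B s

def HubStmt : Prop := ∀ (U X V Z Q : Type) [Finite U] [Finite X] [Finite V] [Finite Z]
  (A M : SimpleGraph U) (I : Set U) (pt : U → Option Q) (Γ RΓ : SimpleGraph X) (Hub : Set X)
  (Hs Us Xs : Set (U → X)) (G R : SimpleGraph V) (Gs : Set (X → V)) (Bs : Set (Bag U V))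
  (g g' : ℕ) (B : SimpleGraph Z) (φ : Z → V), Gam A M I pt Γ RΓ Hub Hs Us Xs g →
  Core A Γ RΓ Hub G R Gs Bs g' → B.Connected → IH B R φ → ∀ γ ∈ Gs, ∀ x ∈ Hub, γ x ∈ range φ →
  In B A

def GXStmt : Prop := ∀ (U X Q : Type) [Finite U] [Finite X] (A M : SimpleGraph U) (I : Set U)
  (pt : U → Option Q) (Γ RΓ : SimpleGraph X) (Hub : Set X) (Hs Us Xs : Set (U → X)) (g : ℕ),
  Gam A M I pt Γ RΓ Hub Hs Us Xs g →
  (∀ S : Set X, S.ncard ≤ g → Disjoint S Hub → TwoConn Γ S → (∃ a ∈ S, ∃ b ∈ S, RΓ.Adj a b) →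
    ∃ ξ ∈ Xs, S ⊆ ξ '' Iᶜ) ∧
  (1 ≤ g → ∀ ξ ∈ Xs, ∀ a ∈ ξ '' Iᶜ, ∀ b ∈ ξ '' Iᶜ, a ≠ b → ∀ w, RΓ.Adj w a → RΓ.Adj w b →
    w ∈ ξ '' Iᶜ)

def GRedRPStmt : Prop := ∀ (U X Q L : Type) [Finite U] [Finite X] [Finite L]
  (A M : SimpleGraph U) (I : Set U) (Γ RΓ : SimpleGraph X) (Hub : Set X) (Hs Us Xs : Set (U → X))
  (g : ℕ) (K : L → Set U), Gam A M I (fun _ => (none : Option Q)) Γ RΓ Hub Hs Us Xs g →
  RP A K univ → LocRP Γ RΓ Hub true (fun z : Xs × L => z.1.1 '' (K z.2 \ I)) True Hub g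

def GRedStmt : Prop := ∀ (W U X Q L : Type) [Finite W] [Finite U] [Finite X] [Finite L]
  (H : SimpleGraph W) (P : Par), P.Ok H → ∀ (m : Mode) (A M : SimpleGraph U) (I : Set U)
  (Γ RΓ : SimpleGraph X) (Hub : Set X) (Hs Us Xs : Set (U → X)) (g : ℕ) (K : L → Set U) (s : ℕ),
  In A H → Nat.card W ≤ g → Gam A M I (fun _ => (none : Option Q)) Γ RΓ Hub Hs Us Xs g →
  VData P H m A I K s → RedG P H m Γ RΓ Hub (fun z : Xs × L => z.1.1 '' (K z.2 \ I)) s g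

def GBlueNStmt : Prop := ∀ (W U X Q L : Type) [Finite W] [Finite U] [Finite X] [Finite L]
  (H : SimpleGraph W) (P : Par), P.Ok H → ∀ (m : Mode), m.IsN → ∀ (A M : SimpleGraph U)
  (I : Set U) (Γ RΓ : SimpleGraph X) (Hub : Set X) (Hs Us Xs : Set (U → X)) (g : ℕ)
  (K : L → Set U) (s : ℕ), In A H → Nat.card W ≤ g →
  Gam A M I (fun _ => (none : Option Q)) Γ RΓ Hub Hs Us Xs g → MData P H m A M K s →
  BlueG P H m Γ RΓ Hub (fun z : Us × L => z.1.1 '' K z.2) s g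

/-- the class points of the middle graph -/
abbrev CI {U X L : Type} (pt : U → Option (L ⊕ U)) (Us : Set (U → X)) : Type :=
  {z : L × Set X // z.2.Nonempty ∧ (Sum.inl z.1, z.2) ∈ Cells pt Us}

def GBlueSRPStmt : Prop := ∀ (U X L : Type) [Finite U] [Finite X] [Finite L]
  (A M : SimpleGraph U) (I : Set U) (pt : U → Option (L ⊕ U)) (Γ RΓ : SimpleGraph X)
  (Hub : Set X) (Hs Us Xs : Set (U → X)) (g : ℕ) (K : L → Set U),
  Gam A M I pt Γ RΓ Hub Hs Us Xs g → IsPt M K pt → RP (A \ M) K ∅ →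
  LocRP Γ RΓ Hub false (fun z : CI pt Us => z.1.2) False ∅ g

def GBlueSRuleStmt : Prop := ∀ (U X L : Type) [Finite U] [Finite X] [Finite L] (m : Mode)
  (A M : SimpleGraph U) (I : Set U) (pt : U → Option (L ⊕ U)) (Γ RΓ : SimpleGraph X)
  (Hub : Set X) (Hs Us Xs : Set (U → X)) (g : ℕ) (K : L → Set U),
  Gam A M I pt Γ RΓ Hub Hs Us Xs g → IsPt M K pt → (∀ l, Rule m (A \ M) (K l)) →
  (∀ z : CI pt Us, Rule m (Γ \ RΓ) z.1.2) ∧
  (¬ m.IsN → ∀ S, Shape m (Γ \ RΓ) S → ∃ υ ∈ Us, S ⊆ range υ)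

def GBlueSStmt : Prop := ∀ (W U X L : Type) [Finite W] [Finite U] [Finite X] [Finite L]
  (H : SimpleGraph W) (P : Par), P.Ok H → ∀ (m : Mode), ¬ m.IsN → ∀ (A M : SimpleGraph U)
  (I : Set U) (pt : U → Option (L ⊕ U)) (Γ RΓ : SimpleGraph X) (Hub : Set X)
  (Hs Us Xs : Set (U → X)) (g : ℕ) (K : L → Set U) (s : ℕ),
  Gam A M I pt Γ RΓ Hub Hs Us Xs g → IsPt M K pt → MData P H m A M K s →
  BlueG P H m Γ RΓ Hub (fun z : CI pt Us => z.1.2) s g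

def InvAStmt : Prop := ∀ (W U V : Type) [Finite W] [Finite U] [Finite V] (H : SimpleGraph W)
  (P : Par), P.Ok H → ∀ (A : SimpleGraph U) (B : SimpleGraph V), In A H → Imp A B →
  ((∃ O, AS P H B O) → ∃ O, AS P H A O) ∧ ((∃ O, RO P H .N1 B O) → ∃ O, RO P H .N1 A O)

def InvTStmt : Prop := ∀ (W U V : Type) [Finite W] [Finite U] [Finite V] (H : SimpleGraph W)
  (P : Par), P.Ok H → ∀ m, m ≠ .S1 → Case P H m → ∀ (A : SimpleGraph U) (B : SimpleGraph V),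
  In A H → Imp A B → (∃ O, AS P H B O) → (∃ O, TH P H B O) → ∃ O, TH P H A O

def InvRStmt : Prop := ∀ (W U V : Type) [Finite W] [Finite U] [Finite V] (H : SimpleGraph W)
  (P : Par), P.Ok H → ∀ m, m.IsN → Case P H m → ∀ (A : SimpleGraph U) (B : SimpleGraph V),
  In A H → In B H → (∀ z, ∃ z', B.Adj z z') → Imp A B → (∃ O, TH P H B O) →
  ((∃ O, RO P H m B O) → ∃ O, RO P H m A O) ∧ ∀ s, RFam P H m A s → RFam P H m B s

def StepNStmt : Prop := ∀ (W U V : Type) [Finite W] [Finite U] [Finite V] (H : SimpleGraph W)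
  (P : Par), P.Ok H → ∀ m, m.IsN → Case P H m → ∀ (A : SimpleGraph U) (B : SimpleGraph V),
  In A H → In B H → B.Connected → (∀ z, ∃ z', B.Adj z z') → Imp A B → ¬ In B A →
  ∀ t, RFam P H m A (t + 1) → ¬ RFam P H m B t → ∀ s, BFam P H m A (s + 1) → BFam P H m B s

def StepSStmt : Prop := ∀ (W U V : Type) [Finite W] [Finite U] [Finite V] (H : SimpleGraph W)
  (P : Par), P.Ok H → ∀ m, ¬ m.IsN → Case P H m → ∀ (A : SimpleGraph U) (B : SimpleGraph V),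
  In A H → In B H → B.Connected → (∀ z, ∃ z', B.Adj z z') → Imp A B → ¬ In B A →
  (∃ O, RO P H m B O) → ∀ s, BFam P H m A (s + 1) → BFam P H m B s

def BothStmt : Prop := ∀ (U V : Type) [Finite U] [Finite V] (A : SimpleGraph U)
  (B : SimpleGraph V), A.Connected → B.Connected → ¬ A.IsAcyclic → ¬ B.IsAcyclic → Imp A B →
  Imp B A → In A B ∧ In B A

def FinalStmt : Prop := ∀ (U V : Type) [Finite U] [Finite V] (A : SimpleGraph U)
  (B : SimpleGraph V), A.Connected → B.Connected →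
  (∀ (Z : Type) [Finite Z] (G : SimpleGraph Z), Arrows G A ↔ Arrows G B) → Nonempty (A ≃g B)

end Pool.Agent.MP_1c0fc2_co.RE

end

section

/-! Connectivity of sets, components, traces, monotonicity. -/

open Function Set Relation

namespace Pool.Agent.MP_1c0fc2_co.RE

section Conn
variable {V W : Type} {R R' : V → V → Prop} {C D Y : Set V} {a b : V}

theorem rtg_mono (hR : ∀ x y, R x y → R' x y) (h : ReflTransGen R a b) : ReflTransGen R' a b := by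
  induction h with
  | refl => exact .refl
  | tail _ h ih => exact ih.tail (hR _ _ h)

theorem ncard_pair_le (a b : V) : ({a, b} : Set V).ncard ≤ 2 :=
  (ncard_insert_le a {b}).trans (by simp)

theorem ConnOn.mono (h : ConnOn R C) (hR : ∀ x ∈ C, ∀ y ∈ C, R x y → R' x y) : ConnOn R' C :=
  fun a ha b hb => rtg_mono (fun _ _ ⟨h1, h2, h3⟩ => ⟨h1, h2, hR _ h1 _ h2 h3⟩) (h a ha b hb)

theorem connOn_empty : ConnOn R ∅ := fun _ h => h.elim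

theorem connOn_singleton (a : V) : ConnOn R {a} := by
  rintro x rfl y rfl
  exact .refl

theorem connOn_of_subsingleton (h : C.Subsingleton) : ConnOn R C := fun a ha b hb => by
  rw [h ha hb]

theorem rtg_sub (hCD : C ⊆ D) (h : ReflTransGen (fun x y => x ∈ C ∧ y ∈ C ∧ R x y) a b) :
    ReflTransGen (fun x y => x ∈ D ∧ y ∈ D ∧ R x y) a b :=
  rtg_mono (fun _ _ ⟨h1, h2, h3⟩ => ⟨hCD h1, hCD h2, h3⟩) h

theorem rtg_symm (hs : ∀ x y, R x y → R y x)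
    (h : ReflTransGen (fun x y => x ∈ C ∧ y ∈ C ∧ R x y) a b) :
    ReflTransGen (fun x y => x ∈ C ∧ y ∈ C ∧ R x y) b a := by
  induction h with
  | refl => exact .refl
  | tail _ h ih => exact ih.head ⟨h.2.1, h.1, hs _ _ h.2.2⟩

/-- connectivity from one base point -/
theorem connOn_of_base (hs : ∀ x y, R x y → R y x) (a : V)
    (h : ∀ b ∈ C, ReflTransGen (fun x y => x ∈ C ∧ y ∈ C ∧ R x y) a b) : ConnOn R C :=
  fun x hx y hy => (rtg_symm hs (h x hx)).trans (h y hy)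

theorem ConnOn.image {R' : W → W → Prop} (h : ConnOn R C) (f : V → W)
    (hf : ∀ x ∈ C, ∀ y ∈ C, R x y → f x = f y ∨ R' (f x) (f y)) : ConnOn R' (f '' C) := by
  rintro _ ⟨a, ha, rfl⟩ _ ⟨b, hb, rfl⟩
  have := h a ha b hb
  clear hb
  induction this with
  | refl => exact .refl
  | tail _ h ih =>
    rcases hf _ h.1 _ h.2.1 h.2.2 with e | e
    · rw [← e]; exact ih
    · exact ih.tail ⟨mem_image_of_mem f h.1, mem_image_of_mem f h.2.1, e⟩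

/-- a connected set that meets `Y` and its complement has a boundary step -/
theorem ConnOn.cross (h : ConnOn R C) (ha : a ∈ C) (hb : b ∈ C) (haY : a ∈ Y) (hbY : b ∉ Y) :
    ∃ x ∈ C, ∃ y ∈ C, x ∈ Y ∧ y ∉ Y ∧ R x y := by
  have := h a ha b hb
  clear hb
  induction this with
  | refl => exact absurd haY hbY
  | @tail u v _ h ih =>
    by_cases hu : u ∈ Y
    · exact ⟨u, h.1, v, h.2.1, hu, hbY, h.2.2⟩
    · exact ih hu

/-- a connected set that meets a closed set lies in it -/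
theorem ConnOn.sub (h : ConnOn R C) (ha : a ∈ C) (haY : a ∈ Y)
    (hc : ∀ x ∈ C, ∀ y ∈ C, x ∈ Y → R x y → y ∈ Y) : C ⊆ Y := fun b hb => by
  by_contra hbY
  obtain ⟨x, hx, y, hy, h1, h2, h3⟩ := h.cross ha hb haY hbY
  exact h2 (hc x hx y hy h1 h3)

theorem ConnOn.union (hs : ∀ x y, R x y → R y x) (h : ConnOn R C) (h' : ConnOn R D)
    (ha : a ∈ C) (hb : b ∈ D) (hab : a = b ∨ R a b) : ConnOn R (C ∪ D) := by
  refine connOn_of_base hs a ?_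
  rintro x (hx | hx)
  · exact rtg_sub subset_union_left (h a ha x hx)
  · have h2 := rtg_sub (D := C ∪ D) subset_union_right (h' b hb x hx)
    rcases hab with rfl | hab
    · exact h2
    · exact h2.head ⟨.inl ha, .inr hb, hab⟩

theorem ConnOn.insert (hs : ∀ x y, R x y → R y x) (h : ConnOn R C) (hb : b ∈ C) (hab : R a b) :
    ConnOn R (insert a C) :=
  (connOn_singleton a).union hs h rfl hb (.inr hab)

/-- a connected set with two points has a step at every point -/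
theorem ConnOn.step (h : ConnOn R C) (ha : a ∈ C) (hb : b ∈ C) (hab : b ≠ a) :
    ∃ y ∈ C, y ≠ a ∧ R a y := by
  obtain ⟨x, -, y, hy, rfl, h2, h3⟩ := h.cross (Y := {a}) ha hb rfl hab
  exact ⟨y, hy, h2, h3⟩

/-- the component of `a` in `C` -/
def comp (R : V → V → Prop) (C : Set V) (a : V) : Set V :=
  {b | a ∈ C ∧ ReflTransGen (fun x y => x ∈ C ∧ y ∈ C ∧ R x y) a b}

theorem mem_comp (ha : a ∈ C) : a ∈ comp R C a := ⟨ha, .refl⟩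

theorem comp_sub : comp R C a ⊆ C := by
  rintro b ⟨ha, h⟩
  induction h with
  | refl => exact ha
  | tail _ h _ => exact h.2.1

theorem comp_closed {x y : V} (hx : x ∈ comp R C a) (hy : y ∈ C) (h : R x y) : y ∈ comp R C a :=
  ⟨hx.1, hx.2.tail ⟨comp_sub hx, hy, h⟩⟩

theorem comp_conn (hs : ∀ x y, R x y → R y x) : ConnOn R (comp R C a) := by
  refine connOn_of_base hs a ?_
  rintro b ⟨ha, h⟩
  induction h with
  | refl => exact .refl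
  | tail h1 h ih => exact ih.tail ⟨⟨ha, h1⟩, ⟨ha, h1.tail h⟩, h.2.2⟩

theorem ConnOn.sub_comp (h : ConnOn R D) (hD : D ⊆ C) (hb : b ∈ D) (hba : b ∈ comp R C a) :
    D ⊆ comp R C a :=
  h.sub hb hba fun _ _ _ hy h1 h2 => comp_closed h1 (hD hy) h2

theorem comp_eq (hs : ∀ x y, R x y → R y x) (hb : b ∈ comp R C a) : comp R C b = comp R C a := by
  refine Subset.antisymm ((comp_conn hs).sub_comp comp_sub (mem_comp (comp_sub hb)) hb) ?_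
  exact (comp_conn hs).sub_comp comp_sub hb (mem_comp (comp_sub hb))

theorem not_connOn (h : ¬ ConnOn R C) : ∃ a ∈ C, ∃ b ∈ C, b ∉ comp R C a := by
  by_contra hc
  refine h fun a ha b hb => ?_
  by_contra h2
  exact hc ⟨a, ha, b, hb, fun h3 => h2 h3.2⟩

/-- a component of `C \ Y` touches `C ∩ Y` -/
theorem ConnOn.comp_nb (h : ConnOn R C) (ha : a ∈ C \ Y) (hb : b ∈ C ∩ Y) :
    ∃ x ∈ comp R (C \ Y) a, ∃ y ∈ C ∩ Y, R x y := by
  obtain ⟨x, -, y, hy, h1, h2, h3⟩ := h.cross (Y := comp R (C \ Y) a) ha.1 hb.1 (mem_comp ha)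
    fun h => (comp_sub h).2 hb.2
  refine ⟨x, h1, y, ⟨hy, ?_⟩, h3⟩
  by_contra hY
  exact h2 (comp_closed h1 ⟨hy, hY⟩ h3)

/-- projection of a connected set to `Y` -/
theorem ConnOn.trace (hs : ∀ x y, R x y → R y x) (h : ConnOn R C) (Y : Set V)
    {Q : V → V → Prop} (h1 : ∀ x ∈ C ∩ Y, ∀ y ∈ C ∩ Y, x ≠ y → R x y → Q x y)
    (h2 : ∀ D, D ⊆ C \ Y → ConnOn R D → ∀ x ∈ C ∩ Y, ∀ y ∈ C ∩ Y, x ≠ y → (∃ d ∈ D, R x d) →
      (∃ d ∈ D, R y d) → Q x y) : ConnOn Q (C ∩ Y) := by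
  intro a ha b hb
  have key : ∀ z, ReflTransGen (fun x y => x ∈ C ∧ y ∈ C ∧ R x y) a z →
      (z ∈ Y → ReflTransGen (fun x y => x ∈ C ∩ Y ∧ y ∈ C ∩ Y ∧ Q x y) a z) ∧
      (z ∉ Y → ∃ x ∈ C ∩ Y, ReflTransGen (fun x y => x ∈ C ∩ Y ∧ y ∈ C ∩ Y ∧ Q x y) a x ∧
        ∃ d ∈ comp R (C \ Y) z, R x d) := by
    intro z hz
    induction hz with
    | refl => exact ⟨fun _ => .refl, fun h => absurd ha.2 h⟩
    | @tail u v _ h ih =>
      by_cases hu : u ∈ Y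
      · refine ⟨fun hv => ?_, fun hv => ⟨u, ⟨h.1, hu⟩, ih.1 hu, v, mem_comp ⟨h.2.1, hv⟩, h.2.2⟩⟩
        by_cases e : u = v
        · exact e ▸ ih.1 hu
        · exact (ih.1 hu).tail ⟨⟨h.1, hu⟩, ⟨h.2.1, hv⟩, h1 _ ⟨h.1, hu⟩ _ ⟨h.2.1, hv⟩ e h.2.2⟩
      · obtain ⟨x, hx, p, d, hd, hxd⟩ := ih.2 hu
        refine ⟨fun hv => ?_, fun hv => ⟨x, hx, p, d, ?_, hxd⟩⟩
        · by_cases e : x = v
          · exact e ▸ p
          · exact p.tail ⟨hx, ⟨h.2.1, hv⟩, h2 _ comp_sub (comp_conn hs) x hx v ⟨h.2.1, hv⟩ e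
              ⟨d, hd, hxd⟩ ⟨u, mem_comp ⟨h.1, hu⟩, hs _ _ h.2.2⟩⟩
        · rw [comp_eq hs (comp_closed (C := C \ Y) (mem_comp ⟨h.1, hu⟩) ⟨h.2.1, hv⟩ h.2.2)]
          exact hd
  exact (key b (h a ha.1 b hb.1)).1 hb.2

end Conn

section Two
variable {U V W : Type} {J J' : SimpleGraph V} {S Y τ : Set V}

theorem adj_symm' (J : SimpleGraph V) : ∀ x y, J.Adj x y → J.Adj y x := fun _ _ h => h.symm

theorem TwoConn.exists_ne (h : TwoConn J S) (a b : V) : ∃ c ∈ S, c ≠ a ∧ c ≠ b := by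
  by_contra hc
  have : S ⊆ {a, b} := fun c hc' => by
    by_contra h2
    exact hc ⟨c, hc', fun e => h2 (.inl e), fun e => h2 (.inr e)⟩
  have h3 := ncard_le_ncard this (toFinite _)
  have := ncard_pair_le a b
  have := h.1
  omega

theorem TwoConn.nonempty (h : TwoConn J S) : S.Nonempty :=
  nonempty_of_ncard_ne_zero (by have := h.1; omega)

theorem TwoConn.conn (h : TwoConn J S) : ConnOn J.Adj S := fun a ha b hb => by
  obtain ⟨c, -, h1, h2⟩ := h.exists_ne a b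
  exact rtg_sub sdiff_subset (h.2 c a ⟨ha, fun e => h1 e.symm⟩ b ⟨hb, fun e => h2 e.symm⟩)

/-- every vertex of a 2-connected set has a neighbour different from a given vertex -/
theorem TwoConn.nbr (h : TwoConn J S) {a : V} (ha : a ∈ S) (b : V) (hab : a ≠ b) :
    ∃ c ∈ S, c ≠ b ∧ J.Adj a c := by
  obtain ⟨c, hc, h1, h2⟩ := h.exists_ne a b
  obtain ⟨y, hy, -, h3⟩ := (h.2 b).step ⟨ha, hab⟩ ⟨hc, h2⟩ h1
  exact ⟨y, hy.1, hy.2, h3⟩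

theorem TwoConn.nbr' (h : TwoConn J S) {a : V} (ha : a ∈ S) : ∃ c ∈ S, J.Adj a c := by
  obtain ⟨b, -, hb, -⟩ := h.exists_ne a a
  obtain ⟨c, hc, -, h1⟩ := h.nbr ha b hb.symm
  exact ⟨c, hc, h1⟩

theorem TwoConn.edge (h : TwoConn J S) : ∃ a ∈ S, ∃ b ∈ S, J.Adj a b := by
  obtain ⟨a, ha⟩ := h.nonempty
  obtain ⟨b, hb, h1⟩ := h.nbr' ha
  exact ⟨a, ha, b, hb, h1⟩

theorem TwoConn.mono (h : TwoConn J S) (hJ : ∀ x ∈ S, ∀ y ∈ S, J.Adj x y → J'.Adj x y) :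
    TwoConn J' S :=
  ⟨h.1, fun v => (h.2 v).mono fun _ hx _ hy => hJ _ hx.1 _ hy.1⟩

/-- a component outside `Y` has two neighbours in `S ∩ Y` -/
theorem TwoConn.two_nb (h : TwoConn J S) (hY : ¬ (S ∩ Y).Subsingleton) {c : V} (hc : c ∈ S \ Y) :
    ∃ u ∈ S ∩ Y, ∃ v ∈ S ∩ Y, u ≠ v ∧ (∃ d ∈ comp J.Adj (S \ Y) c, J.Adj u d) ∧
      ∃ d ∈ comp J.Adj (S \ Y) c, J.Adj v d := by
  obtain ⟨a, ha, b, hb, hab⟩ := not_subsingleton_iff.1 hY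
  obtain ⟨x, hx, u, hu, hxu⟩ := h.conn.comp_nb hc ha
  obtain ⟨w, hw, hwu⟩ : ∃ w ∈ S ∩ Y, w ≠ u := by
    by_cases e : a = u
    · exact ⟨b, hb, fun e' => hab (e.trans e'.symm)⟩
    · exact ⟨a, ha, e⟩
  obtain ⟨y, -, v, hv, h1, h2, h3⟩ := (h.2 u).cross (Y := comp J.Adj (S \ Y) c)
    ⟨hc.1, fun e => hc.2 (by rw [mem_singleton_iff.1 e]; exact hu.2)⟩ ⟨hw.1, hwu⟩ (mem_comp hc)
    fun h => (comp_sub h).2 hw.2
  refine ⟨u, hu, v, ⟨hv.1, ?_⟩, fun e => hv.2 e.symm, ⟨x, hx, hxu.symm⟩, y, h1, h3.symm⟩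
  by_contra hY'
  exact h2 (comp_closed h1 ⟨hv.1, hY'⟩ h3)

theorem Cq.sub (h : Cq J τ) {τ' : Set V} (h' : τ' ⊆ τ) : Cq J τ' := by
  rcases h with h | ⟨a, b, hab, rfl⟩
  · exact .inl (h.anti h')
  · by_cases hs : τ'.Subsingleton
    · exact .inl hs
    · refine .inr ⟨a, b, hab, Subset.antisymm h' ?_⟩
      obtain ⟨x, hx, y, hy, hxy⟩ := not_subsingleton_iff.1 hs
      rintro z (rfl | rfl) <;> rcases h' hx with rfl | rfl <;> rcases h' hy with rfl | rfl <;>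
        first | exact absurd rfl hxy | assumption

theorem Cq.adj (h : Cq J τ) {a b : V} (ha : a ∈ τ) (hb : b ∈ τ) (hab : a ≠ b) : J.Adj a b := by
  rcases h with h | ⟨x, y, hxy, rfl⟩
  · exact absurd (h ha hb) hab
  · rcases ha with rfl | rfl <;> rcases hb with rfl | rfl
    exacts [absurd rfl hab, hxy, hxy.symm, absurd rfl hab]

theorem Cq.three (h : Cq J τ) {a b c : V} (ha : a ∈ τ) (hb : b ∈ τ) (hc : c ∈ τ) :
    a = b ∨ a = c ∨ b = c := by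
  rcases h with h | ⟨x, y, -, rfl⟩
  · exact .inl (h ha hb)
  · rcases ha with rfl | rfl <;> rcases hb with rfl | rfl <;> rcases hc with rfl | rfl <;> simp

theorem cq_of (h1 : ∀ a ∈ τ, ∀ b ∈ τ, a ≠ b → J.Adj a b)
    (h2 : ∀ a ∈ τ, ∀ b ∈ τ, ∀ c ∈ τ, a = b ∨ a = c ∨ b = c) : Cq J τ := by
  by_cases hs : τ.Subsingleton
  · exact .inl hs
  obtain ⟨a, ha, b, hb, hab⟩ := not_subsingleton_iff.1 hs
  refine .inr ⟨a, b, h1 a ha b hb hab, Subset.antisymm (fun c hc => ?_) ?_⟩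
  · rcases h2 a ha b hb c hc with e | e | e
    exacts [absurd e hab, .inl e.symm, .inr e.symm]
  · rintro z (rfl | rfl) <;> assumption

theorem Cq.pair (h : Cq J τ) [Nonempty V] : ∃ a b, (a = b ∨ J.Adj a b) ∧ τ ⊆ {a, b} := by
  rcases h with h | ⟨a, b, hab, rfl⟩
  · rcases h.eq_empty_or_singleton with rfl | ⟨a, rfl⟩
    · exact ⟨Classical.arbitrary V, _, .inl rfl, empty_subset _⟩
    · exact ⟨a, a, .inl rfl, by simp⟩
  · exact ⟨a, b, .inr hab, subset_rfl⟩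

theorem Cq.ncard_le (h : Cq J τ) : τ.ncard ≤ 2 := by
  rcases h with h | ⟨a, b, -, rfl⟩
  · rcases h.eq_empty_or_singleton with rfl | ⟨a, rfl⟩ <;> simp
  · exact ncard_pair_le a b

end Two

section Maps
variable {U V W Z : Type} {J : SimpleGraph V} {J' : SimpleGraph U} {H : SimpleGraph W}
  {J'' : SimpleGraph Z} {f : V → U} {S S' : Set V} {P : Par}

theorem IHo.sub (h : IHo J J' f S) (hS : S' ⊆ S) : IHo J J' f S' :=
  ⟨h.1.mono hS, fun _ hx _ hy => h.2 _ (hS hx) _ (hS hy)⟩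

theorem IH.on (h : IH J J' f) (S : Set V) : IHo J J' f S :=
  ⟨h.1.injOn, fun _ _ _ _ => h.2 _ _⟩

theorem IHo.comp {k : U → Z} (h : IHo J J' f S) (h' : IHo J' J'' k (f '' S)) :
    IHo J J'' (k ∘ f) S :=
  ⟨h'.1.comp h.1 (mapsTo_image f S), fun _ hx _ hy e =>
    h'.2 _ (mem_image_of_mem f hx) _ (mem_image_of_mem f hy) (h.2 _ hx _ hy e)⟩

theorem IH.comp {k : U → Z} (h : IH J J' f) (h' : IH J' J'' k) : IH J J'' (k ∘ f) :=
  ⟨h'.1.comp h.1, fun _ _ e => h'.2 _ _ (h.2 _ _ e)⟩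

theorem In.trans (h : In J J') (h' : In J' J'') : In J J'' :=
  let ⟨_, h⟩ := h; let ⟨_, h'⟩ := h'; ⟨_, h.comp h'⟩

theorem ih_id {J1 J2 : SimpleGraph V} (h : J1 ≤ J2) : IH J1 J2 id := ⟨injective_id, fun _ _ e => h e⟩

theorem In.of_le {J1 J2 : SimpleGraph V} (h : J1 ≤ J2) : In J1 J2 := ⟨id, ih_id h⟩

theorem in_iff : In J J' ↔ J.IsContained J' :=
  ⟨fun ⟨f, h⟩ => ⟨⟨⟨f, fun e => h.2 _ _ e⟩, h.1⟩⟩,
    fun ⟨c⟩ => ⟨c.toHom, c.injective', fun _ _ e => c.toHom.map_adj e⟩⟩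

theorem Ind.iho (h : Ind J J' f S) : IHo J J' f S :=
  ⟨h.1, fun _ hx _ hy e => (h.2 _ hx _ hy).2 e⟩

theorem Ind.inj (h : Ind J J' f univ) : Injective f := injOn_univ.1 h.1

theorem Ind.adj (h : Ind J J' f univ) (x y : V) : J'.Adj (f x) (f y) ↔ J.Adj x y :=
  h.2 _ trivial _ trivial

/-- the inverse of a map that is injective on `S` and reflects adjacency -/
theorem iho_inv [Nonempty V] (hi : InjOn f S)
    (hr : ∀ x ∈ S, ∀ y ∈ S, J'.Adj (f x) (f y) → J.Adj x y) :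
    IHo J' J (invFunOn f S) (f '' S) := by
  refine ⟨invFunOn_injOn_image f S, ?_⟩
  rintro _ ⟨x, hx, rfl⟩ _ ⟨y, hy, rfl⟩ e
  rw [hi.leftInvOn_invFunOn hx, hi.leftInvOn_invFunOn hy]
  exact hr _ hx _ hy e

theorem invFunOn_image [Nonempty V] (hi : InjOn f S) {T : Set U} (hT : T ⊆ f '' S) :
    invFunOn f S '' T = S ∩ f ⁻¹' T := by
  ext x
  constructor
  · rintro ⟨t, ht, rfl⟩
    obtain ⟨y, hy, rfl⟩ := hT ht
    rw [hi.leftInvOn_invFunOn hy]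
    exact ⟨hy, ht⟩
  · exact fun h => ⟨f x, h.2, hi.leftInvOn_invFunOn h.1⟩

/-- pulling back along an injective map that reflects adjacency on `S` -/
theorem exists_pull (hi : InjOn f S) (hr : ∀ x ∈ S, ∀ y ∈ S, J'.Adj (f x) (f y) → J.Adj x y)
    {T : Set U} (hT : T ⊆ f '' S) (hn : T.Nonempty) :
    ∃ k : U → V, IHo J' J k (f '' S) ∧ k '' T = S ∩ f ⁻¹' T ∧ ∀ x ∈ S, k (f x) = x := by
  obtain ⟨_, ht⟩ := hn
  obtain ⟨x0, -, -⟩ := hT ht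
  have : Nonempty V := ⟨x0⟩
  exact ⟨_, iho_inv hi hr, invFunOn_image hi hT, fun _ hx => hi.leftInvOn_invFunOn hx⟩

/-- pulling back along an injective map that reflects adjacency -/
theorem exists_pull' (hi : Injective f) (hr : ∀ x y, J'.Adj (f x) (f y) → J.Adj x y)
    {T : Set U} (hT : T ⊆ range f) (hn : T.Nonempty) :
    ∃ k : U → V, IHo J' J k T ∧ k '' T = f ⁻¹' T ∧ ∀ x, k (f x) = x := by
  obtain ⟨k, h1, h2, h3⟩ := exists_pull (J := J) (J' := J') (S := univ) hi.injOn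
    (fun _ _ _ _ => hr _ _) (T := T) (by rwa [image_univ]) hn
  exact ⟨k, h1.sub (by rwa [image_univ]), by rwa [univ_inter] at h2, fun x => h3 x trivial⟩

theorem IHo.ncard (h : IHo J J' f S) : (f '' S).ncard = S.ncard := h.1.ncard_image

theorem ConnOn.map (h : ConnOn J.Adj S) (hf : IHo J J' f S) : ConnOn J'.Adj (f '' S) :=
  h.image f fun _ hx _ hy e => .inr (hf.2 _ hx _ hy e)

theorem injOn_image_diff (hi : InjOn f S) {T : Set V} (hT : T ⊆ S) :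
    f '' (S \ T) = f '' S \ f '' T := hi.image_sdiff_subset hT

theorem TwoConn.map (h : TwoConn J S) (hf : IHo J J' f S) : TwoConn J' (f '' S) := by
  refine ⟨by rw [hf.ncard]; exact h.1, fun v => ?_⟩
  by_cases hv : v ∈ f '' S
  · obtain ⟨u, hu, rfl⟩ := hv
    rw [← image_singleton, ← injOn_image_diff hf.1 (singleton_subset_iff.2 hu)]
    exact (h.2 u).map (hf.sub sdiff_subset)
  · rw [sdiff_singleton_eq_self hv]
    exact h.conn.map hf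

theorem Torso.pull (hf : IHo J J' f S) {T : Set U} (h : Torso H J' (f '' S) T) :
    Torso H J S (S ∩ f ⁻¹' T) := by
  obtain ⟨h1, h2, h3, k, h4, h5⟩ := h
  have e : f '' (S ∩ f ⁻¹' T) = T := by
    rw [image_inter_preimage, inter_eq_right.2 h1]
  refine ⟨inter_subset_left, fun e' => h2 (by rw [← e, e']), ?_, k ∘ f,
    (hf.sub inter_subset_left).comp (by rwa [e]), fun C hC hc => ?_⟩
  · rwa [← (hf.sub inter_subset_left).ncard, e]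
  · have hCS : C ⊆ S := fun x hx => (hC hx).1
    refine (h5 (f '' C) ?_ (hc.map (hf.sub hCS))).sub ?_
    · rintro _ ⟨x, hx, rfl⟩
      exact ⟨mem_image_of_mem f (hCS hx), fun h => (hC hx).2 ⟨hCS hx, h⟩⟩
    · rintro _ ⟨x, ⟨hx, c, hc, e⟩, rfl⟩
      exact ⟨f x, ⟨hx.2, f c, mem_image_of_mem f hc, hf.2 _ hx.1 _ (hCS hc) e⟩, rfl⟩

theorem ES.map (h : ES H J S) (hf : IHo J J' f S) : ES H J' (f '' S) :=
  ⟨h.1.map hf, fun _ ht => h.2 _ (ht.pull hf)⟩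

theorem RS.map {a b : V} (h : RS H J S a b) (hf : IHo J J' f S) : RS H J' (f '' S) (f a) (f b) :=
  ⟨mem_image_of_mem f h.1, mem_image_of_mem f h.2.1, hf.2 _ h.1 _ h.2.1 h.2.2.1, h.2.2.2.1.map hf,
    fun T ha hb ht => h.2.2.2.2 (S ∩ f ⁻¹' T) ⟨h.1, ha⟩ ⟨h.2.1, hb⟩ (ht.pull hf)⟩

theorem ES.rs (h : ES H J S) {a b : V} (ha : a ∈ S) (hb : b ∈ S) (hab : J.Adj a b) :
    RS H J S a b := ⟨ha, hb, hab, h.1, fun S' _ _ => h.2 S'⟩

theorem ec_le [Finite U] (hf : IHo J J' f S) : ec J S ≤ ec J' (f '' S) := by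
  refine ncard_le_ncard_of_injOn (fun p => (f p.1, f p.2)) ?_ ?_ (toFinite _)
  · rintro ⟨x, y⟩ ⟨hx, hy, e⟩
    exact ⟨mem_image_of_mem f hx, mem_image_of_mem f hy, hf.2 _ hx _ hy e⟩
  · rintro ⟨x, y⟩ ⟨hx, hy, -⟩ ⟨x', y'⟩ ⟨hx', hy', -⟩ e
    exact Prod.ext (hf.1 hx hx' (congrArg Prod.fst e)) (hf.1 hy hy' (congrArg Prod.snd e))

theorem TS.map [Finite U] (h : TS P H J S) (hf : IHo J J' f S) : TS P H J' (f '' S) :=
  ⟨h.1.map hf, hf.ncard.trans h.2.1, h.2.2.trans (ec_le hf)⟩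

theorem AS.map [Finite U] (h : AS P H J S) (hf : IHo J J' f S) : AS P H J' (f '' S) :=
  ⟨h.1.elim fun _ h => h.elim fun _ h => ⟨_, _, h.map hf⟩, hf.ncard.trans h.2.1,
    h.2.2.trans (ec_le hf)⟩

theorem TS.two (h : TS P H J S) : TwoConn J S := h.1.1

theorem AS.two (h : AS P H J S) : TwoConn J S := let ⟨_, _, h⟩ := h.1; h.2.2.2.1

theorem TG_le (J : SimpleGraph V) (Y : Set V) : TG P H J Y ≤ J := fun _ _ h => h.1

theorem TG_mono {Y Y' : Set V} (h : Y ⊆ Y') : TG P H J Y ≤ TG P H J Y' :=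
  fun _ _ ⟨h1, S, h2, h3⟩ => ⟨h1, S, h2.trans h, h3⟩

theorem IHo.tg [Finite U] (hf : IHo J J' f S) : IHo (TG P H J S) (TG P H J' (f '' S)) f S :=
  ⟨hf.1, fun _ hx _ hy ⟨e, D, h1, h2, h3, h4⟩ => ⟨hf.2 _ hx _ hy e, f '' D, image_mono h1,
    h2.map (hf.sub h1), mem_image_of_mem f h3, mem_image_of_mem f h4⟩⟩

theorem IH.tg [Finite U] (hf : IH J J' f) : IH (TG P H J univ) (TG P H J' univ) f :=
  ⟨hf.1, fun _ _ e => TG_mono (subset_univ _) ((hf.on univ).tg.2 _ trivial _ trivial e)⟩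

theorem TH.map [Finite U] (h : TH P H J S) (hf : IHo J J' f S) : TH P H J' (f '' S) :=
  ⟨h.1.map hf.tg, hf.ncard.trans h.2⟩

theorem TH.two (h : TH P H J S) : TwoConn J S := h.1.mono fun _ _ _ _ e => e.1

theorem TH.ts (h : TH P H J S) {a : V} (ha : a ∈ S) : ∃ D, D ⊆ S ∧ TS P H J D ∧ a ∈ D := by
  obtain ⟨c, -, -, D, h1, h2, h3, -⟩ := h.1.nbr' ha
  exact ⟨D, h1, h2, h3⟩

theorem Tri.map (h : Tri J S) (hf : IHo J J' f S) : Tri J' (f '' S) := by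
  obtain ⟨a, b, c, h1, h2, h3, rfl⟩ := h
  exact ⟨f a, f b, f c, hf.2 _ (by simp) _ (by simp) h1, hf.2 _ (by simp) _ (by simp) h2,
    hf.2 _ (by simp) _ (by simp) h3, by simp [image_insert_eq]⟩

theorem Tri.adj (h : Tri J S) {x y : V} (hx : x ∈ S) (hy : y ∈ S) (hxy : x ≠ y) : J.Adj x y := by
  obtain ⟨a, b, c, h1, h2, h3, rfl⟩ := h
  rcases hx with rfl | rfl | rfl <;> rcases hy with rfl | rfl | rfl <;>
    first | exact absurd rfl hxy | assumption | exact SimpleGraph.Adj.symm ‹_›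

theorem Tri.ncard (h : Tri J S) : S.ncard = 3 := by
  obtain ⟨a, b, c, h1, h2, h3, rfl⟩ := h
  exact ncard_eq_three.2 ⟨a, b, c, h1.ne, h2.ne, h3.ne, rfl⟩

theorem BO.map [Finite U] {m : Mode} (h : BO P H m J S) (hf : IHo J J' f S) :
    BO P H m J' (f '' S) := by
  cases m
  exacts [TH.map h hf, TH.map h hf, AS.map h hf, TH.map h hf]

theorem BO.two {m : Mode} (h : BO P H m J S) : TwoConn J S := by
  cases m
  exacts [TH.two h, TH.two h, AS.two h, TH.two h]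

theorem RO.two {m : Mode} (h : RO P H m J S) : TwoConn J S := by
  cases m
  exacts [h.1.two, h.1.two, AS.two h, TH.two h]

theorem Shape.map {m : Mode} (h : Shape m J S) (hf : IHo J J' f S) : Shape m J' (f '' S) := by
  cases m
  · trivial
  · trivial
  · obtain ⟨h1, w, hw, h2, h3⟩ := h
    refine ⟨by rwa [hf.ncard], f w, mem_image_of_mem f hw, ?_, fun x => ?_⟩
    · rintro _ ⟨x, hx, rfl⟩ e
      exact hf.2 _ hw _ hx (h2 x hx fun e' => e (by rw [e']))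
    · by_cases hx : x ∈ f '' S
      · obtain ⟨u, hu, rfl⟩ := hx
        rw [← image_pair, ← injOn_image_diff hf.1 (pair_subset hw hu)]
        exact (h3 u).map (hf.sub sdiff_subset)
      · have e : f '' S \ {f w, x} = f '' S \ {f w, f w} := by
          ext z
          simp only [mem_sdiff, mem_insert_iff, mem_singleton_iff, or_self, not_or]
          exact ⟨fun h => ⟨h.1, h.2.1⟩, fun h => ⟨h.1, h.2, fun e => hx (e ▸ h.1)⟩⟩
        rw [e, ← image_pair, ← injOn_image_diff hf.1 (pair_subset hw hw)]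
        exact (h3 w).map (hf.sub sdiff_subset)
  · obtain ⟨h1, w, hw, h2, h3⟩ := h
    refine ⟨by rwa [hf.ncard], f w, mem_image_of_mem f hw, ?_, ?_⟩
    · rintro _ ⟨x, hx, rfl⟩ e
      exact hf.2 _ hw _ hx (h2 x hx fun e' => e (by rw [e']))
    · rw [← image_singleton, ← injOn_image_diff hf.1 (singleton_subset_iff.2 hw)]
      exact h3.map (hf.sub sdiff_subset)

theorem ncard_le_card [Finite V] (S : Set V) : S.ncard ≤ Nat.card V := by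
  rw [← ncard_univ]
  exact ncard_le_ncard (subset_univ _)

theorem In.card_le [Finite U] (h : In J J') : Nat.card V ≤ Nat.card U :=
  let ⟨f, h⟩ := h; Nat.card_le_card_of_injective f h.1

end Maps

section Colours
variable {U V : Type} {G R : SimpleGraph V} {A : SimpleGraph U}

theorem cc_le (h : R ≤ G) (c : Bool) : cc G R c ≤ G := by
  cases c
  exacts [sdiff_le, h]

theorem cc_not {c : Bool} {x y : V} (h : (cc G R c).Adj x y) : ¬ (cc G R (!c)).Adj x y := by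
  cases c
  exacts [h.2, fun h' => h'.2 h]

theorem cc_or {x y : V} (h : G.Adj x y) (c : Bool) :
    (cc G R c).Adj x y ∨ (cc G R (!c)).Adj x y := by
  by_cases e : R.Adj x y <;> cases c
  exacts [.inr e, .inl e, .inl ⟨h, e⟩, .inr ⟨h, e⟩]

theorem cc_iff {f : U → V} {red : SimpleGraph U} {a b : U} (h : G.Adj (f a) (f b) ↔ A.Adj a b)
    (h' : R.Adj (f a) (f b) ↔ red.Adj a b) (c : Bool) :
    (cc G R c).Adj (f a) (f b) ↔ (cc A red c).Adj a b := by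
  cases c
  · exact and_congr h (not_congr h')
  · exact h'

theorem cc_of_sdiff {red old : SimpleGraph U} {c : Bool} (h1 : red ≤ A) (h2 : old ≤ A)
    (h : cc A red c = A \ old) : cc A red (!c) = old := by
  ext a b
  have h3 : (cc A red c).Adj a b ↔ A.Adj a b ∧ ¬ old.Adj a b := by rw [h]; rfl
  constructor
  · intro e
    by_contra e'
    exact cc_not e (by rw [Bool.not_not]; exact h3.2 ⟨cc_le h1 _ e, e'⟩)
  · intro e
    exact (cc_or (h2 e) c).resolve_left fun e' => (h3.1 e').2 e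

theorem Mat.bip [Finite U] {M : SimpleGraph U} (h : Mat M) : Bip M := by
  classical
  let ρ : U → ℕ := fun x => Finite.equivFin U x
  have hρ : Injective ρ := Fin.val_injective.comp (Finite.equivFin U).injective
  refine ⟨fun a => decide (∃ b, M.Adj a b ∧ ρ a < ρ b), fun a b e => ?_⟩
  have k : ∀ a b, M.Adj a b → ((∃ c, M.Adj a c ∧ ρ a < ρ c) ↔ ρ a < ρ b) := fun a b e =>
    ⟨fun ⟨c, h1, h2⟩ => by rwa [h a b c e h1], fun h => ⟨b, e, h⟩⟩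
  have := hρ.ne e.ne
  simp only [k a b e, k b a e.symm, ne_eq, decide_eq_decide]
  omega

theorem Mat.not_two {M : SimpleGraph U} (h : Mat M) (S : Set U) : ¬ TwoConn M S := fun hS => by
  obtain ⟨a, ha, b, -, e⟩ := hS.edge
  obtain ⟨c, -, h1, h2⟩ := hS.nbr ha b e.ne
  exact h1 (h a c b h2 e)

theorem Mat.noBack {M : SimpleGraph U} (h : Mat M) : NoBack A M := by
  intro a b e p
  have key : ∀ z, ReflTransGen (fun x y => M.Adj x y ∧ s(x, y) ≠ s(a, b)) a z →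
      z = a ∨ (M.Adj a z ∧ z ≠ b) := by
    intro z p
    induction p with
    | refl => exact .inl rfl
    | @tail u v _ h1 ih =>
      rcases ih with rfl | ⟨h2, -⟩
      · exact .inr ⟨h1.1, fun e => h1.2 (by rw [e])⟩
      · exact .inl (h u v a h1.1 h2.symm)
  rcases key b p with e' | e'
  exacts [e.ne e'.symm, e'.2 rfl]

theorem noBack_bot : NoBack A ⊥ := Mat.noBack fun _ _ _ h => h.elim

/-- a path inside a set that misses one end of the pair avoids the pair -/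
theorem rtg_avoid {Q : U → U → Prop} {C : Set U} {a b x y : U} (h : a ∉ C ∨ b ∉ C)
    (p : ReflTransGen (fun x y => x ∈ C ∧ y ∈ C ∧ Q x y) x y) :
    ReflTransGen (fun x y => Q x y ∧ s(x, y) ≠ s(a, b)) x y := by
  refine rtg_mono (fun u v ⟨h1, h2, h3⟩ => ⟨h3, fun e => ?_⟩) p
  rcases Sym2.eq_iff.1 e with ⟨rfl, rfl⟩ | ⟨rfl, rfl⟩ <;> tauto

theorem NoBack.not_two {F : SimpleGraph U} (h : NoBack A F) (hF : F ≤ A) (S : Set U) :
    ¬ TwoConn F S := fun hS => by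
  obtain ⟨a, ha, b, hb, e⟩ := hS.edge
  obtain ⟨z, hz, h1, h2⟩ := hS.exists_ne a b
  exact h a b (hF e) ((rtg_avoid (.inr fun h => h.2 rfl)
    (hS.2 b a ⟨ha, e.ne⟩ z ⟨hz, h2⟩)).trans (rtg_avoid (.inl fun h => h.2 rfl)
    (hS.2 a z ⟨hz, h1⟩ b ⟨hb, e.ne'⟩)))

theorem ramOn_bot : RamOn A G R ⊥ ↔ Arr G A :=
  ⟨fun h R' h' => h R' h' fun _ _ e => e.elim, fun h R' h' _ => h R' h'⟩

end Colours

section Fr
variable {U V : Type} {N N' : Set (Set V)} {Lk : Set V → Prop} {g g' : ℕ} {X C : Set V}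

theorem Tog.symm {x y : V} (h : Tog N x y) : Tog N y x :=
  let ⟨ν, h1, h2, h3⟩ := h; ⟨ν, h1, h3, h2⟩

theorem tog_symm (N : Set (Set V)) : ∀ x y, Tog N x y → Tog N y x := fun _ _ h => h.symm

theorem Tog.mono {x y : V} (h : Tog N x y) (hN : N ⊆ N') : Tog N' x y :=
  let ⟨ν, h1, h2⟩ := h; ⟨ν, hN h1, h2⟩

theorem Thin.mono (h : Thin N Lk g X) (hg : g' ≤ g) : Thin N Lk g' X :=
  fun C h1 => h C (h1.trans hg)

theorem Far.mono {Y : Set V} {u : V} (h : Far N g X Y u) (hg : g' ≤ g) : Far N g' X Y u :=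
  fun C h1 => h C (h1.trans hg)

/-- usable form of thinness -/
theorem Thin.link (h : Thin N Lk g X) (hC : C.ncard ≤ g) (hd : Disjoint C X)
    (hc : ConnOn (Tog N) C) {w c : V} (hw : w ∈ X) (hcC : c ∈ C) (hwc : Tog N w c) :
    ∃ ℓ, Lk ℓ ∧ At N X C ⊆ ℓ ∧ ℓ ⊆ X ∧ ∃ ν ∈ N, ℓ ⊆ ν ∧ (ν ∩ C).Nonempty :=
  (h C hC hd hc).resolve_left fun e => (e ▸ ⟨hw, c, hcC, hwc⟩ : w ∈ (∅ : Set V))

theorem GLk.pair {G : SimpleGraph V} {ℓ : Set V} (h : GLk G ℓ) {u v : V} (hu : u ∈ ℓ) (hv : v ∈ ℓ)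
    (huv : u ≠ v) : G.Adj u v ∧ ℓ = {u, v} := by
  rcases h with ⟨x, rfl⟩ | ⟨a, b, e, rfl⟩
  · exact absurd (hu.trans hv.symm) huv
  · rcases hu with rfl | rfl <;> rcases hv with rfl | rfl
    exacts [absurd rfl huv, ⟨e, rfl⟩, ⟨e.symm, pair_comm _ _⟩, absurd rfl huv]

theorem GLk.inter {G : SimpleGraph V} {ℓ : Set V} (h : GLk G ℓ) (Y : Set V) :
    ℓ ∩ Y = ∅ ∨ GLk G (ℓ ∩ Y) := by
  by_cases hs : (ℓ ∩ Y).Subsingleton
  · exact hs.eq_empty_or_singleton.imp_right .inl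
  · obtain ⟨u, hu, v, hv, huv⟩ := not_subsingleton_iff.1 hs
    obtain ⟨e, rfl⟩ := h.pair hu.1 hv.1 huv
    exact .inr (.inr ⟨u, v, e, inter_eq_left.2 (pair_subset hu.2 hv.2)⟩)

/-- two attachments of a small connected set form an edge that lies in a bag meeting the set -/
theorem Thin.two {G : SimpleGraph V} (h : Thin N (GLk G) g X) (hC : C.ncard ≤ g)
    (hd : Disjoint C X) (hc : ConnOn (Tog N) C) {u v : V} (hu : u ∈ At N X C) (hv : v ∈ At N X C)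
    (huv : u ≠ v) : G.Adj u v ∧ At N X C ⊆ {u, v} ∧ ∃ ν ∈ N, u ∈ ν ∧ v ∈ ν ∧ (ν ∩ C).Nonempty := by
  obtain ⟨c, h1, h2⟩ := hu.2
  obtain ⟨ℓ, l1, l2, -, ν, l3, l4, l5⟩ := h.link hC hd hc hu.1 h1 h2
  obtain ⟨e, rfl⟩ := l1.pair (l2 hu) (l2 hv) huv
  exact ⟨e, l2, ν, l3, l4 (by simp), l4 (by simp), l5⟩

/-- a set is thin when every attachment is a single vertex -/
theorem thin_of_subsingleton (h1 : ∀ v, Lk {v})
    (h : ∀ C : Set V, C.ncard ≤ g → Disjoint C X → ConnOn (Tog N) C → (At N X C).Subsingleton) :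
    Thin N Lk g X := fun C c1 c2 c3 => by
  rcases (h C c1 c2 c3).eq_empty_or_singleton with e | ⟨w, e⟩
  · exact .inl e
  · obtain ⟨hw, c, hc, ν, n1, n2, n3⟩ : w ∈ At N X C := e ▸ rfl
    exact .inr ⟨{w}, h1 w, e.le, singleton_subset_iff.2 hw, ν, n1, singleton_subset_iff.2 n2,
      c, n3, hc⟩

variable {A : SimpleGraph U} {G R : SimpleGraph V} {Ls : Set (Set V)} {Bs : Set (Bag U V)}

theorem Pre.tog (h : Pre A G R Ls Bs g) {x y : V} (e : G.Adj x y) : Tog (Nodes Ls Bs) x y := by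
  rcases h.cov x y e with ⟨L, h1, h2⟩ | ⟨β, h1, a, b, rfl, rfl, -⟩
  · exact ⟨L, .inl h1, h2⟩
  · exact ⟨_, .inr ⟨β, h1, rfl⟩, mem_range_self a, mem_range_self b⟩

theorem Pre.ccol (h : Pre A G R Ls Bs g) {β : Bag U V} (hβ : β ∈ Bs) (c : Bool) (a b : U) :
    (cc G R c).Adj (β.f a) (β.f b) ↔ (cc A β.red c).Adj a b :=
  cc_iff ((h.ind β hβ).adj a b) (h.col β hβ a b) c

theorem Pre.red_le (h : Pre A G R Ls Bs g) {β : Bag U V} (hβ : β ∈ Bs) : β.red ≤ A :=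
  fun a b e => ((h.ind β hβ).adj a b).1 (h.le ((h.col β hβ a b).2 e))

theorem Pre.eq_of_mem (h : Pre A G R Ls Bs g) {L L' : Set V} (hL : L ∈ Ls) (hL' : L' ∈ Ls) {x : V}
    (hx : x ∈ L) (hx' : x ∈ L') : L = L' := by
  by_contra e
  exact disjoint_left.1 (h.dis L hL L' hL' e) hx hx'

theorem Pre.mono (h : Pre A G R Ls Bs g) (hg : g' ≤ g) : Pre A G R Ls Bs g' :=
  { h with thin := fun ν hν => (h.thin ν hν).mono hg }

theorem Core.ccol {X : Type} {Γ RΓ : SimpleGraph X} {Hub : Set X} {Gs : Set (X → V)}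
    (h : Core A Γ RΓ Hub G R Gs Bs g) {γ : X → V} (hγ : γ ∈ Gs) (c : Bool) (a b : X) :
    (cc G R c).Adj (γ a) (γ b) ↔ (cc Γ RΓ c).Adj a b :=
  cc_iff ((h.gind γ hγ).adj a b) (h.gcol γ hγ a b) c

theorem Core.eq_of_mem {X : Type} {Γ RΓ : SimpleGraph X} {Hub : Set X} {Gs : Set (X → V)}
    (h : Core A Γ RΓ Hub G R Gs Bs g) {γ γ' : X → V} (hγ : γ ∈ Gs) (hγ' : γ' ∈ Gs) {x : V}
    (hx : x ∈ range γ) (hx' : x ∈ range γ') : γ = γ' := by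
  by_contra e
  exact disjoint_left.1 (h.gdis γ hγ γ' hγ' e) hx hx'

end Fr

end Pool.Agent.MP_1c0fc2_co.RE

end

section

/-! The `α`-sets attach along cliques with at most two vertices. -/

open Function Set Relation

namespace Pool.Agent.MP_1c0fc2_co.RE

variable {V W : Type} {H : SimpleGraph W} {P : Par}

theorem xatoma_back [Finite W] [Finite V] (hEq : EqStmt) (ok : P.Ok H) {J : SimpleGraph V}
    {f : V → W} {O N : Set V} (hf : IHo J H f O) (hO : AS P H J O) (hN : N ⊆ O)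
    (h : Cq H (f '' N)) : Cq J N := by
  refine cq_of (fun a ha b hb hab => ?_) fun a ha b hb c hc => ?_
  · exact hEq W V W H P ok J H f id O hf ((ih_id le_rfl).on _) (.inr hO) a (hN ha) b (hN hb)
      (h.adj (mem_image_of_mem f ha) (mem_image_of_mem f hb)
        fun e => hab (hf.1 (hN ha) (hN hb) e))
  · rcases h.three (mem_image_of_mem f ha) (mem_image_of_mem f hb) (mem_image_of_mem f hc) with
      e | e | e
    exacts [.inl (hf.1 (hN ha) (hN hb) e), .inr (.inl (hf.1 (hN ha) (hN hc) e)),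
      .inr (.inr (hf.1 (hN hb) (hN hc) e))]

/-- a minimal counterexample gives a larger 2-connected set -/
theorem xatoma_two [Finite W] {O C : Set W} (hO : TwoConn H O) (hd : Disjoint C O)
    (hC : ConnOn H.Adj C) (hn : ¬ Cq H (Nb H O C))
    (hmin : ∀ C', C' ⊆ C → C' ≠ C → ConnOn H.Adj C' → Cq H (Nb H O C')) : TwoConn H (O ∪ C) := by
  refine ⟨hO.1.trans (ncard_le_ncard subset_union_left (toFinite _)), fun v => ?_⟩
  by_cases hv : v ∈ C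
  · have hvO : v ∉ O := disjoint_left.1 hd hv
    have key : ∀ c ∈ C \ {v}, ∃ u ∈ O, ∃ d ∈ comp H.Adj (C \ {v}) c, H.Adj u d := by
      intro c hc
      by_contra hno
      have hx : ∀ x ∈ C ∩ (comp H.Adj (C \ {v}) c)ᶜ, ∀ d ∈ comp H.Adj (C \ {v}) c,
          H.Adj x d → x = v := fun x hx d hd' e => by
        by_contra hxv
        exact hx.2 (comp_closed hd' ⟨hx.1, hxv⟩ e.symm)
      have hconn : ConnOn H.Adj (C ∩ (comp H.Adj (C \ {v}) c)ᶜ) :=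
        hC.trace (adj_symm' H) _ (fun _ _ _ _ _ e => e)
          fun D hD _ x hx' y hy' hxy ⟨d, h1, e1⟩ ⟨d', h2, e2⟩ =>
            absurd ((hx x hx' d (not_not.1 (hD h1).2) e1).trans
              (hx y hy' d' (not_not.1 (hD h2).2) e2).symm) hxy
      refine hn ((hmin _ inter_subset_left (fun e => ?_) hconn).sub ?_)
      · have h1 : c ∈ C ∩ (comp H.Adj (C \ {v}) c)ᶜ := by rw [e]; exact hc.1
        exact h1.2 (mem_comp hc)
      · rintro u ⟨hu, d, h1, e⟩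
        exact ⟨hu, d, ⟨h1, fun h2 => hno ⟨u, hu, d, h2, e⟩⟩, e⟩
    obtain ⟨a, ha⟩ := hO.nonempty
    have hsub : O ⊆ (O ∪ C) \ {v} := fun x hx => ⟨.inl hx, fun e => hvO (mem_singleton_iff.1 e ▸ hx)⟩
    refine connOn_of_base (adj_symm' H) a ?_
    rintro x ⟨hx | hx, hxv⟩
    · exact rtg_sub hsub (hO.conn a ha x hx)
    · obtain ⟨u, hu, d, h1, e⟩ := key x ⟨hx, hxv⟩
      refine rtg_sub (union_subset hsub fun y hy => ⟨.inr (comp_sub hy).1, (comp_sub hy).2⟩)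
        (hO.conn.union (adj_symm' H) (comp_conn (adj_symm' H)) hu h1 (.inr e) a (.inl ha) x
          (.inr (mem_comp ⟨hx, hxv⟩)))
  · obtain ⟨x, hx, y, hy, hxy⟩ := not_subsingleton_iff.1 fun h => hn (.inl h)
    obtain ⟨u, ⟨hu, c, hc, e⟩, huv⟩ : ∃ u ∈ Nb H O C, u ≠ v := by
      by_cases e : x = v
      · exact ⟨y, hy, fun e' => hxy (e.trans e'.symm)⟩
      · exact ⟨x, hx, e⟩
    have e' : (O ∪ C) \ {v} = (O \ {v}) ∪ C := by
      rw [union_sdiff_distrib, sdiff_singleton_eq_self hv]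
    rw [e']
    exact (hO.2 v).union (adj_symm' H) hC ⟨hu, huv⟩ hc (.inr e)

/-- a torso through the root edge contains the whole stiff set -/
theorem xatoma_sub [Finite W] (hNsep : NsepStmt) {O C S' : Set W} {a b : W} (hO : RS H H O a b)
    (hd : Disjoint C O) (hC : ConnOn H.Adj C) (hn : ¬ Cq H (Nb H O C)) (ha : a ∈ S')
    (hb : b ∈ S') (ht : Torso H H (O ∪ C) S') : O ⊆ S' := by
  obtain ⟨t1, -, t3, f, hf, t5⟩ := ht
  obtain ⟨haO, hbO, hab, hO2, hrs⟩ := id hO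
  by_contra hno
  by_cases h3 : 3 ≤ (O ∩ S').ncard
  · refine hrs (O ∩ S') ⟨haO, ha⟩ ⟨hbO, hb⟩ ⟨inter_subset_left, fun e => hno (inter_eq_left.1 e),
      h3, f, hf.sub inter_subset_right, fun D hD hc => (t5 D (fun x hx => ?_) hc).sub
        (image_mono fun x hx => ⟨hx.1.2, hx.2⟩)⟩
    exact ⟨.inl (hD hx).1, fun h => (hD hx).2 ⟨(hD hx).1, h⟩⟩
  have hint : ∀ x ∈ O, x ∈ S' → x = a ∨ x = b := fun x hx hx' => by
    by_contra hc
    push Not at hc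
    refine h3 ?_
    rw [← ncard_eq_three.2 ⟨a, b, x, hab.ne, hc.1.symm, hc.2.symm, rfl⟩]
    refine ncard_le_ncard ?_ (toFinite _)
    rintro y (rfl | rfl | rfl)
    exacts [⟨haO, ha⟩, ⟨hbO, hb⟩, ⟨hx, hx'⟩]
  obtain ⟨hconn, x0, hx0⟩ := hNsep W W H H (In.of_le le_rfl) O a b {a, b} hO
    (.inr ⟨a, b, hab, rfl⟩)
  have hsub : O \ {a, b} ⊆ (O ∪ C) \ S' := fun x hx => ⟨.inl hx.1, fun h => hx.2 (hint x hx.1 h)⟩
  have hD : O \ {a, b} ⊆ comp H.Adj ((O ∪ C) \ S') x0 :=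
    hconn.sub_comp hsub hx0 (mem_comp (hsub hx0))
  have hq := t5 (comp H.Adj ((O ∪ C) \ S') x0) comp_sub (comp_conn (adj_symm' H))
  have hna : a ∈ Nb H S' (comp H.Adj ((O ∪ C) \ S') x0) := by
    obtain ⟨c, hc, h1, h2⟩ := hO2.nbr haO b hab.ne
    exact ⟨ha, c, hD ⟨hc, fun h => h.elim (fun e => h2.ne e.symm) h1⟩, h2⟩
  have hnb : b ∈ Nb H S' (comp H.Adj ((O ∪ C) \ S') x0) := by
    obtain ⟨c, hc, h1, h2⟩ := hO2.nbr hbO a hab.ne'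
    exact ⟨hb, c, hD ⟨hc, fun h => h.elim h1 fun e => h2.ne (mem_singleton_iff.1 e).symm⟩, h2⟩
  have hnC : ∀ y ∈ C, y ∉ Nb H S' (comp H.Adj ((O ∪ C) \ S') x0) := fun y hy h => by
    rcases hq.three (mem_image_of_mem f hna) (mem_image_of_mem f hnb) (mem_image_of_mem f h) with
      e | e | e
    · exact hab.ne (hf.1 ha hb e)
    · exact disjoint_left.1 hd hy (hf.1 ha h.1 e ▸ haO)
    · exact disjoint_left.1 hd hy (hf.1 hb h.1 e ▸ hbO)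
  have hstep : ∀ x ∈ comp H.Adj ((O ∪ C) \ S') x0, ∀ y ∈ C, H.Adj x y →
      y ∈ comp H.Adj ((O ∪ C) \ S') x0 := fun x hx y hy e =>
    comp_closed hx ⟨.inr hy, fun h => hnC y hy ⟨h, x, hx, e.symm⟩⟩ e
  obtain ⟨u, ⟨hu, c, hc, e⟩, hu'⟩ := not_subset.1 fun h : Nb H O C ⊆ {a, b} =>
    hn (Cq.sub (.inr ⟨a, b, hab, rfl⟩) h)
  have hCD : C ⊆ comp H.Adj ((O ∪ C) \ S') x0 :=
    hC.sub hc (hstep u (hD ⟨hu, hu'⟩) c hc e) fun x _ y hy hx e' => hstep x hx y hy e'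
  have hS : S' ⊆ {a, b} := fun s hs => (t1 hs).elim (fun h => hint s h hs)
    fun h => absurd hs (comp_sub (hCD h)).2
  have h4 := ncard_le_ncard hS (toFinite _)
  have h5 := ncard_pair_le a b
  omega

theorem xatoma_host [Finite W] (hEq : EqStmt) (hNsep : NsepStmt) (ok : P.Ok H) (n : ℕ) :
    ∀ O C : Set W, C.ncard = n → AS P H H O → Disjoint C O → ConnOn H.Adj C →
      Cq H (Nb H O C) := by
  induction n using Nat.strong_induction_on with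
  | _ n ih =>
  intro O C hcard hO hd hC
  by_contra hn
  obtain ⟨a, b, hrs⟩ := hO.1
  have htwo : TwoConn H (O ∪ C) := xatoma_two hO.two hd hC hn fun C' h1 h2 h3 =>
    ih _ (hcard ▸ ncard_lt_ncard (h1.ssubset_of_ne h2) (toFinite _)) O C' rfl hO
      (hd.mono_left h1) h3
  obtain ⟨_, ⟨-, c0, hc0, -⟩, -⟩ := not_subsingleton_iff.1 fun h => hn (.inl h)
  have hlt : O.ncard < (O ∪ C).ncard := ncard_lt_ncard
    ⟨subset_union_left, fun h => disjoint_left.1 hd hc0 (h (.inr hc0))⟩ (toFinite _)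
  obtain ⟨S', ha, hb, ht⟩ : ∃ S', a ∈ S' ∧ b ∈ S' ∧ Torso H H (O ∪ C) S' := by
    by_contra hc
    have h1 := ok.maxA (O ∪ C) a b ⟨.inl hrs.1, .inl hrs.2.1, hrs.2.2.1, htwo,
      fun S' h1 h2 h3 => hc ⟨S', h1, h2, h3⟩⟩
    have h2 := hO.2.1
    omega
  have hOS : O ⊆ S' := xatoma_sub hNsep hrs hd hC hn ha hb ht
  obtain ⟨t1, t2, -, f, hf, t5⟩ := ht
  refine hn (xatoma_back hEq ok (hf.sub hOS) hO (fun _ h => h.1) ?_)
  rcases (C ∩ S').eq_empty_or_nonempty with e | ⟨c1, hc1⟩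
  · refine (t5 C (fun x hx => ⟨.inr hx, fun h => ?_⟩) hC).sub
      (image_mono fun x hx => ⟨hOS hx.1, hx.2⟩)
    exact (e ▸ ⟨hx, h⟩ : x ∈ (∅ : Set W))
  have hadj : ∀ D, D ⊆ C \ S' → ConnOn H.Adj D → ∀ x ∈ S', ∀ y ∈ S', x ≠ y →
      (∃ d ∈ D, H.Adj x d) → (∃ d ∈ D, H.Adj y d) → H.Adj (f x) (f y) :=
    fun D hD hc x hx y hy hxy h1 h2 =>
      (t5 D (fun z hz => ⟨.inr (hD hz).1, (hD hz).2⟩) hc).adj (mem_image_of_mem f ⟨hx, h1⟩)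
        (mem_image_of_mem f ⟨hy, h2⟩) fun e => hxy (hf.1 hx hy e)
  have hconn : ConnOn H.Adj (f '' (C ∩ S')) :=
    (hC.trace (Q := fun x y => H.Adj (f x) (f y)) (adj_symm' H) S'
      (fun x hx y hy _ e => hf.2 x hx.2 y hy.2 e)
      fun D hD hc x hx y hy => hadj D hD hc x hx.2 y hy.2).image f fun _ _ _ _ e => .inr e
  have hss : C ∩ S' ⊂ C := ⟨inter_subset_left, fun h => t2
    (Subset.antisymm t1 (union_subset hOS fun x hx => (h hx).2))⟩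
  have hlt' : (f '' (C ∩ S')).ncard < n := (ncard_image_le (toFinite _)).trans_lt
    (hcard ▸ ncard_lt_ncard hss (toFinite _))
  have hd' : Disjoint (f '' (C ∩ S')) (f '' O) := by
    rw [disjoint_left]
    rintro _ ⟨x, hx, rfl⟩ ⟨y, hy, e⟩
    exact disjoint_left.1 hd hx.1 (hf.1 (hOS hy) hx.2 e ▸ hy)
  refine (ih _ hlt' (f '' O) _ rfl (hO.map (hf.sub hOS)) hd' hconn).sub ?_
  rintro _ ⟨u, ⟨hu, c, hc, e⟩, rfl⟩
  refine ⟨mem_image_of_mem f hu, ?_⟩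
  by_cases hcS : c ∈ S'
  · exact ⟨f c, mem_image_of_mem f ⟨hc, hcS⟩, hf.2 u (hOS hu) c hcS e⟩
  · obtain ⟨x, hx, y, hy, e'⟩ := hC.comp_nb (Y := S') ⟨hc, hcS⟩ hc1
    exact ⟨f y, mem_image_of_mem f hy, hadj _ comp_sub (comp_conn (adj_symm' H)) u (hOS hu) y hy.2
      (fun e'' => disjoint_left.1 hd hy.1 (e'' ▸ hu)) ⟨c, mem_comp ⟨hc, hcS⟩, e⟩ ⟨x, hx, e'.symm⟩⟩

theorem atomA_stmt (hEq : EqStmt) (hNsep : NsepStmt) : AtomAStmt := by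
  intro W V _ _ H P ok J hJ
  refine ⟨fun _ _ h h' => h.sub h', fun _ => .inl subsingleton_singleton,
    fun _ h _ ha _ hb hab => h.adj ha hb hab, fun O C hO hd hC => ?_, fun O τ hO hτ => ?_,
    fun O O' hO hO' h => eq_of_subset_of_ncard_le h (by rw [hO.2.1, hO'.2.1]) (toFinite _)⟩
  · obtain ⟨h, hh⟩ := hJ
    refine xatoma_back hEq ok (hh.on O) hO (fun _ h => h.1)
      ((xatoma_host hEq hNsep ok _ (h '' O) (h '' C) rfl (hO.map (hh.on O))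
        ((disjoint_image_iff hh.1).2 hd) (hC.map (hh.on C))).sub ?_)
    rintro _ ⟨u, ⟨hu, c, hc, e⟩, rfl⟩
    exact ⟨mem_image_of_mem h hu, h c, mem_image_of_mem h hc, hh.2 _ _ e⟩
  · obtain ⟨a, b, hrs⟩ := hO.1
    exact hNsep W V H J hJ O a b τ hrs hτ

end Pool.Agent.MP_1c0fc2_co.RE

end

section

open Function Set Relation

namespace Pool.Agent.MP_1c0fc2_co.RE

theorem leaf_stmt : LeafStmt := by
  intro V _ N Lk g hT Z hZ hcov ν0 hν0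
  by_cases h0 : Z ⊆ ν0
  · exact .inl h0
  refine .inr ?_
  have key : ∀ n, ∀ X ∈ N, ∀ a ∈ Z \ X, Disjoint (comp (Tog N) (Z \ X) a) ν0 →
      (comp (Tog N) (Z \ X) a).ncard = n → ∃ μ ∈ N, ∃ ℓ, (ℓ = ∅ ∨ Lk ℓ) ∧ ℓ ⊆ μ ∧
        ((Z ∩ μ) \ ℓ).Nonempty ∧ ∀ s ∈ (Z ∩ μ) \ ℓ, s ∉ ν0 ∧ ∀ z ∈ Z, Tog N s z → z ∈ μ := by
    intro n
    induction n using Nat.strong_induction_on with | _ n ih
    intro X hX a ha hd hn
    set C := comp (Tog N) (Z \ X) a with hC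
    have hCZ : C ⊆ Z \ X := comp_sub
    obtain ⟨μ, hμ, ℓ, l1, l2, l3, l4, c, c1, c2⟩ : ∃ μ ∈ N, ∃ ℓ, (ℓ = ∅ ∨ Lk ℓ) ∧ ℓ ⊆ μ ∧ ℓ ⊆ X ∧
        At N X C ⊆ ℓ ∧ (μ ∩ C).Nonempty := by
      rcases hT X hX C ((ncard_le_ncard (hCZ.trans sdiff_subset)).trans hZ)
        (disjoint_left.2 fun x hx => (hCZ hx).2) (comp_conn (tog_symm N)) with
        e | ⟨ℓ, l1, l2, l3, μ, hμ, l4, l5⟩
      · obtain ⟨μ, hμ, h⟩ := hcov a ha.1
        exact ⟨μ, hμ, ∅, .inl rfl, empty_subset _, empty_subset _, e.le, a, h, mem_comp ha⟩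
      · exact ⟨μ, hμ, ℓ, .inr l1, l4, l3, l2, l5⟩
    have hS : ∀ s ∈ (Z ∩ μ) \ ℓ, s ∈ C := fun s hs => by
      by_cases hsX : s ∈ X
      · exact absurd (l4 ⟨hsX, c, c2, μ, hμ, hs.1.2, c1⟩) hs.2
      · exact comp_closed c2 ⟨hs.1.1, hsX⟩ ⟨μ, hμ, c1, hs.1.2⟩
    by_cases hall : ∀ s ∈ (Z ∩ μ) \ ℓ, ∀ z ∈ Z, Tog N s z → z ∈ μ
    · exact ⟨μ, hμ, ℓ, l1, l2, ⟨c, ⟨(hCZ c2).1, c1⟩, fun h => (hCZ c2).2 (l3 h)⟩,
        fun s hs => ⟨disjoint_left.1 hd (hS s hs), hall s hs⟩⟩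
    push Not at hall
    obtain ⟨s, hs, z, hz, hsz, hzμ⟩ := hall
    have hzC : z ∈ C := by
      by_cases hzX : z ∈ X
      · exact absurd (l2 (l4 ⟨hzX, s, hS s hs, hsz.symm⟩)) hzμ
      · exact comp_closed (hS s hs) ⟨hz, hzX⟩ hsz
    have hsub : comp (Tog N) (Z \ μ) z ⊆ C := by
      refine (comp_conn (tog_symm N)).sub (mem_comp ⟨hz, hzμ⟩) hzC fun x _ y hy hxC hxy => ?_
      by_cases hyX : y ∈ X
      · exact absurd (l2 (l4 ⟨hyX, x, hxC, hxy.symm⟩)) (comp_sub hy).2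
      · exact comp_closed hxC ⟨(comp_sub hy).1, hyX⟩ hxy
    refine ih _ ?_ μ hμ z ⟨hz, hzμ⟩ (hd.mono_left hsub) rfl
    rw [← hn]
    exact ncard_lt_ncard ⟨hsub, fun h => (comp_sub (h c2)).2 c1⟩
  obtain ⟨a, ha, ha'⟩ := not_subset.1 h0
  exact key _ ν0 hν0 a ⟨ha, ha'⟩ (disjoint_left.2 fun x hx => (comp_sub hx).2) rfl

theorem proj_stmt : ProjStmt := by
  intro V _ N N' Lk n X C hT hc hn hC
  have key : ∀ D, D ⊆ C \ X → ConnOn (Tog N) D → ∀ x ∈ X, ∀ y ∈ X, x ≠ y → (∃ d ∈ D, Tog N x d) →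
      (∃ d ∈ D, Tog N y d) → Tog N' x y := by
    rintro D hD hDc x hx y hy hxy ⟨d, hd, hxd⟩ h2
    obtain ⟨ℓ, -, l2, -, ν, hν, l3, -⟩ := hT.link ((ncard_le_ncard hD).trans hn)
      (disjoint_left.2 fun z hz => (hD hz).2) hDc hx hd hxd
    exact hc x y hxy hx hy ⟨ν, hν, l3 (l2 ⟨hx, d, hd, hxd⟩), l3 (l2 ⟨hy, h2⟩)⟩
  refine ⟨hC.trace (tog_symm N) X (fun x hx y hy e h => hc x y e hx.2 hy.2 h)
    fun D h1 h2 x hx y hy => key D h1 h2 x hx.2 y hy.2, ?_⟩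
  rintro w hw hwC ⟨c, hcC, hwc⟩ ⟨b, hb⟩
  by_cases hcX : c ∈ X
  · exact ⟨c, ⟨hcC, hcX⟩, hc w c (fun e => hwC (e ▸ hcC)) hw hcX hwc⟩
  · obtain ⟨x, hx, y, hy, hxy⟩ := hC.comp_nb (Y := X) ⟨hcC, hcX⟩ hb
    exact ⟨y, hy, key _ comp_sub (comp_conn (tog_symm N)) w hw y hy.2 (fun e => hwC (e ▸ hy.1))
      ⟨c, mem_comp ⟨hcC, hcX⟩, hwc⟩ ⟨x, hx, hxy.symm⟩⟩

/-- the local step: a set that meets the region is handled inside the region -/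
theorem xframe_in {V : Type} [Finite V] {N N' : Set (Set V)} {Lk : Set V → Prop} {n g : ℕ}
    {X S Y C : Set V} (hT : Thin N Lk n X) (hN : N' ⊆ N)
    (hc : ∀ x y, x ≠ y → x ∈ X → y ∈ X → Tog N x y → Tog N' x y) (hn : (C \ X).ncard ≤ n)
    (hg : C.ncard ≤ g) (hC : ConnOn (Tog N) C) (hX : (C ∩ X).Nonempty) (hS : Thin N' Lk g S)
    (hSX : S ⊆ X) (hSY : S ⊆ Y) (hd : Disjoint C Y) (hA : At N Y C ⊆ S) :
    At N Y C = ∅ ∨ ∃ ℓ, Lk ℓ ∧ At N Y C ⊆ ℓ ∧ ℓ ⊆ Y ∧ ∃ ν ∈ N, ℓ ⊆ ν ∧ (ν ∩ C).Nonempty := by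
  obtain ⟨h1, h2⟩ := proj_stmt V N N' Lk n X C hT hc hn hC
  have h3 : At N Y C ⊆ At N' S (C ∩ X) := fun w hw =>
    ⟨hA hw, h2 w (hSX (hA hw)) (disjoint_right.1 hd hw.1) hw.2 hX⟩
  rcases hS (C ∩ X) ((ncard_le_ncard inter_subset_left).trans hg)
    (hd.mono inter_subset_left hSY) h1 with e | ⟨ℓ, l1, l2, l3, ν, hν, l4, c, c1, c2⟩
  · exact .inl (subset_eq_empty h3 e)
  · exact .inr ⟨ℓ, l1, h3.trans l2, l3.trans hSY, ν, hN hν, l4, c, c1, c2.1⟩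

theorem local_stmt : LocalStmt := by
  intro V _ N N' Lk g X Y hT hN hc hY hL hI C hg hd hC
  by_cases hX : (C ∩ X).Nonempty
  · exact xframe_in hT hN hc ((ncard_le_ncard sdiff_subset).trans hg) hg hC hX hL hY subset_rfl hd
      fun w hw => hw.1
  · have h1 : At N Y C ⊆ At N X C := fun w hw => ⟨hY hw.1, hw.2⟩
    rcases hT C hg (disjoint_iff_inter_eq_empty.2 (not_nonempty_iff_eq_empty.1 hX)) hC with
      e | ⟨ℓ, l1, l2, -, ν, hν, l4, l5⟩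
    · exact .inl (subset_eq_empty h1 e)
    · have h2 : At N Y C ⊆ ℓ ∩ Y := fun w hw => ⟨l2 (h1 hw), hw.1⟩
      rcases hI ℓ l1 with e | e
      · exact .inl (subset_eq_empty h2 e)
      · exact .inr ⟨_, e, h2, inter_subset_right, ν, hν, inter_subset_left.trans l4, l5⟩

theorem parts_stmt : PartsStmt := by
  intro V Q _ X loc Lk g hsub hdis p Y hY hT C hg hd hC
  have key : ∀ x y, x ∈ X p → Tog (⋃ q, loc q) x y → Tog (loc p) x y := by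
    rintro x y hx ⟨ν, hν, h1, h2⟩
    obtain ⟨q, hq⟩ := mem_iUnion.1 hν
    by_cases e : p = q
    · exact ⟨ν, e ▸ hq, h1, h2⟩
    · exact absurd (hsub q ν hq h1) (disjoint_left.1 (hdis p q e) hx)
  have hin : ∀ x y, Tog (loc p) x y → y ∈ X p := fun x y ⟨ν, hν, _, h⟩ => hsub p ν hν h
  by_cases h0 : At (⋃ q, loc q) Y C = ∅
  · exact .inl h0
  obtain ⟨w, hw, c, hc, hwc⟩ := nonempty_iff_ne_empty.2 h0
  have hCX : C ⊆ X p := hC.sub hc (hin _ _ (key _ _ (hY hw) hwc))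
    fun x _ y _ hx h => hin _ _ (key _ _ hx h)
  obtain ⟨ℓ, l1, l2, l3, ν, hν, l4⟩ := hT.link hg hd (hC.mono fun x hx y _ h => key _ _ (hCX hx) h)
    hw hc (key _ _ (hY hw) hwc)
  exact .inr ⟨ℓ, l1, fun z ⟨hz, d, hd, h⟩ => l2 ⟨hz, d, hd, key _ _ (hY hz) h⟩, l3, ν,
    mem_iUnion.2 ⟨p, hν⟩, l4⟩

theorem pair_stmt : PairStmt := by
  rintro V _ N G g hT u v C huv ⟨ν, hν, hu, hv⟩ hg hC - - h1 h2
  by_cases h : (ν ∩ C).Nonempty
  · exact ⟨ν, hν, hu, hv, h⟩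
  · exact ((hT ν hν).two hg (disjoint_iff_inter_eq_empty.2
      (by rw [inter_comm]; exact not_nonempty_iff_eq_empty.1 h)) hC ⟨hu, h1⟩ ⟨hv, h2⟩ huv).2.2

theorem xframe_tog {V V' : Type} {f : V → V'} (hf : Injective f) {N : Set (Set V)} {x y : V} :
    Tog (image f '' N) (f x) (f y) ↔ Tog N x y :=
  ⟨fun ⟨_, ⟨ν, hν, rfl⟩, h1, h2⟩ => ⟨ν, hν, (hf.mem_set_image).1 h1, (hf.mem_set_image).1 h2⟩,
    fun ⟨ν, hν, h1, h2⟩ => ⟨_, ⟨ν, hν, rfl⟩, mem_image_of_mem f h1, mem_image_of_mem f h2⟩⟩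

theorem xframe_rng {V V' : Type} {f : V → V'} {N : Set (Set V)} {x y : V'}
    (h : Tog (image f '' N) x y) : y ∈ range f := by
  obtain ⟨_, ⟨ν, -, rfl⟩, -, h⟩ := h
  exact image_subset_range _ _ h

theorem xframe_pull {V V' : Type} {f : V → V'} (hf : Injective f) {N : Set (Set V)} {C : Set V'}
    (hC : ConnOn (Tog (image f '' N)) C) {c : V'} (hc : c ∈ C) (hr : c ∈ range f) :
    ∃ D, C = f '' D ∧ ConnOn (Tog N) D := by
  have h1 : C ⊆ range f := hC.sub hc hr fun _ _ _ _ _ h => xframe_rng h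
  obtain ⟨x0, -⟩ := hr
  have : Nonempty V := ⟨x0⟩
  refine ⟨invFun f '' C, ?_, hC.image _ fun x hx y hy h => .inr ?_⟩
  · rw [← image_comp]
    exact ((image_congr fun z hz => invFun_eq (h1 hz)).trans (image_id' C)).symm
  · rwa [← xframe_tog hf, invFun_eq (h1 hx), invFun_eq (h1 hy)]

theorem map_stmt : MapStmt := by
  intro V V' _ _ f N g hf
  refine ⟨fun Lk Lk' Y hL hT C hg hd hC => ?_, fun X Y u hF C hg hC h1 h2 => ?_⟩
  · by_cases h0 : At (image f '' N) (f '' Y) C = ∅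
    · exact .inl h0
    obtain ⟨_, ⟨w, hw, rfl⟩, c, hc, hwc⟩ := nonempty_iff_ne_empty.2 h0
    obtain ⟨D, rfl, hD⟩ := xframe_pull hf hC hc (xframe_rng hwc)
    obtain ⟨c, hc', rfl⟩ := hc
    obtain ⟨ℓ, l1, l2, l3, ν, hν, l4, d, d1, d2⟩ := hT.link
      (by rwa [ncard_image_of_injective _ hf] at hg) ((disjoint_image_iff hf).1 hd) hD hw hc'
      ((xframe_tog hf).1 hwc)
    refine .inr ⟨f '' ℓ, hL ℓ l1, ?_, image_mono l3, f '' ν, ⟨ν, hν, rfl⟩, image_mono l4, f d,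
      mem_image_of_mem f d1, mem_image_of_mem f d2⟩
    rintro _ ⟨⟨z, hz, rfl⟩, _, ⟨e, he, rfl⟩, h⟩
    exact mem_image_of_mem f (l2 ⟨hz, e, he, (xframe_tog hf).1 h⟩)
  · obtain ⟨c, hc, hc'⟩ := h1
    obtain ⟨D, rfl, hD⟩ := xframe_pull hf hC hc (image_subset_range _ _ hc')
    rw [ncard_image_of_injective _ hf] at hg
    rw [← image_inter hf, image_nonempty] at h2
    refine mem_image_of_mem f (hF D hg hD ?_ h2)
    obtain ⟨x, hx, rfl⟩ := hc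
    exact ⟨x, hx, (hf.mem_set_image).1 hc'⟩

theorem glue_stmt : GlueStmt := by
  intro N0 V Q _ _ B Lk0 own X loc Lk g hT h2 ho hn hsub hc hL
  have hco : ∀ x y, Tog (⋃ q, loc q) x y → ∃ q, x ∈ X q ∧ y ∈ X q := by
    rintro x y ⟨ν, hν, h1, h2⟩
    obtain ⟨q, hq⟩ := mem_iUnion.1 hν
    exact ⟨q, hsub q ν hq h1, hsub q ν hq h2⟩
  have hcons : ∀ p x y, x ≠ y → x ∈ X p → y ∈ X p → Tog (⋃ q, loc q) x y → Tog (loc p) x y := by
    rintro p x y e hx hy ⟨ν, hν, h⟩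
    obtain ⟨q, hq⟩ := mem_iUnion.1 hν
    exact hc p q x y e hx hy ⟨ν, hq, h⟩
  have coarse : ∀ p (C : Set V), C.ncard ≤ g → Disjoint C (X p) → ConnOn (Tog (⋃ q, loc q)) C →
      (At (⋃ q, loc q) (X p) C).Nonempty → ∃ q ℓ, Lk0 ℓ ∧ ℓ ⊆ B p ∧ ℓ ⊆ B q ∧
        At (⋃ q, loc q) (X p) C ⊆ {x | ∃ n ∈ ℓ, own x = some n} ∧ (C ∩ X q).Nonempty := by
    intro p C hg hd hC ⟨w0, hw0⟩
    have hat : ∀ w ∈ At (⋃ q, loc q) (X p) C, ∃ n q, ∃ c ∈ C, own w = some n ∧ n ∈ B p ∧ n ∈ B q ∧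
        c ∈ X q := by
      rintro w ⟨hw, c, hcC, h⟩
      obtain ⟨q, h1, h3⟩ := hco _ _ h
      cases e : own w with
      | none => exact absurd (hn w p q e hw h1 ▸ h3) (disjoint_left.1 hd hcC)
      | some n => exact ⟨n, q, c, hcC, rfl, (ho w n p e).1 hw, (ho w n q e).1 h1, h3⟩
    by_cases h0 : ∃ x ∈ C, ∃ n, own x = some n
    · obtain ⟨x0, hx0, n0, e0⟩ := h0
      let D : Set N0 := {n | ∃ x ∈ C, own x = some n}
      have key : ∀ x, ReflTransGen (fun x y => x ∈ C ∧ y ∈ C ∧ Tog (⋃ q, loc q) x y) x0 x →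
          ∀ q, x ∈ X q → ∃ n ∈ D, n ∈ B q ∧
            ReflTransGen (fun x y => x ∈ D ∧ y ∈ D ∧ Tog (range B) x y) n0 n ∧
            ∀ n', own x = some n' → n' = n := by
        intro x hx
        induction hx with
        | refl => exact fun q hq => ⟨n0, ⟨x0, hx0, e0⟩, (ho _ _ _ e0).1 hq, .refl,
            fun n' e => Option.some_injective _ (e.symm.trans e0)⟩
        | @tail u v _ h ih =>
          intro q hq
          obtain ⟨r, h1, h3⟩ := hco _ _ h.2.2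
          obtain ⟨n, n1, n2, n3, -⟩ := ih r h1
          cases e : own v with
          | none => exact ⟨n, n1, hn v r q e h3 hq ▸ n2, n3, fun _ e => by cases e⟩
          | some n' => exact ⟨n', ⟨v, h.2.1, e⟩, (ho _ _ _ e).1 hq, n3.tail ⟨n1, ⟨v, h.2.1, e⟩,
              _, mem_range_self r, n2, (ho _ _ _ e).1 h3⟩,
              fun _ e => (Option.some_injective _ e).symm⟩
      have hD : ConnOn (Tog (range B)) D := by
        refine connOn_of_base (tog_symm _) n0 ?_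
        rintro n ⟨x, hx, e⟩
        by_cases e' : x = x0
        · obtain rfl : n = n0 := Option.some_injective _ (e.symm.trans (e' ▸ e0))
          exact .refl
        · obtain ⟨y, -, -, h⟩ := hC.step hx hx0 (Ne.symm e')
          obtain ⟨q, hq, -⟩ := hco _ _ h
          obtain ⟨n', -, -, n3, n4⟩ := key x (hC x0 hx0 x hx) q hq
          exact n4 n e ▸ n3
      have hDg : D.ncard ≤ g := by
        refine le_trans ?_ hg
        rw [← ncard_image_of_injective D (Option.some_injective N0)]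
        refine le_trans (ncard_le_ncard (t := own '' C) ?_) (ncard_image_le)
        rintro _ ⟨n, ⟨x, hx, e⟩, rfl⟩
        exact ⟨x, hx, e⟩
      have hDd : Disjoint D (B p) := disjoint_left.2 fun n ⟨x, hx, e⟩ h =>
        disjoint_left.1 hd hx ((ho _ _ _ e).2 h)
      have hat' : ∀ w ∈ At (⋃ q, loc q) (X p) C, ∃ n ∈ At (range B) (B p) D, own w = some n := by
        intro w hw
        obtain ⟨n, q, c, hcC, e, n1, n2, n3⟩ := hat w hw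
        obtain ⟨n', m1, m2, -⟩ := key c (hC x0 hx0 c hcC) q n3
        exact ⟨n, ⟨n1, n', m1, _, mem_range_self q, n2, m2⟩, e⟩
      obtain ⟨n, ⟨n1, n', n2, n3⟩, -⟩ := hat' w0 hw0
      obtain ⟨ℓ, l1, l2, l3, _, ⟨q, rfl⟩, l4, m, m1, x, hx, e⟩ := (hT p).link hDg hDd hD n1 n2 n3
      exact ⟨q, ℓ, l1, l3, l4, fun w hw => let ⟨n, h1, h2⟩ := hat' w hw; ⟨n, l2 h1, h2⟩,
        x, hx, (ho _ _ _ e).2 m1⟩
    · have h1 : ∀ x ∈ C, own x = none := fun x hx => by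
        cases e : own x with
        | none => rfl
        | some n => exact absurd ⟨x, hx, n, e⟩ h0
      obtain ⟨n0, q, c, hcC, -, n1, n2, n3⟩ := hat w0 hw0
      have hCq : C ⊆ X q := hC.sub hcC n3 fun x hx y _ hxq h => by
        obtain ⟨r, r1, r2⟩ := hco _ _ h
        exact hn x r q (h1 x hx) r1 hxq ▸ r2
      rcases h2 p q (fun e => disjoint_left.1 hd hcC (e ▸ n3)) with e | ⟨ℓ, l1, l2, l3, l4⟩
      · exact absurd (e ▸ ⟨n1, n2⟩ : n0 ∈ (∅ : Set N0)) (notMem_empty _)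
      · refine ⟨q, ℓ, l1, l3, l4, fun w hw => ?_, c, hcC, n3⟩
        obtain ⟨n, r, d, hd', e, m1, m2, m3⟩ := hat w hw
        exact ⟨n, l2 ⟨m1, hn d r q (h1 d hd') m3 (hCq hd') ▸ m2⟩, e⟩
  have main : ∀ n, n ≤ g → ∀ p, Thin (⋃ q, loc q) Lk n (X p) := by
    intro n
    induction n with
    | zero =>
      intro _ p C hg _ _
      obtain rfl : C = ∅ := (ncard_eq_zero (toFinite C)).1 (Nat.le_zero.1 hg)
      exact .inl (eq_empty_of_forall_notMem fun w ⟨_, c, hc, _⟩ => hc)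
    | succ n ih =>
      intro hn' p C hg hd hC
      by_cases h0 : At (⋃ q, loc q) (X p) C = ∅
      · exact .inl h0
      obtain ⟨q, ℓ, l1, l2, l3, l4, c, hc'⟩ :=
        coarse p C (hg.trans hn') hd hC (nonempty_iff_ne_empty.2 h0)
      have hlt : (C \ X q).ncard < C.ncard :=
        ncard_lt_ncard ⟨sdiff_subset, fun h => (h hc'.1).2 hc'.2⟩
      exact xframe_in (ih (by omega) q) (subset_iUnion loc q) (hcons q) (by omega) (hg.trans hn')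
        hC ⟨c, hc'⟩ (hL q ℓ l1 l3) (fun x ⟨n, h1, h2⟩ => (ho _ _ _ h2).2 (l3 h1))
        (fun x ⟨n, h1, h2⟩ => (ho _ _ _ h2).2 (l2 h1)) hd l4
  exact main g le_rfl

end Pool.Agent.MP_1c0fc2_co.RE

end

section

open Function Set Relation

namespace Pool.Agent.MP_1c0fc2_co.RE

variable {V X Φ : Type} {G : SimpleGraph V} {b : X → V} {π : X → Set V} {Pn : Set X}
  {Z : Φ → Set V} {x y : Φ → X} {loc : Φ → Set (Set V)} {g : ℕ}

/-- `a` and `a'` are the two ends of `f` -/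
def Ends (x y : Φ → X) (f : Φ) (a a' : X) : Prop := (a = x f ∧ a' = y f) ∨ (a = y f ∧ a' = x f)

theorem Star.ends (h : Star G b π Pn Z x y loc g) {f : Φ} {a : X} {w : V} (h1 : w ∈ π a)
    (h2 : w ∈ Z f) : ∃ a', Ends x y f a a' := by
  by_cases e : a = x f
  · exact ⟨_, .inl ⟨e, rfl⟩⟩
  by_cases e' : a = y f
  · exact ⟨_, .inr ⟨e', rfl⟩⟩
  exact absurd h2 (disjoint_left.1 (h.oZ f a e e') h1)

theorem Ends.eq {f : Φ} {a a' d d' : X} (h : Ends x y f a a') (h' : Ends x y f d d') :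
    d = a ∨ d = a' := by
  rcases h with ⟨rfl, rfl⟩ | ⟨rfl, rfl⟩ <;> rcases h' with ⟨rfl, -⟩ | ⟨rfl, -⟩ <;> simp

theorem Star.eq (h : Star G b π Pn Z x y loc g) {a a' : X} {w : V} (h1 : w ∈ π a) (h2 : w ∈ π a') :
    a = a' := by
  by_contra e
  exact disjoint_left.1 (h.dis a a' e) h1 h2

theorem Star.far (h : Star G b π Pn Z x y loc g) {f : Φ} {a a' : X} (e : Ends x y f a a')
    {C : Set V} (hg : C.ncard ≤ g + 1) (hC : ConnOn (Tog (loc f)) C) (h1 : (C ∩ π a).Nonempty)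
    (h2 : (C ∩ π a').Nonempty) : b a ∈ C ∧ b a' ∈ C := by
  rcases e with ⟨rfl, rfl⟩ | ⟨rfl, rfl⟩
  exacts [⟨h.farx f C hg hC h1 h2, h.fary f C hg hC h2 h1⟩,
    ⟨h.fary f C hg hC h1 h2, h.farx f C hg hC h2 h1⟩]

/-- inner vertices of a lower system lie only in its bags -/
theorem Star.inner (h : Star G b π Pn Z x y loc g) {f : Φ} {z z' : V} (hz : z ∈ Z f)
    (hπ : ∀ a, z ∉ π a) (t : Tog (StarN b π Pn loc) z z') : Tog (loc f) z z' := by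
  obtain ⟨ν, rfl | ⟨a, -, rfl⟩ | ⟨f', hf'⟩, h1, h2⟩ := t
  · obtain ⟨a, rfl⟩ := h1
    exact absurd (h.bπ a) (hπ a)
  · exact absurd h1 (hπ a)
  · by_cases e : f = f'
    · exact ⟨ν, e ▸ hf', h1, h2⟩
    · obtain ⟨a, ha⟩ := h.ZZ f f' e
      exact absurd (ha ⟨hz, h.sub f' ν hf' h1⟩) (hπ a)

theorem Star.key [Finite V] (h : Star G b π Pn Z x y loc g) {f : Φ} {a a' : X}
    (e : Ends x y f a a') {C : Set V} (hg : C.ncard ≤ g) (hC : ConnOn (Tog (StarN b π Pn loc)) C)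
    (hd : Disjoint C (π a)) {w c : V} (hw : w ∈ π a) (hc : c ∈ C) (t : Tog (loc f) w c) :
    (C ⊆ Z f ∧ ∀ z ∈ C, ∀ d, z ∉ π d) ∨ (w = b a ∧ b a' ∈ C) := by
  have hZ : ∀ u v, Tog (loc f) u v → v ∈ Z f := fun u v ⟨ν, h1, _, h2⟩ => h.sub f ν h1 h2
  have fin : ∀ D, D ⊆ C → c ∈ D → ConnOn (Tog (loc f)) D → (D ∩ π a').Nonempty →
      w = b a ∧ b a' ∈ C := by
    rintro D h1 h2 h3 ⟨z, hz⟩
    obtain ⟨k1, k2⟩ := h.far e (C := insert w D)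
      ((ncard_insert_le w D).trans (Nat.succ_le_succ ((ncard_le_ncard h1).trans hg)))
      (h3.insert (tog_symm _) h2 t) ⟨w, .inl rfl, hw⟩ ⟨z, .inr hz.1, hz.2⟩
    have hne : a ≠ a' := by
      rcases e with ⟨rfl, rfl⟩ | ⟨rfl, rfl⟩
      exacts [h.ne f, (h.ne f).symm]
    refine ⟨(k1.resolve_right fun k => disjoint_left.1 hd (h1 k) (h.bπ a)).symm, ?_⟩
    exact h1 (k2.resolve_left fun k => hne (h.eq hw (k ▸ h.bπ a')))
  by_cases hca : c ∈ π a'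
  · exact .inr (fin {c} (singleton_subset_iff.2 hc) rfl (connOn_singleton c) ⟨c, rfl, hca⟩)
  let D := comp (Tog (loc f)) ((C ∩ Z f) \ π a') c
  have hcD : c ∈ D := mem_comp ⟨⟨hc, hZ _ _ t⟩, hca⟩
  have hD : ∀ z ∈ D, ∀ d, z ∉ π d := fun z hz d hd' => by
    have h1 := comp_sub hz
    obtain ⟨d', e'⟩ := h.ends hd' h1.1.2
    rcases e.eq e' with rfl | rfl
    exacts [disjoint_left.1 hd h1.1.1 hd', h1.2 hd']
  by_cases hall : C ⊆ D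
  · exact .inl ⟨fun z hz => (comp_sub (hall hz)).1.2, fun z hz => hD z (hall hz)⟩
  obtain ⟨c', hc', hc''⟩ := not_subset.1 hall
  obtain ⟨z, -, z', hz', h1, h2, h3⟩ := hC.cross hc hc' hcD hc''
  have h4 := h.inner (comp_sub h1).1.2 (hD z h1) h3
  refine .inr (fin (insert z' D) (insert_subset hz' fun u hu => (comp_sub hu).1.1) (.inr hcD)
    ((comp_conn (tog_symm _)).insert (tog_symm _) h1 h4.symm) ⟨z', .inl rfl, ?_⟩)
  by_contra h5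
  exact h2 (comp_closed h1 ⟨⟨hz', hZ _ _ h4⟩, h5⟩ h4)

theorem Star.thinπ (h : Star G b π Pn Z x y loc g) {f : Φ} {a a' : X} (e : Ends x y f a a') :
    Thin (loc f) (GLk G) g (π a) := by
  by_cases ha : a ∈ Pn
  · exact h.thin f _ (h.pn f a ha (e.imp And.left And.left))
  · rw [h.sing a ha]
    exact thin_of_subsingleton (fun v => .inl ⟨v, rfl⟩) fun C _ _ _ =>
      subsingleton_singleton.anti fun w hw => hw.1

theorem xstar_sub (f : Φ) : loc f ⊆ StarN b π Pn loc := fun _ h => .inr (.inr ⟨f, h⟩)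

theorem Star.gen [Finite V] (h : Star G b π Pn Z x y loc g) {Y : Set V} {a a' : X}
    (hadj : a = a' ∨ G.Adj (b a) (b a')) (ha : π a ⊆ Y) (ha' : π a' ⊆ Y)
    (ho : ∀ d, d ≠ a → d ≠ a' → Disjoint (π d) Y)
    (hZ : ∀ f, Z f ⊆ Y ∨ ∀ w ∈ Y ∩ Z f, ∃ d d', Ends x y f d d' ∧ Y ∩ Z f ⊆ π d ∧
      Disjoint (π d') Y) : Thin (StarN b π Pn loc) (GLk G) g Y := by
  intro C hg hd hC
  have hπ : ∀ d w, w ∈ π d → w ∈ Y → π d ⊆ Y := fun d w h1 h2 => by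
    by_cases e : d = a
    · exact e ▸ ha
    by_cases e' : d = a'
    · exact e' ▸ ha'
    exact absurd h2 (disjoint_left.1 (ho d e e') h1)
  have hat : ∀ w ∈ Y, ∀ c ∈ C, Tog (StarN b π Pn loc) w c → (w ∈ range b ∧ c ∈ range b) ∨
      ∃ f d d', Ends x y f d d' ∧ Tog (loc f) w c ∧ Y ∩ Z f ⊆ π d ∧ w ∈ π d ∧
        ((C ⊆ Z f ∧ ∀ z ∈ C, ∀ d, z ∉ π d) ∨ (w = b d ∧ b d' ∈ C)) := by
    rintro w hw c hc ⟨ν, rfl | ⟨d, -, rfl⟩ | ⟨f, hf⟩, h1, h2⟩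
    · exact .inl ⟨h1, h2⟩
    · exact absurd (hπ d w h1 hw h2) (disjoint_left.1 hd hc)
    · rcases hZ f with k | k
      · exact absurd (k (h.sub f ν hf h2)) (disjoint_left.1 hd hc)
      · obtain ⟨d, d', e, k1, -⟩ := k w ⟨hw, h.sub f ν hf h1⟩
        have k2 := k1 ⟨hw, h.sub f ν hf h1⟩
        exact .inr ⟨f, d, d', e, ⟨ν, hf, h1, h2⟩, k1, k2,
          h.key e hg hC (hd.mono_right (hπ d w k2 hw)) k2 hc ⟨ν, hf, h1, h2⟩⟩
  by_cases h0 : At (StarN b π Pn loc) Y C = ∅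
  · exact .inl h0
  obtain ⟨w, hw, c, hc, t⟩ := nonempty_iff_ne_empty.2 h0
  by_cases hb : (range b ∩ C).Nonempty
  · refine .inr ⟨{b a, b a'}, ?_, ?_, pair_subset (ha (h.bπ a)) (ha' (h.bπ a')), range b,
      .inl rfl, pair_subset (mem_range_self a) (mem_range_self a'), hb⟩
    · rcases hadj with rfl | e
      exacts [.inl ⟨b a, pair_eq_singleton _⟩, .inr ⟨_, _, e, rfl⟩]
    · rintro w ⟨hw, c, hc, t⟩
      have hr : w ∈ range b := by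
        rcases hat w hw c hc t with k | ⟨f, d, d', -, -, -, -, k | k⟩
        · exact k.1
        · obtain ⟨_, ⟨u, rfl⟩, hu⟩ := hb
          exact absurd (h.bπ u) (k.2 _ hu u)
        · exact ⟨d, k.1.symm⟩
      obtain ⟨d, rfl⟩ := hr
      by_contra k
      exact disjoint_left.1 (ho d (fun e => k (.inl (e ▸ rfl))) fun e => k (.inr (e ▸ rfl)))
        (h.bπ d) hw
  · rcases hat w hw c hc t with k | ⟨f, d, d', e, t', k1, k2, k | k⟩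
    · exact absurd ⟨c, k.2, hc⟩ hb
    · obtain ⟨ℓ, l1, l2, l3, ν, hν, l4⟩ := (h.thinπ e).link hg (hd.mono_right (hπ d w k2 hw))
        (hC.mono fun u hu v _ t => h.inner (k.1 hu) (k.2 u hu) t) k2 hc t'
      refine .inr ⟨ℓ, l1, ?_, l3.trans (hπ d w k2 hw), ν, xstar_sub f hν, l4⟩
      rintro u ⟨hu, v, hv, t⟩
      obtain ⟨μ, m1, m2, m3⟩ := h.inner (k.1 hv) (k.2 v hv) t.symm
      exact l2 ⟨k1 ⟨hu, h.sub f μ m1 m3⟩, v, hv, μ, m1, m3, m2⟩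
    · exact absurd ⟨_, mem_range_self d', k.2⟩ hb

theorem Star.thinZ [Finite V] (h : Star G b π Pn Z x y loc g) (f : Φ) :
    Thin (StarN b π Pn loc) (GLk G) g (Z f) := by
  refine h.gen (.inr (h.adj f)) (h.xZ f) (h.yZ f) (h.oZ f) fun f' => ?_
  by_cases e : f = f'
  · exact .inl (e ▸ subset_rfl)
  refine .inr fun w hw => ?_
  obtain ⟨d, hd⟩ := h.ZZ f f' e
  obtain ⟨d', e'⟩ := h.ends (hd hw) hw.2
  refine ⟨d, d', e', hd, disjoint_left.2 fun u hu hu' => ?_⟩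
  have k : π d' ⊆ Z f' ∧ d' ≠ d := by
    rcases e' with ⟨rfl, rfl⟩ | ⟨rfl, rfl⟩
    exacts [⟨h.yZ f', (h.ne f').symm⟩, ⟨h.xZ f', h.ne f'⟩]
  exact k.2 (h.eq hu (hd ⟨hu', k.1 hu⟩))

theorem Star.thinU [Finite V] (h : Star G b π Pn Z x y loc g) {a a' : X}
    (hadj : a = a' ∨ G.Adj (b a) (b a'))
    (hf : ∀ f, ¬ (x f = a ∧ y f = a') ∧ ¬ (x f = a' ∧ y f = a)) :
    Thin (StarN b π Pn loc) (GLk G) g (π a ∪ π a') := by
  have ho : ∀ d, d ≠ a → d ≠ a' → Disjoint (π d) (π a ∪ π a') := fun d h1 h2 =>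
    disjoint_union_right.2 ⟨h.dis d a h1, h.dis d a' h2⟩
  refine h.gen hadj subset_union_left subset_union_right ho fun f => .inr fun w hw => ?_
  have k : ∀ d d', Ends x y f d d' → (d = a ∨ d = a') → d' ≠ a ∧ d' ≠ a' := by
    have h1 := hf f
    have h2 := h.ne f
    rintro d d' (⟨rfl, rfl⟩ | ⟨rfl, rfl⟩) (e | e) <;> constructor <;> intro e' <;> simp_all
  obtain ⟨d, hd, hw'⟩ : ∃ d, (d = a ∨ d = a') ∧ w ∈ π d := by
    rcases hw.1 with k | k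
    exacts [⟨a, .inl rfl, k⟩, ⟨a', .inr rfl, k⟩]
  obtain ⟨d', e⟩ := h.ends hw' hw.2
  refine ⟨d, d', e, fun u hu => ?_, ho d' (k d d' e hd).1 (k d d' e hd).2⟩
  obtain ⟨c, hc, hu'⟩ : ∃ c, (c = a ∨ c = a') ∧ u ∈ π c := by
    rcases hu.1 with k | k
    exacts [⟨a, .inl rfl, k⟩, ⟨a', .inr rfl, k⟩]
  obtain ⟨c', e'⟩ := h.ends hu' hu.2
  rcases e.eq e' with rfl | rfl
  · exact hu'
  · exact (hc.elim (k d c e hd).1 (k d c e hd).2).elim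

theorem Star.thinB [Finite V] (h : Star G b π Pn Z x y loc g) :
    Thin (StarN b π Pn loc) (GLk G) g (range b) := by
  intro C hg hd hC
  have one : ∀ a, (At (StarN b π Pn loc) (range b) C ⊆ {b a}) →
      At (StarN b π Pn loc) (range b) C = ∅ ∨ ∃ ℓ, GLk G ℓ ∧
      At (StarN b π Pn loc) (range b) C ⊆ ℓ ∧ ℓ ⊆ range b ∧
        ∃ ν ∈ StarN b π Pn loc, ℓ ⊆ ν ∧ (ν ∩ C).Nonempty := fun a ha => by
    by_cases h0 : At (StarN b π Pn loc) (range b) C = ∅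
    · exact .inl h0
    obtain ⟨w, hw⟩ := nonempty_iff_ne_empty.2 h0
    obtain rfl : w = b a := ha hw
    obtain ⟨-, c, hc, ν, hν, h1, h2⟩ := hw
    exact .inr ⟨_, .inl ⟨_, rfl⟩, ha, singleton_subset_iff.2 (mem_range_self a), ν, hν,
      singleton_subset_iff.2 h1, c, h2, hc⟩
  by_cases h1 : ∃ a, (C ∩ π a).Nonempty
  · obtain ⟨a, w0, hw0⟩ := h1
    refine one a ?_
    rintro _ ⟨⟨d, rfl⟩, c, hc, t⟩
    by_contra hne
    have hda : b d ∉ π a := fun k => hne (h.eq (h.bπ d) k ▸ rfl)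
    let D := comp (Tog (StarN b π Pn loc)) (insert (b d) C \ π a) (b d)
    obtain ⟨u, hu, w, hw, t'⟩ := (hC.insert (tog_symm _) hc t).comp_nb (Y := π a)
      ⟨.inl rfl, hda⟩ ⟨.inr hw0.1, hw0.2⟩
    have hwC : w ∈ C := hw.1.resolve_left fun e => hda (e ▸ hw.2)
    have hDg : D.ncard ≤ g := by
      have k1 : D ⊆ insert (b d) (C \ {w0}) := fun z hz => by
        rcases (comp_sub hz).1 with e | e
        · exact .inl e
        · exact .inr ⟨e, fun e' => (comp_sub hz).2 (mem_singleton_iff.1 e' ▸ hw0.2)⟩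
      have k2 := ncard_sdiff_singleton_add_one hw0.1
      have := (ncard_le_ncard k1).trans (ncard_insert_le _ _)
      omega
    obtain ⟨ν, rfl | ⟨a', -, rfl⟩ | ⟨f, hf⟩, n1, n2⟩ := t'
    · exact disjoint_left.1 hd hwC n2
    · exact (comp_sub hu).2 (h.eq n2 hw.2 ▸ n1)
    · obtain ⟨a', e⟩ := h.ends hw.2 (h.sub f ν hf n2)
      rcases h.key e hDg (comp_conn (tog_symm _)) (disjoint_left.2 fun z hz => (comp_sub hz).2)
        hw.2 hu ⟨ν, hf, n2, n1⟩ with k | k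
      · exact k.2 _ (mem_comp ⟨.inl rfl, hda⟩) d (h.bπ d)
      · exact disjoint_left.1 hd hwC ⟨a, k.1.symm⟩
  have h2 : ∀ z ∈ C, ∀ a, z ∉ π a := fun z hz a k => h1 ⟨a, z, hz, k⟩
  by_cases h0 : At (StarN b π Pn loc) (range b) C = ∅
  · exact .inl h0
  obtain ⟨_, ⟨a, rfl⟩, c, hc, ν, rfl | ⟨a', -, rfl⟩ | ⟨f, hf⟩, n1, n2⟩ :=
    nonempty_iff_ne_empty.2 h0
  · exact absurd n2 (disjoint_left.1 hd hc)
  · exact absurd n2 (h2 c hc a')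
  have hCZ : C ⊆ Z f := hC.sub hc (h.sub f ν hf n2) fun u hu v _ k t => by
    obtain ⟨μ, m1, -, m2⟩ := h.inner k (h2 u hu) t
    exact h.sub f μ m1 m2
  have hat : ∀ w ∈ At (StarN b π Pn loc) (range b) C,
      (w = b (x f) ∨ w = b (y f)) ∧ ∃ c ∈ C, Tog (loc f) w c := by
    rintro _ ⟨⟨d, rfl⟩, v, hv, t⟩
    obtain ⟨μ, m1, m2, m3⟩ := h.inner (hCZ hv) (h2 v hv) t.symm
    obtain ⟨d', e⟩ := h.ends (h.bπ d) (h.sub f μ m1 m3)
    exact ⟨Or.imp (fun e => congrArg b e.1) (fun e => congrArg b e.1) e, v, hv, μ, m1, m3, m2⟩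
  by_cases hx : b (x f) ∈ At (StarN b π Pn loc) (range b) C
  swap
  · exact one (y f) fun w hw => (hat w hw).1.resolve_left fun e => hx (e ▸ hw)
  by_cases hy : b (y f) ∈ At (StarN b π Pn loc) (range b) C
  swap
  · exact one (x f) fun w hw => (hat w hw).1.resolve_right fun e => hy (e ▸ hw)
  obtain ⟨μ, m1, m2, m3, m4⟩ := pair_stmt V (loc f) G g (h.thin f) _ _ C (h.adj f).ne (h.tog f) hg
    (hC.mono fun u hu v _ t => h.inner (hCZ hu) (h2 u hu) t)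
    (disjoint_right.1 hd (mem_range_self _)) (disjoint_right.1 hd (mem_range_self _))
    (hat _ hx).2 (hat _ hy).2
  exact .inr ⟨_, .inr ⟨_, _, h.adj f, rfl⟩, fun w hw => (hat w hw).1,
    pair_subset (mem_range_self _) (mem_range_self _), μ, xstar_sub f m1, pair_subset m2 m3, m4⟩

theorem Star.cons (h : Star G b π Pn Z x y loc g) (f : Φ) (u v : V) (huv : u ≠ v) (hu : u ∈ Z f)
    (hv : v ∈ Z f) (t : Tog (StarN b π Pn loc) u v) : Tog (loc f) u v := by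
  have hπ : ∀ a, u ∈ π a → v ∈ π a → Tog (loc f) u v := fun a h1 h2 => by
    obtain ⟨a', e⟩ := h.ends h1 hu
    by_cases ha : a ∈ Pn
    · exact ⟨_, h.pn f a ha (e.imp And.left And.left), h1, h2⟩
    · rw [h.sing a ha] at h1 h2
      exact absurd (h1.trans h2.symm) huv
  obtain ⟨ν, rfl | ⟨a, -, rfl⟩ | ⟨f', hf'⟩, h1, h2⟩ := t
  · obtain ⟨a, rfl⟩ := h1
    obtain ⟨d, rfl⟩ := h2
    obtain ⟨a', e⟩ := h.ends (h.bπ a) hu
    obtain ⟨d', e'⟩ := h.ends (h.bπ d) hv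
    rcases e with ⟨rfl, -⟩ | ⟨rfl, -⟩ <;> rcases e' with ⟨rfl, -⟩ | ⟨rfl, -⟩
    exacts [absurd rfl huv, h.tog f, (h.tog f).symm, absurd rfl huv]
  · exact hπ a h1 h2
  · by_cases e : f = f'
    · exact ⟨ν, e ▸ hf', h1, h2⟩
    · obtain ⟨a, ha⟩ := h.ZZ f f' e
      exact hπ a (ha ⟨hu, h.sub f' ν hf' h1⟩) (ha ⟨hv, h.sub f' ν hf' h2⟩)

theorem star_stmt : StarStmt := by
  intro V X Φ _ G b π Pn Z x y loc g h
  have h1 : ∀ a, Thin (StarN b π Pn loc) (GLk G) g (π a) := fun a => by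
    have := h.thinU (a := a) (a' := a) (.inl rfl) fun f =>
      ⟨fun e => h.ne f (e.1.trans e.2.symm), fun e => h.ne f (e.1.trans e.2.symm)⟩
    rwa [union_self] at this
  refine ⟨?_, h.thinZ, h1, fun a a' e hf => h.thinU (.inr e) hf⟩
  rintro ν (rfl | ⟨a, -, rfl⟩ | ⟨f, hf⟩)
  · exact h.thinB
  · exact h1 a
  · exact local_stmt V _ (loc f) _ g (Z f) ν (h.thinZ f) (xstar_sub f) (h.cons f) (h.sub f ν hf)
      (h.thin f ν hf) fun ℓ hℓ => hℓ.inter ν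

end Pool.Agent.MP_1c0fc2_co.RE

end

section

open Function Set Relation

namespace Pool.Agent.MP_1c0fc2_co.RE

section
variable {I T : Type} {prof : T → I → ℕ} {F H : MH prof}

theorem xlink_inl {ψ : MEmb F H} {v : H.V} (h : Sum.inl v ∈ ψ.Bag) : ∃ x, ψ.v x = v := by
  obtain ⟨x | x, e⟩ := h
  · exact ⟨x, Sum.inl.inj e⟩
  · exact absurd e Sum.inr_ne_inl

theorem xlink_wb {ψ : MEmb F H} {d : H.E} (h : Sum.inr d ∈ ψ.Bag) : H.WB d ⊆ ψ.Bag := by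
  rintro _ (rfl | ⟨v, hv, rfl⟩)
  · exact h
  · obtain ⟨x | x, e⟩ := h
    · exact absurd e Sum.inl_ne_inr
    · obtain rfl : ψ.e x = d := Sum.inr.inj e
      obtain ⟨y, -, rfl⟩ := (ψ.mem_iff v x).1 hv
      exact ⟨.inl y, rfl⟩

theorem xlink_inr {d e : H.E} (h : Sum.inr d ∈ H.WB e) : d = e := by
  rcases h with h | ⟨v, -, h⟩
  · exact Sum.inr.inj h
  · exact absurd h Sum.inr_ne_inl

theorem xlink_mem {ψ : MEmb F H} {x : F.V} {d : F.E} (h : H.mem (ψ.v x) (ψ.e d)) : F.mem x d := by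
  obtain ⟨y, hy, e⟩ := (ψ.mem_iff _ d).1 h
  exact ψ.v_inj e ▸ hy

theorem xlink_pt {N : Set (Set (H.V ⊕ H.E))} {X C : Set (H.V ⊕ H.E)} {v : H.V}
    (h : At N X C ⊆ {.inl v}) : At N X C = ∅ ∨
      ∃ ℓ, H.Lk ℓ ∧ At N X C ⊆ ℓ ∧ ℓ ⊆ X ∧ ∃ ν ∈ N, ℓ ⊆ ν ∧ (ν ∩ C).Nonempty := by
  by_cases hv : Sum.inl v ∈ At N X C
  · obtain ⟨hw, c, hc, ν, n1, n2, n3⟩ := hv
    exact .inr ⟨_, .inl ⟨v, rfl⟩, h, singleton_subset_iff.2 hw, ν, n1, singleton_subset_iff.2 n2,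
      c, n3, hc⟩
  · exact .inl (eq_empty_of_forall_notMem fun w hw => hv (h hw ▸ hw))

variable {Q : Type} {φ : Q → MEmb F H} {g : ℕ}

theorem xlink_two (h : Good φ g) {p : Q} {x y : H.V ⊕ H.E} {d : H.E} (hxy : x ≠ y)
    (hx : x ∈ H.WB d) (hy : y ∈ H.WB d) (hx' : x ∈ (φ p).Bag) (hy' : y ∈ (φ p).Bag) :
    Sum.inr d ∈ (φ p).Bag := by
  rcases hx with rfl | ⟨u, hu, rfl⟩
  · exact hx'
  rcases hy with rfl | ⟨v, hv, rfl⟩
  · exact hy'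
  obtain ⟨a, rfl⟩ := xlink_inl hx'
  obtain ⟨b, rfl⟩ := xlink_inl hy'
  obtain ⟨d0, rfl⟩ := h.str p a b d (fun e => hxy (by rw [e])) hu hv
  exact ⟨.inr d0, rfl⟩

theorem xlink_inter (h : Good φ g) (p q : Q) (hpq : p ≠ q) :
    (φ p).Bag ∩ (φ q).Bag = ∅ ∨ ∃ ℓ, H.Lk ℓ ∧ (φ p).Bag ∩ (φ q).Bag ⊆ ℓ ∧
      ℓ ⊆ (φ p).Bag ∧ ℓ ⊆ (φ q).Bag := by
  have key : ∀ d, Sum.inr d ∈ (φ p).Bag → Sum.inr d ∈ (φ q).Bag →
      ∃ ℓ, H.Lk ℓ ∧ (φ p).Bag ∩ (φ q).Bag ⊆ ℓ ∧ ℓ ⊆ (φ p).Bag ∧ ℓ ⊆ (φ q).Bag := by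
    intro d h1 h2
    refine ⟨H.WB d, .inr ⟨d, rfl⟩, fun z hz => ?_, xlink_wb h1, xlink_wb h2⟩
    by_cases e : z = .inr d
    · exact .inl e
    · obtain ⟨d', h3, h4⟩ := h.b2 p q hpq z _ e hz.1 h1 hz.2 h2
      exact xlink_inr h4 ▸ h3
  by_cases hs : ((φ p).Bag ∩ (φ q).Bag).Subsingleton
  · rcases hs.eq_empty_or_singleton with e | ⟨x, e⟩
    · exact .inl e
    · have hx : x ∈ (φ p).Bag ∩ (φ q).Bag := e ▸ rfl
      rcases x with v | d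
      · exact .inr ⟨_, .inl ⟨v, rfl⟩, e.le, singleton_subset_iff.2 hx.1,
          singleton_subset_iff.2 hx.2⟩
      · exact .inr (key d hx.1 hx.2)
  · obtain ⟨x, hx, y, hy, hxy⟩ := not_subsingleton_iff.1 hs
    obtain ⟨d, h1, h2⟩ := h.b2 p q hpq x y hxy hx.1 hy.1 hx.2 hy.2
    exact .inr (key d (xlink_two h hxy h1 h2 hx.1 hy.1) (xlink_two h hxy h1 h2 hx.2 hy.2))

theorem xlink_thin (h : Good φ g) (ℓ : Set (H.V ⊕ H.E)) (hℓ : H.Lk ℓ) :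
    Thin (range fun q => (φ q).Bag) H.Lk g ℓ := by
  intro C c1 c2 c3
  rcases hℓ with ⟨v, rfl⟩ | ⟨d, rfl⟩
  · exact xlink_pt fun _ hw => hw.1
  obtain ⟨p, hp⟩ := h.cov (.inr d)
  have hsub := xlink_wb hp
  by_cases hC : ((φ p).Bag ∩ C).Nonempty
  · exact .inr ⟨_, .inr ⟨d, rfl⟩, fun _ hw => hw.1, Subset.rfl, _, ⟨p, rfl⟩, hsub, hC⟩
  have hAt : At (range fun q => (φ q).Bag) (H.WB d) C ⊆
      At (range fun q => (φ q).Bag) (φ p).Bag C := fun _ hw => ⟨hsub hw.1, hw.2⟩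
  rcases h.thin p C c1 (disjoint_left.2 fun x h1 h2 => hC ⟨x, h2, h1⟩) c3 with
    e | ⟨ℓ, ⟨v, rfl⟩ | ⟨d', rfl⟩, l2, -, l4⟩
  · exact .inl (subset_empty_iff.1 (e ▸ hAt))
  · exact xlink_pt (hAt.trans l2)
  by_cases e : d' = d
  · subst e
    exact .inr ⟨_, .inr ⟨_, rfl⟩, hAt.trans l2, Subset.rfl, l4⟩
  have pt : ∀ w ∈ At (range fun q => (φ q).Bag) (H.WB d) C,
      ∃ v, H.mem v d ∧ H.mem v d' ∧ w = .inl v := by
    intro w hw
    have h2 := l2 (hAt hw)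
    rcases hw.1 with rfl | ⟨v, hv, rfl⟩
    · exact absurd (xlink_inr h2).symm e
    · rcases h2 with h2 | ⟨u, hu, h2⟩
      · exact absurd h2 Sum.inl_ne_inr
      · exact ⟨v, hv, Sum.inl.inj h2 ▸ hu, rfl⟩
  rcases eq_empty_or_nonempty (At (range fun q => (φ q).Bag) (H.WB d) C) with e0 | ⟨w, hw⟩
  · exact .inl e0
  obtain ⟨v, h1, h2, -⟩ := pt w hw
  refine xlink_pt (v := v) fun w' hw' => ?_
  obtain ⟨u, h3, h4, rfl⟩ := pt w' hw'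
  by_contra hne
  exact e (h.lin d' d u v (fun e' => hne (by rw [e']; rfl)) h4 h2 h3 h1)

theorem xlink_noTri (h : Good φ g) (hg : 1 ≤ g) (hF : F.NoTri) : H.NoTri := by
  intro a b c d e f hab hac hbc h1 h2 h3 h4 h5 h6
  have tog : ∀ u v k, H.mem u k → H.mem v k → ∃ p, Sum.inl u ∈ (φ p).Bag ∧ .inl v ∈ (φ p).Bag :=
    fun u v k hu hv => by
      obtain ⟨p, hp⟩ := h.cov (.inr k)
      exact ⟨p, xlink_wb hp (.inr ⟨u, hu, rfl⟩), xlink_wb hp (.inr ⟨v, hv, rfl⟩)⟩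
  obtain ⟨q, qa, qb, qc⟩ : ∃ q, Sum.inl a ∈ (φ q).Bag ∧ Sum.inl b ∈ (φ q).Bag ∧
      Sum.inl c ∈ (φ q).Bag := by
    obtain ⟨p, pa, pb⟩ := tog a b d h1 h2
    by_cases hc : Sum.inl c ∈ (φ p).Bag
    · exact ⟨p, pa, pb, hc⟩
    obtain ⟨p1, t1⟩ := tog a c e h3 h4
    obtain ⟨p2, t2⟩ := tog b c f h5 h6
    obtain ⟨ℓ, -, l2, -, _, ⟨q, rfl⟩, l4, _, l5, rfl⟩ := (h.thin p).link (C := {.inl c})
      (by rwa [ncard_singleton]) (disjoint_singleton_left.2 hc) (connOn_singleton _) pa rfl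
      ⟨_, ⟨p1, rfl⟩, t1⟩
    exact ⟨q, l4 (l2 ⟨pa, _, rfl, _, ⟨p1, rfl⟩, t1⟩), l4 (l2 ⟨pb, _, rfl, _, ⟨p2, rfl⟩, t2⟩), l5⟩
  obtain ⟨a, rfl⟩ := xlink_inl qa
  obtain ⟨b, rfl⟩ := xlink_inl qb
  obtain ⟨c, rfl⟩ := xlink_inl qc
  have hab' : a ≠ b := fun e => hab (by rw [e])
  have hac' : a ≠ c := fun e => hac (by rw [e])
  have hbc' : b ≠ c := fun e => hbc (by rw [e])
  obtain ⟨d, rfl⟩ := h.str q a b d hab' h1 h2
  obtain ⟨e, rfl⟩ := h.str q a c e hac' h3 h4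
  obtain ⟨f, rfl⟩ := h.str q b c f hbc' h5 h6
  exact (hF a b c d e f hab' hac' hbc' (xlink_mem h1) (xlink_mem h2) (xlink_mem h3) (xlink_mem h4)
    (xlink_mem h5) (xlink_mem h6)).imp (congrArg _) fun h => h.imp (congrArg _) (congrArg _)

end

theorem link_stmt : LinkStmt := fun _ _ _ _ _ _ _ _ h =>
  ⟨xlink_inter h, xlink_thin h, xlink_noTri h⟩

end Pool.Agent.MP_1c0fc2_co.RE

end

section

/-! The closing step of the engine: definitions and basic facts. -/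

open Function Set Relation

namespace Pool.Agent.MP_1c0fc2_co.RE

/-- the input of the closing step -/
structure CD (U X V : Type) where
  A : SimpleGraph U
  E : EP U
  Γ : SimpleGraph X
  RΓ : SimpleGraph X
  Hub : Set X
  G : SimpleGraph V
  R : SimpleGraph V
  D : SimpleGraph V
  Gs : Set (X → V)
  Bs : Set (Bag U V)
  g : ℕ
  ok : E.Ok A
  lev : Lev A E Γ RΓ Hub G R D Gs Bs g
  blue : D ≤ G \ R
  far : FarD D Gs Bs (g + 1)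

/-- slots, old edges and red edges of a top bag -/
abbrev Part (U V : Type) : Type := (U → Option V) × SimpleGraph U × SimpleGraph U

namespace CD
variable {U X V : Type} (c : CD U X V)

theorem mem_cell (u : V) : u ∈ cell c.Gs u := .inl rfl

theorem cell_rng {γ : X → V} (hγ : γ ∈ c.Gs) {u : V} (hu : u ∈ range γ) :
    cell c.Gs u = range γ := by
  ext z
  constructor
  · rintro (rfl | ⟨γ', h1, h2, h3⟩)
    · exact hu
    · rwa [c.lev.core.eq_of_mem hγ h1 hu h2]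
  · exact fun h => .inr ⟨γ, hγ, hu, h⟩

theorem cell_or (u : V) : cell c.Gs u = {u} ∨ ∃ γ ∈ c.Gs, u ∈ range γ := by
  by_cases h : ∃ γ ∈ c.Gs, u ∈ range γ
  · exact .inr h
  · refine .inl (Subset.antisymm ?_ (singleton_subset_iff.2 (c.mem_cell u)))
    rintro z (rfl | ⟨γ, h1, h2, -⟩)
    · rfl
    · exact absurd ⟨γ, h1, h2⟩ h

theorem cell_eq {u w : V} : w ∈ cell c.Gs u ↔ cell c.Gs w = cell c.Gs u := by
  refine ⟨fun h => ?_, fun h => h ▸ c.mem_cell w⟩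
  rcases h with rfl | ⟨γ, h1, h2, h3⟩
  · rfl
  · rw [c.cell_rng h1 h2, c.cell_rng h1 h3]

theorem cell_two {u w : V} (h : cell c.Gs u = cell c.Gs w) (huw : u ≠ w) :
    ∃ γ ∈ c.Gs, u ∈ range γ ∧ w ∈ range γ := by
  rcases c.cell_eq.2 h with e | ⟨γ, h1, h2, h3⟩
  · exact absurd e huw
  · exact ⟨γ, h1, h3, h2⟩

theorem cell_ne {u v : V} (h : c.D.Adj u v) : cell c.Gs u ≠ cell c.Gs v := fun e =>
  h.ne (c.far u v h {v} (by simp) (connOn_singleton v) ⟨v, rfl, e ▸ c.mem_cell v⟩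
    ⟨v, rfl, c.mem_cell v⟩)

/-- the kind of a slot -/
def kd (σ : Option V) : Option (Set V) := σ.map (cell c.Gs)

/-- admissible top bags -/
structure POk (j : Part U V) : Prop where
  kind : (j.2.1 = c.E.F ∧ j.2.2 = c.A \ c.E.F) ∨
    (j.2.1 = ⊥ ∧ (j.2.2 = cutG c.A c.E.S ∨ j.2.2 = covG c.A c.E.S))
  old : ∀ a b, j.2.1.Adj a b → ∃ u v, c.D.Adj u v ∧ j.1 a = some u ∧ j.1 b = some v
  pend : ∀ a u, j.1 a = some u → ∃ v, c.D.Adj u v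
  inj : ∀ a b, c.kd (j.1 a) = c.kd (j.1 b) → j.1 a = j.1 b

abbrev J : Type := {j : Part U V // c.POk j}

variable {c}

def sl (j : c.J) : U → Option V := j.1.1
def old (j : c.J) : SimpleGraph U := j.1.2.1
def red (j : c.J) : SimpleGraph U := j.1.2.2

theorem old_le (j : c.J) : old j ≤ c.A := by
  rcases j.2.kind with ⟨h, -⟩ | ⟨h, -⟩
  · exact h.le.trans c.ok.F_le
  · exact h.le.trans bot_le

theorem red_le (j : c.J) : red j ≤ c.A := by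
  rcases j.2.kind with ⟨-, h⟩ | ⟨-, h | h⟩
  · exact h.le.trans sdiff_le
  · exact h.le.trans fun _ _ e => e.1
  · exact h.le.trans fun _ _ e => e.1

theorem old_red (j : c.J) {a b : U} (h : (old j).Adj a b) : ¬ (red j).Adj a b := by
  rcases j.2.kind with ⟨h1, h2⟩ | ⟨h1, -⟩
  · intro e
    have e1 : (c.A \ c.E.F).Adj a b := h2 ▸ e
    exact e1.2 (h1 ▸ h)
  · exact absurd (h1 ▸ h : (⊥ : SimpleGraph U).Adj a b) (by simp)

variable (c)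

open Classical in
/-- number of points of each kind on the edges of each type; `none` is the type of big edges -/
noncomputable def prof : Option (Sym2 (Option V) × Prop) → Option (Set V) → ℕ
  | none, i => if ∃ u, i = some (cell c.Gs u) then 1 else 0
  | some t, i => Sym2.lift ⟨fun σ τ => (if c.kd σ = i then 1 else 0) + (if c.kd τ = i then 1 else 0),
      fun _ _ => add_comm _ _⟩ t.1

abbrev FP : Type := {z : c.J × Sym2 U × Set V // z.2.1 ∈ (old z.1).edgeSet ∧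
  (∃ u, z.2.2 = cell c.Gs u) ∧ ∀ a ∈ z.2.1, c.kd (sl z.1 a) ≠ some z.2.2}

abbrev FE : Type := {z : c.J × Sym2 U // z.2 ∈ c.A.edgeSet}

def fkd : (c.J × U) ⊕ c.FP → Option (Set V)
  | .inl z => c.kd (sl z.1 z.2)
  | .inr z => some z.1.2.2

def fmem : (c.J × U) ⊕ c.FP → c.FE → Prop
  | .inl z, e => z.1 = e.1.1 ∧ z.2 ∈ e.1.2
  | .inr z, e => z.1.1 = e.1.1 ∧ z.1.2.1 = e.1.2

open Classical in
noncomputable def fty (e : c.FE) : Option (Sym2 (Option V) × Prop) :=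
  if e.1.2 ∈ (old e.1.1).edgeSet then none
  else some (e.1.2.map (sl e.1.1), e.1.2 ∈ (red e.1.1).edgeSet)

theorem fty_none {e : c.FE} : c.fty e = none ↔ e.1.2 ∈ (old e.1.1).edgeSet := by
  unfold fty
  split_ifs with h <;> simp [h]

theorem fty_some {e : c.FE} (h : e.1.2 ∉ (old e.1.1).edgeSet) :
    c.fty e = some (e.1.2.map (sl e.1.1), e.1.2 ∈ (red e.1.1).edgeSet) := if_neg h

theorem fshape (e : c.FE) (i : Option (Set V)) :
    {v | c.fmem v e ∧ c.fkd v = i}.ncard = c.prof (c.fty e) i := by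
  classical
  obtain ⟨⟨j, f⟩, hf⟩ := e
  induction f using Sym2.ind with | _ a b
  have hab : a ≠ b := (c.A.mem_edgeSet.1 hf).ne
  by_cases ho : s(a, b) ∈ (old j).edgeSet
  · rw [c.fty_none.2 ho]
    obtain ⟨u, v, huv, ha, hb⟩ := j.2.old a b ho
    have ka : c.kd (sl j a) = some (cell c.Gs u) := congrArg c.kd ha
    have kb : c.kd (sl j b) = some (cell c.Gs v) := congrArg c.kd hb
    have hne := c.cell_ne huv
    by_cases hi : ∃ w, i = some (cell c.Gs w)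
    · simp only [prof, if_pos hi]
      obtain ⟨w, rfl⟩ := hi
      rw [ncard_eq_one]
      have key : ∀ a b : U, ∀ hf, ∀ u v, cell c.Gs u ≠ cell c.Gs v →
          c.kd (sl j a) = some (cell c.Gs u) → c.kd (sl j b) = some (cell c.Gs v) →
          {x | c.fmem x ⟨(j, s(a, b)), hf⟩ ∧ c.fkd x = some (cell c.Gs u)} = {.inl (j, a)} := by
        intro a b hf u v hne ka kb
        ext x
        constructor
        · rintro ⟨h1, h2⟩
          rcases x with ⟨j', a'⟩ | ⟨⟨j', f', k⟩, h3, h4, h5⟩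
          · obtain ⟨rfl, h1⟩ : j' = j ∧ a' ∈ s(a, b) := h1
            rcases Sym2.mem_iff.1 h1 with rfl | rfl
            · rfl
            · exact absurd (Option.some.inj (h2.symm.trans kb)) hne
          · obtain ⟨rfl, rfl⟩ : j' = j ∧ f' = s(a, b) := h1
            exact absurd (ka.trans h2.symm) (h5 a (Sym2.mem_mk_left a b))
        · rintro rfl
          exact ⟨⟨rfl, Sym2.mem_mk_left a b⟩, ka⟩
      by_cases h1 : cell c.Gs w = cell c.Gs u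
      · exact ⟨_, h1 ▸ key a b hf u v hne ka kb⟩
      by_cases h2 : cell c.Gs w = cell c.Gs v
      · have := key b a (Sym2.eq_swap ▸ hf) v u hne.symm kb ka
        simp only [Sym2.eq_swap (a := b)] at this
        exact ⟨_, h2 ▸ this⟩
      refine ⟨.inr ⟨(j, s(a, b), cell c.Gs w), ho, ⟨w, rfl⟩, fun a' h => ?_⟩, ?_⟩
      · rcases Sym2.mem_iff.1 h with rfl | rfl
        · exact fun e => h1 (Option.some.inj (e.symm.trans ka))
        · exact fun e => h2 (Option.some.inj (e.symm.trans kb))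
      · ext x
        constructor
        · rintro ⟨h3, h4⟩
          rcases x with ⟨j', a'⟩ | ⟨⟨j', f', k⟩, h5⟩
          · obtain ⟨rfl, h3⟩ : j' = j ∧ a' ∈ s(a, b) := h3
            rcases Sym2.mem_iff.1 h3 with rfl | rfl
            · exact absurd (Option.some.inj (h4.symm.trans ka)) h1
            · exact absurd (Option.some.inj (h4.symm.trans kb)) h2
          · obtain ⟨rfl, rfl⟩ : j' = j ∧ f' = s(a, b) := h3
            obtain rfl : k = cell c.Gs w := Option.some.inj h4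
            rfl
        · rintro rfl
          exact ⟨⟨rfl, rfl⟩, rfl⟩
    · simp only [prof, if_neg hi]
      rw [eq_empty_of_forall_notMem (s := {v | c.fmem v ⟨(j, s(a, b)), hf⟩ ∧ c.fkd v = i}),
        ncard_empty]
      rintro (⟨j', a'⟩ | ⟨⟨j', f', k⟩, h5, ⟨w, h6⟩, h7⟩) ⟨h3, h4⟩
      · obtain ⟨rfl, h3⟩ : j' = j ∧ a' ∈ s(a, b) := h3
        rcases Sym2.mem_iff.1 h3 with rfl | rfl
        · exact hi ⟨u, h4.symm.trans ka⟩
        · exact hi ⟨v, h4.symm.trans kb⟩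
      · exact hi ⟨w, h4.symm.trans (congrArg some h6)⟩
  · rw [c.fty_some ho]
    simp only [prof, Sym2.map_mk, Sym2.lift_mk]
    have e1 : {v | c.fmem v ⟨(j, s(a, b)), hf⟩ ∧ c.fkd v = i} =
        {v | v = .inl (j, a) ∧ c.kd (sl j a) = i} ∪ {v | v = .inl (j, b) ∧ c.kd (sl j b) = i} := by
      ext x
      constructor
      · rintro ⟨h3, h4⟩
        rcases x with ⟨j', a'⟩ | ⟨⟨j', f', k⟩, h5, h6⟩
        · obtain ⟨rfl, h3⟩ : j' = j ∧ a' ∈ s(a, b) := h3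
          rcases Sym2.mem_iff.1 h3 with rfl | rfl
          exacts [.inl ⟨rfl, h4⟩, .inr ⟨rfl, h4⟩]
        · obtain ⟨rfl, rfl⟩ : j' = j ∧ f' = s(a, b) := h3
          exact absurd h5 ho
      · rintro (⟨rfl, h⟩ | ⟨rfl, h⟩)
        exacts [⟨⟨rfl, Sym2.mem_mk_left a b⟩, h⟩, ⟨⟨rfl, Sym2.mem_mk_right a b⟩, h⟩]
    rw [e1]
    by_cases h1 : c.kd (sl j a) = i <;> by_cases h2 : c.kd (sl j b) = i <;> simp [h1, h2]
    exact ncard_pair (fun e => hab.symm (congrArg Prod.snd (Sum.inl.inj e)))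

/-- the hypergraph of all parts -/
noncomputable def F [Finite U] [Finite V] : MH c.prof where
  V := (c.J × U) ⊕ c.FP
  E := c.FE
  kd := c.fkd
  ty := c.fty
  mem := c.fmem
  shape := c.fshape

theorem F_two {j j' : c.J} {a b : U} (hab : a ≠ b) {e : c.FE} (h1 : c.fmem (.inl (j, a)) e)
    (h2 : c.fmem (.inl (j', b)) e) : e.1 = (j, s(a, b)) :=
  Prod.ext h1.1.symm ((Sym2.mem_and_mem_iff hab).1 ⟨h1.2, h2.2⟩)

theorem F_lin [Finite U] [Finite V] : c.F.Lin := by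
  intro e e' u v huv h1 h2 h3 h4
  rcases u with ⟨j, a⟩ | z
  · rcases v with ⟨j', b⟩ | z
    · obtain rfl : j = j' := h1.1.trans h2.1.symm
      have hab : a ≠ b := fun e => huv (by rw [e])
      exact Subtype.ext ((c.F_two hab h1 h2).trans (c.F_two hab h3 h4).symm)
    · exact Subtype.ext (Prod.ext (h2.1.symm.trans h4.1) (h2.2.symm.trans h4.2))
  · exact Subtype.ext (Prod.ext (h1.1.symm.trans h3.1) (h1.2.symm.trans h3.2))

end CD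

/-- a tree-like system of copies of the hypergraph of parts -/
structure CH {U X V : Type} [Finite U] [Finite V] (c : CD U X V) where
  H : MH c.prof
  Q : Type
  φ : Q → MEmb c.F H
  good : Good φ c.g

namespace CH
open CD
variable {U X V : Type} [Finite U] [Finite V] {c : CD U X V} (h : CH c)

/-- vertices of the new graph -/
abbrev W : Type := h.H.V × Option V

/-- the slot fits the kind of the point -/
def Val (x : h.W) : Prop := h.H.kd x.1 = c.kd x.2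

/-- the cell of a point -/
def pt (n : h.H.V) : Set h.W := {x | x.1 = n ∧ h.Val x}

/-- big edges -/
abbrev Big : Type := {d : h.H.E // h.H.ty d = none}

theorem big_ex (d : h.Big) (u : V) :
    ∃ n, {v | h.H.mem v d.1 ∧ h.H.kd v = some (cell c.Gs u)} = {n} := by
  rw [← ncard_eq_one, h.H.shape, d.2]
  exact if_pos ⟨u, rfl⟩

/-- the point of a big edge that carries the cell of `u` -/
noncomputable def mb (d : h.Big) (u : V) : h.H.V := (h.big_ex d u).choose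

theorem mb_iff {d : h.Big} {u : V} {n : h.H.V} :
    (h.H.mem n d.1 ∧ h.H.kd n = some (cell c.Gs u)) ↔ n = h.mb d u :=
  Set.ext_iff.1 (h.big_ex d u).choose_spec n

/-- the copy of the old graph on a big edge -/
noncomputable def ι (d : h.Big) (u : V) : h.W := (h.mb d u, some u)

theorem ι_inj (d : h.Big) : Injective (h.ι d) :=
  fun _ _ e => Option.some.inj (congrArg Prod.snd e)

theorem ι_val (d : h.Big) (u : V) : h.Val (h.ι d u) := (h.mb_iff.2 rfl).2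

theorem ι_mem (d : h.Big) (u : V) : h.H.mem (h.ι d u).1 d.1 := (h.mb_iff.2 rfl).1

theorem eq_ι {d : h.Big} {x : h.W} {u : V} (hx : h.Val x) (hm : h.H.mem x.1 d.1)
    (e : x.2 = some u) : x = h.ι d u :=
  Prod.ext (h.mb_iff.1 ⟨hm, hx.trans (congrArg c.kd e)⟩) e

theorem range_ι {d : h.Big} {x : h.W} : x ∈ range (h.ι d) ↔ h.Val x ∧ h.H.mem x.1 d.1 := by
  refine ⟨?_, fun ⟨h1, h2⟩ => ?_⟩
  · rintro ⟨u, rfl⟩
    exact ⟨h.ι_val d u, h.ι_mem d u⟩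
  · obtain ⟨n, _ | u⟩ := x
    · have e := h.H.shape d.1 none
      rw [d.2] at e
      have e1 : {v | h.H.mem v d.1 ∧ h.H.kd v = none} = ∅ :=
        (ncard_eq_zero (toFinite _)).1 (e.trans (if_neg (by simp)))
      exact absurd (e1 ▸ ⟨h2, h1⟩ : n ∈ (∅ : Set h.H.V)) (notMem_empty n)
    · exact ⟨u, (h.eq_ι h1 h2 rfl).symm⟩

theorem ι_fst {d : h.Big} {u v : V} : (h.ι d u).1 = (h.ι d v).1 ↔ cell c.Gs u = cell c.Gs v :=
  ⟨fun e => Option.some.inj ((h.ι_val d u).symm.trans (e ▸ h.ι_val d v)),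
    fun e => h.mb_iff.1 ⟨h.ι_mem d u, e ▸ h.ι_val d u⟩⟩

theorem pt_eq (d : h.Big) (u : V) : h.pt (h.ι d u).1 = h.ι d '' cell c.Gs u := by
  ext x
  constructor
  · rintro ⟨h1, h2⟩
    obtain ⟨w, rfl⟩ := h.range_ι.2 ⟨h2, h1 ▸ h.ι_mem d u⟩
    exact ⟨w, c.cell_eq.2 (h.ι_fst.1 h1), rfl⟩
  · rintro ⟨w, hw, rfl⟩
    exact ⟨h.ι_fst.2 (c.cell_eq.1 hw), h.ι_val d w⟩

/-- the top bags -/
def tb (p : h.Q) (j : c.J) (a : U) : h.W := ((h.φ p).v (.inl (j, a)), sl j a)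

theorem tb_val (p : h.Q) (j : c.J) (a : U) : h.Val (h.tb p j a) := (h.φ p).kd_v _

theorem tb_fst {p : h.Q} {j j' : c.J} {a b : U} (e : (h.tb p j a).1 = (h.tb p j' b).1) :
    j = j' ∧ a = b :=
  Prod.mk.inj (Sum.inl.inj ((h.φ p).v_inj e))

theorem tb_inj (p : h.Q) (j : c.J) : Injective (h.tb p j) :=
  fun _ _ e => (h.tb_fst (congrArg Prod.fst e)).2

/-- the hyperedge of an edge of a top bag -/
def ed (p : h.Q) (j : c.J) {a b : U} (e : c.A.Adj a b) : h.H.E := (h.φ p).e ⟨(j, s(a, b)), e⟩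

theorem ed_left (p : h.Q) (j : c.J) {a b : U} (e : c.A.Adj a b) :
    h.H.mem (h.tb p j a).1 (h.ed p j e) :=
  ((h.φ p).mem_iff _ _).2 ⟨.inl (j, a), ⟨rfl, Sym2.mem_mk_left a b⟩, rfl⟩

theorem ed_right (p : h.Q) (j : c.J) {a b : U} (e : c.A.Adj a b) :
    h.H.mem (h.tb p j b).1 (h.ed p j e) :=
  ((h.φ p).mem_iff _ _).2 ⟨.inl (j, b), ⟨rfl, Sym2.mem_mk_right a b⟩, rfl⟩

theorem ed_none {p : h.Q} {j : c.J} {a b : U} {e : c.A.Adj a b} :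
    h.H.ty (h.ed p j e) = none ↔ (old j).Adj a b := by
  rw [ed, (h.φ p).ty_e]
  exact c.fty_none

theorem ed_some (p : h.Q) {j : c.J} {a b : U} (e : c.A.Adj a b) (ho : ¬ (old j).Adj a b) :
    h.H.ty (h.ed p j e) = some (s(sl j a, sl j b), (red j).Adj a b) :=
  ((h.φ p).ty_e _).trans (c.fty_some ho)

/-- a hyperedge through two points of a top bag belongs to an edge of the bag -/
theorem tb_two {p : h.Q} {j : c.J} {a b : U} (hab : a ≠ b) {d : h.H.E}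
    (h1 : h.H.mem (h.tb p j a).1 d) (h2 : h.H.mem (h.tb p j b).1 d) :
    ∃ e : c.A.Adj a b, d = h.ed p j e := by
  obtain ⟨⟨z, hz⟩, rfl⟩ := h.good.str p _ _ d
    (fun e => hab (congrArg Prod.snd (Sum.inl.inj e))) h1 h2
  obtain rfl : z = (j, s(a, b)) := c.F_two hab (xlink_mem h1) (xlink_mem h2)
  exact ⟨hz, rfl⟩

theorem edge_in {p : h.Q} {d : h.H.E} (hd : Sum.inr d ∈ (h.φ p).Bag) :
    ∃ j a b, ∃ e : c.A.Adj a b, d = h.ed p j e := by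
  obtain ⟨x | ⟨⟨j, f⟩, hf⟩, e⟩ := hd
  · exact absurd e Sum.inl_ne_inr
  · induction f using Sym2.ind with | _ a b
    exact ⟨j, a, b, hf, (Sum.inr.inj e).symm⟩

/-- two vertices in one point or on one big edge -/
def Lo (x y : h.W) : Prop :=
  h.Val x ∧ h.Val y ∧ (x.1 = y.1 ∨ ∃ d : h.Big, h.H.mem x.1 d.1 ∧ h.H.mem y.1 d.1)

/-- the copies of a graph on the old vertex set -/
def lift (K : SimpleGraph V) : SimpleGraph h.W where
  Adj x y := h.Lo x y ∧ ∃ u v, x.2 = some u ∧ y.2 = some v ∧ K.Adj u v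
  symm := ⟨fun _ _ ⟨⟨h1, h2, h3⟩, u, v, h4, h5, h6⟩ => ⟨⟨h2, h1,
    h3.imp Eq.symm fun ⟨d, e⟩ => ⟨d, e.symm⟩⟩, v, u, h5, h4, h6.symm⟩⟩
  loopless := ⟨fun _ ⟨_, _, _, h4, h5, h6⟩ => h6.ne (Option.some.inj (h4.symm.trans h5))⟩

/-- the edge on the plain hyperedge `d` -/
def PlOn (d : h.H.E) (r : Prop) (x y : h.W) : Prop :=
  h.Val x ∧ h.Val y ∧ x.1 ≠ y.1 ∧ h.H.ty d = some (s(x.2, y.2), r) ∧ h.H.mem x.1 d ∧ h.H.mem y.1 d

/-- plain edges; only the red ones if `only` holds -/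
def plain (only : Prop) : SimpleGraph h.W where
  Adj x y := ∃ d r, (only → r) ∧ h.PlOn d r x y
  symm := ⟨fun _ _ ⟨d, r, h0, h1, h2, h3, h4, h5, h6⟩ =>
    ⟨d, r, h0, h2, h1, h3.symm, Sym2.eq_swap ▸ h4, h6, h5⟩⟩
  loopless := ⟨fun _ ⟨_, _, _, _, _, h3, _⟩ => h3 rfl⟩

def G' : SimpleGraph h.W := h.lift c.G ⊔ h.plain False
def R' : SimpleGraph h.W := h.lift c.R ⊔ h.plain True

theorem ed_plain (p : h.Q) {j : c.J} {a b : U} (e : c.A.Adj a b) (ho : ¬ (old j).Adj a b) :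
    h.PlOn (h.ed p j e) ((red j).Adj a b) (h.tb p j a) (h.tb p j b) :=
  ⟨h.tb_val p j a, h.tb_val p j b, fun e' => e.ne (h.tb_fst e').2, h.ed_some p e ho,
    h.ed_left p j e, h.ed_right p j e⟩

/-- a plain edge whose hyperedge lies in the copy `p` is an edge of a top bag of `p` -/
theorem PlOn.top {h : CH c} {d : h.H.E} {r : Prop} {x y : h.W} (hp : h.PlOn d r x y) {p : h.Q}
    (hd : Sum.inr d ∈ (h.φ p).Bag) : ∃ j a b, ∃ e : c.A.Adj a b, d = h.ed p j e ∧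
      ¬ (old j).Adj a b ∧ r = (red j).Adj a b ∧ x = h.tb p j a ∧ y = h.tb p j b := by
  obtain ⟨h1, h2, h3, h4, h5, h6⟩ := hp
  obtain ⟨j, a, b, e, rfl⟩ := h.edge_in hd
  have ho : ¬ (old j).Adj a b := fun ho => by
    rw [h.ed_none.2 ho] at h4
    exact absurd h4 (by simp)
  obtain ⟨h7, h8⟩ := Prod.mk.inj (Option.some.inj (h4.symm.trans (h.ed_some p e ho)))
  have key : ∀ z : h.W, h.H.mem z.1 (h.ed p j e) →
      z.1 = (h.tb p j a).1 ∨ z.1 = (h.tb p j b).1 := by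
    intro z hz
    obtain ⟨⟨j', a'⟩ | ⟨⟨j', f', k⟩, h9, _⟩, hm, e'⟩ := ((h.φ p).mem_iff _ _).1 hz
    · obtain ⟨rfl, hm⟩ : j' = j ∧ a' ∈ s(a, b) := hm
      rcases Sym2.mem_iff.1 hm with rfl | rfl
      exacts [.inl e'.symm, .inr e'.symm]
    · obtain ⟨rfl, rfl⟩ : j' = j ∧ f' = s(a, b) := hm
      exact absurd h9 ho
  have fin : ∀ a b : U, s(x.2, y.2) = s(sl j a, sl j b) → x.1 = (h.tb p j a).1 →
      y.1 = (h.tb p j b).1 → x = h.tb p j a ∧ y = h.tb p j b := by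
    intro a b h7 e1 e2
    rcases Sym2.eq_iff.1 h7 with ⟨e3, e4⟩ | ⟨e3, e4⟩
    · exact ⟨Prod.ext e1 e3, Prod.ext e2 e4⟩
    · have e5 : sl j a = sl j b := j.2.inj a b
        ((h.tb_val p j a).symm.trans ((congrArg h.H.kd e1.symm).trans
          (Eq.trans h1 (congrArg c.kd e3))))
      exact ⟨Prod.ext e1 (e3.trans e5.symm), Prod.ext e2 (e4.trans e5)⟩
  rcases key x h5 with e1 | e1 <;> rcases key y h6 with e2 | e2
  · exact absurd (e1.trans e2.symm) h3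
  · exact ⟨j, a, b, e, rfl, ho, h8, fin a b h7 e1 e2⟩
  · refine ⟨j, b, a, e.symm, ?_, fun h' => ho h'.symm, h8.trans (propext ⟨.symm, .symm⟩),
      fin b a (h7.trans Sym2.eq_swap) e1 e2⟩
    exact congrArg (h.φ p).e (Subtype.ext (Prod.ext rfl Sym2.eq_swap))
  · exact absurd (e1.trans e2.symm) h3

/-- an old edge of a top bag is a pending edge on its big edge -/
theorem old_ι (p : h.Q) {j : c.J} {a b : U} (ho : (old j).Adj a b) :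
    ∃ u v, c.D.Adj u v ∧ sl j a = some u ∧ sl j b = some v ∧
      h.tb p j a = h.ι ⟨h.ed p j (old_le j ho), h.ed_none.2 ho⟩ u ∧
      h.tb p j b = h.ι ⟨h.ed p j (old_le j ho), h.ed_none.2 ho⟩ v := by
  obtain ⟨u, v, huv, ha, hb⟩ := j.2.old a b ho
  exact ⟨u, v, huv, ha, hb, h.eq_ι (h.tb_val p j a) (h.ed_left p j _) ha,
    h.eq_ι (h.tb_val p j b) (h.ed_right p j _) hb⟩

theorem lift_ι {K : SimpleGraph V} {d : h.Big} {u v : V} :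
    (h.lift K).Adj (h.ι d u) (h.ι d v) ↔ K.Adj u v := by
  refine ⟨?_, fun e => ⟨⟨h.ι_val d u, h.ι_val d v, .inr ⟨d, h.ι_mem d u, h.ι_mem d v⟩⟩,
    u, v, rfl, rfl, e⟩⟩
  rintro ⟨-, u', v', h1, h2, e⟩
  rwa [Option.some.inj h1, Option.some.inj h2]

theorem not_plain_ι {r : Prop} {d : h.Big} {u v : V} : ¬ (h.plain r).Adj (h.ι d u) (h.ι d v) := by
  rintro ⟨d', r', -, -, -, h3, h4, h5, h6⟩
  rw [h.good.lin d' d.1 _ _ h3 h5 h6 (h.ι_mem d u) (h.ι_mem d v), d.2] at h4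
  exact absurd h4 (by simp)

theorem G'_ι {d : h.Big} {u v : V} : h.G'.Adj (h.ι d u) (h.ι d v) ↔ c.G.Adj u v :=
  ⟨fun e => h.lift_ι.1 (e.resolve_right h.not_plain_ι), fun e => .inl (h.lift_ι.2 e)⟩

theorem R'_ι {d : h.Big} {u v : V} : h.R'.Adj (h.ι d u) (h.ι d v) ↔ c.R.Adj u v :=
  ⟨fun e => h.lift_ι.1 (e.resolve_right h.not_plain_ι), fun e => .inl (h.lift_ι.2 e)⟩

theorem G'_tb {p : h.Q} {j : c.J} {a b : U} :
    h.G'.Adj (h.tb p j a) (h.tb p j b) ↔ c.A.Adj a b := by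
  constructor
  · intro e
    have hab : a ≠ b := fun e' => e.ne (by rw [e'])
    rcases e with ⟨⟨-, -, e | ⟨d, h1, h2⟩⟩, -⟩ | ⟨d, r, -, -, -, -, -, h1, h2⟩
    · exact absurd (h.tb_fst e).2 hab
    · exact (h.tb_two hab h1 h2).1
    · exact (h.tb_two hab h1 h2).1
  · intro e
    by_cases ho : (old j).Adj a b
    · obtain ⟨u, v, huv, -, -, e1, e2⟩ := h.old_ι p ho
      rw [e1, e2]
      exact h.G'_ι.2 (c.blue huv).1
    · exact .inr ⟨_, _, False.elim, h.ed_plain p e ho⟩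

theorem R'_tb {p : h.Q} {j : c.J} {a b : U} :
    h.R'.Adj (h.tb p j a) (h.tb p j b) ↔ (red j).Adj a b := by
  by_cases ho : (old j).Adj a b
  · obtain ⟨u, v, huv, -, -, e1, e2⟩ := h.old_ι p ho
    rw [e1, e2, h.R'_ι]
    exact iff_of_false (c.blue huv).2 (old_red j ho)
  constructor
  · intro e
    have hab : a ≠ b := fun e' => e.ne (by rw [e'])
    rcases e with ⟨⟨-, -, e | ⟨d, h1, h2⟩⟩, -⟩ | ⟨d, r, h0, -, -, -, h3, h1, h2⟩
    · exact absurd (h.tb_fst e).2 hab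
    · obtain ⟨e, e'⟩ := h.tb_two hab h1 h2
      exact absurd (h.ed_none.1 (e' ▸ d.2)) ho
    · obtain ⟨e, rfl⟩ := h.tb_two hab h1 h2
      exact (Prod.mk.inj (Option.some.inj (h3.symm.trans (h.ed_some p e ho)))).2 ▸ h0 trivial
  · exact fun e => .inr ⟨_, _, fun _ => e, h.ed_plain p (red_le j e) ho⟩

/-- the new copies of `Γ` -/
def Gs' : Set (X → h.W) :=
  {γ' | ∃ γ ∈ c.Gs, (∀ x y, (γ' x).1 = (γ' y).1) ∧ ∀ x, (γ' x).2 = some (γ x) ∧ h.Val (γ' x)}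

/-- the new bags -/
def Bs' : Set (Bag U h.W) :=
  {β' | (∃ d : h.Big, ∃ β ∈ c.Bs, β' = ⟨h.ι d ∘ β.f, β.old, β.red, β.top⟩) ∨
    ∃ p j, β' = ⟨h.tb p j, old j, red j, True⟩}

/-- the new nodes -/
def N' : Set (Set h.W) := Nodes (range '' h.Gs') h.Bs'

/-- the old nodes -/
def N0 (c : CD U X V) : Set (Set V) := Nodes (range '' c.Gs) c.Bs

/-- old edges of a part -/
abbrev Φ (j : c.J) : Type := {f : Sym2 U // f ∈ (old j).edgeSet}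

noncomputable def e1 {j : c.J} (f : Φ j) : U := f.1.out.1
noncomputable def e2 {j : c.J} (f : Φ j) : U := f.1.out.2

omit [Finite U] [Finite V] in
theorem e12 {j : c.J} (f : Φ j) : s(e1 f, e2 f) = f.1 := Quot.out_eq f.1

omit [Finite U] [Finite V] in
theorem e_adj {j : c.J} (f : Φ j) : (old j).Adj (e1 f) (e2 f) := by
  rw [← SimpleGraph.mem_edgeSet, e12]
  exact f.2

/-- the big edge of an old edge -/
noncomputable def bg (p : h.Q) {j : c.J} (f : Φ j) : h.Big :=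
  ⟨h.ed p j (old_le j (e_adj f)), h.ed_none.2 (e_adj f)⟩

/-- the vertices of a part that sit in copies of `Γ` -/
def Pn (j : c.J) : Set U := {a | ∃ γ ∈ c.Gs, ∃ u ∈ range γ, sl j a = some u}

/-- the nodes of a part -/
def SN (p : h.Q) (j : c.J) : Set (Set h.W) :=
  StarN (h.tb p j) (fun a => h.pt (h.tb p j a).1) (Pn j) fun f : Φ j => image (h.ι (h.bg p f)) '' N0 c

end CH

end Pool.Agent.MP_1c0fc2_co.RE

end

section

/-! The closing step: local properties of the new graph. -/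

open Function Set Relation

namespace Pool.Agent.MP_1c0fc2_co.RE

namespace CH
open CD
variable {U X V : Type} [Finite U] [Finite V] {c : CD U X V} (h : CH c)

theorem ι_Gs (d : h.Big) {γ : X → V} (hγ : γ ∈ c.Gs) : h.ι d ∘ γ ∈ h.Gs' :=
  ⟨γ, hγ, fun x y => h.ι_fst.2 ((c.cell_rng hγ (mem_range_self x)).trans
    (c.cell_rng hγ (mem_range_self y)).symm), fun _ => ⟨rfl, h.ι_val d _⟩⟩

theorem pt_Gs {γ : X → V} (hγ : γ ∈ c.Gs) {n : h.H.V} (hn : h.H.kd n = some (range γ)) :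
    (fun x => ((n, some (γ x)) : h.W)) ∈ h.Gs' :=
  ⟨γ, hγ, fun _ _ => rfl, fun x => ⟨rfl, hn.trans (congrArg some
    (c.cell_rng hγ (mem_range_self x)).symm)⟩⟩

theorem val_rng {γ : X → V} {z : h.W} (hz : h.Val z) (hn : h.H.kd z.1 = some (range γ)) :
    ∃ x, z.2 = some (γ x) := by
  obtain ⟨n, _ | u⟩ := z
  · exact absurd (hz.symm.trans hn) (by simp [CD.kd])
  · have e : cell c.Gs u = range γ := Option.some.inj (hz.symm.trans hn)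
    obtain ⟨x, rfl⟩ : u ∈ range γ := e ▸ c.mem_cell u
    exact ⟨x, rfl⟩

theorem range_pt {γ : X → V} (hγ : γ ∈ c.Gs) {n : h.H.V} (hn : h.H.kd n = some (range γ)) :
    range (fun x => ((n, some (γ x)) : h.W)) = h.pt n := by
  ext z
  constructor
  · rintro ⟨x, rfl⟩
    exact ⟨rfl, hn.trans (congrArg some (c.cell_rng hγ (mem_range_self x)).symm)⟩
  · rintro ⟨rfl, hz⟩
    obtain ⟨x, hx⟩ := h.val_rng hz hn
    exact ⟨x, Prod.ext rfl hx.symm⟩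

/-- normal form of a new copy of `Γ` through a vertex -/
theorem Gs_form {γ' : X → h.W} (hγ : γ' ∈ h.Gs') {z : h.W} (hz : z ∈ range γ') :
    ∃ γ ∈ c.Gs, h.H.kd z.1 = some (range γ) ∧ γ' = fun x => (z.1, some (γ x)) := by
  obtain ⟨γ, h1, h2, h3⟩ := hγ
  obtain ⟨x, rfl⟩ := hz
  exact ⟨γ, h1, (h3 x).2.trans ((congrArg c.kd (h3 x).1).trans
    (congrArg some (c.cell_rng h1 (mem_range_self x)))),
    funext fun y => Prod.ext (h2 y x) (h3 y).1⟩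

theorem lift_pt {K : SimpleGraph V} {n : h.H.V} {u v : V} (hu : h.Val (n, some u))
    (hv : h.Val (n, some v)) : (h.lift K).Adj (n, some u) (n, some v) ↔ K.Adj u v := by
  refine ⟨?_, fun e => ⟨⟨hu, hv, .inl rfl⟩, u, v, rfl, rfl, e⟩⟩
  rintro ⟨-, u', v', h1, h2, e⟩
  rwa [Option.some.inj h1, Option.some.inj h2]

theorem gind (γ' : X → h.W) (hγ : γ' ∈ h.Gs') : Ind c.Γ h.G' γ' univ := by
  refine ⟨fun a _ b _ e => ?_, fun a _ b _ => ?_⟩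
  · obtain ⟨γ, h1, -, h3⟩ := hγ
    exact (c.lev.core.gind γ h1).inj (Option.some.inj ((h3 a).1.symm.trans (e ▸ (h3 b).1)))
  · obtain ⟨γ, h1, h2, e⟩ := h.Gs_form hγ (mem_range_self a)
    have h3 : ∀ x, h.Val (γ' x) := fun x => let ⟨_, _, _, h3⟩ := hγ; (h3 x).2
    generalize (γ' a).1 = n at h2 e
    subst e
    rw [← (c.lev.core.gind γ h1).adj a b, ← h.lift_pt (h3 a) (h3 b)]
    exact ⟨fun e => e.resolve_right fun ⟨_, _, _, _, _, h3, _⟩ => h3 rfl, .inl⟩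

theorem gcol (γ' : X → h.W) (hγ : γ' ∈ h.Gs') (a b : X) :
    h.R'.Adj (γ' a) (γ' b) ↔ c.RΓ.Adj a b := by
  obtain ⟨γ, h1, h2, e⟩ := h.Gs_form hγ (mem_range_self a)
  have h3 : ∀ x, h.Val (γ' x) := fun x => let ⟨_, _, _, h3⟩ := hγ; (h3 x).2
  generalize (γ' a).1 = n at h2 e
  subst e
  rw [← c.lev.core.gcol γ h1 a b, ← h.lift_pt (h3 a) (h3 b)]
  exact ⟨fun e => e.resolve_right fun ⟨_, _, _, _, _, h3, _⟩ => h3 rfl, .inl⟩

theorem gdis (γ' : X → h.W) (hγ : γ' ∈ h.Gs') (γ'' : X → h.W) (hγ' : γ'' ∈ h.Gs')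
    (hne : γ' ≠ γ'') : Disjoint (range γ') (range γ'') := by
  refine disjoint_left.2 fun z h1 h2 => hne ?_
  obtain ⟨γ, a1, a2, a3⟩ := h.Gs_form hγ h1
  obtain ⟨δ, b1, b2, b3⟩ := h.Gs_form hγ' h2
  obtain ⟨x, -⟩ := h1
  have e : range γ = range δ := Option.some.inj (a2.symm.trans b2)
  obtain rfl := c.lev.core.eq_of_mem a1 b1 (mem_range_self x) (e ▸ mem_range_self x)
  exact a3.trans b3.symm

theorem hub (γ' : X → h.W) (hγ : γ' ∈ h.Gs') (β : Bag U h.W) (hβ : β ∈ h.Bs') (a : U) (x : X)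
    (hx : x ∈ c.Hub) : β.f a ≠ γ' x := by
  obtain ⟨γ, h1, -, h3⟩ := hγ
  intro e
  have e1 : (β.f a).2 = some (γ x) := e ▸ (h3 x).1
  rcases hβ with ⟨d, β, hβ, rfl⟩ | ⟨p, j, rfl⟩
  · exact c.lev.core.hub γ h1 β hβ a x hx (Option.some.inj e1)
  · obtain ⟨v, hv⟩ := j.2.pend a _ e1
    exact c.lev.hub γ h1 x hx v hv

theorem kind (β : Bag U h.W) (hβ : β ∈ h.Bs') : Kind c.A c.E β.old β.red β.top := by
  rcases hβ with ⟨d, β, hβ, rfl⟩ | ⟨p, j, rfl⟩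
  · exact .inl (c.lev.low β hβ)
  · exact .inr (j.2.kind.imp (fun e => ⟨trivial, e⟩) fun e => ⟨trivial, e⟩)

theorem le : h.R' ≤ h.G' := by
  rintro x y (⟨h1, u, v, h2, h3, e⟩ | ⟨d, r, -, e⟩)
  · exact .inl ⟨h1, u, v, h2, h3, c.lev.core.pre.le e⟩
  · exact .inr ⟨d, r, False.elim, e⟩

theorem cov (x y : h.W) (e : h.G'.Adj x y) : (∃ L ∈ range '' h.Gs', x ∈ L ∧ y ∈ L) ∨
    ∃ β ∈ h.Bs', ∃ a b, β.f a = x ∧ β.f b = y ∧ ¬ β.old.Adj a b := by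
  rcases e with ⟨⟨h1, h2, e | ⟨d, h3, h4⟩⟩, u, v, h5, h6, h7⟩ | ⟨d, r, -, e⟩
  · have k1 : h.H.kd x.1 = some (cell c.Gs u) := h1.trans (congrArg c.kd h5)
    have k2 : h.H.kd y.1 = some (cell c.Gs v) := h2.trans (congrArg c.kd h6)
    obtain ⟨γ, hγ, hu, -⟩ := c.cell_two (Option.some.inj (k1.symm.trans (e ▸ k2))) h7.ne
    rw [c.cell_rng hγ hu] at k1
    refine .inl ⟨_, ⟨_, h.pt_Gs hγ k1, rfl⟩, ?_⟩
    rw [h.range_pt hγ k1]
    exact ⟨⟨rfl, h1⟩, e.symm, h2⟩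
  · rw [h.eq_ι h1 h3 h5, h.eq_ι h2 h4 h6]
    rcases c.lev.core.pre.cov u v h7 with ⟨_, ⟨γ, hγ, rfl⟩, ⟨a, rfl⟩, b, rfl⟩ |
      ⟨β, hβ, a, b, rfl, rfl, ho⟩
    · exact .inl ⟨_, ⟨_, h.ι_Gs d hγ, rfl⟩, ⟨a, rfl⟩, b, rfl⟩
    · exact .inr ⟨_, .inl ⟨d, β, hβ, rfl⟩, a, b, rfl, rfl, ho⟩
  · obtain ⟨p, hp⟩ := h.good.cov (.inr d)
    obtain ⟨j, a, b, -, -, ho, -, rfl, rfl⟩ := e.top hp
    exact .inr ⟨_, .inr ⟨p, j, rfl⟩, a, b, rfl, rfl, ho⟩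

theorem low_pt {d : h.Big} {β : Bag U V} (hβ : β ∈ c.Bs) {a b : U} (hab : a ≠ b)
    (e : (h.ι d (β.f a)).1 = (h.ι d (β.f b)).1) : ¬ β.top ∧ β.old.Adj a b := by
  obtain ⟨γ, hγ, h1, h2⟩ := c.cell_two (h.ι_fst.1 e) ((c.lev.core.pre.ind β hβ).inj.ne hab)
  exact c.lev.core.pre.lb _ ⟨γ, hγ, rfl⟩ β hβ a b hab h1 h2

theorem low_top {d : h.Big} {u v : V} {p : h.Q} {j : c.J} {a b : U} (e : c.G.Adj u v)
    (ho : ¬ (old j).Adj a b) (h1 : h.ι d u = h.tb p j a) (h2 : h.ι d v = h.tb p j b) : False := by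
  have e1 := h.G'_ι (d := d).2 e
  rw [h1, h2] at e1
  exact h.not_plain_ι (r := False) (d := d) (u := u) (v := v)
    (h1 ▸ h2 ▸ ⟨_, _, False.elim, h.ed_plain p (h.G'_tb.1 e1) ho⟩)

theorem pre (hthin : ∀ ν ∈ h.N', Thin h.N' (GLk h.G') c.g ν) :
    Pre c.A h.G' h.R' (range '' h.Gs') h.Bs' c.g where
  le := h.le
  ind := by
    rintro _ (⟨d, β, hβ, rfl⟩ | ⟨p, j, rfl⟩)
    · exact ⟨((h.ι_inj d).comp (c.lev.core.pre.ind β hβ).inj).injOn, fun a _ b _ =>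
        h.G'_ι.trans ((c.lev.core.pre.ind β hβ).adj a b)⟩
    · exact ⟨(h.tb_inj p j).injOn, fun a _ b _ => h.G'_tb⟩
  col := by
    rintro _ (⟨d, β, hβ, rfl⟩ | ⟨p, j, rfl⟩) a b
    · exact h.R'_ι.trans (c.lev.core.pre.col β hβ a b)
    · exact h.R'_tb
  old := by
    rintro _ (⟨d, β, hβ, rfl⟩ | ⟨p, j, rfl⟩)
    exacts [c.lev.core.pre.old β hβ, old_le j]
  cov := h.cov
  thin := hthin
  lb := by
    rintro _ ⟨γ', ⟨γ, -, h2, -⟩, rfl⟩ β hβ a b hab ⟨x, hx⟩ ⟨y, hy⟩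
    have e : (β.f a).1 = (β.f b).1 := hx ▸ hy ▸ h2 x y
    rcases hβ with ⟨d, β, hβ, rfl⟩ | ⟨p, j, rfl⟩
    · exact h.low_pt hβ hab e
    · exact absurd (h.tb_fst e).2 hab
  bb := by
    rintro _ (⟨d, β, hβ, rfl⟩ | ⟨p, j, rfl⟩) _ (⟨d', β', hβ', rfl⟩ | ⟨p', j', rfl⟩) a b a' b' e
      o1 o2 e1 e2
    · have hne : (h.ι d (β.f a)).1 ≠ (h.ι d (β.f b)).1 := fun e' => o1 (h.low_pt hβ e.ne e').2
      have e3 : h.ι d (β.f a) = h.ι d' (β'.f a') := e1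
      have e4 : h.ι d (β.f b) = h.ι d' (β'.f b') := e2
      obtain rfl : d = d' := Subtype.ext (h.good.lin _ _ _ _ hne (h.ι_mem d _) (h.ι_mem d _)
        (e3 ▸ h.ι_mem d' _) (e4 ▸ h.ι_mem d' _))
      refine (c.lev.core.pre.bb β hβ β' hβ' a b a' b' e o1 o2 (h.ι_inj d e3)
        (h.ι_inj d e4)).imp_left ?_
      rintro rfl
      rfl
    · exact (h.low_top (((c.lev.core.pre.ind β hβ).adj a b).2 e) o2 e1 e2).elim
    · have e3 : h.tb p j a = h.ι d' (β'.f a') := e1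
      have e4 : h.tb p j b = h.ι d' (β'.f b') := e2
      have e5 := h.G'_tb (p := p) (j := j).2 e
      rw [e3, e4] at e5
      exact (h.low_top (h.G'_ι.1 e5) o1 e3.symm e4.symm).elim
    · exact .inr ⟨trivial, trivial⟩
  low := by
    rintro _ (⟨d, β, hβ, rfl⟩ | ⟨p, j, rfl⟩) ht
    exacts [c.lev.core.pre.low β hβ ht, absurd trivial ht]
  dis := by
    rintro _ ⟨γ, hγ, rfl⟩ _ ⟨γ', hγ', rfl⟩ hne
    exact h.gdis γ hγ γ' hγ' fun e => hne (by rw [e])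

theorem last (hthin : ∀ ν ∈ h.N', Thin h.N' (GLk h.G') c.g ν) (hram : RamOn c.A h.G' h.R' ⊥) :
    Last c.A c.E c.Γ c.RΓ c.Hub h.G' h.R' h.Gs' h.Bs' c.g :=
  ⟨⟨h.pre hthin, h.gind, h.gcol, h.gdis, h.hub⟩, h.kind, hram⟩

end CH

end Pool.Agent.MP_1c0fc2_co.RE

end

section

/-! The closing step: every part is a star. -/

open Function Set Relation

namespace Pool.Agent.MP_1c0fc2_co.RE

namespace CH
open CD
variable {U X V : Type} [Finite U] [Finite V] {c : CD U X V} (h : CH c)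

instance : Finite h.W := inferInstanceAs (Finite (h.H.V × Option V))

theorem bg_mem {p : h.Q} {j : c.J} {f : Φ j} {a : U}
    (hm : h.H.mem (h.tb p j a).1 (h.bg p f).1) : a = e1 f ∨ a = e2 f :=
  Sym2.mem_iff.1 (xlink_mem (ψ := h.φ p) hm).2

theorem glk_ι (d : h.Big) (ℓ : Set V) (hℓ : GLk c.G ℓ) : GLk h.G' (h.ι d '' ℓ) := by
  rcases hℓ with ⟨v, rfl⟩ | ⟨a, b, e, rfl⟩
  · exact .inl ⟨_, image_singleton⟩
  · exact .inr ⟨_, _, h.G'_ι.2 e, image_pair _ _ _⟩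

theorem star (p : h.Q) (j : c.J) :
    Star h.G' (h.tb p j) (fun a => h.pt (h.tb p j a).1) (Pn j) (fun f : Φ j => range (h.ι (h.bg p f)))
      e1 e2 (fun f : Φ j => image (h.ι (h.bg p f)) '' N0 c) c.g where
  bπ a := ⟨rfl, h.tb_val p j a⟩
  dis a a' hne := disjoint_left.2 fun _ h1 h2 => hne (h.tb_fst (h1.1.symm.trans h2.1)).2
  sing a ha := by
    refine Subset.antisymm ?_ (singleton_subset_iff.2 ⟨rfl, h.tb_val p j a⟩)
    rintro ⟨n, σ⟩ ⟨h1, h2⟩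
    have e : c.kd σ = c.kd (sl j a) := h2.symm.trans ((congrArg h.H.kd h1).trans (h.tb_val p j a))
    refine Prod.ext h1 (?_ : σ = sl j a)
    rcases hs : sl j a with _ | u
    · rw [hs] at e
      exact Option.map_eq_none_iff.1 e
    · rw [hs] at e
      obtain ⟨w, rfl, hw⟩ := Option.map_eq_some_iff.1 e
      rcases c.cell_or u with h3 | ⟨γ, hγ, hu⟩
      · exact congrArg some (h3 ▸ c.cell_eq.2 hw : w ∈ ({u} : Set V))
      · exact absurd ⟨γ, hγ, u, hu, hs⟩ ha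
  ne f := (e_adj f).ne
  xZ f _ hx := h.range_ι.2 ⟨hx.2, hx.1 ▸ h.ed_left p j _⟩
  yZ f _ hx := h.range_ι.2 ⟨hx.2, hx.1 ▸ h.ed_right p j _⟩
  oZ f a h1 h2 := disjoint_left.2 fun _ hx hz =>
    (h.bg_mem (hx.1 ▸ (h.range_ι.1 hz).2)).elim h1 h2
  ZZ f f' hne := by
    have hd : (h.bg p f).1 ≠ (h.bg p f').1 := fun e => hne (Subtype.ext
      ((e12 f).symm.trans ((congrArg (fun z => z.1.2) ((h.φ p).e_inj e)).trans (e12 f'))))
    by_cases he : (range (h.ι (h.bg p f)) ∩ range (h.ι (h.bg p f'))).Nonempty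
    · obtain ⟨z, h1, h2⟩ := he
      obtain ⟨-, m1⟩ := h.range_ι.1 h1
      obtain ⟨-, m2⟩ := h.range_ι.1 h2
      obtain ⟨v, k1, hv⟩ := ((h.φ p).mem_iff _ _).1 m1
      have k2 := xlink_mem (ψ := h.φ p) (hv ▸ m2)
      rcases v with ⟨j', a⟩ | v
      · obtain rfl : j' = j := k1.1
        refine ⟨a, fun w ⟨w1, w2⟩ => ⟨?_, (h.range_ι.1 w1).1⟩⟩
        by_contra hw
        exact hd (h.good.lin _ _ _ _ (fun e => hw (e.trans hv.symm)) (h.range_ι.1 w1).2 m1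
          (h.range_ι.1 w2).2 m2)
      · exact absurd (Subtype.ext ((e12 f).symm.trans ((k1.2.symm.trans k2.2).trans (e12 f')))) hne
    · exact ⟨e1 f, (not_nonempty_iff_eq_empty.1 he).le.trans (empty_subset _)⟩
  sub := by
    rintro f _ ⟨ν, -, rfl⟩
    exact image_subset_range _ _
  pn := by
    rintro f a ⟨γ, hγ, u, hu, hs⟩ ha
    have hm : h.H.mem (h.tb p j a).1 (h.bg p f).1 := by
      rcases ha with rfl | rfl
      exacts [h.ed_left p j _, h.ed_right p j _]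
    refine ⟨range γ, .inl ⟨γ, hγ, rfl⟩, ?_⟩
    rw [h.eq_ι (h.tb_val p j a) hm hs, h.pt_eq, c.cell_rng hγ hu]
  thin := by
    rintro f _ ⟨ν, hν, rfl⟩
    exact (map_stmt _ _ _ _ _ (h.ι_inj _)).1 _ _ _ (h.glk_ι _) (c.lev.core.pre.thin ν hν)
  tog f := by
    obtain ⟨u, v, huv, -, -, h1, h2⟩ := h.old_ι p (e_adj f)
    obtain ⟨ν, hν, n1, n2⟩ := c.lev.core.pre.tog (c.blue huv).1
    exact ⟨_, ⟨ν, hν, rfl⟩, h1 ▸ mem_image_of_mem _ n1, h2 ▸ mem_image_of_mem _ n2⟩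
  adj f := h.G'_tb.2 (old_le j (e_adj f))
  farx f := by
    obtain ⟨u, v, huv, -, -, h1, h2⟩ := h.old_ι p (e_adj f)
    simp only [h1, h2, h.pt_eq]
    exact (map_stmt _ _ _ _ _ (h.ι_inj _)).2 _ _ _ (c.far u v huv)
  fary f := by
    obtain ⟨u, v, huv, -, -, h1, h2⟩ := h.old_ι p (e_adj f)
    simp only [h1, h2, h.pt_eq]
    exact (map_stmt _ _ _ _ _ (h.ι_inj _)).2 _ _ _ (c.far v u huv.symm)

end CH

end Pool.Agent.MP_1c0fc2_co.RE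

end

section

/-! The closing step: all nodes are thin. -/

open Function Set Relation

namespace Pool.Agent.MP_1c0fc2_co.RE

theorem xclosec_thin {V : Type} {N N' : Set (Set V)} {Lk : Set V → Prop} {g : ℕ} {Y : Set V}
    (h1 : N ⊆ N') (h2 : ∀ ν ∈ N', ν.Nonempty → ν ∈ N) (h : Thin N Lk g Y) : Thin N' Lk g Y := by
  have e : Tog N' = Tog N := funext₂ fun x y => propext
    ⟨fun ⟨ν, n1, n2⟩ => ⟨ν, h2 ν n1 ⟨x, n2.1⟩, n2⟩, fun h => h.mono h1⟩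
  intro C c1 c2 c3
  rw [e] at c3
  have e' : At N' Y C = At N Y C := by simp only [At, e]
  rw [e']
  exact (h C c1 c2 c3).imp_right fun ⟨ℓ, l1, l2, l3, ν, l4, l5⟩ => ⟨ℓ, l1, l2, l3, ν, h1 l4, l5⟩

namespace CH
open CD
variable {U X V : Type} [Finite U] [Finite V] {c : CD U X V} (h : CH c)

/-- the nodes of a copy -/
def loc (p : h.Q) : Set (Set h.W) := ⋃ j, h.SN p j

/-- the vertices of a copy -/
def reg (p : h.Q) : Set h.W := {x | h.Val x ∧ Sum.inl x.1 ∈ (h.φ p).Bag}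

/-- the part of a point -/
def part : c.F.V → c.J
  | .inl z => z.1
  | .inr z => z.1.1

/-- the vertices of a part -/
def regj (p : h.Q) (j : c.J) : Set h.W := {x | h.Val x ∧ ∃ v, part v = j ∧ (h.φ p).v v = x.1}

theorem part_mem {v : c.F.V} {e : c.F.E} (hm : c.F.mem v e) : part v = e.1.1 := by
  rcases v with v | v <;> exact hm.1

theorem pt_regj (p : h.Q) (v : c.F.V) : h.pt ((h.φ p).v v) ⊆ h.regj p (part v) :=
  fun _ hx => ⟨hx.2, v, rfl, hx.1.symm⟩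

theorem ι_regj (p : h.Q) {j : c.J} (f : Φ j) : range (h.ι (h.bg p f)) ⊆ h.regj p j := by
  intro x hx
  obtain ⟨h1, h2⟩ := h.range_ι.1 hx
  obtain ⟨v, k1, hv⟩ := ((h.φ p).mem_iff _ _).1 h2
  exact ⟨h1, v, part_mem k1, hv⟩

theorem SN_regj (p : h.Q) (j : c.J) : ∀ ν ∈ h.SN p j, ν ⊆ h.regj p j := by
  rintro _ (rfl | ⟨a, -, rfl⟩ | ⟨f, ν, -, rfl⟩)
  · rintro _ ⟨a, rfl⟩
    exact ⟨h.tb_val p j a, .inl (j, a), rfl, rfl⟩
  · exact h.pt_regj p (.inl (j, a))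
  · exact (image_subset_range _ _).trans (h.ι_regj p f)

theorem thin_loc {p : h.Q} {j : c.J} {Y : Set h.W} (hY : Y ⊆ h.regj p j)
    (ht : Thin (h.SN p j) (GLk h.G') c.g Y) : Thin (h.loc p) (GLk h.G') c.g Y :=
  parts_stmt _ _ (h.regj p) (h.SN p) _ _ (h.SN_regj p) (fun _ _ hne => disjoint_left.2
    fun _ ⟨_, _, a1, a2⟩ ⟨_, _, b1, b2⟩ => hne (a1.symm.trans
      ((congrArg part ((h.φ p).v_inj (a2.trans b2.symm))).trans b1))) j Y hY ht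

theorem loc_reg (p : h.Q) : ∀ ν ∈ h.loc p, ν ⊆ h.reg p := by
  intro ν hν x hx
  obtain ⟨j, hj⟩ := mem_iUnion.1 hν
  obtain ⟨h1, v, -, h2⟩ := h.SN_regj p j ν hj hx
  exact ⟨h1, .inl v, congrArg Sum.inl h2⟩

theorem loc_sub (p : h.Q) : h.loc p ⊆ h.N' := by
  intro ν hν
  obtain ⟨j, rfl | ⟨a, ⟨γ, hγ, u, hu, hs⟩, rfl⟩ | ⟨f, _, ⟨γ, hγ, rfl⟩ | ⟨β, hβ, rfl⟩, rfl⟩⟩ :=
    mem_iUnion.1 hν
  · exact .inr ⟨_, .inr ⟨p, j, rfl⟩, rfl⟩
  · have k : h.H.kd (h.tb p j a).1 = some (range γ) :=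
      (h.tb_val p j a).trans ((congrArg c.kd hs).trans (congrArg some (c.cell_rng hγ hu)))
    exact .inl ⟨_, h.pt_Gs hγ k, h.range_pt hγ k⟩
  · exact .inl ⟨_, h.ι_Gs _ hγ, range_comp _ _⟩
  · exact .inr ⟨_, .inl ⟨_, β, hβ, rfl⟩, (range_comp _ _).symm⟩

theorem big_form {p : h.Q} {d : h.Big} (hd : Sum.inr d.1 ∈ (h.φ p).Bag) :
    ∃ j, ∃ f : Φ j, d = h.bg p f := by
  obtain ⟨j, a, b, e, he⟩ := h.edge_in hd
  have ho : (old j).Adj a b := h.ed_none.1 (he ▸ d.2)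
  refine ⟨j, ⟨s(a, b), ho⟩, Subtype.ext (he.trans (congrArg (h.φ p).e (Subtype.ext ?_)))⟩
  exact Prod.ext rfl (e12 (j := j) ⟨s(a, b), ho⟩).symm

theorem big_loc {p : h.Q} {d : h.Big} (hd : Sum.inr d.1 ∈ (h.φ p).Bag) {ν : Set V}
    (hν : ν ∈ N0 c) : h.ι d '' ν ∈ h.loc p := by
  obtain ⟨j, f, rfl⟩ := h.big_form hd
  exact mem_iUnion.2 ⟨j, .inr (.inr ⟨f, ν, hν, rfl⟩)⟩

theorem priv (p : h.Q) (z : c.FP) : ∃ (f : Φ z.1.1) (u : V), z.1.2.2 = cell c.Gs u ∧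
    h.pt ((h.φ p).v (.inr z)) = h.ι (h.bg p f) '' cell c.Gs u := by
  obtain ⟨⟨j, f, k⟩, h1, ⟨u, hu⟩, h2⟩ := z
  refine ⟨⟨f, h1⟩, u, hu, ?_⟩
  rw [← h.pt_eq]
  refine congrArg h.pt (h.mb_iff.1 ⟨((h.φ p).mem_iff _ _).2 ⟨_, ?_, rfl⟩,
    ((h.φ p).kd_v _).trans (congrArg some hu)⟩)
  exact ⟨rfl, (e12 (j := j) ⟨f, h1⟩).symm⟩

theorem pt_loc {p : h.Q} {n : h.H.V} (hn : Sum.inl n ∈ (h.φ p).Bag) {γ : X → V} (hγ : γ ∈ c.Gs)
    (hk : h.H.kd n = some (range γ)) : h.pt n ∈ h.loc p := by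
  obtain ⟨⟨j, a⟩ | z, rfl⟩ := xlink_inl hn
  · obtain ⟨x, hx⟩ := h.val_rng (h.tb_val p j a) hk
    exact mem_iUnion.2 ⟨j, .inr (.inl ⟨a, ⟨γ, hγ, _, mem_range_self x, hx⟩, rfl⟩)⟩
  · obtain ⟨f, u, h1, h2⟩ := h.priv p z
    have e : cell c.Gs u = range γ :=
      h1.symm.trans (Option.some.inj (((h.φ p).kd_v _).symm.trans hk))
    rw [h2, e]
    exact mem_iUnion.2 ⟨_, .inr (.inr ⟨f, _, .inl ⟨γ, hγ, rfl⟩, rfl⟩)⟩

theorem sub_loc (ν : Set h.W) (hν : ν ∈ h.N') (hn : ν.Nonempty) : ν ∈ ⋃ p, h.loc p := by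
  rw [mem_iUnion]
  rcases hν with ⟨γ', hγ, rfl⟩ | ⟨_, ⟨d, β, hβ, rfl⟩ | ⟨p, j, rfl⟩, rfl⟩
  · obtain ⟨z, hz⟩ := hn
    obtain ⟨γ, h1, h2, h3⟩ := h.Gs_form hγ hz
    obtain ⟨p, hp⟩ := h.good.cov (.inl z.1)
    rw [h3, h.range_pt h1 h2]
    exact ⟨p, h.pt_loc hp h1 h2⟩
  · obtain ⟨p, hp⟩ := h.good.cov (.inr d.1)
    exact ⟨p, (range_comp (h.ι d) β.f).symm ▸ h.big_loc hp (.inr ⟨β, hβ, rfl⟩)⟩
  · exact ⟨p, mem_iUnion.2 ⟨j, .inl rfl⟩⟩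

theorem tog_loc {p : h.Q} {x y : h.W} (hxy : x ≠ y) (hx : x ∈ h.reg p) (hy : y ∈ h.reg p)
    (ht : Tog h.N' x y) : Tog (h.loc p) x y := by
  by_cases he : x.1 = y.1
  · have k : c.kd x.2 = c.kd y.2 := hx.1.symm.trans ((congrArg h.H.kd he).trans hy.1)
    have hne : x.2 ≠ y.2 := fun e => hxy (Prod.ext he e)
    rcases hs : x.2 with _ | u
    · rw [hs] at k hne
      exact absurd (Option.map_eq_none_iff.1 k.symm).symm hne
    · rw [hs] at k hne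
      obtain ⟨w, hw, k⟩ := Option.map_eq_some_iff.1 k.symm
      obtain ⟨γ, hγ, hu, -⟩ := c.cell_two k.symm fun e => hne (by rw [hw, e])
      exact ⟨_, h.pt_loc hx.2 hγ (hx.1.trans ((congrArg c.kd hs).trans
        (congrArg some (c.cell_rng hγ hu)))), ⟨rfl, hx.1⟩, he.symm, hy.1⟩
  have hin : ∀ d, h.H.mem x.1 d → h.H.mem y.1 d → Sum.inr d ∈ (h.φ p).Bag := fun d h1 h2 =>
    xlink_two h.good (fun e => he (Sum.inl.inj e)) (.inr ⟨_, h1, rfl⟩) (.inr ⟨_, h2, rfl⟩) hx.2 hy.2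
  have hbig : ∀ (d : h.Big) u v, Tog (N0 c) u v → h.ι d u = x → h.ι d v = y →
      Tog (h.loc p) x y := by
    rintro d u v ⟨ν, hν, n1, n2⟩ rfl rfl
    exact ⟨_, h.big_loc (hin _ (h.ι_mem d u) (h.ι_mem d v)) hν, mem_image_of_mem _ n1,
      mem_image_of_mem _ n2⟩
  obtain ⟨_, ⟨γ', ⟨γ, -, h2, -⟩, rfl⟩ | ⟨_, ⟨d, β, hβ, rfl⟩ | ⟨q, j, rfl⟩, rfl⟩, ⟨a, ha⟩, b, hb⟩ := ht
  · exact absurd (ha ▸ hb ▸ h2 a b) he
  · exact hbig d _ _ ⟨_, .inr ⟨β, hβ, rfl⟩, mem_range_self a, mem_range_self b⟩ ha hb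
  · obtain rfl : h.tb q j a = x := ha
    obtain rfl : h.tb q j b = y := hb
    by_cases hq : p = q
    · subst hq
      exact ⟨_, mem_iUnion.2 ⟨j, .inl rfl⟩, mem_range_self a, mem_range_self b⟩
    obtain ⟨d, d1, d2⟩ := h.good.b2 p q hq _ _ (fun e => he (Sum.inl.inj e)) hx.2 hy.2
      ⟨.inl (.inl (j, a)), rfl⟩ ⟨.inl (.inl (j, b)), rfl⟩
    obtain ⟨_, m1, e1⟩ := d1.resolve_left Sum.inl_ne_inr
    obtain ⟨_, m2, e2⟩ := d2.resolve_left Sum.inl_ne_inr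
    obtain rfl := Sum.inl.inj e1
    obtain rfl := Sum.inl.inj e2
    obtain ⟨e, rfl⟩ := h.tb_two (fun e => hxy (by rw [e])) m1 m2
    by_cases ho : (old j).Adj a b
    · obtain ⟨u, v, huv, -, -, e3, e4⟩ := h.old_ι q ho
      exact hbig _ u v (c.lev.core.pre.tog (c.blue huv).1) e3.symm e4.symm
    · obtain ⟨j', a', b', -, -, -, -, e3, e4⟩ := (h.ed_plain q e ho).top (hin _ m1 m2)
      exact ⟨_, mem_iUnion.2 ⟨j', .inl rfl⟩, ⟨a', e3.symm⟩, b', e4.symm⟩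

theorem thin_pt (p : h.Q) (v : c.F.V) : Thin (h.loc p) (GLk h.G') c.g (h.pt ((h.φ p).v v)) := by
  refine h.thin_loc (h.pt_regj p v) ?_
  rcases v with ⟨j, a⟩ | z
  · exact (star_stmt _ _ _ _ _ _ _ _ _ _ _ _ (h.star p j)).2.2.1 a
  · obtain ⟨f, u, -, h2⟩ := h.priv p z
    rw [h2]
    rcases c.cell_or u with h3 | ⟨γ, hγ, hu⟩
    · rw [h3, image_singleton]
      exact thin_of_subsingleton (fun v => .inl ⟨v, rfl⟩) fun C _ _ _ =>
        subsingleton_singleton.anti fun _ hw => hw.1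
    · exact (star_stmt _ _ _ _ _ _ _ _ _ _ _ _ (h.star p z.1.1)).1 _
        (.inr (.inr ⟨f, _, .inl ⟨γ, hγ, (c.cell_rng hγ hu).symm⟩, rfl⟩))

theorem thin_edge (p : h.Q) {d : h.H.E} (hd : Sum.inr d ∈ (h.φ p).Bag) :
    Thin (h.loc p) (GLk h.G') c.g {x | h.Val x ∧ h.H.mem x.1 d} := by
  by_cases hb : h.H.ty d = none
  · obtain ⟨j, f, e⟩ := h.big_form (d := ⟨d, hb⟩) hd
    have e1 : {x : h.W | h.Val x ∧ h.H.mem x.1 d} = range (h.ι (h.bg p f)) :=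
      e ▸ Set.ext fun _ => (h.range_ι (d := ⟨d, hb⟩)).symm
    rw [e1]
    exact h.thin_loc (h.ι_regj p f) ((star_stmt _ _ _ _ _ _ _ _ _ _ _ _ (h.star p j)).2.1 f)
  · obtain ⟨j, a, b, e, rfl⟩ := h.edge_in hd
    have ho : ¬ (old j).Adj a b := fun ho => hb (h.ed_none.2 ho)
    have e1' : {x : h.W | h.Val x ∧ h.H.mem x.1 (h.ed p j e)} =
        h.pt (h.tb p j a).1 ∪ h.pt (h.tb p j b).1 := by
      ext z
      constructor
      · rintro ⟨h1, hz⟩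
        obtain ⟨⟨j', a'⟩ | ⟨⟨j', f', k⟩, h9, _⟩, hm, e'⟩ := ((h.φ p).mem_iff _ _).1 hz
        · obtain ⟨rfl, hm⟩ : j' = j ∧ a' ∈ s(a, b) := hm
          rcases Sym2.mem_iff.1 hm with rfl | rfl
          exacts [.inl ⟨e'.symm, h1⟩, .inr ⟨e'.symm, h1⟩]
        · obtain ⟨rfl, rfl⟩ : j' = j ∧ f' = s(a, b) := hm
          exact absurd h9 ho
      · rintro (⟨h1, h2⟩ | ⟨h1, h2⟩)
        exacts [⟨h2, h1 ▸ h.ed_left p j e⟩, ⟨h2, h1 ▸ h.ed_right p j e⟩]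
    rw [e1']
    refine h.thin_loc (union_subset (h.pt_regj p (.inl (j, a))) (h.pt_regj p (.inl (j, b))))
      ((star_stmt _ _ _ _ _ _ _ _ _ _ _ _ (h.star p j)).2.2.2 a b (h.G'_tb.2 e) fun f => ?_)
    constructor
    · rintro ⟨rfl, rfl⟩
      exact ho (e_adj f)
    · rintro ⟨rfl, rfl⟩
      exact ho (e_adj f).symm

open Classical in
theorem thin_reg (p : h.Q) : Thin (⋃ q, h.loc q) (GLk h.G') c.g (h.reg p) := by
  have hown : ∀ (x : h.W) (n : h.H.V ⊕ h.H.E),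
      (if h.Val x then some (Sum.inl x.1) else none) = some n ↔ h.Val x ∧ n = .inl x.1 := by
    intro x n
    split_ifs with hx
    · exact ⟨fun e => ⟨hx, (Option.some.inj e).symm⟩, fun e => congrArg some e.2.symm⟩
    · exact iff_of_false (by simp) fun e => hx e.1
  refine glue_stmt _ _ _ (fun q => (h.φ q).Bag) h.H.Lk
    (fun x : h.W => if h.Val x then some (Sum.inl x.1) else none) h.reg h.loc _ _ h.good.thin
    (xlink_inter h.good) (fun x n q e => ?_) (fun x q q' e h1 _ => ?_) h.loc_reg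
    (fun q q' x y hxy hx hy ht => h.tog_loc hxy hx hy (ht.mono (h.loc_sub q'))) ?_ p
  · obtain ⟨h1, rfl⟩ := (hown x n).1 e
    exact ⟨fun h2 => h2.2, fun h2 => ⟨h1, h2⟩⟩
  · exact absurd ((if_pos h1.1).symm.trans e) (by simp)
  · rintro q _ (⟨n, rfl⟩ | ⟨d, rfl⟩) hs
    · obtain ⟨v, rfl⟩ := xlink_inl (hs rfl)
      convert h.thin_pt q v using 1
      ext x
      simp only [mem_ofPred_eq, hown]
      constructor
      · rintro ⟨_, rfl, h1, h2⟩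
        exact ⟨(Sum.inl.inj h2).symm, h1⟩
      · exact fun hx => ⟨_, rfl, hx.2, congrArg Sum.inl hx.1.symm⟩
    · convert h.thin_edge q (hs (.inl rfl)) using 1
      ext x
      simp only [mem_ofPred_eq, hown]
      constructor
      · rintro ⟨_, h0, h1, rfl⟩
        obtain ⟨v, h2, h3⟩ := h0.resolve_left Sum.inl_ne_inr
        exact ⟨h1, Sum.inl.inj h3 ▸ h2⟩
      · exact fun hx => ⟨_, .inr ⟨_, hx.2, rfl⟩, hx.1, rfl⟩

theorem thin (ν : Set h.W) (hν : ν ∈ h.N') : Thin h.N' (GLk h.G') c.g ν := by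
  rcases ν.eq_empty_or_nonempty with rfl | hn
  · exact fun C _ _ _ => .inl (eq_empty_of_forall_notMem fun _ hw => hw.1)
  obtain ⟨p, hp⟩ := mem_iUnion.1 (h.sub_loc ν hν hn)
  obtain ⟨j, hj⟩ := mem_iUnion.1 hp
  have hs : (⋃ q, h.loc q) ⊆ h.N' := iUnion_subset h.loc_sub
  exact xclosec_thin hs h.sub_loc (local_stmt _ _ (h.loc p) _ _ _ ν (h.thin_reg p)
    (subset_iUnion _ p) (fun x y hxy hx hy ht => h.tog_loc hxy hx hy (ht.mono hs))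
    (h.loc_reg p ν hp) (h.thin_loc (h.SN_regj p j ν hj)
      ((star_stmt _ _ _ _ _ _ _ _ _ _ _ _ (h.star p j)).1 ν hj)) fun _ hℓ => hℓ.inter ν)

end CH

end Pool.Agent.MP_1c0fc2_co.RE

end

section

/-! The engine: alternate protection steps, then close. -/

open Function Set Relation

namespace Pool.Agent.MP_1c0fc2_co.RE

theorem xeng_base {U X : Type} (A : SimpleGraph U) (E : EP U) (Γ RΓ : SimpleGraph X) (Hub : Set X)
    (g : ℕ) (h : RΓ ≤ Γ) (hr : RamOn A Γ RΓ (offG Γ Hub)) :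
    Lev A E Γ RΓ Hub Γ RΓ (offG Γ Hub) {id} ∅ g := by
  have e : range '' ({id} : Set (X → X)) = {univ} := by simp
  refine ⟨⟨⟨h, fun _ h => h.elim, fun _ h => h.elim, fun _ h => h.elim, fun x y _ => ?_, ?_,
    fun _ _ _ h => h.elim, fun _ h => h.elim, fun _ h => h.elim, ?_⟩, ?_, ?_, ?_,
    fun _ _ _ h => h.elim⟩, fun _ h => h.elim, fun _ _ h => h.1, hr, ?_⟩
  · exact .inl ⟨univ, e ▸ rfl, trivial, trivial⟩
  · rintro ν (hν | ⟨_, h, -⟩) C - hd -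
    · rw [e] at hν
      obtain rfl : ν = univ := hν
      exact .inl (eq_empty_of_forall_notMem fun w ⟨_, c, hc, _⟩ => disjoint_left.1 hd hc trivial)
    · exact h.elim
  · rw [e]
    rintro _ rfl _ rfl h
    exact absurd rfl h
  · rintro _ rfl
    exact ⟨fun _ _ _ _ h => h, fun _ _ _ _ => .rfl⟩
  · rintro _ rfl _ _
    exact .rfl
  · rintro _ rfl _ rfl h
    exact absurd rfl h
  · rintro _ rfl x hx y h
    exact h.2.1 hx

theorem engine_stmt (hProt : ProtStmt) (hClose : CloseStmt) : EngineStmt := by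
  intro U X _ _ A E Γ RΓ Hub g hE hle hr
  have far0 : ∀ (V : Type) [Finite V] (D : SimpleGraph V) (Gs : Set (X → V))
      (Bs : Set (Bag U V)), FarD D Gs Bs 0 := by
    rintro V _ D Gs Bs u v - C hC - ⟨c, hc, -⟩ -
    obtain rfl : C = ∅ := (ncard_eq_zero (toFinite C)).1 (Nat.le_zero.1 hC)
    exact hc.elim
  have key : ∀ k, k ≤ g + 1 → ∀ c, ∃ (V : Type) (_ : Finite V) (G R D : SimpleGraph V)
      (Gs : Set (X → V)) (Bs : Set (Bag U V)), Lev A E Γ RΓ Hub G R D Gs Bs (g + 2) ∧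
      D ≤ cc G R c ∧ FarD D Gs Bs k := by
    intro k
    induction k with
    | zero =>
      intro _ c
      obtain ⟨V, _, G, R, D, Gs, Bs, h1, h2, -⟩ := hProt U X X A E Γ RΓ Hub Γ RΓ _ _ _ (g + 2) 0
        (!c) hE (by omega) (xeng_base A E Γ RΓ Hub _ hle hr) (far0 _ _ _ _)
      exact ⟨V, ‹_›, G, R, D, Gs, Bs, h1, by rwa [Bool.not_not] at h2, far0 _ _ _ _⟩
    | succ k ih =>
      intro hk c
      obtain ⟨V, _, G, R, D, Gs, Bs, h1, h2, h3⟩ := ih (by omega) (!c)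
      obtain ⟨V', _, G', R', D', Gs', Bs', k1, k2, k3⟩ := hProt U X V A E Γ RΓ Hub G R D Gs Bs
        (g + 2) k (!c) hE (by omega) h1 h3
      exact ⟨V', ‹_›, G', R', D', Gs', Bs', k1, by rwa [Bool.not_not] at k2, k3 h2⟩
  obtain ⟨V, _, G, R, D, Gs, Bs, h1, h2, h3⟩ := key (g + 1) le_rfl false
  exact hClose U X V A E Γ RΓ Hub G R D Gs Bs g hE
    { h1 with core := { h1.core with pre := h1.core.pre.mono (by omega) } } h2 h3

end Pool.Agent.MP_1c0fc2_co.RE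

end

section

/-! The blue classes of the middle graph in the cases without cones. -/

open Function Set Relation

namespace Pool.Agent.MP_1c0fc2_co.RE

section
variable {U X Q L : Type} {A M : SimpleGraph U} {I : Set U} {Γ RΓ : SimpleGraph X} {Hub : Set X}
  {Hs Us Xs : Set (U → X)} {g : ℕ} {pt : U → Option Q}

theorem xgbluen_adj (h : Gam A M I pt Γ RΓ Hub Hs Us Xs g) {υ : U → X} (hυ : υ ∈ Us) (a b : U) :
    (Γ \ RΓ).Adj (υ a) (υ b) ↔ (A \ M).Adj a b :=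
  cc_iff ((h.uind υ hυ).adj a b) (h.ucol υ hυ a b) false

theorem xgbluen_body (h : Gam A M I (fun _ => (none : Option Q)) Γ RΓ Hub Hs Us Xs g)
    {υ υ' : U → X} (hυ : υ ∈ Us) (hυ' : υ' ∈ Us) {a : U} (ha : a ∉ M.support)
    (h' : υ a ∈ range υ') : υ = υ' := by
  by_contra e
  have hm : υ a ∈ range υ ∩ range υ' := ⟨mem_range_self a, h'⟩
  rcases h.uu υ hυ υ' hυ' e with h1 | ⟨k, hk, h1⟩ | ⟨z, ⟨υ'', -, hz⟩, h1⟩
  · rw [h1] at hm
    exact hm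
  · exact ha ((h.uhub υ hυ a).1 ((h.hub _).2 ⟨k, hk, h1 hm⟩))
  · have := h1 hm
    rw [hz] at this
    obtain ⟨u, hu, -⟩ := this
    cases hu

theorem xgbluen_dis (h : Gam A M I (fun _ => (none : Option Q)) Γ RΓ Hub Hs Us Xs g)
    {K : L → Set U} (hd : ∀ l l', l ≠ l' → Disjoint (K l) (K l'))
    (ho : ∀ l, Disjoint (K l) M.support) (z z' : Us × L) (hz : z ≠ z') :
    Disjoint (z.1.1 '' K z.2) (z'.1.1 '' K z'.2) := by
  obtain ⟨⟨υ, hυ⟩, l⟩ := z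
  obtain ⟨⟨υ', hυ'⟩, l'⟩ := z'
  refine disjoint_left.2 ?_
  rintro _ ⟨a, ha, rfl⟩ ⟨b, hb, e⟩
  obtain rfl : υ = υ' := xgbluen_body h hυ hυ' (disjoint_left.1 (ho l) ha) ⟨b, e⟩
  obtain rfl : b = a := (h.uind υ hυ).inj e
  exact disjoint_left.1 (hd l l' fun e => hz (by rw [e])) ha hb

theorem xgbluen_port (h : Gam A M I (fun _ => (none : Option Q)) Γ RΓ Hub Hs Us Xs g)
    {K : L → Set U} (hd : ∀ l l', l ≠ l' → Disjoint (K l) (K l'))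
    (ho : ∀ l, Disjoint (K l) M.support) (υ : Us) (l : L) (Y Z : Set X) (Z' : Set U)
    (hZ : ∀ q ∈ Z, ∃ z : Us × L, z ≠ (υ, l) ∧ q ∈ z.1.1 '' K z.2 ∧ (z.1 = υ → K z.2 ⊆ Z')) :
    Port (Γ \ RΓ) (υ.1 '' K l ∩ Y) Z ⊆ υ.1 '' Port (A \ M) (K l) Z' := by
  rintro _ ⟨⟨⟨a, ha, rfl⟩, -⟩, hp | ⟨q, hq, -, e⟩⟩
  · obtain ⟨z, h1, h2, -⟩ := hZ _ hp
    exact (disjoint_left.1 (xgbluen_dis h hd ho z (υ, l) h1) h2 ⟨a, ha, rfl⟩).elim
  · obtain ⟨⟨υ', l'⟩, h1, ⟨b, hb, rfl⟩, h3⟩ := hZ _ hq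
    obtain ⟨υ'', h4, h5, h6⟩ := h.bcov _ _ e
    have e1 := xgbluen_body h υ.2 h4 (disjoint_left.1 (ho l) ha) h5
    have e2 := xgbluen_body h υ'.2 h4 (disjoint_left.1 (ho l') hb) h6
    obtain rfl : υ' = υ := Subtype.ext (e2.trans e1.symm)
    refine ⟨a, ⟨ha, .inr ⟨b, h3 rfl hb, fun hb' => ?_, (xgbluen_adj h υ'.2 a b).1 e⟩⟩, rfl⟩
    exact disjoint_left.1 (hd l' l fun e => h1 (by rw [e])) hb hb'

theorem xgbluen_rp (h : Gam A M I (fun _ => (none : Option Q)) Γ RΓ Hub Hs Us Xs g)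
    {K : L → Set U} (hd : ∀ l l', l ≠ l' → Disjoint (K l) (K l'))
    (ho : ∀ l, Disjoint (K l) M.support) (h1 : RP (A \ M) K ∅)
    (h2 : RPX (A \ M) K Set.Subsingleton) :
    LocRP Γ RΓ Hub false (fun z : Us × L => z.1.1 '' K z.2) False ∅ g := by
  intro Y _ _
  have oth : ∀ (𝒮 : Set (Us × L)) (υ : Us) (l : L),
      ∀ q ∈ Oth (fun z : Us × L => z.1.1 '' K z.2 ∩ Y) 𝒮 (υ, l), ∃ z : Us × L, z ≠ (υ, l) ∧
        q ∈ z.1.1 '' K z.2 ∧ (z.1 = υ → K z.2 ⊆ Oth K {l' | (υ, l') ∈ 𝒮} l) := by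
    rintro 𝒮 υ l q ⟨⟨υ', l'⟩, z1, z2, z3⟩
    refine ⟨(υ', l'), z2, z3.1, ?_⟩
    rintro rfl b hb
    exact ⟨l', z1, fun e => z2 (by rw [e]), hb⟩
  refine ⟨?_, ?_⟩
  · rintro 𝒮 R0 ⟨⟨υ, l1⟩, hl1⟩ hR
    obtain ⟨R1, r1, r2⟩ : ∃ R1 : Set U, (R1 = ∅ ∨ (∃ l0, l0 ∉ {l' | (υ, l') ∈ 𝒮} ∧ R1 = K l0) ∨
        ∃ r ∈ (∅ : Set U), R1 = {r}) ∧ ∀ q ∈ R0, ∃ z : Us × L, z ∉ 𝒮 ∧ q ∈ z.1.1 '' K z.2 ∧
          (z.1 = υ → K z.2 ⊆ R1) := by
      rcases hR with rfl | ⟨⟨υ0, l0⟩, z1, rfl⟩ | ⟨r, hr, -⟩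
      · exact ⟨∅, .inl rfl, fun _ hq => hq.elim⟩
      · by_cases e : υ0 = υ
        · subst e
          exact ⟨K l0, .inr (.inl ⟨l0, z1, rfl⟩), fun q hq => ⟨_, z1, hq.1, fun _ => subset_rfl⟩⟩
        · exact ⟨∅, .inl rfl, fun q hq => ⟨_, z1, hq.1, fun e' => absurd e' e⟩⟩
      · exact hr.1.elim
    obtain ⟨l, hl, hs⟩ := h1 {l' | (υ, l') ∈ 𝒮} R1 ⟨l1, hl1⟩ r1
    refine ⟨(υ, l), hl, (hs.image υ.1).anti (xgbluen_port h hd ho υ l Y _ _ ?_)⟩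
    rintro q (hq | hq)
    · obtain ⟨z, z1, z2, z3⟩ := r2 q hq
      exact ⟨z, fun e => z1 (e ▸ hl), z2, fun e => (z3 e).trans subset_union_left⟩
    · obtain ⟨z, z1, z2, z3⟩ := oth 𝒮 υ l q hq
      exact ⟨z, z1, z2, fun e => (z3 e).trans subset_union_right⟩
  · rintro 𝒮 Pt ⟨⟨υ, l1⟩, hl1⟩ ⟨-, hP⟩
    have hi := (h.uind υ.1 υ.2).inj
    have hP' : (υ.1 ⁻¹' Pt).Subsingleton := by
      rcases hP with hP | ⟨a, b, ha, hb, e, hP⟩
      · exact hP.preimage hi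
      · have key : ∀ x y, υ.1 x = a → υ.1 y = b → False := by
          rintro x y rfl rfl
          exact ha ((h.uhub _ υ.2 x).2 ⟨y, (h.ucol _ υ.2 x y).1 e⟩)
        intro x hx y hy
        rcases hP hx with e1 | e1 <;> rcases hP hy with e2 | e2
        exacts [hi (e1.trans e2.symm), (key x y e1 e2).elim, (key y x e2 e1).elim,
          hi (e1.trans e2.symm)]
    obtain ⟨l, hl, hs⟩ := h2 {l' | (υ, l') ∈ 𝒮} _ ⟨l1, hl1⟩ hP'
    refine ⟨(υ, l), hl, (hs.image υ.1).anti ?_⟩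
    rw [image_union]
    refine union_subset_union ?_ (xgbluen_port h hd ho υ l Y _ _ (oth 𝒮 υ l))
    rintro _ ⟨⟨⟨a, ha, rfl⟩, -⟩, hp⟩
    exact ⟨a, ⟨ha, hp⟩, rfl⟩

end

theorem gBlueN_stmt (hK3 : K3Stmt) (hRP : RPStmt) (hThNode : ThNodeStmt) : GBlueNStmt := by
  intro W U X Q L _ _ _ _ H P hP m hm A M I Γ RΓ Hub Hs Us Xs g K s hA hg h hD
  have hBO : ∀ {V : Type} (J : SimpleGraph V) (S : Set V), BO P H m J S ↔ TH P H J S := by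
    intro V J S
    cases m
    exacts [Iff.rfl, Iff.rfl, hm.elim, hm.elim]
  have pull : ∀ υ ∈ Us, ∀ S, S ⊆ range υ → BO P H m (Γ \ RΓ) S →
      BO P H m (A \ M) (υ ⁻¹' S) := by
    intro υ hυ S hS hO
    obtain ⟨k, k1, k2, -⟩ := exists_pull' (J := A \ M) (J' := Γ \ RΓ) (h.uind υ hυ).inj
      (fun x y => (xgbluen_adj h hυ x y).1) hS hO.two.nonempty
    exact k2 ▸ hO.map k1
  refine ⟨fun S hS _ => ?_, ?_, xgbluen_dis h hD.fam.dis hD.off, fun l => ?_,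
    xgbluen_rp h hD.fam.dis hD.off hD.fam.rp
      ((hRP U L (A \ M) K ∅).2.2.1 hD.fam.rp hD.fam.dis)⟩
  · obtain ⟨G', R', e, hpre⟩ := h.preB fun _ => rfl
    obtain ⟨⟨-, k1, k2, k3⟩, -⟩ := hK3 W U H P hP
    have hT := (hBO _ _).1 hS
    rcases hThNode W U X H P A G' R' _ _ g false hA (k1.trans (k2.trans hg)) hpre
      (by
        rintro β ⟨-, b1, b2, b3⟩
        rw [b1, b2]
        exact .inl ⟨b3, rfl, hD.br hm⟩) S (hT.2 ▸ k3.trans hg)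
      (by
        have : cc G' R' false = Γ \ RΓ := e
        rw [this]
        exact hT.1.mono fun _ _ _ _ e' => TG_mono (subset_univ _) e') with
      ⟨_, ⟨k, hk, rfl⟩, hSk⟩ | ⟨β, hβ, hSβ⟩
    · obtain ⟨x, hx, y, hy, exy⟩ := hS.two.edge
      obtain ⟨a, rfl⟩ := hSk hx
      obtain ⟨b, rfl⟩ := hSk hy
      exact (exy.2 (h.hred k hk a b (((h.hind k hk).adj a b).1 exy.1))).elim
    · obtain ⟨l, hl⟩ := hD.fam.cov _ (pull _ hβ.1 S hSβ hS)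
      refine ⟨(⟨β.f, hβ.1⟩, l), fun x hx => ?_⟩
      obtain ⟨a, rfl⟩ := hSβ hx
      exact ⟨a, hl hx, rfl⟩
  · rintro ⟨⟨υ, hυ⟩, l⟩
    refine le_trans ?_ ((ncard_image_le (f := υ) (toFinite _)).trans (hD.wt l))
    refine ncard_le_ncard ?_ (toFinite _)
    rintro w ⟨O, hO, hOK, hw⟩
    obtain ⟨a, -, rfl⟩ := hOK hw
    refine ⟨a, ⟨υ ⁻¹' O, pull υ hυ O (hOK.trans (image_subset_range _ _)) hO, fun b hb => ?_, hw⟩,
      rfl⟩
    obtain ⟨c, hc, e⟩ := hOK hb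
    exact (h.uind υ hυ).inj e ▸ hc
  · cases m
    exacts [trivial, trivial, hm.elim, hm.elim]

end Pool.Agent.MP_1c0fc2_co.RE

end

section

/-! Blue classes of the middle graph in the cone cases. -/

open Function Set Relation

namespace Pool.Agent.MP_1c0fc2_co.RE

section
variable {U X L : Type} {A M : SimpleGraph U} {I : Set U} {pt : U → Option (L ⊕ U)}
  {Γ RΓ : SimpleGraph X} {Hub : Set X} {Hs Us Xs : Set (U → X)} {g : ℕ} {K : L → Set U}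

theorem xgblues_adj (hG : Gam A M I pt Γ RΓ Hub Hs Us Xs g) {υ : U → X} (hυ : υ ∈ Us) (a b : U) :
    (Γ \ RΓ).Adj (υ a) (υ b) ↔ (A \ M).Adj a b :=
  and_congr ((hG.uind υ hυ).adj a b) (not_congr (hG.ucol υ hυ a b))

theorem xgblues_set (hp : IsPt M K pt) (l : L) : {u | pt u = some (.inl l)} = K l :=
  Set.ext fun a => hp.2.1 l a

theorem xgblues_cel (hG : Gam A M I pt Γ RΓ Hub Hs Us Xs g) (hp : IsPt M K pt) (z : CI pt Us)
    {υ : U → X} (hυ : υ ∈ Us) {x : X} (hx : x ∈ z.1.2) (hx' : x ∈ range υ) :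
    z.1.2 = υ '' K z.1.1 := by
  rw [← xgblues_set hp]
  exact hG.cel _ z.2.2 υ hυ ⟨x, hx, hx'⟩

theorem xgblues_unit (hp : IsPt M K pt) (z : CI pt Us) : ∃ υ ∈ Us, z.1.2 = υ '' K z.1.1 := by
  obtain ⟨υ, hυ, e⟩ := z.2.2
  exact ⟨υ, hυ, xgblues_set hp z.1.1 ▸ e⟩

theorem xgblues_eq (hG : Gam A M I pt Γ RΓ Hub Hs Us Xs g) (hp : IsPt M K pt) {z z' : CI pt Us}
    {x : X} (hx : x ∈ z.1.2) (hx' : x ∈ z'.1.2) : z = z' := by
  obtain ⟨υ, hυ, e⟩ := xgblues_unit hp z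
  have e' := xgblues_cel hG hp z' hυ hx' (image_subset_range _ _ (e ▸ hx))
  obtain ⟨a, ha, rfl⟩ : x ∈ υ '' K z.1.1 := e ▸ hx
  obtain ⟨a', ha', e2⟩ : υ a ∈ υ '' K z'.1.1 := e' ▸ hx'
  rw [(hG.uind υ hυ).inj e2] at ha'
  have e3 : z.1.1 = z'.1.1 := by
    simpa using ((hp.2.1 _ _).2 ha).symm.trans ((hp.2.1 _ _).2 ha')
  exact Subtype.ext (Prod.ext e3 (by rw [e, e', e3]))

/-- a blue edge in two different units lies in a class point -/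
theorem xgblues_two (hG : Gam A M I pt Γ RΓ Hub Hs Us Xs g) (hp : IsPt M K pt) {υ υ' : U → X}
    (hυ : υ ∈ Us) (hυ' : υ' ∈ Us) (hne : υ ≠ υ') {x y : X} (e : (Γ \ RΓ).Adj x y)
    (hx : x ∈ range υ ∩ range υ') (hy : y ∈ range υ ∩ range υ') :
    ∃ z : CI pt Us, x ∈ z.1.2 ∧ y ∈ z.1.2 := by
  rcases hG.uu υ hυ υ' hυ' hne with h | ⟨h, hh, hs⟩ | ⟨⟨q, Z⟩, hz, hs⟩
  · exact (h ▸ hx : x ∈ (∅ : Set X)).elim
  · obtain ⟨a, rfl⟩ := hs hx
    obtain ⟨b, rfl⟩ := hs hy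
    exact (e.2 (hG.hred h hh a b (((hG.hind h hh).adj a b).1 e.1))).elim
  · rcases q with l | c
    · exact ⟨⟨(l, Z), ⟨x, hs hx⟩, hz⟩, hs hx, hs hy⟩
    · obtain ⟨υ'', -, e'⟩ := hz
      have key : ∀ u, pt u = some (.inr c) → u = c := fun u hu => by
        have h1 := hp.2.2 u (fun h => by simp [hp.1 u h] at hu)
          fun l h => by simp [(hp.2.1 l u).2 h] at hu
        simpa using h1.symm.trans hu
      obtain ⟨a, ha, rfl⟩ : x ∈ υ'' '' {u | pt u = some (.inr c)} := e' ▸ hs hx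
      obtain ⟨b, hb, rfl⟩ : y ∈ υ'' '' {u | pt u = some (.inr c)} := e' ▸ hs hy
      rw [key a ha, key b hb] at e
      exact (e.ne rfl).elim

/-- a blue fan that avoids the class point of its centre lies in one unit -/
theorem xgblues_fan (hG : Gam A M I pt Γ RΓ Hub Hs Us Xs g) (hp : IsPt M K pt) {w x0 : X}
    {C : Set X} (hx0 : x0 ∈ C) (hw : ∀ x ∈ C, (Γ \ RΓ).Adj w x) (hc : ConnOn (Γ \ RΓ).Adj C)
    (hd : ∀ z : CI pt Us, w ∈ z.1.2 → Disjoint C z.1.2) :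
    ∃ υ ∈ Us, w ∈ range υ ∧ C ⊆ range υ := by
  obtain ⟨υ, hυ, h1, h2⟩ := hG.bcov w x0 (hw x0 hx0)
  refine ⟨υ, hυ, h1, hc.sub hx0 h2 fun x hx y hy hxυ e => ?_⟩
  obtain ⟨υ', hυ', hs⟩ := hG.tri _ ⟨w, x, y, hw x hx, hw y hy, e, rfl⟩
  by_cases hne : υ = υ'
  · exact hne ▸ hs (by simp)
  · obtain ⟨z, z1, z2⟩ := xgblues_two hG hp hυ hυ' hne (hw x hx) ⟨h1, hs (by simp)⟩
      ⟨hxυ, hs (by simp)⟩
    exact (disjoint_left.1 (hd z z1) hx z2).elim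

theorem xgblues_pull (hG : Gam A M I pt Γ RΓ Hub Hs Us Xs g) {υ : U → X} (hυ : υ ∈ Us)
    {T : Set X} (hT : T ⊆ range υ) (hn : T.Nonempty) :
    ∃ k : X → U, IHo (Γ \ RΓ) (A \ M) k T ∧ k '' T = υ ⁻¹' T := by
  obtain ⟨k, h1, h2, -⟩ := exists_pull' (J := A \ M) (J' := Γ \ RΓ) (hG.uind υ hυ).inj
    (fun a b => (xgblues_adj hG hυ a b).1) hT hn
  exact ⟨k, h1, h2⟩

theorem xgblues_rule (hG : Gam A M I pt Γ RΓ Hub Hs Us Xs g) (hp : IsPt M K pt) {m : Mode}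
    (hr : ∀ l, Rule m (A \ M) (K l)) (z : CI pt Us) : Rule m (Γ \ RΓ) z.1.2 := by
  cases m
  · trivial
  · trivial
  · rintro t ht C hd hw hc a ⟨a1, a2, x, hx, a3⟩ b ⟨b1, b2, y, hy, b3⟩
    obtain ⟨υ, hυ, h1, h2⟩ := xgblues_fan hG hp hx hw hc fun z' hz' => xgblues_eq hG hp ht hz' ▸ hd
    have e := xgblues_cel hG hp z hυ ht h1
    obtain ⟨k, k1, k2⟩ := xgblues_pull hG hυ h2 ⟨x, hx⟩
    rw [e] at ht a1 b1 hd
    obtain ⟨t, ht, rfl⟩ := ht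
    obtain ⟨a, a1, rfl⟩ := a1
    obtain ⟨b, b1, rfl⟩ := b1
    obtain ⟨x, rfl⟩ := h2 hx
    obtain ⟨y, rfl⟩ := h2 hy
    exact congrArg υ (hr z.1.1 t ht (υ ⁻¹' C)
      (disjoint_left.2 fun u h1 h2 => disjoint_left.1 hd h1 (mem_image_of_mem υ h2))
      (fun u hu => (xgblues_adj hG hυ _ _).1 (hw _ hu)) (k2 ▸ hc.map k1)
      ⟨a1, (xgblues_adj hG hυ _ _).1 a2, x, hx, (xgblues_adj hG hυ _ _).1 a3⟩
      ⟨b1, (xgblues_adj hG hυ _ _).1 b2, y, hy, (xgblues_adj hG hυ _ _).1 b3⟩)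
  · intro a ha b hb w h1 h2 h3
    obtain ⟨υ, hυ, hs⟩ := hG.tri _ ⟨a, b, w, h1, h2, h3, rfl⟩
    have e := xgblues_cel hG hp z hυ ha (hs (by simp))
    rw [e] at ha hb ⊢
    obtain ⟨a, ha, rfl⟩ := ha
    obtain ⟨b, hb, rfl⟩ := hb
    obtain ⟨w, rfl⟩ := hs (show w ∈ _ by simp)
    exact mem_image_of_mem υ (hr z.1.1 a ha b hb w ((xgblues_adj hG hυ _ _).1 h1)
      ((xgblues_adj hG hυ _ _).1 h2) ((xgblues_adj hG hυ _ _).1 h3))

theorem xgblues_cone (hG : Gam A M I pt Γ RΓ Hub Hs Us Xs g) (hp : IsPt M K pt) {S : Set X}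
    {w : X} (hn : 3 ≤ S.ncard) (hw : ∀ x ∈ S, x ≠ w → (Γ \ RΓ).Adj w x)
    (hc : ConnOn (Γ \ RΓ).Adj (S \ {w}))
    (hd : ∀ z : CI pt Us, w ∈ z.1.2 → Disjoint (S \ {w}) z.1.2) : ∃ υ ∈ Us, S ⊆ range υ := by
  obtain ⟨x0, hx0⟩ : (S \ {w}).Nonempty := by
    by_contra h
    have h1 := ncard_le_ncard (sdiff_eq_empty.1 (not_nonempty_iff_eq_empty.1 h)) (toFinite _)
    rw [ncard_singleton] at h1
    omega
  obtain ⟨υ, hυ, h1, h2⟩ := xgblues_fan hG hp hx0 (fun x hx => hw x hx.1 hx.2) hc hd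
  refine ⟨υ, hυ, fun x hx => ?_⟩
  by_cases e : x = w
  · exact e ▸ h1
  · exact h2 ⟨hx, e⟩

theorem xgblues_shape (hG : Gam A M I pt Γ RΓ Hub Hs Us Xs g) (hp : IsPt M K pt) {m : Mode}
    (hr : ∀ z : CI pt Us, Rule m (Γ \ RΓ) z.1.2) (hm : ¬ m.IsN) {S : Set X}
    (hS : Shape m (Γ \ RΓ) S) : ∃ υ ∈ Us, S ⊆ range υ := by
  have hin : ∀ z : CI pt Us, S ⊆ z.1.2 → ∃ υ ∈ Us, S ⊆ range υ := fun z h => by
    obtain ⟨υ, hυ, e⟩ := xgblues_unit hp z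
    exact ⟨υ, hυ, h.trans (e ▸ image_subset_range _ _)⟩
  cases m
  · exact (hm trivial).elim
  · exact (hm trivial).elim
  · obtain ⟨hn, w, -, hw, hc⟩ := hS
    by_cases hz : ∃ z : CI pt Us, w ∈ z.1.2
    · obtain ⟨z, hz⟩ := hz
      by_cases hs : S ⊆ z.1.2
      · exact hin z hs
      obtain ⟨y, hy, hy'⟩ := not_subset.1 hs
      have hy0 := mem_comp (R := (Γ \ RΓ).Adj) (C := S \ z.1.2) ⟨hy, hy'⟩
      have hd : Disjoint (comp (Γ \ RΓ).Adj (S \ z.1.2) y) z.1.2 :=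
        disjoint_left.2 fun x hx => (comp_sub hx).2
      have hw' : ∀ x ∈ comp (Γ \ RΓ).Adj (S \ z.1.2) y, (Γ \ RΓ).Adj w x := fun x hx =>
        hw x (comp_sub hx).1 fun e => (comp_sub hx).2 (e ▸ hz)
      have hcc := comp_conn (C := S \ z.1.2) (a := y) (adj_symm' (Γ \ RΓ))
      obtain ⟨υ, hυ, h1, h2⟩ := xgblues_fan hG hp hy0 hw' hcc
        fun z' hz' => xgblues_eq hG hp hz hz' ▸ hd
      have h3 : z.1.2 ⊆ range υ := xgblues_cel hG hp z hυ hz h1 ▸ image_subset_range _ _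
      obtain ⟨a, ha, h4⟩ : ∃ a ∈ z.1.2, ∀ b ∈ z.1.2, (Γ \ RΓ).Adj w b →
          (∃ x ∈ comp (Γ \ RΓ).Adj (S \ z.1.2) y, (Γ \ RΓ).Adj b x) → b = a := by
        rcases (hr z w hz _ hd hw' hcc).eq_empty_or_singleton with e | ⟨a, e⟩
        · exact ⟨w, hz, fun b b1 b2 b3 => (e ▸ ⟨b1, b2, b3⟩ : b ∈ (∅ : Set X)).elim⟩
        · exact ⟨a, (e.ge (mem_singleton a)).1,
            fun b b1 b2 b3 => (e ▸ ⟨b1, b2, b3⟩ : b ∈ ({a} : Set X))⟩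
      have h5 : S \ {w, a} ⊆ comp (Γ \ RΓ).Adj (S \ z.1.2) y := by
        refine (hc a).sub ⟨hy, ?_⟩ hy0 fun x _ v hv hx e => ?_
        · rintro (rfl | rfl)
          exacts [hy' hz, hy' ha]
        · refine comp_closed hx ⟨hv.1, fun hv' => hv.2 (.inr ?_)⟩ e
          exact h4 v hv' (hw v hv.1 fun e' => hv.2 (.inl e')) ⟨x, hx, e.symm⟩
      refine ⟨υ, hυ, fun x hx => ?_⟩
      by_cases e : x ∈ ({w, a} : Set X)
      · rcases e with rfl | rfl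
        exacts [h1, h3 ha]
      · exact h2 (h5 ⟨hx, e⟩)
    · refine xgblues_cone hG hp (by omega) hw ?_ fun z h => (hz ⟨z, h⟩).elim
      simpa using hc w
  · obtain ⟨hn, w, -, hw, hc⟩ := hS
    by_cases hz : ∀ z : CI pt Us, w ∈ z.1.2 → Disjoint (S \ {w}) z.1.2
    · exact xgblues_cone hG hp hn hw hc hz
    · obtain ⟨z, hz⟩ := not_forall.1 hz
      obtain ⟨hz, hd⟩ := Classical.not_imp.1 hz
      obtain ⟨x0, x1, x2⟩ := not_disjoint_iff.1 hd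
      have h1 : S \ {w} ⊆ z.1.2 := hc.sub x1 x2 fun x hx y hy hx' e =>
        hr z w hz x hx' y (hw x hx.1 hx.2) (hw y hy.1 hy.2) e
      refine hin z fun x hx => ?_
      by_cases e : x = w
      · exact e ▸ hz
      · exact h1 ⟨hx, e⟩

end

theorem gBlueSRule_stmt : GBlueSRuleStmt := by
  intro U X L _ _ _ m A M I pt Γ RΓ Hub Hs Us Xs g K hG hp hr
  exact ⟨xgblues_rule hG hp hr, fun hm _ => xgblues_shape hG hp (xgblues_rule hG hp hr) hm⟩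

theorem gBlueS_stmt (hGBlueSRP : GBlueSRPStmt) (hGBlueSRule : GBlueSRuleStmt) : GBlueSStmt := by
  intro W U X L _ _ _ _ H P _ m hm A M I pt Γ RΓ Hub Hs Us Xs g K s hG hp hD
  obtain ⟨r1, r2⟩ := hGBlueSRule U X L m A M I pt Γ RΓ Hub Hs Us Xs g K hG hp hD.fam.rule
  have pull : ∀ υ ∈ Us, ∀ S, S ⊆ range υ → BO P H m (Γ \ RΓ) S → BO P H m (A \ M) (υ ⁻¹' S) :=
    fun υ hυ S hS h => by
      obtain ⟨k, k1, k2⟩ := xgblues_pull hG hυ hS h.two.nonempty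
      exact k2 ▸ h.map k1
  refine ⟨fun S hS hs => ?_, fun z => ?_, fun z z' hz => ?_, r1,
    hGBlueSRP U X L A M I pt Γ RΓ Hub Hs Us Xs g K hG hp hD.fam.rp⟩
  · obtain ⟨υ, hυ, h1⟩ := r2 hm S hs
    obtain ⟨l, hl⟩ := hD.fam.cov _ (pull υ hυ S h1 hS)
    have h2 : S ⊆ υ '' K l := fun x hx => by
      obtain ⟨a, rfl⟩ := h1 hx
      exact mem_image_of_mem υ (hl hx)
    exact ⟨⟨(l, υ '' K l), hS.two.nonempty.mono h2, υ, hυ, by rw [xgblues_set hp]⟩, h2⟩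
  · obtain ⟨υ, hυ, e⟩ := xgblues_unit hp z
    refine le_trans (ncard_le_ncard (t := υ '' BW (BO P H m (A \ M)) (K z.1.1)) ?_ (toFinite _))
      ((ncard_image_le (toFinite _)).trans (hD.wt _))
    rintro w ⟨O, o1, o2, o3⟩
    replace o2 : O ⊆ υ '' K z.1.1 := e ▸ o2
    obtain ⟨a, -, rfl⟩ := o2 o3
    refine mem_image_of_mem υ ⟨υ ⁻¹' O, pull υ hυ O (o2.trans (image_subset_range _ _)) o1,
      fun b hb => ?_, o3⟩
    obtain ⟨c, hc, e'⟩ := o2 hb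
    exact (hG.uind υ hυ).inj e' ▸ hc
  · exact disjoint_left.2 fun x h1 h2 => hz (xgblues_eq hG hp h1 h2)

end Pool.Agent.MP_1c0fc2_co.RE

end

section

/-! Local peelability of the blue class points of the middle graph. -/

open Function Set Relation

namespace Pool.Agent.MP_1c0fc2_co.RE

section
variable {U X L : Type} {A M : SimpleGraph U} {I : Set U} {pt : U → Option (L ⊕ U)}
  {Γ RΓ : SimpleGraph X} {Hub : Set X} {Hs Us Xs : Set (U → X)} {g : ℕ} {K : L → Set U}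

theorem xgbluesrp_K (hp : IsPt M K pt) (l : L) : {u | pt u = some (Sum.inl l)} = K l := by
  ext a
  exact hp.2.1 l a

theorem xgbluesrp_supp (hp : IsPt M K pt) {l : L} {a : U} (ha : a ∈ K l) : a ∉ M.support := by
  intro h
  have h1 := hp.1 a h
  have h2 := (hp.2.1 l a).2 ha
  rw [h1] at h2
  cases h2

theorem xgbluesrp_Kdis (hp : IsPt M K pt) {l l' : L} {a : U} (ha : a ∈ K l) (ha' : a ∈ K l') :
    l = l' := by
  have h1 := (hp.2.1 l a).2 ha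
  have h2 := (hp.2.1 l' a).2 ha'
  rw [h1] at h2
  exact Sum.inl.inj (Option.some.inj h2)

/-- cells that meet are equal -/
theorem xgbluesrp_cells (hG : Gam A M I pt Γ RΓ Hub Hs Us Xs g) {z z' : (L ⊕ U) × Set X}
    (hz : z ∈ Cells pt Us) (hz' : z' ∈ Cells pt Us) {x : X} (hx : x ∈ z.2) (hx' : x ∈ z'.2) :
    z = z' := by
  obtain ⟨υ, hυ, e⟩ := hz
  have hxr : x ∈ range υ := by
    rw [e] at hx
    exact image_subset_range _ _ hx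
  have e' := hG.cel z' hz' υ hυ ⟨x, hx', hxr⟩
  rw [e] at hx
  rw [e'] at hx'
  obtain ⟨a, ha, rfl⟩ := hx
  obtain ⟨a', ha', h⟩ := hx'
  have h0 := (hG.uind υ hυ).inj h
  subst h0
  have h1 : z.1 = z'.1 := Option.some.inj (ha.symm.trans ha')
  exact Prod.ext h1 (by rw [e, e', h1])

theorem xgbluesrp_dis (hG : Gam A M I pt Γ RΓ Hub Hs Us Xs g) {z z' : CI pt Us} {x : X}
    (hx : x ∈ z.1.2) (hx' : x ∈ z'.1.2) : z = z' := by
  have h := xgbluesrp_cells hG z.2.2 z'.2.2 hx hx'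
  have h1 : z.1.1 = z'.1.1 := Sum.inl.inj (congrArg Prod.fst h)
  have h2 : z.1.2 = z'.1.2 := (Prod.ext_iff.1 h).2
  exact Subtype.ext (Prod.ext h1 h2)

theorem xgbluesrp_eq (hG : Gam A M I pt Γ RΓ Hub Hs Us Xs g) (hp : IsPt M K pt) (z : CI pt Us)
    {υ : U → X} (hυ : υ ∈ Us) {x : X} (hx : x ∈ z.1.2) (hx' : x ∈ range υ) :
    z.1.2 = υ '' K z.1.1 := by
  have h := hG.cel _ z.2.2 υ hυ ⟨x, hx, hx'⟩
  rw [← xgbluesrp_K hp]
  exact h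

theorem xgbluesrp_body (hp : IsPt M K pt) (z : CI pt Us) :
    ∃ υ ∈ Us, z.1.2 ⊆ υ '' M.supportᶜ := by
  obtain ⟨υ, hυ, e⟩ := z.2.2
  refine ⟨υ, hυ, ?_⟩
  have e' : z.1.2 = υ '' K z.1.1 := by
    rw [← xgbluesrp_K hp]
    exact e
  rw [e']
  exact image_mono fun a ha => xgbluesrp_supp hp ha

theorem xgbluesrp_tog1 (hp : IsPt M K pt) (z : CI pt Us) {x y : X} (hx : x ∈ z.1.2)
    (hy : y ∈ z.1.2) : Tog (RBags M I Us Xs) x y := by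
  obtain ⟨υ, hυ, h⟩ := xgbluesrp_body hp z
  exact ⟨_, .inl ⟨υ, hυ, rfl⟩, h hx, h hy⟩

theorem xgbluesrp_tog2 (hG : Gam A M I pt Γ RΓ Hub Hs Us Xs g) (hp : IsPt M K pt)
    (z z' : CI pt Us) {x y : X} (hx : x ∈ z.1.2) (hy : y ∈ z'.1.2) (h : (Γ \ RΓ).Adj x y) :
    Tog (RBags M I Us Xs) x y := by
  obtain ⟨υ, hυ, h1, h2⟩ := hG.bcov x y h
  refine ⟨_, .inl ⟨υ, hυ, rfl⟩, ?_, ?_⟩
  · rw [xgbluesrp_eq hG hp z hυ hx h1] at hx
    exact image_mono (fun a ha => xgbluesrp_supp hp ha) hx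
  · rw [xgbluesrp_eq hG hp z' hυ hy h2] at hy
    exact image_mono (fun a ha => xgbluesrp_supp hp ha) hy

/-- peeling inside one unit -/
theorem xgbluesrp_pull (hG : Gam A M I pt Γ RΓ Hub Hs Us Xs g) (hp : IsPt M K pt)
    (hK : RP (A \ M) K ∅) {υ : U → X} (hυ : υ ∈ Us) (𝒯 𝒞 : Set (CI pt Us)) (hn : 𝒯.Nonempty)
    (hs : 𝒞.Subsingleton) (hd : ∀ c ∈ 𝒞, c ∉ 𝒯)
    (hm : ∀ z, z ∈ 𝒯 ∨ z ∈ 𝒞 → ∃ x ∈ z.1.2, x ∈ range υ) :
    ∃ l ∈ 𝒯, {p | p ∈ l.1.2 ∧ ∃ z, (z ∈ 𝒯 ∨ z ∈ 𝒞) ∧ z ≠ l ∧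
      ∃ q ∈ z.1.2, (Γ \ RΓ).Adj p q}.Subsingleton := by
  have he : ∀ z, z ∈ 𝒯 ∨ z ∈ 𝒞 → z.1.2 = υ '' K z.1.1 := fun z hz => by
    obtain ⟨x, h1, h2⟩ := hm z hz
    exact xgbluesrp_eq hG hp z hυ h1 h2
  have hinj : ∀ z z', z ∈ 𝒯 ∨ z ∈ 𝒞 → z' ∈ 𝒯 ∨ z' ∈ 𝒞 → z.1.1 = z'.1.1 → z = z' :=
    fun z z' hz hz' e => Subtype.ext (Prod.ext e (by rw [he z hz, he z' hz', e]))
  obtain ⟨l', ⟨l, hl, rfl⟩, hsub⟩ := hK ((fun z : CI pt Us => z.1.1) '' 𝒯)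
    {a | ∃ c ∈ 𝒞, a ∈ K c.1.1} (hn.image _) (by
      rcases hs.eq_empty_or_singleton with rfl | ⟨c, rfl⟩
      · left
        ext a
        simp
      · refine .inr (.inl ⟨c.1.1, ?_, ?_⟩)
        · rintro ⟨z, hz, e⟩
          have := hinj z c (.inl hz) (.inr rfl) e
          exact hd c rfl (this ▸ hz)
        · ext a
          simp)
  refine ⟨l, hl, (hsub.image υ).anti ?_⟩
  rintro p ⟨hpl, z, hz, hne, q, hq, hadj⟩
  rw [he l (.inl hl)] at hpl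
  rw [he z hz] at hq
  obtain ⟨a, ha, rfl⟩ := hpl
  obtain ⟨b, hb, rfl⟩ := hq
  have hne' : z.1.1 ≠ l.1.1 := fun e => hne (hinj z l hz (.inl hl) e)
  refine ⟨a, ⟨ha, .inr ⟨b, ?_, fun hb' => hne' (xgbluesrp_Kdis hp hb hb'), ?_⟩⟩, rfl⟩
  · rcases hz with hz | hz
    · exact .inr ⟨z.1.1, ⟨z, hz, rfl⟩, hne', hb⟩
    · exact .inl ⟨z, hz, hb⟩
  · exact ⟨((hG.uind υ hυ).adj a b).1 hadj.1, fun h => hadj.2 ((hG.ucol υ hυ a b).2 h)⟩

/-- the leaf argument -/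
theorem xgbluesrp_main [Finite X] (hLeaf : LeafStmt) (hG : Gam A M I pt Γ RΓ Hub Hs Us Xs g)
    (hp : IsPt M K pt) (hK : RP (A \ M) K ∅) {Y : Set X} (hY : Y.ncard ≤ g)
    (𝒮 : Set (CI pt Us)) (R Pt ν0 : Set X) (hν0 : ν0 ∈ RBags M I Us Xs) (hR : R ⊆ ν0)
    (hPt : Pt ⊆ ν0) (hRc : ∀ q ∈ R, q ∈ Y ∧ ∃ z : CI pt Us, z ∉ 𝒮 ∧ q ∈ z.1.2)
    (hbig : ∀ l ∈ 𝒮, ¬ (l.1.2 ∩ Y).Subsingleton) :
    (∀ l ∈ 𝒮, l.1.2 ∩ Y ⊆ ν0) ∨ ∃ l ∈ 𝒮, ((l.1.2 ∩ Y ∩ Pt) ∪ Port (Γ \ RΓ) (l.1.2 ∩ Y)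
      (R ∪ Oth (fun z : CI pt Us => z.1.2 ∩ Y) 𝒮 l)).Subsingleton := by
  set Z : Set X := R ∪ {x | ∃ l ∈ 𝒮, x ∈ l.1.2 ∩ Y} with hZ
  have hZY : Z ⊆ Y := by
    rintro x (hx | ⟨l, -, hx⟩)
    · exact (hRc x hx).1
    · exact hx.2
  have hZc : ∀ x ∈ Z, ∃ z : CI pt Us, x ∈ z.1.2 := by
    rintro x (hx | ⟨l, -, hx⟩)
    · obtain ⟨z, -, hz⟩ := (hRc x hx).2
      exact ⟨z, hz⟩
    · exact ⟨l, hx.1⟩
  rcases hLeaf X (RBags M I Us Xs) (RLk pt Us) g hG.thin Z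
    ((ncard_le_ncard hZY (toFinite _)).trans hY) (fun x hx => by
      obtain ⟨z, hz⟩ := hZc x hx
      obtain ⟨ν, h1, h2, -⟩ := xgbluesrp_tog1 (I := I) (Xs := Xs) hp z hz hz
      exact ⟨ν, h1, h2⟩) ν0 hν0 with h | ⟨μ, hμ, ℓ, hℓ, hℓμ, ⟨s, hs⟩, hleaf⟩
  · exact .inl fun l hl x hx => h (.inr ⟨l, hl, hx⟩)
  right
  -- at most one class meets the link
  have hone : ∀ z z' : CI pt Us, (z.1.2 ∩ ℓ).Nonempty → (z'.1.2 ∩ ℓ).Nonempty → z = z' := by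
    rintro z z' ⟨x, hx, hx'⟩ ⟨y, hy, hy'⟩
    rcases hℓ with rfl | ⟨v, rfl⟩ | ⟨w, hw, rfl⟩
    · exact hx'.elim
    · rw [mem_singleton_iff] at hx' hy'
      subst hx' hy'
      exact xgbluesrp_dis hG hx hy
    · have h1 := xgbluesrp_cells hG z.2.2 hw hx hx'
      have h2 : z.1.2 = w.2 := congrArg Prod.snd h1
      exact xgbluesrp_dis hG (h2 ▸ hy') hy
  -- a class with a free point lies in the leaf
  have hin : ∀ l ∈ 𝒮, ∀ x ∈ l.1.2 ∩ Y, x ∈ μ → x ∉ ℓ → l.1.2 ∩ Y ⊆ μ :=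
    fun l hl x hx h1 h2 y hy => (hleaf x ⟨⟨.inr ⟨l, hl, hx⟩, h1⟩, h2⟩).2 y (.inr ⟨l, hl, hy⟩)
      (xgbluesrp_tog1 hp l hx.1 hy.1)
  -- ports at free points
  have hport : ∀ l ∈ 𝒮, ∀ p ∈ (l.1.2 ∩ Y ∩ Pt) ∪ Port (Γ \ RΓ) (l.1.2 ∩ Y)
      (R ∪ Oth (fun z : CI pt Us => z.1.2 ∩ Y) 𝒮 l), p ∈ μ → p ∉ ℓ →
      ∃ z : CI pt Us, (z ∈ {z | z ∈ 𝒮 ∧ (z.1.2 ∩ Y ∩ μ).Nonempty ∧ ¬ (z.1.2 ∩ ℓ).Nonempty} ∨
        z ∈ {z : CI pt Us | (z.1.2 ∩ ℓ).Nonempty}) ∧ z ≠ l ∧ ∃ q ∈ z.1.2, (Γ \ RΓ).Adj p q := by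
    intro l hl p hpp h1 h2
    have hpl : p ∈ l.1.2 ∩ Y := by
      rcases hpp with h | h
      · exact h.1
      · exact h.1
    obtain ⟨h3, h4⟩ := hleaf p ⟨⟨.inr ⟨l, hl, hpl⟩, h1⟩, h2⟩
    rcases hpp with h | ⟨-, (h | ⟨z, -, hz, h⟩) | ⟨q, hq, -, hadj⟩⟩
    · exact absurd (hPt h.2) h3
    · exact absurd (hR h) h3
    · exact absurd (xgbluesrp_dis hG h.1 hpl.1) hz
    have hqZ : q ∈ Z := by
      rcases hq with hq | ⟨z, hz, -, hq⟩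
      · exact .inl hq
      · exact .inr ⟨z, hz, hq⟩
    rcases hq with hq | ⟨z, hz, hne, hq⟩
    · obtain ⟨-, z, hz, hqz⟩ := hRc q hq
      have hqμ := h4 q hqZ (xgbluesrp_tog2 hG hp l z hpl.1 hqz hadj)
      refine ⟨z, .inr ⟨q, hqz, ?_⟩, fun e => hz (e ▸ hl), q, hqz, hadj⟩
      by_contra h5
      exact (hleaf q ⟨⟨hqZ, hqμ⟩, h5⟩).1 (hR hq)
    · have hqμ := h4 q hqZ (xgbluesrp_tog2 hG hp l z hpl.1 hq.1 hadj)
      refine ⟨z, ?_, hne, q, hq.1, hadj⟩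
      by_cases h5 : (z.1.2 ∩ ℓ).Nonempty
      · exact .inr h5
      · exact .inl ⟨hz, ⟨q, hq, hqμ⟩, h5⟩
  obtain ⟨l1, hl1, hs1⟩ : ∃ l ∈ 𝒮, s ∈ l.1.2 ∩ Y := by
    rcases hs.1.1 with h | h
    · exact absurd (hR h) (hleaf s hs).1
    · exact h
  have hl1μ := hin l1 hl1 s hs1 hs.1.2 hs.2
  rcases hμ with ⟨υ, hυ, rfl⟩ | ⟨ξ, hξ, rfl⟩
  swap
  · obtain ⟨υ, hυ, h⟩ := xgbluesrp_body hp l1
    exact absurd ((hG.xu ξ hξ υ hυ).anti fun x hx =>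
      ⟨hl1μ hx, image_subset_range _ _ (h hx.1)⟩) (hbig l1 hl1)
  by_cases hT : {z : CI pt Us | z ∈ 𝒮 ∧ (z.1.2 ∩ Y ∩ υ '' M.supportᶜ).Nonempty ∧
      ¬ (z.1.2 ∩ ℓ).Nonempty}.Nonempty
  · obtain ⟨l, hl, hsub⟩ := xgbluesrp_pull hG hp hK hυ _ {z : CI pt Us | (z.1.2 ∩ ℓ).Nonempty} hT
      (fun z hz z' hz' => hone z z' hz hz') (fun c hc h => h.2.2 hc) (by
        rintro z (⟨-, ⟨x, hx, hx'⟩, -⟩ | ⟨x, hx, hx'⟩)
        · exact ⟨x, hx.1, image_subset_range _ _ hx'⟩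
        · exact ⟨x, hx, image_subset_range _ _ (hℓμ hx')⟩)
    refine ⟨l, hl.1, hsub.anti fun p hpp => ?_⟩
    have hpl : p ∈ l.1.2 ∩ Y := by
      rcases hpp with h | h
      · exact h.1
      · exact h.1
    obtain ⟨x, hx, hx'⟩ := hl.2.1
    exact ⟨hpl.1, hport l hl.1 p hpp (hin l hl.1 x hx hx' (fun h => hl.2.2 ⟨x, hx.1, h⟩) hpl)
      fun h => hl.2.2 ⟨p, hpl.1, h⟩⟩
  · have hm : (l1.1.2 ∩ ℓ).Nonempty := by
      by_contra h
      exact hT ⟨l1, hl1, ⟨s, hs1, hs.1.2⟩, h⟩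
    have hℓs : ℓ.Subsingleton := by
      rcases hℓ with rfl | ⟨v, rfl⟩ | ⟨w, hw, rfl⟩
      · exact subsingleton_empty
      · exact subsingleton_singleton
      · obtain ⟨x, hx, hx'⟩ := hm
        have h1 := xgbluesrp_cells hG l1.2.2 hw hx hx'
        have h2 : l1.1.2 = w.2 := congrArg Prod.snd h1
        exact absurd (h2 ▸ hs1.1) hs.2
    refine ⟨l1, hl1, hℓs.anti fun p hpp => ?_⟩
    have hpl : p ∈ l1.1.2 ∩ Y := by
      rcases hpp with h | h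
      · exact h.1
      · exact h.1
    by_contra h
    obtain ⟨z, hz | hz, hne, -⟩ := hport l1 hl1 p hpp (hl1μ hpl) h
    · exact hT ⟨z, hz⟩
    · exact hne (hone z l1 hz hm)

end

theorem gBlueSRP_stmt (hRP : RPStmt) (hLeaf : LeafStmt) : GBlueSRPStmt := by
  intro U X L _ _ _ A M I pt Γ RΓ Hub Hs Us Xs g K hG hp hK Y hY _
  have hdis : ∀ l l' : CI pt Us, l ≠ l' → Disjoint (l.1.2 ∩ Y) (l'.1.2 ∩ Y) := fun l l' h =>
    disjoint_left.2 fun x hx hx' => h (xgbluesrp_dis hG hx.1 hx'.1)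
  have hR := hRP X (CI pt Us) (Γ \ RΓ) (fun z => z.1.2 ∩ Y) {r | False ∧ r ∈ Y}
  have h1 : RP (Γ \ RΓ) (fun z : CI pt Us => z.1.2 ∩ Y) {r | False ∧ r ∈ Y} := by
    refine hR.2.1 ?_
    rintro 𝒮 R0 hn (⟨l0, hl0, rfl⟩ | ⟨r, hr, -⟩)
    swap
    · exact hr.1.elim
    by_cases hbig : ∀ l ∈ 𝒮, ¬ (l.1.2 ∩ Y).Subsingleton
    swap
    · push Not at hbig
      obtain ⟨l, hl, h⟩ := hbig
      exact ⟨l, hl, h.anti fun p hpp => hpp.1⟩
    obtain ⟨υ, hυ, hb⟩ := xgbluesrp_body hp l0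
    rcases xgbluesrp_main hLeaf hG hp hK hY 𝒮 (l0.1.2 ∩ Y) ∅ _ (.inl ⟨υ, hυ, rfl⟩)
      (fun x hx => hb hx.1) (empty_subset _) (fun q hq => ⟨hq.2, l0, hl0, hq.1⟩) hbig with
      h | ⟨l, hl, h⟩
    · obtain ⟨l, hl, hsub⟩ := xgbluesrp_pull hG hp hK hυ 𝒮 {l0} hn subsingleton_singleton
        (by
          rintro c rfl
          exact hl0) (by
          rintro z (hz | rfl)
          · obtain ⟨x, hx, -⟩ := not_subsingleton_iff.1 (hbig z hz)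
            exact ⟨x, hx.1, image_subset_range _ _ (h z hz hx)⟩
          · obtain ⟨x, hx⟩ := z.2.1
            exact ⟨x, hx, image_subset_range _ _ (hb hx)⟩)
      refine ⟨l, hl, hsub.anti ?_⟩
      have hne : l0 ≠ l := fun e => hl0 (e ▸ hl)
      rintro p ⟨hpl, (h2 | ⟨z, -, hz, h2⟩) | ⟨q, hq | ⟨z, hz, hz', hq⟩, -, hadj⟩⟩
      · exact absurd (xgbluesrp_dis hG h2.1 hpl.1) hne
      · exact absurd (xgbluesrp_dis hG h2.1 hpl.1) hz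
      · exact ⟨hpl.1, l0, .inr rfl, hne, q, hq.1, hadj⟩
      · exact ⟨hpl.1, z, .inl hz, hz', q, hq.1, hadj⟩
    · exact ⟨l, hl, h.anti subset_union_right⟩
  refine ⟨h1, ?_⟩
  rintro 𝒮 Pt hn ⟨-, hPt | ⟨a, b, ha, -, hab, hPt⟩⟩
  · exact hR.2.2.1 h1 hdis 𝒮 Pt hn hPt
  by_cases hbig : ∀ l ∈ 𝒮, ¬ (l.1.2 ∩ Y).Subsingleton
  swap
  · push Not at hbig
    obtain ⟨l, hl, h⟩ := hbig
    refine ⟨l, hl, h.anti ?_⟩
    rintro p (hpp | hpp)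
    · exact hpp.1
    · exact hpp.1
  obtain ⟨ξ, hξ, h2, h3⟩ := hG.rcov a b hab ha
  rcases xgbluesrp_main hLeaf hG hp hK hY 𝒮 ∅ Pt _ (.inr ⟨ξ, hξ, rfl⟩) (empty_subset _)
    (hPt.trans (by
      rintro x (rfl | rfl)
      exacts [h2, h3])) (fun q hq => hq.elim) hbig with h | ⟨l, hl, h⟩
  · obtain ⟨l, hl⟩ := hn
    obtain ⟨υ, hυ, hb⟩ := xgbluesrp_body hp l
    exact absurd ((hG.xu ξ hξ υ hυ).anti fun x hx =>
      ⟨h l hl hx, image_subset_range _ _ (hb hx.1)⟩) (hbig l hl)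
  · rw [empty_union] at h
    exact ⟨l, hl, h⟩

end Pool.Agent.MP_1c0fc2_co.RE

end

section

/-! Local peelability of the red classes of the middle graph. -/

open Function Set Relation

namespace Pool.Agent.MP_1c0fc2_co.RE

section
variable {U X Q L : Type} {A M : SimpleGraph U} {I : Set U} {pt : U → Option Q}
  {Γ RΓ : SimpleGraph X} {Hub : Set X} {Hs Us Xs : Set (U → X)} {g : ℕ} {K : L → Set U}
  {Y R0 : Set X}

/-- the traces of the red classes on `Y` -/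
def xgredrp_K (I : Set U) (Xs : Set (U → X)) (K : L → Set U) (Y : Set X) (z : Xs × L) : Set X :=
  z.1.1 '' (K z.2 \ I) ∩ Y

theorem xgredrp_sub (z : Xs × L) : xgredrp_K I Xs K Y z ⊆ z.1.1 '' Iᶜ :=
  fun _ ⟨⟨a, ha, e⟩, _⟩ => ⟨a, ha.2, e⟩

theorem xgredrp_bag {ξ : U → X} (hξ : ξ ∈ Xs) : ξ '' Iᶜ ∈ RBags M I Us Xs := .inr ⟨ξ, hξ, rfl⟩

theorem xgredrp_same (h : Gam A M I pt Γ RΓ Hub Hs Us Xs g) {ξ ξ' : U → X} (hξ : ξ ∈ Xs)
    (hξ' : ξ' ∈ Xs) {S : Set X} (hS : ¬ S.Subsingleton) (h1 : S ⊆ ξ '' Iᶜ) (h2 : S ⊆ ξ' '' Iᶜ) :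
    ξ = ξ' := by
  by_contra e
  exact hS ((h.xx ξ hξ ξ' hξ' e).anti (subset_inter h1 h2))

theorem xgredrp_port {V : Type} {J : SimpleGraph V} {S T : Set V} : Port J S T ⊆ S :=
  fun _ h => h.1

/-- transfer of ports to `A` -/
theorem xgredrp_transfer (h : Gam A M I pt Γ RΓ Hub Hs Us Xs g) (hd : Disjoint Y Hub)
    (hR0 : R0 ⊆ Y) {𝒮 : Set (Xs × L)} (hns : ∀ z ∈ 𝒮, ¬ (xgredrp_K I Xs K Y z).Subsingleton)
    (ξ : Xs) {R : Set U}
    (H : ∀ a ∉ I, ξ.1 a ∈ R0 ∪ {x | ∃ z ∈ 𝒮, x ∈ xgredrp_K I Xs K Y z} → a ∈ R ∨ (ξ.1 a ∉ R0 ∧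
      ∀ x ∈ R0 ∪ {x | ∃ z ∈ 𝒮, x ∈ xgredrp_K I Xs K Y z}, Tog (RBags M I Us Xs) (ξ.1 a) x →
        x ∈ ξ.1 '' Iᶜ)) {l : L} (hl : (ξ, l) ∈ 𝒮) :
    Port RΓ (xgredrp_K I Xs K Y (ξ, l)) (R0 ∪ Oth (xgredrp_K I Xs K Y) 𝒮 (ξ, l)) ⊆
      ξ.1 '' Port A (K l) (R ∪ Oth K {l' | (ξ, l') ∈ 𝒮} l) := by
  have hZ : R0 ∪ Oth (xgredrp_K I Xs K Y) 𝒮 (ξ, l) ⊆
      R0 ∪ {x | ∃ z ∈ 𝒮, x ∈ xgredrp_K I Xs K Y z} :=
    union_subset_union_right _ fun _ ⟨z, h1, _, h2⟩ => ⟨z, h1, h2⟩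
  have hinj := (h.xind ξ.1 ξ.2).1
  have key : ∀ b ∉ I, ξ.1 b ∈ R0 ∪ Oth (xgredrp_K I Xs K Y) 𝒮 (ξ, l) →
      b ∈ R ∪ Oth K {l' | (ξ, l') ∈ 𝒮} l := by
    intro b hb hm
    rcases H b hb (hZ hm) with h1 | ⟨h1, h2⟩
    · exact .inl h1
    obtain ⟨⟨ξ', l'⟩, z1, z2, z3⟩ := hm.resolve_left h1
    have e : ξ'.1 = ξ.1 := xgredrp_same h ξ'.2 ξ.2 (hns _ z1) (xgredrp_sub _) fun x hx =>
      h2 x (.inr ⟨_, z1, hx⟩) ⟨_, xgredrp_bag ξ'.2, xgredrp_sub _ z3, xgredrp_sub _ hx⟩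
    obtain rfl : ξ' = ξ := Subtype.ext e
    obtain ⟨⟨c, hc, e'⟩, -⟩ := z3
    obtain rfl : c = b := hinj hc.2 hb e'
    exact .inr ⟨l', z1, fun e => z2 (by rw [e]), hc.1⟩
  rintro _ ⟨⟨⟨a, ha, rfl⟩, hY⟩, hp⟩
  refine ⟨a, ⟨ha.1, ?_⟩, rfl⟩
  rcases hp with hp | ⟨q, q1, q2, q3⟩
  · exact .inl (key a ha.2 hp)
  rcases H a ha.2 (.inr ⟨_, hl, ⟨a, ha, rfl⟩, hY⟩) with h1 | ⟨-, h2⟩
  · exact .inl (.inl h1)
  obtain ⟨ξ', x1, x2, x3⟩ := h.rcov _ _ q3 (disjoint_left.1 hd hY)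
  obtain ⟨b, hb, rfl⟩ := h2 q (hZ q1) ⟨_, xgredrp_bag x1, x2, x3⟩
  have hbY : ξ.1 b ∈ Y := by
    rcases q1 with q1 | ⟨z, -, -, q1⟩
    exacts [hR0 q1, q1.2]
  exact .inr ⟨b, key b hb q1, fun hbK => q2 ⟨⟨b, ⟨hbK, hb⟩, rfl⟩, hbY⟩,
    ((h.xind ξ.1 ξ.2).2 a ha.2 b hb).1 (h.le q3)⟩

/-- peeling a leaf of the frame -/
theorem xgredrp_core [Finite X] (hLeaf : LeafStmt)
    (h : Gam A M I (fun _ => (none : Option Q)) Γ RΓ Hub Hs Us Xs g) (hK : RP A K univ)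
    (hY : Y.ncard ≤ g) (hd : Disjoint Y Hub) (hR0 : R0 ⊆ Y) {𝒮 : Set (Xs × L)}
    (hns : ∀ z ∈ 𝒮, ¬ (xgredrp_K I Xs K Y z).Subsingleton) {ν0 : Set X}
    (h0 : ν0 ∈ RBags M I Us Xs) (hR : R0 ⊆ ν0) :
    R0 ∪ {x | ∃ z ∈ 𝒮, x ∈ xgredrp_K I Xs K Y z} ⊆ ν0 ∨ ∃ z ∈ 𝒮,
      (Port RΓ (xgredrp_K I Xs K Y z) (R0 ∪ Oth (xgredrp_K I Xs K Y) 𝒮 z)).Subsingleton := by
  have hZY : R0 ∪ {x | ∃ z ∈ 𝒮, x ∈ xgredrp_K I Xs K Y z} ⊆ Y :=
    union_subset hR0 fun _ ⟨_, _, hx⟩ => hx.2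
  rcases hLeaf X _ _ g h.thin _ ((ncard_le_ncard hZY (toFinite _)).trans hY)
    (by
      rintro x (hx | ⟨z, -, hx⟩)
      exacts [⟨ν0, h0, hR hx⟩, ⟨_, xgredrp_bag z.1.2, xgredrp_sub _ hx⟩]) ν0 h0 with
    h1 | ⟨μ, hμ, ℓ, l1, l2, ⟨s, hs⟩, l3⟩
  · exact .inl h1
  refine .inr ?_
  have hℓ : ℓ.Subsingleton := by
    rcases l1 with rfl | ⟨v, rfl⟩ | ⟨z, ⟨υ, -, e⟩, rfl⟩
    · exact subsingleton_empty
    · exact subsingleton_singleton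
    · rw [e]
      rintro _ ⟨_, hu, -⟩
      exact absurd hu (by simp)
  obtain ⟨⟨ξ, l⟩, z1, z2⟩ := hs.1.1.resolve_left fun hs' => (l3 s hs).1 (hR hs')
  have hsub : xgredrp_K I Xs K Y (ξ, l) ⊆ μ := fun x hx =>
    (l3 s hs).2 x (.inr ⟨_, z1, hx⟩) ⟨_, xgredrp_bag ξ.2, xgredrp_sub _ z2, xgredrp_sub _ hx⟩
  obtain rfl : μ = ξ.1 '' Iᶜ := by
    rcases hμ with ⟨υ, hυ, rfl⟩ | ⟨ξ', hξ', rfl⟩
    · exact absurd ((h.xu ξ.1 ξ.2 υ hυ).anti (subset_inter (xgredrp_sub _)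
        (hsub.trans (image_subset_range _ _)))) (hns _ z1)
    · rw [xgredrp_same h hξ' ξ.2 (hns _ z1) hsub (xgredrp_sub _)]
  have hinj := (h.xind ξ.1 ξ.2).1
  obtain ⟨l', m1, m2⟩ := hK {l' | (ξ, l') ∈ 𝒮} {a | a ∉ I ∧ ξ.1 a ∈ ℓ} ⟨l, z1⟩ (by
    have hs : {a | a ∉ I ∧ ξ.1 a ∈ ℓ}.Subsingleton := fun a ha b hb =>
      hinj ha.1 hb.1 (hℓ ha.2 hb.2)
    rcases hs.eq_empty_or_singleton with e | ⟨r, e⟩
    exacts [.inl e, .inr (.inr ⟨r, trivial, e⟩)])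
  refine ⟨_, m1, (m2.image ξ.1).anti (xgredrp_transfer h hd hR0 hns ξ (fun a ha hm => ?_) m1)⟩
  by_cases e : ξ.1 a ∈ ℓ
  · exact .inl ⟨ha, e⟩
  · have := l3 _ ⟨⟨hm, a, ha, rfl⟩, e⟩
    exact .inr ⟨fun h' => this.1 (hR h'), this.2⟩

/-- roots inside a red part -/
theorem xgredrp_root [Finite X] (hLeaf : LeafStmt)
    (h : Gam A M I (fun _ => (none : Option Q)) Γ RΓ Hub Hs Us Xs g) (hK : RP A K univ)
    (hY : Y.ncard ≤ g) (hd : Disjoint Y Hub) (hR0 : R0 ⊆ Y) {𝒮 : Set (Xs × L)} (hne : 𝒮.Nonempty)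
    (ξ : Xs) {R : Set U} (hR : R0 ⊆ ξ.1 '' (R \ I))
    (hroot : R = ∅ ∨ (∃ l0, (ξ, l0) ∉ 𝒮 ∧ R = K l0) ∨ ∃ r ∈ (univ : Set U), R = {r}) :
    ∃ z ∈ 𝒮,
      (Port RΓ (xgredrp_K I Xs K Y z) (R0 ∪ Oth (xgredrp_K I Xs K Y) 𝒮 z)).Subsingleton := by
  by_cases hns : ∀ z ∈ 𝒮, ¬ (xgredrp_K I Xs K Y z).Subsingleton
  swap
  · push Not at hns
    obtain ⟨z, z1, z2⟩ := hns
    exact ⟨z, z1, z2.anti xgredrp_port⟩
  rcases xgredrp_core hLeaf h hK hY hd hR0 hns (xgredrp_bag ξ.2)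
    (hR.trans (image_mono fun _ ha => ha.2)) with h1 | h1
  swap
  · exact h1
  obtain ⟨⟨ξ', l⟩, z1⟩ := hne
  obtain rfl : ξ' = ξ := Subtype.ext (xgredrp_same h ξ'.2 ξ.2 (hns _ z1) (xgredrp_sub _)
    fun x hx => h1 (.inr ⟨_, z1, hx⟩))
  obtain ⟨l', m1, m2⟩ := hK {l' | (ξ', l') ∈ 𝒮} R ⟨l, z1⟩ hroot
  refine ⟨_, m1, (m2.image ξ'.1).anti (xgredrp_transfer h hd hR0 hns ξ' (fun a ha _ => ?_) m1)⟩
  by_cases e : ξ'.1 a ∈ R0
  · obtain ⟨b, hb, e'⟩ := hR e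
    obtain rfl : b = a := (h.xind ξ'.1 ξ'.2).1 hb.2 ha e'
    exact .inl hb.1
  · exact .inr ⟨e, fun x hx _ => h1 hx⟩

theorem xgredrp_rp [Finite X] (hLeaf : LeafStmt)
    (h : Gam A M I (fun _ => (none : Option Q)) Γ RΓ Hub Hs Us Xs g) (hK : RP A K univ)
    (hY : Y.ncard ≤ g) (hd : Disjoint Y Hub) :
    RP RΓ (xgredrp_K I Xs K Y) {r | True ∧ r ∈ Y} := by
  have hemp : ∀ 𝒮 : Set (Xs × L), 𝒮.Nonempty → ∃ z ∈ 𝒮,
      (Port RΓ (xgredrp_K I Xs K Y z) (∅ ∪ Oth (xgredrp_K I Xs K Y) 𝒮 z)).Subsingleton :=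
    fun 𝒮 hne => xgredrp_root (R := ∅) hLeaf h hK hY hd (empty_subset _) hne hne.some.1
      (empty_subset _) (.inl rfl)
  rintro 𝒮 _ hne (rfl | ⟨⟨ξ, l0⟩, h1, rfl⟩ | ⟨r, hr, rfl⟩)
  · exact hemp 𝒮 hne
  · exact xgredrp_root hLeaf h hK hY hd inter_subset_right hne ξ inter_subset_left
      (.inr (.inl ⟨l0, h1, rfl⟩))
  by_cases hx : ∃ ξ ∈ Xs, r ∈ ξ '' Iᶜ
  · obtain ⟨ξ, hξ, u, hu, rfl⟩ := hx
    exact xgredrp_root (R := {u}) hLeaf h hK hY hd (singleton_subset_iff.2 hr.2) hne ⟨ξ, hξ⟩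
      (singleton_subset_iff.2 ⟨u, ⟨rfl, hu⟩, rfl⟩) (.inr (.inr ⟨u, trivial, rfl⟩))
  obtain ⟨z, z1, z2⟩ := hemp 𝒮 hne
  refine ⟨z, z1, z2.anti ?_⟩
  rintro p ⟨p1, (rfl | p2) | ⟨q, rfl | q1, q2, q3⟩⟩
  · exact absurd ⟨_, z.1.2, xgredrp_sub _ p1⟩ hx
  · exact ⟨p1, .inl (.inr p2)⟩
  · obtain ⟨ξ, x1, -, x3⟩ := h.rcov _ _ q3 (disjoint_left.1 hd p1.2)
    exact absurd ⟨ξ, x1, x3⟩ hx
  · exact ⟨p1, .inr ⟨q, .inr q1, q2, q3⟩⟩

end

theorem gRedRP_stmt (hRP : RPStmt) (hLeaf : LeafStmt) : GRedRPStmt := by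
  intro U X Q L _ _ _ A M I Γ RΓ Hub Hs Us Xs g K h hK Y hY hd
  have h1 := xgredrp_rp hLeaf h hK hY hd
  refine ⟨h1, ?_⟩
  rintro 𝒮 Pt hne ⟨hP, hs | ⟨a, b, ha, hb, hab, hs⟩⟩
  · exact (hRP X (Xs × L) RΓ _ _).2.2.2.1 h1 𝒮 Pt hne ⟨hs, fun x hx => ⟨trivial, hP hx⟩⟩
  by_cases hns : ∀ z ∈ 𝒮, ¬ (xgredrp_K I Xs K Y z).Subsingleton
  swap
  · push Not at hns
    obtain ⟨z, z1, z2⟩ := hns
    exact ⟨z, z1, z2.anti (union_subset inter_subset_left xgredrp_port)⟩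
  obtain ⟨υ, hυ, ⟨a', rfl⟩, b', rfl⟩ := h.bcov a b hab
  rcases xgredrp_core hLeaf h hK hY hd hP hns (.inl ⟨υ, hυ, rfl⟩) (hs.trans (pair_subset
    ⟨a', fun e => ha ((h.uhub υ hυ a').2 e), rfl⟩ ⟨b', fun e => hb ((h.uhub υ hυ b').2 e), rfl⟩))
    with h2 | ⟨z, z1, z2⟩
  · obtain ⟨z, z1⟩ := hne
    exact absurd ((h.xu z.1.1 z.1.2 υ hυ).anti (subset_inter (xgredrp_sub _)
      fun x hx => image_subset_range _ _ (h2 (.inr ⟨z, z1, hx⟩)))) (hns z z1)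
  refine ⟨z, z1, z2.anti ?_⟩
  rintro p (⟨p1, p2⟩ | ⟨p1, p2 | ⟨q, q1, q2⟩⟩)
  exacts [⟨p1, .inl (.inl p2)⟩, ⟨p1, .inl (.inr p2)⟩, ⟨p1, .inr ⟨q, .inr q1, q2⟩⟩]

end Pool.Agent.MP_1c0fc2_co.RE

end

section

/-! Red parts of the middle graph. -/

open Function Set Relation

namespace Pool.Agent.MP_1c0fc2_co.RE

section
variable {U X Q : Type} {A M : SimpleGraph U} {I : Set U} {pt : U → Option Q}
  {Γ RΓ : SimpleGraph X} {Hub : Set X} {Hs Us Xs : Set (U → X)} {g : ℕ}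

theorem xgx_red (h : Gam A M I pt Γ RΓ Hub Hs Us Xs g) {x y : X} (hx : x ∉ Hub)
    (e : RΓ.Adj x y) : Tog (RBags M I Us Xs) x y := by
  obtain ⟨ξ, h1, h2⟩ := h.rcov x y e hx
  exact ⟨_, .inr ⟨ξ, h1, rfl⟩, h2⟩

theorem xgx_tog (h : Gam A M I pt Γ RΓ Hub Hs Us Xs g) {x y : X} (hx : x ∉ Hub) (hy : y ∉ Hub)
    (e : Γ.Adj x y) : Tog (RBags M I Us Xs) x y := by
  by_cases e' : RΓ.Adj x y
  · exact xgx_red h hx e'
  · obtain ⟨υ, h1, ⟨a, rfl⟩, b, rfl⟩ := h.bcov x y ⟨e, e'⟩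
    exact ⟨_, .inl ⟨υ, h1, rfl⟩, ⟨a, fun k => hx ((h.uhub υ h1 a).2 k), rfl⟩,
      b, fun k => hy ((h.uhub υ h1 b).2 k), rfl⟩

theorem xgx_at (h : Gam A M I pt Γ RΓ Hub Hs Us Xs g) {ξ : U → X} (hξ : ξ ∈ Xs) {C : Set X}
    (h1 : C.ncard ≤ g) (h2 : Disjoint C (ξ '' Iᶜ)) (h3 : ConnOn (Tog (RBags M I Us Xs)) C) :
    (At (RBags M I Us Xs) (ξ '' Iᶜ) C).Subsingleton := by
  rcases h.thin _ (.inr ⟨ξ, hξ, rfl⟩) C h1 h2 h3 with e | ⟨ℓ, l1, l2, l3, -⟩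
  · rw [e]
    exact subsingleton_empty
  · rcases l1 with ⟨v, rfl⟩ | ⟨z, ⟨υ, hυ, hz⟩, rfl⟩
    · exact subsingleton_singleton.anti l2
    · refine (h.xu ξ hξ υ hυ).anti (l2.trans (subset_inter l3 ?_))
      rw [hz]
      exact image_subset_range _ _

end

theorem gx_stmt : GXStmt := by
  intro U X Q _ _ A M I pt Γ RΓ Hub Hs Us Xs g h
  refine ⟨fun S h1 h2 h3 ⟨a, ha, b, hb, e⟩ => ?_, fun hg ξ hξ a ha b hb hab w e1 e2 => ?_⟩
  · have hS : ∀ x ∈ S, x ∉ Hub := fun x hx => disjoint_left.1 h2 hx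
    obtain ⟨ξ, hξ, k1, k2⟩ := h.rcov a b e (hS a ha)
    refine ⟨ξ, hξ, fun c hc => ?_⟩
    by_contra hc'
    obtain ⟨u, hu, v, hv, huv, ⟨d, hd, e1⟩, d', hd', e2⟩ :=
      h3.two_nb (Y := ξ '' Iᶜ) (fun k => e.ne (k ⟨ha, k1⟩ ⟨hb, k2⟩)) ⟨hc, hc'⟩
    have hD : ∀ x ∈ comp Γ.Adj (S \ ξ '' Iᶜ) c, x ∈ S := fun x hx => (comp_sub hx).1
    refine huv (xgx_at h hξ ((ncard_le_ncard hD).trans h1)
      (disjoint_left.2 fun x hx => (comp_sub hx).2)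
      ((comp_conn (adj_symm' Γ)).mono fun x hx y hy k =>
        xgx_tog h (hS x (hD x hx)) (hS y (hD y hy)) k)
      ⟨hu.2, d, hd, xgx_tog h (hS u hu.1) (hS d (hD d hd)) e1⟩
      ⟨hv.2, d', hd', xgx_tog h (hS v hv.1) (hS d' (hD d' hd')) e2⟩)
  · by_contra hw
    have hX : ∀ x ∈ ξ '' Iᶜ, x ∉ Hub := by
      rintro _ ⟨y, hy, rfl⟩
      exact h.xhub ξ hξ y hy
    exact hab (xgx_at h hξ (C := {w}) (by rwa [ncard_singleton])
      (disjoint_singleton_left.2 hw) (connOn_singleton w)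
      ⟨ha, w, rfl, xgx_red h (hX a ha) e1.symm⟩ ⟨hb, w, rfl, xgx_red h (hX b hb) e2.symm⟩)

theorem xgx_card {W V : Type} {H : SimpleGraph W} {P : Par} {m : Mode} {J : SimpleGraph V}
    {S : Set V} (h : RO P H m J S) : S.ncard = P.vA ∨ S.ncard = P.θ := by
  cases m
  exacts [.inl h.1.2.1, .inr h.1.2, .inl h.2.1, .inr h.2]

theorem gRed_stmt (hK3 : K3Stmt) (hROMono : ROMonoStmt) (hGX : GXStmt) (hGRedRP : GRedRPStmt) :
    GRedStmt := by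
  intro W U X Q L _ _ _ _ H P hP m A M I Γ RΓ Hub Hs Us Xs g K s ⟨φ, hφ⟩ hg h hV
  obtain ⟨⟨k1, k2, k3, k4⟩, -⟩ := hK3 W U H P hP
  obtain ⟨x1, x2⟩ := hGX U X Q A M I _ Γ RΓ Hub Hs Us Xs g h
  have adj : ∀ ξ ∈ Xs, ∀ x ∈ Iᶜ, ∀ y ∈ Iᶜ, RΓ.Adj (ξ x) (ξ y) → A.Adj x y :=
    fun ξ hξ x hx y hy e => ((h.xind ξ hξ).2 x hx y hy).1 (h.le e)
  have pull : ∀ ξ ∈ Xs, ∀ S, S ⊆ ξ '' Iᶜ → RO P H m RΓ S → RO P H m A (Iᶜ ∩ ξ ⁻¹' S) := by
    intro ξ hξ S hS hR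
    obtain ⟨k, p1, p2, -⟩ := exists_pull (J := A) (J' := RΓ) (h.xind ξ hξ).1 (adj ξ hξ) hS
      hR.two.nonempty
    rw [← p2]
    exact hROMono W X U H P hP m RΓ A k φ S (p1.sub hS) (hφ.on _) hR
  refine ⟨fun S hS hR => ?_, fun ⟨⟨ξ, hξ⟩, l⟩ => ?_, ?_,
    hGRedRP U X Q L A M I Γ RΓ Hub Hs Us Xs g K h hV.fam.rp⟩
  · obtain ⟨ξ, hξ, hs⟩ := x1 S (by rcases xgx_card hR with e | e <;> omega) hS
      (hR.two.mono fun _ _ _ _ e => h.le e) hR.two.edge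
    obtain ⟨l, hl⟩ := hV.fam.cov _ (pull ξ hξ S hs hR)
    refine ⟨(⟨ξ, hξ⟩, l), fun x hx => ?_⟩
    obtain ⟨y, hy, rfl⟩ := hs hx
    exact ⟨y, ⟨hl ⟨hy, hx⟩, hy⟩, rfl⟩
  · refine le_trans (ncard_le_ncard (t := ξ '' (RW A (RO P H m A) (K l) \ I)) ?_)
      ((ncard_image_le (toFinite _)).trans (hV.wt l))
    rintro w ⟨O, hO, hOK, hw⟩
    have hO' : O ⊆ ξ '' Iᶜ := hOK.trans (image_mono fun _ k => k.2)
    have hK : Iᶜ ∩ ξ ⁻¹' O ⊆ K l := by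
      rintro y ⟨hy, hy'⟩
      obtain ⟨z, hz, e⟩ := hOK hy'
      rw [← (h.xind ξ hξ).1 hz.2 hy e]
      exact hz.1
    rcases hw with hw | ⟨a, ha, b, hb, hab, e1, e2⟩
    · obtain ⟨y, hy, rfl⟩ := hO' hw
      exact ⟨y, ⟨⟨_, pull ξ hξ O hO' hO, hK, .inl ⟨hy, hw⟩⟩, hy⟩, rfl⟩
    · obtain ⟨y, hy, rfl⟩ := x2 (by omega) ξ hξ a (hO' ha) b (hO' hb) hab w e1 e2
      obtain ⟨a, ha', rfl⟩ := hO' ha
      obtain ⟨b, hb', rfl⟩ := hO' hb
      exact ⟨y, ⟨⟨_, pull ξ hξ O hO' hO, hK, .inr ⟨a, ⟨ha', ha⟩, b, ⟨hb', hb⟩,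
        fun e => hab (congrArg ξ e), adj ξ hξ y hy a ha' e1, adj ξ hξ y hy b hb' e2⟩⟩, hy⟩, rfl⟩
  · rintro ⟨⟨ξ, hξ⟩, l⟩ _ ⟨a, ha, rfl⟩ _ ⟨b, hb, rfl⟩ e
    exact h.xred ξ hξ a ha.2 b hb.2 (((h.xind ξ hξ).2 a ha.2 b hb.2).1 e)

end Pool.Agent.MP_1c0fc2_co.RE

end

section

/-! The pattern hypergraph of the middle graph. -/

open Function Set Relation

namespace Pool.Agent.MP_1c0fc2_co.RE.GamC

variable {U Q : Type} (A M : SimpleGraph U) (I : Set U) (pt : U → Option Q)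

/-- a vertex with its partner -/
def kd (a : U) : Set U := {b | b = a ∨ M.Adj a b}

open Classical in
/-- the kind of the point that carries a vertex of a unit -/
noncomputable def ko (a : U) : Option (Set U ⊕ Q) :=
  if a ∈ M.support then some (.inl (kd M a)) else (pt a).map .inr

abbrev Ty := {e : U → U // ∀ a b, M.Adj a b → A.Adj (e a) (e b)}

open Classical in
noncomputable def prof : (Set U ⊕ Q) ⊕ Ty A M → Set U ⊕ Q → ℕ
  | .inl i, i' => if i' = i then 1 else 0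
  | .inr _, i' => if ∃ a, ko M pt a = some i' then 1 else 0

abbrev Sp := {s : U × U // s.1 ∈ M.support ∧ s.2 ∉ M.support ∧ A.Adj s.1 s.2}

abbrev Dt := {δ : U × U // δ.1 ∈ I ∧ A.Adj δ.1 δ.2}

abbrev Un := Ty A M × Option (Sp A M × Dt A I)

/-- the properties of the pattern -/
structure FOk (F : MH (prof A M pt)) (un : Un A M I → F.E) : Prop where
  inj : Injective un
  ty : ∀ w, F.ty (un w) = .inr w.1
  sur : ∀ d e, F.ty d = .inr e → ∃ w, un w = d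
  nj : ∀ n, ∃ w, F.mem n (un w)
  one : ∀ n, ∃ d, F.ty d = .inl (F.kd n) ∧ F.mem n d
  sh : ∀ w w' n, w ≠ w' → F.mem n (un w) → F.mem n (un w') → ∃ e s δ δ', w = (e, some (s, δ)) ∧
    w' = (e, some (s, δ')) ∧ ((δ.1.2 = δ'.1.2 ∧ ko M pt s.1.2 = some (F.kd n)) ∨
      (δ.1.1 = δ'.1.1 ∧ ko M pt s.1.1 = some (F.kd n)))
  shx : ∀ e (s : Sp A M) (δ δ' : Dt A I) n, δ.1.2 = δ'.1.2 → ko M pt s.1.2 = some (F.kd n) →
    F.mem n (un (e, some (s, δ))) → F.mem n (un (e, some (s, δ')))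
  shv : ∀ e (s : Sp A M) (δ δ' : Dt A I) n, δ.1.1 = δ'.1.1 → ko M pt s.1.1 = some (F.kd n) →
    F.mem n (un (e, some (s, δ))) → F.mem n (un (e, some (s, δ')))

variable {A M I pt}

theorem ko_sup {a : U} (h : a ∈ M.support) : ko M pt a = some (.inl (kd M a)) := if_pos h

theorem ko_off {a : U} (h : a ∉ M.support) : ko M pt a = (pt a).map .inr := if_neg h

theorem ko_inl {a : U} {k : Set U} (h : ko M pt a = some (.inl k)) :
    a ∈ M.support ∧ k = kd M a := by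
  by_cases ha : a ∈ M.support
  · rw [ko_sup ha] at h
    exact ⟨ha, (Sum.inl_injective (Option.some_injective _ h)).symm⟩
  · rw [ko_off ha] at h
    cases hp : pt a <;> simp [hp] at h

theorem ko_inr {a : U} {q : Q} (h : ko M pt a = some (.inr q)) :
    a ∉ M.support ∧ pt a = some q := by
  by_cases ha : a ∈ M.support
  · rw [ko_sup ha] at h
    simp at h
  · rw [ko_off ha] at h
    cases hp : pt a <;> simp_all

theorem ko_of_pt {a : U} {q : Q} (ha : a ∉ M.support) (h : pt a = some q) :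
    ko M pt a = some (.inr q) := by
  rw [ko_off ha, h]; rfl

theorem ko_sup_iff {a b : U} (h : ko M pt a = ko M pt b) (ha : a ∈ M.support) :
    b ∈ M.support ∧ kd M a = kd M b :=
  ko_inl (h.symm.trans (ko_sup ha))

theorem kd_eq {a b : U} (h : kd M a = kd M b) : a = b ∨ M.Adj a b := by
  have : b ∈ kd M a := h ▸ Or.inl rfl
  exact this.imp Eq.symm id

theorem kd_adj (hM : Mat M) {a b : U} (h : M.Adj a b) : kd M a = kd M b := by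
  ext c
  constructor
  · rintro (rfl | e)
    exacts [.inr h.symm, .inl (hM a c b e h)]
  · rintro (rfl | e)
    exacts [.inr h, .inl (hM b c a e h.symm)]

theorem ko_adj (hM : Mat M) {a b : U} (h : M.Adj a b) : ko M pt a = ko M pt b := by
  rw [ko_sup ⟨b, h⟩, ko_sup ⟨a, h.symm⟩, kd_adj hM h]

section General
variable {H : MH (prof A M pt)} {d : H.E} {n n' : H.V}

theorem one_kd {i : Set U ⊕ Q} (hd : H.ty d = .inl i) (h : H.mem n d) : H.kd n = i := by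
  by_contra e
  have h1 := H.shape d (H.kd n)
  rw [hd, prof, if_neg e, ncard_eq_zero (toFinite _)] at h1
  exact (h1 ▸ ⟨h, rfl⟩ : n ∈ (∅ : Set H.V))

theorem mem_uniq (h : H.mem n d) (h' : H.mem n' d) (e : H.kd n = H.kd n') : n = n' := by
  have h1 := H.shape d (H.kd n)
  have h2 : prof A M pt (H.ty d) (H.kd n) ≤ 1 := by
    rcases H.ty d with i | i <;> simp only [prof] <;> split_ifs <;> omega
  rw [← h1] at h2
  exact (ncard_le_one (toFinite _)).1 h2 n ⟨h, rfl⟩ n' ⟨h', e.symm⟩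

theorem one_uniq {i : Set U ⊕ Q} (hd : H.ty d = .inl i) (h : H.mem n d) (h' : H.mem n' d) :
    n = n' :=
  mem_uniq h h' ((one_kd hd h).trans (one_kd hd h').symm)

/-- unit edges -/
def IsU (d : H.E) : Prop := ∃ e, H.ty d = .inr e

theorem isU_of_two (h : H.mem n d) (h' : H.mem n' d) (e : n ≠ n') : IsU d := by
  rcases hd : H.ty d with i | i
  exacts [absurd (one_uniq hd h h') e, ⟨i, hd⟩]

theorem IsU.ex (hd : IsU d) {a : U} {i : Set U ⊕ Q} (h : ko M pt a = some i) :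
    ∃ n, H.mem n d ∧ H.kd n = i := by
  obtain ⟨e, hd⟩ := hd
  have h1 := H.shape d i
  rw [hd, prof, if_pos ⟨a, h⟩] at h1
  exact nonempty_of_ncard_ne_zero (s := {v | H.mem v d ∧ H.kd v = i}) (by omega)

theorem IsU.kind (hd : IsU d) (h : H.mem n d) : ∃ a, ko M pt a = some (H.kd n) := by
  obtain ⟨e, hd⟩ := hd
  by_contra e
  have h1 := H.shape d (H.kd n)
  rw [hd, prof, if_neg e, ncard_eq_zero (toFinite _)] at h1
  exact (h1 ▸ ⟨h, rfl⟩ : n ∈ (∅ : Set H.V))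

end General

section Pattern
variable {F : MH (prof A M pt)} {un : Un A M I → F.E}

theorem FOk.lin (h : FOk A M I pt F un) : F.Lin := by
  intro d d' u v huv h1 h2 h3 h4
  obtain ⟨e, he⟩ := isU_of_two h1 h2 huv
  obtain ⟨e', he'⟩ := isU_of_two h3 h4 huv
  obtain ⟨w, rfl⟩ := h.sur d e he
  obtain ⟨w', rfl⟩ := h.sur d' e' he'
  by_contra hne
  have hw : w ≠ w' := fun e => hne (by rw [e])
  obtain ⟨e1, s, δ, δ', rfl, rfl, k1⟩ := h.sh w w' u hw h1 h3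
  obtain ⟨e2, s2, δ2, δ2', a1, a2, k2⟩ := h.sh _ _ v hw h2 h4
  simp only [Prod.mk.injEq, Option.some.injEq] at a1 a2
  obtain ⟨-, rfl, rfl⟩ := a1
  obtain ⟨-, -, rfl⟩ := a2
  rcases k1 with ⟨k1, k3⟩ | ⟨k1, k3⟩ <;> rcases k2 with ⟨k2, k4⟩ | ⟨k2, k4⟩
  · exact huv (mem_uniq h1 h2 (Option.some_injective _ (k3.symm.trans k4)))
  · exact hw (by rw [Subtype.ext (Prod.ext k2 k1 : δ.1 = δ'.1)])
  · exact hw (by rw [Subtype.ext (Prod.ext k1 k2 : δ.1 = δ'.1)])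
  · exact huv (mem_uniq h1 h2 (Option.some_injective _ (k3.symm.trans k4)))

theorem FOk.noTri (h : FOk A M I pt F un) : F.NoTri := by
  intro a b c d e f hab hac hbc h1 h2 h3 h4 h5 h6
  obtain ⟨_, t1⟩ := isU_of_two h1 h2 hab
  obtain ⟨_, t2⟩ := isU_of_two h3 h4 hac
  obtain ⟨_, t3⟩ := isU_of_two h5 h6 hbc
  obtain ⟨w1, rfl⟩ := h.sur _ _ t1
  obtain ⟨w2, rfl⟩ := h.sur _ _ t2
  obtain ⟨w3, rfl⟩ := h.sur _ _ t3
  by_contra hne
  simp only [not_or] at hne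
  obtain ⟨e1, s, δ, δ', rfl, rfl, k1⟩ := h.sh w1 w2 a (fun e => hne.1 (by rw [e])) h1 h3
  obtain ⟨e2, s2, δ2, δ2', a1, rfl, k2⟩ := h.sh _ w3 b (fun e => hne.2.1 (by rw [e])) h2 h5
  obtain ⟨e3, s3, δ3, δ3', a2, -, k3⟩ := h.sh _ _ c (fun e => hne.2.2 (by rw [e])) h4 h6
  simp only [Prod.mk.injEq, Option.some.injEq] at a1 a2
  obtain ⟨-, rfl, -⟩ := a1
  obtain ⟨-, rfl, -⟩ := a2
  have j : ∀ {x : Option (Set U ⊕ Q)} {i j}, x = some i → x = some j → i = j :=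
    fun a b => Option.some_injective _ (a.symm.trans b)
  rcases k1 with ⟨-, k1⟩ | ⟨-, k1⟩ <;> rcases k2 with ⟨-, k2⟩ | ⟨-, k2⟩ <;>
    rcases k3 with ⟨-, k3⟩ | ⟨-, k3⟩ <;>
    first
    | exact hab (mem_uniq h1 h2 (j k1 k2))
    | exact hac (mem_uniq h3 h4 (j k1 k3))
    | exact hbc (mem_uniq h5 h6 (j k2 k3))

end Pattern

variable (A M I pt)

open Classical in
/-- the address of the point of kind `i` of the unit `w` -/
noncomputable def ad (w : Un A M I) (i : Set U ⊕ Q) :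
    Ty A M × Option (Sp A M × Option U × Option U) × (Set U ⊕ Q) :=
  (w.1, w.2.map fun t => (t.1, if ko M pt t.1.1.2 = some i then none else some t.2.1.1,
    if ko M pt t.1.1.1 = some i then none else some t.2.1.2), i)

abbrev FV := {p : Ty A M × Option (Sp A M × Option U × Option U) × (Set U ⊕ Q) //
  (∃ a, ko M pt a = some p.2.2) ∧ ∃ w, p = ad A M I pt w p.2.2}

/-- the pattern -/
noncomputable def pat [Finite U] [Finite Q] : MH (prof A M pt) where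
  V := FV A M I pt
  E := Un A M I ⊕ FV A M I pt
  kd := fun n => n.1.2.2
  ty := Sum.elim (fun w => .inr w.1) fun n => .inl n.1.2.2
  mem := fun n => Sum.elim (fun w => n.1 = ad A M I pt w n.1.2.2) fun n' => n = n'
  shape := by
    rintro (w | n) i
    · simp only [Sum.elim_inl, prof]
      split_ifs with h
      · refine ncard_eq_one.2 ⟨⟨ad A M I pt w i, h, w, rfl⟩, ?_⟩
        ext v
        constructor
        · rintro ⟨h1, rfl⟩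
          exact Subtype.ext h1
        · rintro rfl
          exact ⟨rfl, rfl⟩
      · rw [ncard_eq_zero (toFinite _), eq_empty_iff_forall_notMem]
        rintro v ⟨-, rfl⟩
        exact h v.2.1
    · simp only [Sum.elim_inr, prof]
      split_ifs with h
      · refine ncard_eq_one.2 ⟨n, ?_⟩
        ext v
        constructor
        · exact fun h1 => h1.1
        · rintro rfl
          exact ⟨rfl, h.symm⟩
      · rw [ncard_eq_zero (toFinite _), eq_empty_iff_forall_notMem]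
        rintro v ⟨rfl, rfl⟩
        exact h rfl

theorem sp_ne (s : Sp A M) {i : Set U ⊕ Q} (h : ko M pt s.1.2 = some i) :
    ko M pt s.1.1 ≠ some i := fun h' =>
  s.2.2.1 (ko_sup_iff (h'.trans h.symm) s.2.1).1

theorem pat_ok [Finite U] [Finite Q] : FOk A M I pt (pat A M I pt) .inl where
  inj := Sum.inl_injective
  ty := fun _ => rfl
  sur := by
    rintro (w | n) e h
    · exact ⟨w, rfl⟩
    · exact (Sum.inl_ne_inr h).elim
  nj := fun n => n.2.2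
  one := fun n => ⟨.inr n, rfl, rfl⟩
  sh := by
    rintro ⟨e, o⟩ ⟨e', o'⟩ n hw h1 h2
    have h3 : ad A M I pt (e, o) n.1.2.2 = ad A M I pt (e', o') n.1.2.2 := h1.symm.trans h2
    simp only [ad, Prod.mk.injEq, and_true] at h3
    obtain ⟨rfl, h3⟩ := h3
    rcases o with _ | ⟨s, δ⟩ <;> rcases o' with _ | ⟨s', δ'⟩
    · exact absurd rfl hw
    · simp at h3
    · simp at h3
    simp only [Option.map_some, Option.some.injEq, Prod.mk.injEq] at h3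
    obtain ⟨rfl, h3, h4⟩ := h3
    refine ⟨e, s, δ, δ', rfl, rfl, ?_⟩
    by_cases k1 : ko M pt s.1.2 = some n.1.2.2
    · rw [if_neg (sp_ne A M pt s k1), if_neg (sp_ne A M pt s k1)] at h4
      exact .inl ⟨Option.some_injective _ h4, k1⟩
    · rw [if_neg k1, if_neg k1] at h3
      by_cases k2 : ko M pt s.1.1 = some n.1.2.2
      · exact .inr ⟨Option.some_injective _ h3, k2⟩
      · rw [if_neg k2, if_neg k2] at h4
        exact absurd (by rw [Subtype.ext (Prod.ext (Option.some_injective _ h3)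
          (Option.some_injective _ h4) : δ.1 = δ'.1)]) hw
  shx := by
    intro e s δ δ' n h1 h2 h3
    refine h3.trans ?_
    have h2' : ko M pt s.1.2 = some n.1.2.2 := h2
    simp only [ad, Option.map_some, if_pos h2', h1]
  shv := by
    intro e s δ δ' n h1 h2 h3
    refine h3.trans ?_
    have h2' : ko M pt s.1.1 = some n.1.2.2 := h2
    simp only [ad, Option.map_some, if_pos h2', h1]

end Pool.Agent.MP_1c0fc2_co.RE.GamC

end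

section

/-! Hubs, units and red parts of the middle graph. -/

open Function Set Relation

namespace Pool.Agent.MP_1c0fc2_co.RE.GamC

variable {U Q : Type} {A M : SimpleGraph U} {I : Set U} {pt : U → Option Q}

section Host
variable (H : MH (prof A M pt)) (R : Type)

abbrev XV := ((H.V ⊕ H.E) × U) ⊕ R × U

open Classical in
/-- the owner of a vertex of a unit -/
noncomputable def ow (d : H.E) (a : U) : H.V ⊕ H.E :=
  if h : ∃ n, H.mem n d ∧ ko M pt a = some (H.kd n) then .inl h.choose else .inr d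

def te : (Set U ⊕ Q) ⊕ Ty A M → U → U := Sum.elim (fun _ => id) Subtype.val

open Classical in
noncomputable def lab (d : H.E) (a : U) : U := if a ∈ M.support then te (H.ty d) a else a

noncomputable def uu (d : H.E) (a : U) : XV H R := .inl (ow H d a, lab H d a)

def hb (n : H.V) (a : U) : XV H R := .inl (.inl n, a)

def own : XV H R → Option (H.V ⊕ H.E) := Sum.elim (fun x => some x.1) fun _ => none

def IsH (n : H.V) : Prop := ∃ k, H.kd n = .inl k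

variable {H R} {d d' : H.E} {n n' : H.V} {a b : U}

theorem ow_inl : ow H d a = .inl n ↔ H.mem n d ∧ ko M pt a = some (H.kd n) := by
  unfold ow
  split_ifs with h
  · constructor
    · intro e
      exact Sum.inl_injective e ▸ h.choose_spec
    · intro e
      exact congrArg _ (mem_uniq h.choose_spec.1 e.1
        (Option.some_injective _ (h.choose_spec.2.symm.trans e.2)))
  · exact ⟨fun e => e.elim, fun e => absurd ⟨n, e⟩ h⟩

theorem ow_inr (h : ow H d a = .inr d') : d' = d := by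
  unfold ow at h
  split_ifs at h
  exact (Sum.inr_injective h).symm

theorem ow_none (h : ko M pt a = none) : ow H d a = .inr d :=
  dif_neg fun ⟨_, _, e⟩ => by simp [h] at e

theorem IsU.ow_some (hd : IsU d) {i : Set U ⊕ Q} (h : ko M pt a = some i) :
    ∃ n, ow H d a = .inl n ∧ H.mem n d ∧ H.kd n = i := by
  obtain ⟨n, h1, rfl⟩ := hd.ex h
  exact ⟨n, ow_inl.2 ⟨h1, h⟩, h1, rfl⟩

theorem ow_wb (d : H.E) (a : U) : ow H d a ∈ H.WB d := by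
  rcases e : ow H d a with n | d'
  · exact .inr ⟨n, (ow_inl.1 e).1, rfl⟩
  · exact .inl (congrArg _ (ow_inr e))

theorem ow_congr (h : ko M pt a = ko M pt b) : ow H d a = ow H d b := by
  unfold ow
  rw [h]

theorem ow_ne (h : d ≠ d') (e : ow H d a = ow H d' b) : ∃ n, ow H d a = .inl n ∧ H.mem n d ∧
    H.mem n d' ∧ ko M pt a = some (H.kd n) ∧ ko M pt b = some (H.kd n) := by
  rcases e1 : ow H d a with n | d1
  · have e2 := ow_inl.1 (e.symm.trans e1)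
    exact ⟨n, rfl, (ow_inl.1 e1).1, e2.1, (ow_inl.1 e1).2, e2.2⟩
  · exact absurd ((ow_inr e1).symm.trans (ow_inr (e.symm.trans e1))) h

theorem ow_ko (hd : IsU d) (hd' : IsU d') (e : ow H d a = ow H d' b) :
    ko M pt a = ko M pt b := by
  rcases e1 : ko M pt a with _ | i
  · rcases e2 : ko M pt b with _ | j
    · rfl
    · obtain ⟨n, h, -⟩ := hd'.ow_some e2
      rw [ow_none e1, h] at e
      exact (Sum.inr_ne_inl e).elim
  · obtain ⟨n, h, -, rfl⟩ := hd.ow_some e1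
    exact (ow_inl.1 (e.symm.trans h)).2.symm

theorem inl_wb : .inl n ∈ H.WB d ↔ H.mem n d :=
  ⟨fun h => h.elim (fun e => (Sum.inl_ne_inr e).elim) fun ⟨_, h, e⟩ => Sum.inl_injective e ▸ h,
    fun h => .inr ⟨n, h, rfl⟩⟩

theorem inr_wb : .inr d' ∈ H.WB d ↔ d' = d :=
  ⟨fun h => h.elim (fun e => Sum.inr_injective e) fun ⟨_, _, e⟩ => (Sum.inr_ne_inl e).elim,
    fun h => .inl (congrArg _ h)⟩

theorem wb_ne (h : d ≠ d') (e : ow H d a ∈ H.WB d') : ∃ n, ow H d a = .inl n ∧ H.mem n d ∧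
    H.mem n d' ∧ ko M pt a = some (H.kd n) := by
  rcases e1 : ow H d a with n | d1
  · rw [e1] at e
    exact ⟨n, rfl, (ow_inl.1 e1).1, inl_wb.1 e, (ow_inl.1 e1).2⟩
  · rw [e1] at e
    exact absurd ((ow_inr e1).symm.trans (inr_wb.1 e)) h

theorem ow_same {d1 d2 : H.E} (h1 : IsU d1) (h2 : IsU d2) (e : ko M pt a = ko M pt b)
    (w1 : ow H d1 a ∈ H.WB d) (w2 : ow H d2 b ∈ H.WB d) : ow H d1 a = ow H d2 b := by
  rcases e1 : ko M pt a with _ | i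
  · rw [ow_none e1] at w1 ⊢
    rw [ow_none (e.symm.trans e1)] at w2 ⊢
    rw [inr_wb.1 w1, inr_wb.1 w2]
  · obtain ⟨n, k1, -, k2⟩ := h1.ow_some e1
    obtain ⟨n', k3, -, k4⟩ := h2.ow_some (e.symm.trans e1)
    rw [k1] at w1 ⊢
    rw [k3] at w2 ⊢
    rw [mem_uniq (inl_wb.1 w1) (inl_wb.1 w2) (k2.trans k4.symm)]

theorem lab_off (h : a ∉ M.support) : lab H d a = a := if_neg h

theorem lab_sup {e : Ty A M} (hd : H.ty d = .inr e) (h : a ∈ M.support) : lab H d a = e.1 a := by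
  rw [lab, if_pos h, hd]; rfl

theorem lab_adj (hd : IsU d) (h : M.Adj a b) : A.Adj (lab H d a) (lab H d b) := by
  obtain ⟨e, hd⟩ := hd
  rw [lab_sup hd ⟨b, h⟩, lab_sup hd ⟨a, h.symm⟩]
  exact e.2 a b h

theorem uu_eq : uu H R d a = uu H R d' b ↔ ow H d a = ow H d' b ∧ lab H d a = lab H d' b := by
  simp [uu]

theorem own_uu : own H R (uu H R d a) = some (ow H d a) := rfl

theorem uu_hb {x : U} : uu H R d a = hb H R n x ↔ ow H d a = .inl n ∧ lab H d a = x := by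
  simp [uu, hb]

theorem hb_eq {x y : U} : hb H R n x = hb H R n' y ↔ n = n' ∧ x = y := by
  simp [hb]

theorem own_hb {y : XV H R} : y ∈ range (hb H R n) ↔ own H R y = some (.inl n) := by
  rcases y with ⟨o, x⟩ | y
  · simp [hb, own, eq_comm]
  · simp [hb, own]

theorem uu_off (hd : IsU d) (hd' : IsU d') (ha : a ∉ M.support)
    (e : uu H R d a = uu H R d' b) : a = b := by
  obtain ⟨e1, e2⟩ := uu_eq.1 e
  have hb : b ∉ M.support := fun hb => ha (ko_sup_iff (ow_ko hd hd' e1).symm hb).1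
  rwa [lab_off ha, lab_off hb] at e2

theorem uu_inj (hd : IsU d) : Injective (uu H R d) := fun a b e => by
  by_cases ha : a ∈ M.support
  · obtain ⟨e1, e2⟩ := uu_eq.1 e
    exact (kd_eq (ko_sup_iff (ow_ko hd hd e1) ha).2).resolve_right fun h => (lab_adj hd h).ne e2
  · exact uu_off hd hd ha e

theorem uu_of_ow (ha : a ∉ M.support) (e : ow H d a = ow H d' a) :
    uu H R d a = uu H R d' a :=
  uu_eq.2 ⟨e, by rw [lab_off ha, lab_off ha]⟩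

theorem ow_hub (hn : IsH H n) (e : ow H d a = .inl n) : a ∈ M.support := by
  obtain ⟨k, hk⟩ := hn
  have := (ow_inl.1 e).2
  rw [hk] at this
  exact (ko_inl this).1

theorem IsU.hub (hd : IsU d) (ha : a ∈ M.support) : ∃ n, IsH H n ∧ ow H d a = .inl n := by
  obtain ⟨n, h1, -, h2⟩ := hd.ow_some (ko_sup ha)
  exact ⟨n, ⟨_, h2⟩, h1⟩

theorem isH_of (ha : a ∈ M.support) (h : ko M pt a = some (H.kd n)) : IsH H n := by
  rw [ko_sup ha] at h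
  exact ⟨_, (Option.some_injective _ h).symm⟩

/-- two vertices of a unit in one hub are partners -/
theorem ow_adj (hn : IsH H n) (h1 : ow H d a = .inl n) (h2 : ow H d b = .inl n) (hab : a ≠ b) :
    M.Adj a b :=
  (kd_eq (ko_sup_iff ((ow_inl.1 h1).2.trans (ow_inl.1 h2).2.symm) (ow_hub hn h1)).2).resolve_left
    hab

end Host

/-- the label of the territory of a unit -/
def lx (w : Un A M I) : Ty A M × Option (Sp A M × U) := (w.1, w.2.map fun t => (t.1, t.2.1.2))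

/-- the hypotheses of the construction -/
structure Ctx (I : Set U) {F H : MH (prof A M pt)} (un : Un A M I → F.E) {P : Type}
    (φ : P → MEmb F H) (g : ℕ) : Prop where
  imat : IMat A M
  ind : Indp A I
  hpt : ∀ a ∈ M.support, pt a = none
  hnc : ∀ u ∉ M.support, pt u = none → NoCom A I
  ok : FOk A M I pt F un
  good : Good φ g
  tri : H.NoTri

variable {F H : MH (prof A M pt)} (un : Un A M I → F.E) {P : Type} (φ : P → MEmb F H) {g : ℕ}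

abbrev RI (A M : SimpleGraph U) (P : Type) := P × Ty A M × Sp A M

/-- the unit `w` of the copy `p` -/
def uU (p : P) (w : Un A M I) : H.E := (φ p).e (un w)

def uD (r : RI A M P) (δ : Dt A I) : H.E := uU un φ r.1 (r.2.1, some (r.2.2, δ))

noncomputable def leaf (r : RI A M P) (δ : Dt A I) : XV H (RI A M P) :=
  uu H _ (uD un φ r δ) r.2.2.1.2

noncomputable def ctr (r : RI A M P) (δ : Dt A I) : XV H (RI A M P) :=
  uu H _ (uD un φ r δ) r.2.2.1.1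

open Classical in
/-- red parts -/
noncomputable def xi (r : RI A M P) (a : U) : XV H (RI A M P) :=
  if h : ∃ δ : Dt A I, δ.1.1 = a then ctr un φ r h.choose
  else if h : ∃ δ : Dt A I, δ.1.2 = a then leaf un φ r h.choose else .inr (r, a)

variable {un φ} {p p' : P} {w w' : Un A M I} {n : H.V} {d : H.E} {a b : U}

theorem mem_bag_wb (h : .inr d ∈ (φ p).Bag) : H.WB d ⊆ (φ p).Bag := by
  obtain ⟨y | y, e⟩ := h
  · exact (Sum.inl_ne_inr e).elim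
  obtain rfl : (φ p).e y = d := Sum.inr_injective e
  rintro _ (rfl | ⟨v, hv, rfl⟩)
  · exact ⟨.inr y, rfl⟩
  · obtain ⟨x, -, rfl⟩ := ((φ p).mem_iff _ _).1 hv
    exact ⟨.inl x, rfl⟩

theorem uU_bag (p : P) (w : Un A M I) : H.WB (uU un φ p w) ⊆ (φ p).Bag :=
  mem_bag_wb ⟨.inr _, rfl⟩

theorem mem_pull {x : F.V} {f : F.E} (h : H.mem ((φ p).v x) ((φ p).e f)) : F.mem x f := by
  obtain ⟨y, hy, e⟩ := ((φ p).mem_iff _ _).1 h
  rwa [← (φ p).v_inj e]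

namespace Ctx
variable (c : Ctx I un φ g)
include c

theorem mat : Mat M := c.imat.2.1

theorem ty (p : P) (w : Un A M I) : H.ty (uU un φ p w) = .inr w.1 :=
  ((φ p).ty_e _).trans (c.ok.ty w)

theorem isU (p : P) (w : Un A M I) : IsU (uU un φ p w) := ⟨_, c.ty p w⟩

theorem isD (r : RI A M P) (δ : Dt A I) : IsU (uD un φ r δ) := c.isU _ _

theorem uU_inj (h : uU un φ p w = uU un φ p w') : w = w' := c.ok.inj ((φ p).e_inj h)

theorem of_bag (hd : IsU d) (h : .inr d ∈ (φ p).Bag) : ∃ w, uU un φ p w = d := by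
  obtain ⟨y | y, e⟩ := h
  · exact (Sum.inl_ne_inr e).elim
  obtain rfl : (φ p).e y = d := Sum.inr_injective e
  obtain ⟨t, ht⟩ := hd
  obtain ⟨w, rfl⟩ := c.ok.sur y t (((φ p).ty_e y).symm.trans ht)
  exact ⟨w, rfl⟩

theorem cov (hd : IsU d) : ∃ p w, uU un φ p w = d :=
  let ⟨p, hp⟩ := c.good.cov (.inr d); ⟨p, c.of_bag hd hp⟩

theorem nj (h : .inl n ∈ (φ p).Bag) : ∃ w, H.mem n (uU un φ p w) := by
  obtain ⟨y | y, e⟩ := h
  swap
  · exact (Sum.inr_ne_inl e).elim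
  obtain ⟨w, hw⟩ := c.ok.nj y
  exact ⟨w, ((φ p).mem_iff _ _).2 ⟨y, hw, Sum.inl_injective e⟩⟩

theorem two_bag {n n' : H.V} (h : .inl n ∈ (φ p).Bag) (h' : .inl n' ∈ (φ p).Bag) (e : n ≠ n')
    (m : H.mem n d) (m' : H.mem n' d) : ∃ w, uU un φ p w = d := by
  obtain ⟨y | y, k⟩ := h
  swap
  · exact (Sum.inr_ne_inl k).elim
  obtain ⟨y' | y', k'⟩ := h'
  swap
  · exact (Sum.inr_ne_inl k').elim
  obtain rfl : (φ p).v y = n := Sum.inl_injective k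
  obtain rfl : (φ p).v y' = n' := Sum.inl_injective k'
  obtain ⟨d0, rfl⟩ := c.good.str p y y' d (fun k => e (by rw [k])) m m'
  exact c.of_bag (isU_of_two m m' e) ⟨.inr d0, rfl⟩

theorem sh (hw : w ≠ w') (h : H.mem n (uU un φ p w)) (h' : H.mem n (uU un φ p w')) :
    ∃ e s δ δ', w = (e, some (s, δ)) ∧ w' = (e, some (s, δ')) ∧
      ((δ.1.2 = δ'.1.2 ∧ ko M pt s.1.2 = some (H.kd n)) ∨
      (δ.1.1 = δ'.1.1 ∧ ko M pt s.1.1 = some (H.kd n))) := by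
  obtain ⟨x, hx, rfl⟩ := ((φ p).mem_iff _ _).1 h
  rw [(φ p).kd_v]
  exact c.ok.sh w w' x hw hx (mem_pull h')

/-- a vertex of a body whose owner lies on another unit of the copy is an exit -/
theorem exit (hw : w ≠ w') (ha : a ∉ M.support)
    (h : ow H (uU un φ p w) a ∈ H.WB (uU un φ p w')) : ∃ e s δ δ', w = (e, some (s, δ)) ∧
      w' = (e, some (s, δ')) ∧ δ.1.2 = δ'.1.2 ∧ ko M pt a = ko M pt s.1.2 ∧
      ∃ n, ow H (uU un φ p w) a = .inl n ∧ ow H (uU un φ p w') s.1.2 = .inl n := by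
  obtain ⟨n, h1, h2, h3, h4⟩ := wb_ne (fun e => hw (c.uU_inj e)) h
  obtain ⟨e, s, δ, δ', k1, k2, k | k⟩ := c.sh hw h2 h3
  · exact ⟨e, s, δ, δ', k1, k2, k.1, h4.trans k.2.symm, n, h1, ow_inl.2 ⟨h3, k.2⟩⟩
  · exact absurd (ko_sup_iff (k.2.trans h4.symm) s.2.1).1 ha

theorem lx_eq (ha : a ∉ M.support) (h : ow H (uU un φ p w) a ∈ H.WB (uU un φ p w')) :
    lx w = lx w' := by
  by_cases hw : w = w'
  · rw [hw]
  obtain ⟨e, s, δ, δ', rfl, rfl, k, -⟩ := c.exit hw ha h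
  simp [lx, k]

theorem ctr_eq (r : RI A M P) {δ δ' : Dt A I} (h : δ.1.1 = δ'.1.1) :
    ctr un φ r δ = ctr un φ r δ' := by
  obtain ⟨n, h1, h2, h3⟩ := (c.isD r δ).ow_some (ko_sup r.2.2.2.1)
  have h4 := (ow_inl.1 h1).2
  obtain ⟨x, hx, rfl⟩ := ((φ r.1).mem_iff _ _).1 h2
  refine uu_eq.2 ⟨h1.trans (ow_inl.2 ⟨((φ r.1).mem_iff _ _).2 ⟨x, c.ok.shv _ _ δ δ' x h
    (by rwa [(φ r.1).kd_v] at h4) hx, rfl⟩, h4⟩).symm, ?_⟩
  exact (lab_sup (c.ty _ _) r.2.2.2.1).trans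
    (lab_sup (c.ty r.1 (r.2.1, some (r.2.2, δ'))) r.2.2.2.1).symm

theorem leaf_eq (r : RI A M P) {δ δ' : Dt A I} (h : δ.1.2 = δ'.1.2) :
    leaf un φ r δ = leaf un φ r δ' := by
  rcases hp : pt r.2.2.1.2 with _ | q
  · have := c.hnc _ r.2.2.2.2.1 hp _ δ.2.1 _ δ'.2.1 _ δ.2.2 (h ▸ δ'.2.2)
    rw [Subtype.ext (Prod.ext this h : δ.1 = δ'.1)]
  obtain ⟨n, h1, h2, h3⟩ := (c.isD r δ).ow_some (ko_of_pt r.2.2.2.2.1 hp)
  have h4 := (ow_inl.1 h1).2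
  obtain ⟨x, hx, rfl⟩ := ((φ r.1).mem_iff _ _).1 h2
  exact uu_of_ow r.2.2.2.2.1 (h1.trans (ow_inl.2 ⟨((φ r.1).mem_iff _ _).2 ⟨x,
    c.ok.shx _ _ δ δ' x h (by rwa [(φ r.1).kd_v] at h4) hx, rfl⟩, h4⟩).symm)

theorem dx (δ : Dt A I) : δ.1.2 ∉ I := fun h => c.ind _ δ.2.1 _ h δ.2.2

theorem xi_ctr (r : RI A M P) (δ : Dt A I) : xi un φ r δ.1.1 = ctr un φ r δ := by
  have h : ∃ δ' : Dt A I, δ'.1.1 = δ.1.1 := ⟨δ, rfl⟩
  rw [xi, dif_pos h]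
  exact c.ctr_eq r h.choose_spec

theorem xi_leaf (r : RI A M P) (δ : Dt A I) : xi un φ r δ.1.2 = leaf un φ r δ := by
  have h : ∃ δ' : Dt A I, δ'.1.2 = δ.1.2 := ⟨δ, rfl⟩
  rw [xi, dif_neg fun ⟨δ', e⟩ => c.dx δ (e ▸ δ'.2.1), dif_pos h]
  exact c.leaf_eq r h.choose_spec

theorem xi_cases (r : RI A M P) (a : U) : (∃ δ : Dt A I, δ.1.1 = a ∧ xi un φ r a = ctr un φ r δ) ∨
    (∃ δ : Dt A I, δ.1.2 = a ∧ xi un φ r a = leaf un φ r δ) ∨ xi un φ r a = .inr (r, a) := by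
  by_cases h : ∃ δ : Dt A I, δ.1.1 = a
  · obtain ⟨δ, rfl⟩ := h
    exact .inl ⟨δ, rfl, c.xi_ctr r δ⟩
  by_cases h' : ∃ δ : Dt A I, δ.1.2 = a
  · obtain ⟨δ, rfl⟩ := h'
    exact .inr (.inl ⟨δ, rfl, c.xi_leaf r δ⟩)
  · exact .inr (.inr (by rw [xi, dif_neg h, dif_neg h']))

theorem xi_off (r : RI A M P) (ha : a ∉ I) :
    (∃ δ : Dt A I, δ.1.2 = a ∧ xi un φ r a = leaf un φ r δ) ∨ xi un φ r a = .inr (r, a) :=
  (c.xi_cases r a).resolve_left fun ⟨δ, e, _⟩ => ha (e ▸ δ.2.1)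

/-- leaves of one copy with the same owner -/
theorem leaf_own {e e' : Ty A M} {s s' : Sp A M} {δ δ' : Dt A I}
    (h : ow H (uD un φ (p, e, s) δ) s.1.2 ∈ H.WB (uD un φ (p, e', s') δ')) :
    e = e' ∧ s = s' ∧ δ.1.2 = δ'.1.2 := by
  have := c.lx_eq s.2.2.1 h
  simpa [lx] using this

theorem leaf_wb {r : RI A M P} {δ δ' : Dt A I} (h : ow H (uD un φ r δ) r.2.2.1.2 ∈ H.WB d)
    (h' : ow H (uD un φ r δ') r.2.2.1.2 ∈ H.WB d) : leaf un φ r δ = leaf un φ r δ' := by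
  have := ow_same (c.isD r δ) (c.isD r δ') rfl h h'
  exact uu_of_ow r.2.2.2.2.1 this

theorem xi_inj (r : RI A M P) : Injective (xi un φ r) := by
  have k : ∀ δ δ', ctr un φ r δ ≠ leaf un φ r δ' := fun δ δ' e =>
    r.2.2.2.2.1 (ko_sup_iff (ow_ko (c.isD r δ) (c.isD r δ') (uu_eq.1 e).1) r.2.2.2.1).1
  intro a b e
  rcases c.xi_cases r a with ⟨δ, rfl, h⟩ | ⟨δ, rfl, h⟩ | h <;>
    rcases c.xi_cases r b with ⟨δ', rfl, h'⟩ | ⟨δ', rfl, h'⟩ | h' <;> rw [h, h'] at e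
  · by_contra hne
    have hw : (r.2.1, some (r.2.2, δ)) ≠ (r.2.1, some (r.2.2, δ')) := fun k => hne (by
      simp only [Prod.mk.injEq, Option.some.injEq, true_and] at k
      rw [k])
    obtain ⟨n, -, h2, h3, h4, -⟩ := ow_ne (fun k => hw (c.uU_inj k)) (uu_eq.1 e).1
    obtain ⟨_, s, δ1, δ2, k1, k2, k⟩ := c.sh hw h2 h3
    simp only [Prod.mk.injEq, Option.some.injEq] at k1 k2
    obtain ⟨-, rfl, rfl⟩ := k1
    obtain ⟨-, -, rfl⟩ := k2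
    exact k.elim (fun k => sp_ne A M pt _ k.2 h4) fun k => hne k.1
  · exact absurd e (k _ _)
  · exact (Sum.inl_ne_inr e).elim
  · exact absurd e.symm (k _ _)
  · exact (c.leaf_own (p := r.1) (e := r.2.1) (s := r.2.2) (δ := δ) (δ' := δ')
      ((uu_eq.1 e).1.symm ▸ ow_wb _ _)).2.2
  · exact (Sum.inl_ne_inr e).elim
  · exact (Sum.inr_ne_inl e).elim
  · exact (Sum.inr_ne_inl e).elim
  · exact congrArg Prod.snd (Sum.inr_injective e)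

/-- a vertex of a red part with an owner is a leaf -/
theorem xi_own {r : RI A M P} {y : XV H (RI A M P)} (hy : y ∈ xi un φ r '' Iᶜ)
    {o : H.V ⊕ H.E} (h : own H _ y = some o) :
    ∃ δ, y = leaf un φ r δ ∧ ow H (uD un φ r δ) r.2.2.1.2 = o := by
  obtain ⟨a, ha, rfl⟩ := hy
  rcases c.xi_off r ha with ⟨δ, -, e⟩ | e <;> rw [e] at h ⊢
  · exact ⟨δ, rfl, Option.some_injective _ h⟩
  · simp [own] at h

theorem leaf_mem (r : RI A M P) (δ : Dt A I) : leaf un φ r δ ∈ xi un φ r '' Iᶜ :=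
  ⟨_, c.dx δ, c.xi_leaf r δ⟩

theorem xu (r : RI A M P) (d : H.E) : (xi un φ r '' Iᶜ ∩ range (uu H _ d)).Subsingleton := by
  rintro _ ⟨h1, a, rfl⟩ _ ⟨h2, b, rfl⟩
  obtain ⟨δ, e1, k1⟩ := c.xi_own h1 own_uu
  obtain ⟨δ', e2, k2⟩ := c.xi_own h2 own_uu
  rw [e1, e2]
  exact c.leaf_wb (k1 ▸ ow_wb d a) (k2 ▸ ow_wb d b)

/-- a common vertex of two red parts is a leaf, and the copies are different -/
theorem xx_leaf {r r' : RI A M P} (hr : r ≠ r') {y : XV H (RI A M P)} (hy : y ∈ xi un φ r '' Iᶜ)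
    (hy' : y ∈ xi un φ r' '' Iᶜ) : r.1 ≠ r'.1 ∧ ∃ δ δ', y = leaf un φ r δ ∧ y = leaf un φ r' δ' := by
  obtain ⟨a, ha, rfl⟩ := hy
  rcases c.xi_off r ha with ⟨δ, -, e⟩ | e <;> rw [e] at hy' ⊢
  · obtain ⟨δ', e', k⟩ := c.xi_own hy' own_uu
    refine ⟨?_, δ, δ', rfl, e'⟩
    obtain ⟨p, t, s⟩ := r
    obtain ⟨p', t', s'⟩ := r'
    rintro (rfl : p = p')
    obtain ⟨rfl, rfl, -⟩ := c.leaf_own (k ▸ ow_wb _ _)
    exact hr rfl
  · obtain ⟨b, hb, e'⟩ := hy'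
    rcases c.xi_off r' hb with ⟨δ, -, e⟩ | e <;> rw [e] at e'
    · exact (Sum.inl_ne_inr e').elim
    · exact absurd (congrArg Prod.fst (Sum.inr_injective e')).symm hr

/-- a red part meets another copy in at most one vertex -/
theorem xbag {r : RI A M P} (hp : r.1 ≠ p) {δ δ' : Dt A I}
    (h : ow H (uD un φ r δ) r.2.2.1.2 ∈ (φ p).Bag) (h' : ow H (uD un φ r δ') r.2.2.1.2 ∈ (φ p).Bag) :
    leaf un φ r δ = leaf un φ r δ' := by
  by_cases e : ow H (uD un φ r δ) r.2.2.1.2 = ow H (uD un φ r δ') r.2.2.1.2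
  · exact uu_of_ow r.2.2.2.2.1 e
  obtain ⟨d, k, k'⟩ := c.good.b2 _ _ hp _ _ e (uU_bag _ _ (ow_wb _ _)) (uU_bag _ _ (ow_wb _ _)) h h'
  exact c.leaf_wb k k'

theorem xx {r r' : RI A M P} (hr : r ≠ r') :
    (xi un φ r '' Iᶜ ∩ xi un φ r' '' Iᶜ).Subsingleton := by
  rintro y ⟨h1, h2⟩ y' ⟨h3, h4⟩
  obtain ⟨hp, δ, δ1, rfl, e1⟩ := c.xx_leaf hr h1 h2
  obtain ⟨-, δ', δ2, rfl, e2⟩ := c.xx_leaf hr h3 h4
  exact c.xbag hp ((uu_eq.1 e1).1 ▸ uU_bag _ _ (ow_wb _ _))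
    ((uu_eq.1 e2).1 ▸ uU_bag _ _ (ow_wb _ _))

theorem xi_hub {r : RI A M P} (hn : IsH H n) {y : XV H (RI A M P)} (hy : y ∈ xi un φ r '' Iᶜ) :
    y ∉ range (hb H _ n) := fun h => by
  obtain ⟨δ, -, k⟩ := c.xi_own hy (own_hb.1 h)
  exact r.2.2.2.2.1 (ow_hub hn k)

end Ctx

end Pool.Agent.MP_1c0fc2_co.RE.GamC

end

section

/-! The frame of bodies and red parts. -/

open Function Set Relation

namespace Pool.Agent.MP_1c0fc2_co.RE.GamC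

variable {U Q : Type} {A M : SimpleGraph U} {I : Set U} {pt : U → Option Q}

theorem thin_one {V : Type} {N : Set (Set V)} {Lk : Set V → Prop} {X C : Set V}
    (h1 : ∀ v, Lk {v}) (h : (At N X C).Subsingleton) :
    At N X C = ∅ ∨ ∃ ℓ, Lk ℓ ∧ At N X C ⊆ ℓ ∧ ℓ ⊆ X ∧ ∃ ν ∈ N, ℓ ⊆ ν ∧ (ν ∩ C).Nonempty := by
  rcases h.eq_empty_or_singleton with e | ⟨w, e⟩
  · exact .inl e
  · obtain ⟨hw, c, hc, ν, n1, n2, n3⟩ : w ∈ At N X C := e ▸ rfl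
    exact .inr ⟨{w}, h1 w, e.le, singleton_subset_iff.2 hw, ν, n1, singleton_subset_iff.2 n2,
      c, n3, hc⟩

section Host
variable (H : MH (prof A M pt)) (R : Type)

def Us : Set (U → XV H R) := {υ | ∃ d, IsU d ∧ υ = uu H R d}

def Hs : Set (U → XV H R) := {h | ∃ n, IsH H n ∧ h = hb H R n}

def body (d : H.E) : Set (XV H R) := uu H R d '' M.supportᶜ

def cl (ℓ : Set (H.V ⊕ H.E)) : Set (XV H R) := {x | ∃ n ∈ ℓ, own H R x = some n}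

variable {H R} {d d' : H.E} {n : H.V} {a b : U}

theorem uu_cl {ℓ : Set (H.V ⊕ H.E)} : uu H R d a ∈ cl H R ℓ ↔ ow H d a ∈ ℓ :=
  ⟨fun ⟨o, h, e⟩ => (Option.some_injective _ e : ow H d a = o) ▸ h, fun h => ⟨_, h, rfl⟩⟩

theorem uu_move (ha : a ∉ M.support) (h : ow H d a = .inl n) (h' : H.mem n d') :
    uu H R d a = uu H R d' a :=
  uu_of_ow ha (h.trans (ow_inl.2 ⟨h', (ow_inl.1 h).2⟩).symm)

theorem pt_of_ow (ha : a ∉ M.support) (h : ow H d a = .inl n) :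
    ∃ q, pt a = some q ∧ H.kd n = .inr q := by
  have h1 := (ow_inl.1 h).2
  rcases e : H.kd n with k | q <;> rw [e] at h1
  exacts [absurd (ko_inl h1).1 ha, ⟨q, (ko_inr h1).2, rfl⟩]

theorem cel (hpt : ∀ a ∈ M.support, pt a = none) : ∀ z ∈ Cells pt (Us H R), ∀ υ ∈ Us H R,
    (z.2 ∩ range υ).Nonempty → z.2 = υ '' {u | pt u = some z.1} := by
  rintro ⟨q, _⟩ ⟨_, ⟨d0, h0, rfl⟩, (rfl : _ = uu H R d0 '' {u | pt u = some q})⟩ _ ⟨d, hd, rfl⟩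
    ⟨_, ⟨a, ha, rfl⟩, b, e⟩
  have off : ∀ u, pt u = some q → u ∉ M.support := fun u h h' => by simp [hpt u h'] at h
  obtain rfl := uu_off h0 hd (off a ha) e.symm
  refine image_congr fun u hu => uu_of_ow (off u hu) ?_
  have k : ko M pt u = ko M pt a := (ko_of_pt (off u hu) hu).trans (ko_of_pt (off a ha) ha).symm
  exact (ow_congr k).trans ((uu_eq.1 e).1.symm.trans (ow_congr k).symm)

end Host

variable {F H : MH (prof A M pt)} (un : Un A M I → F.E) {P : Type} (φ : P → MEmb F H) {g : ℕ}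

/-- the region of a copy -/
def reg (p : P) : Set (XV H (RI A M P)) :=
  {y | y ∈ cl H _ (φ p).Bag ∨ ∃ j a, y = .inr ((p, j), a)}

def locR (p : P) : Set (Set (XV H (RI A M P))) :=
  {ν | (∃ w, ν = body H _ (uU un φ p w)) ∨ ∃ j, ν = xi un φ (p, j) '' Iᶜ}

variable {un φ} {p p' : P} {w w' : Un A M I} {n : H.V} {d : H.E} {a b : U}

theorem uu_reg : uu H _ d a ∈ reg φ p ↔ ow H d a ∈ (φ p).Bag :=
  ⟨fun h => h.elim uu_cl.1 fun ⟨_, _, e⟩ => (Sum.inl_ne_inr e).elim, fun h => .inl (uu_cl.2 h)⟩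

theorem frame [Finite U] [Finite P] (hG : GlueStmt) (hLo : LocalStmt) (hL : LinkStmt)
    (hg : Good φ g) (loc : P → Set (Set (XV H (RI A M P)))) (Lk : Set (XV H (RI A M P)) → Prop)
    (h1 : ∀ p, ∀ ν ∈ loc p, ν ⊆ reg φ p)
    (h2 : ∀ p q x y, x ≠ y → x ∈ reg φ p → y ∈ reg φ p → Tog (loc q) x y → Tog (loc p) x y)
    (h3 : ∀ p ℓ, H.Lk ℓ → ℓ ⊆ (φ p).Bag → Thin (loc p) Lk g (cl H _ ℓ))
    (h4 : ∀ p, ∀ ν ∈ loc p, Thin (loc p) Lk g ν)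
    (h5 : ∀ p, ∀ ν ∈ loc p, ∀ ℓ, Lk ℓ → ℓ ∩ ν = ∅ ∨ Lk (ℓ ∩ ν)) :
    ∀ ν ∈ ⋃ p, loc p, Thin (⋃ p, loc p) Lk g ν := by
  intro ν hν
  obtain ⟨p, hp⟩ := mem_iUnion.1 hν
  refine hLo _ _ (loc p) Lk g (reg φ p) ν (hG _ _ _ (fun p => (φ p).Bag) H.Lk (own H _) (reg φ) loc
    Lk g hg.thin (hL _ _ _ _ _ _ φ g hg).1 ?_ ?_ h1 h2 h3 p) (subset_iUnion loc p) ?_ (h1 p ν hp)
    (h4 p ν hp) (h5 p ν hp)
  · intro x n p e
    refine ⟨?_, fun h => .inl ⟨n, h, e⟩⟩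
    rintro (⟨m, h, e'⟩ | ⟨j, a, rfl⟩)
    · exact Option.some_injective _ (e'.symm.trans e) ▸ h
    · simp [own] at e
  · rintro x p q e (⟨m, -, e'⟩ | ⟨j, a, rfl⟩)
    · simp [e] at e'
    rintro (⟨m, -, e'⟩ | ⟨j', a', e'⟩)
    · simp [e] at e'
    · exact congrArg (fun z => z.1.1) (Sum.inr_injective e')
  · rintro x y hxy hx hy ⟨ν', h', k⟩
    obtain ⟨q, hq⟩ := mem_iUnion.1 h'
    exact h2 p q x y hxy hx hy ⟨ν', hq, k⟩

namespace Ctx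
variable (c : Ctx I un φ g)
include c

theorem off {q : Q} (h : pt a = some q) : a ∉ M.support := fun h' => by simp [c.hpt a h'] at h

theorem locR_union : ⋃ p, locR un φ p = RBags M I (Us H _) (range (xi un φ)) := by
  ext ν
  simp only [mem_iUnion]
  constructor
  · rintro ⟨p, ⟨w, rfl⟩ | ⟨j, rfl⟩⟩
    exacts [.inl ⟨_, ⟨_, c.isU p w, rfl⟩, rfl⟩, .inr ⟨_, ⟨_, rfl⟩, rfl⟩]
  · rintro (⟨_, ⟨d, hd, rfl⟩, rfl⟩ | ⟨_, ⟨r, rfl⟩, rfl⟩)
    · obtain ⟨p, w, rfl⟩ := c.cov hd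
      exact ⟨p, .inl ⟨w, rfl⟩⟩
    · exact ⟨r.1, .inr ⟨r.2, rfl⟩⟩

theorem locR_sub (p : P) : ∀ ν ∈ locR un φ p, ν ⊆ reg φ p := by
  rintro _ (⟨w, rfl⟩ | ⟨j, rfl⟩) _ ⟨a, ha, rfl⟩
  · exact uu_reg.2 (uU_bag _ _ (ow_wb _ _))
  · rcases c.xi_off (p, j) ha with ⟨δ, -, e⟩ | e <;> rw [e]
    exacts [uu_reg.2 (uU_bag _ _ (ow_wb _ _)), .inr ⟨j, a, rfl⟩]

/-- two vertices of a unit in a region: the unit lies in the copy or they have one owner -/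
theorem unit_reg (hd : IsU d) (ha : ow H d a ∈ (φ p).Bag) (hb : ow H d b ∈ (φ p).Bag) :
    (∃ w, uU un φ p w = d) ∨ ∃ n, ow H d a = .inl n ∧ ow H d b = .inl n ∧ .inl n ∈ (φ p).Bag := by
  rcases e1 : ow H d a with n | d1
  · rcases e2 : ow H d b with n' | d2
    · rw [e1] at ha
      rw [e2] at hb
      by_cases e : n = n'
      · exact .inr ⟨n, rfl, by rw [e], ha⟩
      · exact .inl (c.two_bag ha hb e (ow_inl.1 e1).1 (ow_inl.1 e2).1)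
    · rw [e2, ow_inr e2] at hb
      exact .inl (c.of_bag hd hb)
  · rw [e1, ow_inr e1] at ha
    exact .inl (c.of_bag hd ha)

theorem locR_cons (p q : P) (x y : XV H (RI A M P)) (hxy : x ≠ y) (hx : x ∈ reg φ p)
    (hy : y ∈ reg φ p) (h : Tog (locR un φ q) x y) : Tog (locR un φ p) x y := by
  by_cases hpq : q = p
  · exact hpq ▸ h
  obtain ⟨_, ⟨w, rfl⟩ | ⟨j, rfl⟩, h1, h2⟩ := h
  · obtain ⟨a, ha, rfl⟩ := h1
    obtain ⟨b, hb, rfl⟩ := h2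
    rcases c.unit_reg (c.isU q w) (uu_reg.1 hx) (uu_reg.1 hy) with ⟨w', e⟩ | ⟨n, e1, e2, e⟩
    · exact ⟨_, .inl ⟨w', rfl⟩, ⟨a, ha, by rw [e]⟩, b, hb, by rw [e]⟩
    · obtain ⟨w', hw⟩ := c.nj e
      exact ⟨_, .inl ⟨w', rfl⟩, ⟨a, ha, (uu_move ha e1 hw).symm⟩, b, hb, (uu_move hb e2 hw).symm⟩
  · have k : ∀ z ∈ xi un φ (q, j) '' Iᶜ, z ∈ reg φ p → ∃ δ, z = leaf un φ (q, j) δ := by
      rintro _ ⟨a, ha, rfl⟩ hz
      rcases c.xi_off (q, j) ha with ⟨δ, -, e⟩ | e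
      · exact ⟨δ, e⟩
      · rw [e] at hz
        rcases hz with ⟨m, -, e'⟩ | ⟨j', a', e'⟩
        · simp [own] at e'
        · exact absurd (congrArg (fun z => z.1.1) (Sum.inr_injective e')) hpq
    obtain ⟨δ, rfl⟩ := k x h1 hx
    obtain ⟨δ', rfl⟩ := k y h2 hy
    exact absurd (c.xbag (r := (q, j)) hpq (uu_reg.1 hx) (uu_reg.1 hy)) hxy

/-- an owned vertex of a bag lies in a body -/
theorem in_body {ν : Set (XV H (RI A M P))} (hν : ν ∈ locR un φ p) {y : XV H (RI A M P)}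
    (hy : y ∈ ν) {o : H.V ⊕ H.E} (h : own H _ y = some o) :
    ∃ w a, a ∉ M.support ∧ y = uu H _ (uU un φ p w) a := by
  rcases hν with ⟨w, rfl⟩ | ⟨j, rfl⟩
  · obtain ⟨a, ha, rfl⟩ := hy
    exact ⟨w, a, ha, rfl⟩
  · obtain ⟨δ, e, -⟩ := c.xi_own hy h
    exact ⟨_, _, j.2.2.2.1, e⟩

theorem thinR {S : Set (XV H (RI A M P))} (h0 : ∀ y ∈ S, ∃ o, own H _ y = some o)
    (h1 : ∀ y ∈ S, ∀ y' ∈ S, ∀ ν ∈ locR un φ p, ∀ ν' ∈ locR un φ p, y ∈ ν → y' ∈ ν' → ¬ ν ⊆ S →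
      ¬ ν' ⊆ S → own H _ y = own H _ y')
    (h2 : ∀ w a, a ∉ M.support → uu H _ (uU un φ p w) a ∈ S → ¬ body H _ (uU un φ p w) ⊆ S →
      ∃ n, ow H (uU un φ p w) a = .inl n ∧ ∀ b ∉ M.support, ow H (uU un φ p w) b = .inl n →
        uu H _ (uU un φ p w) b ∈ S) :
    Thin (locR un φ p) (RLk pt (Us H _)) g S := by
  intro C _ hd _
  have ns : ∀ {ν : Set (XV H (RI A M P))} {z}, z ∈ C → z ∈ ν → ¬ ν ⊆ S :=
    fun h h' e => disjoint_left.1 hd h (e h')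
  by_cases hb : ∃ w, (body H _ (uU un φ p w) ∩ S).Nonempty ∧ (body H _ (uU un φ p w) ∩ C).Nonempty
  · obtain ⟨w, ⟨_, ⟨a, ha, rfl⟩, hS⟩, z, hz, hzC⟩ := hb
    obtain ⟨n, e, k⟩ := h2 w a ha hS (ns hzC hz)
    obtain ⟨q, hq, hn⟩ := pt_of_ow ha e
    refine .inr ⟨uu H _ (uU un φ p w) '' {u | pt u = some q},
      .inr ⟨(q, _), ⟨_, ⟨_, c.isU p w, rfl⟩, rfl⟩, rfl⟩, ?_, ?_, _, .inl ⟨w, rfl⟩,
      image_mono fun u hu => c.off hu, z, hz, hzC⟩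
    · rintro y ⟨hy, z', hz', ν, n1, n2, n3⟩
      have e1 := h1 _ hS y hy _ (.inl ⟨w, rfl⟩) ν n1 ⟨a, ha, rfl⟩ n2 (ns hzC hz) (ns hz' n3)
      obtain ⟨w', b, hb, rfl⟩ := c.in_body n1 n2 e1.symm
      have e2 := (Option.some_injective _ e1).symm.trans e
      obtain ⟨q', hq', hn'⟩ := pt_of_ow hb e2
      obtain rfl : q = q' := Sum.inr_injective (hn.symm.trans hn')
      exact ⟨b, hq', (uu_move hb e2 (ow_inl.1 e).1).symm⟩
    · rintro _ ⟨b, hb, rfl⟩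
      exact k b (c.off hb) ((ow_congr ((ko_of_pt (c.off hb) hb).trans
        (ko_of_pt ha hq).symm)).trans e)
  · refine thin_one (fun v => .inl ⟨v, rfl⟩) ?_
    rintro y ⟨hy, z, hz, ν, n1, n2, n3⟩ y' ⟨hy', z', hz', ν', n1', n2', n3'⟩
    have e := h1 y hy y' hy' ν n1 ν' n1' n2 n2' (ns hz n3) (ns hz' n3')
    rcases n1 with ⟨w, rfl⟩ | ⟨⟨t, s⟩, rfl⟩
    · exact absurd ⟨w, ⟨y, n2, hy⟩, z, n3, hz⟩ hb
    rcases n1' with ⟨w, rfl⟩ | ⟨⟨t', s'⟩, rfl⟩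
    · exact absurd ⟨w, ⟨y', n2', hy'⟩, z', n3', hz'⟩ hb
    obtain ⟨o, ho⟩ := h0 y hy
    obtain ⟨δ, rfl, k⟩ := c.xi_own n2 ho
    obtain ⟨δ', rfl, k'⟩ := c.xi_own n2' (e.symm.trans ho)
    obtain ⟨rfl, rfl, k2⟩ := c.leaf_own (p := p) (e := t) (s := s) (δ := δ) (δ' := δ')
      ((k.trans k'.symm).symm ▸ ow_wb _ _)
    exact c.leaf_eq _ k2

theorem thinR_unit {S : Set (XV H (RI A M P))} (h1 : body H _ (uU un φ p w) ⊆ S)
    (h2 : S ⊆ cl H _ (H.WB (uU un φ p w))) : Thin (locR un φ p) (RLk pt (Us H _)) g S := by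
  have key : ∀ y ∈ S, ∀ ν ∈ locR un φ p, y ∈ ν → ¬ ν ⊆ S → ∃ e s δ, w = (e, some (s, δ)) ∧
      own H _ y = some (ow H (uU un φ p w) s.1.2) := by
    have k : ∀ w' a, w' ≠ w → a ∉ M.support → uu H _ (uU un φ p w') a ∈ S → ∃ e s δ,
        w = (e, some (s, δ)) ∧ own H _ (uu H (RI A M P) (uU un φ p w') a) =
          some (ow H (uU un φ p w) s.1.2) := fun w' a hw ha hS => by
      obtain ⟨e, s, δ, δ', -, k1, -, -, n, k2, k3⟩ := c.exit hw ha (uu_cl.1 (h2 hS))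
      exact ⟨e, s, δ', k1, congrArg some (k2.trans k3.symm)⟩
    rintro y hy _ (⟨w', rfl⟩ | ⟨⟨e, s⟩, rfl⟩) hν hS
    · obtain ⟨a, ha, rfl⟩ := hν
      exact k w' a (fun e => hS (e ▸ h1)) ha hy
    · obtain ⟨o, -, ho⟩ := h2 hy
      obtain ⟨δ, rfl, -⟩ := c.xi_own hν ho
      by_cases hw : (e, some (s, δ)) = w
      · subst hw
        exact ⟨e, s, δ, rfl, rfl⟩
      · exact k _ _ hw s.2.2.1 hy
  refine c.thinR (fun y hy => (h2 hy).imp fun _ h => h.2) ?_ ?_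
  · intro y hy y' hy' ν n1 ν' n1' n2 n2' n3 n3'
    obtain ⟨e, s, δ, rfl, k⟩ := key y hy ν n1 n2 n3
    obtain ⟨e', s', δ', k1, k'⟩ := key y' hy' ν' n1' n2' n3'
    simp only [Prod.mk.injEq, Option.some.injEq] at k1
    obtain ⟨-, rfl, -⟩ := k1
    exact k.trans k'.symm
  · intro w' a ha hS hb
    obtain ⟨e, s, δ, δ', -, -, -, -, n, k2, k3⟩ :=
      c.exit (w := w') (w' := w) (fun e => hb (e ▸ h1)) ha (uu_cl.1 (h2 hS))
    exact ⟨n, k2, fun b hb k => h1 ⟨b, hb, (uu_move hb k (ow_inl.1 k3).1).symm⟩⟩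

theorem thinR_link (p : P) (ℓ : Set (H.V ⊕ H.E)) (h : H.Lk ℓ) (hp : ℓ ⊆ (φ p).Bag) :
    Thin (locR un φ p) (RLk pt (Us H _)) g (cl H _ ℓ) := by
  rcases h with ⟨n, rfl⟩ | ⟨d, rfl⟩
  · refine c.thinR (fun y hy => hy.imp fun _ h => h.2) ?_ ?_
    · rintro y ⟨_, rfl, e⟩ y' ⟨_, rfl, e'⟩ - - - - - - - -
      exact e.trans e'.symm
    · exact fun w a _ h _ => ⟨n, uu_cl.1 h, fun b _ k => uu_cl.2 k⟩
  by_cases hd : IsU d
  · obtain ⟨w, rfl⟩ := c.of_bag hd (hp (.inl rfl))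
    refine c.thinR_unit ?_ subset_rfl
    rintro _ ⟨a, -, rfl⟩
    exact uu_cl.2 (ow_wb _ _)
  have hne : ∀ w, uU un φ p w ≠ d := fun w e => hd (e ▸ c.isU p w)
  refine c.thinR (fun y hy => hy.imp fun _ h => h.2) ?_ ?_
  · intro y hy y' hy' ν n1 ν' n1' n2 n2' _ _
    obtain ⟨w, a, -, rfl⟩ := c.in_body n1 n2 hy.choose_spec.2
    obtain ⟨w', a', -, rfl⟩ := c.in_body n1' n2' hy'.choose_spec.2
    obtain ⟨n, k1, -, k2, -⟩ := wb_ne (hne w) (uu_cl.1 hy)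
    obtain ⟨n', k3, -, k4, -⟩ := wb_ne (hne w') (uu_cl.1 hy')
    by_cases e : n = n'
    · rw [own_uu, own_uu, k1, k3, e]
    · exact absurd (isU_of_two k2 k4 e) hd
  · intro w a _ h _
    obtain ⟨n, k1, -, k2, -⟩ := wb_ne (hne w) (uu_cl.1 h)
    exact ⟨n, k1, fun b _ k => uu_cl.2 (k ▸ inl_wb.2 k2)⟩

theorem lx_body {y : XV H (RI A M P)} (h : y ∈ body H _ (uU un φ p w))
    (h' : y ∈ body H _ (uU un φ p w')) : lx w = lx w' := by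
  obtain ⟨a, ha, rfl⟩ := h
  obtain ⟨b, -, e⟩ := h'
  exact c.lx_eq ha ((uu_eq.1 e).1 ▸ ow_wb _ _)

theorem thinR_xi (j : Ty A M × Sp A M) :
    Thin (locR un φ p) (RLk pt (Us H _)) g (xi un φ (p, j) '' Iᶜ) := by
  refine thin_of_subsingleton (fun v => .inl ⟨v, rfl⟩) fun C _ hd hc => ?_
  have lb : ∀ j δ, leaf un φ (p, j) δ ∈ body H _ (uU un φ p (j.1, some (j.2, δ))) :=
    fun j δ => ⟨_, j.2.2.2.1, rfl⟩
  have key : ∀ y ∈ At (locR un φ p) (xi un φ (p, j) '' Iᶜ) C, ∃ δ, y = leaf un φ (p, j) δ ∧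
      ∃ z ∈ C, ∃ w, z ∈ body H _ (uU un φ p w) ∧ lx w = (j.1, some (j.2, δ.1.2)) := by
    rintro y ⟨hy, z, hz, _, ⟨w, rfl⟩ | ⟨j', rfl⟩, n2, n3⟩
    · obtain ⟨a, ha, rfl⟩ := n2
      obtain ⟨δ, e, -⟩ := c.xi_own hy own_uu
      exact ⟨δ, e, z, hz, w, n3, c.lx_body ⟨a, ha, rfl⟩ (e ▸ lb j δ)⟩
    · by_cases e : j' = j
      · exact (disjoint_left.1 hd hz (e ▸ n3)).elim
      · exact ((c.xx_leaf (fun k => e (congrArg Prod.snd k)) n2 hy).1 rfl).elim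
  intro y hy y' hy'
  obtain ⟨δ, rfl, z, hz, w, k1, k2⟩ := key y hy
  obtain ⟨δ', rfl, z', hz', w', k1', k2'⟩ := key y' hy'
  have sub := hc.sub (Y := {z | ∃ w, z ∈ body H _ (uU un φ p w) ∧
    lx w = (j.1, some (j.2, δ.1.2))}) hz ⟨w, k1, k2⟩ (by
      rintro x hx x' - ⟨w1, m1, m2⟩ ⟨_, ⟨w2, rfl⟩ | ⟨j', rfl⟩, n2, n3⟩
      · exact ⟨w2, n3, (c.lx_body n2 m1).trans m2⟩
      · obtain ⟨a, ha, rfl⟩ := m1
        obtain ⟨δ1, e, -⟩ := c.xi_own n2 own_uu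
        have := (c.lx_body (e ▸ lb j' δ1) ⟨a, ha, rfl⟩).trans m2
        simp only [lx, Option.map_some, Prod.mk.injEq, Option.some.injEq] at this
        obtain rfl : j' = j := Prod.ext this.1 this.2.1
        exact (disjoint_left.1 hd hx n2).elim)
  obtain ⟨w1, m1, m2⟩ := sub hz'
  have := m2.symm.trans ((c.lx_body m1 k1').trans k2')
  simp only [Prod.mk.injEq, Option.some.injEq, true_and] at this
  exact c.leaf_eq _ this

theorem thin_R [Finite U] [Finite P] (hG : GlueStmt) (hLo : LocalStmt) (hL : LinkStmt) :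
    ∀ ν ∈ RBags M I (Us H _) (range (xi un φ)),
      Thin (RBags M I (Us H _) (range (xi un φ))) (RLk pt (Us H _)) g ν := by
  rw [← c.locR_union]
  refine frame hG hLo hL c.good _ _ c.locR_sub c.locR_cons c.thinR_link ?_ ?_
  · rintro p _ (⟨w, rfl⟩ | ⟨j, rfl⟩)
    · refine c.thinR_unit subset_rfl ?_
      rintro _ ⟨a, -, rfl⟩
      exact uu_cl.2 (ow_wb _ _)
    · exact c.thinR_xi j
  · have one : ∀ s : Set (XV H (RI A M P)), s.Subsingleton → s = ∅ ∨ RLk pt (Us H _) s :=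
      fun s h => h.eq_empty_or_singleton.imp_right .inl
    rintro p ν hν _ (⟨v, rfl⟩ | ⟨z, hz, rfl⟩)
    · exact one _ (subsingleton_singleton.anti inter_subset_left)
    rcases hν with ⟨w, rfl⟩ | ⟨j, rfl⟩
    · refine (eq_empty_or_nonempty _).imp_right fun h => .inr ⟨z, hz, inter_eq_left.2 ?_⟩
      rw [cel c.hpt z hz _ ⟨_, c.isU p w, rfl⟩
        (h.mono (inter_subset_inter_right _ (image_subset_range _ _)))]
      exact image_mono fun u hu => c.off hu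
    · obtain ⟨_, ⟨d, -, rfl⟩, e⟩ := hz
      refine one _ ((c.xu (p, j) d).anti ?_)
      rw [e, inter_comm]
      exact inter_subset_inter_right _ (image_subset_range _ _)

end Ctx

end Pool.Agent.MP_1c0fc2_co.RE.GamC

end

section

/-! The edges of the middle graph and the frame of hubs and units. -/

open Function Set Relation

namespace Pool.Agent.MP_1c0fc2_co.RE.GamC

variable {U Q : Type} {A M : SimpleGraph U} {I : Set U} {pt : U → Option Q}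

/-- the union of the images of `A[S]` -/
def gr {X : Type} (A : SimpleGraph U) (S : Set U) (Fs : Set (U → X)) : SimpleGraph X where
  Adj y y' := y ≠ y' ∧ ∃ f ∈ Fs, ∃ a ∈ S, ∃ b ∈ S, A.Adj a b ∧ f a = y ∧ f b = y'
  symm := ⟨fun _ _ ⟨h, f, hf, a, ha, b, hb, e, e1, e2⟩ =>
    ⟨h.symm, f, hf, b, hb, a, ha, e.symm, e2, e1⟩⟩
  loopless := ⟨fun _ h => h.1 rfl⟩

theorem imat_adj (h : IMat A M) {a b : U} (ha : a ∈ M.support) (hb : b ∈ M.support)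
    (e : A.Adj a b) : M.Adj a b := by
  obtain ⟨a', ha⟩ := ha
  obtain ⟨b', hb⟩ := hb
  rwa [h.2.2 a a' b b' ha hb e]

section Host
variable {H : MH (prof A M pt)} {R : Type} {d d' : H.E} {n : H.V} {a b : U}

theorem gH_adj (hn : IsH H n) (e : A.Adj a b) :
    (gr A univ (Hs H R)).Adj (hb H R n a) (hb H R n b) :=
  ⟨fun k => e.ne (hb_eq.1 k).2, _, ⟨n, hn, rfl⟩, a, trivial, b, trivial, e, rfl, rfl⟩

theorem gH_hb {y : XV H R} (h : (gr A univ (Hs H R)).Adj (hb H R n a) y) :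
    ∃ b, y = hb H R n b ∧ A.Adj a b := by
  obtain ⟨-, _, ⟨n', -, rfl⟩, x, -, b, -, e, e1, rfl⟩ := h
  obtain ⟨rfl, rfl⟩ := hb_eq.1 e1
  exact ⟨b, rfl, e⟩

theorem gH_uu (hM : Mat M) (hd : IsU d) :
    (gr A univ (Hs H R)).Adj (uu H R d a) (uu H R d b) ↔ M.Adj a b := by
  constructor
  · rintro ⟨hne, _, ⟨n, hn, rfl⟩, x, -, y, -, -, e1, e2⟩
    exact ow_adj hn (uu_hb.1 e1.symm).1 (uu_hb.1 e2.symm).1 fun k => hne (by rw [k])
  · intro e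
    obtain ⟨n, hn, k⟩ := hd.hub ⟨b, e⟩
    rw [uu_hb.2 ⟨k, rfl⟩, uu_hb.2 ⟨(ow_congr (ko_adj hM e)).symm.trans k, rfl⟩]
    exact gH_adj hn (lab_adj hd e)

theorem gU_adj (hd : IsU d) (e : A.Adj a b) :
    (gr A univ (Us H R)).Adj (uu H R d a) (uu H R d b) :=
  ⟨fun k => e.ne (uu_inj hd k), _, ⟨d, hd, rfl⟩, a, trivial, b, trivial, e, rfl, rfl⟩

theorem gU_uu (hM : M ≤ A) (hl : H.Lin) (hd : IsU d)
    (h : (gr A univ (Us H R)).Adj (uu H R d a) (uu H R d b)) : A.Adj a b := by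
  obtain ⟨hne, _, ⟨d', hd', rfl⟩, x, -, y, -, e, e1, e2⟩ := h
  by_cases k : d' = d
  · subst k
    rwa [← uu_inj hd e1, ← uu_inj hd e2]
  obtain ⟨n, -, k1, k2, -, k3⟩ := ow_ne k (uu_eq.1 e1).1
  obtain ⟨n', -, k4, k5, -, k6⟩ := ow_ne k (uu_eq.1 e2).1
  obtain rfl : n = n' := by_contra fun k7 => k (hl _ _ _ _ k7 k1 k4 k2 k5)
  by_cases ha : a ∈ M.support
  · exact hM (ow_adj (isH_of ha k3) (ow_inl.2 ⟨k2, k3⟩) (ow_inl.2 ⟨k2, k6⟩)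
      fun k => hne (by rw [k]))
  · have hb : b ∉ M.support := fun hb => ha (ko_sup_iff (k6.trans k3.symm) hb).1
    rwa [uu_off hd hd' ha e1.symm, uu_off hd hd' hb e2.symm]

theorem gU_hb (hn : IsH H n) (h : (gr A univ (Us H R)).Adj (hb H R n a) (hb H R n b)) :
    A.Adj a b := by
  obtain ⟨-, _, ⟨d, hd, rfl⟩, x, -, y, -, e, e1, e2⟩ := h
  obtain ⟨k1, rfl⟩ := uu_hb.1 e1
  obtain ⟨k2, rfl⟩ := uu_hb.1 e2
  exact lab_adj hd (ow_adj hn k1 k2 e.ne)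

theorem hb_cl : range (hb H R n) = cl H R {.inl n} := by
  ext y
  rw [own_hb]
  exact ⟨fun h => ⟨_, rfl, h⟩, fun ⟨_, h, e⟩ => h ▸ e⟩

theorem sup_of (h0 : ∀ u, pt u = none) {i : Set U ⊕ Q} (h : ko M pt a = some i) :
    a ∈ M.support := by
  by_contra ha
  rw [ko_off ha, h0] at h
  simp at h

end Host

variable {F H : MH (prof A M pt)} (un : Un A M I → F.E) {P : Type} (φ : P → MEmb F H) {g : ℕ}

def locB (p : P) : Set (Set (XV H (RI A M P))) :=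
  {ν | (∃ n, .inl n ∈ (φ p).Bag ∧ ν = range (hb H _ n)) ∨ ∃ w, ν = range (uu H _ (uU un φ p w))}

variable {un φ} {p p' : P} {w w' w'' : Un A M I} {n n' : H.V} {d : H.E} {a b : U}

namespace Ctx
variable (c : Ctx I un φ g)
include c

theorem gX_uu : ¬ (gr A Iᶜ (range (xi un φ))).Adj (uu H _ d a) (uu H _ d b) := by
  rintro ⟨hne, _, ⟨r, rfl⟩, x, hx, y, hy, -, e1, e2⟩
  exact hne (c.xu r d ⟨⟨x, hx, e1⟩, a, rfl⟩ ⟨⟨y, hy, e2⟩, b, rfl⟩)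

theorem gX_hb (hn : IsH H n) {y : XV H (RI A M P)} :
    ¬ (gr A Iᶜ (range (xi un φ))).Adj (hb H _ n a) y := by
  rintro ⟨-, _, ⟨r, rfl⟩, x, hx, -, -, -, e1, -⟩
  exact c.xi_hub hn ⟨x, hx, rfl⟩ ⟨a, e1.symm⟩

theorem gX_xi {r : RI A M P} (ha : a ∉ I) (hb : b ∉ I) :
    (gr A Iᶜ (range (xi un φ))).Adj (xi un φ r a) (xi un φ r b) ↔ A.Adj a b := by
  constructor
  · rintro ⟨hne, _, ⟨r', rfl⟩, x, hx, y, hy, e, e1, e2⟩
    by_cases k : r' = r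
    · subst k
      rwa [← c.xi_inj _ e1, ← c.xi_inj _ e2]
    · exact absurd (c.xx k ⟨⟨x, hx, e1⟩, a, ha, rfl⟩ ⟨⟨y, hy, e2⟩, b, hb, rfl⟩) hne
  · exact fun e => ⟨fun k => e.ne (c.xi_inj r k), _, ⟨r, rfl⟩, a, ha, b, hb, e, rfl, rfl⟩

theorem uu_tr (hb : b ∈ M.support) (h : ow H (uU un φ p w) b = .inl n)
    (h' : H.mem n (uU un φ p w')) :
    uu H (RI A M P) (uU un φ p w) b = uu H _ (uU un φ p w') b := by
  by_cases hw : w = w'
  · rw [hw]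
  obtain ⟨e, s, δ, δ', rfl, rfl, -⟩ := c.sh hw (ow_inl.1 h).1 h'
  exact uu_eq.2 ⟨h.trans (ow_inl.2 ⟨h', (ow_inl.1 h).2⟩).symm,
    (lab_sup (c.ty _ _) hb).trans (lab_sup (c.ty p (e, some (s, δ'))) hb).symm⟩

theorem shB (h0 : ∀ u, pt u = none) (h1 : w ≠ w') (h2 : w ≠ w'') (m1 : H.mem n (uU un φ p w))
    (m2 : H.mem n (uU un φ p w')) (m3 : H.mem n' (uU un φ p w)) (m4 : H.mem n' (uU un φ p w'')) :
    n = n' := by
  obtain ⟨e, s, δ, δ', rfl, rfl, k | k⟩ := c.sh h1 m1 m2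
  · exact absurd (sup_of h0 k.2) s.2.2.1
  obtain ⟨e', s', δ1, δ2, k1, -, k' | k'⟩ := c.sh h2 m3 m4
  · exact absurd (sup_of h0 k'.2) s'.2.2.1
  simp only [Prod.mk.injEq, Option.some.injEq] at k1
  obtain ⟨-, rfl, -⟩ := k1
  exact mem_uniq m1 m3 (Option.some_injective _ (k.2.symm.trans k'.2))

theorem isH (h0 : ∀ u, pt u = none) (n : H.V) : IsH H n := by
  obtain ⟨p, hp⟩ := c.good.cov (.inl n)
  obtain ⟨w, hw⟩ := c.nj hp
  obtain ⟨a, ha⟩ := (c.isU p w).kind hw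
  exact isH_of (sup_of h0 ha) ha

theorem thinB {S : Set (XV H (RI A M P))}
    (h1 : ∀ w b b', uu H _ (uU un φ p w) b ∈ S → M.Adj b b' → uu H _ (uU un φ p w) b' ∈ S)
    (h2 : ∀ C, Disjoint C S → ConnOn (Tog (locB un φ p)) C → ∀ y ∈ At (locB un φ p) S C,
      (∃ w b, b ∈ M.support ∧ y = uu H _ (uU un φ p w) b) ∧
      ∀ y' ∈ At (locB un φ p) S C, own H _ y = own H _ y') :
    Thin (locB un φ p) (GLk (gr A univ (Hs H _) ⊔ gr A univ (Us H _))) g S := by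
  intro C _ hd hc
  refine (eq_empty_or_nonempty _).imp_right ?_
  rintro ⟨y, hy⟩
  obtain ⟨⟨w, b, ⟨b', hb⟩, rfl⟩, k⟩ := h2 C hd hc y hy
  obtain ⟨n, hn, e⟩ := (c.isU p w).hub ⟨b', hb⟩
  have e' := (ow_congr (ko_adj c.mat hb)).symm.trans e
  obtain ⟨hS, z, hz, ν, n1, n2, n3⟩ := hy
  refine ⟨{uu H _ (uU un φ p w) b, uu H _ (uU un φ p w) b'},
    .inr ⟨_, _, .inr (gU_adj (c.isU p w) (c.imat.1 hb)), rfl⟩, fun y' hy' => ?_,
    pair_subset hS (h1 w b b' hS hb), ν, n1, pair_subset n2 ?_, z, n3, hz⟩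
  · obtain ⟨⟨w1, b1, hb1, rfl⟩, -⟩ := h2 C hd hc y' hy'
    have e1 := (Option.some_injective _ (k _ hy')).symm.trans e
    rw [c.uu_tr hb1 e1 (ow_inl.1 e).1]
    by_cases k1 : b = b1
    · exact .inl (by rw [k1])
    · exact .inr (congrArg _ (c.mat b b1 b' (ow_adj hn e
        (ow_inl.2 ⟨(ow_inl.1 e).1, (ow_inl.1 e1).2⟩) k1) hb))
  · rcases n1 with ⟨n', -, rfl⟩ | ⟨w1, rfl⟩
    · exact own_hb.2 (congrArg some (e'.trans (e.symm.trans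
        (Option.some_injective _ (own_hb.1 n2)))))
    · obtain ⟨b1, k1⟩ := n2
      exact ⟨b', (c.uu_tr ⟨b, hb.symm⟩ e' (ow_inl.1 ((uu_eq.1 k1).1.trans e)).1).symm⟩

theorem thinB_link (h0 : ∀ u, pt u = none) (p : P) (ℓ : Set (H.V ⊕ H.E)) (h : H.Lk ℓ)
    (hp : ℓ ⊆ (φ p).Bag) :
    Thin (locB un φ p) (GLk (gr A univ (Hs H _) ⊔ gr A univ (Us H _))) g (cl H _ ℓ) := by
  refine c.thinB (fun w b b' h e => uu_cl.2 (ow_congr (ko_adj c.mat e) ▸ uu_cl.1 h)) ?_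
  intro C hd _
  have key : ∀ y ∈ At (locB un φ p) (cl H _ ℓ) C, ∃ w b, y = uu H _ (uU un φ p w) b ∧
      ow H (uU un φ p w) b ∈ ℓ ∧ ℓ ≠ H.WB (uU un φ p w) := by
    rintro y ⟨hy, z, hz, _, ⟨n, -, rfl⟩ | ⟨w, rfl⟩, n2, n3⟩
    · obtain ⟨o, ho, e⟩ := hy
      exact (disjoint_left.1 hd hz ⟨o, ho, (own_hb.1 n3).trans
        ((own_hb.1 n2).symm.trans e)⟩).elim
    · obtain ⟨b, rfl⟩ := n2
      obtain ⟨b', rfl⟩ := n3
      exact ⟨w, b, rfl, uu_cl.1 hy, fun e => disjoint_left.1 hd hz (uu_cl.2 (e ▸ ow_wb _ _))⟩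
  intro y hy
  obtain ⟨w, b, rfl, k1, k2⟩ := key y hy
  rcases h with ⟨n, rfl⟩ | ⟨d, rfl⟩
  · refine ⟨⟨w, b, sup_of h0 (ow_inl.1 k1).2, rfl⟩, fun y' hy' => ?_⟩
    obtain ⟨w', b', rfl, k3, -⟩ := key y' hy'
    exact congrArg some (k1.trans k3.symm)
  obtain ⟨n, m1, m2, m3, m4⟩ := wb_ne (fun e => k2 (by rw [e])) k1
  refine ⟨⟨w, b, sup_of h0 m4, rfl⟩, fun y' hy' => ?_⟩
  obtain ⟨w', b', rfl, k3, k4⟩ := key y' hy'
  obtain ⟨n', m1', m2', m3', -⟩ := wb_ne (fun e => k4 (by rw [e])) k3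
  rw [own_uu, own_uu, m1, m1']
  by_contra e
  obtain ⟨w0, rfl⟩ := c.of_bag (isU_of_two m3 m3' fun k => e (by rw [k])) (hp (.inl rfl))
  exact e (by rw [c.shB h0 (fun e => k2 (by rw [e])) (fun e => k4 (by rw [e])) m3 m2 m3' m2'])

theorem thinB_unit (h0 : ∀ u, pt u = none) (p : P) (w0 : Un A M I) :
    Thin (locB un φ p) (GLk (gr A univ (Hs H _) ⊔ gr A univ (Us H _))) g
      (range (uu H _ (uU un φ p w0))) := by
  refine c.thinB ?_ ?_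
  · rintro w b b' ⟨b0, e⟩ hb
    obtain ⟨n, -, k⟩ := (c.isU p w).hub ⟨b', hb⟩
    exact ⟨b', (c.uu_tr ⟨b, hb.symm⟩ ((ow_congr (ko_adj c.mat hb)).symm.trans k)
      (ow_inl.1 ((uu_eq.1 e).1.trans k)).1).symm⟩
  intro C hd hc
  let T : H.V → Set (XV H (RI A M P)) := fun n => {z | own H _ z = some (.inl n) ∨
    ∃ w, w0 ≠ w ∧ H.mem n (uU un φ p w) ∧ z ∈ cl H _ (H.WB (uU un φ p w))}
  have ne : ∀ w b, uu H _ (uU un φ p w) b ∈ C → w0 ≠ w := by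
    rintro w b h rfl
    exact disjoint_left.1 hd h ⟨b, rfl⟩
  have key : ∀ y ∈ At (locB un φ p) (range (uu H _ (uU un φ p w0))) C, ∃ b n,
      y = uu H _ (uU un φ p w0) b ∧ ow H (uU un φ p w0) b = .inl n ∧ ∃ z ∈ C, z ∈ T n := by
    rintro _ ⟨⟨b, rfl⟩, z, hz, _, ⟨n, -, rfl⟩ | ⟨w, rfl⟩, n2, n3⟩
    · exact ⟨b, n, rfl, Option.some_injective _ (own_hb.1 n2), z, hz, .inl (own_hb.1 n3)⟩
    · obtain ⟨b1, e⟩ := n2
      obtain ⟨b2, rfl⟩ := n3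
      obtain ⟨n, m1, -, m2, -⟩ := ow_ne (fun k => ne w b2 hz (c.uU_inj k)) (uu_eq.1 e.symm).1
      exact ⟨b, n, rfl, m1, _, hz, .inr ⟨w, ne w b2 hz, m2, uu_cl.2 (ow_wb _ _)⟩⟩
  intro y hy
  obtain ⟨b, n, rfl, k1, z, hz, k2⟩ := key y hy
  refine ⟨⟨w0, b, sup_of h0 (ow_inl.1 k1).2, rfl⟩, fun y' hy' => ?_⟩
  obtain ⟨b', n', rfl, k3, z', hz', k4⟩ := key y' hy'
  have m := (ow_inl.1 k1).1
  have m' := (ow_inl.1 k3).1
  have sub := hc.sub (Y := T n) hz k2 (by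
    rintro x hx x' - hT ⟨_, ⟨n1, -, rfl⟩ | ⟨w2, rfl⟩, n2, n3⟩
    · have e := (own_hb.1 n3).trans (own_hb.1 n2).symm
      rcases hT with h | ⟨w, h1, h2, o, h3, h4⟩
      exacts [.inl (e.trans h), .inr ⟨w, h1, h2, o, h3, e.trans h4⟩]
    · obtain ⟨b2, rfl⟩ := n2
      obtain ⟨b3, rfl⟩ := n3
      refine .inr ⟨w2, ne _ _ hx, ?_, uu_cl.2 (ow_wb _ _)⟩
      rcases hT with h | ⟨w, h1, h2, h3⟩
      · exact (ow_inl.1 (Option.some_injective _ h)).1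
      by_cases e : w = w2
      · exact e ▸ h2
      obtain ⟨m1, -, q1, q2, -⟩ := wb_ne (fun k => e (c.uU_inj k).symm) (uu_cl.1 h3)
      rwa [c.shB h0 h1.symm e h2 m q2 q1])
  rw [own_uu, own_uu, k1, k3]
  congr 2
  rcases sub hz' with h | ⟨w, h1, h2, o, h3, h4⟩ <;> rcases k4 with h' | ⟨w', h1', h2', o', h3', h4'⟩
  · exact Sum.inl_injective (Option.some_injective _ (h.symm.trans h'))
  · obtain rfl := Option.some_injective _ (h.symm.trans h4')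
    exact c.shB h0 h1' h1' m (inl_wb.1 h3') m' h2'
  · obtain rfl := Option.some_injective _ (h'.symm.trans h4)
    exact c.shB h0 h1 h1 m h2 m' (inl_wb.1 h3)
  · exact c.shB h0 h1 h1' m h2 m' h2'

theorem locB_union (h0 : ∀ u, pt u = none) :
    ⋃ p, locB un φ p = Nodes (range '' Hs H _) (UBags M (Us H _)) := by
  ext ν
  simp only [mem_iUnion]
  constructor
  · rintro ⟨p, ⟨n, -, rfl⟩ | ⟨w, rfl⟩⟩
    · exact .inl ⟨_, ⟨n, c.isH h0 n, rfl⟩, rfl⟩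
    · exact .inr ⟨⟨_, M, M, False⟩, ⟨⟨_, c.isU p w, rfl⟩, rfl, rfl, id⟩, rfl⟩
  · rintro (⟨_, ⟨n, -, rfl⟩, rfl⟩ | ⟨β, ⟨⟨d, hd, e⟩, -⟩, rfl⟩)
    · obtain ⟨p, hp⟩ := c.good.cov (.inl n)
      exact ⟨p, .inl ⟨n, hp, rfl⟩⟩
    · obtain ⟨p, w, rfl⟩ := c.cov hd
      exact ⟨p, .inr ⟨w, by rw [e]⟩⟩

theorem thin_B [Finite U] [Finite P] (hG : GlueStmt) (hLo : LocalStmt) (hL : LinkStmt)
    (h0 : ∀ u, pt u = none) : ∀ ν ∈ Nodes (range '' Hs H (RI A M P)) (UBags M (Us H _)),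
      Thin (Nodes (range '' Hs H _) (UBags M (Us H _)))
        (GLk (gr A univ (Hs H _) ⊔ gr A univ (Us H _))) g ν := by
  rw [← c.locB_union h0]
  refine frame hG hLo hL c.good _ _ ?_ ?_ (c.thinB_link h0) ?_ fun _ ν _ _ h => h.inter ν
  · rintro p _ (⟨n, hn, rfl⟩ | ⟨w, rfl⟩) _ ⟨a, rfl⟩
    exacts [.inl ⟨_, hn, rfl⟩, uu_reg.2 (uU_bag _ _ (ow_wb _ _))]
  · rintro p q x y - hx hy ⟨_, ⟨n, -, rfl⟩ | ⟨w, rfl⟩, h1, h2⟩
    · refine ⟨_, .inl ⟨n, ?_, rfl⟩, h1, h2⟩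
      obtain ⟨a, rfl⟩ := h1
      rcases hx with ⟨o, ho, e⟩ | ⟨j, a, e⟩
      · exact (Option.some_injective _ e : Sum.inl n = o) ▸ ho
      · exact (Sum.inl_ne_inr e).elim
    · obtain ⟨a, rfl⟩ := h1
      obtain ⟨b, rfl⟩ := h2
      rcases c.unit_reg (c.isU q w) (uu_reg.1 hx) (uu_reg.1 hy) with ⟨w', e⟩ | ⟨n, e1, e2, e⟩
      · exact ⟨_, .inr ⟨w', rfl⟩, ⟨a, by rw [e]⟩, b, by rw [e]⟩
      · exact ⟨_, .inl ⟨n, e, rfl⟩, own_hb.2 (congrArg some e1), own_hb.2 (congrArg some e2)⟩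
  · rintro p _ (⟨n, hn, rfl⟩ | ⟨w, rfl⟩)
    · rw [hb_cl]
      exact c.thinB_link h0 p _ (.inl ⟨n, rfl⟩) (singleton_subset_iff.2 hn)
    · exact c.thinB_unit h0 p w

theorem preB [Finite U] [Finite P] (hG : GlueStmt) (hLo : LocalStmt) (hL : LinkStmt)
    (h0 : ∀ u, pt u = none) : Pre A (gr A univ (Hs H (RI A M P)) ⊔ gr A univ (Us H _))
      (gr A univ (Hs H _)) (range '' Hs H _) (UBags M (Us H _)) g where
  le := le_sup_left
  ind := by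
    rintro β ⟨⟨d, hd, e⟩, -⟩
    rw [e]
    exact ⟨(uu_inj hd).injOn, fun a _ b _ => ⟨fun h => h.elim
      (fun h => c.imat.1 ((gH_uu c.mat hd).1 h)) (gU_uu c.imat.1 c.good.lin hd),
      fun h => .inr (gU_adj hd h)⟩⟩
  col := by
    rintro β ⟨⟨d, hd, e⟩, -, e', -⟩ a b
    rw [e, e']
    exact gH_uu c.mat hd
  old := fun β h => h.2.1.trans_le c.imat.1
  cov := by
    have k : ∀ x y, (gr A univ (Hs H (RI A M P))).Adj x y → ∃ L ∈ range '' Hs H _, x ∈ L ∧ y ∈ L := by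
      rintro _ _ ⟨-, f, hf, a, -, b, -, -, rfl, rfl⟩
      exact ⟨_, ⟨f, hf, rfl⟩, ⟨a, rfl⟩, b, rfl⟩
    rintro x y (h | ⟨-, _, ⟨d, hd, rfl⟩, a, -, b, -, -, rfl, rfl⟩)
    · exact .inl (k x y h)
    by_cases e : M.Adj a b
    · exact .inl (k _ _ ((gH_uu c.mat hd).2 e))
    · exact .inr ⟨⟨_, M, M, False⟩, ⟨⟨d, hd, rfl⟩, rfl, rfl, id⟩, a, b, rfl, rfl, e⟩
  thin := c.thin_B hG hLo hL h0
  lb := by
    rintro _ ⟨_, ⟨n, hn, rfl⟩, rfl⟩ β ⟨⟨d, hd, e⟩, e1, -, e2⟩ a b hab h1 h2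
    rw [e] at h1 h2
    rw [e1]
    exact ⟨e2, ow_adj (d := d) hn (Option.some_injective _ (own_hb.1 h1))
      (Option.some_injective _ (own_hb.1 h2)) hab⟩
  bb := by
    rintro ⟨_, o, r, t⟩ ⟨⟨d, hd, rfl⟩, (e1 : o = M), (e2 : r = M), e⟩ ⟨_, o', r', t'⟩
      ⟨⟨d', hd', rfl⟩, (e3 : o' = M), (e4 : r' = M), e'⟩ a b a' b' h1 h2 - h3 h4
    rw [e1] at h2
    rw [e1, e2, e3, e4]
    have k : ∀ a a', a ∉ M.support → uu H (RI A M P) d a = uu H _ d' a' → d = d' :=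
      fun a a' ha h => ow_inr ((uu_eq.1 h).1.symm.trans (ow_none (by rw [ko_off ha, h0]; rfl)))
    obtain rfl : d = d' := by
      by_cases ha : a ∈ M.support
      · exact k b b' (fun hb => h2 (imat_adj c.imat ha hb h1)) h4
      · exact k a a' ha h3
    obtain rfl : t = t' := propext ⟨fun h => (e h).elim, fun h => (e' h).elim⟩
    exact .inl rfl
  low := by
    rintro β ⟨-, e1, e2, -⟩ -
    rw [e1, e2]
    exact ⟨c.mat, false, rfl⟩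
  dis := by
    rintro _ ⟨_, ⟨n, -, rfl⟩, rfl⟩ _ ⟨_, ⟨n', -, rfl⟩, rfl⟩ h
    refine disjoint_left.2 fun y h1 h2 => h ?_
    rw [Sum.inl_injective (Option.some_injective _ ((own_hb.1 h1).symm.trans (own_hb.1 h2)))]

end Ctx

end Pool.Agent.MP_1c0fc2_co.RE.GamC

end

section

/-! The middle graph. -/

open Function Set Relation

namespace Pool.Agent.MP_1c0fc2_co.RE

namespace GamC

variable {U Q : Type} {A M : SimpleGraph U} {I : Set U} {pt : U → Option Q}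
variable {F H : MH (prof A M pt)} (un : Un A M I → F.E) {P : Type} (φ : P → MEmb F H) {g : ℕ}

def gR : SimpleGraph (XV H (RI A M P)) := gr A univ (Hs H _) ⊔ gr A Iᶜ (range (xi un φ))

def gG : SimpleGraph (XV H (RI A M P)) := gR un φ ⊔ gr A univ (Us H _)

def Hub (H : MH (prof A M pt)) (R : Type) : Set (XV H R) := {x | ∃ h ∈ Hs H R, x ∈ range h}

variable {un φ} {p : P} {n : H.V} {d : H.E} {a b : U}

theorem uu_hub {R : Type} (hd : IsU d) : uu H R d a ∈ Hub H R ↔ a ∈ M.support := by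
  constructor
  · rintro ⟨_, ⟨n, hn, rfl⟩, h⟩
    exact ow_hub (d := d) hn (Option.some_injective _ (own_hb.1 h))
  · intro ha
    obtain ⟨n, hn, e⟩ := hd.hub ha
    exact ⟨_, ⟨n, hn, rfl⟩, own_hb.2 (congrArg some e)⟩

theorem blue_unit {x y : XV H (RI A M P)} (h : (gG un φ \ gR un φ).Adj x y) :
    ∃ d a b, IsU d ∧ x = uu H _ d a ∧ y = uu H _ d b := by
  obtain ⟨-, _, ⟨d, hd, rfl⟩, a, -, b, -, -, rfl, rfl⟩ := h.1.resolve_left h.2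
  exact ⟨d, a, b, hd, rfl, rfl⟩

namespace Ctx
variable (c : Ctx I un φ g)
include c

theorem gR_uu (hd : IsU d) : (gR un φ).Adj (uu H _ d a) (uu H _ d b) ↔ M.Adj a b :=
  ⟨fun h => (gH_uu c.mat hd).1 (h.resolve_right c.gX_uu), fun h => .inl ((gH_uu c.mat hd).2 h)⟩

theorem gG_uu (hd : IsU d) : (gG un φ).Adj (uu H _ d a) (uu H _ d b) ↔ A.Adj a b :=
  ⟨fun h => h.elim (fun h => c.imat.1 ((c.gR_uu hd).1 h)) (gU_uu c.imat.1 c.good.lin hd),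
    fun h => .inr (gU_adj hd h)⟩

theorem xi_nhub {r : RI A M P} (ha : a ∉ I) : xi un φ r a ∉ Hub H _ := by
  rintro ⟨_, ⟨n, hn, rfl⟩, h⟩
  exact c.xi_hub hn ⟨a, ha, rfl⟩ h

theorem blue_tri (S : Set (XV H (RI A M P))) (h : Tri (gG un φ \ gR un φ) S) :
    ∃ υ ∈ Us H _, S ⊆ range υ := by
  have same : ∀ d d' a b b', IsU d → IsU d' → (gG un φ \ gR un φ).Adj (uu H _ d a) (uu H _ d b) →
      ow H d a = ow H d b → uu H (RI A M P) d' b' = uu H _ d a →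
      uu H (RI A M P) d b ∈ range (uu H _ d') := by
    intro d d' a b b' hd hd' e1 e2 e3
    by_cases k : d' = d
    · exact ⟨b, by rw [k]⟩
    obtain ⟨n, -, k1, k2, -, k3⟩ := ow_ne k (uu_eq.1 e3).1
    have k4 := ow_inl.2 ⟨k2, k3⟩
    by_cases hb : b ∈ M.support
    · exact absurd ((c.gR_uu hd).2 (ow_adj (isH_of hb (ow_inl.1 (e2.symm.trans k4)).2) k4
        (e2.symm.trans k4) fun k => e1.ne (by rw [k]))) e1.2
    · exact ⟨b, (uu_move hb (e2.symm.trans k4) k1).symm⟩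
  obtain ⟨x, y, z, h1, h2, h3, rfl⟩ := h
  obtain ⟨d1, a1, b1, u1, rfl, rfl⟩ := blue_unit h1
  obtain ⟨d2, a2, b2, u2, e1, rfl⟩ := blue_unit h2
  obtain ⟨d3, a3, b3, u3, e2, e3⟩ := blue_unit h3
  have fin : ∀ d, IsU d → uu H (RI A M P) d1 a1 ∈ range (uu H _ d) →
      uu H (RI A M P) d1 b1 ∈ range (uu H _ d) → uu H (RI A M P) d2 b2 ∈ range (uu H _ d) →
      ∃ υ ∈ Us H (RI A M P), {uu H _ d1 a1, uu H _ d1 b1, uu H _ d2 b2} ⊆ range υ := by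
    refine fun d hd k1 k2 k3 => ⟨_, ⟨d, hd, rfl⟩, ?_⟩
    rintro _ (rfl | rfl | rfl) <;> assumption
  by_cases k12 : d1 = d2
  · exact fin d1 u1 ⟨_, rfl⟩ ⟨_, rfl⟩ ⟨_, by rw [k12]⟩
  by_cases k13 : d1 = d3
  · exact fin d1 u1 ⟨_, rfl⟩ ⟨_, rfl⟩ ⟨_, by rw [k13, e3]⟩
  by_cases k23 : d2 = d3
  · exact fin d2 u2 ⟨_, e1.symm⟩ ⟨_, by rw [k23, e2]⟩ ⟨_, rfl⟩
  obtain ⟨n1, p1, p2, p3, -, p4⟩ := ow_ne k12 (uu_eq.1 e1).1
  obtain ⟨n2, q1, q2, q3, -, q4⟩ := ow_ne k13 (uu_eq.1 e2).1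
  obtain ⟨n3, r1, r2, r3, -⟩ := ow_ne k23 (uu_eq.1 e3).1
  by_cases m12 : n1 = n2
  · exact fin d2 u2 ⟨_, e1.symm⟩ (same d1 d2 a1 b1 a2 u1 u2 h1 (by rw [p1, q1, m12]) e1.symm)
      ⟨_, rfl⟩
  by_cases m13 : n1 = n3
  · exact fin d1 u1 ⟨_, rfl⟩ ⟨_, rfl⟩ (same d2 d1 a2 b2 a1 u2 u1 (e1 ▸ h2)
      (by rw [← (uu_eq.1 e1).1, p1, r1, m13]) e1)
  by_cases m23 : n2 = n3
  · refine fin d1 u1 ⟨_, rfl⟩ ⟨_, rfl⟩ ?_
    rw [e3]
    exact same d3 d1 a3 b3 b1 u3 u1 (e2 ▸ e3 ▸ h3)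
      (by rw [← (uu_eq.1 e2).1, ← (uu_eq.1 e3).1, q1, r1, m23]) e2
  exact (c.tri n1 n2 n3 d1 d2 d3 m12 m13 m23 p2 q2 p3 r2 q3 r3).elim (absurd · k12)
    fun h => h.elim (absurd · k13) (absurd · k23)

theorem inter {d d' : H.E} (hne : d ≠ d') (hd : IsU d) :
    range (uu H (RI A M P) d) ∩ range (uu H _ d') = ∅ ∨
    (∃ h ∈ Hs H (RI A M P), range (uu H _ d) ∩ range (uu H _ d') ⊆ range h) ∨
    ∃ z ∈ Cells pt (Us H (RI A M P)), range (uu H _ d) ∩ range (uu H _ d') ⊆ z.2 := by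
  refine (eq_empty_or_nonempty _).imp_right ?_
  rintro ⟨_, ⟨a, rfl⟩, a', e⟩
  obtain ⟨n, -, k1, k2, -⟩ := ow_ne hne (uu_eq.1 e.symm).1
  have key : ∀ b b', uu H (RI A M P) d' b' = uu H _ d b → ow H d b = .inl n := by
    intro b b' e
    obtain ⟨n', k3, k4, k5, -⟩ := ow_ne hne (uu_eq.1 e.symm).1
    rw [k3, (by_contra fun k => hne (c.good.lin _ _ _ _ k k1 k4 k2 k5) : n = n')]
  rcases hn : H.kd n with k | q
  · refine .inl ⟨_, ⟨n, ⟨k, hn⟩, rfl⟩, ?_⟩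
    rintro _ ⟨⟨b, rfl⟩, b', e⟩
    exact own_hb.2 (congrArg some (key b b' e))
  · refine .inr ⟨(q, uu H _ d '' {u | pt u = some q}), ⟨_, ⟨d, hd, rfl⟩, rfl⟩, ?_⟩
    rintro _ ⟨⟨b, rfl⟩, b', e⟩
    have := (ow_inl.1 (key b b' e)).2
    rw [hn] at this
    exact ⟨b, (ko_inr this).2, rfl⟩

theorem ram [Finite U] (hR : MRam φ (U → U → Prop) univ) :
    RamOn A (gG un φ) (gR un φ) (offG (gG un φ) (Hub H _)) := by
  intro R' _ hag
  by_contra hno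
  rw [not_or] at hno
  obtain ⟨p, hp⟩ := hR fun d a b => (IsU d ∧ R'.Adj (uu H _ d a) (uu H _ d b)) ∨
    (¬ IsU d ∧ ∃ n, H.mem n d ∧ R'.Adj (hb H _ n a) (hb H _ n b))
  have hU : ∀ w w' : Un A M I, w.1 = w'.1 → ∀ a b,
      R'.Adj (uu H _ (uU un φ p w) a) (uu H _ (uU un φ p w) b) →
      R'.Adj (uu H _ (uU un φ p w') a) (uu H _ (uU un φ p w') b) := by
    intro w w' e a b h
    have := congrFun (congrFun (hp (un w) (un w') trivial (by rw [c.ok.ty, c.ok.ty, e])) a) b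
    exact ((this.mp (.inl ⟨c.isU p w, h⟩)).resolve_right fun k => k.1 (c.isU p w')).2
  have hH : ∀ n n', .inl n ∈ (φ p).Bag → .inl n' ∈ (φ p).Bag → H.kd n = H.kd n' → ∀ a b,
      R'.Adj (hb H _ n a) (hb H _ n b) → R'.Adj (hb H _ n' a) (hb H _ n' b) := by
    rintro n n' ⟨x | x, hx⟩ ⟨x' | x', hx'⟩ e a b h <;>
      first | exact (Sum.inr_ne_inl ‹_›).elim | skip
    obtain rfl : (φ p).v x = n := Sum.inl_injective hx
    obtain rfl : (φ p).v x' = n' := Sum.inl_injective hx'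
    rw [(φ p).kd_v, (φ p).kd_v] at e
    obtain ⟨f, t, m⟩ := c.ok.one x
    obtain ⟨f', t', m'⟩ := c.ok.one x'
    have nu : ∀ f i, F.ty f = .inl i → ¬ IsU ((φ p).e f) := fun f i t ⟨_, k⟩ =>
      Sum.inl_ne_inr (t.symm.trans (((φ p).ty_e f).symm.trans k))
    have := congrFun (congrFun (hp f f' trivial (by rw [t, t', e])) a) b
    obtain ⟨-, n, k1, k2⟩ := (this.mp (.inr ⟨nu f _ t, _, ((φ p).mem_iff _ _).2 ⟨x, m, rfl⟩,
      h⟩)).resolve_left fun k => nu f' _ t' k.1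
    rwa [one_uniq (((φ p).ty_e f').trans t') k1 (((φ p).mem_iff _ _).2 ⟨x', m', rfl⟩)] at k2
  have hbl : ∀ n, ∃ a b, A.Adj a b ∧ ¬ R'.Adj (hb H _ n a) (hb H _ n b) := fun n => by
    by_contra k
    exact hno.1 ⟨hb H _ n, fun _ _ e => (hb_eq.1 e).2, fun a b e =>
      by_contra fun k' => k ⟨a, b, e, k'⟩⟩
  have hk : ∀ a : U, ∃ y : U × U, ∀ n, .inl n ∈ (φ p).Bag → H.kd n = .inl (kd M a) →
      A.Adj y.1 y.2 ∧ ¬ R'.Adj (hb H _ n y.1) (hb H _ n y.2) := fun a => by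
    by_cases k : ∃ n, .inl n ∈ (φ p).Bag ∧ H.kd n = .inl (kd M a)
    · obtain ⟨n, k1, k2⟩ := k
      obtain ⟨x, y, e, e'⟩ := hbl n
      exact ⟨(x, y), fun n' k3 k4 => ⟨e, fun h => e' (hH n' n k3 k1 (k4.trans k2.symm) x y h)⟩⟩
    · exact ⟨(a, a), fun n k1 k2 => absurd ⟨n, k1, k2⟩ k⟩
  have hk' : ∀ k : Set U, ∃ y : Option (U × U), ∀ a, k = kd M a → ∃ y', y = some y' ∧
      ∀ n, .inl n ∈ (φ p).Bag → H.kd n = .inl k →
      A.Adj y'.1 y'.2 ∧ ¬ R'.Adj (hb H _ n y'.1) (hb H _ n y'.2) := fun k => by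
    by_cases h : ∃ a, k = kd M a
    · obtain ⟨a, rfl⟩ := h
      obtain ⟨y, hy⟩ := hk a
      exact ⟨some y, fun _ _ => ⟨y, rfl, hy⟩⟩
    · exact ⟨none, fun a e => absurd ⟨a, e⟩ h⟩
  choose Y hY using hk'
  obtain ⟨s, hs⟩ := c.mat.bip
  let e : U → U := fun a => ((Y (kd M a)).map fun y => if s a then y.1 else y.2).getD a
  have he : ∀ a b, M.Adj a b → ∀ n, .inl n ∈ (φ p).Bag → H.kd n = .inl (kd M a) →
      A.Adj (e a) (e b) ∧ ¬ R'.Adj (hb H _ n (e a)) (hb H _ n (e b)) := by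
    intro a b h n k1 k2
    obtain ⟨y, e1, e2⟩ := hY _ a rfl
    have e3 := e2 n k1 k2
    have e4 := hs a b h
    simp only [e, ← kd_adj c.mat h, e1, Option.map_some, Option.getD_some]
    rcases ha : s a with _ | _ <;> rcases hb : s b with _ | _ <;> rw [ha, hb] at e4
    · exact absurd rfl e4
    · exact ⟨e3.1.symm, fun k => e3.2 k.symm⟩
    · exact e3
    · exact absurd rfl e4
  have hub : ∀ (w : Un A M I) a, a ∈ M.support → ∃ n, ow H (uU un φ p w) a = .inl n ∧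
      .inl n ∈ (φ p).Bag ∧ H.kd n = .inl (kd M a) := fun w a ha => by
    obtain ⟨n, k1, k2, k3⟩ := (c.isU p w).ow_some (ko_sup ha)
    exact ⟨n, k1, uU_bag p w (inl_wb.2 k2), k3⟩
  let t : Ty A M := ⟨e, fun a b h => by
    obtain ⟨n, -, k1, k2⟩ := hub (⟨id, fun _ _ h => c.imat.1 h⟩, none) a ⟨b, h⟩
    exact (he a b h n k1 k2).1⟩
  obtain ⟨a, b, hab, hr⟩ : ∃ a b, A.Adj a b ∧
      R'.Adj (uu H _ (uU un φ p (t, none)) a) (uu H _ (uU un φ p (t, none)) b) := by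
    by_contra k
    exact hno.2 ⟨_, uu_inj (c.isU p (t, none)), fun a b h =>
      ⟨(c.gG_uu (c.isU p _)).2 h, fun k' => k ⟨a, b, h, k'⟩⟩⟩
  have spoke : ∀ z u, z ∈ M.support → u ∉ M.support → A.Adj z u →
      ¬ R'.Adj (uu H _ (uU un φ p (t, none)) z) (uu H _ (uU un φ p (t, none)) u) := by
    intro z u hz hu h hr
    let r : RI A M P := (p, t, ⟨(z, u), hz, hu, h⟩)
    have k : ∀ v x, v ∈ I → A.Adj v x → R'.Adj (xi un φ r v) (xi un φ r x) := fun v x hv h => by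
      rw [c.xi_ctr r ⟨(v, x), hv, h⟩, c.xi_leaf r ⟨(v, x), hv, h⟩]
      exact hU (t, none) (t, some (r.2.2, ⟨(v, x), hv, h⟩)) rfl z u hr
    refine hno.1 ⟨xi un φ r, c.xi_inj r, fun x y h => ?_⟩
    by_cases hx : x ∈ I
    · exact k x y hx h
    by_cases hy : y ∈ I
    · exact (k y x hy h.symm).symm
    have k' := (c.gX_xi (r := r) hx hy).2 h
    exact (hag _ _ ⟨.inl (.inr k'), c.xi_nhub hx, c.xi_nhub hy⟩).2 (.inr k')
  by_cases ha : a ∈ M.support <;> by_cases hb : b ∈ M.support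
  · have h := imat_adj c.imat ha hb hab
    obtain ⟨n, k1, k2, k3⟩ := hub (t, none) a ha
    rw [uu_hb.2 ⟨k1, lab_sup (c.ty p (t, none)) ha⟩, uu_hb.2
      ⟨(ow_congr (ko_adj c.mat h)).symm.trans k1, lab_sup (c.ty p (t, none)) hb⟩] at hr
    exact (he a b h n k2 k3).2 hr
  · exact spoke a b ha hb hab hr
  · exact spoke b a hb ha hab.symm hr.symm
  · exact ha ⟨b, (c.gR_uu (c.isU p _)).1 ((hag _ _ ⟨(c.gG_uu (c.isU p _)).2 hab,
      fun k => ha ((uu_hub (c.isU p _)).1 k), fun k => hb ((uu_hub (c.isU p _)).1 k)⟩).1 hr)⟩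

theorem gam [Finite U] [Finite P] (hG : GlueStmt) (hLo : LocalStmt) (hL : LinkStmt)
    (hR : MRam φ (U → U → Prop) univ) :
    Gam A M I pt (gG un φ) (gR un φ) (Hub H _) (Hs H _) (Us H _) (range (xi un φ)) g where
  le := le_sup_left
  hind := by
    rintro _ ⟨n, hn, rfl⟩
    refine ⟨fun _ _ _ _ e => (hb_eq.1 e).2, fun a _ b _ =>
      ⟨?_, fun h => .inl (.inl (gH_adj hn h))⟩⟩
    rintro ((h | h) | h)
    · obtain ⟨b', e, h⟩ := gH_hb h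
      rwa [(hb_eq.1 e).2]
    · exact absurd h (c.gX_hb hn)
    · exact gU_hb hn h
  hred := by
    rintro _ ⟨n, hn, rfl⟩ a b h
    exact .inl (gH_adj hn h)
  hub := fun _ => Iff.rfl
  hcl := by
    rintro _ ⟨n, hn, rfl⟩ a y (h | h)
    · obtain ⟨b, rfl, -⟩ := gH_hb h
      exact ⟨b, rfl⟩
    · exact absurd h (c.gX_hb hn)
  uind := by
    rintro _ ⟨d, hd, rfl⟩
    exact ⟨(uu_inj hd).injOn, fun a _ b _ => c.gG_uu hd⟩
  ucol := by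
    rintro _ ⟨d, hd, rfl⟩ a b
    exact c.gR_uu hd
  uhub := by
    rintro _ ⟨d, hd, rfl⟩ a
    exact uu_hub hd
  xind := by
    rintro _ ⟨r, rfl⟩
    refine ⟨(c.xi_inj r).injOn, fun a ha b hb => ⟨?_, fun h => .inl (.inr ((c.gX_xi ha hb).2 h))⟩⟩
    rintro ((⟨-, f, hf, x, -, -, -, -, e, -⟩ | h) | ⟨hne, _, ⟨d, -, rfl⟩, x, -, y, -, -, e, e'⟩)
    · exact absurd ⟨f, hf, x, e⟩ (c.xi_nhub ha)
    · exact (c.gX_xi ha hb).1 h
    · exact absurd (c.xu r d ⟨⟨a, ha, rfl⟩, x, e⟩ ⟨⟨b, hb, rfl⟩, y, e'⟩) hne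
  xred := by
    rintro _ ⟨r, rfl⟩ a ha b hb h
    exact .inr ((c.gX_xi ha hb).2 h)
  xhub := by
    rintro _ ⟨r, rfl⟩ a ha
    exact c.xi_nhub ha
  rcov := by
    rintro _ _ (⟨-, f, hf, a, -, b, -, -, rfl, rfl⟩ | ⟨-, f, hf, a, ha, b, hb, -, rfl, rfl⟩) h
    · exact absurd ⟨f, hf, a, rfl⟩ h
    · exact ⟨f, hf, ⟨a, ha, rfl⟩, b, hb, rfl⟩
  bcov := fun x y h => by
    obtain ⟨d, a, b, hd, rfl, rfl⟩ := blue_unit h
    exact ⟨_, ⟨d, hd, rfl⟩, ⟨a, rfl⟩, b, rfl⟩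
  ram := c.ram hR
  thin := c.thin_R hG hLo hL
  xx := by
    rintro _ ⟨r, rfl⟩ _ ⟨r', rfl⟩ h
    exact c.xx fun e => h (by rw [e])
  xu := by
    rintro _ ⟨r, rfl⟩ _ ⟨d, -, rfl⟩
    exact c.xu r d
  cel := cel c.hpt
  uu := by
    rintro _ ⟨d, hd, rfl⟩ _ ⟨d', -, rfl⟩ h
    exact c.inter (fun e => h (by rw [e])) hd
  tri := c.blue_tri
  preB := fun h0 => ⟨_, _, by
    ext x y
    refine ⟨fun h => ?_, fun h => ⟨.inr (h.1.resolve_left h.2), fun k => h.2 (.inl k)⟩⟩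
    have k := h.1.resolve_left h.2
    refine ⟨.inr k, fun k' => k'.elim h.2 ?_⟩
    obtain ⟨-, _, ⟨d, -, rfl⟩, a, -, b, -, -, rfl, rfl⟩ := k
    exact c.gX_uu, c.preB hG hLo hL h0⟩

end Ctx

end GamC

open GamC in
theorem gam_stmt (hMT : MTStmt) (hL : LinkStmt) (hG : GlueStmt) (hLo : LocalStmt) : GamStmt := by
  intro U Q _ _ A M I pt g h1 h2 h3 h4
  have ok := pat_ok A M I pt
  obtain ⟨H, P, _, φ, hg, hR⟩ := hMT _ _ _ (pat A M I pt) ok.lin (U → U → Prop) (g + 1)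
  have c : Ctx I _ φ g := ⟨h1, h2, h3, h4, ok,
    { hg with thin := fun p => (hg.thin p).mono (Nat.le_succ g) },
    (hL _ _ _ _ _ _ φ _ hg).2.2 (Nat.le_add_left 1 g) ok.noTri⟩
  exact ⟨_, inferInstance, _, _, _, _, _, _, c.gam hG hLo hL hR⟩

end Pool.Agent.MP_1c0fc2_co.RE

end

section

/-! Definitions for the extension step. -/

open Function

namespace Pool.Agent.MP_1c0fc2_co.GR

variable {K : Type}

/-- disjoint union of the wagons -/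
def wagY (F : HG (id : K → K)) (r : Setoid F.E) : HG (id : K → K) where
  V := {p : Quotient r × F.V // ∃ e, Quotient.mk r e = p.1 ∧ F.On p.2 e}
  E := F.E
  vc := fun p => F.vc p.1.2
  inc := fun e k => ⟨(Quotient.mk r e, F.inc e k), e, rfl, k, rfl⟩
  inc_inj := fun e _ _ h => F.inc_inj e (congrArg (fun p => p.1.2) h)
  vc_inc := fun e k => F.vc_inc e k

/-- the template of the extended wagons -/
abbrev KK (X : HG (id : K → K)) (D : Set K) : Type := {x : X.V // X.vc x ∈ D}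

/-- classes of the template of the extended wagons -/
def clK (X : HG (id : K → K)) (D : Set K) : KK X D → K := fun x => X.vc x.1

open Classical in
/-- vertex of the extended wagon `W` at position `x` -/
noncomputable def mInc {F X : HG (id : K → K)} {r : Setoid F.E} (D : Set K)
    (L : Emb (wagY F r) X) (W : Quotient r) (x : KK X D) : F.V ⊕ Quotient r × KK X D :=
  if h : ∃ y : (wagY F r).V, y.1.1 = W ∧ L.v y = x.1 then .inl h.choose.1.2 else .inr (W, x)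

theorem mInc_eq_inl {F X : HG (id : K → K)} {r : Setoid F.E} {D : Set K}
    {L : Emb (wagY F r) X} {W : Quotient r} {x : KK X D} {v : F.V} :
    mInc D L W x = .inl v ↔ ∃ y : (wagY F r).V, y.1 = (W, v) ∧ L.v y = x.1 := by
  unfold mInc
  split_ifs with h
  · have hs := h.choose_spec
    constructor
    · intro hv
      exact ⟨h.choose, Prod.ext hs.1 (Sum.inl.inj hv), hs.2⟩
    · rintro ⟨y, hy, hL⟩
      have : h.choose = y := L.v_inj (hs.2.trans hL.symm)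
      rw [this, hy]
  · constructor
    · intro hv; cases hv
    · rintro ⟨y, hy, hL⟩
      exact absurd ⟨y, by rw [hy], hL⟩ h

theorem mInc_eq_inr {F X : HG (id : K → K)} {r : Setoid F.E} {D : Set K}
    {L : Emb (wagY F r) X} {W : Quotient r} {x : KK X D} {p : Quotient r × KK X D}
    (h : mInc D L W x = .inr p) : p = (W, x) := by
  unfold mInc at h
  split_ifs at h
  exact (Sum.inr.inj h).symm

/-- the hypergraph of extended wagons, one component for every copy `L l` -/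
noncomputable def mst {F X : HG (id : K → K)} {r : Setoid F.E} (D : Set K) {Λ : Type} [Finite Λ]
    (L : Λ → Emb (wagY F r) X) : HG (clK X D) where
  V := Λ × (F.V ⊕ Quotient r × KK X D)
  E := Λ × Quotient r
  vc := fun p => Sum.elim F.vc (fun z => clK X D z.2) p.2
  inc := fun W x => (W.1, mInc D (L W.1) W.2 x)
  inc_inj := by
    intro W x x' h
    have h2 : mInc D (L W.1) W.2 x = mInc D (L W.1) W.2 x' := congrArg Prod.snd h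
    rcases hx : mInc D (L W.1) W.2 x with v | p
    · obtain ⟨y, hy, hL⟩ := mInc_eq_inl.1 hx
      obtain ⟨y', hy', hL'⟩ := mInc_eq_inl.1 (h2.symm.trans hx)
      have : y = y' := Subtype.ext (hy.trans hy'.symm)
      subst this
      exact Subtype.ext (hL.symm.trans hL')
    · have a := mInc_eq_inr hx
      have b := mInc_eq_inr (h2.symm.trans hx)
      exact (Prod.mk.inj (a.symm.trans b)).2
  vc_inc := by
    intro W x
    rcases hx : mInc D (L W.1) W.2 x with v | p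
    · obtain ⟨y, hy, hL⟩ := mInc_eq_inl.1 hx
      have h1 := (L W.1).vc_v y
      simp only [Sum.elim_inl, clK]
      rw [← hL, h1]
      show F.vc v = F.vc y.1.2
      rw [hy]
    · rw [mInc_eq_inr hx]; rfl

/-- wagons of the hypergraph of extended wagons -/
def mstS {F : HG (id : K → K)} (s : ℕ → Setoid F.E) (Λ : Type) (m ν : ℕ) :
    Setoid (Λ × Quotient (s 1)) where
  r := fun a b => m ≤ ν ∨ (a.1 = b.1 ∧ s (ν + 1) a.2.out b.2.out)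
  iseqv := ⟨fun _ => Or.inr ⟨rfl, (s (ν + 1)).refl _⟩,
    fun h => h.imp id fun h => ⟨h.1.symm, (s (ν + 1)).symm h.2⟩,
    fun h h' => h.elim Or.inl fun h => h'.imp id fun h' =>
      ⟨h.1.trans h'.1, (s (ν + 1)).trans h.2 h'.2⟩⟩

open Classical in
/-- substitute `X` into every edge of `N` -/
noncomputable def subst (X : HG (id : K → K)) (D : Set K) (N : HG (clK X D)) :
    HG (id : K → K) where
  V := N.V ⊕ N.E × {x : X.V // X.vc x ∉ D}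
  E := N.E × X.E
  vc := Sum.elim N.vc (fun z => X.vc z.2.1)
  inc := fun a k => if h : X.vc (X.inc a.2 k) ∈ D then .inl (N.inc a.1 ⟨_, h⟩)
    else .inr (a.1, ⟨_, h⟩)
  inc_inj := by
    intro a k k' h
    simp only at h
    split_ifs at h with h1 h2 h2
    · exact X.inc_inj _ (congrArg Subtype.val (N.inc_inj _ (Sum.inl.inj h)))
    · exact X.inc_inj _ (congrArg Subtype.val (Prod.mk.inj (Sum.inr.inj h)).2)
  vc_inc := by
    intro a k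
    split_ifs with h
    · exact (N.vc_inc _ _).trans (X.vc_inc _ _)
    · exact X.vc_inc _ _

/-- wagons after substitution -/
def substS {A B : Type} (u : ℕ → Setoid A) : ℕ → Setoid (A × B)
  | 0 => ⊥
  | μ + 1 => (u μ).comap Prod.fst

end Pool.Agent.MP_1c0fc2_co.GR

end

section

open Function

namespace Pool.Agent.MP_1c0fc2_co.GR

theorem xordk_rank {V L : Type} [Finite V] [Preorder L] (f : V → L) :
    ∃ ρ : V → ℕ, ∀ u v, f u < f v → ρ u < ρ v :=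
  ⟨fun v => {u | f u < f v}.ncard, fun u _ h => Set.ncard_lt_ncard
    ⟨fun _ hw => lt_trans hw h, fun h' => lt_irrefl (f u) (h' h)⟩⟩

theorem ord_of_key {K I : Type} [Finite K] [LinearOrder K] {cl : K → I} (M : HG cl) {R : Type}
    [LinearOrder R] (κ : K → R) (hκ : Monotone κ) (sh : M.V → Prop) (κV : M.V → R)
    (h1 : ∀ e x, sh (M.inc e x) → κV (M.inc e x) = κ x)
    (h2 : ∀ e x y, sh (M.inc e x) → sh (M.inc e y) → κ x = κ y → x = y)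
    (h3 : ∀ e e' x x', ¬ sh (M.inc e x) → M.inc e x = M.inc e' x' → e = e') : M.Ord := by
  classical
  obtain ⟨tb, htb⟩ := xordk_rank (id : K → K)
  let off : M.E → R → ℤ := fun e r =>
    if h : ∃ x, sh (M.inc e x) ∧ κ x = r then tb h.choose else 0
  have hoff : ∀ e x, sh (M.inc e x) → off e (κ x) = tb x := fun e x h => by
    have h4 : ∃ y, sh (M.inc e y) ∧ κ y = κ x := ⟨x, h, rfl⟩
    simp only [off, dif_pos h4, h2 e _ x h4.choose_spec.1 h h4.choose_spec.2]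
  let g : M.E × K → WithBot (R ×ₗ ℤ) := fun p =>
    WithBot.some (toLex (κ p.2, tb p.2 - off p.1 (κ p.2)))
  have hg : g.FactorsThrough fun p => M.inc p.1 p.2 := by
    rintro ⟨e, x⟩ ⟨e', x'⟩ (h : M.inc e x = M.inc e' x')
    by_cases hs : sh (M.inc e x)
    · have hs' := h ▸ hs
      simp only [g, hoff e x hs, hoff e' x' hs', sub_self]
      rw [← h1 e x hs, ← h1 e' x' hs', h]
    · obtain rfl := h3 e e' x x' hs h
      rw [M.inc_inj e h]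
  obtain ⟨ρ, hρ⟩ := xordk_rank (extend (fun p : M.E × K => M.inc p.1 p.2) g ⊥)
  refine ⟨ρ, fun e x y hxy => hρ _ _ ?_⟩
  rw [hg.extend_apply _ (e, x), hg.extend_apply _ (e, y)]
  refine WithBot.coe_lt_coe.2 (Prod.Lex.toLex_lt_toLex.2 ((hκ hxy.le).lt_or_eq.imp_right
    fun h => ⟨h, ?_⟩))
  have := htb x y hxy
  simp only [show κ x = κ y from h]
  omega

theorem exists_order_mono (K : Type) [Finite K] {R : Type} [LinearOrder R] (κ : K → R) :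
    ∃ o : LinearOrder K, @Monotone K R o.toPartialOrder.toPreorder _ κ :=
  ⟨LinearOrder.lift' (fun x => toLex (κ x, Finite.equivFin K x)) fun _ _ h =>
    (Finite.equivFin K).injective (congrArg Prod.snd (toLex.injective h)),
    fun _ _ h => (Prod.Lex.toLex_le_toLex.1 h).elim le_of_lt fun h => h.1.le⟩

end Pool.Agent.MP_1c0fc2_co.GR

end

section

open Function

namespace Pool.Agent.MP_1c0fc2_co.GR

variable {K : Type} {F X : HG (id : K → K)}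

theorem wagY_lin (r : Setoid F.E) (h : F.Lin) : (wagY F r).Lin := by
  rintro e e' u v huv ⟨k, hk⟩ ⟨j, hj⟩ ⟨k', hk'⟩ ⟨j', hj'⟩
  have a1 : Quotient.mk r e = u.1.1 := congrArg (fun p => p.1.1) hk
  have a2 : Quotient.mk r e = v.1.1 := congrArg (fun p => p.1.1) hj
  refine h e e' u.1.2 v.1.2 (fun h0 => huv (Subtype.ext (Prod.ext (a1.symm.trans a2) h0)))
    ⟨k, congrArg (fun p => p.1.2) hk⟩ ⟨j, congrArg (fun p => p.1.2) hj⟩
    ⟨k', congrArg (fun p => p.1.2) hk'⟩ ⟨j', congrArg (fun p => p.1.2) hj'⟩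

theorem wagY_noIso (r : Setoid F.E) : (wagY F r).NoIso := by
  rintro ⟨⟨W, a⟩, e, he, k, hk⟩
  exact ⟨e, k, Subtype.ext (Prod.ext he hk)⟩

theorem wagY_share {s : ℕ → Setoid F.E} {A : ℕ → Set K} {m : ℕ} (h : IsTrain F s A m)
    {f f' : F.E} {k : K} (hf : f ≠ f') (hk : (wagY F (s 1)).inc f k = (wagY F (s 1)).inc f' k) :
    k ∈ A 0 := by
  have a1 : Quotient.mk (s 1) f = Quotient.mk (s 1) f' := congrArg (fun p => p.1.1) hk
  have a2 : F.inc f k = F.inc f' k := congrArg (fun p => p.1.2) hk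
  have := h.cond 0 f f' (F.inc f k) ⟨k, rfl⟩ ⟨k, a2.symm⟩ (fun h0 => hf (h.zero _ _ h0))
    (Quotient.exact a1)
  rwa [F.vc_inc] at this

theorem mst_ord [LinearOrder K] {r : Setoid F.E} (D : Set K) {Λ : Type} [Finite Λ]
    (L : Λ → Emb (wagY F r) X) (rk : F.V → ℕ) (hrk : Injective rk) (key : X.V → ℕ)
    (hkey : ∀ l, ∃ (c₀ : ℕ) (c : K → ℕ), 0 < c₀ ∧
      ∀ y : (wagY F r).V, key ((L l).v y) = c₀ * rk y.1.2 + c ((wagY F r).vc y)) :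
    ∃ o : LinearOrder (KK X D), @HG.Ord _ _ _ o (mst D L) := by
  choose c₀ c hc₀ hc using hkey
  let κ : KK X D → K ×ₗ ℕ := fun x => toLex (X.vc x.1, key x.1)
  obtain ⟨o, ho⟩ := exists_order_mono (KK X D) κ
  refine ⟨o, ?_⟩
  let κV : (mst D L).V → K ×ₗ ℕ := fun p =>
    Sum.elim (fun v => toLex (F.vc v, c₀ p.1 * rk v + c p.1 (F.vc v))) (fun z => κ z.2) p.2
  have key1 : ∀ l W (x : KK X D) v, mInc D (L l) W x = .inl v →
      κ x = toLex (F.vc v, c₀ l * rk v + c l (F.vc v)) := by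
    intro l W x v hv
    obtain ⟨y, hy, hL⟩ := mInc_eq_inl.1 hv
    have h1 : (wagY F r).vc y = F.vc v := by
      show F.vc y.1.2 = F.vc v
      rw [hy]
    show toLex (X.vc x.1, key x.1) = _
    rw [← hL, (L l).vc_v, hc, h1, hy]
  refine ord_of_key (mst D L) κ ho (fun p => ∃ v, p.2 = .inl v) κV ?_ ?_ ?_
  · rintro ⟨l, W⟩ x ⟨v, hv⟩
    have hv' : mInc D (L l) W x = .inl v := hv
    show Sum.elim _ _ (mInc D (L l) W x) = _
    rw [hv', key1 l W x v hv']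
    rfl
  · rintro ⟨l, W⟩ x x' ⟨v, hv⟩ ⟨v', hv'⟩ hκ
    have h1 : mInc D (L l) W x = .inl v := hv
    have h2 : mInc D (L l) W x' = .inl v' := hv'
    rw [key1 l W x v h1, key1 l W x' v' h2] at hκ
    obtain ⟨e1, e2⟩ := Prod.mk.inj (toLex.injective hκ)
    rw [e1] at e2
    have e3 : v = v' := hrk (Nat.eq_of_mul_eq_mul_left (hc₀ l) (Nat.add_right_cancel e2))
    refine (mst D L).inc_inj (l, W) (Prod.ext rfl ?_)
    show mInc D (L l) W x = mInc D (L l) W x'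
    rw [h1, h2, e3]
  · rintro ⟨l, W⟩ ⟨l', W'⟩ x x' hn he
    have e1 : l = l' := congrArg Prod.fst he
    subst e1
    have e2 : mInc D (L l) W x = mInc D (L l) W' x' := congrArg Prod.snd he
    rcases hx : mInc D (L l) W x with v | p
    · exact absurd ⟨v, hx⟩ hn
    · have a := mInc_eq_inr hx
      have b := mInc_eq_inr (e2.symm.trans hx)
      exact Prod.ext rfl (Prod.mk.inj (a.symm.trans b)).1

theorem mst_train {s : ℕ → Setoid F.E} {A : ℕ → Set K} {m : ℕ} (h : IsTrain F s A (m + 1))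
    (hm : 1 ≤ m) (D : Set K) {Λ : Type} [Finite Λ] (L : Λ → Emb (wagY F (s 1)) X) :
    IsTrain (mst D L) (mstS s Λ m) (fun ν => A (ν + 1)) m := by
  refine ⟨?_, ?_, fun μ hμ _ _ => Or.inl hμ, ?_⟩
  · rintro ⟨l, W⟩ ⟨l', W'⟩ (h0 | ⟨h1, h2⟩)
    · omega
    · exact Prod.ext h1 (Quotient.out_equiv_out.1 h2)
  · rintro μ e e' (h0 | ⟨h1, h2⟩)
    · exact Or.inl (by omega)
    · exact Or.inr ⟨h1, h.mono _ _ _ h2⟩
  · rintro μ ⟨l, W⟩ ⟨l', W'⟩ v ⟨x, rfl⟩ ⟨x', he⟩ hn hp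
    have e1 : l' = l := congrArg Prod.fst he
    subst e1
    have e2 : mInc D (L l') W' x' = mInc D (L l') W x := congrArg Prod.snd he
    have hn' : ¬ s (μ + 1) W.out W'.out := fun h0 => hn (Or.inr ⟨rfl, h0⟩)
    show Sum.elim F.vc (fun z => clK X D z.2) (mInc D (L l') W x) ∈ A (μ + 1)
    rcases hx : mInc D (L l') W x with a | p
    · obtain ⟨⟨_, f, hf, hfa⟩, rfl, -⟩ := mInc_eq_inl.1 hx
      obtain ⟨⟨_, f', hf', hfa'⟩, rfl, -⟩ := mInc_eq_inl.1 (e2.trans hx)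
      have o1 : s 1 f W.out := Quotient.exact (hf.trans W.out_eq.symm)
      have o2 : s 1 f' W'.out := Quotient.exact (hf'.trans W'.out_eq.symm)
      refine h.cond (μ + 1) f f' a hfa hfa' (fun h0 => hn' ?_) ?_
      · exact (s (μ + 1)).trans ((s (μ + 1)).symm (h.le (by omega) o1))
          ((s (μ + 1)).trans h0 (h.le (by omega) o2))
      · rcases hp with h0 | ⟨-, h2⟩
        · exact h.top _ (by omega) _ _
        · exact (s (μ + 1 + 1)).trans (h.le (by omega) o1)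
            ((s (μ + 1 + 1)).trans h2 ((s (μ + 1 + 1)).symm (h.le (by omega) o2)))
    · have a := mInc_eq_inr hx
      have b := mInc_eq_inr (e2.trans hx)
      have e3 : W = W' := (Prod.mk.inj (a.symm.trans b)).1
      subst e3
      exact absurd ((s (μ + 1)).refl _) hn'

end Pool.Agent.MP_1c0fc2_co.GR

end

section

open Function

namespace Pool.Agent.MP_1c0fc2_co.GR

variable {K : Type} {F X : HG (id : K → K)} {s : ℕ → Setoid F.E} {A : ℕ → Set K} {m : ℕ}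

theorem xextb_rel (h : IsTrain F s A (m + 1)) {Λ : Type} {ν : ℕ} (hν : ν < m) {l l' : Λ}
    {f f' : F.E} : mstS s Λ m ν (l, Quotient.mk _ f) (l', Quotient.mk _ f') ↔
      l = l' ∧ s (ν + 1) f f' := by
  have a : ∀ e : F.E, s (ν + 1) (Quotient.mk (s 1) e).out e := fun e =>
    h.le (Nat.le_add_left 1 ν) (Quotient.exact (Quotient.out_eq (Quotient.mk (s 1) e)))
  constructor
  · rintro (h1 | ⟨h1, h2⟩)
    · omega
    · exact ⟨h1, (s (ν + 1)).trans ((s (ν + 1)).symm (a f)) ((s (ν + 1)).trans h2 (a f'))⟩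
  · rintro ⟨h1, h2⟩
    exact Or.inr ⟨h1, (s (ν + 1)).trans (a f) ((s (ν + 1)).trans h2 ((s (ν + 1)).symm (a f')))⟩

theorem xextb_fst {r : Setoid F.E} {D : Set K} {Λ : Type} [Finite Λ] {L : Λ → Emb (wagY F r) X}
    {v : (mst D L).V} {e : (mst D L).E} (h : (mst D L).On v e) : v.1 = e.1 := by
  obtain ⟨k, rfl⟩ := h
  rfl

theorem xextb_inl {r : Setoid F.E} {D : Set K} {Λ : Type} [Finite Λ] {L : Λ → Emb (wagY F r) X}
    {l : Λ} {v : F.V} {e : (mst D L).E} (h : (mst D L).On (l, Sum.inl v) e) :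
    ∃ f, e = (l, Quotient.mk r f) ∧ F.On v f := by
  have h1 := xextb_fst h
  obtain ⟨k, hk⟩ := h
  obtain ⟨⟨y, f, h2, h3⟩, rfl, -⟩ := mInc_eq_inl.1 (congrArg Prod.snd hk)
  exact ⟨f, Prod.ext h1.symm h2.symm, h3⟩

theorem xextb_on {r : Setoid F.E} {D : Set K} {Λ : Type} [Finite Λ] (L : Λ → Emb (wagY F r) X)
    (l : Λ) {v : F.V} {f : F.E} (hv : F.vc v ∈ D) (h : F.On v f) :
    (mst D L).On (l, Sum.inl v) (l, Quotient.mk r f) := by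
  let y : (wagY F r).V := ⟨(Quotient.mk r f, v), f, rfl, h⟩
  exact ⟨⟨(L l).v y, by rw [(L l).vc_v]; exact hv⟩, Prod.ext rfl (mInc_eq_inl.2 ⟨y, rfl, rfl⟩)⟩

theorem xextb_inr {r : Setoid F.E} {D : Set K} {Λ : Type} [Finite Λ] {L : Λ → Emb (wagY F r) X}
    {l : Λ} {p : Quotient r × KK X D} {e : (mst D L).E} (h : (mst D L).On (l, Sum.inr p) e) :
    e = (l, p.1) := by
  have h1 := xextb_fst h
  obtain ⟨k, hk⟩ := h
  have h2 := mInc_eq_inr (congrArg Prod.snd hk)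
  exact Prod.ext h1.symm (congrArg Prod.fst h2).symm

/-- the copy of the wagon geometry in one component -/
noncomputable def xextb_hom (h : IsTrain F s A (m + 1)) {D D' : Set K} (hD : D' ⊆ D) {Λ : Type}
    [Finite Λ] (L : Λ → Emb (wagY F (s 1)) X) {ν : ℕ} (hν : ν < m) (l : Λ) :
    GHom (hg F (s (ν + 1)) D') (hg (mst D L) (mstS s Λ m ν) D') where
  v := fun v => ⟨(l, Sum.inl v.1), v.2⟩
  c := Quotient.map (fun f => (l, Quotient.mk _ f)) fun _ _ hab => (xextb_rel h hν).2 ⟨rfl, hab⟩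
  v_inj := fun _ _ e => Subtype.ext (Sum.inl.inj (congrArg (fun z => z.1.2) e))
  c_inj := by
    intro a b
    induction a using Quotient.inductionOn
    induction b using Quotient.inductionOn
    intro e
    exact Quotient.sound ((xextb_rel h hν).1 (Quotient.exact e)).2
  map := by
    rintro x _ ⟨f, rfl, hf⟩
    exact ⟨(l, Quotient.mk _ f), rfl, xextb_on L l (hD x.2) hf⟩

theorem mst_good (h : IsTrain F s A (m + 1)) {D D' : Set K} (hD : D' ⊆ D) {Λ : Type} [Finite Λ]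
    (L : Λ → Emb (wagY F (s 1)) X) {ν : ℕ} (hν : ν < m) (b3 : (hg F (s (ν + 1)) D').B3) :
    ∃ θ : Λ → GHom (hg F (s (ν + 1)) D') (hg (mst D L) (mstS s Λ m ν) D'),
      (∀ l v, ((θ l).v v).1 = (l, Sum.inl v.1)) ∧
      (∀ l f, (θ l).c (Quotient.mk _ f) = Quotient.mk (mstS s Λ m ν) (l, Quotient.mk _ f)) ∧
      Basic θ ∧ ∀ w n, AC θ w n := by
  refine ⟨xextb_hom h hD L hν, fun _ _ => rfl, fun _ _ => rfl, ?_⟩
  refine disj (xextb_hom h hD L hν) (Sum.elim (fun p => p.1.1) (Quotient.lift Prod.fst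
    fun a b hab => (hab.resolve_left (by omega)).1)) ?_ ?_ ?_ ?_ ?_ b3
  · rintro v _ ⟨e, rfl, he⟩
    exact xextb_fst he
  · rintro l (x | c)
    · rfl
    · induction c using Quotient.inductionOn
      rfl
  · intro l x y
    induction y using Quotient.inductionOn with
    | h f =>
      rintro ⟨e, h1, h2⟩
      obtain ⟨f', rfl, h3⟩ := xextb_inl h2
      exact ⟨f', Quotient.sound ((xextb_rel h hν).1 (Quotient.exact h1)).2, h3⟩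
  · intro c
    induction c using Quotient.inductionOn with
    | h e =>
      obtain ⟨l, W⟩ := e
      induction W using Quotient.inductionOn with
      | h f => exact ⟨Sum.inr (Quotient.mk _ f), rfl⟩
  · rintro ⟨⟨l, u | p⟩, hu⟩
    · exact Or.inl ⟨Sum.inl ⟨u, hu⟩, rfl⟩
    · refine Or.inr ?_
      rintro _ _ ⟨e, rfl, he⟩ ⟨e', rfl, he'⟩
      rw [xextb_inr he, xextb_inr he']

theorem mst_dom {γ : ℕ → ℕ} {g : ℕ} (h : Dom F s A (m + 1) (rep 1 g γ)) (hm : 1 ≤ m)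
    (hγ : ∀ μ, 2 ≤ γ μ) {Λ : Type} [Finite Λ] (L : Λ → Emb (wagY F (s 1)) X) :
    Dom (mst (Hi A (m + 1) 1) L) (mstS s Λ m) (fun ν => A (ν + 1)) m γ := by
  have tr := mst_train h.tr hm (Hi A (m + 1) 1) L
  have key : ∀ ν, ν < m → (wg (mst (Hi A (m + 1) 1) L) (mstS s Λ m ν)).Gir (γ ν) := by
    intro ν hν
    have h1 := h.gir (ν + 1) (by omega) (by omega)
    rw [show rep 1 g γ (ν + 1) = γ ν by simp [rep]] at h1
    have h2 := gir_hg_of_wg h1 (Hi A (m + 1) (ν + 1))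
    obtain ⟨θ, -, -, hb, hc⟩ := mst_good h.tr (hi_anti A (m + 1) (Nat.le_add_left 1 ν)) L hν
      (gir_two.1 (h2.mono (hγ ν)))
    refine tr.gir_wg ?_
    rw [hi_shift]
    exact host_gir hb (hc _ _) le_rfl le_rfl h2
  exact ⟨tr, (lin_iff_gir tr.zero).2 ((key 0 hm).mono (hγ 0)), fun μ _ hμ => key μ hμ⟩

end Pool.Agent.MP_1c0fc2_co.GR

end

section

open Function

namespace Pool.Agent.MP_1c0fc2_co.GR

variable {K : Type} {F X : HG (id : K → K)} {D : Set K} {N : HG (clK X D)}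

theorem xextc_pos (ε : N.E) (a : X.E) {k : K} (h : X.vc (X.inc a k) ∈ D) :
    (subst X D N).inc (ε, a) k = Sum.inl (N.inc ε ⟨X.inc a k, h⟩) := dif_pos h

theorem xextc_neg (ε : N.E) (a : X.E) {k : K} (h : X.vc (X.inc a k) ∉ D) :
    (subst X D N).inc (ε, a) k = Sum.inr (ε, ⟨X.inc a k, h⟩) := dif_neg h

theorem xextc_inl {ε : N.E} {a : X.E} {k : K} {w : N.V}
    (h : (subst X D N).inc (ε, a) k = Sum.inl w) : ∃ h, N.inc ε ⟨X.inc a k, h⟩ = w := by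
  by_cases h' : X.vc (X.inc a k) ∈ D
  · exact ⟨h', Sum.inl.inj ((xextc_pos ε a h').symm.trans h)⟩
  · cases (xextc_neg ε a h').symm.trans h

theorem xextc_inr {ε : N.E} {a : X.E} {k : K} {p : N.E × {x : X.V // X.vc x ∉ D}}
    (h : (subst X D N).inc (ε, a) k = Sum.inr p) : p.1 = ε ∧ p.2.1 = X.inc a k := by
  by_cases h' : X.vc (X.inc a k) ∈ D
  · cases (xextc_pos ε a h').symm.trans h
  · cases (xextc_neg ε a h').symm.trans h
    exact ⟨rfl, rfl⟩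

theorem xextc_k (G : HG (id : K → K)) {e e' : G.E} {k k' : K} (h : G.inc e k = G.inc e' k') :
    k = k' := (G.vc_inc e k).symm.trans ((congrArg G.vc h).trans (G.vc_inc e' k'))

theorem xextc_same {ε : N.E} {a a' : X.E} {k k' : K}
    (h : (subst X D N).inc (ε, a) k = (subst X D N).inc (ε, a') k') : X.inc a k = X.inc a' k' := by
  rcases hv : (subst X D N).inc (ε, a') k' with w | p
  · obtain ⟨_, h1⟩ := xextc_inl (h.trans hv)
    obtain ⟨_, h2⟩ := xextc_inl hv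
    exact congrArg Subtype.val (N.inc_inj ε (h1.trans h2.symm))
  · exact (xextc_inr (h.trans hv)).2.symm.trans (xextc_inr hv).2

theorem xextc_on {ε : N.E} {a : X.E} {w : N.V} (h : (subst X D N).On (Sum.inl w) (ε, a)) :
    N.On w ε :=
  let ⟨_, hk⟩ := h
  let ⟨_, h1⟩ := xextc_inl hk
  ⟨_, h1⟩

theorem xextc_on' {ε : N.E} {a : X.E} {p : N.E × {x : X.V // X.vc x ∉ D}}
    (h : (subst X D N).On (Sum.inr p) (ε, a)) : p.1 = ε :=
  let ⟨_, hk⟩ := h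
  (xextc_inr hk).1

theorem subst_train {u : ℕ → Setoid N.E} {A : ℕ → Set K} {m : ℕ}
    (hN : IsTrain N u (fun ν => A (ν + 1)) m)
    (hX : ∀ a a' k, a ≠ a' → X.inc a k = X.inc a' k → k ∈ A 0) :
    IsTrain (subst X D N) (substS u) A (m + 1) where
  zero _ _ h := h
  mono μ e e' h := by
    cases μ with
    | zero =>
      obtain rfl : e = e' := h
      exact Setoid.refl' _ _
    | succ μ => exact hN.mono μ _ _ h
  top μ hμ e e' := by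
    cases μ with
    | zero => omega
    | succ μ => exact hN.top μ (by omega) _ _
  cond := by
    rintro μ ⟨ε, a⟩ ⟨ε', a'⟩ v h h' hn hs
    cases μ with
    | zero =>
      obtain rfl : ε = ε' := hN.zero _ _ hs
      obtain ⟨k, rfl⟩ := h
      obtain ⟨k', hk⟩ := h'
      obtain rfl := xextc_k _ hk
      rw [(subst X D N).vc_inc]
      exact hX a a' k' (fun e => hn (by rw [e])) (xextc_same hk).symm
    | succ μ =>
      rcases v with w | p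
      · exact hN.cond μ ε ε' w (xextc_on h) (xextc_on h') hn hs
      · obtain rfl : ε = ε' := (xextc_on' h).symm.trans (xextc_on' h')
        exact absurd ((u μ).refl' ε) hn

theorem subst_lin (hN : N.Lin) (hX : X.Lin) : (subst X D N).Lin := by
  rintro ⟨ε, a⟩ ⟨ε', a'⟩ x y hxy h1 h2 h3 h4
  obtain rfl : ε = ε' := by
    rcases x with w | p
    · rcases y with w' | p'
      · exact hN ε ε' w w' (fun e => hxy (congrArg Sum.inl e)) (xextc_on h1) (xextc_on h2)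
          (xextc_on h3) (xextc_on h4)
      · exact (xextc_on' h2).symm.trans (xextc_on' h4)
    · exact (xextc_on' h1).symm.trans (xextc_on' h3)
  obtain ⟨k, rfl⟩ := h1
  obtain ⟨k', rfl⟩ := h2
  obtain ⟨l, hl⟩ := h3
  obtain ⟨l', hl'⟩ := h4
  obtain rfl : a = a' := hX a a' (X.inc a k) (X.inc a k')
    (fun e => hxy (by rw [X.inc_inj a e])) ⟨k, rfl⟩ ⟨k', rfl⟩ ⟨l, xextc_same hl⟩
    ⟨l', xextc_same hl'⟩
  rfl

theorem subst_j (hX : X.NoIso) [Nonempty X.E] (u : ℕ → Setoid N.E) (ν : ℕ) {D' : Set K}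
    (hD : D' ⊆ D) :
    ∃ j : GHom (hg N (u ν) D') (hg (subst X D N) (substS u (ν + 1)) D'),
      (∀ v, (j.v v).1 = Sum.inl v.1) ∧
      (∀ ε a, j.c (Quotient.mk _ ε) = Quotient.mk (substS u (ν + 1)) (ε, a)) ∧
      (∀ z, j.Bag z) ∧ j.Ind := by
  obtain ⟨a₀⟩ := ‹Nonempty X.E›
  refine ⟨⟨fun v => ⟨Sum.inl v.1, v.2⟩, Quotient.map (fun ε => (ε, a₀)) (fun _ _ h => h),
    fun _ _ h => Subtype.ext (Sum.inl.inj (congrArg Subtype.val h)), ?_, ?_⟩,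
    fun _ => rfl, fun ε a => Quotient.sound ((u ν).refl' ε), ?_, ?_⟩
  · intro a b
    induction a using Quotient.inductionOn
    induction b using Quotient.inductionOn
    intro h
    exact Quotient.sound (Quotient.exact h :)
  · rintro x _ ⟨ε, rfl, ⟨y, hy⟩, h⟩
    obtain ⟨a, k, rfl⟩ := hX y
    exact ⟨(ε, a), Quotient.sound ((u ν).refl' ε), k,
      (xextc_pos ε a hy).trans (congrArg Sum.inl h)⟩
  · rintro (⟨w | p, hv⟩ | c)
    · exact ⟨Sum.inl ⟨w, hv⟩, rfl⟩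
    · exact absurd (hD hv) p.2.2
    · induction c using Quotient.inductionOn with
      | _ c => exact ⟨Sum.inr (Quotient.mk _ c.1),
          congrArg Sum.inr (Quotient.sound ((u ν).refl' c.1))⟩
  · rintro x y ⟨⟨ε, a⟩, h, h'⟩
    induction y using Quotient.inductionOn with
    | _ y => exact ⟨ε, Quotient.sound (Quotient.exact h :), xextc_on h'⟩

theorem subst_emb {r : Setoid F.E} (hF : F.NoIso)
    (hlow : ∀ v e e', F.vc v ∉ D → F.On v e → F.On v e' → r e e') {Λ : Type} [Finite Λ]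
    (L : Λ → Emb (wagY F r) X) (p : Emb (mst D L) N) (l : Λ) :
    ∃ φ : Emb F (subst X D N), (∀ f, φ.e f = (p.e (l, Quotient.mk r f), (L l).e f)) ∧
      ∀ v, F.vc v ∈ D → φ.v v = Sum.inl (p.v (l, Sum.inl v)) := by
  classical
  choose g hg using hF
  let y : F.V → (wagY F r).V := fun v => ⟨(Quotient.mk r (g v), v), g v, rfl, hg v⟩
  have hy : ∀ v, X.vc ((L l).v (y v)) = F.vc v := fun v => (L l).vc_v (y v)
  let φv : F.V → (subst X D N).V := fun v =>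
    if h : F.vc v ∈ D then Sum.inl (p.v (l, Sum.inl v))
    else Sum.inr (p.e (l, Quotient.mk r (g v)), ⟨(L l).v (y v), by rwa [hy]⟩)
  have h1 : ∀ v, F.vc v ∈ D → φv v = Sum.inl (p.v (l, Sum.inl v)) := fun v h => dif_pos h
  have h2 : ∀ v (h : F.vc v ∉ D), φv v =
      Sum.inr (p.e (l, Quotient.mk r (g v)), ⟨(L l).v (y v), by rwa [hy]⟩) := fun v h => dif_neg h
  refine ⟨⟨⟨φv, fun f => (p.e (l, Quotient.mk r f), (L l).e f), fun v => ?_, fun f k => ?_⟩,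
    fun v v' h => ?_, fun f f' h => (L l).e_inj (congrArg Prod.snd h)⟩, fun _ => rfl, h1⟩
  · by_cases h : F.vc v ∈ D
    · rw [h1 v h]
      exact p.vc_v (l, Sum.inl v)
    · rw [h2 v h]
      exact hy v
  · have e1 : X.vc (X.inc ((L l).e f) k) = F.vc (F.inc f k) :=
      (X.vc_inc _ k).trans (F.vc_inc f k).symm
    by_cases h : F.vc (F.inc f k) ∈ D
    · have h' : X.vc (X.inc ((L l).e f) k) ∈ D := by rwa [e1]
      rw [h1 _ h]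
      refine (xextc_pos _ _ h').trans (congrArg Sum.inl ((p.inc_e _ _).trans (congrArg p.v ?_)))
      exact Prod.ext rfl (mInc_eq_inl.2 ⟨(wagY F r).inc f k, rfl, ((L l).inc_e f k).symm⟩)
    · have h' : X.vc (X.inc ((L l).e f) k) ∉ D := by rwa [e1]
      have e2 : Quotient.mk r f = Quotient.mk r (g (F.inc f k)) :=
        Quotient.sound (hlow _ _ _ h ⟨k, rfl⟩ (hg _))
      rw [h2 _ h]
      refine (xextc_neg _ _ h').trans (congrArg Sum.inr (Prod.ext ?_ (Subtype.ext ?_)))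
      · exact congrArg (fun W => p.e (l, W)) e2
      · exact ((L l).inc_e f k).trans (congrArg (L l).v (Subtype.ext (Prod.ext e2 rfl)))
  · change φv v = φv v' at h
    by_cases hv : F.vc v ∈ D <;> by_cases hv' : F.vc v' ∈ D
    · rw [h1 v hv, h1 v' hv'] at h
      exact Sum.inl.inj (congrArg Prod.snd (p.v_inj (Sum.inl.inj h)))
    · rw [h1 v hv, h2 v' hv'] at h
      cases h
    · rw [h2 v hv, h1 v' hv'] at h
      cases h
    · rw [h2 v hv, h2 v' hv'] at h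
      exact congrArg (fun z => z.1.2)
        ((L l).v_inj (congrArg (fun z => z.2.1) (Sum.inr.inj h)))

end Pool.Agent.MP_1c0fc2_co.GR

end

section

/-! Isolating edges when the `T`-sets have at least four vertices. -/

open Function Set Relation

namespace Pool.Agent.MP_1c0fc2_co.RE

section IE4
variable {V W : Type}

/-- the vertices that lie in exactly one member -/
def xie4_Free (𝒯 : Set (Set V)) : Set V := {y | ∃ S ∈ 𝒯, y ∈ S ∧ ∀ S' ∈ 𝒯, y ∈ S' → S' = S}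

/-- the edges inside members -/
def xie4_G (J : SimpleGraph V) (𝒯 : Set (Set V)) : SimpleGraph V where
  Adj x y := J.Adj x y ∧ ∃ S ∈ 𝒯, x ∈ S ∧ y ∈ S
  symm := ⟨fun _ _ ⟨h, S, h1, h2, h3⟩ => ⟨h.symm, S, h1, h3, h2⟩⟩
  loopless := ⟨fun _ h => h.1.ne rfl⟩

/-- a group `G` attached through `a` and `b` -/
def xie4_Split (𝒯 : Set (Set V)) : Prop :=
  ∃ (G : Set V) (a b : V), (∀ S ∈ 𝒯, (S ∩ G).Nonempty → S ⊆ G ∪ {a, b}) ∧
    (∃ S ∈ 𝒯, (S ∩ G).Nonempty) ∧ ∃ S ∈ 𝒯, ¬ (S ∩ G).Nonempty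

theorem xie4_cut {Y : SimpleGraph V} {𝒯 : Set (Set V)} (h2 : ∀ S ∈ 𝒯, TwoConn Y S) {v : V}
    (h : ¬ ConnOn Y.Adj (⋃₀ 𝒯 \ {v})) : xie4_Split 𝒯 := by
  obtain ⟨a, ha, b, hb, hab⟩ := not_connOn h
  have key : ∀ S ∈ 𝒯, (S ∩ comp Y.Adj (⋃₀ 𝒯 \ {v}) a).Nonempty →
      S ⊆ comp Y.Adj (⋃₀ 𝒯 \ {v}) a ∪ {v, v} := by
    rintro S hS ⟨x, hx, hx'⟩ y hy
    by_cases e : y = v
    · exact .inr (.inl e)
    · refine .inl (((h2 S hS).2 v).sub_comp (b := x) ?_ ⟨hx, (comp_sub hx').2⟩ hx' ⟨hy, e⟩)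
      exact fun z hz => ⟨⟨S, hS, hz.1⟩, hz.2⟩
  refine ⟨_, v, v, key, ?_, ?_⟩
  · obtain ⟨S, hS, h1⟩ := ha.1
    exact ⟨S, hS, a, h1, mem_comp ha⟩
  · obtain ⟨S, hS, h1⟩ := hb.1
    refine ⟨S, hS, fun h3 => ?_⟩
    rcases key S hS h3 h1 with e | e | e
    exacts [hab e, hb.2 e, hb.2 e]

theorem xie4_three {S : Set V} (h : S.ncard < 3) [Finite V] {a b c : V} (ha : a ∈ S) (hb : b ∈ S)
    (hc : c ∈ S) (hab : a ≠ b) : c = a ∨ c = b := by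
  by_contra hn
  rw [not_or] at hn
  have h1 : ({a, b, c} : Set V).ncard = 3 :=
    ncard_eq_three.2 ⟨a, b, c, hab, fun e => hn.1 e.symm, fun e => hn.2 e.symm, rfl⟩
  have h2 : ({a, b, c} : Set V) ⊆ S := by
    rintro z (rfl | rfl | rfl) <;> assumption
  have := ncard_le_ncard h2 (toFinite _)
  omega

theorem xie4_torso [Finite V] {H : SimpleGraph W} {Y : SimpleGraph V} {𝒯 : Set (Set V)}
    (h2 : ∀ S ∈ 𝒯, ES H Y S) (hU : TwoConn Y (⋃₀ 𝒯)) {T : Set V} (hT : Torso H Y (⋃₀ 𝒯) T) :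
    xie4_Split 𝒯 := by
  obtain ⟨t1, t2, t3, f, t4, t5⟩ := hT
  have small : ∀ S ∈ 𝒯, ¬ S ⊆ T → (S ∩ T).ncard < 3 := by
    intro S hS hn
    by_contra hc
    refine (h2 S hS).2 (S ∩ T) ⟨inter_subset_left, fun e => hn (inter_eq_left.1 e), by omega, f,
      t4.sub inter_subset_right, fun C hC hc => (t5 C ?_ hc).sub (image_mono ?_)⟩
    · exact fun x hx => ⟨⟨S, hS, (hC hx).1⟩, fun h => (hC hx).2 ⟨(hC hx).1, h⟩⟩
    · exact fun x hx => ⟨hx.1.2, hx.2⟩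
  have three : ∀ y u v w, u ∈ Nb Y T (comp Y.Adj (⋃₀ 𝒯 \ T) y) →
      v ∈ Nb Y T (comp Y.Adj (⋃₀ 𝒯 \ T) y) → w ∈ Nb Y T (comp Y.Adj (⋃₀ 𝒯 \ T) y) → u ≠ v →
      w = u ∨ w = v := by
    intro y u v w hu hv hw huv
    rcases (t5 _ comp_sub (comp_conn (adj_symm' Y))).three (mem_image_of_mem f hu)
      (mem_image_of_mem f hv) (mem_image_of_mem f hw) with e | e | e
    exacts [absurd (t4.1 hu.1 hv.1 e) huv, .inl (t4.1 hu.1 hw.1 e).symm,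
      .inr (t4.1 hv.1 hw.1 e).symm]
  obtain ⟨c, hc⟩ : (⋃₀ 𝒯 \ T).Nonempty := by
    by_contra hn
    rw [not_nonempty_iff_eq_empty, sdiff_eq_empty] at hn
    exact t2 (Subset.antisymm t1 hn)
  have hns : ¬ (⋃₀ 𝒯 ∩ T).Subsingleton := by
    rw [inter_eq_right.2 t1]
    intro hs
    have := (ncard_le_one (toFinite T)).2 fun a ha b hb => hs ha hb
    omega
  obtain ⟨u, hu, v, hv, huv, hu', hv'⟩ := hU.two_nb hns hc
  have key : ∀ S ∈ 𝒯,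
      (S ∩ {x | x ∈ ⋃₀ 𝒯 \ T ∧ Nb Y T (comp Y.Adj (⋃₀ 𝒯 \ T) x) ⊆ {u, v}}).Nonempty →
      S ⊆ {x | x ∈ ⋃₀ 𝒯 \ T ∧ Nb Y T (comp Y.Adj (⋃₀ 𝒯 \ T) x) ⊆ {u, v}} ∪ {u, v} := by
    rintro S hS ⟨x, hx, hx1, hx2⟩
    have hs := small S hS fun h => hx1.2 (h hx)
    have hSU : S \ T ⊆ ⋃₀ 𝒯 \ T := fun z hz => ⟨⟨S, hS, hz.1⟩, hz.2⟩
    have two := (h2 S hS).1
    by_cases hss : (S ∩ T).Subsingleton
    · have hcon : ConnOn Y.Adj (S \ T) := by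
        rcases hss.eq_empty_or_singleton with e | ⟨w, e⟩
        · rw [← sdiff_self_inter, e, sdiff_empty]
          exact two.conn
        · rw [← sdiff_self_inter, e]
          exact two.2 w
      have hsub : S \ T ⊆ comp Y.Adj (⋃₀ 𝒯 \ T) x :=
        hcon.sub_comp hSU ⟨hx, hx1.2⟩ (mem_comp hx1)
      intro y hy
      by_cases hyT : y ∈ T
      · obtain ⟨z, hz, e⟩ := two.nbr' hy
        refine .inr (hx2 ⟨hyT, z, hsub ⟨hz, fun h => e.ne (hss ⟨hy, hyT⟩ ⟨hz, h⟩)⟩, e⟩)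
      · refine .inl ⟨hSU ⟨hy, hyT⟩, ?_⟩
        rw [comp_eq (adj_symm' Y) (hsub ⟨hy, hyT⟩)]
        exact hx2
    · have nb : ∀ y ∈ S \ T, ∃ a ∈ S ∩ T, ∃ b ∈ S ∩ T, a ≠ b ∧
          a ∈ Nb Y T (comp Y.Adj (⋃₀ 𝒯 \ T) y) ∧ b ∈ Nb Y T (comp Y.Adj (⋃₀ 𝒯 \ T) y) := by
        intro y hy
        obtain ⟨a, ha, b, hb, hab, ⟨d, hd, e⟩, d', hd', e'⟩ := two.two_nb hss hy
        have hsub : comp Y.Adj (S \ T) y ⊆ comp Y.Adj (⋃₀ 𝒯 \ T) y :=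
          (comp_conn (adj_symm' Y)).sub_comp (comp_sub.trans hSU) (mem_comp hy)
            (mem_comp (hSU hy))
        exact ⟨a, ha, b, hb, hab, ⟨ha.2, d, hsub hd, e⟩, hb.2, d', hsub hd', e'⟩
      have hST : S ∩ T ⊆ {u, v} := by
        obtain ⟨a, ha, b, hb, hab, h3, h4⟩ := nb x ⟨hx, hx1.2⟩
        intro w hw
        rcases xie4_three hs ha hb hw hab with rfl | rfl
        exacts [hx2 h3, hx2 h4]
      intro y hy
      by_cases hyT : y ∈ T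
      · exact .inr (hST ⟨hy, hyT⟩)
      · refine .inl ⟨hSU ⟨hy, hyT⟩, fun w hw => ?_⟩
        obtain ⟨a, ha, b, hb, hab, h3, h4⟩ := nb y ⟨hy, hyT⟩
        rcases three y a b w h3 h4 hw hab with rfl | rfl
        exacts [hST ha, hST hb]
  refine ⟨_, u, v, key, ?_, ?_⟩
  · obtain ⟨S, hS, h1⟩ := hc.1
    exact ⟨S, hS, c, h1, hc, fun w hw => three c u v w ⟨hu.2, hu'⟩ ⟨hv.2, hv'⟩ hw huv⟩
  · obtain ⟨z, hz, hz'⟩ : ∃ z ∈ T, z ∉ ({u, v} : Set V) := by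
      by_contra hn
      have h1 : T ⊆ {u, v} := fun z hz => by
        by_contra h
        exact hn ⟨z, hz, h⟩
      have := ncard_le_ncard h1 (toFinite _)
      have := ncard_pair_le u v
      omega
    obtain ⟨S, hS, h1⟩ := t1 hz
    refine ⟨S, hS, fun h3 => ?_⟩
    rcases key S hS h3 h1 with e | e
    exacts [e.1.2 hz, hz' e]

theorem xie4_split [Finite W] [Finite V] {H : SimpleGraph W} {P : Par} (hP : P.Ok H)
    {J : SimpleGraph V} (hJ : In J H) {𝒯 : Set (Set V)} (h : ∀ S ∈ 𝒯, TS P H J S)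
    {S1 S2 : Set V} (h1 : S1 ∈ 𝒯) (h2 : S2 ∈ 𝒯) (h12 : S2 ≠ S1) : xie4_Split 𝒯 := by
  have es : ∀ S ∈ 𝒯, ES H (xie4_G J 𝒯) S := by
    intro S hS
    have := (h S hS).1.map (J' := xie4_G J 𝒯) (f := id)
      ⟨injOn_id S, fun x hx y hy e => ⟨e, S, hS, hx, hy⟩⟩
    rwa [image_id] at this
  have hsub : S1 ⊆ ⋃₀ 𝒯 := subset_sUnion_of_mem h1
  by_cases hU : TwoConn (xie4_G J 𝒯) (⋃₀ 𝒯)
  · by_cases hE : ES H (xie4_G J 𝒯) (⋃₀ 𝒯)
    · exfalso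
      obtain ⟨f, hf⟩ := hJ
      have hf' : IHo (xie4_G J 𝒯) H f (⋃₀ 𝒯) := ⟨hf.1.injOn, fun x _ y _ e => hf.2 _ _ e.1⟩
      have h3 := hP.maxT _ (hE.map hf')
      rw [hf'.ncard] at h3
      have c1 := (h S1 h1).2.1
      have c2 := (h S2 h2).2.1
      have e1 : S1 = ⋃₀ 𝒯 := eq_of_subset_of_ncard_le hsub (by omega)
      have e2 : S2 = ⋃₀ 𝒯 := eq_of_subset_of_ncard_le (subset_sUnion_of_mem h2) (by omega)
      exact h12 (e2.trans e1.symm)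
    · obtain ⟨T, hT⟩ : ∃ T, Torso H (xie4_G J 𝒯) (⋃₀ 𝒯) T := by
        by_contra hn
        exact hE ⟨hU, fun T hT => hn ⟨T, hT⟩⟩
      exact xie4_torso es hU hT
  · obtain ⟨v, hv⟩ : ∃ v, ¬ ConnOn (xie4_G J 𝒯).Adj (⋃₀ 𝒯 \ {v}) := by
      by_contra hn
      refine hU ⟨(es S1 h1).1.1.trans (ncard_le_ncard hsub (toFinite _)), fun v => ?_⟩
      by_contra h3
      exact hn ⟨v, h3⟩
    exact xie4_cut (fun S hS => (es S hS).1) hv

theorem xie4_two [Finite V] {A : Set V} (h : 4 ≤ A.ncard) (a b : V) : 2 ≤ (A \ {a, b}).ncard := by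
  have h1 := ncard_pair_le a b
  have h2 : A ⊆ (A \ {a, b}) ∪ {a, b} := subset_sdiff_union _ _
  have h3 := (ncard_le_ncard h2 (toFinite _)).trans (ncard_union_le _ _)
  omega

theorem xie4_free [Finite W] [Finite V] {H : SimpleGraph W} {P : Par} (hP : P.Ok H)
    (h4 : 4 ≤ P.vT) {J : SimpleGraph V} (hJ : In J H) : ∀ (n : ℕ) (𝒯 : Set (Set V)),
    𝒯.ncard = n → 𝒯.Nonempty → (∀ S ∈ 𝒯, TS P H J S) → 4 ≤ (xie4_Free 𝒯).ncard := by
  intro n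
  induction n using Nat.strong_induction_on with
  | _ n ih =>
  rintro 𝒯 rfl ⟨S1, h1⟩ h
  by_cases h0 : ∀ S2 ∈ 𝒯, S2 = S1
  · have hs : S1 ⊆ xie4_Free 𝒯 := fun y hy => ⟨S1, h1, hy, fun S' hS' _ => h0 S' hS'⟩
    have := ncard_le_ncard hs (toFinite _)
    have := (h S1 h1).2.1
    omega
  obtain ⟨S2, h2, h12⟩ : ∃ S2 ∈ 𝒯, S2 ≠ S1 := by
    by_contra hn
    refine h0 fun S2 h2 => ?_
    by_contra e
    exact hn ⟨S2, h2, e⟩
  obtain ⟨G, a, b, k1, ⟨A, hA, kA⟩, B, hB, kB⟩ := xie4_split hP hJ h h1 h2 h12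
  have i1 := ih {S | S ∈ 𝒯 ∧ (S ∩ G).Nonempty}.ncard
    (ncard_lt_ncard ⟨fun _ h => h.1, fun h => kB (h hB).2⟩ (toFinite _)) _ rfl ⟨A, hA, kA⟩
    fun S hS => h S hS.1
  have i2 := ih {S | S ∈ 𝒯 ∧ ¬ (S ∩ G).Nonempty}.ncard
    (ncard_lt_ncard ⟨fun _ h => h.1, fun h => (h hA).2 kA⟩ (toFinite _)) _ rfl ⟨B, hB, kB⟩
    fun S hS => h S hS.1
  have j1 := xie4_two i1 a b
  have j2 := xie4_two i2 a b
  have inG : ∀ y ∈ xie4_Free {S | S ∈ 𝒯 ∧ (S ∩ G).Nonempty} \ {a, b}, y ∈ G := by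
    rintro y ⟨⟨S, hS, hy, -⟩, hy'⟩
    exact (k1 S hS.1 hS.2 hy).resolve_right hy'
  have outG : ∀ y ∈ xie4_Free {S | S ∈ 𝒯 ∧ ¬ (S ∩ G).Nonempty} \ {a, b}, y ∉ G := by
    rintro y ⟨⟨S, hS, hy, -⟩, -⟩ hG
    exact hS.2 ⟨y, hy, hG⟩
  have hd : Disjoint (xie4_Free {S | S ∈ 𝒯 ∧ (S ∩ G).Nonempty} \ {a, b})
      (xie4_Free {S | S ∈ 𝒯 ∧ ¬ (S ∩ G).Nonempty} \ {a, b}) :=
    disjoint_left.2 fun y hy hy' => outG y hy' (inG y hy)
  have hs : (xie4_Free {S | S ∈ 𝒯 ∧ (S ∩ G).Nonempty} \ {a, b}) ∪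
      (xie4_Free {S | S ∈ 𝒯 ∧ ¬ (S ∩ G).Nonempty} \ {a, b}) ⊆ xie4_Free 𝒯 := by
    rintro y (hy | hy)
    · have hG := inG y hy
      obtain ⟨⟨S, hS, hy1, hy2⟩, -⟩ := hy
      exact ⟨S, hS.1, hy1, fun S' hS' e => hy2 S' ⟨hS', y, e, hG⟩ e⟩
    · have hG := outG y hy
      obtain ⟨⟨S, hS, hy1, hy2⟩, hy3⟩ := hy
      exact ⟨S, hS.1, hy1, fun S' hS' e =>
        hy2 S' ⟨hS', fun hn => (k1 S' hS' hn e).elim hG hy3⟩ e⟩
  have := ncard_le_ncard hs (toFinite _)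
  rw [ncard_union_eq hd] at this
  omega

end IE4

theorem ie4_stmt : IE4Stmt := by
  intro W V _ _ H P hP h4 J hJ 𝒯 hn h
  have key : ∀ p q, ∃ y, y ≠ p ∧ y ≠ q ∧ ∀ r, y ≠ r → ∃ y', y' ≠ r ∧ Iso J 𝒯 y y' := by
    intro p q
    have h1 := xie4_two (xie4_free hP h4 hJ _ 𝒯 rfl hn h) p q
    obtain ⟨y, ⟨S, hS, hy, hu⟩, hy'⟩ :=
      nonempty_of_ncard_ne_zero (s := xie4_Free 𝒯 \ {p, q}) (by omega)
    refine ⟨y, fun e => hy' (.inl e), fun e => hy' (.inr e), fun r hr => ?_⟩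
    obtain ⟨c, hc, h2, h3⟩ := (h S hS).two.nbr hy r hr
    exact ⟨c, h2, h3, ⟨S, hS, hy⟩, fun S' hS' e => hu S' hS' e ▸ hc⟩
  refine ⟨fun p q => ?_, fun r => ?_⟩
  · obtain ⟨y, h1, h2, h3⟩ := key p q
    obtain ⟨y', -, h4⟩ := h3 p h1
    exact ⟨y, y', h1, h2, h4⟩
  · obtain ⟨y, h1, -, h3⟩ := key r r
    obtain ⟨y', h2, h4⟩ := h3 r h1
    exact ⟨y, y', h1, h2, h4⟩

end Pool.Agent.MP_1c0fc2_co.RE

end

section

/-! Invariance of the objects and of the red weight. -/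

open Function Set Relation

namespace Pool.Agent.MP_1c0fc2_co.RE

theorem xinv_pull {W U V : Type} [Finite W] [Finite U] [Finite V] {H : SimpleGraph W} {P : Par}
    (hK3 : K3Stmt) (hHost : HostStmt) (hESNode : ESNodeStmt) (hP : P.Ok H) {A : SimpleGraph U}
    {B : SimpleGraph V} (hA : In A H) (hI : Imp A B) {O : Set V} (hO : AS P H B O) :
    ∃ f : V → U, IHo B A f O := by
  obtain ⟨Z, _, G, Bs, hpre, harr⟩ := hHost U A (Nat.card W)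
  have hB : In B G := by
    rcases hI Z G harr ⊥ bot_le with h | h
    · exact h.trans (In.of_le bot_le)
    · exact h.trans (In.of_le sdiff_le)
  obtain ⟨φ, hφ⟩ := hB
  have hS : AS P H G (φ '' O) := hO.map (hφ.on O)
  obtain ⟨a, b, hab⟩ := hS.1
  have hc : (φ '' O).ncard ≤ Nat.card W := hS.2.1.le.trans (hK3 W V H P hP).1.2.2.1
  rcases (hESNode W U Z H A G ⊥ ∅ Bs _ hA hpre G le_rfl _ hc).2 a b hab with
    ⟨β, hβ, hsub⟩ | ⟨L, hL, -⟩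
  · obtain ⟨k, hk, -⟩ := exists_pull' (J := A) (J' := G) (hpre.ind β hβ).inj
      (fun x y e => ((hpre.ind β hβ).adj x y).1 e) hsub ⟨a, hab.1⟩
    exact ⟨k ∘ φ, (hφ.on O).comp hk⟩
  · exact hL.elim

theorem invA_stmt (hK3 : K3Stmt) (hROMono : ROMonoStmt) (hHost : HostStmt)
    (hESNode : ESNodeStmt) : InvAStmt := by
  intro W U V _ _ _ H P hP A B hA hI
  refine ⟨fun ⟨O, hO⟩ => ?_, fun ⟨O, hO⟩ => ?_⟩
  · obtain ⟨f, hf⟩ := xinv_pull hK3 hHost hESNode hP hA hI hO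
    exact ⟨_, hO.map hf⟩
  · obtain ⟨f, hf⟩ := xinv_pull hK3 hHost hESNode hP hA hI hO.1
    obtain ⟨h, hh⟩ := hA
    exact ⟨_, hROMono W V U H P hP .N1 B A f h O hf (hh.on _) hO⟩

theorem xinv_ram_blue {U : Type} (A : SimpleGraph U) : RamOn A A ⊥ (offG A ∅) := by
  intro R' _ h
  refine .inr (In.of_le fun x y e => ⟨e, fun e' => ?_⟩)
  exact (h x y ⟨e, notMem_empty _, notMem_empty _⟩).1 e'

theorem xinv_ram_red {U : Type} (A : SimpleGraph U) : RamOn A A A (offG A ∅) := by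
  intro R' _ h
  exact .inl (In.of_le fun x y e => (h x y ⟨e, notMem_empty _, notMem_empty _⟩).2 e)

/-- a 2-connected set of colour `c` inside a copy of `Γ` gives an edge of that colour -/
theorem xinv_edge {U X V : Type} {A : SimpleGraph U} {Γ RΓ : SimpleGraph X} {Hub : Set X}
    {G R : SimpleGraph V} {Gs : Set (X → V)} {Bs : Set (Bag U V)} {g : ℕ}
    (h : Core A Γ RΓ Hub G R Gs Bs g) {c : Bool} {S : Set V} (hS : TwoConn (cc G R c) S)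
    {γ : X → V} (hγ : γ ∈ Gs) (hs : S ⊆ range γ) : ∃ a b, (cc Γ RΓ c).Adj a b := by
  obtain ⟨x, hx, y, hy, e⟩ := hS.edge
  obtain ⟨a, rfl⟩ := hs hx
  obtain ⟨b, rfl⟩ := hs hy
  exact ⟨a, b, (h.ccol hγ c a b).1 e⟩

theorem xinv_colT {W U : Type} {H : SimpleGraph W} {P : Par} {A : SimpleGraph U} {E : EP U}
    {m : Mode} (hm : m ≠ .S1) (h : Cols P H A E m) : ColT P H A E false := by
  cases m
  exacts [h.2, h.2, absurd rfl hm, h.2]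

theorem invT_stmt (hParam : ParamStmt) (hEngine : EngineStmt) (hLoc : LocStmt) : InvTStmt := by
  intro W U V _ _ _ H P hP m hm hcase A B hA hI ⟨O1, hO1⟩ ⟨O2, hO2⟩
  obtain ⟨E, hE, hcol⟩ := hParam W U H P hP m hcase A hA
  obtain ⟨Z, _, G, R, Gs, Bs, hL⟩ :=
    hEngine U U A E A ⊥ ∅ (Nat.card W) hE bot_le (xinv_ram_blue A)
  have loc := fun c => hLoc W U U Z H P hP A E A ⊥ ∅ G R Gs Bs _ c hA le_rfl hL
  rcases hI Z G (ramOn_bot.1 hL.ram) R hL.core.pre.le with ⟨φ, hφ⟩ | ⟨φ, hφ⟩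
  · exfalso
    have hT : ColT P H A E true → False := fun hc => by
      have h2 : TH P H (cc G R true) (φ '' O2) := hO2.map (hφ.on O2)
      obtain ⟨γ, hγ, hs⟩ := (loc true _).1 hc h2
      obtain ⟨a, b, e⟩ := xinv_edge hL.core h2.two hγ hs
      exact e.elim
    cases m
    · have h1 : AS P H (cc G R true) (φ '' O1) := hO1.map (hφ.on O1)
      obtain ⟨γ, -, ⟨a, b, -, -, e⟩, -⟩ := (loc true _).2.2 hcol.1 h1
      exact e.elim
    · exact hT hcol.1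
    · exact hm rfl
    · exact hT hcol.1
  · have h2 : TH P H (cc G R false) (φ '' O2) := hO2.map (hφ.on O2)
    obtain ⟨γ, hγ, hs⟩ := (loc false _).1 (xinv_colT hm hcol) h2
    obtain ⟨k, hk, -⟩ := exists_pull' (J := A) (J' := cc G R false) (hL.core.gind γ hγ).inj
      (fun x y e => ((hL.core.gind γ hγ).adj x y).1 e.1) hs h2.two.nonempty
    exact ⟨_, h2.map hk⟩

theorem invR_stmt (hRP : RPStmt) (hParam : ParamStmt) (hEngine : EngineStmt) (hLoc : LocStmt)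
    (hRedLoc : RedLocStmt) (hRedLift : RedLiftStmt) : InvRStmt := by
  intro W U V _ _ _ H P hP m hm hcase A B hA hB hiso hI ⟨O2, hO2⟩
  have hm' : m ≠ .S1 := by
    rintro rfl
    exact hm
  obtain ⟨E, hE, hcol⟩ := hParam W U H P hP m hcase A hA
  obtain ⟨Z, _, G, R, Gs, Bs, hL⟩ :=
    hEngine U U A E A A ∅ (Nat.card W) hE le_rfl (xinv_ram_red A)
  have hR : In B R := by
    refine (hI Z G (ramOn_bot.1 hL.ram) R hL.core.pre.le).resolve_right fun ⟨φ, hφ⟩ => ?_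
    have h2 : TH P H (cc G R false) (φ '' O2) := hO2.map (hφ.on O2)
    obtain ⟨γ, hγ, hs⟩ := (hLoc W U U Z H P hP A E A A ∅ G R Gs Bs _ false hA le_rfl hL _).1
      (xinv_colT hm' hcol) h2
    obtain ⟨a, b, e⟩ := xinv_edge hL.core h2.two hγ hs
    exact e.2 e.1
  obtain ⟨φ, hφ⟩ := hR
  have hTr : RTr H A A ∅ (Nat.card W) := fun S _ _ _ _ => hA.imp fun _ hh => hh.on S
  have hub : ∀ γ ∈ Gs, ∀ x ∈ (∅ : Set U), γ x ∉ range φ := fun _ _ _ hx => hx.elim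
  refine ⟨fun ⟨O, hO⟩ => ?_, fun s ⟨L, _, K, hK, hw⟩ => ?_⟩
  · obtain ⟨γ, -, -, h⟩ := hRedLoc W U U Z V H P hP m A E A A ∅ G R Gs Bs _ B φ hA le_rfl hL hcol
      hTr hφ hub O hO
    exact ⟨_, h⟩
  · refine hRedLift W U U Z V L H P hP m A E A A ∅ G R Gs Bs _ B φ K s hA hB hiso le_rfl hL hcol
      hTr ⟨fun S _ hS => hK.cov S hS, hw, fun _ _ _ _ _ e => e, fun Y _ _ => ?_⟩ hφ hub
    have h1 : RP A (fun l => K l ∩ Y) (univ ∩ Y) := (hRP U L A K univ).1 hK.rp A Y le_rfl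
    refine ⟨h1, fun 𝒮 Pt h𝒮 hPt => ?_⟩
    refine (hRP U L A _ _).2.2.2.1 h1 𝒮 Pt h𝒮 ⟨?_, fun x hx => ⟨trivial, hPt.1 hx⟩⟩
    rcases hPt.2 with h | ⟨a, b, -, -, e, -⟩
    · exact h
    · exact (e.2 e.1).elim

end Pool.Agent.MP_1c0fc2_co.RE

end

section

/-! Objects of a controlled colour lie in a copy of the middle graph. -/

open Function Set Relation

namespace Pool.Agent.MP_1c0fc2_co.RE

theorem xloc_pull {U V : Type} {A : SimpleGraph U} {G R : SimpleGraph V} {Ls : Set (Set V)}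
    {Bs : Set (Bag U V)} {g : ℕ} (h : Pre A G R Ls Bs g) {β : Bag U V} (hβ : β ∈ Bs) (c : Bool)
    {S : Set V} (hS : S ⊆ range β.f) (hn : S.Nonempty) :
    ∃ k : V → U, IHo (cc G R c) (cc A β.red c) k S := by
  obtain ⟨k, hk, -⟩ := exists_pull' (J := cc A β.red c) (J' := cc G R c) (h.ind β hβ).inj
    (fun x y => (h.ccol hβ c x y).1) hS hn
  exact ⟨k, hk⟩

theorem loc_stmt (hK3 : K3Stmt) (hESNode : ESNodeStmt) (hThNode : ThNodeStmt) : LocStmt := by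
  intro W U X V _ _ _ _ H P hP A E Γ RΓ Hub G R Gs Bs g c hA hg hL S
  obtain ⟨⟨-, k1, k2, k3⟩, -⟩ := hK3 W V H P hP
  have pre := hL.core.pre
  have noA : ColA P H A E c → AS P H (cc G R c) S → ∀ β ∈ Bs, ¬ S ⊆ range β.f := by
    intro hc hS β hβ hs
    obtain ⟨k, hk⟩ := xloc_pull pre hβ c hs hS.two.nonempty
    exact hc _ _ _ (hL.kind β hβ) _ (hS.map hk)
  have node := fun hS : AS P H (cc G R c) S =>
    hESNode W U V H A G R _ Bs g hA pre (cc G R c) (cc_le pre.le c) S (hS.2.1.le.trans (k2.trans hg))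
  refine ⟨fun hc hS => ?_, fun hc hS hE => ?_, fun hc hS => ?_⟩
  · rcases hThNode W U V H P A G R _ Bs g c hA (k1.trans (k2.trans hg)) pre
      (fun β hβ => (hc _ _ _ (hL.kind β hβ)).1) S (hS.2.le.trans (k3.trans hg))
      (hS.1.mono fun _ _ _ _ e => TG_mono (subset_univ S) e) with
      ⟨_, ⟨γ, hγ, rfl⟩, hs⟩ | ⟨β, hβ, hs⟩
    · exact ⟨γ, hγ, hs⟩
    · obtain ⟨k, hk⟩ := xloc_pull pre hβ c hs hS.two.nonempty
      exact absurd (hS.map hk) ((hc _ _ _ (hL.kind β hβ)).2 _)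
  · rcases (node hS).1 hE with ⟨_, ⟨γ, hγ, rfl⟩, hs⟩ | ⟨β, hβ, hs⟩
    · exact ⟨γ, hγ, hs⟩
    · exact absurd hs (noA hc hS β hβ)
  · obtain ⟨a, b, hab⟩ := hS.1
    rcases (node hS).2 a b hab with ⟨β, hβ, hs⟩ |
      ⟨_, ⟨γ, hγ, rfl⟩, ⟨a', rfl⟩, ⟨b', rfl⟩, h2, hh⟩
    · exact absurd hs (noA hc hS β hβ)
    · obtain ⟨k, hk, e, -⟩ := exists_pull' (J := Γ) (J' := G) (hL.core.gind γ hγ).inj
        (fun x y => ((hL.core.gind γ hγ).adj x y).1) (T := S ∩ range γ) inter_subset_right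
        h2.nonempty
      rw [preimage_inter_range] at e
      exact ⟨γ, hγ, ⟨a', b', hab.1, hab.2.1, (hL.core.ccol hγ c a' b').1 hab.2.2.1⟩,
        e ▸ h2.map hk, fun h hh' => hh (h ∘ k) (hk.comp (e ▸ hh'))⟩

theorem redLoc_stmt (hK3 : K3Stmt) (hROMono : ROMonoStmt) (hLoc : LocStmt) : RedLocStmt := by
  intro W U X V Z _ _ _ _ _ H P hP m A E Γ RΓ Hub G R Gs Bs g B φ hA hg hL hC hR hφ hH O hO
  obtain ⟨⟨-, -, k2, k3⟩, -⟩ := hK3 W V H P hP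
  obtain ⟨l1, -, l3⟩ := hLoc W U X V H P hP A E Γ RΓ Hub G R Gs Bs g true hA hg hL (φ '' O)
  have hcard : O.ncard ≤ g := by
    cases m
    exacts [hO.1.2.1.le.trans (k2.trans hg), hO.1.2.le.trans (k3.trans hg),
      hO.2.1.le.trans (k2.trans hg), hO.2.le.trans (k3.trans hg)]
  have hc : ∀ γ ∈ Gs, (γ ⁻¹' (φ '' O)).ncard ≤ g := fun γ hγ =>
    (ncard_le_ncard_of_injOn γ (fun _ hx => hx) (hL.core.gind γ hγ).inj.injOn (toFinite _)).trans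
      ((hφ.on O).ncard.le.trans hcard)
  have hd : ∀ γ ∈ Gs, Disjoint (γ ⁻¹' (φ '' O)) Hub := fun γ hγ =>
    disjoint_left.2 fun x hx hx' => hH γ hγ x hx' (image_subset_range φ O hx)
  have cA : ColA P H A E true → AS P H B O → ∃ γ ∈ Gs, φ '' O ⊆ range γ := by
    intro h1 h2
    obtain ⟨γ, hγ, ⟨a, b, ha, hb, hab⟩, h3, h4⟩ := l3 h1 (h2.map (hφ.on O))
    obtain ⟨h, hh⟩ := hR _ (hc γ hγ) (hd γ hγ) h3 ⟨a, ha, b, hb, hab⟩
    exact ⟨γ, hγ, h4 h hh⟩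
  have cT : ColT P H A E true → TH P H B O → ∃ γ ∈ Gs, φ '' O ⊆ range γ := fun h1 h2 =>
    l1 h1 (h2.map (hφ.on O))
  obtain ⟨γ, hγ, hs⟩ : ∃ γ ∈ Gs, φ '' O ⊆ range γ := by
    cases m
    exacts [cA hC.1 hO.1, cT hC.1 hO.1, cA hC.1 hO, cT hC.1 hO]
  refine ⟨γ, hγ, hs, ?_⟩
  obtain ⟨k, hk, e, -⟩ := exists_pull' (J := RΓ) (J' := R) (hL.core.gind γ hγ).inj
    (fun x y => (hL.core.gcol γ hγ x y).1) hs (hO.two.nonempty.image φ)
  have hle : RΓ ≤ Γ := fun a b hab =>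
    ((hL.core.gind γ hγ).adj a b).1 (hL.core.pre.le ((hL.core.gcol γ hγ a b).2 hab))
  have h2 : TwoConn RΓ (γ ⁻¹' (φ '' O)) := e ▸ (hO.two.map (hφ.on O)).map hk
  obtain ⟨h, hh⟩ := hR _ (hc γ hγ) (hd γ hγ) (h2.mono fun _ _ _ _ e => hle e) h2.edge
  have e' : (k ∘ φ) '' O = γ ⁻¹' (φ '' O) := by rw [image_comp, e]
  rw [← e'] at hh ⊢
  exact hROMono W Z X H P hP m B RΓ (k ∘ φ) h O ((hφ.on O).comp hk)
    ⟨hh.1, fun x hx y hy e => hh.2 x hx y hy (hle e)⟩ hO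

end Pool.Agent.MP_1c0fc2_co.RE

end

section

/-! The tree-like pigeonhole principle for points. -/

open Function Set Relation

namespace Pool.Agent.MP_1c0fc2_co.RE

/-- the hypergraph of singletons -/
def xmt0_F (X : Type) [Finite X] : MH (fun (_ : Unit) (_ : Unit) => 1) where
  V := X
  E := X
  kd := fun _ => ()
  ty := fun _ => ()
  mem := Eq
  shape := fun e _ => ncard_eq_one.2 ⟨e, by ext v; simp⟩

theorem xmt0_pt (H : MH (fun (_ : Unit) (_ : Unit) => 1)) :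
    ∃ pt : H.E → H.V, ∀ v d, H.mem v d ↔ v = pt d := by
  choose pt hpt using fun d => ncard_eq_one.1 (H.shape d ())
  refine ⟨pt, fun v d => ?_⟩
  have h := Set.ext_iff.1 (hpt d) v
  exact ⟨fun e => h.1 ⟨e, rfl⟩, fun e => (h.2 e).1⟩

theorem xmt0_bag {I T : Type} {prof : T → I → ℕ} {F H : MH prof} (φ : MEmb F H) (v : H.V) :
    Sum.inl v ∈ φ.Bag ↔ v ∈ range φ.v := by
  constructor
  · rintro ⟨x | x, h⟩
    · exact ⟨x, Sum.inl_injective h⟩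
    · exact absurd h Sum.inr_ne_inl
  · rintro ⟨x, rfl⟩
    exact ⟨.inl x, rfl⟩

theorem mt0_stmt (hMT : MTStmt) : MT0Stmt := by
  intro X κ _ _ _ g
  obtain ⟨H, Q, hQ, φ, hG, hR⟩ := hMT Unit Unit _ (xmt0_F X)
    (fun e e' u v _ h1 _ h2 _ => (show u = e from h1).symm.trans h2) κ g
  obtain ⟨pt, hpt⟩ := xmt0_pt H
  have hwb : ∀ v d, Sum.inl v ∈ H.WB d ↔ v = pt d := by
    intro v d
    constructor
    · rintro (h | ⟨w, hw, h⟩)
      · exact absurd h Sum.inl_ne_inr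
      · exact (Sum.inl_injective h).trans ((hpt w d).1 hw)
    · intro h
      exact .inr ⟨v, (hpt v d).2 h, rfl⟩
  have hve : ∀ p (x : X), (φ p).v x = pt ((φ p).e x) := fun p x =>
    (hpt _ _).1 (((φ p).mem_iff _ _).2 ⟨x, rfl, rfl⟩)
  have htog : ∀ x y, Tog (range fun q => range (φ q).v) x y →
      Tog (range fun q => (φ q).Bag) (.inl x) (.inl y) := by
    rintro x y ⟨_, ⟨q, rfl⟩, hx, hy⟩
    exact ⟨_, ⟨q, rfl⟩, (xmt0_bag _ _).2 hx, (xmt0_bag _ _).2 hy⟩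
  refine ⟨H.V, Q, inferInstance, hQ, fun p => (φ p).v, fun p => (φ p).v_inj, fun χ => ?_,
    fun p q hpq x hx y hy => ?_, fun n => ?_, fun p C hC hd hc => ?_⟩
  · obtain ⟨p, hp⟩ := hR fun d => χ (pt d)
    refine ⟨p, fun x x' => ?_⟩
    have := hp x x' trivial rfl
    rwa [← hve, ← hve] at this
  · by_contra hxy
    obtain ⟨d, h1, h2⟩ := hG.b2 p q hpq (.inl x) (.inl y) (fun e => hxy (Sum.inl_injective e))
      ((xmt0_bag _ _).2 hx.1) ((xmt0_bag _ _).2 hy.1) ((xmt0_bag _ _).2 hx.2)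
      ((xmt0_bag _ _).2 hy.2)
    exact hxy (((hwb _ _).1 h1).trans ((hwb _ _).1 h2).symm)
  · obtain ⟨p, hp⟩ := hG.cov (.inl n)
    exact ⟨p, (xmt0_bag _ _).1 hp⟩
  · have hat : ∀ w ∈ At (range fun q => range (φ q).v) (range (φ p).v) C,
        Sum.inl w ∈ At (range fun q => (φ q).Bag) (φ p).Bag (Sum.inl '' C) := by
      rintro w ⟨hw, c, hcC, h⟩
      exact ⟨(xmt0_bag _ _).2 hw, _, mem_image_of_mem _ hcC, htog _ _ h⟩
    have hd2 : Disjoint (Sum.inl '' C) (φ p).Bag := by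
      refine disjoint_left.2 ?_
      rintro _ ⟨c, hcC, rfl⟩ h
      exact disjoint_left.1 hd hcC ((xmt0_bag _ _).1 h)
    rcases hG.thin p (Sum.inl '' C) ((ncard_image_of_injective C Sum.inl_injective).le.trans hC)
      hd2 (hc.image _ fun x _ y _ h => .inr (htog x y h)) with
      h | ⟨ℓ, hl, h1, h2, _, ⟨q, rfl⟩, h3, _, h4, c, hcC, rfl⟩
    · refine .inl (eq_empty_of_forall_notMem fun w hw => ?_)
      have := hat w hw
      rw [h] at this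
      exact this
    · obtain ⟨v, hv⟩ : ∃ v, ∀ w, Sum.inl w ∈ ℓ ↔ w = v := by
        rcases hl with ⟨v, rfl⟩ | ⟨d, rfl⟩
        · exact ⟨v, fun w => ⟨fun e => Sum.inl_injective e, fun e => congrArg _ e⟩⟩
        · exact ⟨pt d, fun w => hwb w d⟩
      refine .inr ⟨{v}, ⟨v, rfl⟩, fun w hw => (hv w).1 (h1 (hat w hw)), ?_, _, ⟨q, rfl⟩, ?_,
        c, (xmt0_bag _ _).1 h4, hcC⟩
      · exact singleton_subset_iff.2 ((xmt0_bag _ _).1 (h2 ((hv v).2 rfl)))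
      · exact singleton_subset_iff.2 ((xmt0_bag _ _).1 (h3 ((hv v).2 rfl)))

end Pool.Agent.MP_1c0fc2_co.RE

end

section

open Function Set Relation

namespace Pool.Agent.MP_1c0fc2_co.RE

variable {I T : Type} {prof : T → I → ℕ} {F H : MH prof} {Q : Type}

/-- a system of copies in pair form -/
structure GoodP (φ : Q → MEmb F H) (g : ℕ) : Prop where
  lin : H.Lin
  str : ∀ p x y d, x ≠ y → H.mem ((φ p).v x) d → H.mem ((φ p).v y) d → ∃ d0, (φ p).e d0 = d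
  b2 : ∀ p q, p ≠ q → ∀ x y, x ≠ y → x ∈ (φ p).Bag → y ∈ (φ p).Bag → x ∈ (φ q).Bag →
    y ∈ (φ q).Bag → ∃ d, x ∈ H.WB d ∧ y ∈ H.WB d
  pair : ∀ p (C : Set (H.V ⊕ H.E)), C.ncard ≤ g → Disjoint C (φ p).Bag →
    ConnOn (Tog (range fun q => (φ q).Bag)) C → ∀ x ∈ (φ p).Bag, ∀ y ∈ (φ p).Bag, x ≠ y →
    (∃ c ∈ C, Tog (range fun q => (φ q).Bag) x c) →
    (∃ c ∈ C, Tog (range fun q => (φ q).Bag) y c) →
    ∃ q, x ∈ (φ q).Bag ∧ y ∈ (φ q).Bag ∧ ((φ q).Bag ∩ C).Nonempty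

theorem xmt1b_inl {ψ : MEmb F H} {v : H.V} : Sum.inl v ∈ ψ.Bag ↔ ∃ u, ψ.v u = v := by
  constructor
  · rintro ⟨z | z, h⟩
    · exact ⟨z, Sum.inl_injective h⟩
    · exact (Sum.inr_ne_inl h).elim
  · rintro ⟨u, rfl⟩
    exact ⟨.inl u, rfl⟩

theorem xmt1b_inr {ψ : MEmb F H} {d : H.E} : Sum.inr d ∈ ψ.Bag ↔ ∃ u, ψ.e u = d := by
  constructor
  · rintro ⟨z | z, h⟩
    · exact (Sum.inl_ne_inr h).elim
    · exact ⟨z, Sum.inr_injective h⟩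
  · rintro ⟨u, rfl⟩
    exact ⟨.inr u, rfl⟩

theorem xmt1b_wb {ψ : MEmb F H} {d : H.E} (h : Sum.inr d ∈ ψ.Bag) : H.WB d ⊆ ψ.Bag := by
  obtain ⟨f, rfl⟩ := xmt1b_inr.1 h
  rintro _ (rfl | ⟨v, hv, rfl⟩)
  · exact h
  · obtain ⟨x, -, rfl⟩ := (ψ.mem_iff _ _).1 hv
    exact ⟨.inl x, rfl⟩

theorem xmt1b_eq {d e : H.E} (h : Sum.inr d ∈ H.WB e) : d = e := by
  rcases h with h | ⟨v, -, h⟩
  · exact Sum.inr_injective h
  · exact (Sum.inr_ne_inl h).elim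

theorem xmt1b_mem {ψ : MEmb F H}
    (hs : ∀ x y d, x ≠ y → H.mem (ψ.v x) d → H.mem (ψ.v y) d → ∃ d0, ψ.e d0 = d) {d : H.E}
    {x y : H.V ⊕ H.E} (hxy : x ≠ y) (hx : x ∈ ψ.Bag) (hy : y ∈ ψ.Bag) (hxd : x ∈ H.WB d)
    (hyd : y ∈ H.WB d) : Sum.inr d ∈ ψ.Bag := by
  rcases hxd with rfl | ⟨u, hu, rfl⟩
  · exact hx
  rcases hyd with rfl | ⟨v, hv, rfl⟩
  · exact hy
  obtain ⟨u, rfl⟩ := xmt1b_inl.1 hx
  obtain ⟨v, rfl⟩ := xmt1b_inl.1 hy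
  exact xmt1b_inr.2 (hs u v d (fun e => hxy (by rw [e])) hu hv)

theorem GoodP.thin {φ : Q → MEmb F H} {g : ℕ} (h : GoodP φ g) (p : Q) :
    Thin (range fun q => (φ q).Bag) H.Lk g (φ p).Bag := by
  intro C hC hd hc
  have key : ∀ x ∈ At (range fun q => (φ q).Bag) (φ p).Bag C,
      ∀ y ∈ At (range fun q => (φ q).Bag) (φ p).Bag C, x ≠ y → ∃ d q, x ∈ H.WB d ∧ y ∈ H.WB d ∧
        Sum.inr d ∈ (φ p).Bag ∧ Sum.inr d ∈ (φ q).Bag ∧ ((φ q).Bag ∩ C).Nonempty := by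
    intro x hx y hy hxy
    obtain ⟨q, h1, h2, c, h3, h4⟩ := h.pair p C hC hd hc x hx.1 y hy.1 hxy hx.2 hy.2
    have hpq : p ≠ q := by
      rintro rfl
      exact Set.disjoint_left.1 hd h4 h3
    obtain ⟨d, d1, d2⟩ := h.b2 p q hpq x y hxy hx.1 hy.1 h1 h2
    exact ⟨d, q, d1, d2, xmt1b_mem (h.str p) hxy hx.1 hy.1 d1 d2,
      xmt1b_mem (h.str q) hxy h1 h2 d1 d2, c, h3, h4⟩
  by_cases hs : (At (range fun q => (φ q).Bag) (φ p).Bag C).Subsingleton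
  · rcases hs.eq_empty_or_singleton with e | ⟨w, e⟩
    · exact .inl e
    obtain ⟨hw, c, hc', _, ⟨q, rfl⟩, n2, n3⟩ := e.ge (mem_singleton w)
    rcases w with v | d
    · exact .inr ⟨{.inl v}, .inl ⟨v, rfl⟩, e.le, singleton_subset_iff.2 hw, _, ⟨q, rfl⟩,
        singleton_subset_iff.2 n2, c, n3, hc'⟩
    · exact .inr ⟨H.WB d, .inr ⟨d, rfl⟩, e.le.trans (singleton_subset_iff.2 (.inl rfl)),
        xmt1b_wb hw, _, ⟨q, rfl⟩, xmt1b_wb n2, c, n3, hc'⟩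
  · obtain ⟨x, hx, y, hy, hxy⟩ := not_subsingleton_iff.1 hs
    obtain ⟨d, q, -, -, d3, d4, c, c1, c2⟩ := key x hx y hy hxy
    refine .inr ⟨H.WB d, .inr ⟨d, rfl⟩, fun z hz => ?_, xmt1b_wb d3, _, ⟨q, rfl⟩, xmt1b_wb d4,
      c, c1, c2⟩
    by_cases e : z = .inr d
    · exact .inl e
    obtain ⟨d', -, e1, e2, -⟩ := key z hz _ ⟨d3, c, c2, _, ⟨q, rfl⟩, d4, c1⟩ e
    rwa [xmt1b_eq e2]

/-- the covered part of the host -/
def xmt1b_H [Finite Q] (φ : Q → MEmb F H) : MH prof where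
  V := {v : H.V // ∃ p x, (φ p).v x = v}
  E := {d : H.E // ∃ p x, (φ p).e x = d}
  kd := fun v => H.kd v.1
  ty := fun d => H.ty d.1
  mem := fun v d => H.mem v.1 d.1
  shape := by
    rintro ⟨_, p, f, rfl⟩ i
    rw [← H.shape, ← Set.ncard_image_of_injective _ Subtype.val_injective]
    congr 1
    ext v
    constructor
    · rintro ⟨w, h, rfl⟩
      exact h
    · rintro ⟨h1, h2⟩
      obtain ⟨x, -, hx⟩ := ((φ p).mem_iff _ _).1 h1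
      exact ⟨⟨v, p, x, hx⟩, ⟨h1, h2⟩, rfl⟩

def xmt1b_φ [Finite Q] (φ : Q → MEmb F H) (p : Q) : MEmb F (xmt1b_H φ) where
  v := fun x => ⟨(φ p).v x, p, x, rfl⟩
  e := fun x => ⟨(φ p).e x, p, x, rfl⟩
  v_inj := fun _ _ h => (φ p).v_inj (congrArg Subtype.val h)
  e_inj := fun _ _ h => (φ p).e_inj (congrArg Subtype.val h)
  kd_v := (φ p).kd_v
  ty_e := (φ p).ty_e
  mem_iff := fun y d => ((φ p).mem_iff y.1 d).trans
    (exists_congr fun _ => and_congr_right fun _ => ⟨fun h => Subtype.ext h, congrArg Subtype.val⟩)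

theorem GoodP.restrict [Finite Q] {φ : Q → MEmb F H} {g : ℕ} (h : GoodP φ g) {κ : Type}
    [Nonempty κ] {S : Set T} (hr : MRam φ κ S) :
    ∃ (H' : MH prof) (φ' : Q → MEmb F H'), Good φ' g ∧ MRam φ' κ S := by
  let j : (xmt1b_H φ).V ⊕ (xmt1b_H φ).E → H.V ⊕ H.E := Sum.map Subtype.val Subtype.val
  have hj : Injective j := Subtype.val_injective.sumMap Subtype.val_injective
  have hb : ∀ p x, j x ∈ (φ p).Bag ↔ x ∈ (xmt1b_φ φ p).Bag := by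
    refine fun p x => ⟨?_, ?_⟩
    · rintro ⟨y | y, e⟩
      · exact ⟨.inl y, hj e⟩
      · exact ⟨.inr y, hj e⟩
    · rintro ⟨y | y, rfl⟩
      · exact ⟨.inl y, rfl⟩
      · exact ⟨.inr y, rfl⟩
  have ht : ∀ x y, Tog (range fun q => (xmt1b_φ φ q).Bag) x y →
      Tog (range fun q => (φ q).Bag) (j x) (j y) := by
    rintro x y ⟨_, ⟨q, rfl⟩, h1, h2⟩
    exact ⟨_, ⟨q, rfl⟩, (hb _ _).2 h1, (hb _ _).2 h2⟩
  have hP : GoodP (xmt1b_φ φ) g := by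
    refine ⟨fun e e' u v huv a1 a2 a3 a4 => Subtype.ext
      (h.lin e.1 e'.1 u.1 v.1 (Subtype.val_injective.ne huv) a1 a2 a3 a4), ?_, ?_, ?_⟩
    · intro p x y d hxy hx hy
      obtain ⟨d0, e⟩ := h.str p x y d.1 hxy hx hy
      exact ⟨d0, Subtype.ext e⟩
    · intro p q hpq x y hxy a1 a2 a3 a4
      have b1 := (hb _ _).2 a1
      have b2 := (hb _ _).2 a2
      obtain ⟨d, d1, d2⟩ := h.b2 p q hpq _ _ (hj.ne hxy) b1 b2 ((hb _ _).2 a3) ((hb _ _).2 a4)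
      obtain ⟨f, rfl⟩ := xmt1b_inr.1 (xmt1b_mem (h.str p) (hj.ne hxy) b1 b2 d1 d2)
      have k : ∀ z, j z ∈ H.WB ((φ p).e f) → z ∈ (xmt1b_H φ).WB ((xmt1b_φ φ p).e f) := by
        rintro (z | z) hz
        · rcases hz with e | ⟨v, hv, e⟩
          · exact (Sum.inl_ne_inr e).elim
          · obtain rfl : z.1 = v := Sum.inl_injective e
            exact .inr ⟨z, hv, rfl⟩
        · exact .inl (congrArg Sum.inr (Subtype.ext (xmt1b_eq hz)))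
      exact ⟨_, k x d1, k y d2⟩
    · rintro p C hC hd hc x hx y hy hxy ⟨a, ha, hxa⟩ ⟨b, hb', hyb⟩
      obtain ⟨q, q1, q2, _, q3, c, q4, rfl⟩ := h.pair p (j '' C)
        ((Set.ncard_image_of_injective _ hj).trans_le hC)
        (Set.disjoint_left.2 (by
          rintro _ ⟨c, hc', rfl⟩ e
          exact Set.disjoint_left.1 hd hc' ((hb _ _).1 e)))
        (hc.image j fun u _ v _ e => .inr (ht u v e)) _ ((hb _ _).2 hx) _ ((hb _ _).2 hy)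
        (hj.ne hxy) ⟨_, ⟨a, ha, rfl⟩, ht _ _ hxa⟩ ⟨_, ⟨b, hb', rfl⟩, ht _ _ hyb⟩
      exact ⟨q, (hb _ _).1 q1, (hb _ _).1 q2, c, (hb _ _).1 q3, q4⟩
  refine ⟨_, xmt1b_φ φ, ⟨hP.lin, hP.str, ?_, hP.b2, hP.thin⟩, fun χ => ?_⟩
  · rintro (⟨_, p, x, rfl⟩ | ⟨_, p, x, rfl⟩)
    · exact ⟨p, .inl x, rfl⟩
    · exact ⟨p, .inr x, rfl⟩
  · obtain ⟨p, hp⟩ := hr (Function.extend Subtype.val χ fun _ => Classical.arbitrary κ)
    refine ⟨p, fun d d' h1 h2 => ?_⟩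
    have := hp d d' h1 h2
    rwa [show (φ p).e d = ((xmt1b_φ φ p).e d).1 from rfl,
      show (φ p).e d' = ((xmt1b_φ φ p).e d').1 from rfl, Subtype.val_injective.extend_apply,
      Subtype.val_injective.extend_apply] at this

end Pool.Agent.MP_1c0fc2_co.RE

end

section

/-! The parameters of the engine in the four cases. -/

open Function Set Relation

namespace Pool.Agent.MP_1c0fc2_co.RE

section
variable {U W : Type} {A : SimpleGraph U} {E : EP U} {H : SimpleGraph W} {P : Par}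

theorem xparam_cut_le (S : Set U) : cutG A S ≤ A := fun _ _ h => h.1

theorem xparam_cov_le (S : Set U) : covG A S ≤ A := fun _ _ h => h.1

/-- the colour classes of the different kinds of bags -/
theorem xparam_kind (hE : E.Ok A) {old red : SimpleGraph U} {top : Prop}
    (h : Kind A E old red top) (d : Bool) :
    (¬ top ∧ old = E.M d ∧ cc A red d = A \ E.M d) ∨ (old = E.M (!d) ∧ cc A red d = E.M (!d)) ∨
      (old = E.F ∧ ((d = true ∧ cc A red d = A \ E.F) ∨ cc A red d = E.F)) ∨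
      (old = ⊥ ∧ (cc A red d = cc A (cutG A E.S) d ∨ cc A red d = cc A (covG A E.S) d)) := by
  rcases h with ⟨h1, h2, c, h3, h4⟩ | ⟨-, h2, h3⟩ | ⟨-, h2, h3 | h3⟩
  · by_cases e : c = d
    · subst e
      exact .inl ⟨h1, h3, h4⟩
    · have e' : d = !c := by cases c <;> cases d <;> simp_all
      subst e'
      rw [Bool.not_not]
      exact .inr (.inl ⟨h3, cc_of_sdiff h2 (hE.M_le c) h4⟩)
  · subst h3
    refine .inr (.inr (.inl ⟨h2, ?_⟩))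
    cases d
    · exact .inr (cc_of_sdiff (c := true) sdiff_le hE.F_le rfl)
    · exact .inl ⟨rfl, rfl⟩
  · exact .inr (.inr (.inr ⟨h2, .inl (by rw [h3])⟩))
  · exact .inr (.inr (.inr ⟨h2, .inr (by rw [h3])⟩))

/-- sets with exactly one point in `I` are not monochromatic -/
theorem xparam_one {I O : Set U} {v : U} (h : O ∩ I = {v}) (d : Bool) :
    ¬ TwoConn (cc A (cutG A I) d) O ∧ ¬ TwoConn (cc A (covG A I) d) O := by
  have hv : v ∈ O ∩ I := h ▸ rfl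
  have hn : ∀ x ∈ O, x ≠ v → x ∉ I := fun x hx e hI => e (h ▸ ⟨hx, hI⟩ : x ∈ ({v} : Set U))
  cases d
  · refine ⟨fun h2 => ?_, fun h2 => ?_⟩
    · obtain ⟨w, hw, e⟩ := h2.nbr' hv.1
      exact e.2 ⟨e.1, iff_of_true hv.2 (hn w hw e.1.ne')⟩
    · obtain ⟨w, -, e⟩ := h2.nbr' hv.1
      exact e.2 ⟨e.1, .inl hv.2⟩
  · refine ⟨fun h2 => ?_, fun h2 => ?_⟩
    · obtain ⟨x, hx, h3, -⟩ := h2.exists_ne v v
      obtain ⟨y, hy, h4, e⟩ := h2.nbr hx v h3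
      exact hn x hx h3 (e.2.2 (hn y hy h4))
    · obtain ⟨x, hx, h3, -⟩ := h2.exists_ne v v
      obtain ⟨y, hy, h4, e⟩ := h2.nbr hx v h3
      exact e.2.elim (hn x hx h3) (hn y hy h4)

theorem xparam_noTH {J : SimpleGraph U} (h : ∀ S, ¬ TS P H J S) (S : Set U) : ¬ TH P H J S :=
  fun hS =>
    let ⟨_, ha⟩ := hS.1.nonempty
    let ⟨D, _, h2, _⟩ := hS.ts ha
    h D h2

variable [Finite U]

theorem xparam_AS {J : SimpleGraph U} (hJ : J ≤ A) {O : Set U} (h : AS P H J O) : AS P H A O := by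
  simpa using h.map ((ih_id hJ).on O)

theorem xparam_TS {J : SimpleGraph U} (hJ : J ≤ A) {O : Set U} (h : TS P H J O) : TS P H A O := by
  simpa using h.map ((ih_id hJ).on O)

theorem xparam_eq [Finite W] (hEq : EqStmt) (hP : P.Ok H) (hA : In A H) {J : SimpleGraph U}
    (hJ : J ≤ A) {O : Set U} (h : AS P H J O) {a b : U} (ha : a ∈ O) (hb : b ∈ O)
    (e : A.Adj a b) : J.Adj a b :=
  let ⟨k, hk⟩ := hA
  hEq W U U H P hP J A id k O ((ih_id hJ).on O) (hk.on _) (.inr h) a ha b hb e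

theorem xparam_MA [Finite W] (hEq : EqStmt) (hP : P.Ok H) (hA : In A H) {M : SimpleGraph U}
    (hM : M ≤ A) (h : ∀ O, AS P H A O → ∃ a ∈ O, ∃ b ∈ O, M.Adj a b) (O : Set U) :
    ¬ AS P H (A \ M) O := fun hO =>
  let ⟨_, ha, _, hb, e⟩ := h O (xparam_AS sdiff_le hO)
  (xparam_eq hEq hP hA sdiff_le hO ha hb (hM e)).2 e

omit [Finite U] in
/-- a criterion for `α`-colours -/
theorem xparam_colA (hE : E.Ok A) (d : Bool) (h1 : ∀ S, ¬ AS P H (A \ E.M d) S)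
    (h2 : d = true → ∀ S, ¬ AS P H (A \ E.F) S) (h3 : Mat E.F)
    (h4 : ∀ S, ¬ AS P H (cc A (cutG A E.S) d) S) (h5 : ∀ S, ¬ AS P H (cc A (covG A E.S) d) S) :
    ColA P H A E d := by
  intro old red top hK S
  rcases xparam_kind hE hK d with ⟨-, -, e⟩ | ⟨-, e⟩ | ⟨-, ⟨e', e⟩ | e⟩ | ⟨-, e | e⟩ <;> rw [e]
  exacts [h1 S, fun h => (hE.mat _).not_two S h.two, h2 e' S, fun h => h3.not_two S h.two, h4 S,
    h5 S]

omit [Finite U] in
/-- a criterion for `T`-colours -/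
theorem xparam_colT (hE : E.Ok A) (d : Bool) (h0 : Bridge P H A (E.M d))
    (h1 : ∀ S, ¬ TH P H (A \ E.M d) S) (h2 : d = true → ∀ S, ¬ TS P H (A \ E.F) S)
    (h3 : NoBack A E.F) (h4 : ∀ S, ¬ TS P H (cc A (cutG A E.S) d) S)
    (h5 : ∀ S, ¬ TS P H (cc A (covG A E.S) d) S) : ColT P H A E d := by
  intro old red top hK
  have key : (∀ S, ¬ TS P H (cc A red d) S) → NoBack A old →
      Tok P H A d old red top ∧ ∀ S, ¬ TH P H (cc A red d) S := fun k1 k2 =>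
    ⟨.inr ⟨k1, k2⟩, xparam_noTH k1⟩
  rcases xparam_kind hE hK d with ⟨e1, e2, e⟩ | ⟨e2, e⟩ | ⟨e2, ⟨e', e⟩ | e⟩ | ⟨e2, e | e⟩
  · subst e2
    exact ⟨.inl ⟨e1, e, h0⟩, by rwa [e]⟩
  · exact key (fun S h => (hE.mat _).not_two S (e ▸ h.two)) (e2 ▸ (hE.mat _).noBack)
  · exact key (e ▸ h2 e') (e2 ▸ h3)
  · exact key (fun S h => h3.not_two hE.F_le S (e ▸ h.two)) (e2 ▸ h3)
  · exact key (e ▸ h4) (e2 ▸ noBack_bot)
  · exact key (e ▸ h5) (e2 ▸ noBack_bot)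

end

theorem param_stmt (hEq : EqStmt) (hK3 : K3Stmt) (hAtomA : AtomAStmt) (hL6 : L6Stmt)
    (hMA : MAStmt) (hIA : IAStmt) (hFP : FPStmt) (hMI : MIStmt) : ParamStmt := by
  intro W U _ _ H P hP m hm A hA
  have hAt := hAtomA W U H P hP A hA
  obtain ⟨MI, i1, i2, i3, i4⟩ := hMI W U H P hP A hA
  obtain ⟨I, -, hI⟩ := hIA U A _ hAt
  have h3 : P.vA = 3 → ∃ E : EP U, E.Ok A ∧ ∀ d, ColT P H A E d := by
    intro hv
    obtain ⟨⟨k1, k2, -⟩, k3⟩ := hK3 W U H P hP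
    have hT : P.vT = 3 := by omega
    have e : AS P H A = Tri A := funext fun S => propext ((k3 A S).2.2 hv)
    rw [e] at hAt hI
    obtain ⟨F, f1, f2, f3, f4⟩ := hFP U A hAt
    have hE : EP.Ok ⟨fun _ => MI, F, I⟩ A := ⟨fun _ => i1, fun _ => i2, f1, f2⟩
    have hI' : ∀ J ≤ A, ∀ S, TS P H J S → ∃ v, S ∩ I = {v} := fun J hJ S hS =>
      hI S (((k3 A S).2.1 hT).1 (xparam_TS hJ hS))
    refine ⟨_, hE, fun d => xparam_colT hE d i3 i4 (fun _ S hS => ?_) f3 (fun S hS => ?_)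
      fun S hS => ?_⟩
    · obtain ⟨a, ha, b, hb, e⟩ := f4 S (((k3 A S).2.1 hT).1 (xparam_TS sdiff_le hS))
      exact ((((k3 _ S).2.1 hT).1 hS).adj ha hb e.ne).2 e
    · obtain ⟨v, hv⟩ := hI' _ (cc_le (xparam_cut_le _) d) S hS
      exact (xparam_one hv d).1 hS.two
    · obtain ⟨v, hv⟩ := hI' _ (cc_le (xparam_cov_le _) d) S hS
      exact (xparam_one hv d).2 hS.two
  have h4 : 4 ≤ P.vA → ∃ M, M ≤ A ∧ Mat M ∧ ∀ S, ¬ AS P H (A \ M) S := by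
    intro hv
    obtain ⟨M, m1, m2, m3⟩ := hMA U A _ hAt fun O hO => hO.2.1 ▸ hv
    exact ⟨M, m1, m2, xparam_MA hEq hP hA m1 m3⟩
  cases m
  · obtain ⟨M, m1, m2, m3⟩ := h4 hm.1
    obtain ⟨Y, y1, y2⟩ := hL6 W U H P hP hm.1 A hA
    have hE : EP.Ok ⟨fun c => cond c M MI, M, Y⟩ A :=
      ⟨fun c => by cases c <;> assumption, fun c => by cases c <;> assumption, m1, m2.bip⟩
    refine ⟨_, hE, xparam_colA hE true m3 (fun _ => m3) m2 (fun S hS => ?_) (fun S hS => ?_),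
      xparam_colT hE false i3 i4 (fun e => absurd e Bool.false_ne_true) m2.noBack
        (fun S hS => ?_) fun S hS => ?_⟩
    · obtain ⟨a, ha, b, hb, a1, b1, e⟩ := y2 S (xparam_AS (xparam_cut_le _) hS)
      exact a1 ((xparam_eq hEq hP hA (xparam_cut_le _) hS ha hb e).2.2 b1)
    · obtain ⟨a, ha, b, hb, a1, b1, e⟩ := y2 S (xparam_AS (xparam_cov_le _) hS)
      exact (xparam_eq hEq hP hA (xparam_cov_le _) hS ha hb e).2.elim a1 b1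
    · obtain ⟨k1, k2⟩ := y1 S (xparam_TS sdiff_le hS)
      obtain ⟨b, hb, b1⟩ := not_subset.1 k1
      obtain ⟨a, ha, a1⟩ := not_subset.1 k2
      obtain ⟨x, -, y, -, x1, x2, e⟩ := hS.two.conn.cross ha hb (not_not.1 a1) b1
      exact e.2 ⟨e.1, iff_of_true x1 x2⟩
    · refine (y1 S (xparam_TS sdiff_le hS)).2 fun a ha a1 => ?_
      obtain ⟨c, -, e⟩ := hS.two.nbr' ha
      exact e.2 ⟨e.1, .inl a1⟩
  · obtain ⟨E, h1, h2⟩ := h3 hm.1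
    exact ⟨E, h1, h2 _, h2 _⟩
  · obtain ⟨M, m1, m2, m3⟩ := h4 hm.1
    have hE : EP.Ok ⟨fun _ => M, M, I⟩ A := ⟨fun _ => m1, fun _ => m2, m1, m2.bip⟩
    have key : ∀ d, ColA P H A ⟨fun _ => M, M, I⟩ d := fun d => by
      refine xparam_colA hE d m3 (fun _ => m3) m2 (fun S hS => ?_) fun S hS => ?_
      · obtain ⟨v, hv⟩ := hI S (xparam_AS (cc_le (xparam_cut_le _) d) hS)
        exact (xparam_one hv d).1 hS.two
      · obtain ⟨v, hv⟩ := hI S (xparam_AS (cc_le (xparam_cov_le _) d) hS)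
        exact (xparam_one hv d).2 hS.two
    exact ⟨_, hE, key _, key _⟩
  · obtain ⟨E, h1, h2⟩ := h3 hm.1
    exact ⟨E, h1, h2 _, h2 _⟩

end Pool.Agent.MP_1c0fc2_co.RE

end

section

/-! A lower node with few ports. -/

open Function Set Relation

namespace Pool.Agent.MP_1c0fc2_co.RE

theorem xpi_bag {U V : Type} {A : SimpleGraph U} {G R : SimpleGraph V} {Ls : Set (Set V)}
    {Bs : Set (Bag U V)} {g : ℕ} (h : Pre A G R Ls Bs g) (c : Bool) {β : Bag U V} (hβ : β ∈ Bs)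
    {L : Set V} (hL : L ∈ Ls) {P : Set V} (h1 : P ⊆ L) (h2 : P ⊆ range β.f) {s q : V} (hs : s ∈ P)
    (hq : q ∈ range β.f) (hqL : q ∉ L) (e : (cc G R c).Adj s q) :
    P.Subsingleton ∨ ∃ a b, (cc G R (!c)).Adj a b ∧ P = {a, b} := by
  refine or_iff_not_imp_left.2 fun hn => ?_
  obtain ⟨p, hp, hps⟩ := (not_subsingleton_iff.1 hn).exists_ne s
  obtain ⟨a, rfl⟩ := h2 hs
  obtain ⟨b, rfl⟩ := h2 hp
  obtain ⟨a', rfl⟩ := hq
  obtain ⟨ht, hab⟩ := h.lb L hL β hβ a b (fun e => hps (by rw [e])) (h1 hs) (h1 hp)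
  obtain ⟨hm, c', hc'⟩ := h.low β hβ ht
  have e1 := (h.ccol hβ c a a').1 e
  have e2 : (cc A β.red c').Adj a a' := by
    rw [hc']
    exact ⟨cc_le (h.red_le hβ) c e1, fun e' => hqL (hm a b a' hab e' ▸ h1 hp)⟩
  obtain rfl : c = c' := by
    by_contra e'
    rw [Bool.eq_not_of_ne e'] at e1
    exact cc_not e2 e1
  refine ⟨β.f a, β.f b, (h.ccol hβ _ a b).2 ?_, Subset.antisymm (fun z hz => ?_)
    (pair_subset hs hp)⟩
  · rwa [cc_of_sdiff (h.red_le hβ) (h.old β hβ) hc']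
  · obtain ⟨a'', rfl⟩ := h2 hz
    by_cases e' : a = a''
    · exact .inl (by rw [e'])
    · exact .inr (congrArg β.f (hm a a'' b (h.lb L hL β hβ a a'' e' (h1 hs) (h1 hz)).2 hab))

theorem pi_stmt (hLeaf : LeafStmt) : PiStmt := by
  intro U V _ _ A G R Ls Bs g h c 𝒢 h𝒢 ⟨L0, hL0⟩ ν0 hν0 hν Y hY hsub
  set Z : Set V := {p | p ∈ Y ∧ ∃ q ∈ Y, (cc G R c).Adj p q ∧ ∀ L ∈ Ls, p ∈ L → q ∉ L} with hZ
  have hZY : Z ⊆ Y := fun _ hp => hp.1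
  have hP : ∀ L ∈ 𝒢, {p | p ∈ Y ∩ L ∧ ∃ q ∈ Y \ L, (cc G R c).Adj p q} = Z ∩ L := fun L hL => by
    ext p
    constructor
    · rintro ⟨⟨h1, h2⟩, q, ⟨h3, h4⟩, h5⟩
      exact ⟨⟨h1, q, h3, h5, fun L' hL' h6 => h.eq_of_mem (h𝒢 hL) hL' h2 h6 ▸ h4⟩, h2⟩
    · rintro ⟨⟨h1, q, h3, h5, h6⟩, h2⟩
      exact ⟨⟨h1, h2⟩, q, ⟨h3, h6 L (h𝒢 hL) h2⟩, h5⟩
  have hq : ∀ p ∈ Z, ∃ q ∈ Z, (cc G R c).Adj p q ∧ ∀ L ∈ Ls, p ∈ L → q ∉ L :=
    fun p ⟨h1, q, h3, h5, h6⟩ =>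
      ⟨q, ⟨h3, p, h1, h5.symm, fun L hL h7 h8 => h6 L hL h8 h7⟩, h5, h6⟩
  rcases hLeaf V (Nodes Ls Bs) (GLk G) g h.thin Z ((ncard_le_ncard hZY (toFinite _)).trans hY)
    (fun z hz => (hsub hz.1).elim (fun e => ⟨ν0, hν0, e⟩) fun ⟨L, hL, e⟩ => ⟨L, .inl (h𝒢 hL), e⟩)
    ν0 hν0 with h1 | ⟨μ, hμ, ℓ, -, -, ⟨s, hs⟩, h1⟩
  · refine ⟨L0, hL0, ?_⟩
    rw [hP L0 hL0]
    rcases (Z ∩ L0).eq_empty_or_nonempty with e | ⟨s, hs⟩
    · exact .inl (e ▸ subsingleton_empty)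
    rcases hν0 with hν0 | ⟨β, hβ, rfl⟩
    · exact absurd (h.eq_of_mem (h𝒢 hL0) hν0 hs.2 (h1 hs.1) ▸ hL0) hν
    · obtain ⟨q, h2, h3, h4⟩ := hq s hs.1
      exact xpi_bag h c hβ (h𝒢 hL0) inter_subset_right (inter_subset_left.trans h1) hs (h1 h2)
        (h4 L0 (h𝒢 hL0) hs.2) h3
  · obtain ⟨h2, h3⟩ := h1 s hs
    obtain ⟨L, hL, hsL⟩ := (hsub hs.1.1.1).resolve_left h2
    obtain ⟨q, h4, h5, h6⟩ := hq s hs.1.1
    have h7 := h3 q h4 (h.tog (cc_le h.le c h5))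
    refine ⟨L, hL, ?_⟩
    rw [hP L hL]
    rcases hμ with hμ | ⟨β, hβ, rfl⟩
    · exact absurd h7 (h6 μ hμ hs.1.2)
    · exact xpi_bag h c hβ (h𝒢 hL) inter_subset_right
        (fun z hz => h3 z hz.1 ⟨L, .inl (h𝒢 hL), hsL, hz.2⟩) ⟨hs.1.1, hsL⟩ h7
        (h6 L (h𝒢 hL) hsL) h5

end Pool.Agent.MP_1c0fc2_co.RE

end

section

/-! The protection step: definitions and local facts. -/

open Function Set Relation

namespace Pool.Agent.MP_1c0fc2_co.RE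

/-- union of images of a graph -/
def imG {I U V : Type} (f : I → U → V) (J : SimpleGraph U) : SimpleGraph V where
  Adj a b := a ≠ b ∧ ∃ i s t, J.Adj s t ∧ f i s = a ∧ f i t = b
  symm := ⟨fun _ _ ⟨h, i, s, t, h1, h2, h3⟩ => ⟨h.symm, i, t, s, h1.symm, h3, h2⟩⟩
  loopless := ⟨fun _ h => h.1 rfl⟩

theorem imG_adj {I U V : Type} {f : I → U → V} {J : SimpleGraph U} {i : I}
    (hf : Injective (f i)) {s t : U} (h : J.Adj s t) : (imG f J).Adj (f i s) (f i t) :=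
  ⟨hf.ne h.ne, i, s, t, h, rfl, rfl⟩

theorem imG_mono {I U V : Type} (f : I → U → V) {J J' : SimpleGraph U} (h : J ≤ J') :
    imG f J ≤ imG f J' := fun _ _ ⟨h0, i, s, t, h1, h2⟩ => ⟨h0, i, s, t, h h1, h2⟩

variable {U V Z Q κ Φ : Type}

/-- the copy of the old graph at the point `n` -/
def pι (Q κ U : Type) (n : Z) (z : V) : (Z × V) ⊕ (Q × κ × U) := .inl (n, z)

theorem pι_inj (n : Z) : Injective (pι (V := V) Q κ U n) := fun _ _ h =>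
  congrArg Prod.snd (Sum.inl_injective h)

theorem pι_eq {n n' : Z} {z z' : V} (h : pι Q κ U n z = pι Q κ U n' z') : n = n' ∧ z = z' :=
  Prod.ext_iff.1 (Sum.inl_injective h)

/-- the data of the protection step -/
structure PS (M : SimpleGraph U) (x y : Φ → U) (u v : κ → V) (φ : Q → κ × Φ → Z)
    (β : Q × κ → U → (Z × V) ⊕ (Q × κ × U)) : Prop where
  adj : ∀ a b, M.Adj a b ↔ ∃ f, Ends x y f a b
  xi : Injective x
  yi : Injective y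
  xy : ∀ f f', x f ≠ y f'
  uv : ∀ e, u e ≠ v e
  φi : ∀ p, Injective (φ p)
  b2 : ∀ p q, p ≠ q → (range (φ p) ∩ range (φ q)).Subsingleton
  bx : ∀ j f, β j (x f) = pι Q κ U (φ j.1 (j.2, f)) (u j.2)
  by' : ∀ j f, β j (y f) = pι Q κ U (φ j.1 (j.2, f)) (v j.2)
  br : ∀ j a, a ∉ M.support → β j a = .inr (j.1, j.2, a)

theorem exists_ps {M : SimpleGraph U} (hM : Mat M) (hB : Bip M) {u v : κ → V}
    (huv : ∀ e, u e ≠ v e) : ∃ (Φ : Type) (x y : Φ → U), Injective (fun f => (x f, y f)) ∧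
      ∀ (Z Q : Type) (φ : Q → κ × Φ → Z), (∀ p, Injective (φ p)) →
      (∀ p q, p ≠ q → (range (φ p) ∩ range (φ q)).Subsingleton) → ∃ β, PS M x y u v φ β := by
  classical
  obtain ⟨s, hs⟩ := hB
  let Φ := {d : U × U // M.Adj d.1 d.2 ∧ s d.1 = true}
  have xi : Injective fun f : Φ => f.1.1 := fun f f' e =>
    Subtype.ext (Prod.ext e (hM _ _ _ f.2.1 ((show f.1.1 = f'.1.1 from e) ▸ f'.2.1)))
  have yi : Injective fun f : Φ => f.1.2 := fun f f' e =>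
    Subtype.ext (Prod.ext (hM _ _ _ f.2.1.symm ((show f.1.2 = f'.1.2 from e) ▸ f'.2.1.symm)) e)
  have xy : ∀ f f' : Φ, f.1.1 ≠ f'.1.2 := fun f f' e =>
    hs _ _ f'.2.1 (f'.2.2.trans (e ▸ f.2.2.symm))
  refine ⟨Φ, fun f => f.1.1, fun f => f.1.2, Subtype.val_injective, fun Z Q φ h1 h2 =>
    ⟨fun j a => if h : ∃ f : Φ, f.1.1 = a then pι Q κ U (φ j.1 (j.2, h.choose)) (u j.2)
      else if h : ∃ f : Φ, f.1.2 = a then pι Q κ U (φ j.1 (j.2, h.choose)) (v j.2)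
      else .inr (j.1, j.2, a), fun a b => ⟨fun e => ?_, ?_⟩, xi, yi, xy, huv, h1, h2,
      fun j f => ?_, fun j f => ?_, fun j a ha => ?_⟩⟩
  · cases h : s a
    · refine ⟨⟨(b, a), e.symm, ?_⟩, .inr ⟨rfl, rfl⟩⟩
      have := hs a b e
      rw [h] at this
      simpa using this
    · exact ⟨⟨(a, b), e, h⟩, .inl ⟨rfl, rfl⟩⟩
  · rintro ⟨f, ⟨rfl, rfl⟩ | ⟨rfl, rfl⟩⟩
    exacts [f.2.1, f.2.1.symm]
  · have h : ∃ f' : Φ, f'.1.1 = f.1.1 := ⟨f, rfl⟩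
    rw [dif_pos h, xi h.choose_spec]
  · have h : ∃ f' : Φ, f'.1.2 = f.1.2 := ⟨f, rfl⟩
    rw [dif_neg fun ⟨f', e⟩ => xy f' f e, dif_pos h, yi h.choose_spec]
  · rw [dif_neg fun ⟨f, e⟩ => ha ⟨_, e ▸ f.2.1⟩, dif_neg fun ⟨f, e⟩ => ha ⟨_, e ▸ f.2.1.symm⟩]

variable {M : SimpleGraph U} {x y : Φ → U} {u v : κ → V} {φ : Q → κ × Φ → Z}
  {β : Q × κ → U → (Z × V) ⊕ (Q × κ × U)}

theorem PS.cases (h : PS M x y u v φ β) (a : U) :
    (∃ f, a = x f) ∨ (∃ f, a = y f) ∨ a ∉ M.support := by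
  by_cases ha : a ∈ M.support
  · obtain ⟨b, e⟩ := ha
    obtain ⟨f, e | e⟩ := (h.adj a b).1 e
    exacts [.inl ⟨f, e.1⟩, .inr (.inl ⟨f, e.1⟩)]
  · exact .inr (.inr ha)

theorem PS.inl (h : PS M x y u v φ β) {j : Q × κ} {a : U} {n : Z} {z : V}
    (e : β j a = pι Q κ U n z) :
    ∃ f, n = φ j.1 (j.2, f) ∧ ((a = x f ∧ z = u j.2) ∨ (a = y f ∧ z = v j.2)) := by
  rcases h.cases a with ⟨f, rfl⟩ | ⟨f, rfl⟩ | ha
  · rw [h.bx] at e
    exact ⟨f, (pι_eq e).1.symm, .inl ⟨rfl, (pι_eq e).2.symm⟩⟩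
  · rw [h.by'] at e
    exact ⟨f, (pι_eq e).1.symm, .inr ⟨rfl, (pι_eq e).2.symm⟩⟩
  · rw [h.br j a ha] at e
    exact absurd e Sum.inr_ne_inl

theorem PS.split (h : PS M x y u v φ β) (j : Q × κ) (a : U) :
    (∃ n z, β j a = pι Q κ U n z) ∨ β j a = .inr (j.1, j.2, a) := by
  rcases h.cases a with ⟨f, rfl⟩ | ⟨f, rfl⟩ | ha
  exacts [.inl ⟨_, _, h.bx j f⟩, .inl ⟨_, _, h.by' j f⟩, .inr (h.br j a ha)]

theorem PS.inr (h : PS M x y u v φ β) {j : Q × κ} {a : U} {r : Q × κ × U} (e : β j a = .inr r) :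
    r = (j.1, j.2, a) := by
  rcases h.split j a with ⟨n, z, e'⟩ | e'
  · exact absurd (e'.symm.trans e) Sum.inl_ne_inr
  · exact Sum.inr_injective (e.symm.trans e')

/-- two vertices of a new bag in one point -/
theorem PS.same (h : PS M x y u v φ β) {j : Q × κ} {a b : U} {n : Z} {z z' : V}
    (e : β j a = pι Q κ U n z) (e' : β j b = pι Q κ U n z') :
    (a = b ∧ z = z') ∨ (M.Adj a b ∧ ((z = u j.2 ∧ z' = v j.2) ∨ (z = v j.2 ∧ z' = u j.2))) := by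
  obtain ⟨f, h1, h2⟩ := h.inl e
  obtain ⟨f', h3, h4⟩ := h.inl e'
  obtain rfl : f = f' := congrArg Prod.snd (h.φi _ (h1.symm.trans h3))
  rcases h2 with ⟨rfl, rfl⟩ | ⟨rfl, rfl⟩ <;> rcases h4 with ⟨rfl, rfl⟩ | ⟨rfl, rfl⟩
  exacts [.inl ⟨rfl, rfl⟩, .inr ⟨(h.adj _ _).2 ⟨f, .inl ⟨rfl, rfl⟩⟩, .inl ⟨rfl, rfl⟩⟩,
    .inr ⟨(h.adj _ _).2 ⟨f, .inr ⟨rfl, rfl⟩⟩, .inr ⟨rfl, rfl⟩⟩, .inl ⟨rfl, rfl⟩]

theorem PS.old (h : PS M x y u v φ β) (j : Q × κ) {a b : U} (e : M.Adj a b) :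
    ∃ f z z', β j a = pι Q κ U (φ j.1 (j.2, f)) z ∧ β j b = pι Q κ U (φ j.1 (j.2, f)) z' ∧
      ((z = u j.2 ∧ z' = v j.2) ∨ (z = v j.2 ∧ z' = u j.2)) := by
  obtain ⟨f, ⟨rfl, rfl⟩ | ⟨rfl, rfl⟩⟩ := (h.adj a b).1 e
  exacts [⟨f, _, _, h.bx j f, h.by' j f, .inl ⟨rfl, rfl⟩⟩,
    ⟨f, _, _, h.by' j f, h.bx j f, .inr ⟨rfl, rfl⟩⟩]

theorem PS.inj (h : PS M x y u v φ β) (j : Q × κ) : Injective (β j) := fun a b e => by
  rcases h.split j a with ⟨n, z, e'⟩ | e'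
  · rcases h.same e' (e ▸ e') with k | ⟨-, k | k⟩
    exacts [k.1, absurd (k.1.symm.trans k.2) (h.uv _), absurd (k.2.symm.trans k.1) (h.uv _)]
  · exact congrArg (fun r => r.2.2) (h.inr (e ▸ e'))

/-- two new bags with a common pair that is not an old edge coincide -/
theorem PS.two (h : PS M x y u v φ β) {j j' : Q × κ} {a b a' b' : U} (hab : a ≠ b)
    (hM : ¬ M.Adj a b) (e : β j a = β j' a') (e' : β j b = β j' b') : j = j' := by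
  have k : ∀ a a', β j a = β j' a' → β j a = .inr (j.1, j.2, a) → j = j' := fun a a' e e' => by
    have : (j.1, j.2, a) = (j'.1, j'.2, a') := h.inr (e.symm.trans e')
    exact Prod.ext (congrArg (fun r : Q × κ × U => r.1) this)
      (congrArg (fun r : Q × κ × U => r.2.1) this)
  rcases h.split j a with ⟨n, z, h1⟩ | h1
  swap
  · exact k a a' e h1
  rcases h.split j b with ⟨n', z', h2⟩ | h2
  swap
  · exact k b b' e' h2
  have hn : n ≠ n' := by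
    rintro rfl
    rcases h.same h1 h2 with k | k
    exacts [hab k.1, hM k.1]
  obtain ⟨f1, k1, -⟩ := h.inl h1
  obtain ⟨f2, k2, -⟩ := h.inl h2
  obtain ⟨f3, k3, -⟩ := h.inl (e ▸ h1)
  obtain ⟨f4, k4, -⟩ := h.inl (e' ▸ h2)
  have hp : j.1 = j'.1 := by
    by_contra hp
    exact hn (h.b2 _ _ hp ⟨⟨_, k1.symm⟩, _, k3.symm⟩ ⟨⟨_, k2.symm⟩, _, k4.symm⟩)
  rw [← hp] at k3
  exact Prod.ext hp (congrArg Prod.fst (h.φi _ (k1.symm.trans k3)))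

theorem xprota_uv {J : SimpleGraph V} {a b z z' : V} (k : (z = a ∧ z' = b) ∨ (z = b ∧ z' = a)) :
    J.Adj z z' ↔ J.Adj a b := by
  rcases k with ⟨rfl, rfl⟩ | ⟨rfl, rfl⟩
  exacts [.rfl, J.adj_comm _ _]

theorem PS.adjι (h : PS M x y u v φ β) {J : SimpleGraph V} {K : SimpleGraph U}
    (hK : ∀ e s t, M.Adj s t → K.Adj s t → J.Adj (u e) (v e)) (n : Z) (z z' : V) :
    (imG (pι Q κ U) J ⊔ imG β K).Adj (pι Q κ U n z) (pι Q κ U n z') ↔ J.Adj z z' := by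
  refine ⟨?_, fun e => .inl (imG_adj (pι_inj n) e)⟩
  rintro (⟨-, n', s, t, e, h1, h2⟩ | ⟨-, j, s, t, e, h1, h2⟩)
  · exact (pι_eq h1).2 ▸ (pι_eq h2).2 ▸ e
  · rcases h.same h1 h2 with k | k
    exacts [absurd k.1 e.ne, (xprota_uv k.2).2 (hK _ s t k.1 e)]

theorem PS.adjβ (h : PS M x y u v φ β) {J : SimpleGraph V} {K : SimpleGraph U}
    (hK : ∀ e s t, M.Adj s t → (K.Adj s t ↔ J.Adj (u e) (v e))) (j : Q × κ) (a b : U) :
    (imG (pι Q κ U) J ⊔ imG β K).Adj (β j a) (β j b) ↔ K.Adj a b := by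
  by_cases hM : M.Adj a b
  · obtain ⟨f, z, z', h1, h2, k⟩ := h.old j hM
    rw [h1, h2, h.adjι fun e s t h1 h2 => (hK e s t h1).1 h2, xprota_uv k, hK j.2 a b hM]
  refine ⟨?_, fun e => .inr (imG_adj (h.inj j) e)⟩
  rintro (⟨h0, n', s, t, e, h1, h2⟩ | ⟨h0, j', s, t, e, h1, h2⟩)
  · rcases h.same h1.symm h2.symm with k | k
    exacts [absurd k.2 e.ne, absurd k.1 hM]
  · obtain rfl : j = j' := h.two (fun e => h0 (congrArg (β j) e)) hM h1.symm h2.symm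
    exact h.inj j h1 ▸ h.inj j h2 ▸ e

end Pool.Agent.MP_1c0fc2_co.RE

end

section

/-! The protection step: the frame of the new level. -/

open Function Set Relation

namespace Pool.Agent.MP_1c0fc2_co.RE

variable {U V Z Q κ Φ : Type} {M : SimpleGraph U} {x y : Φ → U} {u v : κ → V} {φ : Q → κ × Φ → Z}
  {β : Q × κ → U → (Z × V) ⊕ (Q × κ × U)}

/-- the nodes of the new level -/
def PN (N : Set (Set V)) (β : Q × κ → U → (Z × V) ⊕ (Q × κ × U)) :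
    Set (Set ((Z × V) ⊕ (Q × κ × U))) :=
  {ν | (∃ n, ν ∈ image (pι Q κ U n) '' N) ∨ ∃ j, ν = range (β j)}

theorem PS.cons (h : PS M x y u v φ β) {N : Set (Set V)} (ht : ∀ e, Tog N (u e) (v e)) {n : Z}
    {z z' : V} (hz : z ≠ z') (t : Tog (PN N β) (pι Q κ U n z) (pι Q κ U n z')) : Tog N z z' := by
  obtain ⟨_, ⟨n', ν, hν, rfl⟩ | ⟨j, rfl⟩, ⟨s, h1⟩, t, h2⟩ := t
  · exact ⟨ν, hν, (pι_eq h1.2).2 ▸ h1.1, (pι_eq h2.2).2 ▸ h2.1⟩
  · rcases h.same h1 h2 with k | ⟨-, ⟨rfl, rfl⟩ | ⟨rfl, rfl⟩⟩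
    exacts [absurd k.2 hz, ht _, (ht _).symm]

theorem PS.cons' (h : PS M x y u v φ β) {N : Set (Set V)} (ht : ∀ e, Tog N (u e) (v e)) (n : Z) :
    ∀ a b, a ≠ b → a ∈ range (pι Q κ U n) → b ∈ range (pι Q κ U n) → Tog (PN N β) a b →
      Tog (image (pι Q κ U n) '' N) a b := by
  rintro _ _ e ⟨z, rfl⟩ ⟨z', rfl⟩ t
  exact (xframe_tog (pι_inj n)).2 (h.cons ht (fun e' => e (congrArg _ e')) t)

theorem xprotb_lk {G : SimpleGraph V} {W : Type} {G' : SimpleGraph W} {f : V → W}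
    (hG : ∀ z z', G.Adj z z' → G'.Adj (f z) (f z')) (ℓ : Set V) (h : GLk G ℓ) :
    GLk G' (f '' ℓ) := by
  rcases h with ⟨w, rfl⟩ | ⟨a, b, e, rfl⟩
  exacts [.inl ⟨_, image_singleton⟩, .inr ⟨_, _, hG a b e, image_pair _ _ _⟩]

theorem PS.star [Finite V] [Finite ((Z × V) ⊕ (Q × κ × U))] (h : PS M x y u v φ β)
    {N : Set (Set V)} {G : SimpleGraph V} {G' : SimpleGraph ((Z × V) ⊕ (Q × κ × U))} {g : ℕ}
    (hT : ∀ ν ∈ N, Thin N (GLk G) g ν) (ht : ∀ e, Tog N (u e) (v e))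
    (ha : ∀ e, G.Adj (u e) (v e))
    (hG : ∀ n z z', G.Adj z z' → G'.Adj (pι Q κ U n z) (pι Q κ U n z')) (j : Q × κ) :
    Star G' (β j) (fun a => {β j a}) ∅ (fun f => range (pι Q κ U (φ j.1 (j.2, f)))) x y
      (fun f => image (pι Q κ U (φ j.1 (j.2, f))) '' N) g := by
  refine ⟨fun _ => rfl, fun a a' e => disjoint_singleton.2 ((h.inj j).ne e), fun _ _ => rfl,
    fun f => h.xy f f, fun f => singleton_subset_iff.2 ⟨_, (h.bx j f).symm⟩,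
    fun f => singleton_subset_iff.2 ⟨_, (h.by' j f).symm⟩, fun f a h1 h2 => ?_,
    fun f f' e => ⟨x f, ?_⟩, ?_, fun _ _ h => h.elim, ?_, fun f => ?_, fun f => ?_, ?_, ?_⟩
  · refine disjoint_singleton_left.2 fun ⟨z, e⟩ => ?_
    obtain ⟨f', k1, k2⟩ := h.inl e.symm
    obtain rfl : f = f' := congrArg Prod.snd (h.φi _ k1)
    exact k2.elim (fun k => h1 k.1) fun k => h2 k.1
  · rintro _ ⟨⟨z, rfl⟩, z', e'⟩
    exact absurd (congrArg Prod.snd (h.φi _ (pι_eq e').1)).symm e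
  · rintro f _ ⟨ν, -, rfl⟩
    exact image_subset_range _ _
  · rintro f _ ⟨ν, hν, rfl⟩
    exact (map_stmt V _ _ N g (pι_inj _)).1 _ _ ν (xprotb_lk (hG _)) (hT ν hν)
  · rw [h.bx, h.by']
    exact (xframe_tog (pι_inj _)).2 (ht _)
  · rw [h.bx, h.by']
    exact hG _ _ _ (ha _)
  · rintro f C - - ⟨_, hc, rfl⟩ -
    exact hc
  · rintro f C - - ⟨_, hc, rfl⟩ -
    exact hc

theorem PS.thin [Finite V] [Finite Z] [Finite ((Z × V) ⊕ (Q × κ × U))] (h : PS M x y u v φ β)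
    {N : Set (Set V)} {G : SimpleGraph V} {G' : SimpleGraph ((Z × V) ⊕ (Q × κ × U))} {g : ℕ}
    (hT : ∀ ν ∈ N, Thin N (GLk G) g ν) (ht : ∀ e, Tog N (u e) (v e))
    (ha : ∀ e, G.Adj (u e) (v e))
    (hG : ∀ n z z', G.Adj z z' → G'.Adj (pι Q κ U n z) (pι Q κ U n z'))
    (hcov : ∀ n, ∃ p i, φ p i = n)
    (h0 : ∀ p, Thin (range fun q => range (φ q)) (fun ℓ => ∃ n, ℓ = {n}) g (range (φ p))) :
    (∀ ν ∈ PN N β, Thin (PN N β) (GLk G') g ν) ∧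
      ∀ n, Thin (PN N β) (GLk G') g (range (pι Q κ U n)) := by
  let SN : Q × κ → Set (Set ((Z × V) ⊕ (Q × κ × U))) := fun j =>
    StarN (β j) (fun a => {β j a}) ∅ fun f => image (pι Q κ U (φ j.1 (j.2, f))) '' N
  let XS : Q × κ → Set ((Z × V) ⊕ (Q × κ × U)) := fun j =>
    {w | w ∈ range (β j) ∨ ∃ f, w ∈ range (pι Q κ U (φ j.1 (j.2, f)))}
  have s1 : ∀ j, ∀ ν ∈ SN j, ν ⊆ XS j := by
    rintro j ν (rfl | ⟨_, h, -⟩ | ⟨f, μ, -, rfl⟩) w hw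
    exacts [.inl hw, h.elim, .inr ⟨f, image_subset_range _ _ hw⟩]
  have s2 : ∀ j n z, pι Q κ U n z ∈ XS j ↔ ∃ f, φ j.1 (j.2, f) = n := fun j n z => by
    refine ⟨?_, fun ⟨f, e⟩ => .inr ⟨f, z, by rw [e]⟩⟩
    rintro (⟨a, e⟩ | ⟨f, z', e⟩)
    exacts [(h.inl e).imp fun _ k => k.1.symm, ⟨f, (pι_eq e).1⟩]
  have s3 : ∀ j r, Sum.inr r ∈ XS j → r.1 = j.1 ∧ r.2.1 = j.2 := by
    rintro j r (⟨a, e⟩ | ⟨f, z', e⟩)
    · rw [h.inr e]
      exact ⟨rfl, rfl⟩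
    · exact absurd e Sum.inl_ne_inr
  have s4 : ∀ p e Y, Y ⊆ XS (p, e) → Thin (SN (p, e)) (GLk G') g Y →
      Thin (⋃ e, SN (p, e)) (GLk G') g Y := fun p =>
    parts_stmt _ κ (fun e => XS (p, e)) (fun e => SN (p, e)) _ g (fun e => s1 (p, e))
      fun e e' he => disjoint_left.2 fun w h1 h2 => he (by
        rcases w with ⟨n, z⟩ | r
        · obtain ⟨f, k⟩ := (s2 _ n z).1 h1
          obtain ⟨f', k'⟩ := (s2 _ n z).1 h2
          exact congrArg Prod.fst (h.φi p (k.trans k'.symm))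
        · exact (s3 _ r h1).2.symm.trans (s3 _ r h2).2)
  have s5 : (⋃ p, ⋃ e, SN (p, e)) = PN N β := by
    ext ν
    simp only [mem_iUnion]
    constructor
    · rintro ⟨p, e, rfl | ⟨_, h, -⟩ | ⟨f, h⟩⟩
      exacts [.inr ⟨_, rfl⟩, h.elim, .inl ⟨_, h⟩]
    · rintro (⟨n, h⟩ | ⟨j, rfl⟩)
      · obtain ⟨p, ⟨e, f⟩, rfl⟩ := hcov n
        exact ⟨p, e, .inr (.inr ⟨f, h⟩)⟩
      · exact ⟨j.1, j.2, .inl rfl⟩
  have s6 : ∀ p n z, (pι Q κ U n z ∈ ⋃ e, XS (p, e)) ↔ n ∈ range (φ p) := fun p n z => by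
    simp only [mem_iUnion, s2]
    exact ⟨fun ⟨e, f, k⟩ => ⟨(e, f), k⟩, fun ⟨i, k⟩ => ⟨i.1, i.2, k⟩⟩
  have s7 : ∀ r p q, (Sum.inr r ∈ ⋃ e, XS (p, e)) → (Sum.inr r ∈ ⋃ e, XS (q, e)) → p = q := by
    intro r p q h1 h2
    obtain ⟨e, h1⟩ := mem_iUnion.1 h1
    obtain ⟨e', h2⟩ := mem_iUnion.1 h2
    exact (s3 _ r h1).1.symm.trans (s3 _ r h2).1
  have s8 : ∀ p, ∀ ν ∈ ⋃ e, SN (p, e), ν ⊆ ⋃ e, XS (p, e) := fun p ν hν => by
    obtain ⟨e, hν⟩ := mem_iUnion.1 hν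
    exact (s1 _ ν hν).trans (subset_iUnion (fun e => XS (p, e)) e)
  have s9 : ∀ p, (⋃ e, SN (p, e)) ⊆ PN N β := fun p =>
    s5 ▸ subset_iUnion (fun p => ⋃ e, SN (p, e)) p
  have s10 : ∀ p q a b, a ≠ b → (a ∈ ⋃ e, XS (p, e)) → (b ∈ ⋃ e, XS (p, e)) →
      Tog (⋃ e, SN (q, e)) a b → Tog (⋃ e, SN (p, e)) a b := by
    intro p q a b e h1 h2 t
    by_cases hpq : p = q
    · exact hpq ▸ t
    obtain ⟨ν, hν, k1, k2⟩ := id t
    rcases a with ⟨n, z⟩ | r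
    swap
    · exact absurd (s7 r p q h1 (s8 q ν hν k1)) hpq
    rcases b with ⟨n', z'⟩ | r
    swap
    · exact absurd (s7 r p q h2 (s8 q ν hν k2)) hpq
    obtain rfl : n = n' := h.b2 p q hpq ⟨(s6 p n z).1 h1, (s6 q n z).1 (s8 q ν hν k1)⟩
      ⟨(s6 p n' z').1 h2, (s6 q n' z').1 (s8 q ν hν k2)⟩
    obtain ⟨⟨e', f⟩, rfl⟩ := (s6 p n z).1 h1
    exact (h.cons' ht _ _ _ e ⟨z, rfl⟩ ⟨z', rfl⟩ (t.mono (s9 q))).mono fun μ hμ =>
      mem_iUnion.2 ⟨e', .inr (.inr ⟨f, hμ⟩)⟩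
  have s11 : ∀ p e f, Thin (⋃ e, SN (p, e)) (GLk G') g (range (pι Q κ U (φ p (e, f)))) :=
    fun p e f => s4 p e _ (fun w hw => .inr ⟨f, hw⟩) ((h.star hT ht ha hG (p, e)).thinZ f)
  have s12 := glue_stmt Z _ Q (fun p => range (φ p)) (fun ℓ => ∃ n, ℓ = {n})
    (Sum.elim (fun r => some r.1) fun _ => none) (fun p => ⋃ e, XS (p, e))
    (fun p => ⋃ e, SN (p, e)) (GLk G') g h0
    (fun p q hpq => (h.b2 p q hpq).eq_empty_or_singleton.imp_right fun ⟨n, e⟩ =>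
      ⟨{n}, ⟨n, rfl⟩, e.le, e ▸ inter_subset_left, e ▸ inter_subset_right⟩)
    (by rintro (⟨n, z⟩ | r) n' p e
        · obtain rfl : n = n' := Option.some_injective _ e
          exact s6 p n z
        · cases e)
    (by rintro (⟨n, z⟩ | r) p q e
        · cases e
        · exact s7 r p q) s8 s10
    (by rintro p _ ⟨n, rfl⟩ hn
        obtain ⟨⟨e, f⟩, rfl⟩ := hn rfl
        convert s11 p e f using 1
        ext (⟨n, z⟩ | r)
        · exact ⟨fun ⟨_, k, k'⟩ => ⟨z, by rw [← k, ← Option.some_injective _ k']; rfl⟩,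
            fun ⟨z', k⟩ => ⟨_, rfl, congrArg some (pι_eq k).1.symm⟩⟩
        · exact ⟨fun ⟨_, _, k⟩ => (by cases k), fun ⟨_, k⟩ => absurd k Sum.inl_ne_inr⟩)
  rw [s5] at s12
  have s13 : ∀ p Y, (Y ⊆ ⋃ e, XS (p, e)) → Thin (⋃ e, SN (p, e)) (GLk G') g Y →
      Thin (PN N β) (GLk G') g Y := fun p Y h1 h2 =>
    local_stmt _ _ _ _ g _ Y (s12 p) (s9 p) (fun a b e k1 k2 ⟨ν, hν, t⟩ => by
      rw [← s5] at hν
      obtain ⟨q, hν⟩ := mem_iUnion.1 hν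
      exact s10 p q a b e k1 k2 ⟨ν, hν, t⟩) h1 h2 fun ℓ hℓ => hℓ.inter Y
  refine ⟨fun ν hν => ?_, fun n => ?_⟩
  · rw [← s5] at hν
    obtain ⟨p, hp⟩ := mem_iUnion.1 hν
    obtain ⟨e, he⟩ := mem_iUnion.1 hp
    exact s13 p ν (s8 p ν hp) (s4 p e ν (s1 _ ν he)
      ((star_stmt _ _ _ _ _ _ _ _ _ _ _ _ (h.star hT ht ha hG (p, e))).1 ν he))
  · obtain ⟨p, ⟨e, f⟩, rfl⟩ := hcov n
    refine s13 p _ ?_ (s11 p e f)
    rintro _ ⟨z, rfl⟩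
    exact (s6 p _ z).2 ⟨_, rfl⟩

end Pool.Agent.MP_1c0fc2_co.RE

end

section

/-! The protection step. -/

open Function Set Relation

namespace Pool.Agent.MP_1c0fc2_co.RE

section
variable {U X V Z Q κ Φ : Type} {M : SimpleGraph U} {x y : Φ → U} {u v : κ → V}
  {φ : Q → κ × Φ → Z} {β : Q × κ → U → (Z × V) ⊕ (Q × κ × U)}

/-- the new copies of the middle graph -/
def pGs (Z Q κ U : Type) (Gs : Set (X → V)) : Set (X → (Z × V) ⊕ (Q × κ × U)) :=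
  {γ' | ∃ n, ∃ γ ∈ Gs, γ' = pι Q κ U n ∘ γ}

/-- the new bags -/
def pBs (Bs : Set (Bag U V)) (β : Q × κ → U → (Z × V) ⊕ (Q × κ × U)) (M red : SimpleGraph U) :
    Set (Bag U ((Z × V) ⊕ (Q × κ × U))) :=
  {b | (∃ n, ∃ b0 ∈ Bs, b = ⟨pι Q κ U n ∘ b0.f, b0.old, b0.red, b0.top⟩) ∨
    ∃ j, b = ⟨β j, M, red, False⟩}

theorem xprot_nodes (Gs : Set (X → V)) (Bs : Set (Bag U V)) (red : SimpleGraph U) :
    Nodes (range '' pGs Z Q κ U Gs) (pBs Bs β M red) = PN (Nodes (range '' Gs) Bs) β := by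
  ext ν
  constructor
  · rintro (⟨_, ⟨n, γ, h, rfl⟩, rfl⟩ | ⟨_, ⟨n, b, h, rfl⟩ | ⟨j, rfl⟩, rfl⟩)
    exacts [.inl ⟨n, _, .inl ⟨γ, h, rfl⟩, (range_comp _ _).symm⟩,
      .inl ⟨n, _, .inr ⟨b, h, rfl⟩, (range_comp _ _).symm⟩, .inr ⟨j, rfl⟩]
  · rintro (⟨n, _, ⟨γ, h, rfl⟩ | ⟨b, h, rfl⟩, rfl⟩ | ⟨j, rfl⟩)
    exacts [.inl ⟨_, ⟨n, γ, h, rfl⟩, range_comp _ _⟩,
      .inr ⟨_, .inl ⟨n, b, h, rfl⟩, (range_comp _ _).symm⟩, .inr ⟨_, .inr ⟨j, rfl⟩, rfl⟩]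

theorem xprot_cell (Gs : Set (X → V)) (n : Z) (z : V) :
    cell (pGs Z Q κ U Gs) (pι Q κ U n z) = pι Q κ U n '' cell Gs z := by
  ext w
  constructor
  · rintro (rfl | ⟨_, ⟨n', γ, h, rfl⟩, ⟨a, e⟩, b, rfl⟩)
    · exact ⟨z, .inl rfl, rfl⟩
    · obtain ⟨rfl, rfl⟩ := pι_eq e
      exact ⟨γ b, .inr ⟨γ, h, ⟨a, rfl⟩, b, rfl⟩, rfl⟩
  · rintro ⟨z', rfl | ⟨γ, h, ⟨a, rfl⟩, b, rfl⟩, rfl⟩
    exacts [.inl rfl, .inr ⟨_, ⟨n, γ, h, rfl⟩, ⟨a, rfl⟩, b, rfl⟩]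

theorem xprot_cellr (Gs : Set (X → V)) (r : Q × κ × U) :
    cell (pGs Z Q κ U Gs) (.inr r) = {.inr r} := by
  ext w
  refine ⟨?_, fun h => .inl h⟩
  rintro (rfl | ⟨_, ⟨n', γ, h, rfl⟩, ⟨a, e⟩, -⟩)
  exacts [rfl, absurd e Sum.inl_ne_inr]

theorem PS.far [Finite V] [Finite ((Z × V) ⊕ (Q × κ × U))] (h : PS M x y u v φ β)
    {N : Set (Set V)} {G' : SimpleGraph ((Z × V) ⊕ (Q × κ × U))} {g k : ℕ} {Gs : Set (X → V)}
    (hk : k + 1 ≤ g) (hN : range '' Gs ⊆ N) (ht : ∀ e, Tog N (u e) (v e))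
    (hT : ∀ n, Thin (PN N β) (GLk G') g (range (pι Q κ U n)))
    (h1 : ∀ e, Far N k (cell Gs (u e)) (cell Gs (v e)) (u e))
    (h2 : ∀ e, Far N k (cell Gs (v e)) (cell Gs (u e)) (v e)) (j : Q × κ) {s t : U} (hst : s ≠ t)
    (hM : ¬ M.Adj s t) : Far (PN N β) (k + 1) (cell (pGs Z Q κ U Gs) (β j s))
      (cell (pGs Z Q κ U Gs) (β j t)) (β j s) := by
  rintro C hC hc ⟨w, hw, hw'⟩ ⟨d, hd, hd'⟩
  by_contra ha
  rcases h.split j s with ⟨n, z, e⟩ | e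
  swap
  · rw [e, xprot_cellr] at hw'
    exact ha (e.trans (Eq.symm hw') ▸ hw)
  obtain ⟨s', z', e', hz, hF⟩ : ∃ s' z', β j s' = pι Q κ U n z' ∧ z ≠ z' ∧
      Far N k (cell Gs z) (cell Gs z') z := by
    obtain ⟨f, rfl, ⟨rfl, rfl⟩ | ⟨rfl, rfl⟩⟩ := h.inl e
    exacts [⟨_, _, h.by' j f, h.uv _, h1 _⟩, ⟨_, _, h.bx j f, (h.uv _).symm, h2 _⟩]
  have hb : β j t ∉ range (pι Q κ U n) := fun ⟨_, k⟩ =>
    (h.same e k.symm).elim (fun k => hst k.1) fun k => hM k.1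
  have hdY : d ∉ range (pι Q κ U n) ∧ Tog (PN N β) (β j t) d := by
    rcases hd' with rfl | ⟨_, ⟨n', γ, k, rfl⟩, ⟨a, k1⟩, b, rfl⟩
    · exact ⟨hb, _, .inr ⟨j, rfl⟩, ⟨t, rfl⟩, t, rfl⟩
    · exact ⟨fun ⟨_, k2⟩ => hb ⟨γ a, by rw [(pι_eq k2).1]; exact k1⟩, _,
        .inl ⟨n', _, hN ⟨γ, k, rfl⟩, rfl⟩, ⟨_, ⟨a, rfl⟩, k1⟩, _, ⟨b, rfl⟩, rfl⟩
  rw [e, xprot_cell] at hw'
  have hwY : w ∈ range (pι Q κ U n) := image_subset_range _ _ hw'
  obtain ⟨a, ha1, b, hb1, hab⟩ := hc.comp_nb (Y := range (pι Q κ U n)) ⟨hd, hdY.1⟩ ⟨hw, hwY⟩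
  have hsz : (C \ range (pι Q κ U n)).ncard ≤ k := Nat.lt_succ_iff.1
    ((ncard_lt_ncard ⟨sdiff_subset, fun k => (k hw).2 hwY⟩).trans_le hC)
  have key := (hT n).two (C := insert (β j t) (comp (Tog (PN N β)) (C \ range (pι Q κ U n)) d))
    ((ncard_insert_le _ _).trans ((Nat.succ_le_succ ((ncard_le_ncard comp_sub).trans hsz)).trans
      hk))
    (disjoint_left.2 fun z hz => hz.elim (fun e => e ▸ hb) fun k => (comp_sub k).2)
    ((comp_conn (tog_symm _)).insert (tog_symm _) (mem_comp ⟨hd, hdY.1⟩) hdY.2)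
    (u := β j s) (v := β j s') ⟨⟨_, e.symm⟩, _, .inl rfl, _, .inr ⟨j, rfl⟩, ⟨s, rfl⟩, t, rfl⟩
    ⟨⟨_, e'.symm⟩, _, .inl rfl, _, .inr ⟨j, rfl⟩, ⟨s', rfl⟩, t, rfl⟩
    fun k => hz (pι_eq (e.symm.trans (k.trans e'))).2
  have hs' : β j s' ∈ C := by
    rcases key.2.1 ⟨hb1.2, a, .inr ha1, hab.symm⟩ with k | k
    exacts [absurd (k ▸ hb1.1) ha, k ▸ hb1.1]
  have hp := (proj_stmt _ _ _ _ g _ C (hT n) (h.cons' ht n) (hsz.trans (by omega)) hc).1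
  refine ha (e ▸ ((map_stmt V _ _ N k (pι_inj n)).2 _ _ _ hF _ ?_ hp ⟨w, ⟨hw, hwY⟩, hw'⟩
    ⟨_, ⟨hs', _, e'.symm⟩, z', .inl rfl, e'.symm⟩).1)
  exact Nat.lt_succ_iff.1
    ((ncard_lt_ncard ⟨inter_subset_left, fun k => hdY.1 (k hd).2⟩).trans_le hC)

end

theorem xprot_cc {U : Type} {A M : SimpleGraph U} (h : M ≤ A) (c : Bool) :
    ∃ red, red ≤ A ∧ cc A red (!c) = A \ M ∧ ∀ s t, M.Adj s t → (red.Adj s t ↔ c = true) := by
  cases c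
  · exact ⟨A \ M, sdiff_le, rfl, fun s t e => ⟨fun k => absurd e k.2, fun k => by cases k⟩⟩
  · exact ⟨M, h, rfl, fun s t e => ⟨fun _ => rfl, fun _ => e⟩⟩

theorem xprot_col {V : Type} {G R : SimpleGraph V} {c : Bool} {a b : V} (h : (cc G R c).Adj a b) :
    R.Adj a b ↔ c = true := by
  cases c
  exacts [⟨fun k => absurd k h.2, fun k => by cases k⟩, ⟨fun _ => rfl, fun _ => h⟩]

theorem xprot_col' {V : Type} {G R : SimpleGraph V} {c : Bool} {a b : V} (h : G.Adj a b)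
    (h' : R.Adj a b ↔ c = true) : (cc G R c).Adj a b := by
  cases c
  exacts [⟨h, fun k => by cases h'.1 k⟩, h'.2 rfl]

theorem prot_stmt (hMT0 : MT0Stmt) : ProtStmt := by
  intro U X V _ _ _ A E Γ RΓ Hub G R D Gs Bs g k c hE hk L hF
  let κ := {e : V × V // D.Adj e.1 e.2 ∧ (cc G R c).Adj e.1 e.2}
  rcases isEmpty_or_nonempty κ with hκ | ⟨⟨e0⟩⟩
  · exact ⟨V, ‹_›, G, R, D, Gs, Bs, L, fun a b e => (cc_or (L.le e) c).resolve_left fun e' =>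
      hκ.elim ⟨(a, b), e, e'⟩, fun h a b e => hκ.elim ⟨(a, b), e, h e⟩⟩
  obtain ⟨Φ, x, y, hΦ, hβ⟩ := exists_ps (hE.mat (!c)) (hE.mat (!c)).bip
    (u := fun e : κ => e.1.1) (v := fun e => e.1.2) fun e => e.2.1.ne
  have : Finite Φ := .of_injective _ hΦ
  obtain ⟨Z, Q, _, _, φ, φ1, φ2, φ3, φ4, φ5⟩ := hMT0 (κ × Φ) (V → V → Prop) g
  obtain ⟨β, h⟩ := hβ Z Q φ φ1 φ3
  obtain ⟨red, r1, r2, r3⟩ := xprot_cc (hE.M_le (!c)) c
  have P := L.core.pre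
  have kG : ∀ (e : κ) s t, (E.M !c).Adj s t → (A.Adj s t ↔ G.Adj e.1.1 e.1.2) := fun e s t k =>
    ⟨fun _ => L.le e.2.1, fun _ => hE.M_le _ k⟩
  have kR : ∀ (e : κ) s t, (E.M !c).Adj s t → (red.Adj s t ↔ R.Adj e.1.1 e.1.2) := fun e s t k =>
    (r3 s t k).trans (xprot_col e.2.2).symm
  have Gι := h.adjι fun e s t k => (kG e s t k).1
  have Rι := h.adjι fun e s t k => (kR e s t k).1
  have Gβ := h.adjβ kG
  have Rβ := h.adjβ kR
  have ht : ∀ e : κ, Tog (Nodes (range '' Gs) Bs) e.1.1 e.1.2 := fun e => P.tog (L.le e.2.1)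
  obtain ⟨t1, t2⟩ := h.thin P.thin ht (fun e => L.le e.2.1) (fun n z z' => (Gι n z z').2) φ4 φ5
  have hub : ∀ γ ∈ Gs, ∀ a ∈ Hub, ∀ j s n, β j s ≠ pι Q κ U n (γ a) := fun γ hγ a ha j s n e => by
    obtain ⟨f, -, ⟨-, k⟩ | ⟨-, k⟩⟩ := h.inl e
    exacts [L.hub γ hγ a ha _ (k ▸ j.2.2.1), L.hub γ hγ a ha _ (k ▸ j.2.2.1.symm)]
  have gdis : ∀ γ ∈ pGs Z Q κ U Gs, ∀ γ' ∈ pGs Z Q κ U Gs, γ ≠ γ' →
      Disjoint (range γ) (range γ') := by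
    rintro _ ⟨n, γ, h1, rfl⟩ _ ⟨n', γ', h2, rfl⟩ e
    refine disjoint_left.2 ?_
    rintro _ ⟨a, rfl⟩ ⟨b, e'⟩
    obtain ⟨rfl, k⟩ := pι_eq e'
    rw [L.core.eq_of_mem h1 h2 ⟨a, rfl⟩ ⟨b, k⟩] at e
    exact e rfl
  have hD : imG (pι Q κ U) (D ⊓ cc G R (!c)) ⊔ imG β (A \ E.M (!c)) ≤
      cc (imG (pι Q κ U) G ⊔ imG β A) (imG (pι Q κ U) R ⊔ imG β red) (!c) := by
    rintro _ _ (⟨-, n, s, t, e, rfl, rfl⟩ | ⟨-, j, s, t, e, rfl, rfl⟩)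
    · exact (cc_iff (Gι n s t) (Rι n s t) _).2 e.2
    · exact (cc_iff (Gβ j s t) (Rβ j s t) _).2 (r2 ▸ e)
  have hle : imG (pι Q κ U) R ⊔ imG β red ≤ imG (pι Q κ U) G ⊔ imG β A :=
    sup_le_sup (imG_mono _ P.le) (imG_mono _ r1)
  refine ⟨(Z × V) ⊕ (Q × κ × U), inferInstance, imG (pι Q κ U) G ⊔ imG β A,
    imG (pι Q κ U) R ⊔ imG β red, imG (pι Q κ U) (D ⊓ cc G R (!c)) ⊔ imG β (A \ E.M (!c)),
    pGs Z Q κ U Gs, pBs Bs β (E.M (!c)) red, ⟨⟨⟨hle, ?_, ?_, ?_, ?_, ?_, ?_, ?_, ?_, ?_⟩, ?_, ?_,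
    gdis, ?_⟩, ?_, hD.trans (cc_le hle _), ?_, ?_⟩, hD, ?_⟩
  · rintro _ (⟨n, b, hb, rfl⟩ | ⟨j, rfl⟩)
    · exact ⟨fun s _ t _ e => (P.ind b hb).1 trivial trivial (pι_inj n e),
        fun s _ t _ => (Gι n _ _).trans ((P.ind b hb).2 s trivial t trivial)⟩
    · exact ⟨(h.inj j).injOn, fun s _ t _ => Gβ j s t⟩
  · rintro _ (⟨n, b, hb, rfl⟩ | ⟨j, rfl⟩) s t
    exacts [(Rι n _ _).trans (P.col b hb s t), Rβ j s t]
  · rintro _ (⟨n, b, hb, rfl⟩ | ⟨j, rfl⟩)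
    exacts [P.old b hb, hE.M_le _]
  · have k : ∀ n z z', G.Adj z z' → (∃ L ∈ range '' pGs Z Q κ U Gs, pι Q κ U n z ∈ L ∧
        pι Q κ U n z' ∈ L) ∨ ∃ b ∈ pBs Bs β (E.M (!c)) red, ∃ s t, b.f s = pι Q κ U n z ∧
        b.f t = pι Q κ U n z' ∧ ¬ b.old.Adj s t := fun n z z' e => by
      rcases P.cov z z' e with ⟨_, ⟨γ, hγ, rfl⟩, ⟨s, rfl⟩, t, rfl⟩ | ⟨b, hb, s, t, rfl, rfl, k⟩
      exacts [.inl ⟨_, ⟨_, ⟨n, γ, hγ, rfl⟩, rfl⟩, ⟨s, rfl⟩, t, rfl⟩,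
        .inr ⟨_, .inl ⟨n, b, hb, rfl⟩, s, t, rfl, rfl, k⟩]
    rintro _ _ (⟨-, n, s, t, e, rfl, rfl⟩ | ⟨-, j, s, t, e, rfl, rfl⟩)
    · exact k n s t e
    by_cases hM : (E.M (!c)).Adj s t
    · obtain ⟨f, z, z', h1, h2, k'⟩ := h.old j hM
      rw [h1, h2]
      exact k _ _ _ ((xprota_uv k').2 (L.le j.2.2.1))
    · exact .inr ⟨_, .inr ⟨j, rfl⟩, s, t, rfl, rfl, hM⟩
  · rw [xprot_nodes]
    exact t1
  · rintro _ ⟨_, ⟨n, γ, hγ, rfl⟩, rfl⟩ _ (⟨n', b, hb, rfl⟩ | ⟨j, rfl⟩) s t e ⟨a, h1⟩ ⟨a', h2⟩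
    · exact P.lb _ ⟨γ, hγ, rfl⟩ b hb s t e ⟨a, (pι_eq h1).2⟩ ⟨a', (pι_eq h2).2⟩
    · exact ⟨id, ((h.same h1.symm h2.symm).resolve_left fun k => e k.1).1⟩
  · rintro _ (⟨n, b, hb, rfl⟩ | ⟨j, rfl⟩) _ (⟨n', b', hb', rfl⟩ | ⟨j', rfl⟩) s t s' t' e k k' h1 h2
    · obtain rfl := (pι_eq h1).1
      exact (P.bb b hb b' hb' s t s' t' e k k' (pι_eq h1).2 (pι_eq h2).2).imp_left
        fun e => by rw [e]
    · exact ((h.same h1.symm h2.symm).elim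
        (fun q => e.ne ((P.ind b hb).1 trivial trivial q.2)) fun q => k' q.1).elim
    · exact ((h.same h1 h2).elim (fun q => e.ne q.1) fun q => k q.1).elim
    · exact .inl (by rw [h.two e.ne k h1 h2])
  · rintro _ (⟨n, b, hb, rfl⟩ | ⟨j, rfl⟩)
    exacts [P.low b hb, fun _ => ⟨hE.mat _, _, r2⟩]
  · rintro _ ⟨γ, h1, rfl⟩ _ ⟨γ', h2, rfl⟩ e
    exact gdis γ h1 γ' h2 fun e' => e (by rw [e'])
  · rintro _ ⟨n, γ, hγ, rfl⟩
    exact ⟨fun s _ t _ e => (L.core.gind γ hγ).1 trivial trivial (pι_inj n e),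
      fun s _ t _ => (Gι n _ _).trans ((L.core.gind γ hγ).2 s trivial t trivial)⟩
  · rintro _ ⟨n, γ, hγ, rfl⟩ s t
    exact (Rι n _ _).trans (L.core.gcol γ hγ s t)
  · rintro _ ⟨n, γ, hγ, rfl⟩ _ (⟨n', b, hb, rfl⟩ | ⟨j, rfl⟩) s a ha e
    exacts [L.core.hub γ hγ b hb s a ha (pι_eq e).2, hub γ hγ a ha j s n e]
  · rintro _ (⟨n, b, hb, rfl⟩ | ⟨j, rfl⟩)
    exacts [L.low b hb, ⟨id, r1, _, rfl, r2⟩]
  · intro R' hR' hag
    obtain ⟨p, hp⟩ := φ2 fun n z z' => R'.Adj (pι Q κ U n z) (pι Q κ U n z')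
    by_cases hw : ∃ e : κ, ∀ f, ¬ (R'.Adj (pι Q κ U (φ p (e, f)) e.1.1)
        (pι Q κ U (φ p (e, f)) e.1.2) ↔ c = true)
    · obtain ⟨e, hw⟩ := hw
      have k : In A (cc (imG (pι Q κ U) G ⊔ imG β A) R' (!c)) := by
        refine ⟨β (p, e), h.inj _, fun s t q => xprot_col' ((Gβ _ s t).2 q) ?_⟩
        by_cases hM : (E.M (!c)).Adj s t
        · obtain ⟨f, z, z', h1, h2, k'⟩ := h.old (p, e) hM
          have := hw f
          rw [h1, h2, xprota_uv (J := R') (k'.imp (fun k => ⟨congrArg _ k.1, congrArg _ k.2⟩)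
            fun k => ⟨congrArg _ k.1, congrArg _ k.2⟩)]
          cases c <;> simpa using this
        · have q' := imG_adj (J := A \ E.M (!c)) (h.inj (p, e)) ⟨q, hM⟩
          exact (hag _ _ (.inr q')).trans (xprot_col (hD (.inr q')))
      cases c
      exacts [.inl k, .inr k]
    push Not at hw
    obtain ⟨f0, -⟩ := hw e0
    refine (L.ram (R'.comap (pι Q κ U (φ p (e0, f0)))) (fun a b e => (Gι _ a b).1 (hR' e))
      fun a b e => ?_).imp (fun ⟨ψ, h1, h2⟩ => ⟨_, (pι_inj _).comp h1, h2⟩)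
      fun ⟨ψ, h1, h2⟩ => ⟨_, (pι_inj _).comp h1, fun a b e =>
        ⟨(Gι _ _ _).2 (h2 a b e).1, (h2 a b e).2⟩⟩
    rcases cc_or (L.le e) c with q | q
    · obtain ⟨f, k⟩ := hw ⟨(a, b), e, q⟩
      exact (iff_of_eq (congrFun (congrFun (hp (e0, f0) (⟨(a, b), e, q⟩, f)) a) b)).trans
        (k.trans (xprot_col q).symm)
    · exact (hag _ _ (.inl (imG_adj (pι_inj _) ⟨e, q⟩))).trans (Rι _ a b)
  · rintro _ ⟨n, γ, hγ, rfl⟩ a ha _ (⟨-, n', s, t, e, h1, rfl⟩ | ⟨-, j, s, t, e, h1, rfl⟩)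
    exacts [L.hub γ hγ a ha t ((pι_eq h1).2 ▸ e.1), hub γ hγ a ha j s n h1]
  · rintro hc _ _ (⟨-, n, s, t, e, rfl, rfl⟩ | ⟨-, j, s, t, e, rfl, rfl⟩)
    · exact absurd e.2 (cc_not (hc e.1))
    · rw [xprot_nodes]
      exact h.far (by omega) subset_union_left ht t2 (fun e => hF _ _ e.2.1)
        (fun e => hF _ _ e.2.1.symm) j e.1.ne e.2

end Pool.Agent.MP_1c0fc2_co.RE

end

section

open Function Set Relation

namespace Pool.Agent.MP_1c0fc2_co.RE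

section
variable {U X V L : Type} {A : SimpleGraph U} {Γ RΓ : SimpleGraph X} {Hub : Set X}
  {G R : SimpleGraph V} {Gs : Set (X → V)} {Bs : Set (Bag U V)} {g : ℕ}

theorem xrpg_oth (h : Core A Γ RΓ Hub G R Gs Bs g) {K : L → Set X} {Y : Set V}
    {𝒮 : Set (Gs × L)} {γ : Gs} {l : L} {y : X}
    (hy : γ.1 y ∈ Oth (fun z : Gs × L => z.1.1 '' K z.2 ∩ Y) 𝒮 (γ, l)) :
    y ∈ Oth (fun l => K l ∩ γ.1 ⁻¹' Y) {l | (γ, l) ∈ 𝒮} l := by
  obtain ⟨⟨γ', l'⟩, h1, h2, ⟨y', h3, h4⟩, h5⟩ := hy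
  obtain rfl : γ' = γ := Subtype.ext (h.eq_of_mem γ'.2 γ.2 ⟨y', h4⟩ ⟨y, rfl⟩)
  obtain rfl : y' = y := (h.gind _ γ'.2).inj h4
  exact ⟨l', h1, fun e => h2 (by rw [e]), h3, h5⟩

theorem xrpg_pull (h : Core A Γ RΓ Hub G R Gs Bs g) {c : Bool} {K : L → Set X} {Y R0 : Set V}
    {𝒮 : Set (Gs × L)} {γ : Gs} {l : L} {R1 : Set X} (hR : ∀ y, γ.1 y ∈ R0 → y ∈ R1) {p : V}
    (hp : p ∈ Port (cc G R c) (γ.1 '' K l ∩ Y)
      (R0 ∪ Oth (fun z : Gs × L => z.1.1 '' K z.2 ∩ Y) 𝒮 (γ, l))) :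
    ∃ x, γ.1 x = p ∧ x ∈ K l ∩ γ.1 ⁻¹' Y ∧
      (x ∈ Port (cc Γ RΓ c) (K l ∩ γ.1 ⁻¹' Y)
        (R1 ∪ Oth (fun l => K l ∩ γ.1 ⁻¹' Y) {l | (γ, l) ∈ 𝒮} l) ∨
      ∃ q ∈ R0 ∪ Oth (fun z : Gs × L => z.1.1 '' K z.2 ∩ Y) 𝒮 (γ, l),
        q ∉ range γ.1 ∧ (cc G R c).Adj p q) := by
  obtain ⟨⟨⟨x, hx, rfl⟩, hY⟩, h1⟩ := hp
  refine ⟨x, rfl, ⟨hx, hY⟩, ?_⟩
  rcases h1 with h1 | ⟨q, h1, h2, h3⟩
  · exact .inl ⟨⟨hx, hY⟩, .inl (h1.imp (hR x) (xrpg_oth h))⟩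
  · by_cases hq : q ∈ range γ.1
    · obtain ⟨y, rfl⟩ := hq
      exact .inl ⟨⟨hx, hY⟩, .inr ⟨y, h1.imp (hR y) (xrpg_oth h),
        fun e => h2 ⟨mem_image_of_mem _ e.1, e.2⟩, (h.ccol γ.2 c x y).1 h3⟩⟩
    · exact .inr ⟨q, h1, hq, h3⟩

theorem xrpg_hub (h : Core A Γ RΓ Hub G R Gs Bs g) {γ : X → V} (hγ : γ ∈ Gs) {x : X} {q : V}
    (hq : q ∉ range γ) (e : G.Adj (γ x) q) : x ∉ Hub := fun hx => by
  rcases h.pre.cov _ _ e with ⟨_, ⟨γ', h1, rfl⟩, h2, h3⟩ | ⟨β, h1, a, b, h2, -⟩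
  · exact hq (h.eq_of_mem h1 hγ h2 ⟨x, rfl⟩ ▸ h3)
  · exact h.hub γ hγ β h1 a x hx h2

theorem xrpg_card [Finite V] (h : Core A Γ RΓ Hub G R Gs Bs g) {γ : X → V} (hγ : γ ∈ Gs)
    (Y : Set V) : (γ ⁻¹' Y).ncard ≤ Y.ncard :=
  ncard_le_ncard_of_injOn γ (fun _ hx => hx) (h.gind γ hγ).inj.injOn (toFinite _)

theorem xrpg_out (hPi : PiStmt) [Finite U] [Finite V] (h : Core A Γ RΓ Hub G R Gs Bs g)
    {c : Bool} {K : L → Set X} {vr : Prop} {Av : Set X} (hL : LocRP Γ RΓ Hub c K vr Av g)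
    {Y : Set V} (hY : Y.ncard ≤ g) (hA : ∀ γ ∈ Gs, ∀ x ∈ Av, γ x ∉ Y) {𝒮 : Set (Gs × L)}
    {R0 ν0 : Set V} (hν : ν0 ∈ Nodes (range '' Gs) Bs) (h1 : R0 ⊆ Y ∩ ν0)
    (h2 : ∀ γ ∈ Gs, range γ ≠ ν0 → ∀ y, γ y ∉ R0) (h3 : ∃ z ∈ 𝒮, range z.1.1 ≠ ν0) :
    ∃ z ∈ 𝒮, (Port (cc G R c) (z.1.1 '' K z.2 ∩ Y)
      (R0 ∪ Oth (fun z : Gs × L => z.1.1 '' K z.2 ∩ Y) 𝒮 z)).Subsingleton := by
  obtain ⟨_, ⟨⟨γ, l1⟩, hz, rfl, hne⟩, hP⟩ := hPi U V A G R _ Bs g h.pre c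
    {N | ∃ z ∈ 𝒮, N = range z.1.1 ∧ N ≠ ν0} (by
      rintro _ ⟨z, -, rfl, -⟩
      exact ⟨_, z.1.2, rfl⟩) (let ⟨z, hz, e⟩ := h3; ⟨_, z, hz, rfl, e⟩) ν0 hν
    (fun ⟨_, _, _, e⟩ => e rfl) (Y ∩ (ν0 ∪ ⋃₀ {N | ∃ z ∈ 𝒮, N = range z.1.1 ∧ N ≠ ν0}))
    ((ncard_le_ncard inter_subset_left).trans hY) inter_subset_right
  set Pt := {p | p ∈ Y ∩ (ν0 ∪ ⋃₀ {N | ∃ z ∈ 𝒮, N = range z.1.1 ∧ N ≠ ν0}) ∩ range γ.1 ∧
    ∃ q ∈ (Y ∩ (ν0 ∪ ⋃₀ {N | ∃ z ∈ 𝒮, N = range z.1.1 ∧ N ≠ ν0})) \ range γ.1,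
      (cc G R c).Adj p q} with hPt
  have hi := (h.gind _ γ.2).inj
  have hE : ExP Γ RΓ Hub c (γ.1 ⁻¹' Y) (γ.1 ⁻¹' Pt) := by
    refine ⟨fun x hx => hx.1.1.1, hP.imp (fun hs => hs.preimage hi) ?_⟩
    rintro ⟨a, b, hab, e⟩
    have k : ∀ p ∈ Pt, ∃ x, x ∉ Hub ∧ γ.1 x = p := by
      rintro _ ⟨⟨-, x, rfl⟩, q, hq, e⟩
      exact ⟨x, xrpg_hub h γ.2 hq.2 (cc_le h.pre.le c e), rfl⟩
    obtain ⟨a', ha, rfl⟩ := k a (by rw [e]; exact .inl rfl)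
    obtain ⟨b', hb, rfl⟩ := k b (by rw [e]; exact .inr rfl)
    refine ⟨a', b', ha, hb, (h.ccol γ.2 _ a' b').1 hab, fun x hx => ?_⟩
    have hx' : γ.1 x ∈ ({γ.1 a', γ.1 b'} : Set V) := by rw [← e]; exact hx
    exact hx'.imp (fun e => hi e) fun e => hi e
  obtain ⟨l, hl, hs⟩ := (hL (γ.1 ⁻¹' Y) ((xrpg_card h γ.2 Y).trans hY)
    (disjoint_left.2 fun x hx hx' => hA _ γ.2 x hx' hx)).2 {l | (γ, l) ∈ 𝒮} _ ⟨l1, hz⟩ hE
  refine ⟨(γ, l), hl, (hs.image γ.1).anti fun p hp => ?_⟩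
  obtain ⟨x, rfl, hx, h4⟩ := xrpg_pull h (R1 := ∅) (fun y hy => h2 _ γ.2 hne y hy) hp
  refine mem_image_of_mem _ (h4.symm.imp ?_ fun e => by rwa [empty_union] at e)
  rintro ⟨q, h5, h6, h7⟩
  refine ⟨hx, ⟨⟨hx.2, .inr ⟨_, ⟨_, hz, rfl, hne⟩, x, rfl⟩⟩, x, rfl⟩, q, ⟨?_, h6⟩, h7⟩
  rcases h5 with h5 | ⟨z', h8, -, ⟨y, -, h9⟩, h10⟩
  · exact ⟨(h1 h5).1, .inl (h1 h5).2⟩
  · refine ⟨h10, ?_⟩
    by_cases e : range z'.1.1 = ν0
    · exact .inl (e ▸ ⟨y, h9⟩)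
    · exact .inr ⟨_, ⟨z', h8, rfl, e⟩, y, h9⟩

theorem xrpg_in [Finite V] (h : Core A Γ RΓ Hub G R Gs Bs g)
    {c : Bool} {K : L → Set X} {vr : Prop} {Av : Set X} (hL : LocRP Γ RΓ Hub c K vr Av g)
    {Y : Set V} (hY : Y.ncard ≤ g) (hA : ∀ γ ∈ Gs, ∀ x ∈ Av, γ x ∉ Y) {𝒮 : Set (Gs × L)}
    {R0 : Set V} {γ : Gs} (h1 : R0 ⊆ range γ.1) (h2 : ∀ z ∈ 𝒮, range z.1.1 = range γ.1)
    {l1 : L} (hz : (γ, l1) ∈ 𝒮) (h3 : (∃ l0, (γ, l0) ∉ 𝒮 ∧ R0 = γ.1 '' K l0 ∩ Y) ∨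
      ∃ r, (vr ∧ r ∈ Y) ∧ R0 = {r}) :
    ∃ z ∈ 𝒮, (Port (cc G R c) (z.1.1 '' K z.2 ∩ Y)
      (R0 ∪ Oth (fun z : Gs × L => z.1.1 '' K z.2 ∩ Y) 𝒮 z)).Subsingleton := by
  have hi := (h.gind _ γ.2).inj
  obtain ⟨l, hl, hs⟩ := (hL (γ.1 ⁻¹' Y) ((xrpg_card h γ.2 Y).trans hY)
    (disjoint_left.2 fun x hx hx' => hA _ γ.2 x hx' hx)).1 {l | (γ, l) ∈ 𝒮} (γ.1 ⁻¹' R0)
    ⟨l1, hz⟩ (.inr (h3.imp (by
      rintro ⟨l0, h4, rfl⟩
      exact ⟨l0, h4, by rw [preimage_inter, preimage_image_eq _ hi]⟩) (by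
      rintro ⟨r, h4, rfl⟩
      obtain ⟨x, rfl⟩ := h1 rfl
      exact ⟨x, h4, by rw [← image_singleton, preimage_image_eq _ hi]⟩)))
  refine ⟨(γ, l), hl, (hs.image γ.1).anti fun p hp => ?_⟩
  obtain ⟨x, rfl, -, h4⟩ := xrpg_pull h (R1 := γ.1 ⁻¹' R0) (fun y hy => hy) hp
  refine mem_image_of_mem _ (h4.resolve_right ?_)
  rintro ⟨q, h5 | ⟨z', h8, -, ⟨y, -, h9⟩, -⟩, h6, -⟩
  · exact h6 (h1 h5)
  · exact h6 (h2 z' h8 ▸ ⟨y, h9⟩)

end

theorem rpg_stmt (hRP : RPStmt) (hPi : PiStmt) : RPGStmt := by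
  intro U X V L _ _ _ _ A Γ RΓ Hub G R Gs Bs g c K vr Av h hL Y hY hN hA
  refine (hRP V (Gs × L) _ _ _).2.1 fun 𝒮 R0 ⟨⟨γ1, l1⟩, hz⟩ hR => ?_
  rcases (γ1.1 '' K l1 ∩ Y).eq_empty_or_nonempty with he | ⟨p, ⟨x1, -, -⟩, -⟩
  · exact ⟨_, hz, fun p hp => absurd (he ▸ hp.1 : p ∈ (∅ : Set V)) id⟩
  have key : ∀ γ0 : Gs, R0 ⊆ Y ∩ range γ0.1 → ((∃ l0, (γ0, l0) ∉ 𝒮 ∧ R0 = γ0.1 '' K l0 ∩ Y) ∨
      ∃ r, (vr ∧ r ∈ Y) ∧ R0 = {r}) → ∃ z ∈ 𝒮, (Port (cc G R c) (z.1.1 '' K z.2 ∩ Y)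
      (R0 ∪ Oth (fun z : Gs × L => z.1.1 '' K z.2 ∩ Y) 𝒮 z)).Subsingleton := by
    intro γ0 h1 h2
    by_cases h3 : ∃ z ∈ 𝒮, range z.1.1 ≠ range γ0.1
    · exact xrpg_out hPi h hL hY hA (.inl ⟨_, γ0.2, rfl⟩) h1 (fun γ hγ e y hy =>
        e (by rw [h.eq_of_mem hγ γ0.2 ⟨y, rfl⟩ (h1 hy).2])) h3
    · push Not at h3
      obtain rfl : γ1 = γ0 :=
        Subtype.ext (h.eq_of_mem γ1.2 γ0.2 ⟨x1, rfl⟩ (h3 _ hz ▸ ⟨x1, rfl⟩))
      exact xrpg_in h hL hY hA (fun y hy => (h1 hy).2) h3 hz h2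
  rcases hR with ⟨⟨γ0, l0⟩, h1, rfl⟩ | ⟨r, h1, rfl⟩
  · exact key γ0 (fun y hy => ⟨hy.2, image_subset_range _ _ hy.1⟩) (.inl ⟨l0, h1, rfl⟩)
  · by_cases h2 : ∃ γ ∈ Gs, r ∈ range γ
    · obtain ⟨γ, h2, h3⟩ := h2
      exact key ⟨γ, h2⟩ (singleton_subset_iff.2 ⟨h1.2, h3⟩) (.inr ⟨r, h1, rfl⟩)
    · obtain ⟨q, hq⟩ := hN r h1.2
      rcases h.pre.cov _ _ hq with ⟨_, ⟨γ', h3, rfl⟩, h4, -⟩ | ⟨β, h3, a, b, h4, -⟩
      · exact absurd ⟨γ', h3, h4⟩ h2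
      · exact xrpg_out hPi h hL hY hA (.inr ⟨β, h3, rfl⟩) (singleton_subset_iff.2 ⟨h1.2, a, h4⟩)
          (fun γ hγ _ y hy => h2 ⟨γ, hγ, y, hy⟩)
          ⟨_, hz, fun e => h2 ⟨_, γ1.2, e ▸ ⟨a, h4⟩⟩⟩

end Pool.Agent.MP_1c0fc2_co.RE

end

section

open Function Set Relation

namespace Pool.Agent.MP_1c0fc2_co.RE

theorem redLift_stmt (hK3 : K3Stmt) (hTwoNb : TwoNbStmt) (hRPG : RPGStmt) (hRedLoc : RedLocStmt)
    (hPullR : PullRStmt) : RedLiftStmt := by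
  intro W U X V Z L _ _ _ _ _ _ H P hP m A E Γ RΓ Hub G R Gs Bs g B φ K s hA hB hnb hg hL hC hT hR
    hφ hH
  have hc := hL.core
  have hg1 : 1 ≤ g := by
    obtain ⟨⟨h1, h2, h3, -⟩, -⟩ := hK3 W W H P hP
    omega
  have hloc := hRedLoc W U X V Z H P hP m A E Γ RΓ Hub G R Gs Bs g B φ hA hg hL hC hT hφ hH
  refine hPullR W Z V (Gs × L) H P m B R φ (fun z => z.1.1 '' K z.2) s hφ ?_ ?_ ?_
  · intro O hO
    obtain ⟨γ, hγ, h1, h2⟩ := hloc O hO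
    obtain ⟨l, hl⟩ := hR.cov _ (disjoint_left.2 fun x hx hx' =>
      hH γ hγ x hx' (image_subset_range φ O hx)) h2
    refine ⟨(⟨γ, hγ⟩, l), fun y hy => ?_⟩
    obtain ⟨x, rfl⟩ := h1 hy
    exact ⟨x, hl hy, rfl⟩
  · have h1 : (range φ).ncard ≤ g := by
      rw [ncard_range_of_injective hφ.1]
      exact hB.card_le.trans hg
    have h2 := hRPG U X V L A Γ RΓ Hub G R Gs Bs g true K True Hub hc hR.rp (range φ) h1 (by
      rintro _ ⟨z, rfl⟩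
      obtain ⟨z', h⟩ := hnb z
      exact ⟨φ z', hc.pre.le (hφ.2 _ _ h)⟩) hH
    have h3 : {r | True ∧ r ∈ range φ} = range φ := by
      ext r
      exact ⟨fun h => h.2, fun h => ⟨trivial, h⟩⟩
    rw [h3] at h2
    exact h2
  · rintro ⟨⟨γ, hγ⟩, l⟩
    have hi : Injective γ := (hc.gind γ hγ).inj
    refine ⟨γ '' RW RΓ (RO P H m RΓ) (K l), by
      rw [ncard_image_of_injective _ hi]
      exact hR.wt l, fun O hO hs => ?_⟩
    obtain ⟨γ', hγ', h1, h2⟩ := hloc O hO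
    obtain ⟨o, ho⟩ := hO.two.nonempty
    obtain rfl : γ' = γ := hc.eq_of_mem hγ' hγ (h1 (mem_image_of_mem φ ho))
      (image_subset_range γ _ (hs (mem_image_of_mem φ ho)))
    have h3 : γ' ⁻¹' (φ '' O) ⊆ K l := fun x hx => by
      obtain ⟨y, hy, e⟩ := hs hx
      exact hi e ▸ hy
    rintro _ ⟨w, hw | ⟨a, ha, b, hb, hab, hwa, hwb⟩, rfl⟩
    · obtain ⟨x, hx⟩ := h1 (mem_image_of_mem φ hw)
      exact ⟨x, ⟨_, h2, h3, .inl ⟨w, hw, hx.symm⟩⟩, hx⟩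
    · obtain ⟨a', ha'⟩ := h1 (mem_image_of_mem φ ha)
      obtain ⟨b', hb'⟩ := h1 (mem_image_of_mem φ hb)
      have ma : a' ∈ γ' ⁻¹' (φ '' O) := ⟨a, ha, ha'.symm⟩
      have mb : b' ∈ γ' ⁻¹' (φ '' O) := ⟨b, hb, hb'.symm⟩
      have hne : γ' a' ≠ γ' b' := by
        rw [ha', hb']
        exact hφ.1.ne hab
      have ra : R.Adj (φ w) (γ' a') := ha' ▸ hφ.2 _ _ hwa
      have rb : R.Adj (φ w) (γ' b') := hb' ▸ hφ.2 _ _ hwb
      by_cases hw : φ w ∈ range γ'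
      · obtain ⟨x, hx⟩ := hw
        rw [← hx] at ra rb
        exact ⟨x, ⟨_, h2, h3, .inr ⟨a', ma, b', mb, fun e => hne (congrArg γ' e),
          (hc.gcol γ' hγ _ _).1 ra, (hc.gcol γ' hγ _ _).1 rb⟩⟩, hx⟩
      · have h4 : (G \ R).Adj (γ' a') (γ' b') := hTwoNb U V A G R _ Bs g hg1 hc.pre true _
          (mem_image_of_mem range hγ) _ hw _ (mem_range_self a') _ (mem_range_self b') hne ra rb
        exact absurd ((hc.gcol γ' hγ _ _).2 (hR.red l a' (h3 ma) b' (h3 mb)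
          (((hc.gind γ' hγ).adj _ _).1 h4.1))) h4.2

end Pool.Agent.MP_1c0fc2_co.RE

end

section

open Function Set Relation

namespace Pool.Agent.MP_1c0fc2_co.RE

section
variable {W U X Q : Type} {H : SimpleGraph W} {A M : SimpleGraph U} {I : Set U}
  {pt : U → Option Q} {Γ RΓ : SimpleGraph X} {Hub : Set X} {Hs Us Xs : Set (U → X)} {g : ℕ}

theorem xstep_pull (hG : Gam A M I pt Γ RΓ Hub Hs Us Xs g) {ξ : U → X} (hξ : ξ ∈ Xs)
    {S : Set X} (hS : S ⊆ ξ '' Iᶜ) (hn : S.Nonempty) :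
    ∃ k : X → U, IHo Γ A k S ∧ Disjoint (k '' S) I := by
  obtain ⟨k, h1, h2, -⟩ := exists_pull (J := A) (J' := Γ) (hG.xind ξ hξ).1
    (fun x hx y hy e => ((hG.xind ξ hξ).2 x hx y hy).1 e) hS hn
  refine ⟨k, h1.sub hS, ?_⟩
  rw [h2]
  exact disjoint_left.2 fun _ h => h.1

theorem xstep_rtr [Finite U] [Finite X] (hGX : GXStmt) (hA : In A H)
    (hG : Gam A M I pt Γ RΓ Hub Hs Us Xs g) : RTr H Γ RΓ Hub g := by
  intro S h1 h2 h3 h4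
  obtain ⟨ξ, hξ, hS⟩ := (hGX U X Q A M I pt Γ RΓ Hub Hs Us Xs g hG).1 S h1 h2 h3 h4
  obtain ⟨k, hk, -⟩ := xstep_pull hG hξ hS h3.nonempty
  obtain ⟨f, hf⟩ := hA
  exact ⟨f ∘ k, hk.comp (hf.on _)⟩

theorem xstep_arr {V : Type} {E : EP U} {G R : SimpleGraph V} {Gs : Set (X → V)}
    {Bs : Set (Bag U V)} (hL : Last A E Γ RΓ Hub G R Gs Bs g) : Arr G A :=
  fun R' h => hL.ram R' h fun _ _ e => e.elim

theorem xstep_pt {L : Type} {K : L → Set U} (hd : ∀ l l', l ≠ l' → Disjoint (K l) (K l'))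
    (ho : ∀ l, Disjoint (K l) M.support) :
    ∃ pt : U → Option (L ⊕ U), IsPt M K pt ∧ ∀ u ∉ M.support, pt u ≠ none := by
  classical
  refine ⟨fun a => if a ∈ M.support then none else
    if h : ∃ l, a ∈ K l then some (.inl h.choose) else some (.inr a),
    ⟨fun a ha => if_pos ha, fun l a => ⟨fun e => ?_, fun ha => ?_⟩, fun a ha h => ?_⟩,
    fun u hu => ?_⟩
  · dsimp only at e
    split_ifs at e with h1 h2
    · obtain rfl : h2.choose = l := Sum.inl.inj (Option.some.inj e)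
      exact h2.choose_spec
    · exact absurd (Option.some.inj e) Sum.inr_ne_inl
  · have h2 : ∃ l, a ∈ K l := ⟨l, ha⟩
    dsimp only
    rw [if_neg (disjoint_left.1 (ho l) ha), dif_pos h2]
    have e : h2.choose = l := by
      by_contra hne
      exact disjoint_left.1 (hd _ _ hne) h2.choose_spec ha
    rw [e]
  · dsimp only
    rw [if_neg ha, dif_neg (not_exists.2 h)]
  · dsimp only
    rw [if_neg hu]
    split_ifs <;> exact Option.some_ne_none _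

end

theorem stepN_stmt (hV0 : V0Stmt) (hM0T : M0TStmt) (hGam : GamStmt) (hParam : ParamStmt)
    (hEngine : EngineStmt) (hHub : HubStmt) (hGX : GXStmt) (hGRed : GRedStmt)
    (hGBlueN : GBlueNStmt) (hRedLift : RedLiftStmt) (hBlueLift : BlueLiftStmt) : StepNStmt := by
  intro W U V _ _ _ H P hP m hm hC A B hA hB hBc hBn hImp hnBA t hRA hnRB s hBA
  obtain ⟨I, L1, _, K1, hV⟩ := hV0 W U H P hP m hm hC A hA t hRA
  have hne : m ≠ .S1 := by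
    rintro rfl
    exact hm
  obtain ⟨M, L2, _, K2, hM⟩ := hM0T W U H P hP m hne hC A hA s hBA
  obtain ⟨X, _, Γ, RΓ, Hub, Hs, Us, Xs, hG⟩ := hGam U Unit A M I (fun _ => none) (Nat.card W)
    hM.imat hV.ind (fun _ _ => rfl) fun _ _ _ => hV.nc
  obtain ⟨E, hE, hCols⟩ := hParam W U H P hP m hC A hA
  obtain ⟨Z, _, G, R, Gs, Bs, hL⟩ := hEngine U X A E Γ RΓ Hub (Nat.card W) hE hG.le hG.ram
  rcases hImp Z G (xstep_arr hL) R hL.core.pre.le with ⟨φ, hφ⟩ | ⟨φ, hφ⟩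
  · refine absurd (hRedLift W U X Z V _ H P hP m A E Γ RΓ Hub G R Gs Bs _ B φ _ t hA hB hBn le_rfl
      hL hCols (xstep_rtr hGX hA hG)
      (hGRed W U X Unit L1 H P hP m A M I Γ RΓ Hub Hs Us Xs _ K1 t hA le_rfl hG hV) hφ
      fun γ hγ x hx hr => hnBA ?_) hnRB
    exact hHub U X Z V Unit A M I _ Γ RΓ Hub Hs Us Xs G R Gs Bs _ _ B φ hG hL.core hBc hφ γ hγ x
      hx hr
  · exact hBlueLift W U X Z V _ H P hP m hC A E Γ RΓ Hub G R Gs Bs _ B φ _ s hA hB hBn le_rfl hL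
      hCols (hGBlueN W U X Unit L2 H P hP m hm A M I Γ RΓ Hub Hs Us Xs _ K2 s hA le_rfl hG hM) hφ

theorem stepS_stmt (hK3 : K3Stmt) (hROMono : ROMonoStmt) (hAtomA : AtomAStmt) (hIA : IAStmt)
    (hM0A : M0AStmt) (hM0T : M0TStmt) (hGam : GamStmt) (hParam : ParamStmt)
    (hEngine : EngineStmt) (hHub : HubStmt) (hGX : GXStmt) (hGBlueS : GBlueSStmt)
    (hRedLoc : RedLocStmt) (hBlueLift : BlueLiftStmt) : StepSStmt := by
  intro W U V _ _ _ H P hP m hm hC A B hA hB hBc hBn hImp hnBA ⟨O, hO⟩ s hBA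
  obtain ⟨I, hI, hIO⟩ := hIA U A _ (hAtomA W U H P hP A hA)
  obtain ⟨M, L, _, K, hM⟩ : ∃ (M : SimpleGraph U) (L : Type) (_ : Finite L) (K : L → Set U),
      MData P H m A M K s := by
    by_cases e : m = .S1
    · subst e
      exact hM0A W U H P hP hC A hA s hBA
    · exact hM0T W U H P hP m e hC A hA s hBA
  obtain ⟨pt, hpt, hpt'⟩ := xstep_pt hM.fam.dis hM.off
  obtain ⟨X, _, Γ, RΓ, Hub, Hs, Us, Xs, hG⟩ := hGam U (L ⊕ U) A M I pt (Nat.card W)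
    hM.imat hI hpt.1 fun u hu e => absurd e (hpt' u hu)
  obtain ⟨E, hE, hCols⟩ := hParam W U H P hP m hC A hA
  obtain ⟨Z, _, G, R, Gs, Bs, hL⟩ := hEngine U X A E Γ RΓ Hub (Nat.card W) hE hG.le hG.ram
  rcases hImp Z G (xstep_arr hL) R hL.core.pre.le with ⟨φ, hφ⟩ | ⟨φ, hφ⟩
  · exfalso
    have hh : ∀ γ ∈ Gs, ∀ x ∈ Hub, γ x ∉ range φ := fun γ hγ x hx hr => hnBA
      (hHub U X Z V _ A M I _ Γ RΓ Hub Hs Us Xs G R Gs Bs _ _ B φ hG hL.core hBc hφ γ hγ x hx hr)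
    obtain ⟨γ, hγ, -, hR⟩ := hRedLoc W U X Z V H P hP m A E Γ RΓ Hub G R Gs Bs _ B φ hA le_rfl hL
      hCols (xstep_rtr hGX hA hG) hφ hh O hO
    obtain ⟨⟨k1, k2, k3, k4⟩, k5⟩ := hK3 W U H P hP
    have hcard : (γ ⁻¹' (φ '' O)).ncard ≤ Nat.card W := by
      cases m
      · exact absurd trivial hm
      · exact absurd trivial hm
      · exact hR.2.1.le.trans k3
      · exact hR.2.le.trans k4
    obtain ⟨ξ, hξ, hS⟩ := (hGX U X _ A M I pt Γ RΓ Hub Hs Us Xs _ hG).1 _ hcard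
      (disjoint_left.2 fun x hx hx' => hh γ hγ x hx' (image_subset_range φ O hx))
      (hR.two.mono fun _ _ _ _ e => hG.le e) hR.two.edge
    obtain ⟨k, hk, hkI⟩ := xstep_pull hG hξ hS hR.two.nonempty
    obtain ⟨f, hf⟩ := hA
    have hRA := hROMono W X U H P hP m RΓ A k f _
      ⟨hk.1, fun x hx y hy e => hk.2 x hx y hy (hG.le e)⟩ (hf.on _) hR
    obtain ⟨D, hD, hAD⟩ : ∃ D, D ⊆ k '' (γ ⁻¹' (φ '' O)) ∧ AS P H A D := by
      cases m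
      · exact absurd trivial hm
      · exact absurd trivial hm
      · exact ⟨_, Subset.rfl, hRA⟩
      · obtain ⟨a, ha⟩ := hRA.two.nonempty
        obtain ⟨D, h1, h2, -⟩ := TH.ts hRA ha
        have e3 : P.vA = 3 := hC.1
        exact ⟨D, h1, ((k5 A D).2.2 e3).2 (((k5 A D).2.1 (by omega)).1 h2)⟩
    obtain ⟨v, hv⟩ := hIO D hAD
    have hv' : v ∈ D ∩ I := hv ▸ mem_singleton v
    exact disjoint_left.1 hkI (hD hv'.1) hv'.2
  · have := Finite.of_injective (fun z : CI pt Us => z.1) Subtype.val_injective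
    exact hBlueLift W U X Z V _ H P hP m hC A E Γ RΓ Hub G R Gs Bs _ B φ _ s hA hB hBn le_rfl hL
      hCols (hGBlueS W U X L H P hP m hm A M I pt Γ RΓ Hub Hs Us Xs _ K s hG hpt hM) hφ

end Pool.Agent.MP_1c0fc2_co.RE

end

section

/-! Blocks of the `T`-graph lie in one node. -/

open Function Set Relation

namespace Pool.Agent.MP_1c0fc2_co.RE

section
variable {U V W : Type} [Finite W] [Finite U] [Finite V] {A : SimpleGraph U}
  {G R : SimpleGraph V} {H : SimpleGraph W} {P : Par}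
  {Ls : Set (Set V)} {Bs : Set (Bag U V)} {g : ℕ} {c : Bool}

/-- steps inside a bag -/
def xth_Q (P : Par) (H : SimpleGraph W) (A : SimpleGraph U) (c : Bool) (β : Bag U V) (a b : U) :
    Prop :=
  β.old.Adj a b ∨ (cc A β.red c = A \ β.old ∧ (TG P H (A \ β.old) univ).Adj a b)

omit [Finite W] [Finite V] in
theorem xth_pull (hP : Pre A G R Ls Bs g) {β : Bag U V} (hβ : β ∈ Bs) {D : Set V}
    (hD : TS P H (cc G R c) D) (hs : D ⊆ range β.f) : TS P H (cc A β.red c) (β.f ⁻¹' D) := by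
  obtain ⟨k, h1, h2, -⟩ := exists_pull' (J := cc A β.red c) (J' := cc G R c) (hP.ind β hβ).inj
    (fun x y e => (hP.ccol hβ c x y).1 e) hs hD.two.nonempty
  rw [← h2]
  exact hD.map h1

theorem xth_fact (hE : ESNodeStmt) (hA : In A H) (hg : P.vT ≤ g) (hP : Pre A G R Ls Bs g)
    (hT : ∀ β ∈ Bs, Tok P H A c β.old β.red β.top) {β : Bag U V} (hβ : β ∈ Bs) {a b : U}
    (e : (TG P H (cc G R c) univ).Adj (β.f a) (β.f b)) : xth_Q P H A c β a b := by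
  obtain ⟨e1, D, -, hD, ha, hb⟩ := e
  have hab : a ≠ b := fun h => e1.ne (by rw [h])
  rcases (hE W U V H A G R Ls Bs g hA hP _ (cc_le hP.le c) D (hD.2.1.le.trans hg)).1 hD.1 with
    ⟨L, hL, hs⟩ | ⟨β', hβ', hs⟩
  · exact .inl (hP.lb L hL β hβ a b hab (hs ha) (hs hb)).2
  have hD' := xth_pull hP hβ' hD hs
  obtain ⟨a', ha'⟩ := hs ha
  obtain ⟨b', hb'⟩ := hs hb
  rcases hT β' hβ' with ⟨h1, h2, -⟩ | ⟨h1, -⟩
  swap
  · exact absurd hD' (h1 _)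
  have e2 : (cc A β'.red c).Adj a' b' := (hP.ccol hβ' c a' b').1 (by rw [ha', hb']; exact e1)
  rw [h2] at e2 hD'
  by_cases ho : β.old.Adj a b
  · exact .inl ho
  rcases hP.bb β hβ β' hβ' a b a' b' (((hP.ind β hβ).adj a b).1 (cc_le hP.le c e1)) ho e2.2
    ha'.symm hb'.symm with rfl | h
  · obtain rfl := (hP.ind β hβ).inj ha'
    obtain rfl := (hP.ind β hβ).inj hb'
    exact .inr ⟨h2, e2, _, subset_univ _, hD', ha, hb⟩
  · exact absurd h.2 h1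

/-- the trace of a connected set on a bag -/
theorem xth_tr (hE : ESNodeStmt) (hA : In A H) (hg : P.vT ≤ g) (hP : Pre A G R Ls Bs g)
    (hT : ∀ β ∈ Bs, Tok P H A c β.old β.red β.top) {β : Bag U V} (hβ : β ∈ Bs) {C : Set V}
    (hc : ConnOn (TG P H (cc G R c) univ).Adj C)
    (hx : ∀ D, D ⊆ C \ range β.f → ConnOn (TG P H (cc G R c) univ).Adj D → ∀ a b, a ≠ b →
      (∃ d ∈ D, (TG P H (cc G R c) univ).Adj (β.f a) d) →
      (∃ d ∈ D, (TG P H (cc G R c) univ).Adj (β.f b) d) → β.old.Adj a b) :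
    ConnOn (xth_Q P H A c β) (β.f ⁻¹' C) := by
  have inj := (hP.ind β hβ).inj
  have h1 := hc.trace (adj_symm' _) (range β.f)
    (Q := fun x y => ∃ a b, β.f a = x ∧ β.f b = y ∧ xth_Q P H A c β a b)
    (by
      rintro _ ⟨-, a, rfl⟩ _ ⟨-, b, rfl⟩ - e
      exact ⟨a, b, rfl, rfl, xth_fact hE hA hg hP hT hβ e⟩)
    (by
      rintro D hD hd _ ⟨-, a, rfl⟩ _ ⟨-, b, rfl⟩ hab h2 h3
      exact ⟨a, b, rfl, rfl, .inl (hx D hD hd a b (fun e => hab (by rw [e])) h2 h3)⟩)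
  intro a ha b hb
  have key : ∀ y, ReflTransGen (fun x y => x ∈ C ∩ range β.f ∧ y ∈ C ∩ range β.f ∧
      ∃ a b, β.f a = x ∧ β.f b = y ∧ xth_Q P H A c β a b) (β.f a) y → ∀ b, β.f b = y →
      ReflTransGen (fun x y => x ∈ β.f ⁻¹' C ∧ y ∈ β.f ⁻¹' C ∧ xth_Q P H A c β x y) a b := by
    intro y p
    induction p with
    | refl => intro b e; rw [inj e]
    | tail _ h ih =>
      obtain ⟨h2, h3, a', b', rfl, rfl, h4⟩ := h
      intro b e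
      rw [inj e]
      exact (ih a' rfl).tail ⟨h2.1, h3.1, h4⟩
  exact key _ (h1 _ ⟨ha, mem_range_self a⟩ _ ⟨hb, mem_range_self b⟩) b rfl

omit [Finite W] [Finite U] [Finite V] in
/-- a detour inside a bag forces a protecting bag and a new edge -/
theorem xth_end {β : Bag U V} (hT : Tok P H A c β.old β.red β.top) {a b z : U} (e : A.Adj a b)
    {C1 C2 : Set U} (h1 : ConnOn (xth_Q P H A c β) C1) (h2 : ConnOn (xth_Q P H A c β) C2)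
    (ha : a ∈ C1) (hb : b ∉ C1) (hz : z ∈ C1) (hz' : z ∈ C2) (ha' : a ∉ C2) (hb' : b ∈ C2) :
    ¬ β.top ∧ ¬ β.old.Adj a b := by
  have p : ReflTransGen (fun x y => xth_Q P H A c β x y ∧ s(x, y) ≠ s(a, b)) a b :=
    (rtg_avoid (.inr hb) (h1 a ha z hz)).trans (rtg_avoid (.inl ha') (h2 z hz' b hb'))
  rcases hT with ⟨t1, -, t3⟩ | ⟨t1, t2⟩
  · exact ⟨t1, fun ho => t3 a b ho (rtg_mono
      (fun x y h => ⟨h.1.elim .inr fun h => .inl h.2, h.2⟩) p)⟩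
  · refine absurd (rtg_mono (fun x y h => ⟨h.1.resolve_right ?_, h.2⟩) p) (t2 a b e)
    rintro ⟨h3, -, D, -, h4, -⟩
    exact t1 D (h3 ▸ h4)

theorem xth_nc (hE : ESNodeStmt) (hA : In A H) (hg : P.vT ≤ g) (hP : Pre A G R Ls Bs g)
    (hT : ∀ β ∈ Bs, Tok P H A c β.old β.red β.top) (n : ℕ) : ∀ C : Set V, C.ncard ≤ n →
    C.ncard ≤ g → ∀ μ ∈ Nodes Ls Bs, Disjoint C μ → ConnOn (TG P H (cc G R c) univ).Adj C →
    ∀ u ∈ μ, ∀ v ∈ μ, u ≠ v → (∃ d ∈ C, (TG P H (cc G R c) univ).Adj u d) →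
    (∃ d ∈ C, (TG P H (cc G R c) univ).Adj v d) →
    μ ∉ Ls ∧ ∀ β ∈ Bs, μ = range β.f → ∀ a b, β.f a = u → β.f b = v → β.old.Adj a b := by
  have hle : TG P H (cc G R c) univ ≤ G := (TG_le _ _).trans (cc_le hP.le c)
  induction n with
  | zero =>
    rintro C h - μ - - - u - v - - ⟨d, hd, -⟩ -
    rw [Nat.le_zero, ncard_eq_zero] at h
    exact absurd hd (h ▸ notMem_empty d)
  | succ n ih =>
    rintro C hn hC μ hμ hd hc u hu v hv huv ⟨du, hdu, eu⟩ ⟨dv, hdv, ev⟩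
    obtain ⟨e, -, ν, hν, h1, h2, z, h3, h4⟩ := (hP.thin μ hμ).two hC hd
      (hc.mono fun _ _ _ _ e => hP.tog (hle e)) (u := u) (v := v) ⟨hu, du, hdu, hP.tog (hle eu)⟩
      ⟨hv, dv, hdv, hP.tog (hle ev)⟩ huv
    have hz : z ∉ μ := disjoint_left.1 hd h4
    rcases hν with hν | ⟨β', hβ', rfl⟩
    · refine ⟨fun h => hz (hP.eq_of_mem hν h h1 hu ▸ h3), ?_⟩
      rintro β hβ - a b rfl rfl
      exact (hP.lb ν hν β hβ a b (fun e => huv (by rw [e])) h1 h2).2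
    obtain ⟨a', rfl⟩ := h1
    obtain ⟨b', rfl⟩ := h2
    obtain ⟨z', rfl⟩ := h3
    have tr : ∀ w d, d ∈ C → (TG P H (cc G R c) univ).Adj (β'.f w) d →
        ConnOn (xth_Q P H A c β') (β'.f ⁻¹' insert (β'.f w) C) := by
      intro w d h5 h6
      refine xth_tr hE hA hg hP hT hβ' (hc.insert (adj_symm' _) h5 h6)
        fun D hD hD' a b hab h7 h8 => ?_
      have h9 : D ⊆ C \ {β'.f z'} := fun x hx =>
        ⟨(hD hx).1.resolve_left fun e => (hD hx).2 ⟨w, e.symm⟩, fun e => (hD hx).2 ⟨z', e.symm⟩⟩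
      have h10 : D.ncard < C.ncard :=
        (ncard_le_ncard h9 (toFinite _)).trans_lt (ncard_sdiff_singleton_lt_of_mem h4 (toFinite _))
      exact (ih D (by omega) (by omega) _ (.inr ⟨β', hβ', rfl⟩)
        (disjoint_left.2 fun x hx => (hD hx).2) hD' _ (mem_range_self a) _ (mem_range_self b)
        (fun e => hab ((hP.ind β' hβ').inj e)) h7 h8).2 β' hβ' rfl a b rfl rfl
    obtain ⟨t1, t2⟩ := xth_end (hT β' hβ') (((hP.ind β' hβ').adj a' b').1 e) (z := z')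
      (tr a' du hdu eu) (tr b' dv hdv ev) (.inl rfl)
      (fun h => h.elim (fun e => huv e.symm) fun h => disjoint_left.1 hd h hv) (.inr h4) (.inr h4)
      (fun h => h.elim huv fun h => disjoint_left.1 hd h hu) (.inl rfl)
    refine ⟨fun h => t2 (hP.lb μ h β' hβ' a' b' (fun e => huv (by rw [e])) hu hv).2, ?_⟩
    rintro β hβ rfl a b h5 h6
    by_contra ho
    rcases hP.bb β hβ β' hβ' a b a' b' (((hP.ind β hβ).adj a b).1 (by rw [h5, h6]; exact e)) ho t2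
      h5 h6 with rfl | h
    exacts [hz (mem_range_self z'), t1 h.2]

end

theorem thnode_stmt (hE : ESNodeStmt) : ThNodeStmt := by
  intro W U V _ _ _ H P A G R Ls Bs g c hA hg hP hT S hS h2
  obtain ⟨x, hx, y, hy, e⟩ := h2.edge
  obtain ⟨e1, D, -, hD, hxD, hyD⟩ := e
  have nc : ∀ μ ∈ Nodes Ls Bs, ∀ C, C ⊆ S \ μ → ConnOn (TG P H (cc G R c) univ).Adj C →
      ∀ u ∈ μ, ∀ v ∈ μ, u ≠ v → (∃ d ∈ C, (TG P H (cc G R c) univ).Adj u d) →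
      (∃ d ∈ C, (TG P H (cc G R c) univ).Adj v d) →
      μ ∉ Ls ∧ ∀ β ∈ Bs, μ = range β.f → ∀ a b, β.f a = u → β.f b = v → β.old.Adj a b :=
    fun μ hμ C hC => xth_nc hE hA hg hP hT _ C le_rfl
      ((ncard_le_ncard (fun x hx => (hC hx).1) (toFinite _)).trans hS) μ hμ
      (disjoint_left.2 fun x hx => (hC hx).2)
  have out : ∀ μ ∈ Nodes Ls Bs, D ⊆ μ → ¬ S ⊆ μ → ∃ u ∈ S ∩ μ, ∃ v ∈ S ∩ μ, u ≠ v ∧ μ ∉ Ls ∧
      ∀ β ∈ Bs, μ = range β.f → ∀ a b, β.f a = u → β.f b = v → β.old.Adj a b := by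
    intro μ hμ hs hn
    obtain ⟨w, hw, hw'⟩ := not_subset.1 hn
    obtain ⟨u, hu, v, hv, huv, h3, h4⟩ := h2.two_nb (Y := μ)
      (fun h => e1.ne (h ⟨hx, hs hxD⟩ ⟨hy, hs hyD⟩)) ⟨hw, hw'⟩
    exact ⟨u, hu, v, hv, huv, nc μ hμ _ comp_sub (comp_conn (adj_symm' _)) u hu.2 v hv.2 huv h3 h4⟩
  rcases (hE W U V H A G R Ls Bs g hA hP _ (cc_le hP.le c) D (hD.2.1.le.trans hg)).1 hD.1 with
    ⟨L, hL, hs⟩ | ⟨β, hβ, hs⟩
  · refine .inl ⟨L, hL, ?_⟩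
    by_contra hn
    obtain ⟨-, -, -, -, -, h, -⟩ := out L (.inl hL) hs hn
    exact h hL
  refine .inr ⟨β, hβ, ?_⟩
  by_contra hn
  obtain ⟨_, ⟨hu, a, rfl⟩, _, ⟨hv, b, rfl⟩, huv, -, ho⟩ := out _ (.inr ⟨β, hβ, rfl⟩) hs hn
  replace ho := ho β hβ rfl a b rfl rfl
  have inj := (hP.ind β hβ).inj
  obtain ⟨x', rfl⟩ := hs hxD
  obtain ⟨y', rfl⟩ := hs hyD
  have hxy : ¬ β.old.Adj x' y' := by
    rcases hT β hβ with ⟨-, t, -⟩ | ⟨t, -⟩
    · have e2 := (hP.ccol hβ c x' y').1 e1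
      rw [t] at e2
      exact e2.2
    · exact absurd (xth_pull hP hβ hD hs) (t _)
  obtain ⟨z, hz, h3, h4⟩ : ∃ z, β.f z ∈ S ∧ z ≠ a ∧ z ≠ b := by
    by_contra h
    have h5 : ∀ z, β.f z ∈ S → z = a ∨ z = b := fun z hz => by
      by_contra h'
      exact h ⟨z, hz, fun e => h' (.inl e), fun e => h' (.inr e)⟩
    rcases h5 x' hx with rfl | rfl <;> rcases h5 y' hy with rfl | rfl
    exacts [e1.ne rfl, hxy ho, hxy ho.symm, e1.ne rfl]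
  have tr : ∀ w, ConnOn (xth_Q P H A c β) (β.f ⁻¹' (S \ {w})) := fun w =>
    xth_tr hE hA hg hP hT hβ (h2.2 w) fun C hC hc a b hab h5 h6 =>
      (nc _ (.inr ⟨β, hβ, rfl⟩) C (fun x hx => ⟨(hC hx).1.1, (hC hx).2⟩) hc _ (mem_range_self a) _
        (mem_range_self b) (fun e => hab (inj e)) h5 h6).2 β hβ rfl a b rfl rfl
  exact (xth_end (hT β hβ) (hP.old β hβ ho) (z := z) (tr (β.f b)) (tr (β.f a)) ⟨hu, huv⟩
    (fun h => h.2 rfl) ⟨hz, fun e => h4 (inj e)⟩ ⟨hz, fun e => h3 (inj e)⟩ (fun h => h.2 rfl)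
    ⟨hv, fun e => huv e.symm⟩).2 ho

end Pool.Agent.MP_1c0fc2_co.RE

end

section

/-! Choice of the centres and pulling back red families. -/

open Function Set Relation

namespace Pool.Agent.MP_1c0fc2_co.RE

theorem xv0_rw_mono {V : Type} (J : SimpleGraph V) (Ob : Set V → Prop) {K K' : Set V}
    (h : K ⊆ K') : RW J Ob K ⊆ RW J Ob K' :=
  fun _ ⟨O, h1, h2, h3⟩ => ⟨O, h1, h2.trans h, h3⟩

theorem v0_stmt (hK3 : K3Stmt) (hAtomA : AtomAStmt) (hSplit : SplitStmt) (hV0Abs : V0AbsStmt) : V0Stmt := by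
  intro W U _ _ H P hP m hm hC A hA s hF
  obtain ⟨L, _, K, h1, h2⟩ := hF
  obtain ⟨L', _, K', k1, k2, k3⟩ := hSplit U L A _ K h1 fun O hO => ⟨hO.two.conn, hO.two.nonempty⟩
  obtain ⟨I, i1, i2, i3⟩ := hV0Abs U L' A (AS P H A) (RO P H m A) K' (hAtomA W U H P hP A hA)
    (fun D hD hs => by
      obtain ⟨a, ha, b, hb, e⟩ := hD.two.edge
      exact e.ne (hs ha hb))
    (fun O hO => hO.two.nonempty)
    (fun O x hO => by
      cases m with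
      | N1 =>
        refine ⟨O, subset_rfl, hO.1, ?_⟩
        by_cases hx : x ∈ O
        · exact .inr (hO.2 x hx)
        · exact .inl hx
      | N2 =>
        obtain ⟨D, d1, d2, d3⟩ := hO.2 x
        exact ⟨D, d1, (((hK3 W U H P hP).2 A D).2.2 hC.1).2 d2, .inl d3⟩
      | S1 => exact hm.elim
      | S2 => exact hm.elim)
    k1.rp k2
  refine ⟨I, L', inferInstance, K', i1, i2, k1, fun l => ?_⟩
  by_cases h : ∃ O, RO P H m A O ∧ O ⊆ K' l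
  · obtain ⟨x, hx, hx'⟩ := i3 l h
    obtain ⟨l0, hl⟩ := k3 l
    have a1 : (RW A (RO P H m A) (K' l) \ I).ncard < (RW A (RO P H m A) (K' l)).ncard :=
      ncard_lt_ncard ⟨sdiff_subset, fun e => (e hx').2 hx⟩
    have a2 := ncard_le_ncard (xv0_rw_mono A (RO P H m A) hl)
    have a3 := h2 l0
    omega
  · have e : RW A (RO P H m A) (K' l) \ I = ∅ :=
      eq_empty_of_forall_notMem fun _ ⟨⟨O, o1, o2, _⟩, _⟩ => h ⟨O, o1, o2⟩
    rw [e, ncard_empty]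
    exact Nat.zero_le _

theorem xv0_port {V Z L : Type} {B : SimpleGraph V} {Y : SimpleGraph Z} {φ : V → Z}
    (hφ : IH B Y φ) (K : L → Set Z) (𝒮 : Set L) (l : L) {R0 : Set V} {R0' : Set Z}
    (hR : ∀ x ∈ R0, φ x ∈ R0') {p : V}
    (hp : p ∈ Port B (φ ⁻¹' K l) (R0 ∪ Oth (fun l => φ ⁻¹' K l) 𝒮 l)) :
    φ p ∈ Port Y (K l ∩ range φ) (R0' ∪ Oth (fun l => K l ∩ range φ) 𝒮 l) := by
  have h : ∀ x ∈ R0 ∪ Oth (fun l => φ ⁻¹' K l) 𝒮 l,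
      φ x ∈ R0' ∪ Oth (fun l => K l ∩ range φ) 𝒮 l := by
    rintro x (hx | ⟨l', a1, a2, a3⟩)
    · exact .inl (hR x hx)
    · exact .inr ⟨l', a1, a2, a3, mem_range_self x⟩
  obtain ⟨p1, p2 | ⟨q, q1, q2, q3⟩⟩ := hp
  · exact ⟨⟨p1, mem_range_self p⟩, .inl (h p p2)⟩
  · exact ⟨⟨p1, mem_range_self p⟩, .inr ⟨φ q, h q q1, fun e => q2 e.1, hφ.2 _ _ q3⟩⟩

theorem pullR_stmt : PullRStmt := by
  intro W V Z L _ _ _ _ H P m B Y φ K s hφ h1 h2 h3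
  refine ⟨L, inferInstance, fun l => φ ⁻¹' K l, ⟨fun O hO => ?_, fun 𝒮 R0 hn hR => ?_⟩,
    fun l => ?_⟩
  · obtain ⟨l, hl⟩ := h1 O hO
    exact ⟨l, image_subset_iff.1 hl⟩
  · obtain ⟨R0', r1, r2⟩ : ∃ R0' : Set Z, (∀ x ∈ R0, φ x ∈ R0') ∧
        (R0' = ∅ ∨ (∃ l0, l0 ∉ 𝒮 ∧ R0' = K l0 ∩ range φ) ∨ ∃ r ∈ range φ, R0' = {r}) := by
      rcases hR with rfl | ⟨l0, a1, rfl⟩ | ⟨r, -, rfl⟩
      · exact ⟨∅, fun _ h => h.elim, .inl rfl⟩
      · exact ⟨K l0 ∩ range φ, fun x hx => ⟨hx, mem_range_self x⟩, .inr (.inl ⟨l0, a1, rfl⟩)⟩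
      · exact ⟨{φ r}, fun x hx => congrArg φ hx, .inr (.inr ⟨φ r, mem_range_self r, rfl⟩)⟩
    obtain ⟨l, hl, hs⟩ := h2 𝒮 R0' hn r2
    exact ⟨l, hl, fun p hp q hq =>
      hφ.1 (hs (xv0_port hφ K 𝒮 l r1 hp) (xv0_port hφ K 𝒮 l r1 hq))⟩
  · obtain ⟨D, d1, d2⟩ := h3 l
    refine le_trans (ncard_le_ncard_of_injOn φ ?_ hφ.1.injOn (toFinite _)) d1
    rintro w ⟨O, o1, o2, o3⟩
    exact d2 O o1 (image_subset_iff.2 o2) (mem_image_of_mem φ o3)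

end Pool.Agent.MP_1c0fc2_co.RE

end

section

/-! One vertex for each class with an object, independent and without common neighbours. -/

open Function Set Relation

namespace Pool.Agent.MP_1c0fc2_co.RE

section
variable {V L : Type} {J : SimpleGraph V} {A0 Ob : Set V → Prop} {K : L → Set V}
  {ρ : Set V → ℕ} {τ Br : Set V → Set V}

theorem xv0abs_port {𝒮 : Set L} {l l' : L} (hl' : l' ∈ 𝒮) (hne : l' ≠ l) {p : V} (hp : p ∈ K l)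
    (hp' : p ∈ K l') : p ∈ Port J (K l) (Oth K 𝒮 l) :=
  ⟨hp, .inl ⟨l', hl', hne, hp'⟩⟩

theorem xv0abs_port' {𝒮 : Set L} {l l' : L} (hl' : l' ∈ 𝒮) (hne : l' ≠ l) {p q : V}
    (hp : p ∈ K l) (hq : q ∈ K l') (hq' : q ∉ K l) (e : J.Adj p q) :
    p ∈ Port J (K l) (Oth K 𝒮 l) :=
  ⟨hp, .inr ⟨q, ⟨l', hl', hne, hq⟩, hq', e⟩⟩

/-- two classes meet or are adjacent -/
def xv0abs_Con (J : SimpleGraph V) (K : L → Set V) (l l' : L) : Prop :=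
  ∃ p ∈ K l, ∃ q ∈ K l', p = q ∨ J.Adj p q

theorem xv0abs_symm (l l' : L) (h : xv0abs_Con J K l l') : xv0abs_Con J K l' l :=
  let ⟨p, hp, q, hq, e⟩ := h; ⟨q, hq, p, hp, e.imp Eq.symm SimpleGraph.Adj.symm⟩

theorem xv0abs_restrict {𝒮 : Set L} {l1 l : L} (hl : l ∈ comp (xv0abs_Con J K) 𝒮 l1) :
    Port J (K l) (Oth K 𝒮 l) ⊆ Port J (K l) (Oth K (comp (xv0abs_Con J K) 𝒮 l1) l) := by
  rintro p ⟨hp, ⟨l', h1, h2, h3⟩ | ⟨q, ⟨l', h1, h2, h3⟩, h4, h5⟩⟩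
  · exact xv0abs_port (comp_closed hl h1 ⟨p, hp, p, h3, .inl rfl⟩) h2 hp h3
  · exact xv0abs_port' (comp_closed hl h1 ⟨p, hp, q, h3, .inr h5⟩) h2 hp h3 h4 h5

/-- if the port lies in a branch then all the other classes lie in that branch -/
theorem xv0abs_inside {𝒦 : Set L} (h𝒦 : ConnOn (xv0abs_Con J K) 𝒦)
    (hK : ∀ l, ConnOn J.Adj (K l)) {l : L} (hl : l ∈ 𝒦) {D t B : Set V} (hD : D ⊆ K l)
    (hc : Cut J D t B) (hp : Port J (K l) (Oth K 𝒦 l) ⊆ B) {l' : L} (hl' : l' ∈ 𝒦)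
    (hne : l' ≠ l) : K l' ⊆ B := by
  have miss : ∀ u ∈ 𝒦, u ≠ l → ∀ q ∈ K u, q ∉ t := fun u hu e q hq hqt =>
    disjoint_left.1 hc.2.2.1 (hp (xv0abs_port hu e (hD (hc.1 hqt)) hq)) hqt
  have sub : ∀ u ∈ 𝒦, u ≠ l → ∀ q ∈ K u, q ∈ B → K u ⊆ B := fun u hu e q hq hqB =>
    (hK u).sub hq hqB fun x _ y hy hx exy => (hc.2.2.2 x hx y exy).resolve_right (miss u hu e y hy)
  have key : ∀ u, ReflTransGen (fun x y => x ∈ 𝒦 ∧ y ∈ 𝒦 ∧ xv0abs_Con J K x y) l u →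
      u = l ∨ K u ⊆ B := by
    intro u hu
    induction hu with
    | refl => exact .inl rfl
    | @tail u w _ h ih =>
      by_cases e : w = l
      · exact .inl e
      obtain ⟨-, hw, p, hp1, q, hq, epq⟩ := h
      refine .inr (sub w hw e q hq ?_)
      have step : p ∈ B → q ∈ B := fun hpB => by
        rcases epq with rfl | epq
        · exact hpB
        · exact (hc.2.2.2 p hpB q epq).resolve_right (miss w hw e q hq)
      rcases ih with rfl | ih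
      · by_cases hq' : q ∈ K u
        · exact hp (xv0abs_port hw e hq' hq)
        · rcases epq with rfl | epq
          · exact absurd hp1 hq'
          · exact step (hp (xv0abs_port' hw e hp1 hq hq' epq))
      · exact step (ih hp1)
  exact (key l' (h𝒦 l hl l' hl')).resolve_left hne

theorem xv0abs_step [Finite V] [Finite L] (hns : ∀ D, A0 D → ¬ D.Subsingleton)
    (hinj : ∀ O O', A0 O → A0 O' → ρ O = ρ O' → O = O')
    (hcut : ∀ O, A0 O → Cq J (τ O) ∧ Cut J O (τ O) (Br O))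
    (hlt : ∀ O O', A0 O → A0 O' → ρ O < ρ O' → Disjoint O' (Br O))
    (hrp : RP J K univ) (hK : ∀ l, ConnOn J.Adj (K l)) {𝒮 : Set L} {l1 : L} (h1 : l1 ∈ 𝒮)
    (hD1 : ∃ D, A0 D ∧ D ⊆ K l1) :
    ∃ l ∈ 𝒮, (Port J (K l) (Oth K 𝒮 l)).Subsingleton ∧
      ∀ c ∈ Port J (K l) (Oth K 𝒮 l), ∀ D, A0 D → D ⊆ K l → c ∉ Br D := by
  set 𝒦 := comp (xv0abs_Con J K) 𝒮 l1 with h𝒦
  obtain ⟨D1, hD1, hD1'⟩ := hD1
  obtain ⟨D0, ⟨hD0, l0, hl0, hD0'⟩, hmax⟩ := Set.exists_max_image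
    {D | A0 D ∧ ∃ l ∈ 𝒦, D ⊆ K l} ρ (toFinite _) ⟨D1, hD1, l1, mem_comp h1, hD1'⟩
  by_cases hn : (𝒦 \ {l0}).Nonempty
  · obtain ⟨l, hl, hs⟩ := hrp (𝒦 \ {l0}) (K l0) hn (.inr (.inl ⟨l0, fun h => h.2 rfl, rfl⟩))
    have hs' : (Port J (K l) (Oth K 𝒦 l)).Subsingleton := by
      have hO : Oth K 𝒦 l ⊆ K l0 ∪ Oth K (𝒦 \ {l0}) l := by
        rintro x ⟨l', a1, a2, a3⟩
        by_cases e : l' = l0
        · exact .inl (e ▸ a3)
        · exact .inr ⟨l', ⟨a1, e⟩, a2, a3⟩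
      refine hs.anti ?_
      rintro p ⟨hp, h | ⟨q, a1, a2, a3⟩⟩
      exacts [⟨hp, .inl (hO h)⟩, ⟨hp, .inr ⟨q, hO a1, a2, a3⟩⟩]
    refine ⟨l, comp_sub hl.1, hs'.anti (xv0abs_restrict hl.1), fun c hc D hD hDl hcB => ?_⟩
    have hne : l0 ≠ l := fun e => hl.2 e.symm
    have hin : K l0 ⊆ Br D := xv0abs_inside (comp_conn xv0abs_symm) hK hl.1 hDl (hcut D hD).2
      (fun p hp => by rw [hs' hp (xv0abs_restrict hl.1 hc)]; exact hcB) hl0 hne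
    rcases (hmax D ⟨hD, l, hl.1, hDl⟩).lt_or_eq with h | h
    · obtain ⟨a, ha, -⟩ := not_subsingleton_iff.1 (hns D0 hD0)
      exact disjoint_left.1 (hlt D D0 hD hD0 h) ha (hin (hD0' ha))
    · obtain rfl := hinj D D0 hD hD0 h
      exact hns D hD (hs'.anti fun p hp => xv0abs_port hl0 hne (hDl hp) (hD0' hp))
  · have he : Port J (K l0) (Oth K 𝒮 l0) = ∅ := by
      refine eq_empty_of_forall_notMem fun p hp => ?_
      rcases (xv0abs_restrict hl0 hp).2 with ⟨l', a1, a2, -⟩ | ⟨q, ⟨l', a1, a2, -⟩, -⟩ <;>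
        exact hn ⟨l', a1, a2⟩
    exact ⟨l0, comp_sub hl0, he ▸ subsingleton_empty, fun c hc => by rw [he] at hc; exact hc.elim⟩

theorem xv0abs_pick (hat : Atoms J (Cq J) A0)
    (hcut : ∀ O, A0 O → Cq J (τ O) ∧ Cut J O (τ O) (Br O)) {O Pt : Set V} (hO : O.Nonempty)
    (hD : ∀ x, ∃ D, D ⊆ O ∧ A0 D ∧ (x ∉ D ∨ ∃ v ∈ D, v ≠ x ∧ ¬ J.Adj x v))
    (hs : Pt.Subsingleton) (hB : ∀ c ∈ Pt, ∀ D, A0 D → D ⊆ O → c ∉ Br D) :
    ∃ D, D ⊆ O ∧ A0 D ∧ ∃ v ∈ D \ τ D, ∀ c ∈ Pt, v ≠ c ∧ ¬ J.Adj v c ∧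
      (c ∉ Ext J O → ∀ x ∈ τ D, J.Adj c x → ¬ J.Adj v x) := by
  rcases hs.eq_empty_or_singleton with rfl | ⟨c, rfl⟩
  · obtain ⟨x, -⟩ := hO
    obtain ⟨D, h1, h2, -⟩ := hD x
    obtain ⟨v, hv⟩ := (hat.nsep D _ h2 (hcut D h2).1).2
    exact ⟨D, h1, h2, v, hv, fun c hc => hc.elim⟩
  have far : ∀ D, D ⊆ O → A0 D → c ∉ D → ∀ v ∈ D \ τ D, v ≠ c ∧ ¬ J.Adj v c := by
    intro D h1 h2 h3 v hv
    refine ⟨fun e => h3 (e ▸ hv.1), fun e => ?_⟩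
    rcases (hcut D h2).2.2.2.2 v ((hcut D h2).2.2.1 hv) c e with h | h
    exacts [hB c rfl D h2 h1 h, h3 ((hcut D h2).2.1 h)]
  by_cases hc : c ∈ Ext J O
  · obtain ⟨D, h1, h2, h3⟩ := hD c
    by_cases hcD : c ∈ D
    · obtain ⟨v, hv, h4, h5⟩ := h3.resolve_left (not_not.2 hcD)
      have hcτ : c ∈ τ D := by
        by_contra h
        exact hB c rfl D h2 h1 ((hcut D h2).2.2.1 ⟨hcD, h⟩)
      refine ⟨D, h1, h2, v, ⟨hv, fun h => h5 ((hcut D h2).1.adj hcτ h h4.symm)⟩, ?_⟩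
      rintro _ rfl
      exact ⟨h4, fun e => h5 e.symm, fun h => absurd hc h⟩
    · obtain ⟨v, hv⟩ := (hat.nsep D _ h2 (hcut D h2).1).2
      refine ⟨D, h1, h2, v, hv, ?_⟩
      rintro _ rfl
      exact ⟨(far D h1 h2 hcD v hv).1, (far D h1 h2 hcD v hv).2, fun h => absurd hc h⟩
  · have hcO : c ∉ O := fun h => hc (.inl h)
    obtain ⟨x0, hx0⟩ : ∃ x0, ∀ x ∈ O, J.Adj c x → x = x0 := by
      by_cases h : ∃ x ∈ O, J.Adj c x
      · obtain ⟨x0, a1, a2⟩ := h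
        refine ⟨x0, fun x b1 b2 => ?_⟩
        by_contra e
        exact hc (.inr ⟨x, b1, x0, a1, e, b2, a2⟩)
      · exact ⟨c, fun x b1 b2 => absurd ⟨x, b1, b2⟩ h⟩
    obtain ⟨D, h1, h2, h3⟩ := hD x0
    have hcD : c ∉ D := fun h => hcO (h1 h)
    by_cases hx : x0 ∈ τ D
    · obtain ⟨v, hv, h4, h5⟩ := h3.resolve_left (not_not.2 ((hcut D h2).2.1 hx))
      have hv' : v ∈ D \ τ D := ⟨hv, fun h => h5 ((hcut D h2).1.adj hx h h4.symm)⟩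
      refine ⟨D, h1, h2, v, hv', ?_⟩
      rintro _ rfl
      refine ⟨(far D h1 h2 hcD v hv').1, (far D h1 h2 hcD v hv').2, fun _ x a1 a2 a3 => ?_⟩
      rw [hx0 x (h1 ((hcut D h2).2.1 a1)) a2] at a3
      exact h5 a3.symm
    · obtain ⟨v, hv⟩ := (hat.nsep D _ h2 (hcut D h2).1).2
      refine ⟨D, h1, h2, v, hv, ?_⟩
      rintro _ rfl
      refine ⟨(far D h1 h2 hcD v hv).1, (far D h1 h2 hcD v hv).2, fun _ x a1 a2 _ => ?_⟩
      rw [hx0 x (h1 ((hcut D h2).2.1 a1)) a2] at a1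
      exact hx a1

theorem xv0abs_conf (hns : ∀ D, A0 D → ¬ D.Subsingleton)
    (hinj : ∀ O O', A0 O → A0 O' → ρ O = ρ O' → O = O')
    (hcut : ∀ O, A0 O → Cq J (τ O) ∧ Cut J O (τ O) (Br O))
    (hlt : ∀ O O', A0 O → A0 O' → ρ O < ρ O' → Disjoint O' (Br O))
    {𝒮 : Set L} {l l' : L} (hl' : l' ∈ 𝒮) (hne : l' ≠ l)
    (hs : (Port J (K l) (Oth K 𝒮 l)).Subsingleton) {O D D' : Set V} (hO : O ⊆ K l) (hDO : D ⊆ O)
    (hD : A0 D) (hD' : A0 D') (hD'K : D' ⊆ K l') {v v' : V} (hv : v ∈ D \ τ D)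
    (hv' : v' ∈ D' \ τ D') (hE : v' ∉ Ext J O)
    (hp : ∀ c ∈ Port J (K l) (Oth K 𝒮 l), v ≠ c ∧ ¬ J.Adj v c ∧
      (c ∉ Ext J O → ∀ x ∈ τ D, J.Adj c x → ¬ J.Adj v x)) :
    ¬ J.Adj v v' ∧ ∀ x, J.Adj v x → ¬ J.Adj v' x := by
  have hvK : v ∈ K l := hO (hDO hv.1)
  have hv'K : v' ∈ K l' := hD'K hv'.1
  have nb : ∀ q ∈ K l', ¬ J.Adj v q := fun q hq e => by
    by_cases h : q ∈ K l
    · exact (hp q (xv0abs_port hl' hne h hq)).2.1 e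
    · exact (hp v (xv0abs_port' hl' hne hvK hq h e)).1 rfl
  refine ⟨nb v' hv'K, fun x e e' => ?_⟩
  obtain ⟨-, c1, c2, -, c4⟩ := hcut D hD
  obtain ⟨-, d1, d2, -, d4⟩ := hcut D' hD'
  rcases lt_trichotomy (ρ D) (ρ D') with h | h | h
  · rcases c4 v (c2 hv) x e with hx | hx
    · rcases c4 x hx v' e'.symm with a | a
      · exact disjoint_left.1 (hlt D D' hD hD' h) hv'.1 a
      · exact hE (.inl (hDO (c1 a)))
    · by_cases a : v' ∈ K l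
      · exact (hp v' (xv0abs_port hl' hne a hv'K)).2.2 hE x hx e' e
      · exact (hp x (xv0abs_port' hl' hne (hO (hDO (c1 hx))) hv'K a e'.symm)).2.1 e
  · obtain rfl := hinj D D' hD hD' h
    exact hns D hD (hs.anti fun p hp => xv0abs_port hl' hne (hO (hDO hp)) (hD'K hp))
  · rcases d4 v' (d2 hv') x e' with hx | hx
    · rcases d4 x hx v e.symm with a | a
      · exact disjoint_left.1 (hlt D' D hD' hD h) hv.1 a
      · exact (hp v (xv0abs_port hl' hne hvK (hD'K (d1 a)))).1 rfl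
    · exact nb x (hD'K (d1 hx)) e

end

theorem v0Abs_stmt (hEO : EOStmt) : V0AbsStmt := by
  intro V L _ _ J A0 Ob K hat hns hne hD hrp hK
  obtain ⟨ρ, τ, Br, hinj, hcut, hlt⟩ := hEO V J (Cq J) A0 hat
  have main : ∀ 𝒮 : Set L, (∀ l ∈ 𝒮, ∃ O, Ob O ∧ O ⊆ K l) → ∃ I, Indp J I ∧ NoCom J I ∧
      (∀ l ∈ 𝒮, (I ∩ RW J Ob (K l)).Nonempty) ∧
      ∀ v ∈ I, ∃ l ∈ 𝒮, ∃ D, A0 D ∧ D ⊆ K l ∧ v ∈ D \ τ D := by
    intro 𝒮
    induction 𝒮 using WellFoundedLT.induction with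
    | ind 𝒮 ih =>
    intro h𝒮
    rcases 𝒮.eq_empty_or_nonempty with rfl | ⟨l1, h1⟩
    · exact ⟨∅, fun _ h => h.elim, fun _ h => h.elim, fun _ h => h.elim, fun _ h => h.elim⟩
    obtain ⟨l, hl, hs, hB⟩ := xv0abs_step hns hinj hcut hlt hrp hK h1 (by
      obtain ⟨O, a1, a2⟩ := h𝒮 l1 h1
      obtain ⟨x, -⟩ := hne O a1
      obtain ⟨D, b1, b2, -⟩ := hD O x a1
      exact ⟨D, b2, b1.trans a2⟩)
    obtain ⟨I, i1, i2, i3, i4⟩ := ih (𝒮 \ {l}) (sdiff_singleton_ssubset.2 hl)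
      fun l' h => h𝒮 l' h.1
    by_cases hit : (I ∩ RW J Ob (K l)).Nonempty
    · refine ⟨I, i1, i2, fun l' h => ?_, fun v hv => ?_⟩
      · by_cases e : l' = l
        · exact e ▸ hit
        · exact i3 l' ⟨h, e⟩
      · obtain ⟨l', a, b⟩ := i4 v hv
        exact ⟨l', a.1, b⟩
    obtain ⟨O, hO, hOK⟩ := h𝒮 l hl
    obtain ⟨D, d1, d2, v, hv, hp⟩ := xv0abs_pick hat hcut (hne O hO) (fun x => hD O x hO) hs
      fun c hc D a b => hB c hc D a (b.trans hOK)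
    have conf : ∀ v' ∈ I, ¬ J.Adj v v' ∧ ∀ x, J.Adj v x → ¬ J.Adj v' x := fun v' hv' => by
      obtain ⟨l', a, D', b1, b2, b3⟩ := i4 v' hv'
      exact xv0abs_conf hns hinj hcut hlt a.1 a.2 hs hOK d1 d2 b1 b2 hv b3
        (fun h => hit ⟨v', hv', O, hO, hOK, h⟩) hp
    refine ⟨insert v I, ?_, ?_, fun l' h => ?_, ?_⟩
    · rintro a (rfl | ha) b (rfl | hb)
      exacts [fun e => e.ne rfl, (conf b hb).1, fun e => (conf a ha).1 e.symm, i1 a ha b hb]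
    · rintro a (rfl | ha) b (rfl | hb) x e e'
      exacts [rfl, absurd e' ((conf b hb).2 x e), absurd e ((conf a ha).2 x e'),
        i2 a ha b hb x e e']
    · by_cases e : l' = l
      · exact ⟨v, .inl rfl, O, hO, e ▸ hOK, .inl (d1 hv.1)⟩
      · exact (i3 l' ⟨h, e⟩).mono (inter_subset_inter_left _ (subset_insert _ _))
    · rintro a (rfl | ha)
      · exact ⟨l, hl, D, d2, d1.trans hOK, hv⟩
      · obtain ⟨l', b1, b2⟩ := i4 a ha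
        exact ⟨l', b1.1, b2⟩
  obtain ⟨I, i1, i2, i3, -⟩ := main {l | ∃ O, Ob O ∧ O ⊆ K l} fun _ h => h
  exact ⟨I, i1, i2, i3⟩

end Pool.Agent.MP_1c0fc2_co.RE

end
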