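import Pool.Agent.Mg.F1c0fc2.G3ab0dd
import Mathlib
import Pool.Agent.Mg.F1c0fc2.G45208c

section

open Function

namespace Pool.Agent.MP_1c0fc2_co.GR

variable {K I : Type} [Finite K] {cl : K → I} {F H : HG cl} {R : Type} {h : R → Hom F H}

/-- the levels above zero in one step of the partite construction -/
theorem up_step (hH : H.Lin) (Y : Pic h) {e : H.E} {G : HG (id : K → K)} {Q : Type} [Finite Q]
    {q : Q → Emb (Con Y.ψ e) G} (A : Amal Y.ψ e q) {s : ℕ → Setoid F.E}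
    {s' : ℕ → Setoid Y.X.E} {u : ℕ → Setoid G.E} {B : ℕ → Set I} {m : ℕ} {γ : ℕ → ℕ}
    (hm : 1 ≤ m) (hγ : ∀ μ, 2 ≤ γ μ) (hY : Up Y.φ s s' B m γ)
    (hq : Up q (fun μ => conS Y.ψ e (s' μ)) u (fun μ => cl ⁻¹' B μ) m γ) :
    ∃ t : ℕ → Setoid A.Z.E, TRel A s' u t m ∧ Up (A.pic Y).φ s t B m γ := by
  obtain ⟨t, ht⟩ := trel_exists A hm hY.tr hq.tr hq.cpt
  have hc : ∀ (p : Q × Y.P) μ, Compat ((A.pic Y).φ p) (s μ) (t μ) :=
    fun p μ => Compat.comp (ht.ι_c p.1 μ) (hY.cpt p.2 μ)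
  refine ⟨t, ht, ht.isTrain hY.tr hq.tr fun μ h1 h2 => ⟨_, _, hq.good μ h1 h2⟩,
    A.lin hH hY.lin hq.lin, hc, fun μ h1 h2 => ⟨fun p => hc p μ, ?_⟩⟩
  have hg := hq.good μ h1 h2
  rw [hi_preimage] at hg
  obtain ⟨c1, b1, a1⟩ := hg.up
  obtain ⟨c2, b2, a2⟩ := hY.good μ h1 h2
  have ga := ht.gamal h2 c1 (Hi B m μ)
  have hw : 4 ≤ 2 * γ μ := by have := hγ μ; omega
  have e : (fun p : Q × Y.P => ((A.pic Y).φ p).hg (hc p μ) (Hi B m μ)) =
      prodSys (fun a => (A.ι a).hg (ht.ι_c a μ) (Hi B m μ))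
        fun p => (Y.φ p).hg (c2 p) (Hi B m μ) :=
    funext fun p => Emb.hg_comp (A.ι p.1) (Y.φ p.2) (ht.ι_c p.1 μ) (c2 p.2) _ _
  exact e ▸ ⟨ga.basic b1 (a1.mono hw hw) b2, ga.ac b1 a1 hw b2 a2⟩

end Pool.Agent.MP_1c0fc2_co.GR

end

section

open Function

namespace Pool.Agent.MP_1c0fc2_co.GR

variable {K I : Type} [Finite K] {cl : K → I} {F H : HG cl} {R : Type} {h : R → Emb F H}

omit [Finite K] in
theorem xlevz_on (ψ : Hom F H) {v : F.V} {f : F.E} (hv : F.On v f) : H.On (ψ.v v) (ψ.e f) := by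
  obtain ⟨k, rfl⟩ := hv
  exact ⟨k, ψ.inc_e f k⟩

omit [Finite K] in
theorem xlevz_ne (ψ : Hom F H) {v w : F.V} {f : F.E} (hv : F.On v f) (hw : F.On w f)
    (hne : v ≠ w) : ψ.v v ≠ ψ.v w := by
  obtain ⟨k, rfl⟩ := hv
  obtain ⟨k', rfl⟩ := hw
  rw [← ψ.inc_e, ← ψ.inc_e]
  exact fun e => hne (congrArg _ (H.inc_inj _ e))

theorem xlevz_over (ψ : Hom F H) (e : H.E) (u : (Con ψ e).V) :
    H.On (ψ.v ((conEmb ψ e).v u)) e := by
  obtain ⟨⟨k, v⟩, f, rfl, hv⟩ := u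
  exact xlevz_on ψ ⟨k, hv⟩

omit [Finite K] in
theorem xlevz_two {r : Setoid F.E} (h0 : ∀ f f', r f f' → f = f') {D : Set I}
    {u v : (hg F r D).V} {d : (hg F r D).C} (hu : (hg F r D).M u d) (hv : (hg F r D).M v d) :
    ∃ f, Quotient.mk r f = d ∧ F.On u.1 f ∧ F.On v.1 f := by
  obtain ⟨f, rfl, hf⟩ := hu
  obtain ⟨f', e, hf'⟩ := hv
  obtain rfl := h0 _ _ (Quotient.exact e)
  exact ⟨f', rfl, hf, hf'⟩

omit [Finite K] in
theorem xlevz_ind (φ : Emb F H) {r₀ : Setoid F.E} {r : Setoid H.E}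
    (h0 : ∀ f f', r f f' → f = f') (hc : Compat φ r₀ r) (D : Set I) : (φ.hg hc D).Ind := by
  intro x y
  induction y using Quotient.inductionOn with
  | h f =>
    rintro ⟨g, e, hg⟩
    obtain rfl := h0 _ _ (Quotient.exact e)
    exact ⟨f, rfl, φ.on.1 hg⟩

theorem lev_zero (hH : H.Lin) (hs : ∀ r, (h r).Str) (Y : Pic (fun r => (h r).toHom)) (e : H.E)
    {r₀ : Setoid F.E} {r : Setoid Y.X.E} (h0 : ∀ f f', r f f' → f = f')
    (hc : ∀ p, Compat (Y.φ p) r₀ r) (D : Set I) :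
    Lev0 ((conEmb Y.ψ e).hg (con_compat Y.ψ e r) D) (fun p => (Y.φ p).hg (hc p) D) := by
  refine ⟨xlevz_ind _ h0 _ D, fun x y d hxy hx hy => ?_, fun v c => ?_, ?_⟩
  · obtain ⟨f, rfl, h1, h2⟩ := xlevz_two h0 hx hy
    have h3 := hH _ _ _ _ (xlevz_ne Y.ψ h1 h2 fun e' => hxy
      (Subtype.ext ((conEmb Y.ψ e).v_inj e'))) (xlevz_on Y.ψ h1) (xlevz_on Y.ψ h2)
      (xlevz_over Y.ψ e x.1) (xlevz_over Y.ψ e y.1)
    exact ⟨Quotient.mk _ ⟨f, h3⟩, rfl⟩
  · induction c using Quotient.inductionOn with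
    | h f =>
      rintro ⟨g, e', k, hk⟩
      obtain rfl := h0 _ _ (Quotient.exact e')
      refine ⟨⟨(Con Y.ψ e).inc f k, ?_⟩, Subtype.ext hk⟩
      have h1 := v.2
      rw [← hk, HG.vc_inc] at h1
      exact h1
  · have hv : ∀ p u, GHom.Bag ((conEmb Y.ψ e).hg (con_compat Y.ψ e r) D)
        (Sum.inl (((Y.φ p).hg (hc p) D).v u)) → H.On ((h (Y.ov p)).v u.1) e := by
      rintro p u ⟨u' | _, hu⟩
      · have h1 : (conEmb Y.ψ e).v u'.1 = (Y.φ p).v u.1 := congrArg Subtype.val (Sum.inl.inj hu)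
        rw [← Y.ov_v, ← h1]
        exact xlevz_over Y.ψ e _
      · cases hu
    have he : ∀ p f, GHom.Bag ((conEmb Y.ψ e).hg (con_compat Y.ψ e r) D)
        (Sum.inr (Quotient.mk r ((Y.φ p).e f))) → (h (Y.ov p)).e f = e := by
      rintro p f ⟨_ | c, hu⟩
      · cases hu
      · induction c using Quotient.inductionOn with
        | h g =>
          rw [← Y.ov_e, ← h0 _ _ (Quotient.exact (Sum.inr.inj hu))]
          exact g.2
    rintro p _ _ hxy ⟨u | c, rfl⟩ ⟨w | c', rfl⟩ hx hy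
    · have h1 := hv p u hx
      have h2 := hv p w hy
      obtain ⟨f, rfl⟩ := hs _ e u.1 w.1 (fun e => hxy (by rw [Subtype.ext e])) h1 h2
      exact ⟨Quotient.mk r ((Y.φ p).e f), ⟨_, rfl, (Y.φ p).on.2 ((h _).on.1 h1)⟩,
        ⟨_, rfl, (Y.φ p).on.2 ((h _).on.1 h2)⟩⟩
    · induction c' using Quotient.inductionOn with
      | h f =>
        have h1 := hv p u hx
        rw [← he p f hy] at h1
        exact ⟨Quotient.mk r ((Y.φ p).e f), ⟨_, rfl, (Y.φ p).on.2 ((h _).on.1 h1)⟩, rfl⟩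
    · induction c using Quotient.inductionOn with
      | h f =>
        have h1 := hv p w hy
        rw [← he p f hx] at h1
        exact ⟨Quotient.mk r ((Y.φ p).e f), rfl, ⟨_, rfl, (Y.φ p).on.2 ((h _).on.1 h1)⟩⟩
    · induction c using Quotient.inductionOn with
      | h f =>
        induction c' using Quotient.inductionOn with
        | h f' =>
          obtain rfl := (h (Y.ov p)).e_inj ((he p f hx).trans (he p f' hy).symm)
          exact absurd rfl hxy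

omit [Finite K] in
theorem basic_zero (hs : ∀ r, (h r).Str) (Y : Pic (fun r => (h r).toHom)) (hY : Y.X.Lin)
    {r₀ : Setoid F.E} {r : Setoid Y.X.E} (h0 : ∀ f f', r f f' → f = f')
    (hc : ∀ p, Compat (Y.φ p) r₀ r) (D : Set I) (h2 : B2 (fun p => (Y.φ p).hg (hc p) D)) :
    Basic (fun p => (Y.φ p).hg (hc p) D) := by
  refine ⟨fun p => xlevz_ind _ h0 _ D, fun p x y d hxy hx hy => ?_, h2,
    fun u v c d huv h1 h2 h3 h4 => ?_⟩
  · obtain ⟨g, rfl, h1, h2⟩ := xlevz_two h0 hx hy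
    have h3 : H.On ((h (Y.ov p)).v x.1) (Y.ψ.e g) := Y.ov_v p x.1 ▸ xlevz_on Y.ψ h1
    have h4 : H.On ((h (Y.ov p)).v y.1) (Y.ψ.e g) := Y.ov_v p y.1 ▸ xlevz_on Y.ψ h2
    have h5 : x.1 ≠ y.1 := fun e => hxy (Subtype.ext e)
    obtain ⟨f, hf⟩ := hs _ _ _ _ h5 h3 h4
    rw [← hf] at h3 h4
    obtain rfl := hY _ _ _ _ ((Y.φ p).v_inj.ne h5) h1 h2 ((Y.φ p).on.2 ((h _).on.1 h3))
      ((Y.φ p).on.2 ((h _).on.1 h4))
    exact ⟨Quotient.mk r₀ f, rfl⟩
  · obtain ⟨g, rfl, a1, a2⟩ := xlevz_two h0 h1 h2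
    obtain ⟨g', rfl, a3, a4⟩ := xlevz_two h0 h3 h4
    rw [hY _ _ _ _ (fun e => huv (Subtype.ext e)) a1 a2 a3 a4]

end Pool.Agent.MP_1c0fc2_co.GR

end

section

open Function

namespace Pool.Agent.MP_1c0fc2_co.GR

variable {K I : Type} {cl : K → I}

theorem xpc_mono {P A B κ : Type} [Nonempty κ] {m : P → A → B} (h : Ram m κ) (χ : B → κ) :
    ∃ p c, ∀ f, χ (m p f) = c := by
  obtain ⟨p, hp⟩ := h χ
  rcases isEmpty_or_nonempty A with hA | ⟨⟨f₀⟩⟩
  · exact ⟨p, Classical.arbitrary κ, fun f => hA.elim f⟩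
  · exact ⟨p, _, fun f => hp f f₀⟩

/-- the partite construction -/
theorem pc [Finite K] {F H : HG cl} {R : Type} [Finite R] (h : R → Hom F H) (κ : Type)
    [Nonempty κ] (hR : Ram (fun r => (h r).e) κ) (Inv : Set H.E → Pic h → Prop)
    (h0 : Inv ∅ (pic0 h))
    (hs : ∀ (D : Set H.E) (e : H.E) (Y : Pic h), e ∉ D → Inv D Y →
      ∃ (G : HG (id : K → K)) (Q : Type) (_ : Finite Q) (q : Q → Emb (Con Y.ψ e) G),
        Ram (fun a => (q a).e) κ ∧ ∀ A : Amal Y.ψ e q, Inv (insert e D) (A.pic Y)) :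
    ∃ Y : Pic h, Inv Set.univ Y ∧ Ram (fun p => (Y.φ p).e) κ := by
  classical
  have key : ∀ D : Set H.E, D.Finite → ∃ Y : Pic h, Inv D Y ∧ ∀ χ : Y.X.E → κ, ∃ γ : H.E → κ,
      ∀ r, ∃ p, Y.ov p = r ∧ ∀ f, (h r).e f ∈ D → χ ((Y.φ p).e f) = γ ((h r).e f) := by
    intro D hD
    induction D, hD using Set.Finite.induction_on with
    | empty =>
      exact ⟨pic0 h, h0, fun _ => ⟨fun _ => Classical.arbitrary κ, fun r =>
        ⟨r, rfl, fun _ hf => hf.elim⟩⟩⟩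
    | @insert e D he _ ih =>
      obtain ⟨Y, hY, hχ⟩ := ih
      obtain ⟨G, Q, _, q, hq, hA⟩ := hs D e Y he hY
      obtain ⟨A⟩ := amal_exists Y.ψ e q
      refine ⟨A.pic Y, hA A, fun χ => ?_⟩
      obtain ⟨a, c, hc⟩ := xpc_mono hq fun y => χ (A.j.e y)
      obtain ⟨γ, hγ⟩ := hχ fun x => χ ((A.ι a).e x)
      refine ⟨Function.update γ e c, fun r => ?_⟩
      obtain ⟨p, hp, hf⟩ := hγ r
      refine ⟨(a, p), hp, fun f hfD => ?_⟩
      change χ ((A.ι a).e ((Y.φ p).e f)) = _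
      by_cases hfe : (h r).e f = e
      · have h1 : Y.ψ.e ((Y.φ p).e f) = e := by rw [Y.ov_e, hp, hfe]
        rw [hfe, Function.update_self]
        exact (congrArg χ (A.comm_e a ⟨_, h1⟩)).trans (hc _)
      · rw [Function.update_of_ne hfe]
        exact hf f (hfD.resolve_left hfe)
  obtain ⟨Y, hY, hχ⟩ := key Set.univ Set.finite_univ
  refine ⟨Y, hY, fun χ => ?_⟩
  obtain ⟨γ, hγ⟩ := hχ χ
  obtain ⟨r, hr⟩ := hR γ
  obtain ⟨p, -, hp⟩ := hγ r
  exact ⟨p, fun f f' => (hp f trivial).trans ((hr f f').trans (hp f' trivial).symm)⟩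

end Pool.Agent.MP_1c0fc2_co.GR

end

section

open Function

namespace Pool.Agent.MP_1c0fc2_co.GR

variable {K : Type}

/-- the Hales-Jewett power of a partite hypergraph -/
def xhjG [Finite K] (S : HG (id : K → K)) (ι : Type) [Finite ι] : HG (id : K → K) where
  V := {x : K × (ι → S.V) // ∀ i, S.vc (x.2 i) = x.1}
  E := ι → S.E
  vc := fun x => x.1.1
  inc := fun y k => ⟨(k, fun i => S.inc (y i) k), fun i => S.vc_inc (y i) k⟩
  inc_inj := fun _ _ _ h => congrArg (fun p => p.1.1) h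
  vc_inc := fun _ _ => rfl

/-- one coordinate of the image of a vertex -/
def xhjc (S : HG (id : K → K)) (o : Option S.E) (v : S.V) : S.V :=
  o.elim v fun f => S.inc f (S.vc v)

theorem xhjc_vc (S : HG (id : K → K)) (o : Option S.E) (v : S.V) :
    S.vc (xhjc S o v) = S.vc v := by
  cases o with
  | none => rfl
  | some f => exact S.vc_inc f _

theorem xhjc_inc (S : HG (id : K → K)) (o : Option S.E) (f : S.E) (k : K) :
    xhjc S o (S.inc f k) = S.inc (o.getD f) k := by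
  cases o with
  | none => rfl
  | some g => exact congrArg (S.inc g) (S.vc_inc f k)

/-- the copy given by a combinatorial line -/
def xhjq [Finite K] (S : HG (id : K → K)) {ι : Type} [Finite ι]
    (L : Combinatorics.Line S.E ι) : Emb S (xhjG S ι) where
  v := fun v => ⟨(S.vc v, fun i => xhjc S (L.idxFun i) v), fun _ => xhjc_vc S _ v⟩
  e := fun f i => (L.idxFun i).getD f
  vc_v := fun _ => rfl
  inc_e := fun f k => Subtype.ext (Prod.ext (S.vc_inc f k).symm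
    (funext fun i => (xhjc_inc S (L.idxFun i) f k).symm))
  v_inj := fun u v h => by
    obtain ⟨i, hi⟩ := L.proper
    have h1 : xhjc S (L.idxFun i) u = xhjc S (L.idxFun i) v := congrArg (fun p => p.1.2 i) h
    rw [hi] at h1
    exact h1
  e_inj := fun f g h => by
    obtain ⟨i, hi⟩ := L.proper
    have h1 : (L.idxFun i).getD f = (L.idxFun i).getD g := congrFun h i
    rw [hi] at h1
    exact h1

theorem xhj_on {S : HG (id : K → K)} {v : S.V} {e : S.E} (h : S.On v e) :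
    S.inc e (S.vc v) = v := by
  obtain ⟨k, rfl⟩ := h
  exact congrArg (S.inc e) (S.vc_inc e k)

theorem xhj_lin {S : HG (id : K → K)} (hS : S.Lin) {f g : S.E} {k l : K} (hkl : k ≠ l)
    (h1 : S.inc f k = S.inc g k) (h2 : S.inc f l = S.inc g l) : f = g :=
  hS f g (S.inc f k) (S.inc f l) (fun h => hkl (S.inc_inj f h)) ⟨k, rfl⟩ ⟨l, rfl⟩ ⟨k, h1.symm⟩
    ⟨l, h2.symm⟩

theorem xhj_vc_ne {S : HG (id : K → K)} {u v : S.V} {e : S.E} (huv : u ≠ v) (hu : S.On u e)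
    (hv : S.On v e) : S.vc u ≠ S.vc v := fun h =>
  huv (by rw [← xhj_on hu, h, xhj_on hv])

/-- the Hales-Jewett partite lemma -/
theorem hj [Finite K] (S : HG (id : K → K)) (κ : Type) [Finite κ] :
    ∃ (G : HG (id : K → K)) (Q : Type) (_ : Finite Q) (q : Q → Emb S G),
      Ram (fun a => (q a).e) κ ∧
      (S.Lin → G.Lin ∧ (∀ a, (q a).Str) ∧
        ∀ a b u v u' v', a ≠ b → S.vc u ≠ S.vc v → (q a).v u = (q b).v u' →
          (q a).v v = (q b).v v' → ∃ y, G.On ((q a).v u) y ∧ G.On ((q a).v v) y) ∧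
      (∀ y y' k, y ≠ y' → G.inc y k = G.inc y' k → ∃ f f', f ≠ f' ∧ S.inc f k = S.inc f' k) ∧
      (S.NoIso → G.NoIso) ∧
      ∀ rk : S.V → ℕ, ∃ key : G.V → ℕ, ∀ a, ∃ (c₀ : ℕ) (c : K → ℕ), 0 < c₀ ∧
        ∀ v, key ((q a).v v) = c₀ * rk v + c (S.vc v) := by
  classical
  obtain ⟨ι, _, hι⟩ := Combinatorics.Line.exists_mono_in_high_dimension S.E κ
  have hQ : Finite (Combinatorics.Line S.E ι) :=
    Finite.of_injective (fun L => L.idxFun) fun _ _ h => Combinatorics.Line.ext h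
  refine ⟨xhjG S ι, Combinatorics.Line S.E ι, hQ, xhjq S, fun χ => ?_,
    fun hS => ⟨?_, fun L => ?_, ?_⟩, ?_, fun hS x => ?_, fun rk => ?_⟩
  · obtain ⟨L, c, hc⟩ := hι χ
    exact ⟨L, fun f f' => (hc f).trans (hc f').symm⟩
  · intro y y' u w huw h1 h2 h3 h4
    have hk := xhj_vc_ne huw h1 h2
    have e1 := (xhj_on h1).trans (xhj_on h3).symm
    have e2 := (xhj_on h2).trans (xhj_on h4).symm
    exact funext fun i => xhj_lin hS hk (congrArg (fun p => p.1.2 i) e1)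
      (congrArg (fun p => p.1.2 i) e2)
  · intro y u w huw h1 h2
    have hk : S.vc u ≠ S.vc w := xhj_vc_ne (S := xhjG S ι) (fun h => huw ((xhjq S L).v_inj h)) h1 h2
    have e1 : ∀ i, S.inc (y i) (S.vc u) = xhjc S (L.idxFun i) u := fun i =>
      congrArg (fun p => p.1.2 i) (xhj_on h1)
    have e2 : ∀ i, S.inc (y i) (S.vc w) = xhjc S (L.idxFun i) w := fun i =>
      congrArg (fun p => p.1.2 i) (xhj_on h2)
    obtain ⟨i0, hi0⟩ := L.proper
    refine ⟨y i0, funext fun i => ?_⟩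
    change (L.idxFun i).getD (y i0) = y i
    have a1 := e1 i0
    have a2 := e2 i0
    have b1 := e1 i
    have b2 := e2 i
    rw [hi0] at a1 a2
    cases hi : L.idxFun i with
    | none =>
      rw [hi] at b1 b2
      exact xhj_lin hS hk (a1.trans b1.symm) (a2.trans b2.symm)
    | some f =>
      rw [hi] at b1 b2
      exact xhj_lin hS hk b1.symm b2.symm
  · intro a b u v u' v' hab huv h1 h2
    obtain ⟨i, hi⟩ : ∃ i, a.idxFun i ≠ b.idxFun i := by
      by_contra hn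
      exact hab (Combinatorics.Line.ext (funext fun i => not_not.1 fun h => hn ⟨i, h⟩))
    have k1 : S.vc u = S.vc u' := congrArg (fun p => p.1.1) h1
    have k2 : S.vc v = S.vc v' := congrArg (fun p => p.1.1) h2
    have e1 : xhjc S (a.idxFun i) u = xhjc S (b.idxFun i) u' := congrArg (fun p => p.1.2 i) h1
    have e2 : xhjc S (a.idxFun i) v = xhjc S (b.idxFun i) v' := congrArg (fun p => p.1.2 i) h2
    cases ha : a.idxFun i with
    | none =>
      cases hb : b.idxFun i with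
      | none => exact absurd (ha.trans hb.symm) hi
      | some f =>
        rw [ha, hb] at e1 e2
        exact ⟨(xhjq S a).e f, ⟨_, ((xhjq S a).inc_e f _).trans (congrArg _ e1.symm)⟩,
          ⟨_, ((xhjq S a).inc_e f _).trans (congrArg _ e2.symm)⟩⟩
    | some f =>
      cases hb : b.idxFun i with
      | none =>
        rw [ha, hb] at e1 e2
        exact ⟨(xhjq S b).e f, ⟨_, ((xhjq S b).inc_e f _).trans ((congrArg _ e1).trans h1.symm)⟩,
          ⟨_, ((xhjq S b).inc_e f _).trans ((congrArg _ e2).trans h2.symm)⟩⟩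
      | some g =>
        rw [ha, hb] at e1 e2
        have f1 : S.inc f (S.vc u) = S.inc g (S.vc u) := e1.trans (congrArg (S.inc g) k1.symm)
        have f2 : S.inc f (S.vc v) = S.inc g (S.vc v) := e2.trans (congrArg (S.inc g) k2.symm)
        exact absurd (by rw [ha, hb, xhj_lin hS huv f1 f2]) hi
  · intro y y' k hy h
    obtain ⟨i, hi⟩ := Function.ne_iff.1 hy
    exact ⟨y i, y' i, hi, congrArg (fun p => p.1.2 i) h⟩
  · choose y hy using fun i => hS (x.1.2 i)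
    refine ⟨y, x.1.1, Subtype.ext (Prod.ext rfl (funext fun i => ?_))⟩
    have := xhj_on (hy i)
    rw [x.2 i] at this
    exact this
  · refine ⟨fun x => ∑ i, rk (x.1.2 i), fun L => ⟨∑ i, (L.idxFun i).elim 1 fun _ => 0,
      fun k => ∑ i, (L.idxFun i).elim 0 fun f => rk (S.inc f k), ?_, fun v => ?_⟩⟩
    · obtain ⟨i, hi⟩ := L.proper
      refine Finset.sum_pos' (fun _ _ => Nat.zero_le _) ⟨i, Finset.mem_univ _, ?_⟩
      rw [hi]
      exact Nat.one_pos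
    · change ∑ i, rk (xhjc S (L.idxFun i) v) = _
      rw [Finset.sum_mul, ← Finset.sum_add_distrib]
      refine Finset.sum_congr rfl fun i _ => ?_
      cases L.idxFun i <;> simp [xhjc]

end Pool.Agent.MP_1c0fc2_co.GR

end

section

/-! Interface of the sparse Ramsey engine: statements of the three modules. -/

namespace Pool.Agent.MP_1c0fc2_co

open Finset

/-- total weight of the hyperedges inside `I` -/
noncomputable def wIn {V : Type} (w : Finset V → ℝ) (I : Finset V) : ℝ :=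
  ∑ e ∈ I.powerset, w e

/-- total weight of the hyperedges containing `S` -/
noncomputable def wDeg {V : Type} [Fintype V] [DecidableEq V] (w : Finset V → ℝ)
    (S : Finset V) : ℝ :=
  ∑ e ∈ univ.filter (fun e : Finset V => S ⊆ e), w e

/-- robust weighted container theorem -/
def ContStmt : Prop :=
  ∀ (k : ℕ) (K ε : ℝ), 1 ≤ k → 1 ≤ K → 0 < ε → ∃ (T : ℕ) (A : ℝ), 0 < A ∧
    ∀ (V : Type) [Fintype V] [DecidableEq V] (w : Finset V → ℝ) (N M x : ℝ) (b : ℕ),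
      (∀ e, 0 ≤ w e) → (∀ e, w e ≠ 0 → e.card = k) → ∑ e, w e = M → 0 < M →
      (Fintype.card V : ℝ) ≤ N → 1 ≤ b → (b : ℝ) ≤ x * N →
      (∀ S : Finset V, S.Nonempty → wDeg w S ≤ K * ((b : ℝ) / N) ^ (S.card - 1) * M / N) →
      ∃ 𝒞 : Finset (Finset V), 𝒞.card ≤ (Fintype.card V + 1) ^ (T * b) ∧
        (∀ C ∈ 𝒞, wIn w C ≤ ε * M) ∧
        ∀ I : Finset V, wIn w I ≤ x ^ k * M → ∃ C ∈ 𝒞, ((I \ C).card : ℝ) ≤ A * x * N

/-- supersaturated ordered hypergraph Ramsey theorem -/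
def SuperStmt : Prop :=
  ∀ (v u t : ℕ), ∃ ε : ℝ, 0 < ε ∧ ∃ n₀ : ℕ, ∀ n : ℕ, n₀ ≤ n →
    ∀ EK : Finset (Finset (Fin v)), (∀ e ∈ EK, e.card = u) →
    ∀ C : Fin t → Finset (Finset (Fin n)),
      (∀ i, (((univ : Finset (Fin v → Fin n)).filter
          (fun f => StrictMono f ∧ ∀ e ∈ EK, e.image f ∈ C i)).card : ℝ) ≤ ε * (n : ℝ) ^ v) →
      ε * (n : ℝ) ^ u ≤
        ((((univ : Finset (Fin n)).powersetCard u).filter (fun a => ∀ i, a ∉ C i)).card : ℝ)

/-- the engine: a Ramsey system of increasing copies of a sparse ordered hypergraph, in which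
small subsystems overlap little -/
def EngineStmt : Prop :=
  ∀ (v u t k₀ a b : ℕ) (EK : Finset (Finset (Fin v))), b < a * u →
    (∀ e ∈ EK, e.card = u) →
    (∀ S ⊆ EK, 2 ≤ S.card →
      ((a : ℤ) * u - b) < (a : ℤ) * (S.biUnion id).card - (b : ℤ) * S.card) →
    ∃ (n : ℕ) (Φ : Finset (Fin v → Fin n)), (∀ f ∈ Φ, StrictMono f) ∧
      (∀ χ : Finset (Fin n) → Fin t, ∃ f ∈ Φ, ∃ c, ∀ e ∈ EK, χ (e.image f) = c) ∧
      (∀ F ⊆ Φ, F.Nonempty → F.card ≤ k₀ →
        ((a : ℤ) * u - b) + F.card * ((a : ℤ) * v - (b : ℤ) * EK.card - ((a : ℤ) * u - b)) ≤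
          (a : ℤ) * (F.biUnion fun f => univ.image f).card -
            (b : ℤ) * (F.biUnion fun f => EK.image (fun e => e.image f)).card)

end Pool.Agent.MP_1c0fc2_co

end

section

/-! Supersaturated ordered hypergraph Ramsey theorem. -/

namespace Pool.Agent.MP_1c0fc2_co

open Finset

/-- finite hypergraph Ramsey theorem -/
theorem su_ramsey (C : Type) [Fintype C] (u : ℕ) : ∀ m : ℕ, ∃ N : ℕ,
    ∀ (α : Type) [LinearOrder α] (χ : Finset α → C) (A : Finset α), N ≤ A.card →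
      ∃ B ⊆ A, B.card = m ∧ ∃ c, ∀ e ⊆ B, e.card = u → χ e = c := by
  classical
  induction u with
  | zero =>
    intro m
    refine ⟨m, fun α _ χ A hA => ?_⟩
    obtain ⟨B, hB, hBc⟩ := exists_subset_card_eq hA
    refine ⟨B, hB, hBc, χ ∅, fun e _ he => ?_⟩
    rw [card_eq_zero.1 he]
  | succ u ihu =>
    have hend : ∀ r : ℕ, ∃ N : ℕ, ∀ (α : Type) [LinearOrder α] (χ : Finset α → C)
        (A : Finset α), N ≤ A.card → ∃ B ⊆ A, B.card = r ∧ ∃ g : α → C,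
          ∀ i ∈ B, ∀ e ⊆ B, e.card = u → (∀ j ∈ e, i < j) → χ (insert i e) = g i := by
      intro r
      induction r with
      | zero =>
        exact ⟨0, fun α _ χ A _ => ⟨∅, empty_subset _, rfl, fun _ => χ ∅, by simp⟩⟩
      | succ r ih =>
        obtain ⟨N, hN⟩ := ih
        obtain ⟨N', hN'⟩ := ihu N
        refine ⟨N' + 1, fun α _ χ A hA => ?_⟩
        have hne : A.Nonempty := card_pos.1 (by omega)
        have ha : A.min' hne ∈ A := A.min'_mem hne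
        have hmin : ∀ x ∈ A, A.min' hne ≤ x := fun x hx => A.min'_le x hx
        generalize A.min' hne = a at ha hmin
        have hcard : N' ≤ (A.erase a).card := by
          rw [card_erase_of_mem ha]; omega
        obtain ⟨B0, hB0, hB0c, c, hc⟩ := hN' α (fun e => χ (insert a e)) _ hcard
        obtain ⟨B, hB, hBc, g, hg⟩ := hN α χ B0 hB0c.ge
        have hBA : B ⊆ A.erase a := hB.trans hB0
        have haB : a ∉ B := fun h => by simpa using hBA h
        refine ⟨insert a B, ?_, by rw [card_insert_of_notMem haB, hBc],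
          Function.update g a c, ?_⟩
        · intro x hx
          rcases mem_insert.1 hx with rfl | hx
          · exact ha
          · exact mem_of_mem_erase (hBA hx)
        · intro i hi e he heu hlt
          have hai : a ≤ i := by
            rcases mem_insert.1 hi with rfl | hi
            · exact le_rfl
            · exact hmin i (mem_of_mem_erase (hBA hi))
          have heB : e ⊆ B := by
            intro j hj
            rcases mem_insert.1 (he hj) with rfl | h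
            · exact absurd (hlt _ hj) (not_lt.2 hai)
            · exact h
          rcases mem_insert.1 hi with rfl | hi
          · rw [Function.update_self]; exact hc e (heB.trans hB) heu
          · rw [Function.update_of_ne (fun h : i = a => haB (h ▸ hi))]
            exact hg i hi e heB heu hlt
    intro m
    obtain ⟨N, hN⟩ := hend (Fintype.card C * m)
    refine ⟨N, fun α _ χ A hA => ?_⟩
    obtain ⟨B, hB, hBc, g, hg⟩ := hN α χ A hA
    obtain ⟨c, _, hc⟩ := exists_le_card_fiber_of_mul_le_card_of_maps_to (s := B)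
      (t := (univ : Finset C)) (n := m)
      (f := g) (fun _ _ => mem_univ _) ⟨χ ∅, mem_univ _⟩ (by rw [card_univ, hBc])
    obtain ⟨B', hB', hc'⟩ := exists_subset_card_eq hc
    have hB'B : B' ⊆ B := fun x hx => (mem_filter.1 (hB' hx)).1
    refine ⟨B', hB'B.trans hB, hc', c, fun e he heu => ?_⟩
    have hne : e.Nonempty := card_pos.1 (by omega)
    have hi : e.min' hne ∈ e := e.min'_mem hne
    have hmin : ∀ x ∈ e, e.min' hne ≤ x := fun x hx => e.min'_le x hx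
    generalize e.min' hne = i at hi hmin
    have h1 := hg i (hB'B (he hi)) (e.erase i) ((erase_subset _ _).trans (he.trans hB'B))
      (by rw [card_erase_of_mem hi]; omega)
      (fun j hj => lt_of_le_of_ne (hmin j (mem_of_mem_erase hj)) (ne_of_mem_erase hj).symm)
    rw [insert_erase hi] at h1
    rw [h1]; exact (mem_filter.1 (hB' (he hi))).2

/-- the number of `R`-sets containing a given set -/
theorem su_count (n R : ℕ) (S : Finset (Fin n)) :
    (((univ : Finset (Fin n)).powersetCard R).filter (fun A => S ⊆ A)).card ≤ n ^ (R - S.card) := by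
  have h1 : (((univ : Finset (Fin n)).powersetCard R).filter (fun A => S ⊆ A)).card ≤
      ((univ : Finset (Fin n)).powersetCard (R - S.card)).card := by
    refine card_le_card_of_injOn (fun A => A \ S) ?_ ?_
    · intro A hA
      have hA' := mem_filter.1 (mem_coe.1 hA)
      refine mem_coe.2 (mem_powersetCard.2 ⟨subset_univ _, ?_⟩)
      rw [card_sdiff_of_subset hA'.2, (mem_powersetCard.1 hA'.1).2]
    · intro A hA B hB h
      have hA' := (mem_filter.1 (mem_coe.1 hA)).2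
      have hB' := (mem_filter.1 (mem_coe.1 hB)).2
      have h' : A \ S = B \ S := h
      rw [← sdiff_union_of_subset hA', ← sdiff_union_of_subset hB', h']
  rw [card_powersetCard, card_univ, Fintype.card_fin] at h1
  exact h1.trans (Nat.choose_le_pow _ _)

theorem superStmt : SuperStmt := by
  classical
  intro v u t
  obtain ⟨N, hN⟩ := su_ramsey (Option (Fin t)) u (u + v)
  obtain ⟨R, hRN, hRu⟩ : ∃ R, N ≤ R ∧ u + v ≤ R := ⟨N + (u + v), by omega, by omega⟩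
  have hc : (0 : ℝ) < 1 / (2 ^ R * (R.factorial : ℝ)) := by positivity
  refine ⟨1 / (2 ^ R * (R.factorial : ℝ)) / (t + 1), by positivity, 2 * R + 1,
    fun n hn EK hEK C hC => ?_⟩
  set c : ℝ := 1 / (2 ^ R * (R.factorial : ℝ)) with hcdef
  set ε : ℝ := c / (t + 1) with hε
  set out := ((univ : Finset (Fin n)).powersetCard u).filter (fun a => ∀ i, a ∉ C i) with hout
  set F : Fin t → Finset (Fin v → Fin n) := fun i => (univ : Finset (Fin v → Fin n)).filter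
    (fun f => StrictMono f ∧ ∀ e ∈ EK, e.image f ∈ C i) with hF
  set P := (univ : Finset (Fin n)).powersetCard R with hP
  have hcover : P ⊆ out.biUnion (fun a => P.filter (fun A => a ⊆ A)) ∪
      (univ : Finset (Fin t)).biUnion (fun i => (F i).biUnion
        (fun f => P.filter (fun A => univ.image f ⊆ A))) := by
    intro A hA
    have hAc : A.card = R := (mem_powersetCard.1 hA).2
    obtain ⟨B, hB, hBc, col, hcol⟩ := hN (Fin n)
      (fun a => if h : ∃ i, a ∈ C i then some h.choose else none) A (by omega)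
    rcases col with _ | i
    · obtain ⟨a, ha, hac⟩ := exists_subset_card_eq (s := B) (n := u) (by omega)
      have h1 := hcol a ha hac
      have h2 : ¬ ∃ i, a ∈ C i := fun h => by simp [h] at h1
      refine mem_union_left _ (mem_biUnion.2 ⟨a, ?_, mem_filter.2 ⟨hA, ha.trans hB⟩⟩)
      exact mem_filter.2 ⟨mem_powersetCard.2 ⟨subset_univ _, hac⟩, fun i hi => h2 ⟨i, hi⟩⟩
    · obtain ⟨B', hB', hB'c⟩ := exists_subset_card_eq (s := B) (n := v) (by omega)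
      have hsub : ∀ e : Finset (Fin v), e.image (B'.orderEmbOfFin hB'c) ⊆ B' := by
        intro e x hx
        obtain ⟨j, _, rfl⟩ := mem_image.1 hx
        exact B'.orderEmbOfFin_mem hB'c j
      refine mem_union_right _ (mem_biUnion.2 ⟨i, mem_univ _, mem_biUnion.2
        ⟨B'.orderEmbOfFin hB'c, ?_, mem_filter.2 ⟨hA, (hsub _).trans (hB'.trans hB)⟩⟩⟩)
      refine mem_filter.2 ⟨mem_univ _, (B'.orderEmbOfFin hB'c).strictMono, fun e he => ?_⟩
      have h1 := hcol _ ((hsub e).trans hB') (by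
        rw [card_image_of_injective _ (B'.orderEmbOfFin hB'c).injective, hEK e he])
      by_cases h : ∃ i, e.image (B'.orderEmbOfFin hB'c) ∈ C i
      · rw [dif_pos h] at h1
        have h2 := h.choose_spec
        rwa [Option.some.inj h1] at h2
      · rw [dif_neg h] at h1
        exact absurd h1 (by simp)
  have hcount : P.card ≤ out.card * n ^ (R - u) + ∑ i, (F i).card * n ^ (R - v) := by
    refine (card_le_card hcover).trans ((card_union_le _ _).trans (add_le_add ?_ ?_))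
    · refine card_biUnion_le_card_mul _ _ _ fun a ha => ?_
      have hac : a.card = u := (mem_powersetCard.1 (mem_filter.1 ha).1).2
      rw [← hac]; exact su_count n R a
    · refine card_biUnion_le.trans (sum_le_sum fun i _ => ?_)
      refine card_biUnion_le_card_mul _ _ _ fun f hf => ?_
      have hfc : (univ.image f).card = v := by
        rw [card_image_of_injective _ (mem_filter.1 hf).2.1.injective, card_univ,
          Fintype.card_fin]
      have h := su_count n R (univ.image f)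
      rwa [hfc] at h
  have hn0 : (0 : ℝ) < n := by exact_mod_cast (by omega : 0 < n)
  have hlow : c * (n : ℝ) ^ R ≤ P.card := by
    rw [hP, card_powersetCard, card_univ, Fintype.card_fin]
    refine le_trans ?_ (Nat.pow_le_choose R n)
    have h1 : (n : ℝ) / 2 ≤ ((n + 1 - R : ℕ) : ℝ) := by
      have h2 : n ≤ 2 * (n + 1 - R) := by omega
      have h3 : (n : ℝ) ≤ 2 * ((n + 1 - R : ℕ) : ℝ) := by exact_mod_cast h2
      linarith
    have h4 := pow_le_pow_left₀ (by positivity) h1 R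
    rw [le_div_iff₀ (by positivity)]
    refine le_trans (le_of_eq ?_) h4
    rw [hcdef, div_pow]; field_simp
  have hup : (P.card : ℝ) ≤ out.card * (n : ℝ) ^ (R - u) + t * (ε * (n : ℝ) ^ R) := by
    have h1 : (P.card : ℝ) ≤ out.card * (n : ℝ) ^ (R - u) +
        ∑ i, ((F i).card : ℝ) * (n : ℝ) ^ (R - v) := by exact_mod_cast hcount
    refine h1.trans (add_le_add le_rfl ?_)
    have h2 : ∀ i ∈ (univ : Finset (Fin t)),
        ((F i).card : ℝ) * (n : ℝ) ^ (R - v) ≤ ε * (n : ℝ) ^ R := by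
      intro i _
      have h3 : (n : ℝ) ^ R = (n : ℝ) ^ v * (n : ℝ) ^ (R - v) := by
        rw [← pow_add]; congr 1; omega
      rw [h3, ← mul_assoc]
      exact mul_le_mul_of_nonneg_right (hC i) (by positivity)
    have h4 := sum_le_card_nsmul _ _ _ h2
    rwa [card_univ, Fintype.card_fin, nsmul_eq_mul] at h4
  have hce : c = ε * (t + 1) := by rw [hε]; field_simp
  have h5 : (n : ℝ) ^ R = (n : ℝ) ^ u * (n : ℝ) ^ (R - u) := by
    rw [← pow_add]; congr 1; omega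
  have h6 : ε * (n : ℝ) ^ u * (n : ℝ) ^ (R - u) ≤ out.card * (n : ℝ) ^ (R - u) := by
    rw [mul_assoc, ← h5]
    rw [hce] at hlow
    nlinarith
  exact le_of_mul_le_mul_right h6 (by positivity)

end Pool.Agent.MP_1c0fc2_co

end

section

open Function

namespace Pool.Agent.MP_1c0fc2_co.GR

variable {K I : Type} {cl : K → I}

/-- Ramsey's theorem as a system of homomorphisms -/
theorem vert [Finite K] [Finite I] [LinearOrder K] (F : HG cl) (hF : F.Ord) (κ : Type)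
    [Finite κ] : ∃ (H : HG cl) (R : Type) (_ : Finite R) (h : R → Hom F H),
      Ram (fun r => (h r).e) κ := by
  classical
  obtain ⟨ρ, hρ⟩ := hF
  obtain ⟨N, hN⟩ : ∃ N, ∀ v, ρ v < N := by
    obtain ⟨N, hN⟩ := (Set.finite_range ρ).bddAbove
    exact ⟨N + 1, fun v => Nat.lt_succ_of_le (hN ⟨v, rfl⟩)⟩
  let _ : Fintype κ := Fintype.ofFinite κ
  let _ : Fintype K := Fintype.ofFinite K
  obtain ⟨M, hM⟩ := su_ramsey (Option κ) (Fintype.card K) N
  let H : HG cl :=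
    { V := Fin M × I
      E := {s : K → Fin M // StrictMono s}
      vc := Prod.snd
      inc := fun s k => (s.1 k, cl k)
      inc_inj := fun s _ _ h => s.2.injective (congrArg Prod.fst h)
      vc_inc := fun _ _ => rfl }
  let h : {θ : Fin N → Fin M // StrictMono θ} → Hom F H := fun θ =>
    { v := fun x => (θ.1 ⟨ρ x, hN x⟩, F.vc x)
      e := fun f => ⟨fun k => θ.1 ⟨ρ (F.inc f k), hN _⟩, fun _ _ hk => θ.2 (hρ f hk)⟩
      vc_v := fun _ => rfl
      inc_e := fun f k => Prod.ext rfl (F.vc_inc f k).symm }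
  refine ⟨H, _, inferInstance, h, fun χ => ?_⟩
  let χ' : Finset (Fin M) → Option κ := fun T =>
    if hT : ∃ s : H.E, Finset.univ.image s.1 = T then some (χ hT.choose) else none
  have key : ∀ s : H.E, χ' (Finset.univ.image s.1) = some (χ s) := fun s => by
    have hT : ∃ s' : H.E, Finset.univ.image s'.1 = Finset.univ.image s.1 := ⟨s, rfl⟩
    have h1 : hT.choose = s := Subtype.ext ((hT.choose.2.range_inj s.2).1 (by
      have h2 := congrArg (fun T : Finset (Fin M) => (T : Set (Fin M))) hT.choose_spec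
      simpa only [Finset.coe_image, Finset.coe_univ, Set.image_univ] using h2))
    simp only [χ', dif_pos hT, h1]
  obtain ⟨B, -, hB, c, hc⟩ := hM (Fin M) χ' Finset.univ (by simp)
  let θ : {θ : Fin N → Fin M // StrictMono θ} :=
    ⟨B.orderEmbOfFin hB, (B.orderEmbOfFin hB).strictMono⟩
  have h2 : ∀ f, some (χ ((h θ).e f)) = c := fun f => by
    rw [← key]
    refine hc _ (Finset.image_subset_iff.2 fun k _ => B.orderEmbOfFin_mem hB _) ?_
    rw [Finset.card_image_of_injective _ ((h θ).e f).2.injective, Finset.card_univ]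
  exact ⟨θ, fun f f' => Option.some_injective _ ((h2 f).trans (h2 f').symm)⟩

end Pool.Agent.MP_1c0fc2_co.GR

end

section

open Function

namespace Pool.Agent.MP_1c0fc2_co.GR

variable {K I : Type} {cl : K → I}

theorem xphi_on {F H : HG cl} (φ : Emb F H) {u : F.V} {f : F.E} (h : F.On u f) :
    H.On (φ.v u) (φ.e f) := by
  obtain ⟨k, hk⟩ := h
  exact ⟨k, by rw [φ.inc_e, hk]⟩

theorem xphi_pull {F H : HG cl} (φ : Emb F H) {z : H.V} {f : F.E} (h : H.On z (φ.e f)) :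
    ∃ u, φ.v u = z ∧ F.On u f := by
  obtain ⟨k, hk⟩ := h
  exact ⟨F.inc f k, by rw [← φ.inc_e, hk], k, rfl⟩

theorem xphi_back {F H : HG cl} (φ : Emb F H) {u : F.V} {f : F.E} (h : H.On (φ.v u) (φ.e f)) :
    F.On u f := by
  obtain ⟨u', h1, h2⟩ := xphi_pull φ h
  rwa [φ.v_inj h1] at h2

theorem xphi_lin {F H : HG cl} (φ : Emb F H) (h : H.Lin) : F.Lin :=
  fun _ _ _ _ huv h1 h2 h3 h4 => φ.e_inj (h _ _ _ _ (φ.v_inj.ne huv) (xphi_on φ h1)
    (xphi_on φ h2) (xphi_on φ h3) (xphi_on φ h4))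

theorem xphi_same {F H : HG cl} (φ : Emb F H) (hF : F.Lin) {f f' : F.E} {u v : H.V} (huv : u ≠ v)
    (h1 : H.On u (φ.e f)) (h2 : H.On v (φ.e f)) (h3 : H.On u (φ.e f')) (h4 : H.On v (φ.e f')) :
    φ.e f = φ.e f' := by
  obtain ⟨u', rfl, h5⟩ := xphi_pull φ h1
  obtain ⟨v', rfl, h6⟩ := xphi_pull φ h2
  rw [hF f f' u' v' (fun h => huv (congrArg φ.v h)) h5 h6 (xphi_back φ h3) (xphi_back φ h4)]

theorem xphi_str {F H : HG cl} (φ : Emb F H) (hφ : φ.Str) (hF : F.Lin) {f : F.E} {x : H.E}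
    {u v : H.V} (huv : u ≠ v) (h1 : H.On u (φ.e f)) (h2 : H.On v (φ.e f)) (h3 : H.On u x)
    (h4 : H.On v x) : φ.e f = x := by
  obtain ⟨u', hu, -⟩ := xphi_pull φ h1
  obtain ⟨v', hv, -⟩ := xphi_pull φ h2
  obtain ⟨f', rfl⟩ := hφ x u' v' (fun h => huv (by rw [← hu, ← hv, h])) (hu ▸ h3) (hv ▸ h4)
  exact xphi_same φ hF huv h1 h2 h3 h4

theorem Emb.Str.comp {F G H : HG cl} {ψ : Emb G H} {φ : Emb F G} (hψ : ψ.Str) (hφ : φ.Str) :
    (ψ.comp φ).Str := by
  intro x u w huw h1 h2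
  obtain ⟨g, rfl⟩ := hψ x (φ.v u) (φ.v w) (φ.v_inj.ne huw) h1 h2
  obtain ⟨f, rfl⟩ := hφ g u w huw (xphi_back ψ h1) (xphi_back ψ h2)
  exact ⟨f, rfl⟩

theorem con_lin [Finite K] {X H : HG cl} (ψ : Hom X H) (e : H.E) (hX : X.Lin) :
    (Con ψ e).Lin :=
  xphi_lin (F := (Con ψ e).up cl) (conEmb ψ e) hX

theorem xphi_j [Finite K] {X H : HG cl} {ψ : Hom X H} {e : H.E} {G : HG (id : K → K)}
    {Q : Type} {q : Q → Emb (Con ψ e) G} (A : Amal ψ e q) (hs : ∀ a, (q a).Str) (a : Q)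
    (y : G.E) {u w : X.V} (huw : u ≠ w) (h1 : A.Z.On ((A.ι a).v u) (A.j.e y))
    (h2 : A.Z.On ((A.ι a).v w) (A.j.e y)) : ∃ f, (A.ι a).e f = A.j.e y := by
  obtain ⟨g1, hg1, -⟩ := xphi_pull A.j h1
  obtain ⟨g2, hg2, -⟩ := xphi_pull A.j h2
  obtain ⟨u0, rfl⟩ := A.shared_v a u g1 hg1.symm
  obtain ⟨w0, rfl⟩ := A.shared_v a w g2 hg2.symm
  rw [A.comm_v] at h1 h2
  obtain ⟨f0, rfl⟩ := hs a y u0 w0 (fun h => huw (congrArg _ h)) (xphi_back A.j h1)
    (xphi_back A.j h2)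
  exact ⟨_, A.comm_e a f0⟩

theorem Amal.str_lin [Finite K] {X H : HG cl} {ψ : Hom X H} {e : H.E} {G : HG (id : K → K)}
    {Q : Type} {q : Q → Emb (Con ψ e) G} (A : Amal ψ e q) (hX : X.Lin) (hG : G.Lin)
    (hs : ∀ a, (q a).Str)
    (h2 : ∀ a b u v u' v', a ≠ b → (Con ψ e).vc u ≠ (Con ψ e).vc v → (q a).v u = (q b).v u' →
      (q a).v v = (q b).v v' → ∃ y, G.On ((q a).v u) y ∧ G.On ((q a).v v) y) :
    (∀ a, (A.ι a).Str) ∧ A.Z.Lin := by
  have str : ∀ a, (A.ι a).Str := by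
    intro a x u w huw hu hw
    rcases A.cover_e x with ⟨y, rfl⟩ | ⟨b, f', rfl⟩
    · exact xphi_j A hs a y huw hu hw
    by_cases hab : a = b
    · exact ⟨f', by rw [hab]⟩
    by_cases he : ψ.e f' = e
    · obtain ⟨y, hy⟩ := A.over_e ((A.ι_e b f').trans he)
      rw [← hy] at hu hw ⊢
      exact xphi_j A hs a y huw hu hw
    exfalso
    obtain ⟨u', hu1, hu2⟩ := xphi_pull (A.ι b) hu
    obtain ⟨w', hw1, hw2⟩ := xphi_pull (A.ι b) hw
    obtain ⟨u0, rfl⟩ := (A.sep_v a b u u' hu1.symm).resolve_left hab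
    obtain ⟨w0, rfl⟩ := (A.sep_v a b w w' hw1.symm).resolve_left hab
    obtain ⟨u1, rfl⟩ := (A.sep_v b a u' _ hu1).resolve_left (Ne.symm hab)
    obtain ⟨w1, rfl⟩ := (A.sep_v b a w' _ hw1).resolve_left (Ne.symm hab)
    have hne : (A.ι a).v ((conEmb ψ e).v u0) ≠ (A.ι a).v ((conEmb ψ e).v w0) :=
      (A.ι a).v_inj.ne huw
    have e1 : (q a).v u0 = (q b).v u1 :=
      A.j.v_inj ((A.comm_v a u0).symm.trans (hu1.symm.trans (A.comm_v b u1)))
    have e2 : (q a).v w0 = (q b).v w1 :=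
      A.j.v_inj ((A.comm_v a w0).symm.trans (hw1.symm.trans (A.comm_v b w1)))
    have hvc : (Con ψ e).vc u0 ≠ (Con ψ e).vc w0 := by
      intro h
      obtain ⟨k, hk⟩ := hu
      obtain ⟨k', hk'⟩ := hw
      have h3 : H.inc (A.ψ'.e ((A.ι b).e f')) k = H.inc (A.ψ'.e ((A.ι b).e f')) k' := by
        rw [A.ψ'.inc_e, A.ψ'.inc_e, hk, hk', A.comm_v, A.comm_v, A.j_v, A.j_v, (q a).vc_v,
          (q a).vc_v, h]
      exact hne (by rw [← hk, ← hk', H.inc_inj _ h3])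
    obtain ⟨y, hy1, hy2⟩ := h2 a b u0 w0 u1 w1 hab hvc e1 e2
    rw [e1] at hy1
    rw [e2] at hy2
    have hn1 : u1 ≠ w1 := fun h => hne (by rw [← hu1, ← hw1, h])
    obtain ⟨f0, rfl⟩ := hs b y u1 w1 hn1 hy1 hy2
    have h4 := hX f' ((conEmb ψ e).e f0) _ _ ((conEmb ψ e).v_inj.ne hn1) hu2 hw2
      (xphi_on (conEmb ψ e) (xphi_back (q b) hy1)) (xphi_on (conEmb ψ e) (xphi_back (q b) hy2))
    exact he (h4 ▸ f0.2)
  refine ⟨str, fun x x' u v huv h1 h3 h4 h5 => ?_⟩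
  rcases A.cover_e x with ⟨y, rfl⟩ | ⟨a, f, rfl⟩
  · rcases A.cover_e x' with ⟨y', rfl⟩ | ⟨a, f, rfl⟩
    · exact xphi_same A.j hG huv h1 h3 h4 h5
    · exact (xphi_str (A.ι a) (str a) hX huv h4 h5 h1 h3).symm
  · exact xphi_str (A.ι a) (str a) hX huv h1 h3 h4 h5

theorem xphi_mul_str {R : Type} [Finite R] (F : HG cl) (r : R) : (mulEmb F r).Str := by
  rintro ⟨r', f⟩ u w - ⟨k, hk⟩ -
  exact ⟨f, Prod.ext (congrArg Prod.fst hk).symm rfl⟩

theorem xphi_mul_lin {R : Type} [Finite R] {F : HG cl} (hL : F.Lin) : (F.mul R).Lin :=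
  fun x _ _ _ huv h1 h2 h3 h4 =>
    xphi_str (mulEmb F x.1) (xphi_mul_str F x.1) hL (f := x.2) huv h1 h2 h3 h4

/-- linear host with strongly induced copies -/
theorem phi [Finite K] [Finite I] [LinearOrder K] (F : HG cl) (hF : F.Ord) (hL : F.Lin)
    (κ : Type) [Finite κ] [Nonempty κ] :
    ∃ (H : HG cl) (R : Type) (_ : Finite R) (h : R → Emb F H),
      Ram (fun r => (h r).e) κ ∧ H.Lin ∧ ∀ r, (h r).Str := by
  obtain ⟨H, R, _, h, hR⟩ := vert F hF κ
  obtain ⟨Y, ⟨h1, h2⟩, h3⟩ := pc h κ hR (fun _ Y => Y.X.Lin ∧ ∀ p, (Y.φ p).Str)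
    ⟨xphi_mul_lin hL, xphi_mul_str F⟩ (fun _ e Y _ hY => by
      obtain ⟨G, Q, _, q, g1, g2, -⟩ := hj (Con Y.ψ e) κ
      obtain ⟨g3, g4, g5⟩ := g2 (con_lin Y.ψ e hY.1)
      refine ⟨G, Q, ‹_›, q, g1, fun A => ?_⟩
      obtain ⟨g6, g7⟩ := A.str_lin hY.1 g3 g4 g5
      exact ⟨g7, fun p => (g6 p.1).comp (hY.2 p.2)⟩)
  exact ⟨Y.X, Y.P, inferInstance, Y.φ, h3, h1, h2⟩

end Pool.Agent.MP_1c0fc2_co.GR

end

section

open Function

namespace Pool.Agent.MP_1c0fc2_co.GR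

/-- level zero in one step of the partite construction -/
theorem xpct_zero {K I : Type} [Finite K] {cl : K → I} {F H : HG cl} {R : Type}
    {h : R → Emb F H} (hH : H.Lin) (hs : ∀ r, (h r).Str) (Y : Pic (fun r => (h r).toHom))
    {e : H.E} {G : HG (id : K → K)} {Q : Type} [Finite Q] {q : Q → Emb (Con Y.ψ e) G}
    (A : Amal Y.ψ e q) {s : ℕ → Setoid F.E} {s' : ℕ → Setoid Y.X.E} {u : ℕ → Setoid G.E}
    {t : ℕ → Setoid A.Z.E} {B : ℕ → Set I} {m : ℕ} {γ : ℕ → ℕ} {b : Prop} {w n : ℕ}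
    (hm : 1 ≤ m) (hb : b ∨ n + 1 ≤ 2) (hY : Up Y.φ s s' B m γ)
    (hq : Up q (fun μ => conS Y.ψ e (s' μ)) u (fun μ => cl ⁻¹' B μ) m γ)
    (ht : TRel A s' u t m) (hZ : Up (A.pic Y).φ s t B m γ)
    (h0 : GoodL Y.φ (s 0) (s' 0) (Hi B m 0) w (n + 1))
    (hg : b → GoodL q (conS Y.ψ e (s' 0)) (u 0) (Hi (fun μ => cl ⁻¹' B μ) m 0) w n ∧
      (2 * (n + 1) ≤ w → (wg G (u 0)).Gir (n + 1))) :
    GoodL (A.pic Y).φ (s 0) (t 0) (Hi B m 0) w (n + 1) := by
  obtain ⟨hc, hbas, hac⟩ := h0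
  have hq0 : ∀ a, Compat ((q a).up cl) (conS Y.ψ e (s' 0)) (u 0) := fun a => hq.cpt a 0
  have hG := ht.gamal (μ := 0) hm hq0 (Hi B m 0)
  have hL := lev_zero hH hs Y e hY.tr.zero hc (Hi B m 0)
  have hc' : ∀ p, Compat ((A.pic Y).φ p) (s 0) (t 0) := fun p => hZ.cpt p 0
  have he : (fun p => ((A.pic Y).φ p).hg (hc' p) (Hi B m 0)) =
      prodSys (fun a => (A.ι a).hg (ht.ι_c a 0) (Hi B m 0))
        (fun p => (Y.φ p).hg (hc p) (Hi B m 0)) :=
    funext fun p => Emb.hg_comp (A.ι p.1) (Y.φ p.2) (ht.ι_c p.1 0) (hc p.2) (hc' p) _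
  refine ⟨hc', basic_zero hs (A.pic Y) hZ.lin hZ.tr.zero hc' _ ?_, ?_⟩
  · rw [he]
    exact hG.b2_zero hL hbas.b2
  · rcases hb with hb | hb
    · obtain ⟨h1, h2⟩ := hg hb
      rw [hi_preimage] at h1
      obtain ⟨_, h3, h4⟩ := h1.up
      rw [he]
      exact hG.ac_zero hL h3 h4 hac fun hw => gir_hg_of_wg (F := G.up cl) (h2 hw) _
    · exact AC.two _ w hb

/-- the partite construction for trains -/
theorem pc_train {b : Prop} {m : ℕ} {γ : ℕ → ℕ} {w n g : ℕ} (hm : 1 ≤ m) (hγ : ∀ μ, 2 ≤ γ μ)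
    (hn : g ≤ n) (hw : 2 * g ≤ w) (hb : b ∨ n + 1 ≤ 2) (h : Hor b m γ w n g) :
    St m γ w (n + 1) := by
  intro K I _ _ _ cl F s A hF hO κ _ _
  obtain ⟨H, R, _, φ, hR, hH, hs⟩ := phi F hO hF.lin κ
  obtain ⟨Y, ⟨t, h1, h2, -⟩, hY⟩ := pc (fun r => (φ r).toHom) κ hR
    (fun D Y => ∃ s' : ℕ → Setoid Y.X.E, Up Y.φ s s' A m γ ∧
      GoodL Y.φ (s 0) (s' 0) (Hi A m 0) w (n + 1) ∧
      (b → ∀ ε, ε ∉ D → Rev Y.X (fun f => Y.ψ.e f = ε) (s' 1) (cl ⁻¹' A 0) g))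
    (by
      obtain ⟨t, h1, h2⟩ := up_zero hF hm hγ R
      exact ⟨t, h1, h2 w (n + 1), fun _ ε _ => rev_zero φ ε (t 1) _ g⟩)
    (by
      rintro D e Y he ⟨s', h1, h2, h3⟩
      obtain ⟨G, u, Q, _, q, hr, hq, hg⟩ := h K (Con Y.ψ e) (fun μ => conS Y.ψ e (s' μ))
        (fun μ => cl ⁻¹' A μ) ((h1.dom hF).con Y.ψ e) (con_noIso Y.ψ e)
        (fun hb => (h3 hb e he).con) κ
      refine ⟨G, Q, ‹_›, q, hr, fun B => ?_⟩
      obtain ⟨t, ht, hZ⟩ := up_step hH Y B hm hγ h1 hq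
      refine ⟨t, hZ, xpct_zero hH hs Y B hm hb h1 hq ht hZ h2 hg, fun hb ε hε => ?_⟩
      exact rev_step ht hm hZ.tr hq.tr.zero hH (hg hb).1 hn hw
        (fun e' => hε (e' ▸ Set.mem_insert _ _)) (h3 hb ε fun h' => hε (Set.mem_insert_of_mem _ h')))
  exact ⟨Y.X, t, Y.P, inferInstance, Y.φ, hY, h1, h2⟩

end Pool.Agent.MP_1c0fc2_co.GR

end

section

open Function

namespace Pool.Agent.MP_1c0fc2_co.GR

/-- the train of height one -/
def xextS (E : Type) : ℕ → Setoid E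
  | 0 => ⊥
  | _ + 1 => ⊤

theorem ext_zero (γ : ℕ → ℕ) (w n g : ℕ) : Hor False 1 γ w n g := by
  intro K _ _ S s A hD _ _ κ _ _
  obtain ⟨G, Q, hQ, q, hram, hlin, hsh, -, -⟩ := hj S κ
  refine ⟨G, xextS G.E, Q, hQ, q, hram, ⟨⟨fun _ _ h => h, ?_, ?_, ?_⟩, (hlin hD.lin).1, ?_, ?_⟩,
    False.elim⟩
  · intro μ e e' _
    trivial
  · intro μ hμ e e'
    obtain ⟨ν, rfl⟩ : ∃ ν, μ = ν + 1 := ⟨μ - 1, by omega⟩
    trivial
  · rintro (_ | μ) e e' v ⟨k, hk⟩ ⟨k', hk'⟩ h1 -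
    · have h2 : G.vc v = k := hk ▸ G.vc_inc e k
      have h3 : G.vc v = k' := hk' ▸ G.vc_inc e' k'
      obtain rfl : k = k' := h2.symm.trans h3
      obtain ⟨f, f', hf, hff⟩ := hsh e e' k h1 (hk.trans hk'.symm)
      have h4 := hD.tr.cond 0 f f' (S.inc f k) ⟨k, rfl⟩ ⟨k, hff.symm⟩
        (fun h => hf (hD.tr.zero _ _ h)) (hD.tr.top 1 le_rfl f f')
      rw [S.vc_inc] at h4
      rw [h2]
      exact h4
    · exact absurd trivial h1
  · rintro p (_ | μ) f f'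
    · exact ⟨fun h => (q p).e_inj h ▸ (s 0).refl f, fun h => congrArg _ (hD.tr.zero _ _ h)⟩
    · exact ⟨fun _ => hD.tr.top _ (by omega) f f', fun _ => trivial⟩
  · intro μ h1 h2
    omega

theorem xext_rep (g : ℕ) (γ : ℕ → ℕ) (ν : ℕ) : rep 1 g γ (ν + 1) = γ ν := by
  simp [rep]

theorem xext_mstS {K : Type} {F : HG (id : K → K)} {s : ℕ → Setoid F.E} {A : ℕ → Set K} {m : ℕ}
    (h : IsTrain F s A (m + 1)) {Λ : Type} (l : Λ) (ν : ℕ) (f f' : F.E) :
    mstS s Λ m ν (l, Quotient.mk _ f) (l, Quotient.mk _ f') ↔ s (ν + 1) f f' := by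
  have h1 : ∀ f, s (ν + 1) (Quotient.mk (s 1) f).out f := fun f =>
    h.le (by omega) (Quotient.mk_out (s := s 1) f)
  constructor
  · rintro (h2 | ⟨-, h2⟩)
    · exact h.top _ (by omega) f f'
    · exact (s (ν + 1)).trans ((s (ν + 1)).symm (h1 f)) ((s (ν + 1)).trans h2 (h1 f'))
  · intro h2
    exact Or.inr ⟨rfl, (s (ν + 1)).trans (h1 f) ((s (ν + 1)).trans h2 ((s (ν + 1)).symm (h1 f')))⟩

theorem ext_succ {m : ℕ} {γ : ℕ → ℕ} (hm : 1 ≤ m) (hγ : ∀ μ, 2 ≤ γ μ) (h : T m γ) {g₀ : ℕ}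
    (hg : 2 ≤ g₀) (w n g : ℕ) : Hor False (m + 1) (rep 1 g₀ γ) w n g := by
  intro K _ _ S s A hD hS _ κ _ _
  have hγ' : ∀ μ, 2 ≤ rep 1 g₀ γ μ := by
    rintro (_ | μ)
    · exact hg
    · rw [xext_rep]
      exact hγ μ
  rcases isEmpty_or_nonempty S.E with hE | ⟨⟨f0⟩⟩
  · obtain ⟨t, ht, -⟩ := up_zero hD (by omega) hγ' Unit
    exact ⟨_, t, Unit, inferInstance, _, fun _ => ⟨(), fun f => hE.elim f⟩, ht, False.elim⟩
  obtain ⟨X, Λ, hΛ, L, hram, hlin, hsh, hni, hkey⟩ := hj (wagY S (s 1)) κ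
  obtain ⟨l0, -⟩ := hram fun _ => Classical.arbitrary κ
  have hXE : Nonempty X.E := ⟨(L l0).e f0⟩
  let rk : S.V → ℕ := fun v => (Finite.equivFin S.V v : ℕ)
  have hrk : Injective rk := fun a b e => (Finite.equivFin S.V).injective (Fin.ext e)
  obtain ⟨key, hkey⟩ := hkey fun y => rk y.1.2
  obtain ⟨o, ho⟩ := mst_ord (Hi A (m + 1) 1) L rk hrk key hkey
  obtain ⟨N, u, P, hP, p, hram', hup, hgood⟩ :=
    @h (KK X (Hi A (m + 1) 1)) K inferInstance inferInstance o _ (mst (Hi A (m + 1) 1) L)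
      (mstS s Λ m) (fun ν => A (ν + 1)) (mst_dom hD hm hγ L) ho (X.E → κ) inferInstance
      inferInstance
  have hq : ∀ a : P × Λ, ∃ φ : Emb S (subst X (Hi A (m + 1) 1) N),
      (∀ f, φ.e f = ((p a.1).e (a.2, Quotient.mk (s 1) f), (L a.2).e f)) ∧
      ∀ v, S.vc v ∈ Hi A (m + 1) 1 → φ.v v = Sum.inl ((p a.1).v (a.2, Sum.inl v)) := fun a =>
    subst_emb hS (fun v e e' hv he he' => hD.tr.low he he' hv) L (p a.1) a.2
  choose q hqe hqv using hq
  have hc : ∀ a μ, Compat (q a) (s μ) (substS u μ) := by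
    rintro a (_ | ν) f f'
    · exact ⟨fun h => (q a).e_inj h ▸ (s 0).refl f, fun h => congrArg _ (hD.tr.zero _ _ h)⟩
    · rw [hqe, hqe, ← xext_mstS hD.tr a.2 ν]
      exact hup.cpt a.1 ν _ _
  refine ⟨subst X (Hi A (m + 1) 1) N, substS u, P × Λ, inferInstance, q, fun χ => ?_,
    ⟨subst_train hup.tr fun a a' k ha hk => ?_,
      subst_lin hup.lin (hlin (wagY_lin _ hD.lin)).1, hc, ?_⟩, False.elim⟩
  · obtain ⟨p0, hp0⟩ := hram' fun ε a => χ (ε, a)
    obtain ⟨l, hl⟩ := hram fun a => χ ((p p0).e (l0, Quotient.mk (s 1) f0), a)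
    refine ⟨(p0, l), fun f f' => ?_⟩
    have e : ∀ f, χ ((q (p0, l)).e f) =
        χ ((p p0).e (l0, Quotient.mk (s 1) f0), (L l).e f) := fun f => by
      rw [hqe]
      exact congrFun (hp0 (l, Quotient.mk (s 1) f) (l0, Quotient.mk (s 1) f0)) ((L l).e f)
    exact (e f).trans ((hl f f').trans (e f').symm)
  · obtain ⟨f, f', hf, hff⟩ := hsh a a' k ha hk
    exact wagY_share hD.tr hf hff
  · intro μ h1 h2
    obtain ⟨ν, rfl⟩ : ∃ ν, μ = ν + 1 := ⟨μ - 1, by omega⟩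
    have hν : ν < m := by omega
    have hsub : Hi A (m + 1) (ν + 1) ⊆ Hi A (m + 1) 1 := hi_anti A (m + 1) h1
    have hG : GoodL p (mstS s Λ m ν) (u ν) (Hi A (m + 1) (ν + 1)) (2 * γ ν) (2 * γ ν) := by
      refine Eq.subst (motive := fun D => GoodL p (mstS s Λ m ν) (u ν) D (2 * γ ν) (2 * γ ν))
        (hi_shift A m ν) ?_
      rcases Nat.eq_zero_or_pos ν with rfl | h0
      · exact hgood
      · exact hup.good ν h0 hν
    obtain ⟨hcp, hb, hac⟩ := hG
    have b3 : (GR.hg S (s (ν + 1)) (Hi A (m + 1) (ν + 1))).B3 :=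
      gir_two.1 ((gir_hg_of_wg (hD.gir _ h1 h2) _).mono (hγ' _))
    obtain ⟨θ, hθv, hθc, hθb, hθa⟩ := mst_good hD.tr hsub L hν b3
    obtain ⟨j, hjv, hjc, hjb, hji⟩ := subst_j (hni (wagY_noIso _)) u ν hsub
    have h3 := comp_good j hjb hji hb hac (by have := hγ ν; omega) hθb (hθa _ _)
    have e : (fun a => (q a).hg (hc a (ν + 1)) (Hi A (m + 1) (ν + 1))) =
        prodSys (fun a => j.comp ((p a).hg (hcp a) (Hi A (m + 1) (ν + 1)))) θ := by
      funext a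
      refine GHom.ext (funext fun v => Subtype.ext ?_) (funext fun c => ?_)
      · refine (hqv a v.1 (hsub v.2)).trans (Eq.trans ?_ (hjv _).symm)
        exact congrArg (fun z => Sum.inl ((p a.1).v z)) (hθv a.2 v).symm
      · induction c using Quotient.inductionOn with
        | h f =>
          change Quotient.mk _ ((q a).e f) =
            j.c (((p a.1).hg (hcp a.1) _).c ((θ a.2).c (Quotient.mk _ f)))
          rw [hθc, hqe]
          exact (hjc _ _).symm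
    rw [xext_rep]
    exact ⟨fun a => hc a (ν + 1), e ▸ h3.1, e ▸ h3.2⟩

end Pool.Agent.MP_1c0fc2_co.GR

end

section

open Function

namespace Pool.Agent.MP_1c0fc2_co.GR

theorem xmain_rep {M g k : ℕ} {γ : ℕ → ℕ} (h : k ≤ g) (h' : ∀ μ, k ≤ γ μ) (μ : ℕ) :
    k ≤ rep M g γ μ := by
  unfold rep
  split_ifs
  · exact h
  · exact h' _

theorem boot {m : ℕ} {γ : ℕ → ℕ} {w n : ℕ} (h : St m γ w n) (hw : w < 2 * (n + 1)) :
    Hor True m γ w n 0 := by
  intro K _ _ S s A hD _ _ κ _ _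
  obtain ⟨H, t, P, _, φ, h1, h2, h3⟩ := h K K id S s A hD (ord_partite S) κ
  exact ⟨H, t, P, inferInstance, φ, h1, h2, fun _ => ⟨h3, fun h' => absurd h' (by omega)⟩⟩

theorem st_all {m : ℕ} {γ : ℕ → ℕ} {w n : ℕ} (hm : 1 ≤ m) (hγ : ∀ μ, 2 ≤ γ μ) (h : St m γ w n)
    (hw : w < 2 * (n + 1)) (k : ℕ) : St m γ w (n + k) := by
  induction k with
  | zero => exact h
  | succ k ih =>
    exact pc_train (n := n + k) hm hγ (Nat.zero_le _) (by omega) (Or.inl trivial)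
      (boot ih (by omega))

theorem main_step (g : ℕ) (hg : 2 ≤ g) : ∀ (m : ℕ) (γ : ℕ → ℕ), (∀ μ, g ≤ γ μ) →
    (m = 0 ∨ T m γ) → T (m + 1) (rep 1 g γ) := by
  induction g, hg using Nat.le_induction with
  | base =>
    intro m γ hγ h
    have h1 : Hor False (m + 1) (rep 1 2 γ) 4 1 0 := by
      rcases Nat.eq_zero_or_pos m with rfl | hm
      · exact ext_zero _ _ _ _
      · exact ext_succ hm hγ (h.resolve_left hm.ne') le_rfl _ _ _
    have h2 := xmain_rep (M := 1) le_rfl hγ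
    exact st_all (by omega) h2 (pc_train (by omega) h2 (by omega) (by omega) (Or.inr le_rfl) h1)
      (by omega) 2
  | succ g hg ih =>
    intro m γ hγ h
    have h0 : ∀ μ, g ≤ γ μ := fun μ => Nat.le_of_succ_le (hγ μ)
    have h1 : ∀ M, 0 < M → T (M + m) (rep M g γ) := by
      intro M hM
      induction M, hM using Nat.le_induction with
      | base =>
        rw [Nat.add_comm]
        exact ih m γ h0 h
      | succ M _ ih' =>
        have := ih (M + m) (rep M g γ) (xmain_rep le_rfl h0) (Or.inr ih')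
        have e : rep 1 g (rep M g γ) = rep (M + 1) g γ := by
          funext μ
          simp only [rep]
          split_ifs <;> first | rfl | omega | exact congrArg γ (by omega)
        rwa [e, Nat.add_right_comm] at this
    have h2 := xmain_rep (M := 1) (g := g + 1) (by omega : 2 ≤ g + 1)
      fun μ => hg.trans (h0 μ)
    have h3 := st_all (by omega) h2
      (pc_train (by omega) h2 le_rfl (by omega) (Or.inl trivial) (hrev hγ h1)) (by omega) (g + 1)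
    rwa [← two_mul] at h3

/-- the girth Ramsey theorem for linear ordered hypergraphs -/
theorem gr_hyper {K : Type} [Finite K] [LinearOrder K] (F : HG (fun _ : K => ())) (hO : F.Ord)
    (hL : F.Lin) (κ : Type) [Finite κ] [Nonempty κ] (w : ℕ) :
    ∃ (H : HG (fun _ : K => ())) (P : Type) (_ : Finite P) (φ : P → Emb F H),
      Ram (fun p => (φ p).e) κ ∧ H.Lin ∧ GoodL φ ⊥ ⊥ Set.univ w w := by
  let s : ℕ → Setoid F.E := fun μ => Nat.casesOn μ ⊥ fun _ => ⊤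
  obtain ⟨H, t, P, _, φ, h1, h2, h3⟩ := main_step (max w 2) (le_max_right _ _) 0
    (fun _ => max w 2) (fun _ => le_rfl) (Or.inl rfl) K Unit _ F s (fun _ => Set.univ)
    ⟨⟨fun _ _ h => h, fun _ _ _ _ => trivial, fun μ h => by
      obtain ⟨ν, rfl⟩ := Nat.exists_eq_add_of_le' h
      exact fun _ _ => trivial, fun _ _ _ _ _ _ _ _ => trivial⟩, hL,
      fun μ h h' => absurd h' (by omega)⟩ hO κ
  have e1 : t 0 = ⊥ := Setoid.ext fun x y => ⟨h2.tr.zero x y, fun h => h ▸ (t 0).refl x⟩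
  have e2 : Hi (fun _ => (Set.univ : Set Unit)) (0 + 1) 0 = Set.univ :=
    Set.eq_univ_of_forall fun _ => ⟨0, le_rfl, Nat.one_pos, trivial⟩
  rw [e1, e2] at h3
  obtain ⟨hc, h4, h5⟩ := h3
  have hw : w ≤ 2 * max w 2 := by omega
  exact ⟨H, P, inferInstance, φ, h1, h2.lin, hc, h4, h5.mono hw hw⟩

end Pool.Agent.MP_1c0fc2_co.GR

end

section

open Function

namespace Pool.Agent.MP_1c0fc2_co.GR

/-- two vertices in a common copy -/
def Tog {α V P : Type} (φ : P → α → V) (x y : V) : Prop :=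
  ∃ p, x ∈ Set.range (φ p) ∧ y ∈ Set.range (φ p)

/-- a graph as a hypergraph -/
def xgraphHG {α : Type} [Finite α] (F : SimpleGraph α) (ρ : α → ℕ) : HG (fun _ : Fin 2 => ()) where
  V := α
  E := {e : α × α // F.Adj e.1 e.2 ∧ ρ e.1 < ρ e.2}
  vc := fun _ => ()
  inc := fun e => ![e.1.1, e.1.2]
  inc_inj := fun e k k' h => by
    have := e.2.1.ne
    fin_cases k <;> fin_cases k' <;> simp_all
  vc_inc := fun _ _ => rfl

theorem xgraph_on {α : Type} [Finite α] {F : SimpleGraph α} {ρ : α → ℕ} {a : α}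
    {f : (xgraphHG F ρ).E} : (xgraphHG F ρ).On a f ↔ f.1.1 = a ∨ f.1.2 = a :=
  Fin.exists_fin_two

theorem xgraph_adj {α : Type} [Finite α] {F : SimpleGraph α} {ρ : α → ℕ} {a b : α}
    {f : (xgraphHG F ρ).E} (ha : (xgraphHG F ρ).On a f) (hb : (xgraphHG F ρ).On b f)
    (h : a ≠ b) : F.Adj a b := by
  rcases xgraph_on.1 ha with rfl | rfl <;> rcases xgraph_on.1 hb with rfl | rfl
  exacts [(h rfl).elim, f.2.1, f.2.1.symm, (h rfl).elim]

theorem xgraph_edge {α : Type} [Finite α] {F : SimpleGraph α} {ρ : α → ℕ} (hρ : Injective ρ)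
    {a b : α} (h : F.Adj a b) : ∃ f : (xgraphHG F ρ).E, s(f.1.1, f.1.2) = s(a, b) ∧
      (xgraphHG F ρ).On a f ∧ (xgraphHG F ρ).On b f := by
  rcases lt_or_gt_of_ne (hρ.ne h.ne) with h1 | h1
  · exact ⟨⟨(a, b), h, h1⟩, rfl, xgraph_on.2 (.inl rfl), xgraph_on.2 (.inr rfl)⟩
  · exact ⟨⟨(b, a), h.symm, h1⟩, Sym2.eq_swap, xgraph_on.2 (.inr rfl), xgraph_on.2 (.inl rfl)⟩

theorem xgraph_lin {α : Type} [Finite α] (F : SimpleGraph α) (ρ : α → ℕ) :
    (xgraphHG F ρ).Lin := by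
  rintro ⟨⟨a, b⟩, h1, h2⟩ ⟨⟨c, d⟩, h3, h4⟩ u v huv a1 a2 a3 a4
  rw [xgraph_on] at a1 a2 a3 a4
  refine Subtype.ext ?_
  dsimp only at *
  rcases a1 with rfl | rfl <;> rcases a2 with rfl | rfl <;> rcases a3 with rfl | rfl <;>
    rcases a4 with h | h <;> first | exact (huv rfl).elim | exact (huv h).elim | skip
  · rw [h]
  · subst h; exact (lt_asymm h2 h4).elim
  · subst h; exact (lt_asymm h2 h4).elim
  · rw [h]

theorem xgraph_ord {α : Type} [Finite α] (F : SimpleGraph α) (ρ : α → ℕ) :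
    (xgraphHG F ρ).Ord :=
  ⟨ρ, fun e => Fin.strictMono_iff_lt_succ.2 fun k => by
    fin_cases k
    exact e.2.2⟩

/-- the girth Ramsey theorem for graphs, attachment form -/
theorem girth_ramsey_atom {α : Type} [Finite α] (F : SimpleGraph α) (κ : Type) [Finite κ]
    [Nonempty κ] (g : ℕ) :
    ∃ (V : Type) (_ : Finite V) (G : SimpleGraph V) (P : Type) (_ : Finite P) (φ : P → F ↪g G),
      (∀ χ : Sym2 V → κ, ∃ p c, ∀ x y, F.Adj x y → χ s(φ p x, φ p y) = c) ∧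
      (∀ x y, G.Adj x y → ∃ p a b, φ p a = x ∧ φ p b = y) ∧
      ∀ (C : Finset V) (p : P), C.card ≤ g → (∀ a ∈ C, a ∉ Set.range (φ p)) →
        (∀ a ∈ C, ∀ b ∈ C, Relation.ReflTransGen
          (fun u v => u ∈ C ∧ v ∈ C ∧ Tog (fun p => φ p) u v) a b) →
        (∀ x y : α, x ≠ y → (∃ a ∈ C, Tog (fun p => φ p) (φ p x) a) →
          (∃ a ∈ C, Tog (fun p => φ p) (φ p y) a) → F.Adj x y ∧ ∃ a ∈ C, ∃ p',
            φ p x ∈ Set.range (φ p') ∧ φ p y ∈ Set.range (φ p') ∧ a ∈ Set.range (φ p')) ∧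
        ∀ x y z : α, (∃ a ∈ C, Tog (fun p => φ p) (φ p x) a) →
          (∃ a ∈ C, Tog (fun p => φ p) (φ p y) a) → (∃ a ∈ C, Tog (fun p => φ p) (φ p z) a) →
          x = y ∨ x = z ∨ y = z := by
  let ρ : α → ℕ := fun x => Finite.equivFin α x
  have hρ : Injective ρ := Fin.val_injective.comp (Finite.equivFin α).injective
  obtain ⟨H, P, _, φ, hR, -, hc, hB, hAC⟩ :=
    gr_hyper (xgraphHG F ρ) (xgraph_ord F ρ) (xgraph_lin F ρ) κ (2 * g + 4)
  let ψ := fun p => (φ p).hg (hc p) Set.univ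
  let up : H.V ↪ (hg H ⊥ Set.univ).V :=
    ⟨fun v => ⟨v, trivial⟩, fun _ _ h => congrArg Subtype.val h⟩
  have hM : ∀ {u : (hg H ⊥ Set.univ).V} {e : H.E},
      (hg H ⊥ Set.univ).M u (Quotient.mk ⊥ e) → H.On u.1 e := by
    rintro u e ⟨e', h1, h2⟩
    obtain rfl : e' = e := Quotient.exact h1
    exact h2
  have hadj : ∀ p (x y : α) d, x ≠ y → (hg H ⊥ Set.univ).M (up ((φ p).v x)) d →
      (hg H ⊥ Set.univ).M (up ((φ p).v y)) d → (∃ c, (ψ p).c c = d) → F.Adj x y := by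
    rintro p x y _ hxy hx hy ⟨c, rfl⟩
    induction c using Quotient.inductionOn with | _ f
    obtain ⟨k, hk⟩ := hM (e := (φ p).e f) hx
    obtain ⟨k', hk'⟩ := hM (e := (φ p).e f) hy
    exact xgraph_adj (f := f) ⟨k, (φ p).v_inj (((φ p).inc_e f k).symm.trans hk)⟩
      ⟨k', (φ p).v_inj (((φ p).inc_e f k').symm.trans hk')⟩ hxy
  let G : SimpleGraph H.V :=
    { Adj := fun x y => ∃ p, ∃ a b : α, F.Adj a b ∧ (φ p).v a = x ∧ (φ p).v b = y
      symm := ⟨fun _ _ ⟨p, a, b, h, h1, h2⟩ => ⟨p, b, a, h.symm, h2, h1⟩⟩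
      loopless := ⟨fun _ ⟨p, _, _, h, h1, h2⟩ => h.ne ((φ p).v_inj (h1.trans h2.symm))⟩ }
  have hind : ∀ p (a b : α), G.Adj ((φ p).v a) ((φ p).v b) → F.Adj a b := by
    intro p a b h
    have hab : a ≠ b := fun e => h.ne (by rw [e])
    obtain ⟨p', a', b', h, h1, h2⟩ := h
    obtain ⟨f, -, ⟨k, hk⟩, ⟨k', hk'⟩⟩ := xgraph_edge hρ h
    have m1 : (hg H ⊥ Set.univ).M (up ((φ p).v a)) (Quotient.mk ⊥ ((φ p').e f)) :=
      ⟨_, rfl, k, ((φ p').inc_e f k).trans ((congrArg _ hk).trans h1)⟩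
    have m2 : (hg H ⊥ Set.univ).M (up ((φ p).v b)) (Quotient.mk ⊥ ((φ p').e f)) :=
      ⟨_, rfl, k', ((φ p').inc_e f k').trans ((congrArg _ hk').trans h2)⟩
    exact hadj p a b _ hab m1 m2 (hB.str p ⟨a, trivial⟩ ⟨b, trivial⟩ _
      (fun e => hab (congrArg Subtype.val e)) m1 m2)
  let Φ : P → F ↪g G := fun p => ⟨⟨(φ p).v, (φ p).v_inj⟩, fun {a b} =>
    ⟨hind p a b, fun h => ⟨p, a, b, h, rfl, rfl⟩⟩⟩
  have hbag : ∀ p x, (ψ p).Bag (.inl (up x)) ↔ x ∈ Set.range (Φ p) := by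
    refine fun p x => ⟨?_, ?_⟩
    · rintro ⟨y | y, h⟩
      · exact ⟨y.1, congrArg Subtype.val (Sum.inl_injective h)⟩
      · exact (Sum.inr_ne_inl h).elim
    · rintro ⟨a, rfl⟩
      exact ⟨.inl ⟨a, trivial⟩, rfl⟩
  have htog : ∀ u v, Tog (fun p => Φ p) u v → Adj ψ (.inl (up u)) (.inl (up v)) :=
    fun u v ⟨p, h1, h2⟩ => .inl ⟨p, (hbag _ _).2 h1, (hbag _ _).2 h2⟩
  refine ⟨H.V, inferInstance, G, P, inferInstance, Φ, fun χ => ?_,
    fun x y ⟨p, a, b, _, h1, h2⟩ => ⟨p, a, b, h1, h2⟩, fun C p hC hp hconn => ?_⟩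
  · obtain ⟨p, hp⟩ := hR fun e => χ s(H.inc e 0, H.inc e 1)
    have key : ∀ x y, F.Adj x y → ∃ f, χ s(Φ p x, Φ p y) =
        χ s(H.inc ((φ p).e f) 0, H.inc ((φ p).e f) 1) := fun x y h => by
      obtain ⟨f, hf, -⟩ := xgraph_edge hρ h
      refine ⟨f, congrArg χ ?_⟩
      rw [(φ p).inc_e, (φ p).inc_e]
      exact (congrArg (Sym2.map (φ p).v) hf).symm
    by_cases h0 : Nonempty (xgraphHG F ρ).E
    · obtain ⟨f0⟩ := h0
      refine ⟨p, χ s(H.inc ((φ p).e f0) 0, H.inc ((φ p).e f0) 1), fun x y h => ?_⟩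
      obtain ⟨f, hf⟩ := key x y h
      exact hf.trans (hp f f0)
    · exact ⟨p, Classical.arbitrary κ, fun x y h => (h0 ⟨(key x y h).choose⟩).elim⟩
  · have h2 : ∀ d u v x, (hg H ⊥ Set.univ).M u d → (hg H ⊥ Set.univ).M v d →
        (hg H ⊥ Set.univ).M x d → u = v ∨ u = x ∨ v = x := by
      intro d u v x hu hv hx
      induction d using Quotient.inductionOn with | _ e
      obtain ⟨k1, e1⟩ := hM hu
      obtain ⟨k2, e2⟩ := hM hv
      obtain ⟨k3, e3⟩ := hM hx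
      have : k1 = k2 ∨ k1 = k3 ∨ k2 = k3 := by omega
      rcases this with rfl | rfl | rfl
      exacts [.inl (Subtype.ext (e1.symm.trans e2)), .inr (.inl (Subtype.ext (e1.symm.trans e3))),
        .inr (.inr (Subtype.ext (e2.symm.trans e3)))]
    have c1 : (C.map up).card ≤ g := by rwa [Finset.card_map]
    have c2 : ∀ a ∈ C.map up, ∀ b ∈ C.map up, Relation.ReflTransGen
        (fun u v => u ∈ C.map up ∧ v ∈ C.map up ∧ Adj ψ (.inl u) (.inl v)) a b := by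
      intro a ha b hb
      obtain ⟨a, ha', rfl⟩ := Finset.mem_map.1 ha
      obtain ⟨b, hb', rfl⟩ := Finset.mem_map.1 hb
      exact (hconn a ha' b hb').lift up fun u v h => ⟨Finset.mem_map_of_mem _ h.1,
        Finset.mem_map_of_mem _ h.2.1, htog _ _ h.2.2⟩
    have c3 : ∀ a ∈ C.map up, ¬ (ψ p).Bag (.inl a) := by
      intro a ha
      obtain ⟨a, ha', rfl⟩ := Finset.mem_map.1 ha
      exact fun h => hp a ha' ((hbag _ _).1 h)
    have c4 : ∀ x, (ψ p).Bag (.inl (up (Φ p x))) := fun x => (hbag _ _).2 ⟨x, rfl⟩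
    have c5 : ∀ x, (∃ a ∈ C, Tog (fun p => Φ p) (Φ p x) a) →
        ∃ a ∈ C.map up, Adj ψ (.inl (up (Φ p x))) (.inl a) :=
      fun x ⟨a, ha, h⟩ => ⟨up a, Finset.mem_map_of_mem _ ha, htog _ _ h⟩
    have c6 : ∀ x y, up (Φ p x) = up (Φ p y) → x = y :=
      fun x y h => (Φ p).injective (up.injective h)
    refine ⟨fun x y hxy hx hy => ?_, fun x y z hx hy hz => ?_⟩
    · obtain ⟨d, d1, d2, ⟨c, hc'⟩, a, ha, p', b1, b2, b3, -⟩ := atom_edge hB hAC h2 _ c1 c2 p c3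
        (fun h => hxy (c6 x y h)) (c4 x) (c4 y) (c5 x hx) (c5 y hy)
      obtain ⟨a, ha', rfl⟩ := Finset.mem_map.1 ha
      refine ⟨hadj p x y d hxy d1 d2 ?_, a, ha', p', (hbag _ _).1 b1, (hbag _ _).1 b2,
        (hbag _ _).1 b3⟩
      rcases c with c | c
      · exact (Sum.inl_ne_inr hc').elim
      · exact ⟨c, Sum.inr_injective hc'⟩
    · exact (atom_three hB hAC h2 _ c1 c2 p c3 (c4 x) (c4 y) (c4 z) (c5 x hx) (c5 y hy)
        (c5 z hz)).imp (c6 _ _) (Or.imp (c6 _ _) (c6 _ _))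

end Pool.Agent.MP_1c0fc2_co.GR

end

section

open Function Set Relation

namespace Pool.Agent.MP_1c0fc2_co.RE

/-- thinness from the pairwise form -/
theorem xhost_thin {V : Type} {G : SimpleGraph V} {N : Set (Set V)} {g : ℕ} {X : Set V}
    (h : ∀ C : Set V, C.ncard ≤ g → Disjoint C X → ConnOn (Tog N) C →
      (∀ u ∈ At N X C, ∀ v ∈ At N X C, u ≠ v →
        G.Adj u v ∧ ∃ ν ∈ N, u ∈ ν ∧ v ∈ ν ∧ (ν ∩ C).Nonempty) ∧
      ∀ u ∈ At N X C, ∀ v ∈ At N X C, ∀ w ∈ At N X C, u = v ∨ u = w ∨ v = w) :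
    Thin N (GLk G) g X := fun C c1 c2 c3 => by
  obtain ⟨h1, h2⟩ := h C c1 c2 c3
  rcases (At N X C).subsingleton_or_nontrivial with hs | ⟨u, hu, v, hv, huv⟩
  · rcases hs.eq_empty_or_singleton with e | ⟨w, e⟩
    · exact .inl e
    · obtain ⟨hw, c, hc, ν, n1, n2, n3⟩ : w ∈ At N X C := e ▸ rfl
      exact .inr ⟨{w}, .inl ⟨w, rfl⟩, e.le, singleton_subset_iff.2 hw, ν, n1,
        singleton_subset_iff.2 n2, c, n3, hc⟩
  · obtain ⟨e, ν, n1, n2, n3, n4⟩ := h1 u hu v hv huv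
    refine .inr ⟨{u, v}, .inr ⟨u, v, e, rfl⟩, fun w hw => ?_, pair_subset hu.1 hv.1, ν, n1,
      pair_subset n2 n3, n4⟩
    rcases h2 u hu v hv w hw with e | e | e
    · exact absurd e huv
    · exact .inl e.symm
    · exact .inr e.symm

theorem host_stmt : HostStmt := by
  intro U _ A g
  classical
  obtain ⟨V, hV, G, P, -, φ, hram, hcov, hatt⟩ := GR.girth_ramsey_atom A Bool g
  let bag : P → Bag U V := fun p => ⟨φ p, ⊥, ⊥, True⟩
  have hN : ∀ ν, ν ∈ Nodes ∅ (range bag) ↔ ∃ p, ν = range (φ p) := by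
    intro ν
    constructor
    · rintro (h | ⟨_, ⟨p, rfl⟩, rfl⟩)
      · exact h.elim
      · exact ⟨p, rfl⟩
    · rintro ⟨p, rfl⟩
      exact .inr ⟨_, ⟨p, rfl⟩, rfl⟩
  have hT : ∀ x y, Tog (Nodes ∅ (range bag)) x y ↔ GR.Tog (fun p => φ p) x y := by
    intro x y
    constructor
    · rintro ⟨ν, h1, h2⟩
      obtain ⟨p, rfl⟩ := (hN ν).1 h1
      exact ⟨p, h2⟩
    · rintro ⟨p, h2⟩
      exact ⟨_, (hN _).2 ⟨p, rfl⟩, h2⟩
  refine ⟨V, hV, G, range bag, ⟨bot_le, ?_, ?_, ?_, ?_, ?_, fun _ h => h.elim, ?_, ?_,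
    fun _ h => h.elim⟩, ?_⟩
  · rintro _ ⟨p, rfl⟩
    exact ⟨(φ p).injective.injOn, fun x _ y _ => (φ p).map_adj_iff⟩
  · rintro _ ⟨p, rfl⟩ a b
    exact Iff.rfl
  · rintro _ ⟨p, rfl⟩
    exact bot_le
  · intro x y e
    obtain ⟨p, a, b, h1, h2⟩ := hcov x y e
    exact .inr ⟨_, ⟨p, rfl⟩, a, b, h1, h2, fun h => h⟩
  · intro ν hν
    obtain ⟨p, rfl⟩ := (hN ν).1 hν
    refine xhost_thin fun C c1 c2 c3 => ?_
    have hf : C.Finite := toFinite C
    obtain ⟨h1, h2⟩ := hatt hf.toFinset p (by rwa [← ncard_eq_toFinset_card C hf])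
      (fun a ha => disjoint_left.1 c2 (hf.mem_toFinset.1 ha))
      (fun a ha b hb => rtg_mono (fun x y e => ⟨hf.mem_toFinset.2 e.1, hf.mem_toFinset.2 e.2.1,
        (hT x y).1 e.2.2⟩) (c3 a (hf.mem_toFinset.1 ha) b (hf.mem_toFinset.1 hb)))
    have hA : ∀ x, φ p x ∈ At (Nodes ∅ (range bag)) (range (φ p)) C →
        ∃ a ∈ hf.toFinset, GR.Tog (fun p => φ p) (φ p x) a := by
      rintro x ⟨-, c, hc, e⟩
      exact ⟨c, hf.mem_toFinset.2 hc, (hT _ _).1 e⟩
    constructor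
    · intro u hu v hv huv
      obtain ⟨x, rfl⟩ := hu.1
      obtain ⟨y, rfl⟩ := hv.1
      obtain ⟨e, a, ha, p', n1, n2, n3⟩ :=
        h1 x y (fun e => huv (congrArg _ e)) (hA x hu) (hA y hv)
      exact ⟨(φ p).map_adj_iff.2 e, _, (hN _).2 ⟨p', rfl⟩, n1, n2, a, n3, hf.mem_toFinset.1 ha⟩
    · intro u hu v hv w hw
      obtain ⟨x, rfl⟩ := hu.1
      obtain ⟨y, rfl⟩ := hv.1
      obtain ⟨z, rfl⟩ := hw.1
      exact (h2 x y z (hA x hu) (hA y hv) (hA z hw)).imp (congrArg _)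
        (Or.imp (congrArg _) (congrArg _))
  · rintro _ ⟨p, rfl⟩ _ ⟨p', rfl⟩ _ _ _ _ _ _ _ _ _
    exact .inr ⟨trivial, trivial⟩
  · rintro _ ⟨p, rfl⟩ h
    exact absurd trivial h
  · intro R _
    obtain ⟨p, c, hc⟩ := hram fun e => decide (e ∈ R.edgeSet)
    cases c
    · refine .inr ⟨φ p, (φ p).injective, fun x y e => ⟨(φ p).map_adj_iff.2 e, ?_⟩⟩
      exact of_decide_eq_false (hc x y e)
    · exact .inl ⟨φ p, (φ p).injective, fun x y e => of_decide_eq_true (hc x y e)⟩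

theorem hub_stmt : HubStmt := by
  intro U X V Z Q _ _ _ _ A M I pt Γ RΓ Hub Hs Us Xs G R Gs Bs g g' B φ hG hC hB hφ γ hγ x hx
    ⟨z0, hz0⟩
  obtain ⟨h, hh, a0, rfl⟩ := (hG.hub x).1 hx
  have key : ∀ z, ∃ a, γ (h a) = φ z := by
    intro z
    have hr := (SimpleGraph.reachable_iff_reflTransGen _ _).1 (hB.preconnected z0 z)
    induction hr with
    | refl => exact ⟨a0, hz0.symm⟩
    | @tail u v _ e ih =>
      obtain ⟨a, ha⟩ := ih
      have eR : R.Adj (γ (h a)) (φ v) := ha ▸ hφ.2 u v e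
      rcases hC.pre.cov _ _ (hC.pre.le eR) with ⟨_, ⟨γ', hγ', rfl⟩, n1, n2⟩ | ⟨β, hβ, b, -, n1, -⟩
      · obtain rfl : γ' = γ := hC.eq_of_mem hγ' hγ n1 (mem_range_self _)
        obtain ⟨y, hy⟩ := n2
        rw [← hy, hC.gcol γ' hγ] at eR
        obtain ⟨b, rfl⟩ := hG.hcl h hh a y eR
        exact ⟨b, hy⟩
      · exact absurd n1 (hC.hub γ hγ β hβ b _ ((hG.hub _).2 ⟨h, hh, a, rfl⟩))
  choose k hk using key
  refine ⟨k, fun z z' e => hφ.1 (by rw [← hk, ← hk, e]), fun z z' e => ?_⟩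
  have e1 := hC.pre.le (hφ.2 z z' e)
  rwa [← hk, ← hk, (hC.gind γ hγ).adj, (hG.hind h hh).adj] at e1

theorem twoNb_stmt : TwoNbStmt := by
  intro U V _ _ A G R Ls Bs g hg hP c L hL w hw a ha b hb hab ea eb
  have hA : ∀ x ∈ L, (cc G R c).Adj w x → x ∈ At (Nodes Ls Bs) L {w} := fun x hx e =>
    ⟨hx, w, rfl, hP.tog (cc_le hP.le c e).symm⟩
  obtain ⟨-, -, ν, hν, n1, n2, _, n3, rfl⟩ := (hP.thin L (.inl hL)).two (C := {w})
    (by rwa [ncard_singleton]) (disjoint_singleton_left.2 hw) (connOn_singleton w)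
    (hA a ha ea) (hA b hb eb) hab
  rcases hν with hν | ⟨β, hβ, rfl⟩
  · exact absurd (hP.eq_of_mem hν hL n1 ha ▸ n3) hw
  · obtain ⟨a', rfl⟩ := n1
    obtain ⟨b', rfl⟩ := n2
    obtain ⟨w', rfl⟩ := n3
    have hab' : a' ≠ b' := fun e => hab (congrArg _ e)
    obtain ⟨ht, ho⟩ := hP.lb L hL β hβ a' b' hab' ha hb
    obtain ⟨hm, c', hc'⟩ := hP.low β hβ ht
    have h2 := cc_of_sdiff (hP.red_le hβ) (hP.old β hβ) hc'
    rw [hP.ccol hβ] at ea eb ⊢
    by_cases e : c = c'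
    · rwa [e, h2]
    · rw [Bool.eq_not_of_ne e, h2] at ea eb
      exact absurd (hm _ _ _ ea eb) hab'

end Pool.Agent.MP_1c0fc2_co.RE

end
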