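import Pool.Agent.Mg.F1c0fc2.G45208c
import Mathlib
import Pool.Agent.MP_1c0fc2_co.Defs
import Pool.Agent.Mg.F1c0fc2.G9182f4
import Pool.Agent.Mg.F1c0fc2.G3ab0dd

section

/-! Largest blocks of the `T`-graph are atoms. -/

open Function Set Relation

namespace Pool.Agent.MP_1c0fc2_co.RE

variable {V W : Type}

/-- a connected set with two neighbours in a 2-connected set enlarges it -/
theorem xatomb_ear [Finite V] {Y : SimpleGraph V} {O : Set V} (hO : TwoConn Y O) (n : ℕ) :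
    ∀ C : Set V, C.ncard = n → Disjoint C O → ConnOn Y.Adj C → ¬ (Nb Y O C).Subsingleton →
      ∃ S, TwoConn Y S ∧ O.ncard < S.ncard := by
  induction n using Nat.strong_induction_on with
  | _ n ih =>
  intro C hn hd hc hN
  obtain ⟨a, ha, b, hb, hab⟩ := not_subsingleton_iff.1 hN
  have hlt : O.ncard < (O ∪ C).ncard := by
    obtain ⟨-, c, hc, -⟩ := ha
    exact ncard_lt_ncard ⟨subset_union_left, fun h => disjoint_left.1 hd hc (h (.inr hc))⟩
  by_cases h2 : ∀ v, ConnOn Y.Adj ((O ∪ C) \ {v})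
  · exact ⟨O ∪ C, ⟨hO.1.trans hlt.le, h2⟩, hlt⟩
  obtain ⟨v, hv⟩ := not_forall.1 h2
  by_cases hvC : v ∈ C
  · have haS : a ∈ (O ∪ C) \ {v} := ⟨.inl ha.1, fun e => disjoint_left.1 hd hvC (e ▸ ha.1)⟩
    have hOD : O ⊆ comp Y.Adj ((O ∪ C) \ {v}) a :=
      hO.conn.sub_comp (fun x hx => ⟨.inl hx, fun e => disjoint_left.1 hd hvC (e ▸ hx)⟩) ha.1
        (mem_comp haS)
    obtain ⟨c, hc1, hc2⟩ : ∃ c ∈ (O ∪ C) \ {v}, c ∉ comp Y.Adj ((O ∪ C) \ {v}) a := by
      by_contra h3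
      refine hv ?_
      have e : comp Y.Adj ((O ∪ C) \ {v}) a = (O ∪ C) \ {v} :=
        Subset.antisymm comp_sub fun x hx => by
          by_contra h4
          exact h3 ⟨x, hx, h4⟩
      rw [← e]
      exact comp_conn (adj_symm' Y)
    have hnb : ∀ x ∈ comp Y.Adj ((O ∪ C) \ {v}) a, ∀ d ∈ C, Y.Adj x d →
        d ∈ insert v (comp Y.Adj ((O ∪ C) \ {v}) a) := fun x hx d hdC e => by
      by_cases hdv : d = v
      · exact .inl hdv
      · exact .inr (comp_closed hx ⟨.inr hdC, hdv⟩ e)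
    refine ih (C ∩ insert v (comp Y.Adj ((O ∪ C) \ {v}) a)).ncard ?_ _ rfl
      (hd.mono_left inter_subset_left) ?_ fun hs => hN (hs.anti ?_)
    · rw [← hn]
      refine ncard_lt_ncard ⟨inter_subset_left, fun h => ?_⟩
      rcases (h (hc1.1.resolve_left fun h' => hc2 (hOD h'))).2 with e | e
      exacts [hc1.2 e, hc2 e]
    · refine hc.trace (adj_symm' Y) _ (fun _ _ _ _ _ e => e) ?_
      rintro D hD - x hx y hy hxy ⟨d, hd1, e1⟩ ⟨d', hd2, e2⟩
      have h5 : x = v := hx.2.resolve_right fun h => (hD hd1).2 (hnb x h d (hD hd1).1 e1)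
      have h6 : y = v := hy.2.resolve_right fun h => (hD hd2).2 (hnb y h d' (hD hd2).1 e2)
      exact absurd (h5.trans h6.symm) hxy
    · rintro x ⟨hx, d, hdC, e⟩
      exact ⟨hx, d, ⟨hdC, hnb x (hOD hx) d hdC e⟩, e⟩
  · obtain ⟨w, ⟨hw, d, hdC, e⟩, hwv⟩ : ∃ w ∈ Nb Y O C, w ≠ v := by
      by_cases e : a = v
      · exact ⟨b, hb, fun e' => hab (e.trans e'.symm)⟩
      · exact ⟨a, ha, e⟩
    refine absurd ?_ hv
    rw [union_sdiff_distrib, sdiff_singleton_eq_self hvC]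
    exact (hO.2 v).union (adj_symm' Y) hc ⟨hw, hwv⟩ hdC (.inr e)

variable {H : SimpleGraph W} {P : Par} {J : SimpleGraph V}

theorem xatomb_att [Finite V] {O C : Set V} (hO : MaxB P H J O) (hd : Disjoint C O)
    (hc : ConnOn (TG P H J univ).Adj C) : (Nb (TG P H J univ) O C).Subsingleton := by
  by_contra hN
  obtain ⟨S, h1, h2⟩ := xatomb_ear hO.1 _ C rfl hd hc hN
  exact absurd (hO.2 S h1) (not_le.2 h2)

theorem xatomb_sub [Finite V] {O S : Set V} (hO : MaxB P H J O) (hS : TS P H J S)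
    (h : ¬ (S ∩ O).Subsingleton) : S ⊆ O := by
  intro c hc
  by_contra hcO
  have h1 : TwoConn (TG P H J univ) S :=
    hS.two.mono fun x hx y hy e => ⟨e, S, subset_univ _, hS, hx, hy⟩
  obtain ⟨u, hu, v, hv, huv, h2, h3⟩ := h1.two_nb h ⟨hc, hcO⟩
  exact huv (xatomb_att hO (disjoint_left.2 fun x hx => (comp_sub hx).2)
    (comp_conn (adj_symm' _)) ⟨hu.2, h2⟩ ⟨hv.2, h3⟩)

theorem atomB_stmt : AtomBStmt := by
  intro W V _ _ H P J
  refine ⟨⟨fun τ τ' h h' => h.anti h', fun v => subsingleton_singleton,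
    fun τ h a ha b hb hab => absurd (h ha hb) hab, fun O C => xatomb_att, fun O τ hO hτ => ?_,
    fun O O' hO hO' h => eq_of_subset_of_ncard_le h (hO.2 O' hO'.1)⟩,
    fun O S => xatomb_sub, fun O hO => ?_, fun hP ⟨f, hf⟩ O hO => ⟨?_, fun S hS => ?_⟩⟩
  · rcases hτ.eq_empty_or_singleton with rfl | ⟨v, rfl⟩
    · rw [sdiff_empty]
      exact ⟨hO.1.conn, hO.1.nonempty⟩
    · obtain ⟨c, h1, h2, -⟩ := hO.1.exists_ne v v
      exact ⟨hO.1.2 v, c, h1, h2⟩
  · refine hO.1.mono ?_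
    rintro x hx y hy ⟨e, S, -, h1, h2, h3⟩
    exact ⟨e, S, xatomb_sub hO h1 fun hs => e.ne (hs ⟨h2, hx⟩ ⟨h3, hy⟩), h1, h2, h3⟩
  · exact hO.1.mono fun _ _ _ _ e => TG_mono (subset_univ _) e
  · rw [hO.2, ← (hf.on S).ncard]
    exact hP.maxθ _ (hS.map (hf.tg.on S))

end Pool.Agent.MP_1c0fc2_co.RE

end

section

/-! Blue families lift from the middle graph to the final graph. -/

open Function Set Relation

namespace Pool.Agent.MP_1c0fc2_co.RE

section
variable {X V : Type} {J : SimpleGraph X} {J' : SimpleGraph V} {γ : X → V}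

/-- the rules lift along an induced copy that contains all triangles on its edges -/
theorem xbluelift_rule (hi : Injective γ) (ha : ∀ a b, J'.Adj (γ a) (γ b) ↔ J.Adj a b)
    (ht : ∀ a ∈ range γ, ∀ b ∈ range γ, ∀ w, J'.Adj a b → J'.Adj a w → J'.Adj b w → w ∈ range γ)
    (m : Mode) {K : Set X} (h : Rule m J K) : Rule m J' (γ '' K) := by
  cases m
  · trivial
  · trivial
  · rintro _ ⟨t, htK, rfl⟩ C hd hC hc _ ⟨⟨a, haK, rfl⟩, hta, x, hx, hax⟩
      _ ⟨⟨a', haK', rfl⟩, hta', x', hx', hax'⟩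
    have hxr : x ∈ range γ :=
      ht _ (mem_range_self t) _ (mem_range_self a) x hta (hC x hx) hax
    have hCr : C ⊆ range γ := hc.sub hx hxr fun y hy y' hy' hyr e =>
      ht _ (mem_range_self t) _ hyr y' (hC y hy) (hC y' hy') e
    obtain ⟨k, h1, h2, -⟩ := exists_pull' (J := J) (J' := J') hi (fun x y e => (ha x y).1 e) hCr
      ⟨x, hx⟩
    have hcc : ConnOn J.Adj (γ ⁻¹' C) := h2 ▸ hc.map h1
    obtain ⟨y, rfl⟩ := hxr
    obtain ⟨y', rfl⟩ := hCr hx'
    have := h t htK (γ ⁻¹' C)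
      (disjoint_left.2 fun u hu huK => disjoint_left.1 hd hu (mem_image_of_mem γ huK))
      (fun u hu => (ha _ _).1 (hC _ hu)) hcc
      (show a ∈ _ from ⟨haK, (ha _ _).1 hta, y, hx, (ha _ _).1 hax⟩)
      (show a' ∈ _ from ⟨haK', (ha _ _).1 hta', y', hx', (ha _ _).1 hax'⟩)
    rw [this]
  · rintro _ ⟨a, haK, rfl⟩ _ ⟨b, hbK, rfl⟩ w h1 h2 h3
    obtain ⟨y, rfl⟩ := ht _ (mem_range_self a) _ (mem_range_self b) w h1 h2 h3
    exact mem_image_of_mem γ (h a haK b hbK y ((ha _ _).1 h1) ((ha _ _).1 h2) ((ha _ _).1 h3))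

end

theorem blueLift_stmt (hK3 : K3Stmt) (hCone : ConeStmt) (hTwoNb : TwoNbStmt) (hRPG : RPGStmt)
    (hLoc : LocStmt) (hPullB : PullBStmt) : BlueLiftStmt := by
  intro W U X V Z L _ _ _ _ _ _ H P hP m hm A E Γ RΓ Hub G R Gs Bs g B φ K s hA hB hdeg hg hL hCols
    hG hφ
  have hc := hL.core
  have hg1 : 1 ≤ g := by
    obtain ⟨h1, h2, h3, -⟩ := (hK3 W W H P hP).1
    omega
  have hadj : ∀ γ ∈ Gs, ∀ a b, (G \ R).Adj (γ a) (γ b) ↔ (Γ \ RΓ).Adj a b :=
    fun γ hγ a b => hc.ccol hγ false a b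
  have hpull : ∀ γ ∈ Gs, ∀ O, BO P H m B O → φ '' O ⊆ range γ →
      BO P H m (Γ \ RΓ) (γ ⁻¹' (φ '' O)) ∧ Shape m (Γ \ RΓ) (γ ⁻¹' (φ '' O)) := by
    intro γ hγ O hO hs
    obtain ⟨k, h1, h2, -⟩ := exists_pull' (J := Γ \ RΓ) (J' := G \ R) (hc.gind γ hγ).inj
      (fun x y e => (hadj γ hγ x y).1 e) hs (hO.two.nonempty.image φ)
    rw [← h2]
    exact ⟨(hO.map (hφ.on O)).map h1, ((hCone W Z H P hP m hm B hB O hO).1.map (hφ.on O)).map h1⟩
  have hloc : ∀ O, BO P H m B O → ∃ γ ∈ Gs, φ '' O ⊆ range γ := by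
    intro O hO
    have h0 := hLoc W U X V H P hP A E Γ RΓ Hub G R Gs Bs g false hA hg hL (φ '' O)
    have h1 := hO.map (hφ.on O)
    have h2 := (hCone W Z H P hP m hm B hB O hO).2
    cases m
    · exact h0.1 hCols.2 h1
    · exact h0.1 hCols.2 h1
    · exact h0.2.1 hCols.2 h1 ((h2 rfl).map (hφ.on O))
    · exact h0.1 hCols.2 h1
  refine hPullB W Z V (Gs × L) H P m B (G \ R) φ (fun z => z.1.1 '' K z.2) s hφ ?_ ?_ ?_ ?_ ?_
  · intro O hO
    obtain ⟨γ, hγ, hs⟩ := hloc O hO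
    obtain ⟨h1, h2⟩ := hpull γ hγ O hO hs
    obtain ⟨l, hl⟩ := hG.cov _ h1 h2
    refine ⟨(⟨γ, hγ⟩, l), fun x hx => ?_⟩
    obtain ⟨y, rfl⟩ := hs hx
    exact mem_image_of_mem γ (hl hx)
  · have := hRPG U X V L A Γ RΓ Hub G R Gs Bs g false K False ∅ hc hG.rp (range φ)
      (by
        rw [← image_univ, hφ.1.injOn.ncard_image]
        exact (ncard_le_card _).trans (hB.card_le.trans hg))
      (by
        rintro _ ⟨z, rfl⟩
        obtain ⟨z', e⟩ := hdeg z
        exact ⟨φ z', (hφ.2 _ _ e).1⟩)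
      (fun _ _ _ h => h.elim)
    have e : {r | False ∧ r ∈ range φ} = (∅ : Set V) := by simp
    rw [e] at this
    exact this
  · rintro ⟨⟨γ, hγ⟩, l⟩ ⟨⟨γ', hγ'⟩, l'⟩ hne
    refine disjoint_left.2 ?_
    rintro _ ⟨x, hx, rfl⟩ ⟨x', hx', e⟩
    obtain rfl : γ = γ' := hc.eq_of_mem hγ hγ' (mem_range_self x) ⟨x', e⟩
    obtain rfl : x' = x := (hc.gind γ hγ).inj e
    exact disjoint_left.1 (hG.dis l l' fun e => hne (by rw [e])) hx hx'
  · rintro ⟨⟨γ, hγ⟩, l⟩
    refine xbluelift_rule (hc.gind γ hγ).inj (hadj γ hγ) ?_ m (hG.rule l)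
    intro a ha b hb w h1 h2 h3
    by_contra hw
    exact h1.2 (hTwoNb U V A G R _ Bs g hg1 hc.pre false (range γ) (mem_image_of_mem range hγ) w hw
      a ha b hb h1.ne h2.symm h3.symm)
  · rintro ⟨⟨γ, hγ⟩, l⟩
    refine ⟨γ '' BW (BO P H m (Γ \ RΓ)) (K l), ?_, fun O hO hs x hx => ?_⟩
    · rw [(hc.gind γ hγ).inj.injOn.ncard_image]
      exact hG.wt l
    · obtain ⟨y, -, rfl⟩ := hs hx
      refine mem_image_of_mem γ ⟨_, (hpull γ hγ O hO (hs.trans (image_subset_range _ _))).1,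
        fun u hu => ?_, hx⟩
      obtain ⟨u', hu', e⟩ := hs hu
      rw [← (hc.gind γ hγ).inj e]
      exact hu'

end Pool.Agent.MP_1c0fc2_co.RE

end

section

/-! Counting lemmas for chains of finite sets. -/

namespace Pool.Agent.MP_1c0fc2_co

open Finset Nat

variable {V : Type} [DecidableEq V]

theorem sum_fact (R : Finset V) (a b : ℕ) :
    (∑ E ∈ R.powerset, (a + E.card)! * (b + (R.card - E.card))!) * (a + b + 1)! =
      (a + b + R.card + 1)! * a ! * b ! := by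
  induction R using Finset.induction_on generalizing a b with
  | empty => simp; ring
  | insert x R hx ih =>
    rw [Finset.sum_powerset_insert hx, card_insert_of_notMem hx]
    have h1 : ∑ E ∈ R.powerset, (a + E.card)! * (b + (R.card + 1 - E.card))! =
        ∑ E ∈ R.powerset, (a + E.card)! * (b + 1 + (R.card - E.card))! := by
      refine sum_congr rfl fun E hE => ?_
      have := card_le_card (mem_powerset.1 hE)
      congr 2
      omega
    have h2 : ∑ E ∈ R.powerset, (a + (insert x E).card)! * (b + (R.card + 1 - (insert x E).card))! =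
        ∑ E ∈ R.powerset, (a + 1 + E.card)! * (b + (R.card - E.card))! := by
      refine sum_congr rfl fun E hE => ?_
      have hxE : x ∉ E := fun h => hx (mem_powerset.1 hE h)
      rw [card_insert_of_notMem hxE]
      congr 2 <;> omega
    rw [h1, h2]
    have e1 := ih a (b + 1)
    have e2 := ih (a + 1) b
    have hpos : 0 < a + b + 2 := by omega
    apply Nat.eq_of_mul_eq_mul_left hpos
    rw [show a + (b + 1) + 1 = (a + b + 1) + 1 by ring, Nat.factorial_succ (a + b + 1),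
      show a + (b + 1) + R.card + 1 = a + b + (R.card + 1) + 1 by ring,
      Nat.factorial_succ b] at e1
    rw [show a + 1 + b + 1 = (a + b + 1) + 1 by ring, Nat.factorial_succ (a + b + 1),
      show a + 1 + b + R.card + 1 = a + b + (R.card + 1) + 1 by ring,
      Nat.factorial_succ a] at e2
    generalize (∑ E ∈ R.powerset, (a + E.card)! * (b + 1 + (R.card - E.card))!) = X at *
    generalize (∑ E ∈ R.powerset, (a + 1 + E.card)! * (b + (R.card - E.card))!) = Y at *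
    generalize (a + b + (R.card + 1) + 1)! = P at *
    calc (a + b + 2) * ((X + Y) * (a + b + 1)!)
        = X * ((a + b + 1 + 1) * (a + b + 1)!) + Y * ((a + b + 1 + 1) * (a + b + 1)!) := by ring
      _ = _ := by rw [e1, e2]; ring

open Classical in
/-- Number of orderings of `D` in which `p` first holds at the very end. -/
noncomputable def cc (p : Finset V → Prop) (D : Finset V) : ℕ :=
  (if D = ∅ ∧ p D then 1 else 0) +
    ∑ x ∈ D, if p D ∧ ¬ p (D.erase x) then (D.card - 1)! else 0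

theorem cc_pos {p : Finset V → Prop} {D : Finset V} (h : cc p D ≠ 0) : p D := by
  by_contra hp
  apply h
  simp [cc, hp]

open Classical in
theorem lym (p : Finset V → Prop) (hp : ∀ A B, A ⊆ B → p A → p B) (R : Finset V) :
    ∑ D ∈ R.powerset, cc p D * (R.card - D.card)! = if p R then R.card ! else 0 := by
  induction R using Finset.strongInduction with
  | H R ih =>
    have h1 : ∀ D ∈ R.powerset, cc p D * (R.card - D.card)! =
        (if D = R then cc p R else 0) +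
          ∑ x ∈ R, if x ∉ D then cc p D * (R.card - 1 - D.card)! else 0 := by
      intro D hD
      have hDR := mem_powerset.1 hD
      by_cases h : D = R
      · subst h
        rw [sum_eq_zero (fun x hx => by simp [hx])]
        simp
      · have hlt : D.card < R.card := card_lt_card (hDR.ssubset_of_ne h)
        rw [if_neg h, zero_add, ← sum_filter, sum_const, smul_eq_mul, ← sdiff_eq_filter,
          card_sdiff_of_subset hDR]
        obtain ⟨m, hm⟩ : ∃ m, R.card = D.card + (m + 1) := ⟨R.card - D.card - 1, by omega⟩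
        rw [hm, show D.card + (m + 1) - D.card = m + 1 by omega,
          show D.card + (m + 1) - 1 - D.card = m by omega, Nat.factorial_succ]
        ring
    rw [sum_congr rfl h1, sum_add_distrib, sum_ite_eq' R.powerset R, if_pos (mem_powerset_self R),
      sum_comm]
    have h2 : ∀ x ∈ R, (∑ D ∈ R.powerset,
        if x ∉ D then cc p D * (R.card - 1 - D.card)! else 0) =
        if p (R.erase x) then (R.card - 1)! else 0 := by
      intro x hx
      have := ih (R.erase x) (erase_ssubset hx)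
      rw [card_erase_of_mem hx] at this
      rw [← this, ← sum_filter]
      refine sum_congr ?_ fun _ _ => rfl
      ext D
      simp [subset_erase]
    rw [sum_congr rfl h2, cc, add_assoc, ← sum_add_distrib]
    by_cases hR : p R
    · rw [if_pos hR]
      have h3 : ∀ x ∈ R, ((if p R ∧ ¬ p (R.erase x) then (R.card - 1)! else 0) +
          if p (R.erase x) then (R.card - 1)! else 0) = (R.card - 1)! := by
        intro x _
        by_cases hx : p (R.erase x) <;> simp [hx, hR]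
      rw [sum_congr rfl h3, sum_const, smul_eq_mul]
      by_cases he : R = ∅
      · subst he
        simp [hR]
      · have : 0 < R.card := card_pos.2 (nonempty_iff_ne_empty.2 he)
        rw [if_neg (fun h => he h.1), zero_add, Nat.mul_factorial_pred (by omega)]
    · rw [if_neg hR, if_neg (fun h => hR h.2), zero_add]
      refine sum_eq_zero fun x _ => ?_
      have : ¬ p (R.erase x) := fun h => hR (hp _ _ (erase_subset _ _) h)
      simp [this, hR]

open Classical in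
/-- Every maximal chain crosses a monotone property at most once. -/
theorem cross_le (p : Finset V → Prop) (hp : ∀ A B, A ⊆ B → p A → p B) (R : Finset V) :
    ∑ x ∈ R, ∑ A ∈ (R.erase x).powerset,
      (if ¬ p A ∧ p (insert x A) then A.card ! * (R.card - 1 - A.card)! else 0) ≤
        if p R then R.card ! else 0 := by
  rw [← lym p hp R]
  have h1 : ∀ x ∈ R, ∑ A ∈ (R.erase x).powerset,
      (if ¬ p A ∧ p (insert x A) then A.card ! * (R.card - 1 - A.card)! else 0) =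
      ∑ D ∈ R.powerset, if x ∈ D then
        (if p D ∧ ¬ p (D.erase x) then (D.card - 1)! else 0) * (R.card - D.card)! else 0 := by
    intro x hx
    rw [← sum_filter (fun D => x ∈ D)]
    refine sum_bij' (fun A _ => insert x A) (fun D _ => D.erase x) ?_ ?_ ?_ ?_ ?_
    · intro A hA
      have := subset_erase.1 (mem_powerset.1 hA)
      simp [insert_subset_iff, hx, this.1]
    · intro D hD
      simp only [mem_filter, mem_powerset] at hD ⊢
      exact erase_subset_erase _ hD.1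
    · intro A hA
      exact erase_insert (subset_erase.1 (mem_powerset.1 hA)).2
    · intro D hD
      exact insert_erase (mem_filter.1 hD).2
    · intro A hA
      have hxA := (subset_erase.1 (mem_powerset.1 hA)).2
      rw [erase_insert hxA, card_insert_of_notMem hxA]
      by_cases h : ¬ p A ∧ p (insert x A)
      · rw [if_pos h, if_pos ⟨h.2, h.1⟩]
        congr 2
        omega
      · rw [if_neg h, if_neg (fun h' => h ⟨h'.2, h'.1⟩), zero_mul]
  rw [sum_congr rfl h1, sum_comm]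
  refine sum_le_sum fun D hD => ?_
  rw [← sum_filter, cc, add_mul, sum_mul]
  refine le_add_left (le_of_eq (sum_congr ?_ fun _ _ => rfl))
  ext x
  simp only [mem_filter, and_iff_right_iff_imp]
  exact fun h => mem_powerset.1 hD h

open Classical in
/-- The block-moving injection. -/
theorem glue_le (q p₁ p₂ : Finset V → Prop) (hp : ∀ A B, A ⊆ B → p₁ A → p₁ B)
    (h : ∀ A D, D ⊆ A → p₁ D → p₂ (A \ D) → q A) (R : Finset V) :
    ∑ A ∈ R.powerset, (if ¬ q A then A.card ! * (R.card - A.card)! else 0) ≤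
      ∑ A ∈ R.powerset, (if ¬ p₁ A then A.card ! * (R.card - A.card)! else 0) +
      ∑ A ∈ R.powerset, (if ¬ p₂ A then A.card ! * (R.card - A.card)! else 0) := by
  have h1 : ∀ A ∈ R.powerset, (if ¬ q A then A.card ! * (R.card - A.card)! else 0) ≤
      (if ¬ p₁ A then A.card ! * (R.card - A.card)! else 0) +
      ∑ D ∈ A.powerset, if ¬ p₂ (A \ D) then
        cc p₁ D * (A \ D).card ! * (R.card - A.card)! else 0 := by
    intro A _
    by_cases hq : q A
    · simp [hq]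
    by_cases h₁ : p₁ A
    · have := lym p₁ hp A
      rw [if_pos h₁] at this
      rw [if_pos hq, if_neg (not_not.2 h₁), zero_add, ← this, sum_mul]
      refine sum_le_sum fun D hD => ?_
      have hDA := mem_powerset.1 hD
      by_cases hc : cc p₁ D = 0
      · simp [hc]
      · rw [if_pos (fun h₂ => hq (h A D hDA (cc_pos hc) h₂)), card_sdiff_of_subset hDA]
    · simp [hq, h₁]
  refine (sum_le_sum h1).trans ?_
  rw [sum_add_distrib]
  refine Nat.add_le_add_left ?_ _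
  have h2 : ∀ B ∈ R.powerset, (∑ D ∈ (R \ B).powerset, if ¬ p₂ B then
        cc p₁ D * B.card ! * (R.card - B.card - D.card)! else 0) ≤
      if ¬ p₂ B then B.card ! * (R.card - B.card)! else 0 := by
    intro B hB
    by_cases h₂ : p₂ B
    · simp [h₂]
    · simp only [h₂, not_false_eq_true, if_true]
      have := lym p₁ hp (R \ B)
      rw [card_sdiff_of_subset (mem_powerset.1 hB)] at this
      have h3 : ∑ D ∈ (R \ B).powerset, cc p₁ D * (R.card - B.card - D.card)! ≤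
          (R.card - B.card)! := by
        rw [this]
        split_ifs <;> simp
      calc _ = B.card ! * ∑ D ∈ (R \ B).powerset, cc p₁ D * (R.card - B.card - D.card)! := by
            rw [mul_sum]
            exact sum_congr rfl fun _ _ => by ring
        _ ≤ _ := Nat.mul_le_mul_left _ h3
  refine le_trans (le_of_eq ?_) (sum_le_sum h2)
  rw [sum_sigma', sum_sigma']
  refine sum_bij' (fun z _ => ⟨z.1 \ z.2, z.2⟩) (fun z _ => ⟨z.1 ∪ z.2, z.2⟩) ?_ ?_ ?_ ?_ ?_
  · rintro ⟨A, D⟩ hz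
    simp only [mem_sigma, mem_powerset] at hz ⊢
    refine ⟨sdiff_subset.trans hz.1, fun x hx => ?_⟩
    simp [hz.1 (hz.2 hx), hx]
  · rintro ⟨B, D⟩ hz
    simp only [mem_sigma, mem_powerset] at hz ⊢
    exact ⟨union_subset hz.1 (hz.2.trans sdiff_subset), subset_union_right⟩
  · rintro ⟨A, D⟩ hz
    simp only [mem_sigma, mem_powerset] at hz
    simp [sdiff_union_of_subset hz.2]
  · rintro ⟨B, D⟩ hz
    simp only [mem_sigma, mem_powerset] at hz
    have : Disjoint B D := by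
      rw [disjoint_right]
      intro x hx
      exact (mem_sdiff.1 (hz.2 hx)).2
    simp [union_sdiff_cancel_right this]
  · rintro ⟨A, D⟩ hz
    simp only [mem_sigma, mem_powerset] at hz
    have e1 := card_sdiff_of_subset hz.2
    have e2 := card_le_card hz.2
    have e3 : R.card - (A \ D).card - D.card = R.card - A.card := by omega
    simp only [e3]

end Pool.Agent.MP_1c0fc2_co

end

section

/-! Rooted trees built by grafting and gluing, and their copies in graphs. -/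

namespace Pool.Agent.MP_1c0fc2_co

open Finset

/-- Abstract rooted trees. -/
inductive RT : Type
  | point : RT
  | graft : RT → RT
  | glue : RT → RT → RT

/-- Number of edges. -/
def RT.size : RT → ℕ
  | .point => 0
  | .graft S => S.size + 1
  | .glue S₁ S₂ => S₁.size + S₂.size

/-- All vertices are adjacent to the root. -/
def RT.flat : RT → Prop
  | .point => True
  | .graft S => S.size = 0
  | .glue S₁ S₂ => S₁.flat ∧ S₂.flat

/-- Occurrence in the construction tree. -/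
inductive RT.Sub (S₀ : RT) : RT → Prop
  | refl : RT.Sub S₀ S₀
  | graft {S : RT} : RT.Sub S₀ S → RT.Sub S₀ (.graft S)
  | left {S₁ S₂ : RT} : RT.Sub S₀ S₁ → RT.Sub S₀ (.glue S₁ S₂)
  | right {S₁ S₂ : RT} : RT.Sub S₀ S₂ → RT.Sub S₀ (.glue S₁ S₂)

theorem exists_broom {S : RT} (h : ¬ S.flat) :
    ∃ S₁ : RT, S₁.flat ∧ 1 ≤ S₁.size ∧ RT.Sub (.graft S₁) S := by
  induction S with
  | point => exact absurd trivial h
  | graft S ih =>
    by_cases hS : S.flat
    · exact ⟨S, hS, Nat.one_le_iff_ne_zero.2 h, .refl⟩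
    · obtain ⟨S₁, h1, h2, h3⟩ := ih hS
      exact ⟨S₁, h1, h2, h3.graft⟩
  | glue S₁ S₂ ih₁ ih₂ =>
    by_cases hS : S₁.flat
    · obtain ⟨S₃, h1, h2, h3⟩ := ih₂ (fun h' => h ⟨hS, h'⟩)
      exact ⟨S₃, h1, h2, h3.right⟩
    · obtain ⟨S₃, h1, h2, h3⟩ := ih₁ hS
      exact ⟨S₃, h1, h2, h3.left⟩

variable {V : Type} [DecidableEq V]

/-- A copy of a rooted tree with given root image and vertex set. -/
def Copy (G : SimpleGraph V) : RT → V → Finset V → Prop
  | .point, v, W => W = {v}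
  | .graft S, v, W => ∃ c W', G.Adj v c ∧ Copy G S c W' ∧ v ∉ W' ∧ W = insert v W'
  | .glue S₁ S₂, v, W => ∃ W₁ W₂, Copy G S₁ v W₁ ∧ Copy G S₂ v W₂ ∧
      (∀ y ∈ W₁, y ∈ W₂ → y = v) ∧ W = W₁ ∪ W₂

variable {G : SimpleGraph V}

theorem Copy.mem {S : RT} {v : V} {W : Finset V} (h : Copy G S v W) : v ∈ W := by
  induction S generalizing v W with
  | point => rw [h]; simp
  | graft S _ =>
    obtain ⟨c, W', -, -, -, rfl⟩ := h
    simp
  | glue S₁ S₂ ih₁ _ =>
    obtain ⟨W₁, W₂, h1, -, -, rfl⟩ := h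
    exact mem_union_left _ (ih₁ h1)

theorem Copy.card {S : RT} {v : V} {W : Finset V} (h : Copy G S v W) : W.card = S.size + 1 := by
  induction S generalizing v W with
  | point => rw [h]; simp [RT.size]
  | graft S ih =>
    obtain ⟨c, W', -, h1, h2, rfl⟩ := h
    rw [card_insert_of_notMem h2, ih h1, RT.size]
  | glue S₁ S₂ ih₁ ih₂ =>
    obtain ⟨W₁, W₂, h1, h2, h3, rfl⟩ := h
    have h4 : W₁ ∩ W₂ = {v} := by
      ext y
      simp only [mem_inter, mem_singleton]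
      exact ⟨fun h => h3 y h.1 h.2, fun h => h ▸ ⟨h1.mem, h2.mem⟩⟩
    have := card_union_add_card_inter W₁ W₂
    rw [h4, card_singleton, ih₁ h1, ih₂ h2] at this
    rw [RT.size]
    omega

theorem copy_size_zero {S : RT} (h : S.size = 0) (v : V) : Copy G S v {v} := by
  induction S with
  | point => rfl
  | graft S _ => simp [RT.size] at h
  | glue S₁ S₂ ih₁ ih₂ =>
    rw [RT.size] at h
    exact ⟨{v}, {v}, ih₁ (by omega), ih₂ (by omega), by simp, by simp⟩

theorem Copy.adj_of_flat {S : RT} (hS : S.flat) {c : V} {W : Finset V} (h : Copy G S c W) :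
    ∀ y ∈ W, y ≠ c → G.Adj c y := by
  induction S generalizing W with
  | point => rw [h]; simp
  | graft S _ =>
    obtain ⟨d, W', h0, h1, -, rfl⟩ := h
    have h2 := h1.card
    rw [show S.size = 0 from hS] at h2
    obtain ⟨a, rfl⟩ := card_eq_one.1 h2
    have := h1.mem
    intro y hy hyc
    simp only [mem_singleton, mem_insert] at this hy
    rcases hy with rfl | rfl
    · exact absurd rfl hyc
    · exact this ▸ h0
  | glue S₁ S₂ ih₁ ih₂ =>
    obtain ⟨W₁, W₂, h1, h2, -, rfl⟩ := h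
    intro y hy hyc
    rcases mem_union.1 hy with hy | hy
    · exact ih₁ hS.1 h1 y hy hyc
    · exact ih₂ hS.2 h2 y hy hyc

theorem copy_of_flat {S : RT} (hS : S.flat) {c : V} {W : Finset V} (hc : c ∉ W)
    (hW : W.card = S.size) (hadj : ∀ y ∈ W, G.Adj c y) : Copy G S c (insert c W) := by
  induction S generalizing W with
  | point =>
    rw [card_eq_zero.1 hW]
    rfl
  | graft S _ =>
    rw [RT.size, show S.size = 0 from hS] at hW
    obtain ⟨a, rfl⟩ := card_eq_one.1 hW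
    exact ⟨a, {a}, hadj a (by simp), copy_size_zero hS a, hc, rfl⟩
  | glue S₁ S₂ ih₁ ih₂ =>
    rw [RT.size] at hW
    obtain ⟨W₁, h1, h2⟩ := exists_subset_card_eq (s := W) (n := S₁.size) (by omega)
    refine ⟨insert c W₁, insert c (W \ W₁), ih₁ hS.1 (fun h => hc (h1 h)) h2
      (fun y hy => hadj y (h1 hy)), ih₂ hS.2 (fun h => hc (mem_sdiff.1 h).1) ?_
      (fun y hy => hadj y (mem_sdiff.1 hy).1), ?_, ?_⟩
    · rw [card_sdiff_of_subset h1]
      omega
    · intro y hy hy'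
      simp only [mem_insert, mem_sdiff] at hy hy'
      tauto
    · ext y
      have := @h1 y
      simp only [mem_insert, mem_union, mem_sdiff]
      tauto

theorem copy_of_clique (S : RT) {Q : Finset V} (hQ : ∀ y ∈ Q, ∀ z ∈ Q, y ≠ z → G.Adj y z)
    {v : V} (hv : v ∈ Q) (hc : S.size + 1 ≤ Q.card) : ∃ W ⊆ Q, Copy G S v W := by
  induction S generalizing v Q with
  | point => exact ⟨{v}, by simpa, rfl⟩
  | graft S ih =>
    rw [RT.size] at hc
    have h1 : (Q.erase v).card = Q.card - 1 := card_erase_of_mem hv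
    obtain ⟨c, hc'⟩ : (Q.erase v).Nonempty := card_pos.1 (by omega)
    obtain ⟨W, hW, hcopy⟩ := ih (Q := Q.erase v)
      (fun y hy z hz => hQ y (mem_of_mem_erase hy) z (mem_of_mem_erase hz)) hc' (by omega)
    refine ⟨insert v W, insert_subset hv (hW.trans (erase_subset _ _)), c, W,
      hQ v hv c (mem_of_mem_erase hc') (ne_of_mem_erase hc').symm, hcopy, ?_, rfl⟩
    exact fun h => notMem_erase v Q (hW h)
  | glue S₁ S₂ ih₁ ih₂ =>
    rw [RT.size] at hc
    obtain ⟨W₁, hW₁, h1⟩ := ih₁ hQ hv (by omega)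
    have e1 := h1.card
    have e2 : (W₁.erase v).card = W₁.card - 1 := card_erase_of_mem h1.mem
    have e3 := card_sdiff_of_subset ((erase_subset v W₁).trans hW₁)
    obtain ⟨W₂, hW₂, h2⟩ := ih₂ (Q := Q \ W₁.erase v) (v := v)
      (fun y hy z hz => hQ y (mem_sdiff.1 hy).1 z (mem_sdiff.1 hz).1) (by simp [hv]) (by omega)
    refine ⟨W₁ ∪ W₂, union_subset hW₁ (hW₂.trans sdiff_subset), W₁, W₂, h1, h2, ?_, rfl⟩
    intro y hy hy'
    have := (mem_sdiff.1 (hW₂ hy')).2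
    by_contra hne
    exact this (mem_erase.2 ⟨hne, hy⟩)

variable {α : Type} [DecidableEq α]

/-- `S` describes the subgraph of `T` induced on `A`, rooted at `r`. -/
def Rep (T : SimpleGraph α) : RT → α → Finset α → Prop
  | .point, r, A => A = {r}
  | .graft S, r, A => ∃ c A', T.Adj r c ∧ Rep T S c A' ∧ r ∉ A' ∧
      (∀ a ∈ A', T.Adj r a → a = c) ∧ A = insert r A'
  | .glue S₁ S₂, r, A => ∃ A₁ A₂, Rep T S₁ r A₁ ∧ Rep T S₂ r A₂ ∧
      (∀ y ∈ A₁, y ∈ A₂ → y = r) ∧ (∀ a ∈ A₁, ∀ b ∈ A₂, T.Adj a b → a = r ∨ b = r) ∧ A = A₁ ∪ A₂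

variable {T : SimpleGraph α}

theorem Rep.copy {S : RT} {r : α} {A : Finset α} (h : Rep T S r A) : Copy T S r A := by
  induction S generalizing r A with
  | point => exact h
  | graft S ih =>
    obtain ⟨c, A', h1, h2, h3, -, rfl⟩ := h
    exact ⟨c, A', h1, ih h2, h3, rfl⟩
  | glue S₁ S₂ ih₁ ih₂ =>
    obtain ⟨A₁, A₂, h1, h2, h3, -, rfl⟩ := h
    exact ⟨A₁, A₂, ih₁ h1, ih₂ h2, h3, rfl⟩

theorem Rep.embed {S : RT} {r : α} {A : Finset α} (h : Rep T S r A) {v : V} {W : Finset V}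
    (hc : Copy G S v W) : ∃ f : α → V, f r = v ∧ (∀ a ∈ A, f a ∈ W) ∧
      (∀ a ∈ A, ∀ b ∈ A, f a = f b → a = b) ∧
      ∀ a ∈ A, ∀ b ∈ A, T.Adj a b → G.Adj (f a) (f b) := by
  induction S generalizing r A v W with
  | point =>
    rw [h, hc]
    exact ⟨fun _ => v, rfl, by simp, by simp, by simp⟩
  | graft S ih =>
    obtain ⟨c, A', h1, h2, h3, h4, rfl⟩ := h
    obtain ⟨c', W', g1, g2, g3, rfl⟩ := hc
    obtain ⟨f, f1, f2, f3, f4⟩ := ih h2 g2
    have hf : ∀ a ∈ A', Function.update f r v a = f a := fun a ha =>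
      Function.update_of_ne (by rintro rfl; exact h3 ha) _ _
    refine ⟨Function.update f r v, by simp, ?_, ?_, ?_⟩
    · intro a ha
      rcases mem_insert.1 ha with rfl | ha
      · simp
      · rw [hf a ha]
        exact mem_insert_of_mem (f2 a ha)
    · intro a ha b hb hab
      rcases mem_insert.1 ha with ea | ha' <;> rcases mem_insert.1 hb with eb | hb'
      · rw [ea, eb]
      · rw [hf b hb', ea, Function.update_self] at hab
        exact absurd (hab ▸ f2 b hb') g3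
      · rw [hf a ha', eb, Function.update_self] at hab
        exact absurd (hab ▸ f2 a ha') g3
      · rw [hf a ha', hf b hb'] at hab
        exact f3 a ha' b hb' hab
    · intro a ha b hb hab
      rcases mem_insert.1 ha with ea | ha' <;> rcases mem_insert.1 hb with eb | hb'
      · rw [ea, eb] at hab
        exact absurd hab (T.irrefl)
      · rw [hf b hb', ea, Function.update_self, h4 b hb' (ea ▸ hab), f1]
        exact g1
      · rw [hf a ha', eb, Function.update_self, h4 a ha' (eb ▸ hab.symm), f1]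
        exact g1.symm
      · rw [hf a ha', hf b hb']
        exact f4 a ha' b hb' hab
  | glue S₁ S₂ ih₁ ih₂ =>
    obtain ⟨A₁, A₂, h1, h2, h3, h4, rfl⟩ := h
    obtain ⟨W₁, W₂, g1, g2, g3, rfl⟩ := hc
    obtain ⟨f, f1, f2, f3, f4⟩ := ih₁ h1 g1
    obtain ⟨e, e1, e2, e3, e4⟩ := ih₂ h2 g2
    have hr₁ := h1.copy.mem
    have hr₂ := h2.copy.mem
    have k1 : ∀ a ∈ A₁, (if a ∈ A₁ then f a else e a) = f a := fun a ha => if_pos ha
    have k2 : ∀ a ∈ A₂, (if a ∈ A₁ then f a else e a) = e a := by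
      intro a ha
      split_ifs with h
      · rw [h3 a h ha, f1, e1]
      · rfl
    have k3 : ∀ a ∈ A₁, ∀ b ∈ A₂, f a = e b → a = b := by
      intro a ha b hb hab
      have hv : f a = v := g3 _ (f2 a ha) (hab ▸ e2 b hb)
      rw [f3 a ha r hr₁ (hv.trans f1.symm), e3 b hb r hr₂ ((hab.symm.trans hv).trans e1.symm)]
    have k4 : ∀ a ∈ A₁, ∀ b ∈ A₂, T.Adj a b → G.Adj (f a) (e b) := by
      intro a ha b hb hab
      rcases h4 a ha b hb hab with rfl | rfl
      · rw [f1, ← e1]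
        exact e4 a hr₂ b hb hab
      · rw [e1, ← f1]
        exact f4 a ha b hr₁ hab
    obtain ⟨g, k1, k2⟩ : ∃ g : α → V, (∀ a ∈ A₁, g a = f a) ∧ ∀ a ∈ A₂, g a = e a :=
      ⟨fun a => if a ∈ A₁ then f a else e a, k1, k2⟩
    refine ⟨g, by rw [k1 r hr₁, f1], ?_, ?_, ?_⟩
    · intro a ha
      rcases mem_union.1 ha with ha | ha
      · rw [k1 a ha]
        exact mem_union_left _ (f2 a ha)
      · rw [k2 a ha]
        exact mem_union_right _ (e2 a ha)
    · intro a ha b hb hab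
      rcases mem_union.1 ha with ha | ha <;> rcases mem_union.1 hb with hb | hb
      · rw [k1 a ha, k1 b hb] at hab
        exact f3 a ha b hb hab
      · rw [k1 a ha, k2 b hb] at hab
        exact k3 a ha b hb hab
      · rw [k2 a ha, k1 b hb] at hab
        exact (k3 b hb a ha hab.symm).symm
      · rw [k2 a ha, k2 b hb] at hab
        exact e3 a ha b hb hab
    · intro a ha b hb hab
      rcases mem_union.1 ha with ha | ha <;> rcases mem_union.1 hb with hb | hb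
      · rw [k1 a ha, k1 b hb]
        exact f4 a ha b hb hab
      · rw [k1 a ha, k2 b hb]
        exact k4 a ha b hb hab
      · rw [k2 a ha, k1 b hb]
        exact (k4 b hb a ha hab.symm).symm
      · rw [k2 a ha, k2 b hb]
        exact e4 a ha b hb hab

theorem Rep.add_root_leaf {S : RT} {r l : α} {A : Finset α} (h : Rep T S r A) (hl : l ∉ A)
    (hadj : T.Adj r l) (huniq : ∀ a ∈ A, T.Adj l a → a = r) :
    ∃ S', Rep T S' r (insert l A) := by
  have hr := h.copy.mem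
  refine ⟨.glue S (.graft .point), A, {r, l}, h, ⟨l, {l}, hadj, rfl, ?_, by simp, rfl⟩, ?_, ?_, ?_⟩
  · simpa using hadj.ne
  · intro y hy hy'
    simp only [mem_insert, mem_singleton] at hy'
    rcases hy' with rfl | rfl
    · rfl
    · exact absurd hy hl
  · intro a ha b hb hab
    simp only [mem_insert, mem_singleton] at hb
    rcases hb with rfl | rfl
    · exact Or.inr rfl
    · exact Or.inl (huniq a ha hab.symm)
  · ext y
    simp only [mem_insert, mem_union, mem_singleton]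
    constructor
    · tauto
    · rintro (h | rfl | h)
      · exact Or.inr h
      · exact Or.inr hr
      · exact Or.inl h

theorem Rep.add_leaf {S : RT} {r u l : α} {A : Finset α} (h : Rep T S r A) (hu : u ∈ A)
    (hl : l ∉ A) (hadj : T.Adj u l) (huniq : ∀ a ∈ A, T.Adj l a → a = u) :
    ∃ S', Rep T S' r (insert l A) := by
  induction S generalizing r A with
  | point =>
    have : u = r := by
      rw [show A = {r} from h] at hu
      simpa using hu
    subst this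
    exact h.add_root_leaf hl hadj huniq
  | graft S ih =>
    by_cases hur : u = r
    · subst hur
      exact h.add_root_leaf hl hadj huniq
    obtain ⟨c, A', h1, h2, h3, h4, rfl⟩ := h
    have hu' : u ∈ A' := (mem_insert.1 hu).resolve_left hur
    obtain ⟨S', hS'⟩ := ih h2 hu' (fun h => hl (mem_insert_of_mem h))
      (fun a ha => huniq a (mem_insert_of_mem ha))
    refine ⟨.graft S', c, insert l A', h1, hS', ?_, ?_, insert_comm _ _ _⟩
    · simp only [mem_insert, not_or] at hl ⊢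
      exact ⟨fun h => hl.1 h.symm, h3⟩
    · intro a ha hra
      rcases mem_insert.1 ha with rfl | ha
      · exact absurd (huniq r (mem_insert_self _ _) hra.symm).symm hur
      · exact h4 a ha hra
  | glue S₁ S₂ ih₁ ih₂ =>
    obtain ⟨A₁, A₂, h1, h2, h3, h4, rfl⟩ := h
    have hl₁ : l ∉ A₁ := fun h => hl (mem_union_left _ h)
    have hl₂ : l ∉ A₂ := fun h => hl (mem_union_right _ h)
    rcases mem_union.1 hu with hu | hu
    · obtain ⟨S', hS'⟩ := ih₁ h1 hu hl₁ (fun a ha => huniq a (mem_union_left _ ha))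
      refine ⟨.glue S' S₂, insert l A₁, A₂, hS', h2, ?_, ?_, (insert_union _ _ _).symm⟩
      · intro y hy hy'
        rcases mem_insert.1 hy with rfl | hy
        · exact absurd hy' hl₂
        · exact h3 y hy hy'
      · intro a ha b hb hab
        rcases mem_insert.1 ha with rfl | ha
        · have := huniq b (mem_union_right _ hb) hab
          exact Or.inr (h3 b (this ▸ hu) hb)
        · exact h4 a ha b hb hab
    · obtain ⟨S', hS'⟩ := ih₂ h2 hu hl₂ (fun a ha => huniq a (mem_union_right _ ha))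
      refine ⟨.glue S₁ S', A₁, insert l A₂, h1, hS', ?_, ?_, (union_insert _ _ _).symm⟩
      · intro y hy hy'
        rcases mem_insert.1 hy' with rfl | hy'
        · exact absurd hy hl₁
        · exact h3 y hy hy'
      · intro a ha b hb hab
        rcases mem_insert.1 hb with rfl | hb
        · have := huniq a (mem_union_left _ ha) hab.symm
          exact Or.inl (h3 a ha (this ▸ hu))
        · exact h4 a ha b hb hab

/-- Any two vertices of `A` are joined by a walk inside `A`. -/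
def Conn (T : SimpleGraph α) (A : Finset α) : Prop :=
  ∀ a ∈ A, ∀ b ∈ A, ∃ p : T.Walk a b, ∀ y ∈ p.support, y ∈ A

theorem uniq_nbr (hT : T.IsAcyclic) {A : Finset α} (hA : Conn T A) {l u : α} (hl : l ∉ A)
    (hu : u ∈ A) (hadj : T.Adj u l) : ∀ a ∈ A, T.Adj l a → a = u := by
  intro a ha hla
  obtain ⟨p, hp⟩ := hA u hu a ha
  by_contra hne
  have hq : (SimpleGraph.Walk.cons hadj (SimpleGraph.Walk.cons hla .nil)).IsPath := by
    simp [hadj.ne, hla.ne, Ne.symm hne]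
  have := (hT.subsingleton_path _ _).elim p.toPath ⟨_, hq⟩
  have hmem : l ∈ (p.toPath : T.Walk u a).support := by
    rw [this]
    simp
  exact hl (hp l (p.support_toPath_subset_support hmem))

theorem Conn.insert {A : Finset α} (hA : Conn T A) {l u : α} (hu : u ∈ A) (hadj : T.Adj u l) :
    Conn T (insert l A) := by
  have key : ∀ b ∈ A, ∃ p : T.Walk l b, ∀ y ∈ p.support, y ∈ Insert.insert l A := by
    intro b hb
    obtain ⟨p, hp⟩ := hA u hu b hb
    refine ⟨.cons hadj.symm p, fun y hy => ?_⟩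
    simp only [SimpleGraph.Walk.support_cons, List.mem_cons] at hy
    rcases hy with rfl | hy
    · simp
    · exact mem_insert_of_mem (hp y hy)
  intro a ha b hb
  rcases mem_insert.1 ha with ea | ha' <;> rcases mem_insert.1 hb with eb | hb'
  · subst ea eb
    exact ⟨.nil, by simp⟩
  · subst ea
    exact key b hb'
  · subst eb
    obtain ⟨p, hp⟩ := key a ha'
    exact ⟨p.reverse, by simpa using hp⟩
  · obtain ⟨p, hp⟩ := hA a ha' b hb'
    exact ⟨p, fun y hy => mem_insert_of_mem (hp y hy)⟩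

omit [DecidableEq α] in
theorem exists_step {A Y : Finset α} (hY : Conn T Y) (hAY : A ⊆ Y) {r : α} (hr : r ∈ A)
    (hlt : A.card < Y.card) : ∃ u ∈ A, ∃ l ∈ Y, l ∉ A ∧ T.Adj u l := by
  obtain ⟨y, hy, hyA⟩ := exists_mem_notMem_of_card_lt_card hlt
  obtain ⟨p, hp⟩ := hY r (hAY hr) y hy
  obtain ⟨d, hd, h1, h2⟩ := p.exists_boundary_dart (A : Set α) hr hyA
  exact ⟨d.fst, h1, d.snd, hp _ (p.dart_snd_mem_support_of_mem_darts hd), h2, d.adj⟩

theorem grow (hT : T.IsAcyclic) {Y : Finset α} (hY : Conn T Y) {r : α} (hr : r ∈ Y) (m : ℕ)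
    (hm : m + 1 ≤ Y.card) :
    ∃ A ⊆ Y, r ∈ A ∧ A.card = m + 1 ∧ Conn T A ∧ ∃ S, Rep T S r A := by
  induction m with
  | zero =>
    refine ⟨{r}, by simpa, by simp, by simp, ?_, .point, rfl⟩
    intro a ha b hb
    rw [mem_singleton] at ha hb
    subst ha hb
    exact ⟨.nil, by simp⟩
  | succ m ih =>
    obtain ⟨A, h1, h2, h3, h4, S, hS⟩ := ih (by omega)
    obtain ⟨u, hu, l, hl, hlA, hadj⟩ := exists_step hY h1 h2 (by omega)
    exact ⟨insert l A, insert_subset hl h1, mem_insert_of_mem h2,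
      by rw [card_insert_of_notMem hlA, h3], h4.insert hu hadj,
      hS.add_leaf hu hlA hadj (uniq_nbr hT h4 hlA hu hadj)⟩

/-- `G` contains a (not necessarily induced) copy of `T`. -/
def Has (G : SimpleGraph V) (T : SimpleGraph α) : Prop :=
  ∃ f : α → V, Function.Injective f ∧ ∀ a b, T.Adj a b → G.Adj (f a) (f b)

/-- The description of a tree minus a leaf. -/
theorem exists_rt [Fintype α] (hT : T.IsTree) (k : ℕ) (hk : Fintype.card α = k + 2) :
    ∃ S : RT, S.size = k ∧ (S.flat → ∃ r, ∀ a, a ≠ r → T.Adj r a) ∧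
      ∀ (V : Type) [DecidableEq V] (G : SimpleGraph V) (v x : V) (W : Finset V),
        Copy G S v W → x ∉ W → G.Adj v x → Has G T := by
  have hU : Conn T univ := fun a _ b _ => by
    obtain ⟨p⟩ := hT.connected.preconnected a b
    exact ⟨p, by simp⟩
  obtain ⟨r₀⟩ := hT.connected.nonempty
  obtain ⟨A, -, h2, h3, h4, -⟩ := grow hT.isAcyclic hU (mem_univ r₀) k (by simp [hk])
  obtain ⟨u, hu, l, -, hlA, hadj⟩ := exists_step hU (subset_univ A) h2 (by simp [hk, h3])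
  obtain ⟨A', g1, g2, g3, -, S, hS⟩ := grow hT.isAcyclic h4 hu k h3.ge
  obtain rfl : A' = A := eq_of_subset_of_card_le g1 (by omega)
  have huniv : insert l A' = univ := by
    apply eq_univ_of_card
    rw [card_insert_of_notMem hlA, h3, hk]
  have hrep : Rep T (.graft S) l univ :=
    ⟨u, A', hadj.symm, hS, hlA, uniq_nbr hT.isAcyclic h4 hlA hu hadj, huniv.symm⟩
  refine ⟨S, by have := hS.copy.card; omega, fun hf => ⟨u, fun a ha => ?_⟩, ?_⟩
  · have : a ∈ insert l A' := huniv ▸ mem_univ a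
    rcases mem_insert.1 this with rfl | h
    · exact hadj
    · exact hS.copy.adj_of_flat hf a h ha
  · intro V _ G v x W hc hx hvx
    obtain ⟨f, -, -, f3, f4⟩ := hrep.embed (G := G) (v := x) (W := insert x W)
      ⟨v, W, hvx.symm, hc, hx, rfl⟩
    exact ⟨f, fun a b hab => f3 a (mem_univ a) b (mem_univ b) hab,
      fun a b hab => f4 a (mem_univ a) b (mem_univ b) hab⟩

end Pool.Agent.MP_1c0fc2_co

end

section

/-! The degree-sum bound for tree-free graphs and its stability version. -/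

namespace Pool.Agent.MP_1c0fc2_co

open Finset Nat

variable {V : Type} [DecidableEq V]

/-- A rooted copy of `S` at `v` inside `A` together with `v`. -/
def has (G : SimpleGraph V) (S : RT) (v : V) (A : Finset V) : Prop :=
  ∃ W ⊆ insert v A, Copy G S v W

theorem has_mono (G : SimpleGraph V) (S : RT) (v : V) (A B : Finset V) (h : A ⊆ B)
    (hA : has G S v A) : has G S v B := by
  obtain ⟨W, h1, h2⟩ := hA
  exact ⟨W, h1.trans (insert_subset_insert _ h), h2⟩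

variable [Fintype V]

open Classical in
/-- Neighbourhood as a finite set. -/
noncomputable def nb (G : SimpleGraph V) (v : V) : Finset V := univ.filter (G.Adj v)

omit [DecidableEq V] in
@[simp] theorem mem_nb {G : SimpleGraph V} {v x : V} : x ∈ nb G v ↔ G.Adj v x := by
  simp [nb]

open Classical in
/-- Weighted count of bad sets. -/
noncomputable def bad (G : SimpleGraph V) (S : RT) (v x : V) : ℕ :=
  ∑ A ∈ ((univ.erase v).erase x).powerset,
    if ¬ has G S v A then A.card ! * (Fintype.card V - 2 - A.card)! else 0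

open Classical in
/-- Weighted count of crossings. -/
noncomputable def crs (G : SimpleGraph V) (S : RT) (v x : V) : ℕ :=
  ∑ A ∈ ((univ.erase v).erase x).powerset,
    if ¬ has G S v A ∧ has G S v (insert x A) then
      A.card ! * (Fintype.card V - 2 - A.card)! else 0

/-- Total count of bad marked pairs. -/
noncomputable def NN (G : SimpleGraph V) (U : Finset V) (S : RT) : ℕ :=
  ∑ v ∈ U, ∑ x ∈ nb G v, bad G S v x

/-- Total count of crossing marked pairs. -/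
noncomputable def CC (G : SimpleGraph V) (U : Finset V) (S : RT) : ℕ :=
  ∑ v ∈ U, ∑ x ∈ nb G v, crs G S v x

variable {G : SimpleGraph V} {U : Finset V}

theorem card_ee {v x : V} (h : v ≠ x) :
    ((univ.erase v).erase x).card = Fintype.card V - 2 := by
  rw [card_erase_of_mem (by simp [h.symm]), card_erase_of_mem (mem_univ v), Finset.card_univ]
  omega

theorem NN_point : NN G U .point = 0 := by
  refine sum_eq_zero fun v _ => sum_eq_zero fun x _ => sum_eq_zero fun A _ => ?_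
  rw [if_neg (not_not.2 ⟨{v}, by simp, rfl⟩)]

theorem bad_graft (S : RT) {v x : V} (h : G.Adj v x) :
    bad G (.graft S) v x ≤ crs G (.graft S) v x + bad G S x v := by
  rw [bad, crs, bad, erase_right_comm (a := x), ← sum_add_distrib]
  refine sum_le_sum fun A hA => ?_
  have hvA : v ∉ A := fun hv => by simpa using mem_powerset.1 hA hv
  by_cases h1 : has G (.graft S) v A
  · simp [h1]
  by_cases h2 : has G (.graft S) v (insert x A)
  · simp [h1, h2]
  have h3 : ¬ has G S x A := by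
    rintro ⟨W, hW, hc⟩
    refine h2 ⟨insert v W, insert_subset_insert _ hW, x, W, h, hc, fun hv => ?_, rfl⟩
    rcases mem_insert.1 (hW hv) with h' | h'
    · exact h.ne h'
    · exact hvA h'
  simp [h1, h3]

omit [DecidableEq V] in
theorem sum_swap (hU : ∀ v ∈ U, ∀ x, G.Adj v x → x ∈ U) (f : V → V → ℕ) :
    ∑ v ∈ U, ∑ x ∈ nb G v, f x v = ∑ v ∈ U, ∑ x ∈ nb G v, f v x := by
  refine sum_comm' fun v x => ?_
  simp only [mem_nb]
  exact ⟨fun h => ⟨h.2.symm, hU v h.1 x h.2⟩, fun h => ⟨hU x h.2 v h.1, h.1.symm⟩⟩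

theorem NN_graft (hU : ∀ v ∈ U, ∀ x, G.Adj v x → x ∈ U) (S : RT) :
    NN G U (.graft S) ≤ CC G U (.graft S) + NN G U S := by
  rw [NN, CC, NN, ← sum_swap hU (bad G S), ← sum_add_distrib]
  refine sum_le_sum fun v _ => ?_
  rw [← sum_add_distrib]
  exact sum_le_sum fun x hx => bad_graft S (mem_nb.1 hx)

theorem bad_glue (S₁ S₂ : RT) {v x : V} (h : v ≠ x) :
    bad G (.glue S₁ S₂) v x ≤ bad G S₁ v x + bad G S₂ v x := by
  have := glue_le (fun A => has G (.glue S₁ S₂) v A) (fun A => has G S₁ v A)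
    (fun A => has G S₂ v A) (has_mono G S₁ v) ?_ ((univ.erase v).erase x)
  · rw [card_ee h] at this
    rw [bad, bad, bad]
    convert this
  · rintro A D hD ⟨W₁, h1, c1⟩ ⟨W₂, h2, c2⟩
    refine ⟨W₁ ∪ W₂, union_subset (h1.trans (insert_subset_insert _ hD))
      (h2.trans (insert_subset_insert _ sdiff_subset)), W₁, W₂, c1, c2, fun y y1 y2 => ?_, rfl⟩
    by_contra hy
    have e1 := (mem_insert.1 (h1 y1)).resolve_left hy
    have e2 := (mem_insert.1 (h2 y2)).resolve_left hy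
    exact (mem_sdiff.1 e2).2 e1

theorem NN_glue (S₁ S₂ : RT) : NN G U (.glue S₁ S₂) ≤ NN G U S₁ + NN G U S₂ := by
  rw [NN, NN, NN, ← sum_add_distrib]
  refine sum_le_sum fun v _ => ?_
  rw [← sum_add_distrib]
  exact sum_le_sum fun x hx => bad_glue S₁ S₂ (mem_nb.1 hx).ne

open Classical in
theorem crs_total (S : RT) (v : V) : ∑ x ∈ univ.erase v, crs G S v x ≤
    if has G S v (univ.erase v) then (Fintype.card V - 1)! else 0 := by
  have := cross_le (fun A => has G S v A) (has_mono G S v) (univ.erase v)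
  rw [card_erase_of_mem (mem_univ v), Finset.card_univ] at this
  simp only [crs]
  convert this using 6
  omega

theorem nb_subset (v : V) : nb G v ⊆ univ.erase v := by
  intro x hx
  simp [(mem_nb.1 hx).ne.symm]

theorem crs_nb (S : RT) (v : V) : ∑ x ∈ nb G v, crs G S v x ≤ (Fintype.card V - 1)! := by
  refine (sum_le_sum_of_subset (nb_subset v)).trans ((crs_total S v).trans ?_)
  split_ifs <;> simp

theorem CC_le (S : RT) : CC G U S ≤ U.card * (Fintype.card V - 1)! := by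
  rw [CC, ← smul_eq_mul, ← sum_const]
  exact sum_le_sum fun v _ => crs_nb S v

theorem NN_le (hU : ∀ v ∈ U, ∀ x, G.Adj v x → x ∈ U) (S : RT) :
    NN G U S ≤ S.size * (U.card * (Fintype.card V - 1)!) := by
  induction S with
  | point => simp [NN_point]
  | graft S ih =>
    have h1 := NN_graft hU S
    have h2 := CC_le (G := G) (U := U) (.graft S)
    rw [RT.size, add_mul]
    omega
  | glue S₁ S₂ ih₁ ih₂ =>
    have h1 := NN_glue (G := G) (U := U) S₁ S₂
    rw [RT.size, add_mul]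
    omega

theorem NN_slack (hU : ∀ v ∈ U, ∀ x, G.Adj v x → x ∈ U) {S₁ S : RT} (hS : RT.Sub (.graft S₁) S)
    {K m : ℕ} (h : K * CC G U (.graft S₁) + m ≤ K * (U.card * (Fintype.card V - 1)!)) :
    K * NN G U S + m ≤ K * (S.size * (U.card * (Fintype.card V - 1)!)) := by
  induction hS with
  | refl =>
    have h1 := Nat.mul_le_mul_left K (NN_graft hU S₁)
    have h2 := Nat.mul_le_mul_left K (NN_le hU S₁)
    rw [RT.size, add_mul, mul_add, one_mul]
    rw [mul_add] at h1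
    omega
  | @graft S _ ih =>
    have h1 := Nat.mul_le_mul_left K (NN_graft hU S)
    have h2 := Nat.mul_le_mul_left K (CC_le (G := G) (U := U) (.graft S))
    rw [RT.size, add_mul, mul_add, one_mul]
    rw [mul_add] at h1
    omega
  | @left S S' _ ih =>
    have h1 := Nat.mul_le_mul_left K (NN_glue (G := G) (U := U) S S')
    have h2 := Nat.mul_le_mul_left K (NN_le hU S')
    rw [RT.size, add_mul, mul_add]
    rw [mul_add] at h1
    omega
  | @right S S' _ ih =>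
    have h1 := Nat.mul_le_mul_left K (NN_glue (G := G) (U := U) S S')
    have h2 := Nat.mul_le_mul_left K (NN_le hU S)
    rw [RT.size, add_mul, mul_add]
    rw [mul_add] at h1
    omega

theorem NN_free {S : RT} (hfree : ∀ v x W, Copy G S v W → x ∉ W → ¬ G.Adj v x) :
    NN G U S = (∑ v ∈ U, (nb G v).card) * (Fintype.card V - 1)! := by
  rw [NN, sum_mul]
  refine sum_congr rfl fun v _ => ?_
  rw [← smul_eq_mul, ← sum_const]
  refine sum_congr rfl fun x hx => ?_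
  have hvx := mem_nb.1 hx
  have h1 := sum_fact ((univ.erase v).erase x) 0 0
  have h2 : 1 < Fintype.card V := Fintype.one_lt_card_iff.2 ⟨v, x, hvx.ne⟩
  rw [card_ee hvx.ne] at h1
  simp only [zero_add, factorial_one, mul_one, factorial_zero] at h1
  rw [show Fintype.card V - 1 = Fintype.card V - 2 + 1 by omega, ← h1, bad]
  refine sum_congr rfl fun A hA => if_pos ?_
  rintro ⟨W, hW, hc⟩
  refine hfree v x W hc (fun hxW => ?_) hvx
  rcases mem_insert.1 (hW hxW) with h | h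
  · exact hvx.ne h.symm
  · simpa using mem_powerset.1 hA h

/-- The degree-sum bound. -/
theorem degree_sum_le {S : RT} (hfree : ∀ v x W, Copy G S v W → x ∉ W → ¬ G.Adj v x) :
    ∑ v, (nb G v).card ≤ S.size * Fintype.card V := by
  have h1 := NN_le (G := G) (U := univ) (fun _ _ _ _ => mem_univ _) S
  rw [NN_free hfree, ← mul_assoc, Finset.card_univ] at h1
  exact Nat.le_of_mul_le_mul_right h1 (factorial_pos _)

/-- Vertices at which the crossing bound for a broom with `s` bristles is not tight. -/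
def Slack (G : SimpleGraph V) (s : ℕ) (v : V) : Prop :=
  (∀ c, G.Adj v c → (nb G c).card ≤ s) ∨
    ∃ c d, G.Adj v c ∧ s + 1 ≤ (nb G c).card ∧ G.Adj c d ∧ d ≠ v ∧ ¬ G.Adj v d

theorem crs_slack {S : RT} (hS : S.flat) (hs : 1 ≤ S.size) {D : ℕ}
    (hD : ∀ v, (nb G v).card ≤ D) {v : V} (hv : Slack G S.size v) :
    (D + D * D)! * ∑ x ∈ nb G v, crs G (.graft S) v x + (Fintype.card V - 1)! ≤
      (D + D * D)! * (Fintype.card V - 1)! := by
  have hK : 1 ≤ (D + D * D)! := factorial_pos _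
  rcases hv with hv | ⟨c, d, hvc, hdeg, hcd, hdv, hnd⟩
  · have h1 := (sum_le_sum_of_subset (nb_subset (G := G) v)).trans (crs_total (G := G) (.graft S) v)
    rw [if_neg] at h1
    · rw [Nat.le_zero.1 h1]
      simpa using Nat.le_mul_of_pos_left _ hK
    · rintro ⟨W, -, c, W', h1, h2, h3, rfl⟩
      have e1 := h2.card
      have e2 : insert v (W'.erase c) ⊆ nb G c := by
        intro y hy
        rcases mem_insert.1 hy with rfl | hy
        · exact mem_nb.2 h1.symm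
        · exact mem_nb.2 (h2.adj_of_flat hS y (mem_of_mem_erase hy) (ne_of_mem_erase hy))
      have e3 := card_le_card e2
      rw [card_insert_of_notMem (fun h => h3 (mem_of_mem_erase h)),
        card_erase_of_mem h2.mem] at e3
      have := hv c h1
      omega
  · have h1 : ∑ x ∈ insert d (nb G v), crs G (.graft S) v x ≤ (Fintype.card V - 1)! := by
      refine (sum_le_sum_of_subset (insert_subset (by simp [hdv]) (nb_subset v))).trans
        ((crs_total _ v).trans ?_)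
      split_ifs <;> simp
    rw [sum_insert (by simpa using hnd)] at h1
    suffices h2 : (Fintype.card V - 1)! ≤ (D + D * D)! * crs G (.graft S) v d by
      have := Nat.mul_le_mul_left (D + D * D)! h1
      rw [mul_add] at this
      omega
    obtain ⟨M, hM⟩ : ∃ M : Finset V, M = (nb G v ∪ (nb G v).biUnion (nb G)).erase v := ⟨_, rfl⟩
    have hMcard : M.card ≤ D + D * D := by
      rw [hM]
      refine (card_erase_le.trans (card_union_le _ _)).trans (Nat.add_le_add (hD v) ?_)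
      refine card_biUnion_le.trans ((sum_le_card_nsmul _ _ D fun x _ => hD x).trans ?_)
      exact Nat.mul_le_mul_right _ (hD v)
    have hM1 : ∀ y, G.Adj v y → y ∈ M := fun y hy => by
      simp [hM, hy.ne.symm, hy]
    have hM2 : ∀ y z, G.Adj v y → G.Adj y z → z ≠ v → z ∈ M := fun y z hy hz hzv => by
      simp only [hM, mem_erase, mem_union, mem_biUnion, mem_nb]
      exact ⟨hzv, Or.inr ⟨y, hy, hz⟩⟩
    have hvM : v ∉ M := by simp [hM]
    have e0 : (((nb G c).erase v).erase d).card = (nb G c).card - 2 := by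
      rw [card_erase_of_mem (by simp [hdv, hcd]), card_erase_of_mem (by simp [hvc.symm])]
      omega
    obtain ⟨Y, hY, hYc⟩ := exists_subset_card_eq (s := ((nb G c).erase v).erase d)
      (n := S.size - 1) (by omega)
    have hY' : ∀ y ∈ Y, y ≠ d ∧ y ≠ v ∧ G.Adj c y := fun y hy => by simpa using hY hy
    have hcY : c ∉ Y := fun h => (hY' c h).2.2.ne rfl
    have hdY : d ∉ Y := fun h => (hY' d h).1 rfl
    have hW : (insert c Y).card = S.size := by
      rw [card_insert_of_notMem hcY]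
      omega
    have hWM : insert d (insert c Y) ⊆ M := by
      refine insert_subset (hM2 c d hvc hcd hdv) (insert_subset (hM1 c hvc) fun y hy => ?_)
      exact hM2 c y hvc (hY' y hy).2.2 (hY' y hy).2.1
    have hdW : d ∉ insert c Y := by simp [hdY, hcd.ne.symm]
    have hMlow := card_le_card hWM
    rw [card_insert_of_notMem hdW, hW] at hMlow
    obtain ⟨O, hO⟩ : ∃ O : Finset V, O = univ \ insert v M := ⟨_, rfl⟩
    have hOc : O.card + M.card + 1 = Fintype.card V := by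
      have := card_le_univ (insert v M)
      rw [hO, card_sdiff_of_subset (subset_univ _), Finset.card_univ, card_insert_of_notMem hvM]
      rw [card_insert_of_notMem hvM] at this
      omega
    have hO' : ∀ y ∈ O, y ≠ v ∧ y ∉ M := fun y hy => by simpa [hO] using hy
    have hdisj : ∀ E ⊆ O, Disjoint (insert c Y) E := fun E hE => by
      rw [disjoint_right]
      intro y hy hy'
      exact (hO' y (hE hy)).2 (hWM (mem_insert_of_mem hy'))
    have h3 := sum_fact O S.size (M.card - 1 - S.size)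
    rw [show S.size + (M.card - 1 - S.size) + 1 = M.card by omega,
      show S.size + (M.card - 1 - S.size) + O.card + 1 = Fintype.card V - 1 by omega] at h3
    have h4 : ∑ E ∈ O.powerset, (S.size + E.card)! * (M.card - 1 - S.size + (O.card - E.card))! ≤
        crs G (.graft S) v d := by
      rw [crs]
      refine le_trans (le_of_eq ?_) (sum_le_sum_of_subset
        (s := O.powerset.image (fun E => insert c Y ∪ E)) ?_)
      · rw [sum_image]
        · refine sum_congr rfl fun E hE => ?_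
          have hE' := mem_powerset.1 hE
          have := card_le_card hE'
          rw [if_pos, card_union_of_disjoint (hdisj E hE'), hW]
          · congr 2
            omega
          · constructor
            · rintro ⟨W, hWs, c', W', g1, g2, g3, rfl⟩
              have hsub : W' ⊆ insert c Y := by
                intro y hy
                have hyv : y ≠ v := fun h => g3 (h ▸ hy)
                have hyM : y ∈ M := by
                  by_cases hyc : y = c'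
                  · exact hyc ▸ hM1 c' g1
                  · exact hM2 c' y g1 (g2.adj_of_flat hS y hy hyc) hyv
                have := (mem_insert.1 (hWs (mem_insert_of_mem hy))).resolve_left hyv
                exact (mem_union.1 this).resolve_right fun h => (hO' y (hE' h)).2 hyM
              have := card_le_card hsub
              rw [g2.card, hW] at this
              omega
            · refine ⟨insert v (insert c (insert d Y)), insert_subset_insert _ ?_, c,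
                insert c (insert d Y), hvc, copy_of_flat hS ?_ ?_ ?_, ?_, rfl⟩
              · intro y hy
                simp only [mem_insert, mem_union] at hy ⊢
                tauto
              · simp [hcY, hcd.ne]
              · rw [card_insert_of_notMem hdY]
                omega
              · intro y hy
                rcases mem_insert.1 hy with rfl | hy
                · exact hcd
                · exact (hY' y hy).2.2
              · intro h
                exact hvM (hWM (by rwa [insert_comm]))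
        · intro E hE E' hE' h
          have := congrArg (fun Z => Z \ insert c Y) h
          simp only [union_sdiff_cancel_left (hdisj E (mem_powerset.1 hE)),
            union_sdiff_cancel_left (hdisj E' (mem_powerset.1 hE'))] at this
          exact this
      · intro A hA
        obtain ⟨E, hE, rfl⟩ := mem_image.1 hA
        rw [mem_powerset]
        intro y hy
        simp only [mem_erase, mem_univ, and_true]
        rcases mem_union.1 hy with hy | hy
        · exact ⟨fun h => hdW (h ▸ hy), fun h => hvM (h ▸ hWM (mem_insert_of_mem hy))⟩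
        · have := hO' y (mem_powerset.1 hE hy)
          exact ⟨fun h => this.2 (h ▸ hWM (mem_insert_self _ _)), this.1⟩
    calc (Fintype.card V - 1)! ≤ (Fintype.card V - 1)! * S.size ! * (M.card - 1 - S.size)! := by
          rw [mul_assoc]
          exact Nat.le_mul_of_pos_right _ (Nat.mul_pos (factorial_pos _) (factorial_pos _))
      _ ≤ crs G (.graft S) v d * (D + D * D)! := by
          rw [← h3]
          exact Nat.mul_le_mul h4 (factorial_le hMcard)
      _ = _ := mul_comm _ _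

omit [DecidableEq V] in
theorem slack_of_small {s : ℕ} {c : V} (hc : (nb G c).card ≤ s) : Slack G s c := by
  classical
  by_cases h : ∀ c', G.Adj c c' → (nb G c').card ≤ s
  · exact Or.inl h
  push Not at h
  obtain ⟨c', h1, h2⟩ := h
  have e1 : ((nb G c').erase c).card = (nb G c').card - 1 :=
    card_erase_of_mem (mem_nb.2 h1.symm)
  have e2 : ((nb G c).erase c').card = (nb G c).card - 1 := card_erase_of_mem (mem_nb.2 h1)
  have e3 : 0 < (nb G c).card := card_pos.2 ⟨c', mem_nb.2 h1⟩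
  obtain ⟨d, hd, hd'⟩ := exists_mem_notMem_of_card_lt_card
    (show ((nb G c).erase c').card < ((nb G c').erase c).card by omega)
  simp only [mem_erase, mem_nb, not_and] at hd hd'
  exact Or.inr ⟨c', d, h1, h2, hd.2, hd.1, hd' hd.2.ne.symm⟩

/-- The component of `v` is a clique. -/
def Cl (G : SimpleGraph V) (v : V) : Prop :=
  ∀ y, G.Adj v y → ∀ z, (z = v ∨ G.Adj v z) ↔ (z = y ∨ G.Adj y z)

omit [DecidableEq V] [Fintype V] in
theorem Cl.adj {v w : V} (h : Cl G v) (hw : G.Adj v w) : Cl G w := by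
  intro y hy z
  rcases (h w hw y).2 (Or.inr hy) with rfl | hvy
  · exact (h w hw z).symm
  · exact (h w hw z).symm.trans (h y hvy z)

omit [DecidableEq V] in
theorem slack_near (s : ℕ) {v : V} (h : ¬ Cl G v) : ∃ w, (w = v ∨ G.Adj v w) ∧ Slack G s w := by
  have key : ∀ a c d, G.Adj a c → G.Adj c d → d ≠ a → ¬ G.Adj a d →
      Slack G s a ∨ Slack G s c := fun a c d h1 h2 h3 h4 => by
    by_cases hc : (nb G c).card ≤ s
    · exact Or.inr (slack_of_small hc)
    · exact Or.inl (Or.inr ⟨c, d, h1, by omega, h2, h3, h4⟩)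
  simp only [Cl, not_forall] at h
  obtain ⟨y, hy, z, hz⟩ := h
  by_cases h1 : z = v ∨ G.Adj v z
  · have h2 : ¬ (z = y ∨ G.Adj y z) := fun h => hz ⟨fun _ => h, fun _ => h1⟩
    rw [not_or] at h2
    rcases h1 with rfl | h1
    · exact absurd hy.symm h2.2
    · rcases key y v z hy.symm h1 h2.1 h2.2 with h | h
      · exact ⟨y, Or.inr hy, h⟩
      · exact ⟨v, Or.inl rfl, h⟩
  · have h2 : z = y ∨ G.Adj y z := by
      by_contra h
      exact hz ⟨fun h' => absurd h' h1, fun h' => absurd h' h⟩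
    rw [not_or] at h1
    rcases h2 with rfl | h2
    · exact absurd hy h1.2
    · rcases key v y z hy h2 h1.1 h1.2 with h | h
      · exact ⟨v, Or.inl rfl, h⟩
      · exact ⟨y, Or.inr hy, h⟩

/-- The neighbourhood is a clique with exactly `k` vertices. -/
def Perfect (G : SimpleGraph V) (k : ℕ) (v : V) : Prop :=
  (nb G v).card = k ∧ ∀ y z, G.Adj v y → G.Adj v z → y ≠ z → G.Adj y z

open Classical in
theorem stability {S : RT} (hS : ¬ S.flat) {D : ℕ} (hD : ∀ v, (nb G v).card ≤ D)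
    (hfree : ∀ v x W, Copy G S v W → x ∉ W → ¬ G.Adj v x) :
    ((1 + D) * (D + D * D)!) * ∑ v, (nb G v).card +
      (univ.filter fun v => ¬ Perfect G S.size v).card ≤
      ((1 + D) * (D + D * D)!) * (S.size * Fintype.card V) := by
  obtain ⟨S₁, f1, f2, f3⟩ := exists_broom hS
  obtain ⟨U, hUdef⟩ : ∃ U : Finset V, U = univ.filter fun v => ¬ Cl G v := ⟨_, rfl⟩
  have hU : ∀ v ∈ U, ∀ x, G.Adj v x → x ∈ U := by
    intro v hv x hx
    simp only [hUdef, mem_filter, mem_univ, true_and] at hv ⊢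
    exact fun h => hv (h.adj hx.symm)
  obtain ⟨K, hK⟩ : ∃ K, K = (D + D * D)! := ⟨_, rfl⟩
  have hKpos : 1 ≤ K := hK ▸ factorial_pos _
  obtain ⟨L, hL⟩ : ∃ L : Finset V, L = U.filter (Slack G S₁.size) := ⟨_, rfl⟩
  have h1 : K * CC G U (.graft S₁) + L.card * (Fintype.card V - 1)! ≤
      K * (U.card * (Fintype.card V - 1)!) := by
    rw [CC, mul_sum, hL, card_filter, sum_mul, ← sum_add_distrib, ← smul_eq_mul U.card,
      ← sum_const, mul_sum]
    refine sum_le_sum fun v _ => ?_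
    split_ifs with hv
    · rw [one_mul, hK]
      exact crs_slack f1 f2 hD hv
    · simpa using Nat.mul_le_mul_left K (crs_nb _ v)
  have h2 := NN_slack hU f3 h1
  rw [NN_free hfree] at h2
  have h3 : K * ∑ v ∈ U, (nb G v).card + L.card ≤ K * (S.size * U.card) := by
    refine Nat.le_of_mul_le_mul_right (c := (Fintype.card V - 1)!) ?_ (factorial_pos _)
    calc _ = K * ((∑ v ∈ U, (nb G v).card) * (Fintype.card V - 1)!) +
          L.card * (Fintype.card V - 1)! := by ring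
      _ ≤ _ := h2
      _ = _ := by ring
  have h4 : U.card ≤ L.card * (1 + D) := by
    have : U ⊆ L.biUnion fun w => insert w (nb G w) := by
      intro v hv
      have hv' : ¬ Cl G v := by simpa [hUdef] using hv
      obtain ⟨w, hw, hs⟩ := slack_near S₁.size hv'
      simp only [hL, mem_biUnion, mem_filter, mem_insert, mem_nb]
      rcases hw with rfl | hw
      · exact ⟨w, ⟨hv, hs⟩, Or.inl rfl⟩
      · exact ⟨w, ⟨hU v hv w hw, hs⟩, Or.inr hw.symm⟩
    refine (card_le_card this).trans (card_biUnion_le.trans (sum_le_card_nsmul _ _ _ ?_))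
    intro w _
    have := card_insert_le w (nb G w)
    have := hD w
    omega
  have h5 : ∀ v ∈ Uᶜ, ((1 + D) * K) * (nb G v).card + (if ¬ Perfect G S.size v then 1 else 0) ≤
      ((1 + D) * K) * S.size := by
    intro v hv
    have hv' : Cl G v := by simpa [hUdef] using hv
    have hcl : ∀ y z, G.Adj v y → G.Adj v z → y ≠ z → G.Adj y z := fun y z hy hz hyz =>
      ((hv' y hy z).1 (Or.inr hz)).resolve_left hyz.symm
    have hle : (nb G v).card ≤ S.size := by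
      by_contra hlt
      obtain ⟨x, hx⟩ : (nb G v).Nonempty := card_pos.1 (by omega)
      have hvn : v ∉ (nb G v).erase x := by simp
      obtain ⟨W, hW, hc⟩ := copy_of_clique (G := G) S (Q := insert v ((nb G v).erase x)) (v := v)
        (by
          intro y hy z hz hyz
          simp only [mem_insert, mem_erase, mem_nb] at hy hz
          rcases hy with ey | hy <;> rcases hz with ez | hz
          · exact absurd (ey.trans ez.symm) hyz
          · exact ey ▸ hz.2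
          · exact ez ▸ hy.2.symm
          · exact hcl y z hy.2 hz.2 hyz)
        (mem_insert_self _ _)
        (by rw [card_insert_of_notMem hvn, card_erase_of_mem hx]; omega)
      refine hfree v x W hc (fun h => ?_) (mem_nb.1 hx)
      have := hW h
      simp [(mem_nb.1 hx).ne.symm] at this
    split_ifs with hp
    · simpa using Nat.mul_le_mul_left _ hle
    · have hlt : (nb G v).card + 1 ≤ S.size := by
        rcases hle.lt_or_eq with h | h
        · exact h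
        · exact absurd ⟨h, hcl⟩ hp
      have e1 := Nat.mul_le_mul_left ((1 + D) * K) hlt
      have e2 : 1 ≤ (1 + D) * K := Nat.mul_pos (by omega) hKpos
      rw [mul_add] at e1
      omega
  have h6 := sum_le_sum h5
  rw [sum_add_distrib, ← mul_sum, sum_const, smul_eq_mul] at h6
  have h7 : ∑ v ∈ U, (if ¬ Perfect G S.size v then 1 else 0) ≤ U.card := by
    rw [← card_filter]
    exact card_filter_le _ _
  rw [← hK, card_filter, ← sum_add_sum_compl U, ← sum_add_sum_compl U, ← card_add_card_compl U]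
  have h8 := Nat.mul_le_mul_left (1 + D) h3
  nlinarith

end Pool.Agent.MP_1c0fc2_co

end

section

/-! Finite groups generated by involutions without short relations. -/

namespace Pool.Agent.MP_1c0fc2_co

open Finset

variable {ι : Type}

/-- Reduced words of bounded length. -/
def RW (ι : Type) (L : ℕ) : Type := {w : List ι // w.IsChain (· ≠ ·) ∧ w.length ≤ L}

instance [Finite ι] (L : ℕ) : Finite (RW ι L) :=
  ((List.finite_length_le ι L).subset (fun _ h => h.2)).to_subtype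

/-- The underlying move on lists. -/
def mv [DecidableEq ι] (L : ℕ) (i : ι) (w : List ι) : List ι :=
  if w.head? = some i then w.tail else if w.length < L then i :: w else w

theorem chain_cons {i : ι} {w : List ι} (h : w.IsChain (· ≠ ·)) (hi : w.head? ≠ some i) :
    (i :: w).IsChain (· ≠ ·) := by
  cases w with
  | nil => simp
  | cons a w =>
    rw [List.isChain_cons_cons]
    exact ⟨fun e => hi (by simp [e]), h⟩

theorem head_ne {i : ι} {w : List ι} (h : (i :: w).IsChain (· ≠ ·)) : w.head? ≠ some i := by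
  cases w with
  | nil => simp
  | cons a w =>
    rw [List.isChain_cons_cons] at h
    simpa using h.1.symm

theorem mv_ok [DecidableEq ι] {L : ℕ} (i : ι) {w : List ι}
    (h : w.IsChain (· ≠ ·) ∧ w.length ≤ L) :
    (mv L i w).IsChain (· ≠ ·) ∧ (mv L i w).length ≤ L := by
  unfold mv
  split_ifs with h1 h2
  · exact ⟨h.1.tail, by simp; omega⟩
  · exact ⟨chain_cons h.1 h1, h2⟩
  · exact h

theorem mv_mv [DecidableEq ι] {L : ℕ} (i : ι) {w : List ι}
    (h : w.IsChain (· ≠ ·) ∧ w.length ≤ L) : mv L i (mv L i w) = w := by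
  by_cases h1 : w.head? = some i
  · obtain ⟨t, rfl⟩ : ∃ t, w = i :: t := by
      cases w with
      | nil => simp at h1
      | cons a t => exact ⟨t, by simpa using h1⟩
    have h2 := head_ne h.1
    have h3 : t.length < L := h.2
    simp [mv, h2, h3]
  · by_cases h2 : w.length < L <;> simp [mv, h1, h2]

/-- The involutions. -/
def gen [DecidableEq ι] (L : ℕ) (i : ι) : Equiv.Perm (RW ι L) :=
  Function.Involutive.toPerm (fun w => ⟨mv L i w.1, mv_ok i w.2⟩)
    (fun w => Subtype.ext (mv_mv i w.2))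

theorem gen_prod [DecidableEq ι] (L : ℕ) (w : List ι) (h : w.IsChain (· ≠ ·))
    (hl : w.length ≤ L) : (((w.map (gen L)).prod ⟨[], by simp⟩ : RW ι L)).1 = w := by
  induction w with
  | nil => rfl
  | cons i w ih =>
    have h3 : w.length < L := hl
    rw [List.map_cons, List.prod_cons, Equiv.Perm.mul_apply]
    change mv L i _ = _
    rw [ih h.tail h3.le]
    simp [mv, head_ne h, h3]

open Classical in
theorem exists_sys (ι : Type) [Finite ι] (L : ℕ) :
    ∃ (X : Type) (_ : Group X) (_ : Fintype X) (s : ι → X), (∀ i, s i * s i = 1) ∧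
      Function.Injective s ∧ (∀ i, s i ≠ 1) ∧ ∀ B : X → Prop,
        (∀ y, B y → ∃ i j, i ≠ j ∧ (B (s i * y) ∨ s i * y = 1) ∧ (B (s j * y) ∨ s j * y = 1)) →
        (∃ y, B y) → L < (univ.filter B).card := by
  have key : ∀ w w' : List ι, w.IsChain (· ≠ ·) → w'.IsChain (· ≠ ·) → w.length ≤ L + 1 →
      w'.length ≤ L + 1 → (w.map (gen (L + 1))).prod = (w'.map (gen (L + 1))).prod → w = w' := by
    intro w w' h1 h2 h3 h4 h5
    rw [← gen_prod (L + 1) w h1 h3, h5, gen_prod (L + 1) w' h2 h4]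
  let hF : Fintype (Equiv.Perm (RW ι (L + 1))) := Fintype.ofFinite _
  refine ⟨Equiv.Perm (RW ι (L + 1)), inferInstance, hF, gen (L + 1), ?_, ?_, ?_, ?_⟩
  · intro i
    ext1 w
    exact Subtype.ext (mv_mv i w.2)
  · intro i j h
    simpa using key [i] [j] (by simp) (by simp) (by simp) (by simp) (by simpa using h)
  · intro i h
    simpa using key [i] [] (by simp) (by simp) (by simp) (by simp) (by simpa using h)
  generalize gen (ι := ι) (L + 1) = s at key
  rintro B hB ⟨y, hy⟩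
  have walk : ∀ i, (B (s i * y) ∨ s i * y = 1) → ∀ m,
      (∃ w : List ι, w.IsChain (· ≠ ·) ∧ w.getLast? = some i ∧ w.length ≤ m + 1 ∧
        (w.map s).prod * y = 1) ∨
      ∃ w : List ι, w.IsChain (· ≠ ·) ∧ w.getLast? = some i ∧ w.length = m + 1 ∧
        ∀ j ≤ m, B (((w.drop j).map s).prod * y) := by
    intro i hi m
    induction m with
    | zero =>
      rcases hi with hi | hi
      · exact Or.inr ⟨[i], by simp, by simp, by simp, by simpa using hi⟩
      · exact Or.inl ⟨[i], by simp, by simp, by simp, by simpa using hi⟩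
    | succ m ih =>
      rcases ih with ⟨w, h1, h2, h3, h4⟩ | ⟨w, h1, h2, h3, h4⟩
      · exact Or.inl ⟨w, h1, h2, by omega, h4⟩
      obtain ⟨a, ha, hBa⟩ : ∃ a, w.head? ≠ some a ∧
          (B (s a * ((w.map s).prod * y)) ∨ s a * ((w.map s).prod * y) = 1) := by
        obtain ⟨a, b, hab, ha, hb⟩ := hB _ (h4 0 (Nat.zero_le _))
        by_cases h : w.head? = some a
        · exact ⟨b, by rw [h]; simpa using hab, hb⟩
        · exact ⟨a, h, ha⟩
      have hl : (a :: w).getLast? = some i := by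
        cases w with
        | nil => simp at h3
        | cons b w => rwa [List.getLast?_cons_cons]
      rcases hBa with hBa | hBa
      · refine Or.inr ⟨a :: w, chain_cons h1 ha, hl, by simp [h3], fun j hj => ?_⟩
        cases j with
        | zero => simpa [mul_assoc] using hBa
        | succ j => simpa using h4 j (by omega)
      · exact Or.inl ⟨a :: w, chain_cons h1 ha, hl, by simp [h3], by simpa [mul_assoc] using hBa⟩
  have fin : ∀ w : List ι, w.IsChain (· ≠ ·) → w.length = L + 1 →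
      (∀ j ≤ L, B (((w.drop j).map s).prod * y)) → L < (univ.filter B).card := by
    intro w h1 h3 h4
    have := card_le_card_of_injOn (s := range (L + 1)) (t := univ.filter B)
      (fun j => ((w.drop j).map s).prod * y)
      (fun j hj => by simpa using h4 j (by simpa [Nat.lt_succ_iff] using hj)) ?_
    · simpa using this
    · intro j hj j' hj' h
      have e := key _ _ (h1.drop j) (h1.drop j') (by simp; omega) (by simp; omega)
        (mul_right_cancel h)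
      have := congrArg List.length e
      simp only [coe_range, Set.mem_Iio, List.length_drop] at hj hj' this
      omega
  obtain ⟨i, j, hij, hi, hj⟩ := hB y hy
  rcases walk i hi L with ⟨w, h1, h2, h3, h4⟩ | ⟨w, h1, -, h3, h4⟩
  · rcases walk j hj L with ⟨w', g1, g2, g3, g4⟩ | ⟨w', g1, -, g3, g4⟩
    · have := key w w' h1 g1 h3 g3 (mul_right_cancel (h4.trans g4.symm))
      rw [this, g2] at h2
      exact absurd (Option.some.inj h2).symm hij
    · exact fin w' g1 g3 g4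
  · exact fin w h1 h3 h4

end Pool.Agent.MP_1c0fc2_co

end

section

/-! Arrowing, and the separation of a tree from graphs with a cycle or of another order. -/

namespace Pool.Agent.MP_1c0fc2_co

open Finset

variable {V α β : Type}

/-- Covering form of the arrow relation. -/
def Arr (G : SimpleGraph V) (T : SimpleGraph α) : Prop :=
  ∀ C : Bool → SimpleGraph V, (∀ b, C b ≤ G) → (∀ x y, G.Adj x y → ∃ b, (C b).Adj x y) →
    ∃ b, Has (C b) T

/-- Some finite graph arrows `T` but not `H`. -/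
def Sep (T : SimpleGraph α) (H : SimpleGraph β) : Prop :=
  ∃ (V : Type) (_ : Finite V) (G : SimpleGraph V), Arr G T ∧ ¬ Arr G H

theorem deg_cover [Fintype V] {G : SimpleGraph V} {C : Bool → SimpleGraph V}
    (h : ∀ x y, G.Adj x y → ∃ b, (C b).Adj x y) (v : V) :
    (nb G v).card ≤ (nb (C false) v).card + (nb (C true) v).card := by
  classical
  refine le_trans (card_le_card fun x hx => ?_) (card_union_le _ _)
  obtain ⟨b, hb⟩ := h v x (mem_nb.1 hx)
  cases b <;> simp [hb]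

theorem arr_of_deg [Fintype V] [Nonempty V] [Fintype α] {T : SimpleGraph α} (hT : T.IsTree)
    {k : ℕ} (hk : Fintype.card α = k + 2) {G : SimpleGraph V}
    (hG : ∀ v, 2 * k + 1 ≤ (nb G v).card) : Arr G T := by
  classical
  obtain ⟨S, h1, -, h3⟩ := exists_rt hT k hk
  intro C _ hC
  by_contra hno
  push Not at hno
  have e1 := degree_sum_le (G := C false) (S := S)
    fun v x W hc hx hvx => hno false (h3 V _ v x W hc hx hvx)
  have e2 := degree_sum_le (G := C true) (S := S)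
    fun v x W hc hx hvx => hno true (h3 V _ v x W hc hx hvx)
  have e3 : ∑ _v : V, (2 * k + 1) ≤ ∑ v, ((nb (C false) v).card + (nb (C true) v).card) :=
    sum_le_sum fun v _ => (hG v).trans (deg_cover hC v)
  rw [sum_const, sum_add_distrib, card_univ, smul_eq_mul] at e3
  have : 0 < Fintype.card V := Fintype.card_pos
  rw [h1] at e1 e2
  nlinarith

theorem const_of_conn {γ : Type} {H : SimpleGraph β} (hH : H.Connected) (φ : β → γ)
    (h : ∀ x y, H.Adj x y → φ x = φ y) (x y : β) : φ x = φ y := by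
  obtain ⟨p⟩ := hH.preconnected x y
  induction p with
  | nil => rfl
  | cons hadj _ ih => exact (h _ _ hadj).trans ih

theorem iso_of_hom {T : SimpleGraph α} {H : SimpleGraph β} (hT : T.IsAcyclic) (hH : H.Connected)
    (g : β ≃ α) (hg : ∀ x y, H.Adj x y → T.Adj (g x) (g y)) : Nonempty (T ≃g H) := by
  have h1 : H ≤ T.comap g := fun x y h => hg x y h
  have h2 : (T.comap g).IsAcyclic := hT.of_comap g.toEmbedding
  have h3 : H.IsTree := ⟨hH, h2.anti h1⟩
  have h4 := (SimpleGraph.isTree_iff_maximal_isAcyclic.1 h3).2.le_of_ge h2 h1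
  exact ⟨SimpleGraph.Iso.symm ⟨g, fun {x y} => ⟨fun h => h4 h, hg x y⟩⟩⟩

theorem not_arr_of_not_has {G : SimpleGraph V} {H : SimpleGraph β} (h : ¬ Has G H) :
    ¬ Arr G H := fun ha => by
  obtain ⟨_, hb⟩ := ha (fun _ => G) (fun _ => le_rfl) (fun _ _ h => ⟨true, h⟩)
  exact h hb

theorem sep_cycle [Fintype α] [Fintype β] {T : SimpleGraph α} (hT : T.IsTree) {k : ℕ}
    (hk : Fintype.card α = k + 2) {H : SimpleGraph β} (hH : ¬ H.IsAcyclic) : Sep T H := by
  classical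
  obtain ⟨X, _, _, s, h1, h2, h3, h4⟩ := exists_sys (Fin (2 * k + 1)) (Fintype.card β)
  let G : SimpleGraph X :=
    { Adj := fun x y => ∃ i, y = s i * x
      symm := ⟨by
        rintro x y ⟨i, rfl⟩
        exact ⟨i, by rw [← mul_assoc, h1, one_mul]⟩⟩
      loopless := ⟨by
        rintro x ⟨i, hi⟩
        exact h3 i (by simpa using hi)⟩ }
  refine ⟨X, inferInstance, G, arr_of_deg hT hk fun v => ?_, not_arr_of_not_has ?_⟩
  · have := card_le_card_of_injOn (s := univ) (t := nb G v) (fun i => s i * v)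
      (fun i _ => by simpa using ⟨i, rfl⟩) (fun i _ j _ h => h2 (mul_right_cancel h))
    simpa using this
  · rintro ⟨f, hf, hadj⟩
    simp only [SimpleGraph.IsAcyclic, not_forall, not_not] at hH
    obtain ⟨u, p, hp⟩ := hH
    have := h4 (fun y => ∃ x ∈ p.support, f x = y) ?_ ⟨f u, u, by simp, rfl⟩
    · refine absurd this (not_lt.2 ?_)
      refine le_trans (card_le_card (t := univ.image f) fun y hy => ?_) (card_image_le.trans ?_)
      · simp only [mem_filter, mem_univ, true_and, mem_image] at hy ⊢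
        obtain ⟨x, -, hx⟩ := hy
        exact ⟨x, hx⟩
      · simp
    · rintro y ⟨x, hx, rfl⟩
      obtain ⟨a, b, hab, hs⟩ := Set.ncard_eq_two.1 (hp.ncard_neighborSet_toSubgraph_eq_two hx)
      have ha : p.toSubgraph.Adj x a := by
        rw [← SimpleGraph.Subgraph.mem_neighborSet, hs]
        simp
      have hb : p.toSubgraph.Adj x b := by
        rw [← SimpleGraph.Subgraph.mem_neighborSet, hs]
        simp
      obtain ⟨i, hi⟩ := hadj x a ha.adj_sub
      obtain ⟨j, hj⟩ := hadj x b hb.adj_sub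
      refine ⟨i, j, fun h => hab (hf (by rw [hi, hj, h])), Or.inl ⟨a, ?_, hi⟩, Or.inl ⟨b, ?_, hj⟩⟩
      · exact p.mem_verts_toSubgraph.1 ha.snd_mem
      · exact p.mem_verts_toSubgraph.1 hb.snd_mem

theorem sep_size [Fintype α] [Fintype β] {T : SimpleGraph α} (hT : T.IsTree)
    {H : SimpleGraph β} (hH : H.Connected) (hlt : Fintype.card α < Fintype.card β) :
    Sep T H := by
  classical
  have hne := hT.connected.nonempty
  have hpos : 0 < Fintype.card α := Fintype.card_pos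
  by_cases h1 : Fintype.card α = 1
  · refine ⟨Unit, inferInstance, ⊥, fun C _ _ => ⟨true, fun _ => (), ?_, ?_⟩,
      not_arr_of_not_has ?_⟩
    · intro a b _
      exact Fintype.card_le_one_iff.1 h1.le a b
    · intro a b hab
      exact absurd (Fintype.card_le_one_iff.1 h1.le a b) hab.ne
    · rintro ⟨f, hf, -⟩
      have := Fintype.card_le_of_injective f hf
      simp at this
      omega
  obtain ⟨k, hk⟩ : ∃ k, Fintype.card α = k + 2 := ⟨Fintype.card α - 2, by omega⟩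
  let G : SimpleGraph (α × α) :=
    { Adj := fun p q => p ≠ q ∧ (p.1 = q.1 ∨ p.2 = q.2)
      symm := ⟨fun p q h => ⟨h.1.symm, h.2.imp Eq.symm Eq.symm⟩⟩
      loopless := ⟨fun p h => h.1 rfl⟩ }
  refine ⟨α × α, inferInstance, G, arr_of_deg hT hk fun v => ?_, fun ha => ?_⟩
  · have hsub : ((univ.erase v.2).image fun y => (v.1, y)) ∪
        ((univ.erase v.1).image fun x => (x, v.2)) ⊆ nb G v := by
      intro q hq
      simp only [mem_union, mem_image, mem_erase, mem_univ, and_true] at hq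
      rw [mem_nb]
      rcases hq with ⟨y, hy, rfl⟩ | ⟨x, hx, rfl⟩
      · exact ⟨fun h => hy (congrArg Prod.snd h).symm, Or.inl rfl⟩
      · exact ⟨fun h => hx (congrArg Prod.fst h).symm, Or.inr rfl⟩
    have := card_le_card hsub
    rw [card_union_of_disjoint, card_image_of_injective _ (Prod.mk_right_injective _),
      card_image_of_injective _ (Prod.mk_left_injective _), card_erase_of_mem (mem_univ _),
      card_erase_of_mem (mem_univ _), card_univ, hk] at this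
    · omega
    · rw [disjoint_left]
      intro q hq hq'
      simp only [mem_image, mem_erase, mem_univ, and_true] at hq hq'
      obtain ⟨y, hy, rfl⟩ := hq
      obtain ⟨x, -, hx⟩ := hq'
      exact hy (congrArg Prod.snd hx).symm
  · let C : Bool → SimpleGraph (α × α) := fun b =>
      { Adj := fun p q => p ≠ q ∧ (if b then p.1 else p.2) = (if b then q.1 else q.2)
        symm := ⟨fun p q h => ⟨h.1.symm, h.2.symm⟩⟩
        loopless := ⟨fun p h => h.1 rfl⟩ }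
    obtain ⟨b, f, hf, hadj⟩ := ha C
      (fun b p q h => ⟨h.1, by
        have := h.2
        cases b
        · exact Or.inr this
        · exact Or.inl this⟩)
      (fun p q h => h.2.elim (fun e => ⟨true, h.1, e⟩) fun e => ⟨false, h.1, e⟩)
    have hc := const_of_conn hH (fun x => if b then (f x).1 else (f x).2)
      fun x y h => (hadj x y h).2
    have := Fintype.card_le_of_injective (fun x => if b then (f x).2 else (f x).1)
      (fun x y h => hf (by
        have := hc x y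
        cases b
        · exact Prod.ext h this
        · exact Prod.ext this h))
    omega

theorem iso_of_stars [Fintype α] [Fintype β] {T : SimpleGraph α} (hT : T.IsAcyclic)
    {H : SimpleGraph β} (hH : H.IsTree) (hc : Fintype.card α = Fintype.card β)
    {r : α} (hr : ∀ a, a ≠ r → T.Adj r a) {r' : β} (hr' : ∀ a, a ≠ r' → H.Adj r' a) :
    Nonempty (T ≃g H) := by
  classical
  let e₀ : β ≃ α := Fintype.equivOfCardEq hc.symm
  let e : β ≃ α := e₀.trans (Equiv.swap (e₀ r') r)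
  have he : e r' = r := by simp [e]
  refine iso_of_hom hT hH.connected e fun x y hxy => ?_
  by_cases hx : x = r'
  · subst hx
    rw [he]
    exact hr _ (fun h => hxy.ne (e.injective (h.trans he.symm)).symm)
  by_cases hy : y = r'
  · subst hy
    rw [he]
    exact (hr _ (fun h => hxy.ne (e.injective (h.trans he.symm)))).symm
  exact absurd (SimpleGraph.is3Clique_triple_iff.2 ⟨hr' x hx, hr' y hy, hxy⟩)
    (hH.isAcyclic.cliqueFree le_rfl _)

end Pool.Agent.MP_1c0fc2_co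

end

section

/-! The line system separating a tree that is not a star from other graphs of the same order. -/

namespace Pool.Agent.MP_1c0fc2_co

open Finset

theorem two_mixed {ι : Type} (R : Bool → ι → ι → Prop) (hs : ∀ b i j, R b i j → R b j i)
    (hc : ∀ i j, i ≠ j → ∃ b, R b i j) (hn : ∀ b, ¬ ∀ i j, i ≠ j → R b i j) :
    ∃ i j, i ≠ j ∧ (∀ b, ∃ m, m ≠ i ∧ R b i m) ∧ ∀ b, ∃ m, m ≠ j ∧ R b j m := by
  by_contra hno
  have key : ∀ b, ∃ u, (∀ m, m ≠ u → ¬ R b u m) ∧ ∃ m, m ≠ u ∧ R (!b) u m := by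
    intro b
    have := hn b
    push Not at this
    obtain ⟨i, j, hij, hR⟩ := this
    have h1 : R (!b) i j := by
      obtain ⟨b', hb'⟩ := hc i j hij
      by_cases h : b' = b
      · exact absurd (h ▸ hb') hR
      · rwa [← Bool.eq_not.2 h]
    by_contra hk
    push Not at hk
    refine hno ⟨i, j, hij, fun b' => ?_, fun b' => ?_⟩
    · by_cases h : b' = b
      · by_contra h'
        push Not at h'
        exact hk i (h ▸ h') j hij.symm h1
      · exact ⟨j, hij.symm, by rwa [Bool.eq_not.2 h]⟩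
    · by_cases h : b' = b
      · by_contra h'
        push Not at h'
        exact hk j (h ▸ h') i hij (hs _ _ _ h1)
      · exact ⟨i, hij, by rw [Bool.eq_not.2 h]; exact hs _ _ _ h1⟩
  obtain ⟨u, hu, -⟩ := key false
  obtain ⟨v, hv, m, hm, hm'⟩ := key true
  by_cases huv : u = v
  · subst huv
    exact hu m hm hm'
  · obtain ⟨b, hb⟩ := hc u v huv
    cases b
    · exact hu v (Ne.symm huv) hb
    · exact hv u huv (hs _ _ _ hb)

variable {α β X ι : Type} [Group X]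

/-- The line of type `σ` through a point. -/
def ln (s : ι → X) (σ : Bool) (p : α × X × ι) : α × X :=
  (p.1, if σ then s p.2.2 * p.2.1 else p.2.1)

/-- The `i`-th point of a line of type `σ`. -/
def pt (s : ι → X) (σ : Bool) (l : α × X) (i : ι) : α × X × ι :=
  (l.1, if σ then s i * l.2 else l.2, i)

/-- The graph of the line system. -/
def LG (T : SimpleGraph α) (s : ι → X) (i₀ : ι) : SimpleGraph (α × X × ι) where
  Adj p q := p ≠ q ∧ ((∃ σ, ln s σ p = ln s σ q ∧ ¬ (σ = true ∧ (ln s σ p).2 = 1)) ∨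
    (T.Adj p.1 q.1 ∧ p.2 = (s i₀, i₀) ∧ q.2 = (s i₀, i₀)))
  symm := ⟨fun _ _ h => ⟨h.1.symm, h.2.imp
    (fun ⟨σ, h1, h2⟩ => ⟨σ, h1.symm, h1 ▸ h2⟩) fun h => ⟨h.1.symm, h.2.2, h.2.1⟩⟩⟩
  loopless := ⟨fun _ h => h.1 rfl⟩

variable {s : ι → X}

theorem ln_pt (h1 : ∀ i, s i * s i = 1) (σ : Bool) (l : α × X) (i : ι) :
    ln s σ (pt s σ l i) = l := by
  cases σ <;> simp [ln, pt, ← mul_assoc, h1]

theorem ln_pt' (σ : Bool) (l : α × X) (i : ι) :
    ln s (!σ) (pt s σ l i) = (l.1, s i * l.2) := by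
  cases σ <;> simp [ln, pt]

theorem pt_ln (h1 : ∀ i, s i * s i = 1) (σ : Bool) (p : α × X × ι) :
    pt s σ (ln s σ p) p.2.2 = p := by
  cases σ <;> simp [ln, pt, ← mul_assoc, h1]

theorem pt_inj (σ : Bool) (l : α × X) : Function.Injective (pt s σ l) :=
  fun _ _ h => congrArg (fun p => p.2.2) h

theorem ln_both (h2 : Function.Injective s) {σ : Bool} {p q : α × X × ι}
    (e1 : ln s σ p = ln s σ q) (e2 : ln s (!σ) p = ln s (!σ) q) : p = q := by
  have : ln s false p = ln s false q ∧ ln s true p = ln s true q := by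
    cases σ
    · exact ⟨e1, e2⟩
    · exact ⟨e2, e1⟩
  obtain ⟨a, x, i⟩ := p
  obtain ⟨a', x', i'⟩ := q
  simp only [ln, Bool.false_eq_true, if_false, if_true, Prod.mk.injEq] at this
  obtain ⟨⟨rfl, rfl⟩, -, h⟩ := this
  rw [h2 (mul_right_cancel h)]

variable {T : SimpleGraph α} {i₀ : ι}

theorem adj_pt (h1 : ∀ i, s i * s i = 1) {σ : Bool} {l : α × X} (hl : ¬ (σ = true ∧ l.2 = 1))
    {i j : ι} (hij : i ≠ j) : (LG T s i₀).Adj (pt s σ l i) (pt s σ l j) :=
  ⟨fun h => hij (pt_inj σ l h), Or.inl ⟨σ, by rw [ln_pt h1, ln_pt h1], by rwa [ln_pt h1]⟩⟩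

theorem not_arr_LG [Fintype α] [Fintype β] [Fintype ι] (h1 : ∀ i, s i * s i = 1)
    (hT : T.IsAcyclic) {H : SimpleGraph β} (hH : H.Connected)
    (hc : Fintype.card α = Fintype.card β) (hι : Fintype.card ι < Fintype.card β)
    (ha : Arr (LG T s i₀) H) : Nonempty (T ≃g H) := by
  let C : Bool → SimpleGraph (α × X × ι) := fun b =>
    { Adj := fun p q => (LG T s i₀).Adj p q ∧ (ln s false p = ln s false q ↔ b = false)
      symm := ⟨fun p q h => ⟨h.1.symm, by rw [eq_comm]; exact h.2⟩⟩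
      loopless := ⟨fun p h => h.1.ne rfl⟩ }
  obtain ⟨b, f, hf, hadj⟩ := ha C (fun b p q h => h.1) (fun p q h => by
    by_cases e : ln s false p = ln s false q
    · exact ⟨false, h, by simp [e]⟩
    · exact ⟨true, h, by simp [e]⟩)
  have line : ∀ σ, ¬ ∀ x y, H.Adj x y → ln s σ (f x) = ln s σ (f y) := by
    intro σ h
    have hcst := const_of_conn hH (fun x => ln s σ (f x)) h
    have := Fintype.card_le_of_injective (fun x => (f x).2.2) (fun x y e => hf (by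
      have e' : (f x).2.2 = (f y).2.2 := e
      rw [← pt_ln h1 σ (f x), ← pt_ln h1 σ (f y), hcst x y, e']))
    omega
  cases b with
  | false => exact absurd (fun x y h => (hadj x y h).2.2 rfl) (line false)
  | true =>
    have step : ∀ x y, H.Adj x y → (ln s true (f x) = ln s true (f y) ∧
        (f x).2 ≠ (s i₀, i₀)) ∨
        (T.Adj (f x).1 (f y).1 ∧ (f x).2 = (s i₀, i₀) ∧ (f y).2 = (s i₀, i₀)) := by
      intro x y h
      obtain ⟨⟨-, ⟨σ, e1, e2⟩ | e⟩, e3⟩ := hadj x y h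
      · cases σ
        · exact absurd (e3.1 e1) (by simp)
        · refine Or.inl ⟨e1, fun e => e2 ⟨rfl, ?_⟩⟩
          simp [ln, e, h1]
      · exact Or.inr e
    by_cases hsp : ∃ x, (f x).2 = (s i₀, i₀)
    · obtain ⟨x₀, hx₀⟩ := hsp
      have hall : ∀ x, (f x).2 = (s i₀, i₀) := by
        intro x
        have := const_of_conn hH (fun x => (f x).2 = (s i₀, i₀)) (fun x y h => propext
          ⟨fun e => ((step x y h).resolve_left fun h' => h'.2 e).2.2,
            fun e => ((step y x h.symm).resolve_left fun h' => h'.2 e).2.2⟩) x₀ x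
        exact this ▸ hx₀
      have hinj : Function.Injective fun x => (f x).1 := fun x y e =>
        hf (Prod.ext e (by rw [hall, hall]))
      have hbij := (Fintype.bijective_iff_injective_and_card _).2 ⟨hinj, hc.symm⟩
      exact iso_of_hom hT hH (Equiv.ofBijective _ hbij) fun x y h =>
        ((step x y h).resolve_left fun h' => h'.2 (hall x)).1
    · exact absurd (fun x y h => ((step x y h).resolve_right fun h' => hsp ⟨x, h'.2.1⟩).1)
        (line true)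

section
variable [Fintype α] [Fintype X] [Fintype ι] [DecidableEq α] [DecidableEq X] [DecidableEq ι]

theorem LG_deg_le (h1 : ∀ i, s i * s i = 1) (p : α × X × ι) :
    (nb (LG T s i₀) p).card ≤ 2 * Fintype.card ι + Fintype.card α := by
  have : nb (LG T s i₀) p ⊆ (univ.image (pt s false (ln s false p)) ∪
      univ.image (pt s true (ln s true p))) ∪ univ.image fun a => (a, s i₀, i₀) := by
    intro q hq
    simp only [mem_union, mem_image, mem_univ, true_and]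
    rcases (mem_nb.1 hq).2 with ⟨σ, e, -⟩ | ⟨-, -, e⟩
    · have := pt_ln h1 σ q
      rw [← e] at this
      cases σ
      · exact Or.inl (Or.inl ⟨_, this⟩)
      · exact Or.inl (Or.inr ⟨_, this⟩)
    · exact Or.inr ⟨q.1, Prod.ext rfl e.symm⟩
  refine (card_le_card this).trans ((card_union_le _ _).trans (Nat.add_le_add
    ((card_union_le _ _).trans ?_) (card_image_le.trans (by simp))))
  have e1 := card_image_le (s := univ) (f := pt s false (ln s false p))
  have e2 := card_image_le (s := univ) (f := pt s true (ln s true p))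
  rw [card_univ] at e1 e2
  omega

theorem LG_deg_ge (h1 : ∀ i, s i * s i = 1) (h2 : Function.Injective s) (p : α × X × ι)
    (hp : (ln s true p).2 ≠ 1) : 2 * (Fintype.card ι - 1) ≤ (nb (LG T s i₀) p).card := by
  have hsub : ∀ σ, (univ.erase p.2.2).image (pt s σ (ln s σ p)) ⊆ nb (LG T s i₀) p := by
    intro σ q hq
    obtain ⟨j, hj, rfl⟩ := mem_image.1 hq
    have := adj_pt (T := T) (i₀ := i₀) h1 (σ := σ) (l := ln s σ p)
      (fun h => hp (h.1 ▸ h.2)) (ne_of_mem_erase hj).symm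
    rw [pt_ln h1] at this
    exact mem_nb.2 this
  have := card_le_card (union_subset (hsub false) (hsub true))
  rw [card_union_of_disjoint, card_image_of_injective _ (pt_inj _ _),
    card_image_of_injective _ (pt_inj _ _), card_erase_of_mem (mem_univ _), card_univ] at this
  · omega
  · rw [disjoint_left]
    intro q hq hq'
    obtain ⟨j, hj, e⟩ := mem_image.1 hq
    obtain ⟨j', -, e'⟩ := mem_image.1 hq'
    have : q = p := ln_both h2 (σ := false) (by rw [← e, ln_pt h1])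
      (by rw [← e']; exact ln_pt h1 true _ _)
    exact ne_of_mem_erase hj (congrArg (fun p => p.2.2) (e.trans this))

theorem LG_deg_sum (h1 : ∀ i, s i * s i = 1) (h2 : Function.Injective s) :
    2 * (Fintype.card ι - 1) * Fintype.card (α × X × ι) ≤ ∑ p, (nb (LG T s i₀) p).card +
      2 * (Fintype.card ι - 1) * (Fintype.card α * Fintype.card ι) := by
  have e1 : ∀ p : α × X × ι, 2 * (Fintype.card ι - 1) ≤ (nb (LG T s i₀) p).card +
      2 * (Fintype.card ι - 1) * if (ln s true p).2 = 1 then 1 else 0 := by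
    intro p
    split_ifs with h
    · omega
    · simpa using LG_deg_ge h1 h2 p h
  have e2 := sum_le_sum fun p (_ : p ∈ univ) => e1 p
  rw [sum_const, sum_add_distrib, ← mul_sum, ← card_filter, card_univ, smul_eq_mul,
    mul_comm] at e2
  refine e2.trans (Nat.add_le_add_left (Nat.mul_le_mul_left _ ?_) _)
  rw [← Fintype.card_prod, ← card_univ]
  refine card_le_card_of_injOn (fun p => (p.1, p.2.2)) (fun _ _ => by simp) ?_
  intro p hp q hq e
  simp only [coe_filter, mem_univ, true_and, Set.mem_ofPred_eq, Prod.mk.injEq] at hp hq e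
  have : ln s true p = ln s true q := Prod.ext e.1 (hp.trans hq.symm)
  rw [← pt_ln h1 true p, ← pt_ln h1 true q, this, e.2]

end

theorem sep_same [Fintype α] [Fintype β] (hT : T.IsTree) (hstar : ¬ ∃ r, ∀ a, a ≠ r → T.Adj r a)
    {H : SimpleGraph β} (hH : H.Connected) {k : ℕ} (hk : Fintype.card α = k + 2)
    (hc : Fintype.card α = Fintype.card β) (hiso : ¬ Nonempty (T ≃g H)) : Sep T H := by
  classical
  obtain ⟨S, hS1, hS2, hS3⟩ := exists_rt hT k hk
  have hflat : ¬ S.flat := fun h => hstar (hS2 h)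
  obtain ⟨D, hD⟩ : ∃ D, D = 2 * (k + 1) + (k + 2) := ⟨_, rfl⟩
  obtain ⟨K, hK⟩ : ∃ K, K = (1 + D) * (D + D * D).factorial := ⟨_, rfl⟩
  obtain ⟨M, hM⟩ : ∃ M, M = K * (2 * k * ((k + 2) * (k + 1))) := ⟨_, rfl⟩
  obtain ⟨X, _, _, s, h1, h2, -, h4⟩ := exists_sys (Fin (k + 1)) (2 * M + 1)
  refine ⟨α × X × Fin (k + 1), inferInstance, LG T s 0, ?_, fun ha => hiso
    (not_arr_LG h1 hT.isAcyclic hH hc (by simp; omega) ha)⟩
  intro C hle hcov
  by_contra hno
  push Not at hno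
  have hfree : ∀ b v x W, Copy (C b) S v W → x ∉ W → ¬ (C b).Adj v x :=
    fun b v x W hc hx hvx => hno b (hS3 _ _ v x W hc hx hvx)
  have hdeg : ∀ b v, (nb (C b) v).card ≤ D := by
    intro b v
    have e1 := LG_deg_le (T := T) (i₀ := (0 : Fin (k + 1))) h1 v
    rw [Fintype.card_fin, hk, ← hD] at e1
    exact (card_le_card fun x hx => mem_nb.2 (hle b (mem_nb.1 hx))).trans e1
  have hcount : (univ.filter fun v => ¬ Perfect (C false) k v).card +
      (univ.filter fun v => ¬ Perfect (C true) k v).card ≤ M := by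
    have e1 := stability hflat (hdeg false) (hfree false)
    have e2 := stability hflat (hdeg true) (hfree true)
    have e3 := LG_deg_sum (T := T) (i₀ := (0 : Fin (k + 1))) h1 h2
    have e4 := sum_le_sum fun v (_ : v ∈ univ) => deg_cover hcov v
    rw [sum_add_distrib] at e4
    rw [Fintype.card_fin, hk, Nat.add_sub_cancel] at e3
    rw [← hK, hS1] at e1 e2
    have e5 := Nat.mul_le_mul_left K (e3.trans (Nat.add_le_add_right e4 _))
    rw [hM]
    nlinarith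
  let Intact : Bool → α × X → Bool → Prop := fun σ l b =>
    ∀ i j, i ≠ j → (C b).Adj (pt s σ l i) (pt s σ l j)
  have pend : ∀ σ l b i x, Intact σ l b → (C b).Adj (pt s σ l i) x → ln s σ x = l := by
    intro σ l b i x hI hx
    obtain ⟨W, hW, hcopy⟩ := copy_of_clique (G := C b) S (Q := univ.image (pt s σ l))
      (v := pt s σ l i) (by
        intro y hy z hz hyz
        obtain ⟨a, -, rfl⟩ := mem_image.1 hy
        obtain ⟨c, -, rfl⟩ := mem_image.1 hz
        exact hI a c fun h => hyz (h ▸ rfl))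
      (mem_image_of_mem _ (mem_univ _))
      (by rw [card_image_of_injective _ (pt_inj _ _), hS1]; simp)
    by_contra hne
    refine hfree b _ x W hcopy (fun h => hne ?_) hx
    obtain ⟨a, -, rfl⟩ := mem_image.1 (hW h)
    exact ln_pt h1 _ _ _
  have perf : ∀ σ p, (ln s true p).2 ≠ 1 → (∀ b, Perfect (C b) k p) →
      ∃ b, Intact σ (ln s σ p) b := by
    intro σ p hp hP
    have hpres : ¬ (σ = true ∧ (ln s σ p).2 = 1) := fun h => hp (h.1 ▸ h.2)
    have hk0 : 0 < k := by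
      obtain ⟨S₁, -, f2, f3⟩ := exists_broom hflat
      by_contra h0
      have h0' : S.size = 0 := by omega
      apply hflat
      clear * - h0'
      induction S with
      | point => trivial
      | graft S _ => simp [RT.size] at h0'
      | glue S₁ S₂ ih₁ ih₂ =>
        rw [RT.size] at h0'
        exact ⟨ih₁ (by omega), ih₂ (by omega)⟩
    obtain ⟨j, hj⟩ : ∃ j : Fin (k + 1), j ≠ p.2.2 := by
      have : Nontrivial (Fin (k + 1)) := Fin.nontrivial_iff_two_le.2 (by omega)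
      exact exists_ne _
    have hadj := adj_pt (T := T) (i₀ := (0 : Fin (k + 1))) h1 hpres hj.symm
    rw [pt_ln h1] at hadj
    obtain ⟨b, hb⟩ := hcov _ _ hadj
    have hsub : nb (C b) p ⊆ (univ.erase p.2.2).image (pt s σ (ln s σ p)) := by
      intro z hz
      have hpz := hle b (mem_nb.1 hz)
      have hz' : ln s σ z = ln s σ p := by
        rcases hpz.2 with ⟨τ, e, -⟩ | ⟨-, e, -⟩
        · by_cases hτ : τ = σ
          · exact hτ ▸ e.symm
          rw [Bool.eq_not.2 hτ] at e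
          by_cases hzy : pt s σ (ln s σ p) j = z
          · rw [← hzy, ln_pt h1]
          have hyz := hle b ((hP b).2 _ _ hb (mem_nb.1 hz) hzy)
          rcases hyz.2 with ⟨τ', e', -⟩ | ⟨e', -, -⟩
          · by_cases hτ' : τ' = σ
            · rw [hτ', ln_pt h1] at e'
              exact e'.symm
            · rw [Bool.eq_not.2 hτ', ← e] at e'
              exact absurd (ln_both h2 (ln_pt h1 σ _ j) e') hadj.ne.symm
          · have : z.1 = p.1 := (congrArg Prod.fst e).symm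
            rw [this] at e'
            exact absurd e' T.irrefl
        · exact absurd (by simp [ln, e, h1]) hp
      refine mem_image.2 ⟨z.2.2, mem_erase.2 ⟨fun h => hpz.ne ?_, mem_univ _⟩, ?_⟩
      · rw [← pt_ln h1 σ p, ← pt_ln h1 σ z, hz', h]
      · rw [← hz', pt_ln h1]
    have heq := eq_of_subset_of_card_le hsub (by
      rw [card_image_of_injective _ (pt_inj _ _), card_erase_of_mem (mem_univ _), (hP b).1]
      simp)
    have hall : ∀ i, i ≠ p.2.2 → (C b).Adj p (pt s σ (ln s σ p) i) := fun i hi => by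
      rw [← mem_nb, heq]
      exact mem_image_of_mem _ (by simpa using hi)
    refine ⟨b, fun i i' hii => ?_⟩
    by_cases e : i = p.2.2
    · rw [e, pt_ln h1]
      exact hall i' (fun h => hii (e.trans h.symm))
    by_cases e' : i' = p.2.2
    · rw [e', pt_ln h1]
      exact (hall i e).symm
    exact (hP b).2 _ _ (hall i e) (hall i' e') fun h => hii (pt_inj _ _ h)
  have good : ∀ t σ y, ¬ (σ = true ∧ y = 1) → ∃ b, Intact σ (t, y) b := by
    intro t σ₀ y₀ hp₀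
    by_contra hbad
    have := h4 (fun y => ∃ σ, ¬ (σ = true ∧ y = 1) ∧ ¬ ∃ b, Intact σ (t, y) b) ?_
      ⟨y₀, σ₀, hp₀, hbad⟩
    · refine absurd this (not_lt.2 ?_)
      obtain ⟨N, hN⟩ : ∃ N, N = (univ.filter fun v => ¬ Perfect (C false) k v) ∪
        (univ.filter fun v => ¬ Perfect (C true) k v) := ⟨_, rfl⟩
      have hNc : N.card ≤ M := hN ▸ (card_union_le _ _).trans hcount
      refine le_trans (card_le_card (t := insert (s 0) ((N.image fun p => (ln s false p).2) ∪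
        N.image fun p => (ln s true p).2)) ?_) ?_
      · intro y hy
        simp only [mem_filter, mem_univ, true_and] at hy
        obtain ⟨σ, hy1, hy2⟩ := hy
        by_cases hy3 : y = s 0
        · simp [hy3]
        have hmem : pt s σ (t, y) 0 ∈ N := by
          by_contra hmem
          simp only [hN, mem_union, mem_filter, mem_univ, true_and, not_or, not_not] at hmem
          have := perf σ (pt s σ (t, y) 0) ?_ (fun b => by cases b; exacts [hmem.1, hmem.2])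
          · rw [ln_pt h1] at this
            exact hy2 this
          · cases σ
            · intro h
              have h' : s 0 * y = 1 := h
              exact hy3 (mul_left_cancel (h'.trans (h1 0).symm))
            · rw [ln_pt h1]
              exact fun h => hy1 ⟨rfl, h⟩
        refine mem_insert_of_mem (mem_union.2 ?_)
        cases σ
        · exact Or.inl (mem_image.2 ⟨_, hmem, by rw [ln_pt h1]⟩)
        · exact Or.inr (mem_image.2 ⟨_, hmem, by rw [ln_pt h1]⟩)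
      · refine (card_insert_le _ _).trans (Nat.add_le_add_right ((card_union_le _ _).trans ?_) 1)
        have e1 := card_image_le (s := N) (f := fun p => (ln s false p).2)
        have e2 := card_image_le (s := N) (f := fun p => (ln s true p).2)
        omega
    · rintro y ⟨σ, hy1, hy2⟩
      obtain ⟨i, j, hij, hi, hj⟩ := two_mixed
        (fun b i j => (C b).Adj (pt s σ (t, y) i) (pt s σ (t, y) j)) (fun _ _ _ h => h.symm)
        (fun i j hij => hcov _ _ (adj_pt h1 hy1 hij)) (fun b h => hy2 ⟨b, h⟩)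
      have key : ∀ i, (∀ b, ∃ m, m ≠ i ∧ (C b).Adj (pt s σ (t, y) i) (pt s σ (t, y) m)) →
          (∃ τ, ¬ (τ = true ∧ s i * y = 1) ∧ ¬ ∃ b, Intact τ (t, s i * y) b) ∨ s i * y = 1 := by
        intro i hi
        by_cases e : s i * y = 1
        · exact Or.inr e
        refine Or.inl ⟨!σ, fun h => e h.2, ?_⟩
        rintro ⟨b, hb⟩
        obtain ⟨m, hm, hadj⟩ := hi b
        have e1 := ln_pt' (s := s) σ (t, y) i
        have e2 := pt_ln h1 (!σ) (pt s σ (t, y) i)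
        rw [e1] at e2
        rw [← e2] at hadj
        have e3 := pend _ _ b _ _ hb hadj
        exact hm (pt_inj _ _ (ln_both h2 (σ := σ) (by rw [ln_pt h1, ln_pt h1])
          (e3.trans e1.symm)))
      exact ⟨i, j, hij, key i hi, key j hj⟩
  choose col hcol using fun t => good t false (s 0) (by simp)
  have hedge : ∀ t t', T.Adj t t' → (C (!col t)).Adj (t, s 0, 0) (t', s 0, 0) ∧
      ¬ (C (col t)).Adj (t, s 0, 0) (t', s 0, 0) := by
    intro t t' htt
    have hn : ¬ (C (col t)).Adj (t, s 0, 0) (t', s 0, 0) := fun h =>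
      htt.ne (congrArg Prod.fst (pend false (t, s 0) (col t) 0 _ (hcol t) h)).symm
    obtain ⟨b, hb⟩ := hcov (t, s 0, 0) (t', s 0, 0)
      ⟨fun h => htt.ne (congrArg Prod.fst h), Or.inr ⟨htt, rfl, rfl⟩⟩
    by_cases e : b = col t
    · exact absurd (e ▸ hb) hn
    · exact ⟨Bool.eq_not.2 e ▸ hb, hn⟩
  have hcst := const_of_conn hT.connected col fun t t' htt => by
    by_contra e
    have := (hedge t' t htt.symm).1.symm
    rw [← Bool.eq_not.2 e] at this
    exact (hedge t t' htt).2 this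
  obtain ⟨t₀⟩ := hT.connected.nonempty
  exact hno (!col t₀) ⟨fun t => (t, s 0, 0), fun _ _ h => congrArg Prod.fst h,
    fun t t' h => hcst t t₀ ▸ (hedge t t' h).1⟩

end Pool.Agent.MP_1c0fc2_co

end

section

/-! Every tree is Ramsey isolated. -/

namespace Pool.Agent.MP_1c0fc2_co

variable {V α β : Type}

theorem has_iff {G : SimpleGraph V} {T : SimpleGraph α} : Has G T ↔ T.IsContained G :=
  ⟨fun ⟨f, hf, h⟩ => ⟨⟨⟨f, fun {a b} => h a b⟩, hf⟩⟩,
    fun ⟨c⟩ => ⟨c.toHom, c.injective, fun _ _ h => c.toHom.map_rel h⟩⟩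

theorem arr_iff {G : SimpleGraph V} {T : SimpleGraph α} : Arr G T ↔ Arrows G T := by
  constructor
  · intro h R hR
    obtain ⟨b, hb⟩ := h (fun b => if b then R else G \ R)
      (fun b => by cases b; exacts [sdiff_le, hR])
      (fun x y hxy => by
        by_cases e : R.Adj x y
        · exact ⟨true, e⟩
        · exact ⟨false, hxy, e⟩)
    cases b
    · exact Or.inr (has_iff.1 hb)
    · exact Or.inl (has_iff.1 hb)
  · intro h C hle hcov
    rcases h (C false) (hle false) with h' | h'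
    · exact ⟨false, has_iff.2 h'⟩
    · refine ⟨true, has_iff.2 (h'.mono_right fun x y hxy => ?_)⟩
      obtain ⟨b, hb⟩ := hcov x y hxy.1
      cases b
      · exact absurd hb hxy.2
      · exact hb

theorem tree_isolated [Finite α] [Finite β] (T : SimpleGraph α) (H : SimpleGraph β)
    (hT : T.IsTree) (hH : H.Connected)
    (h : ∀ (V : Type) [Finite V] (G : SimpleGraph V), Arrows G T ↔ Arrows G H) :
    Nonempty (T ≃g H) := by
  classical
  have := Fintype.ofFinite α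
  have := Fintype.ofFinite β
  have n1 : ¬ Sep T H := fun ⟨V, _, G, h1, h2⟩ => h2 (arr_iff.2 ((h V G).1 (arr_iff.1 h1)))
  have n2 : ¬ Sep H T := fun ⟨V, _, G, h1, h2⟩ => h2 (arr_iff.2 ((h V G).2 (arr_iff.1 h1)))
  have hle : Fintype.card β ≤ Fintype.card α := not_lt.1 fun hlt => n1 (sep_size hT hH hlt)
  have := hT.connected.nonempty
  have := hH.nonempty
  have hpos : 0 < Fintype.card β := Fintype.card_pos
  have hH' : H.IsTree := by
    refine ⟨hH, ?_⟩
    by_contra hc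
    by_cases h1 : Fintype.card α = 1
    · have : Subsingleton β := Fintype.card_le_one_iff_subsingleton.1 (by omega)
      exact hc SimpleGraph.IsAcyclic.of_subsingleton
    · exact n1 (sep_cycle hT (k := Fintype.card α - 2) (by omega) hc)
  have hc : Fintype.card α = Fintype.card β :=
    le_antisymm (not_lt.1 fun hlt => n2 (sep_size hH' hT.connected hlt)) hle
  by_contra hiso
  by_cases h1 : Fintype.card α = 1
  · have : Subsingleton β := Fintype.card_le_one_iff_subsingleton.1 (by omega)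
    exact hiso (iso_of_hom hT.isAcyclic hH (Fintype.equivOfCardEq hc.symm)
      fun x y hxy => absurd (Subsingleton.elim x y) hxy.ne)
  by_cases s1 : ∃ r, ∀ a, a ≠ r → T.Adj r a
  · by_cases s2 : ∃ r, ∀ a, a ≠ r → H.Adj r a
    · obtain ⟨r, hr⟩ := s1
      obtain ⟨r', hr'⟩ := s2
      exact hiso (iso_of_stars hT.isAcyclic hH' hc hr hr')
    · exact n2 (sep_same hH' s2 hT.connected (k := Fintype.card β - 2) (by omega) hc.symm
        fun ⟨e⟩ => hiso ⟨e.symm⟩)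
  · exact n1 (sep_same hT s1 hH (k := Fintype.card α - 2) (by omega) hc hiso)

end Pool.Agent.MP_1c0fc2_co

end

section

/-! The descent on the blue potential and the final assembly. -/

open Function Set Relation

namespace Pool.Agent.MP_1c0fc2_co.RE

section Aux
variable {U V : Type} {A : SimpleGraph U} {B : SimpleGraph V}

theorem xboth_inl (A : SimpleGraph U) (B : SimpleGraph V) : IH A (A.sum B) Sum.inl :=
  ⟨Sum.inl_injective, fun _ _ e => SimpleGraph.sum_adj_inl.2 e⟩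

theorem xboth_inr (A : SimpleGraph U) (B : SimpleGraph V) : IH B (A.sum B) Sum.inr :=
  ⟨Sum.inr_injective, fun _ _ e => SimpleGraph.sum_adj_inr.2 e⟩

/-- a 2-connected set of the disjoint sum lies on one side -/
theorem xboth_side {S : Set (U ⊕ V)} (h : TwoConn (A.sum B) S) :
    (∃ k : U ⊕ V → U, IHo (A.sum B) A k S) ∨ ∃ k : U ⊕ V → V, IHo (A.sum B) B k S := by
  obtain ⟨a, ha⟩ := h.nonempty
  rcases a with a | a
  · have hs : S ⊆ range Sum.inl := h.conn.sub ha (mem_range_self a) (by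
      rintro _ - y - ⟨x, rfl⟩ e
      rcases y with y | y
      · exact mem_range_self y
      · exact absurd e (SimpleGraph.not_adj_sum_inl_inr x y))
    obtain ⟨k, hk, -⟩ := exists_pull' (J := A) (J' := A.sum B) Sum.inl_injective
      (fun _ _ e => SimpleGraph.sum_adj_inl.1 e) hs h.nonempty
    exact .inl ⟨k, hk⟩
  · have hs : S ⊆ range Sum.inr := h.conn.sub ha (mem_range_self a) (by
      rintro _ - y - ⟨x, rfl⟩ e
      rcases y with y | y
      · exact absurd e.symm (SimpleGraph.not_adj_sum_inl_inr y x)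
      · exact mem_range_self y)
    obtain ⟨k, hk, -⟩ := exists_pull' (J := B) (J' := A.sum B) Sum.inr_injective
      (fun _ _ e => SimpleGraph.sum_adj_inr.1 e) hs h.nonempty
    exact .inr ⟨k, hk⟩

/-- a connected graph with a cycle has no isolated vertex -/
theorem xboth_nb (h : A.Connected) (hc : ¬ A.IsAcyclic) (z : U) : ∃ z', A.Adj z z' := by
  have : Nontrivial U := by
    by_contra hn
    have : Subsingleton U := not_nontrivial_iff_subsingleton.1 hn
    exact hc SimpleGraph.IsAcyclic.of_subsingleton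
  obtain ⟨y, hy⟩ := exists_ne z
  obtain ⟨p⟩ := h.preconnected z y
  cases p with
  | nil => exact absurd rfl hy
  | cons e _ => exact ⟨_, e⟩

/-- the descent -/
theorem xboth_desc {a b : ℕ → Prop} {p : Prop} (ha : ¬ a 0) (hb : ¬ b 0)
    (hab : ∀ s, a (s + 1) → b s) (hp : p → ∀ s, b s → a s) (hq : ¬ p → ∀ s, b (s + 1) → a s)
    (s : ℕ) : ¬ a s := by
  induction s using Nat.strong_induction_on with
  | _ s ih =>
    intro h
    rcases s with _ | s
    · exact ha h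
    have h1 := hab s h
    by_cases e : p
    · exact ih s (by omega) (hp e s h1)
    · rcases s with _ | s
      · exact hb h1
      · exact ih s (by omega) (hq e s h1)

/-- the least value of a potential -/
theorem xboth_least {a : ℕ → Prop} (h0 : ¬ a 0) (n : ℕ) (hn : a n) : ∃ t, a (t + 1) ∧ ¬ a t := by
  induction n with
  | zero => exact absurd hn h0
  | succ n ih =>
    by_cases e : a n
    · exact ih e
    · exact ⟨n, hn, e⟩

theorem xboth_case {W : Type} (H : SimpleGraph W) (P : Par) (h : 3 ≤ P.vA) :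
    ∃ m, Case P H m := by
  by_cases e : P.vA = 3
  · by_cases e' : ∃ S, RO P H .N2 H S
    · exact ⟨.N2, e, e'⟩
    · exact ⟨.S2, e, fun S hS => e' ⟨S, hS⟩⟩
  · by_cases e' : ∃ S, RO P H .N1 H S
    · exact ⟨.N1, by omega, e'⟩
    · exact ⟨.S1, by omega, fun S hS => e' ⟨S, hS⟩⟩

/-- mutual containment of finite graphs gives an isomorphism -/
theorem xboth_iso [Finite U] [Finite V] (h : In A B) (h' : In B A) : Nonempty (A ≃g B) := by
  obtain ⟨f, hf⟩ := h
  obtain ⟨g, hg⟩ := h'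
  have hgf := hf.comp hg
  have hb : Bijective (g ∘ f) := Finite.injective_iff_bijective.1 hgf.1
  have hs : Surjective f := fun y => by
    obtain ⟨x, hx⟩ := hb.2 (g y)
    exact ⟨x, hg.1 hx⟩
  let σ : Equiv.Perm U := Equiv.ofBijective _ hb
  have hp : ∀ n x y, A.Adj (σ x) (σ y) → A.Adj ((σ ^ (n + 1)) x) ((σ ^ (n + 1)) y) := by
    intro n x y e
    induction n with
    | zero => simpa using e
    | succ n ih =>
      rw [pow_succ' σ (n + 1)]
      exact hgf.2 _ _ ih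
  obtain ⟨n, hn⟩ : ∃ n, σ ^ (n + 1) = 1 := by
    have h1 := orderOf_pos σ
    exact ⟨orderOf σ - 1, by rw [Nat.sub_add_cancel h1]; exact pow_orderOf_eq_one σ⟩
  refine ⟨⟨Equiv.ofBijective f ⟨hf.1, hs⟩, fun {x y} => ⟨fun e => ?_, hf.2 x y⟩⟩⟩
  have h2 := hp n x y (hg.2 _ _ e)
  rwa [hn] at h2

end Aux

theorem both_stmt (hPar : ParStmt) (hK3 : K3Stmt) (hROMono : ROMonoStmt) (hFam : FamStmt)
    (hInvA : InvAStmt) (hInvT : InvTStmt) (hInvR : InvRStmt) (hStepN : StepNStmt)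
    (hStepS : StepSStmt) : BothStmt := by
  intro U V _ _ A B cA cB nA nB iAB iBA
  have hA : In A (A.sum B) := ⟨_, xboth_inl A B⟩
  have hB : In B (A.sum B) := ⟨_, xboth_inr A B⟩
  obtain ⟨P, hP⟩ := hPar _ (A.sum B) fun h => nA (h.embedding SimpleGraph.Embedding.sumInl)
  have h3 : 3 ≤ P.vA := by
    obtain ⟨⟨h1, h2, -⟩, -⟩ := hK3 _ U (A.sum B) P hP
    exact h1.trans h2
  obtain ⟨m, hm⟩ := xboth_case (A.sum B) P h3
  have zA := xboth_nb cA nA
  have zB := xboth_nb cB nB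
  -- both graphs have `α`-sets
  have aAB : (∃ O, AS P (A.sum B) A O) ∧ ∃ O, AS P (A.sum B) B O := by
    obtain ⟨S, hS⟩ := hP.exA
    rcases xboth_side hS.two with ⟨k, hk⟩ | ⟨k, hk⟩
    · exact ⟨⟨_, hS.map hk⟩, (hInvA _ _ _ _ P hP B A hB iBA).1 ⟨_, hS.map hk⟩⟩
    · exact ⟨(hInvA _ _ _ _ P hP A B hA iAB).1 ⟨_, hS.map hk⟩, ⟨_, hS.map hk⟩⟩
  -- both graphs have `θ`-sets outside the first cone case
  have tAB : m ≠ .S1 → (∃ O, TH P (A.sum B) A O) ∧ ∃ O, TH P (A.sum B) B O := fun e => by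
    obtain ⟨S, hS⟩ := hP.exθ
    rcases xboth_side hS.two with ⟨k, hk⟩ | ⟨k, hk⟩
    · exact ⟨⟨_, hS.map hk⟩, hInvT _ _ _ _ P hP m e hm B A hB iBA aAB.1 ⟨_, hS.map hk⟩⟩
    · exact ⟨hInvT _ _ _ _ P hP m e hm A B hA iAB aAB.2 ⟨_, hS.map hk⟩, ⟨_, hS.map hk⟩⟩
  have bAB : (∃ O, BO P (A.sum B) m A O) ∧ ∃ O, BO P (A.sum B) m B O := by
    cases m
    exacts [tAB nofun, tAB nofun, aAB, tAB nofun]
  obtain ⟨mBA, fA, rA, zbA, zrA⟩ := hFam _ _ _ (A.sum B) P m A B
  obtain ⟨mAB, fB, -, zbB, -⟩ := hFam _ _ _ (A.sum B) P m B A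
  -- the step in both directions
  have step : (¬ In B A → ∀ s, BFam P (A.sum B) m A (s + 1) → BFam P (A.sum B) m B s) ∧
      (¬ In A B → ∀ s, BFam P (A.sum B) m B (s + 1) → BFam P (A.sum B) m A s) := by
    by_cases hN : m.IsN
    · have e : m ≠ .S1 := by
        rintro rfl
        exact hN
      obtain ⟨tA, tB⟩ := tAB e
      obtain ⟨oA, sA⟩ := hInvR _ _ _ _ P hP m hN hm A B hA hB zB iAB tB
      obtain ⟨-, sB⟩ := hInvR _ _ _ _ P hP m hN hm B A hB hA zA iBA tA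
      have hr : ∃ O, RO P (A.sum B) m A O := by
        obtain ⟨S, hS⟩ : ∃ S, RO P (A.sum B) m (A.sum B) S := by
          cases m
          exacts [hm.2, hm.2, hN.elim, hN.elim]
        rcases xboth_side hS.two with ⟨k, hk⟩ | ⟨k, hk⟩
        · exact ⟨_, hROMono _ _ _ _ P hP m _ A k _ S hk ((xboth_inl A B).on _) hS⟩
        · exact oA ⟨_, hROMono _ _ _ _ P hP m _ B k _ S hk ((xboth_inr A B).on _) hS⟩
      obtain ⟨t, h1, h2⟩ := xboth_least (zrA hr) _ rA
      exact ⟨fun n => hStepN _ _ _ _ P hP m hN hm A B hA hB cB zB iAB n t h1 fun h => h2 (sB t h),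
        fun n => hStepN _ _ _ _ P hP m hN hm B A hB hA cA zA iBA n t (sA _ h1) h2⟩
    · have hr : (∃ O, RO P (A.sum B) m A O) ∧ ∃ O, RO P (A.sum B) m B O := by
        cases m
        exacts [(hN trivial).elim, (hN trivial).elim, bAB, bAB]
      exact ⟨fun n => hStepS _ _ _ _ P hP m hN hm A B hA hB cB zB iAB n hr.2,
        fun n => hStepS _ _ _ _ P hP m hN hm B A hB hA cA zA iBA n hr.1⟩
  constructor
  · by_contra n
    exact xboth_desc (zbB bAB.2) (zbA bAB.1) (step.2 n) mBA step.1 _ fB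
  · by_contra n
    exact xboth_desc (zbA bAB.1) (zbB bAB.2) (step.1 n) mAB step.2 _ fA

theorem final_stmt (hBoth : BothStmt) : FinalStmt := by
  intro U V _ _ A B cA cB h
  by_cases nA : A.IsAcyclic
  · exact tree_isolated A B ⟨cA, nA⟩ cB h
  by_cases nB : B.IsAcyclic
  · obtain ⟨e⟩ := tree_isolated B A ⟨cB, nB⟩ cA fun Z _ G => (h Z G).symm
    exact ⟨e.symm⟩
  have kA : ∀ (Z : Type) (G : SimpleGraph Z), Arr G A ↔ Arrows G A := fun Z G =>
    forall₂_congr fun _ _ => or_congr in_iff in_iff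
  have kB : ∀ (Z : Type) (G : SimpleGraph Z), Arr G B ↔ Arrows G B := fun Z G =>
    forall₂_congr fun _ _ => or_congr in_iff in_iff
  obtain ⟨h1, h2⟩ := hBoth U V A B cA cB nA nB
    (fun Z _ G e => (kB Z G).2 ((h Z G).1 ((kA Z G).1 e)))
    (fun Z _ G e => (kA Z G).2 ((h Z G).2 ((kB Z G).1 e)))
  exact xboth_iso h1 h2

end Pool.Agent.MP_1c0fc2_co.RE

end

section

/-! Minimal branches and elimination orders. -/

open Function Set Relation

namespace Pool.Agent.MP_1c0fc2_co.RE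

/-- the side of `O` away from the component of `d` -/
theorem xbr_side {V : Type} {Y : SimpleGraph V} {Al Ob : Set V → Prop} (h : Atoms Y Al Ob)
    {O : Set V} (hO : Ob O) {d : V} (hd : d ∉ O) : ∃ D τ, d ∈ D ∧ Disjoint D O ∧ Al τ ∧
      Cut Y O τ (D ∪ τ)ᶜ ∧ ∀ O', Ob O' → d ∈ O' → O' ⊆ D ∪ τ := by
  have h1 : Disjoint (comp Y.Adj Oᶜ d) O := disjoint_left.2 fun _ hx => comp_sub hx
  have h2 := h.att O _ hO h1 (comp_conn (adj_symm' Y))
  have h3 : ∀ v w, w ∈ comp Y.Adj Oᶜ d → Y.Adj w v →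
      v ∈ comp Y.Adj Oᶜ d ∪ Nb Y O (comp Y.Adj Oᶜ d) := fun v w hw e => by
    by_cases hv : v ∈ O
    · exact Or.inr ⟨hv, w, hw, e.symm⟩
    · exact Or.inl (comp_closed hw hv e)
  refine ⟨_, _, mem_comp hd, h1, h2, ⟨fun _ hx => hx.1, fun x hx e => ?_,
    disjoint_left.2 fun _ hx e => hx (Or.inr e), fun v hv w e => ?_⟩, fun O' hO' hd' x hx => ?_⟩
  · exact e.elim (fun e => comp_sub e hx.1) hx.2
  · by_cases hw : w ∈ Nb Y O (comp Y.Adj Oᶜ d)
    · exact Or.inr hw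
    · exact Or.inl fun e' => e'.elim (fun e' => hv (h3 v w e' e.symm)) hw
  · by_cases hx' : x ∈ Nb Y O (comp Y.Adj Oᶜ d)
    · exact Or.inr hx'
    · exact Or.inl ((h.nsep O' _ hO' h2).1.sub (a := d) ⟨hd', fun e => hd e.1⟩ (mem_comp hd)
        (fun u _ v hv hu e => (h3 v u hu e).resolve_right hv.2) ⟨hx, hx'⟩)

theorem br_stmt : BrStmt := by
  intro V _ Y Al Ob h 𝒪 ⟨O₀, h0⟩ hOb c
  have hne : {z : Set V × Set V × Set V | z.1 ∈ 𝒪 ∧ Al z.2.1 ∧ Cut Y z.1 z.2.1 z.2.2 ∧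
      c ∉ z.2.2}.Nonempty := by
    by_cases hc : c ∈ O₀
    · exact ⟨(O₀, {c}, {c}ᶜ), h0, h.one c, ⟨singleton_subset_iff.2 hc, fun _ hx => hx.2,
        disjoint_compl_left, fun _ _ w _ => (em (w ∈ ({c} : Set V))).symm⟩, fun e => e rfl⟩
    · obtain ⟨D, τ, h1, -, h2, h3, -⟩ := xbr_side h (hOb _ h0) hc
      exact ⟨(O₀, τ, (D ∪ τ)ᶜ), h0, h2, h3, fun e => e (Or.inl h1)⟩
  obtain ⟨⟨O, τ, B⟩, ⟨h1, h2, h3, h4⟩, hmin⟩ :=
    exists_min_image _ (fun z => z.2.2.ncard) (toFinite _) hne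
  refine ⟨O, h1, τ, B, h2, h3, h4, fun O' h5 hne => disjoint_left.2 fun p hp hpB => ?_⟩
  have e1 : O' \ τ ⊆ B := (h.nsep O' τ (hOb _ h5) h2).1.sub (a := p)
    ⟨hp, disjoint_left.1 h3.2.2.1 hpB⟩ hpB
    fun u _ v hv hu e => (h3.2.2.2 u hu v e).resolve_right hv.2
  obtain ⟨x, hx, hx'⟩ := not_subset.1 fun e => hne (h.anti O O' (hOb _ h1) (hOb _ h5) e).symm
  obtain ⟨D, τ', -, g1, g2, g3, g4⟩ := xbr_side h (hOb _ h5) hx'
  have e2 := g4 O (hOb _ h1) hx
  have e3 : Cut Y O' τ' ((D ∪ τ')ᶜ ∩ B) := by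
    refine ⟨g3.1, fun s hs => ⟨g3.2.1 hs, e1 ⟨hs.1, fun e => ?_⟩⟩,
      g3.2.2.1.mono_left inter_subset_left, fun v hv w e => ?_⟩
    · exact g3.2.1 hs (e2 (h3.1 e))
    · refine (g3.2.2.2 v hv.1 w e).imp_left fun hw => ⟨hw, ?_⟩
      exact (h3.2.2.2 v hv.2 w e).resolve_right fun e' => hw (e2 (h3.1 e'))
  obtain ⟨y, hy⟩ := (h.nsep O τ (hOb _ h1) h2).2
  exact (hmin (O', τ', (D ∪ τ')ᶜ ∩ B) ⟨h5, g2, e3, fun e => h4 e.2⟩).not_gt
    (ncard_lt_ncard ⟨inter_subset_right, fun e => (e (h3.2.1 hy)).1 (e2 hy.1)⟩ (toFinite _))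

theorem eo_stmt (hBr : BrStmt) : EOStmt := by
  intro V _ Y Al Ob h
  have key : ∀ n, ∀ 𝒪 : Set (Set V), 𝒪.ncard = n → (∀ O ∈ 𝒪, Ob O) →
      ∃ (ρ : Set V → ℕ) (τ Br : Set V → Set V), (∀ O ∈ 𝒪, ∀ O' ∈ 𝒪, ρ O = ρ O' → O = O') ∧
        (∀ O ∈ 𝒪, Al (τ O) ∧ Cut Y O (τ O) (Br O)) ∧
        ∀ O ∈ 𝒪, ∀ O' ∈ 𝒪, ρ O < ρ O' → Disjoint O' (Br O) := by
    intro n
    induction n with
    | zero =>
      intro 𝒪 h0 _
      obtain rfl := (ncard_eq_zero (toFinite _)).1 h0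
      exact ⟨0, id, id, by simp, by simp, by simp⟩
    | succ n ih =>
      intro 𝒪 h0 hOb
      obtain ⟨O₁, h1⟩ : 𝒪.Nonempty := nonempty_of_ncard_ne_zero (by omega)
      obtain ⟨c, -⟩ := (h.nsep O₁ _ (hOb _ h1)
        (h.att O₁ ∅ (hOb _ h1) (empty_disjoint _) connOn_empty)).2
      obtain ⟨O₀, h2, τ₀, B₀, h3, h4, -, h5⟩ := hBr V Y Al Ob h 𝒪 ⟨O₁, h1⟩ hOb c
      obtain ⟨ρ, τ, Br, i1, i2, i3⟩ := ih (𝒪 \ {O₀})
        (by rw [ncard_sdiff_singleton_of_mem h2, h0]; rfl) fun O hO => hOb O hO.1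
      classical
      refine ⟨fun O => if O = O₀ then 0 else ρ O + 1, fun O => if O = O₀ then τ₀ else τ O,
        fun O => if O = O₀ then B₀ else Br O, fun O hO O' hO' e => ?_, fun O hO => ?_,
        fun O hO O' hO' e => ?_⟩
      · by_cases a : O = O₀ <;> by_cases b : O' = O₀
        · rw [a, b]
        · simp [a, b] at e
        · simp [a, b] at e
        · exact i1 O ⟨hO, a⟩ O' ⟨hO', b⟩ (by simpa [a, b] using e)
      · by_cases a : O = O₀
        · simp only [if_pos a]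
          exact ⟨h3, a ▸ h4⟩
        · simp only [if_neg a]
          exact i2 O ⟨hO, a⟩
      · by_cases a : O = O₀ <;> by_cases b : O' = O₀
        · simp [a, b] at e
        · simp only [if_pos a]
          exact h5 O' hO' b
        · simp [a, b] at e
        · simp only [if_neg a]
          exact i3 O ⟨hO, a⟩ O' ⟨hO', b⟩ (by simpa [a, b] using e)
  obtain ⟨ρ, τ, Br, i1, i2, i3⟩ := key _ {O | Ob O} rfl fun _ hO => hO
  exact ⟨ρ, τ, Br, fun O O' a b => i1 O a O' b, i2, fun O O' a b => i3 O a O' b⟩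

end Pool.Agent.MP_1c0fc2_co.RE

end

section

/-! Matchings of isolating edges. -/

open Function Set Relation

namespace Pool.Agent.MP_1c0fc2_co.RE

section
variable {W V : Type} {H : SimpleGraph W} {P : Par} {J M : SimpleGraph V}

theorem xbridge_ts [Finite V] {S : Set V} (h : TS P H (J \ M) S) : TS P H J S := by
  simpa using h.map ((ih_id (sdiff_le : J \ M ≤ J)).on S)

theorem xbridge_iso {O : Set V} {y y' : V} (h : Iso J {S | S ⊆ O ∧ TS P H J S} y y') :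
    y ∈ O ∧ y' ∈ O ∧ (TG P H J univ).Adj y y' := by
  obtain ⟨h1, ⟨S, hS, hy⟩, h2⟩ := h
  exact ⟨hS.1 hy, hS.1 (h2 S hS hy), h1, S, subset_univ _, hS.2, hy, h2 S hS hy⟩

theorem xbridge_kill [Finite W] [Finite V] (hEq : EqStmt) (hP : P.Ok H) (hJ : In J H)
    {O S : Set V} {y y' : V} (hM : M.Adj y y') (h : Iso J {S | S ⊆ O ∧ TS P H J S} y y')
    (hS : TS P H (J \ M) S) (hO : S ⊆ O) (hy : y ∈ S) : False := by
  obtain ⟨f, hf⟩ := hJ
  exact (hEq W V V H P hP (J \ M) J id f S ((ih_id sdiff_le).on S) (hf.on _) (Or.inl hS) y hy y'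
    (h.2.2 S ⟨hO, xbridge_ts hS⟩ hy) h.1).2 hM

theorem xbridge_path [Finite W] [Finite V] (hEq : EqStmt) (hAtomB : AtomBStmt) (hP : P.Ok H)
    (hJ : In J H) (hM : Mat M) (hY : M ≤ TG P H J univ) {O : Set V} {y y' : V}
    (hO : MaxB P H J O) (e : M.Adj y y') (h : Iso J {S | S ⊆ O ∧ TS P H J S} y y') :
    ¬ ReflTransGen (fun x z => ((TG P H (J \ M) univ).Adj x z ∨ M.Adj x z) ∧
      s(x, z) ≠ s(y, y')) y y' := by
  obtain ⟨hA, hB, -⟩ := hAtomB W V H P J
  obtain ⟨hy, hy', -⟩ := xbridge_iso h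
  have key : ∀ z, ReflTransGen (fun x z => ((TG P H (J \ M) univ).Adj x z ∨ M.Adj x z) ∧
      s(x, z) ≠ s(y, y')) y z → z = y ∨ ∃ C, Disjoint C O ∧ ConnOn (TG P H J univ).Adj C ∧
        z ∈ C ∧ ∃ c ∈ C, (TG P H J univ).Adj y c := by
    intro z p
    induction p with
    | refl => exact Or.inl rfl
    | @tail u w _ s ih =>
      have huw : (TG P H J univ).Adj u w :=
        s.1.elim ((ih_id (sdiff_le : J \ M ≤ J)).tg.2 u w) (@hY u w)
      rcases ih with rfl | ⟨C, c1, c2, c3, c4⟩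
      · by_cases hw : w ∈ O
        · rcases s.1 with ⟨-, S, -, hS, h1, h2⟩ | h1
          · exact (xbridge_kill hEq hP hJ e h hS (hB O S hO (xbridge_ts hS)
              fun hs => huw.ne (hs ⟨h1, hy⟩ ⟨h2, hw⟩)) h1).elim
          · exact (s.2 (by rw [hM _ _ _ h1 e])).elim
        · exact Or.inr ⟨{w}, disjoint_singleton_left.2 hw, connOn_singleton w, rfl, w, rfl, huw⟩
      · by_cases hw : w ∈ O
        · exact Or.inl (hA.att O C hO c1 c2 ⟨hw, u, c3, huw.symm⟩ ⟨hy, c4⟩)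
        · obtain ⟨c, c5, c6⟩ := c4
          exact Or.inr ⟨insert w C, disjoint_insert_left.2 ⟨hw, c1⟩,
            c2.insert (adj_symm' _) c3 huw.symm, mem_insert _ _, c, mem_insert_of_mem _ c5, c6⟩
  intro p
  rcases key y' p with h1 | ⟨C, c1, -, c3, -⟩
  · exact e.ne h1.symm
  · exact disjoint_left.1 c1 c3 hy'

end

theorem bridge_stmt (hEq : EqStmt) (hAtomB : AtomBStmt) : BridgeStmt := by
  intro W V _ _ H P hP J M hJ
  refine ⟨fun O y y' e hy h h2 => ?_, fun hM h a b e p => ?_⟩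
  · obtain ⟨c, -, -, S, hO, hS, h1, -⟩ := h2.nbr' hy
    exact xbridge_kill hEq hP hJ e h hS hO h1
  · have hY : M ≤ TG P H J univ := fun x z e' => by
      obtain ⟨O, y, y', -, h1, h2⟩ := h x z e'
      have := (xbridge_iso h2).2.2
      rcases Sym2.eq_iff.1 h1 with ⟨rfl, rfl⟩ | ⟨rfl, rfl⟩
      exacts [this, this.symm]
    obtain ⟨O, y, y', hO, h1, h2⟩ := h a b e
    rcases Sym2.eq_iff.1 h1 with ⟨rfl, rfl⟩ | ⟨rfl, rfl⟩
    · exact xbridge_path hEq hAtomB hP hJ hM hY hO e h2 p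
    · refine xbridge_path hEq hAtomB hP hJ hM hY hO e.symm h2 (rtg_mono ?_ p.swap)
      exact fun x z s => ⟨s.1.imp (fun t => t.symm) fun t => t.symm, by
        rw [Sym2.eq_swap, h1]
        exact s.2⟩

theorem mi_stmt (hAtomB : AtomBStmt) (hIE : IEStmt) (hBr : BrStmt) (hBridge : BridgeStmt) :
    MIStmt := by
  intro W V _ _ H P hP J hJ
  obtain ⟨hA, -, hC, hD⟩ := hAtomB W V H P J
  have key : ∀ 𝒪 : Set (Set V), (∀ O ∈ 𝒪, MaxB P H J O) → ∃ M : SimpleGraph V, Mat M ∧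
      (∀ a b, M.Adj a b → (∃ O ∈ 𝒪, a ∈ O) ∧ ∃ O y y', MaxB P H J O ∧ s(y, y') = s(a, b) ∧
        Iso J {S | S ⊆ O ∧ TS P H J S} y y') ∧
      ∀ O ∈ 𝒪, ∃ y y', M.Adj y y' ∧ Iso J {S | S ⊆ O ∧ TS P H J S} y y' := by
    intro 𝒪
    induction 𝒪 using WellFoundedLT.induction with
    | ind 𝒪 ih =>
      intro h𝒪
      rcases 𝒪.eq_empty_or_nonempty with rfl | hne
      · exact ⟨⊥, fun _ _ _ h => h.elim, fun _ _ h => h.elim, fun _ h => h.elim⟩
      obtain ⟨c, -⟩ := (h𝒪 _ hne.choose_spec).1.nonempty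
      obtain ⟨O, hO, τ, Br, h1, h2, -, h3⟩ := hBr V _ _ _ hA 𝒪 hne h𝒪 c
      obtain ⟨M, m1, m2, m3⟩ := ih (𝒪 \ {O}) (sdiff_singleton_ssubset.2 hO)
        fun O' h => h𝒪 O' h.1
      obtain ⟨r, hr⟩ : ∃ r, τ ⊆ {r} := by
        rcases h1.eq_empty_or_singleton with rfl | ⟨r, rfl⟩
        exacts [⟨c, empty_subset _⟩, ⟨r, subset_rfl⟩]
      obtain ⟨_, -, _, -, -, S, s1, s2, -⟩ := (hC O (h𝒪 O hO)).edge
      obtain ⟨y, y', y1, y2, hi⟩ := (hIE W V H P hP J hJ {S | S ⊆ O ∧ TS P H J S} ⟨S, s1, s2⟩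
        fun _ h => h.2).2 r
      obtain ⟨hy, hy', -⟩ := xbridge_iso hi
      have hn : ∀ a ∈ O, a ≠ r → ∀ b, ¬ M.Adj a b := fun a ha har b e => by
        obtain ⟨O', o1, o2⟩ := (m2 a b e).1
        exact disjoint_left.1 (h3 O' o1.1 o1.2) o2 (h2.2.1 ⟨ha, fun t => har (hr t)⟩)
      have n1 := hn y hy y1
      have n2 := hn y' hy' y2
      have n3 := hi.1.ne
      refine ⟨M ⊔ SimpleGraph.edge y y', fun a b d e e' => ?_, fun a b e => ?_, fun O' o => ?_⟩
      · have := m1 a b d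
        simp only [SimpleGraph.sup_adj, SimpleGraph.edge_adj] at e e'
        grind
      · rcases e with e | e
        · obtain ⟨⟨O', o1, o2⟩, o3⟩ := m2 a b e
          exact ⟨⟨O', o1.1, o2⟩, o3⟩
        · rcases ((SimpleGraph.edge_adj _ _ _ _).1 e).1 with ⟨rfl, rfl⟩ | ⟨rfl, rfl⟩
          · exact ⟨⟨O, hO, hy⟩, O, _, _, h𝒪 O hO, rfl, hi⟩
          · exact ⟨⟨O, hO, hy'⟩, O, _, _, h𝒪 O hO, Sym2.eq_swap, hi⟩
      · by_cases e : O' = O
        · exact ⟨y, y', Or.inr ((SimpleGraph.edge_adj _ _ _ _).2 ⟨Or.inl ⟨rfl, rfl⟩, n3⟩), e ▸ hi⟩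
        · obtain ⟨a, b, h4, h5⟩ := m3 O' ⟨o, e⟩
          exact ⟨a, b, Or.inl h4, h5⟩
  obtain ⟨M, m1, m2, m3⟩ := key {O | MaxB P H J O} fun _ h => h
  obtain ⟨b1, b2⟩ := hBridge W V H P hP J M hJ
  refine ⟨M, fun a b e => ?_, m1, b2 m1 fun a b e => (m2 a b e).2, fun S hS => ?_⟩
  · obtain ⟨O, y, y', -, h1, h2⟩ := (m2 a b e).2
    rcases Sym2.eq_iff.1 h1 with ⟨rfl, rfl⟩ | ⟨rfl, rfl⟩
    exacts [h2.1, h2.1.symm]
  · have : TH P H J S := by simpa using hS.map ((ih_id (sdiff_le : J \ M ≤ J)).on S)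
    obtain ⟨y, y', h1, h2⟩ := m3 S (hD hP hJ S this)
    exact b1 S y y' h1 (xbridge_iso h2).1 h2 hS.1

end Pool.Agent.MP_1c0fc2_co.RE

end

section

/-! The closing step: the Ramsey property. -/

open Function Set Relation

namespace Pool.Agent.MP_1c0fc2_co.RE

/-- the colours of the plain types -/
theorem xclose_nae {U S : Type} (A : SimpleGraph U) (Y : Set U) (Ok : S → S → Prop) (o : S)
    (ct : Sym2 S → Prop → Prop) (sl : S → S → U → S) (s1 : ∀ σ τ, ∀ a ∈ Y, sl σ τ a = σ)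
    (s2 : ∀ σ τ, ∀ a ∉ Y, sl σ τ a = τ)
    (hn : ∀ σ τ, Ok σ τ → ∀ red, red = cutG A Y ∨ red = covG A Y → ∀ β : Prop,
      ∃ a b, A.Adj a b ∧ (ct s(sl σ τ a, sl σ τ b) (red.Adj a b) ↔ β))
    (h0 : Ok o o) (h1 : ∀ σ τ, Ok σ τ → Ok σ σ ∧ Ok τ τ ∧ Ok σ o ∧ Ok o σ ∧ Ok τ o ∧ Ok o τ)
    {σ τ : S} (h : Ok σ τ) : ct s(σ, τ) True ↔ ¬ ct s(o, o) False := by
  have cut : ∀ σ τ, Ok σ τ → ∀ β : Prop, (ct s(σ, σ) False ↔ β) ∨ (ct s(σ, τ) True ↔ β) ∨
      (ct s(τ, τ) False ↔ β) := by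
    intro σ τ h β
    obtain ⟨a, b, e, k⟩ := hn σ τ h _ (.inl rfl) β
    by_cases ha : a ∈ Y <;> by_cases hb : b ∈ Y
    · rw [s1 _ _ _ ha, s1 _ _ _ hb, eq_false fun h : (cutG A Y).Adj a b => h.2.1 ha hb] at k
      exact .inl k
    · rw [s1 _ _ _ ha, s2 _ _ _ hb, @eq_true ((cutG A Y).Adj a b) ⟨e, by tauto⟩] at k
      exact .inr (.inl k)
    · rw [s2 _ _ _ ha, s1 _ _ _ hb, @eq_true ((cutG A Y).Adj a b) ⟨e, by tauto⟩, Sym2.eq_swap] at k
      exact .inr (.inl k)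
    · rw [s2 _ _ _ ha, s2 _ _ _ hb, eq_false fun h : (cutG A Y).Adj a b => ha (h.2.2 hb)] at k
      exact .inr (.inr k)
  have cov : ∀ σ τ, Ok σ τ → ∀ β : Prop, (ct s(σ, σ) True ↔ β) ∨ (ct s(σ, τ) True ↔ β) ∨
      (ct s(τ, τ) False ↔ β) := by
    intro σ τ h β
    obtain ⟨a, b, e, k⟩ := hn σ τ h _ (.inr rfl) β
    by_cases ha : a ∈ Y <;> by_cases hb : b ∈ Y
    · rw [s1 _ _ _ ha, s1 _ _ _ hb, @eq_true ((covG A Y).Adj a b) ⟨e, .inl ha⟩] at k
      exact .inl k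
    · rw [s1 _ _ _ ha, s2 _ _ _ hb, @eq_true ((covG A Y).Adj a b) ⟨e, .inl ha⟩] at k
      exact .inr (.inl k)
    · rw [s2 _ _ _ ha, s1 _ _ _ hb, @eq_true ((covG A Y).Adj a b) ⟨e, .inr hb⟩, Sym2.eq_swap] at k
      exact .inr (.inl k)
    · rw [s2 _ _ _ ha, s2 _ _ _ hb, eq_false fun h : (covG A Y).Adj a b => h.2.elim ha hb] at k
      exact .inr (.inr k)
  have k1 : ∀ σ, Ok σ σ → (ct s(σ, σ) True ↔ ¬ ct s(σ, σ) False) := fun σ h => by
    have := cut σ σ h (¬ ct s(σ, σ) False)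
    tauto
  have k2 : ∀ σ, Ok σ σ → Ok σ o → Ok o σ → (ct s(σ, σ) False ↔ ct s(o, o) False) := by
    intro σ a1 a2 a3
    have b1 := cut σ o a2 (¬ ct s(o, o) False)
    have b2 := cov σ o a2 (¬ ct s(o, o) False)
    have b3 := cov o σ a3 (ct s(o, o) False)
    have b4 := k1 σ a1
    have b5 := k1 o h0
    rw [Sym2.eq_swap (a := o) (b := σ)] at b3
    tauto
  obtain ⟨a1, a2, a3, a4, a5, a6⟩ := h1 σ τ h
  have b1 := k2 σ a1 a3 a4
  have b2 := k2 τ a2 a5 a6
  have b3 := cut σ τ h (¬ ct s(o, o) False)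
  tauto

namespace CH
open CD
variable {U X V : Type} [Finite U] [Finite V] {c : CD U X V} (h : CH c)

/-- pairs of slots that may be used together -/
def SOk (c : CD U X V) (σ τ : Option V) : Prop :=
  (∀ u, σ = some u → ∃ v, c.D.Adj u v) ∧ (∀ u, τ = some u → ∃ v, c.D.Adj u v) ∧
    (c.kd σ = c.kd τ → σ = τ)

omit [Finite U] [Finite V] in
theorem kd_none {σ : Option V} (e : c.kd σ = c.kd none) : σ = none := Option.map_eq_none_iff.1 e

theorem ram (hD : ∃ u v, c.D.Adj u v) (hr : MRam h.φ ((V → V → Prop) × Prop) univ) :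
    RamOn c.A h.G' h.R' ⊥ := by
  classical
  intro T hT _
  by_contra hno
  obtain ⟨p, hp⟩ := hr fun d => (fun u v => ∃ hd : h.H.ty d = none,
    T.Adj (h.ι ⟨d, hd⟩ u) (h.ι ⟨d, hd⟩ v), ∃ r x y, h.PlOn d r x y ∧ T.Adj x y)
  have hty : ∀ {j j' : c.J} {a b a' b' : U} (e : c.A.Adj a b) (e' : c.A.Adj a' b'),
      h.H.ty (h.ed p j e) = h.H.ty (h.ed p j' e') → c.F.ty ⟨(j, s(a, b)), e⟩ =
        c.F.ty ⟨(j', s(a', b')), e'⟩ := fun e e' k =>
    ((h.φ p).ty_e _).symm.trans (k.trans ((h.φ p).ty_e _))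
  have mono : ∀ (j : c.J) (β : Prop), ∃ a b, c.A.Adj a b ∧
      (T.Adj (h.tb p j a) (h.tb p j b) ↔ β) := by
    intro j β
    by_contra hc
    have k : ∀ a b, c.A.Adj a b → ¬ (T.Adj (h.tb p j a) (h.tb p j b) ↔ β) :=
      fun a b e k => hc ⟨a, b, e, k⟩
    by_cases hβ : β
    · exact hno (.inr ⟨_, h.tb_inj p j, fun a b e => ⟨h.G'_tb.2 e,
        fun t => k a b e (iff_of_true t hβ)⟩⟩)
    · exact hno (.inl ⟨_, h.tb_inj p j, fun a b e => by_contra fun t => k a b e (iff_of_false t hβ)⟩)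
  have hpl : ∀ (j : c.J) {a b : U} (e : c.A.Adj a b), ¬ (old j).Adj a b →
      ((∃ r x y, h.PlOn (h.ed p j e) r x y ∧ T.Adj x y) ↔ T.Adj (h.tb p j a) (h.tb p j b)) := by
    refine fun j a b e ho => ⟨?_, fun t => ⟨_, _, _, h.ed_plain p e ho, t⟩⟩
    rintro ⟨r, x, y, h1, t⟩
    obtain ⟨j', a', b', e', h2, -, -, rfl, rfl⟩ := h1.top (p := p) ⟨.inr _, rfl⟩
    obtain ⟨rfl, h3⟩ := Prod.mk.inj (congrArg Subtype.val ((h.φ p).e_inj h2))
    rcases Sym2.eq_iff.1 h3 with ⟨rfl, rfl⟩ | ⟨rfl, rfl⟩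
    exacts [t, t.symm]
  let ct : Sym2 (Option V) → Prop → Prop := fun s r => ∃ (j : c.J) (a b : U), c.A.Adj a b ∧
    ¬ (old j).Adj a b ∧ s(sl j a, sl j b) = s ∧ (red j).Adj a b = r ∧
      T.Adj (h.tb p j a) (h.tb p j b)
  have hct : ∀ (j : c.J) (a b : U), c.A.Adj a b → ¬ (old j).Adj a b →
      (ct s(sl j a, sl j b) ((red j).Adj a b) ↔ T.Adj (h.tb p j a) (h.tb p j b)) := by
    refine fun j a b e ho => ⟨?_, fun t => ⟨j, a, b, e, ho, rfl, rfl, t⟩⟩
    rintro ⟨j', a', b', e', ho', h1, h2, t⟩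
    have k := congrArg Prod.snd (hp _ _ trivial (hty e e' (by
      rw [h.ed_some p e ho, h.ed_some p e' ho', h1, h2])))
    exact (hpl j e ho).1 (k.mpr ((hpl j' e' ho').2 t))
  have hnone : ∀ u, (none : Option V) = some u → ∃ v, c.D.Adj u v := fun _ e => by simp at e
  have nae : ∀ σ τ, SOk c σ τ → (ct s(σ, τ) True ↔ ¬ ct s(none, none) False) := fun σ τ hs => by
    refine xclose_nae c.A c.E.S (SOk c) none ct (fun σ τ a => if a ∈ c.E.S then σ else τ)
      (fun _ _ _ ha => if_pos ha) (fun _ _ _ ha => if_neg ha) ?_ ⟨hnone, hnone, fun _ => rfl⟩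
      (fun σ τ k => ⟨⟨k.1, k.1, fun _ => rfl⟩, ⟨k.2.1, k.2.1, fun _ => rfl⟩,
        ⟨k.1, hnone, kd_none⟩, ⟨hnone, k.1, fun e => (kd_none e.symm).symm⟩,
        ⟨k.2.1, hnone, kd_none⟩, ⟨hnone, k.2.1, fun e => (kd_none e.symm).symm⟩⟩) hs
    intro σ τ k rd hrd β
    let j : c.J := ⟨(fun a => if a ∈ c.E.S then σ else τ, ⊥, rd), .inr ⟨rfl, hrd⟩,
      fun _ _ e => e.elim, fun a u => by
        dsimp only
        split_ifs
        exacts [k.1 u, k.2.1 u], fun a b => by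
        dsimp only
        split_ifs
        exacts [fun _ => rfl, k.2.2, fun e => (k.2.2 e.symm).symm, fun _ => rfl]⟩
    obtain ⟨a, b, e, t⟩ := mono j β
    exact ⟨a, b, e, (hct j a b e fun e => e.elim).trans t⟩
  obtain ⟨side, hside⟩ := c.ok.bip
  have big : ∀ u v, c.D.Adj u v → ∃ d : h.Big, (∃ e, (h.φ p).e e = d.1 ∧ c.F.ty e = none) ∧
      (T.Adj (h.ι d u) (h.ι d v) ↔ ct s(none, none) False) := by
    intro u v huv
    let s0 : U → Option V := fun a =>
      if a ∈ c.E.F.support then (if side a = true then some u else some v) else none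
    have hs0 : ∀ a, s0 a = some u ∨ s0 a = some v ∨ s0 a = none := fun a => by
      simp only [s0]
      split_ifs <;> simp
    have hF : ∀ a b, c.E.F.Adj a b →
        (s0 a = some u ∧ s0 b = some v) ∨ (s0 a = some v ∧ s0 b = some u) := fun a b e => by
      have := hside a b e
      have ha : a ∈ c.E.F.support := ⟨b, e⟩
      have hb : b ∈ c.E.F.support := ⟨a, e.symm⟩
      simp only [s0, if_pos ha, if_pos hb]
      revert this
      cases side a <;> cases side b <;> simp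
    have hk : ∀ a b, SOk c (s0 a) (s0 b) := fun a b => by
      have k1 : ∀ a w, s0 a = some w → ∃ z, c.D.Adj w z := fun a w e => by
        rcases hs0 a with e' | e' | e' <;> rw [e'] at e
        exacts [⟨v, Option.some.inj e ▸ huv⟩, ⟨u, Option.some.inj e ▸ huv.symm⟩, hnone w e]
      refine ⟨k1 a, k1 b, fun e => ?_⟩
      rcases hs0 a with e1 | e1 | e1 <;> rcases hs0 b with e2 | e2 | e2 <;> rw [e1, e2] at e ⊢
      exacts [absurd (Option.some.inj e) (c.cell_ne huv), kd_none e,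
        absurd (Option.some.inj e) (c.cell_ne huv.symm), kd_none e, (kd_none e.symm).symm,
        (kd_none e.symm).symm]
    let j : c.J := ⟨(s0, c.E.F, c.A \ c.E.F), .inl ⟨rfl, rfl⟩, fun a b e =>
      (hF a b e).elim (fun k => ⟨u, v, huv, k⟩) fun k => ⟨v, u, huv.symm, k⟩,
      fun a w => (hk a a).1 w, fun a b => (hk a b).2.2⟩
    obtain ⟨a, b, e, t⟩ := mono j (ct s(none, none) False)
    have ho : (old j).Adj a b := by
      by_contra ho
      have k1 := hct j a b e ho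
      rw [@eq_true ((red j).Adj a b) ⟨e, ho⟩] at k1
      exact iff_not_self (t.symm.trans (k1.symm.trans (nae _ _ (hk a b))))
    obtain ⟨u', v', -, h1, h2, h3, h4⟩ := h.old_ι p ho
    refine ⟨⟨h.ed p j (old_le j ho), h.ed_none.2 ho⟩, ⟨_, rfl, c.fty_none.2 ho⟩, ?_⟩
    rw [h3, h4] at t
    rcases hF a b ho with ⟨k1, k2⟩ | ⟨k1, k2⟩
    · rwa [Option.some.inj (k1.symm.trans h1), Option.some.inj (k2.symm.trans h2)]
    · rwa [Option.some.inj (k1.symm.trans h1), Option.some.inj (k2.symm.trans h2), T.adj_comm]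
  obtain ⟨u0, v0, h0⟩ := hD
  obtain ⟨d, ⟨e0, d1, d2⟩, -⟩ := big u0 v0 h0
  have all : ∀ u v, c.D.Adj u v → (T.Adj (h.ι d u) (h.ι d v) ↔ ct s(none, none) False) := by
    intro u v huv
    obtain ⟨d', ⟨e', k1, k2⟩, t⟩ := big u v huv
    have k := congrFun₂ (congrArg Prod.fst (hp e0 e' trivial (d2.trans k2.symm))) u v
    obtain ⟨d, hd⟩ := d
    obtain ⟨d', hd'⟩ := d'
    obtain rfl : (h.φ p).e e0 = d := d1
    obtain rfl : (h.φ p).e e' = d' := k1
    exact ⟨fun t' => t.1 (k.mp ⟨hd, t'⟩).2, fun t' => (k.mpr ⟨hd', t.2 t'⟩).2⟩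
  have i1 : ∀ K : SimpleGraph V, (∀ u v, K.Adj u v → T.Adj (h.ι d u) (h.ι d v)) → ¬ In c.A K :=
    fun K hK hi => hno (.inl (hi.trans ⟨_, h.ι_inj d, hK⟩))
  have i2 : ∀ K : SimpleGraph V, K ≤ c.G → (∀ u v, K.Adj u v → ¬ T.Adj (h.ι d u) (h.ι d v)) →
      ¬ In c.A K := fun K hG hK hi =>
    hno (.inr (hi.trans ⟨_, h.ι_inj d, fun u v e => ⟨h.G'_ι.2 (hG e), hK u v e⟩⟩))
  by_cases hβ : ct s(none, none) False
  · rcases c.lev.ram (c.G \ T.comap (h.ι d)) sdiff_le (fun u v e => iff_of_false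
      (fun k => k.2 ((all u v e).2 hβ)) (c.blue e).2) with k | k
    · exact i2 _ sdiff_le (fun _ _ e => e.2) k
    · exact i1 (c.G \ (c.G \ T.comap (h.ι d))) (fun _ _ e => by_contra fun t => e.2 ⟨e.1, t⟩) k
  · rcases c.lev.ram (T.comap (h.ι d)) (fun u v e => h.G'_ι.1 (hT e)) (fun u v e => iff_of_false
      (fun k => hβ ((all u v e).1 k)) (c.blue e).2) with k | k
    · exact i1 _ (fun _ _ e => e) k
    · exact i2 _ sdiff_le (fun _ _ e => e.2) k

end CH

theorem close_stmt (hMT : MTStmt) : CloseStmt := by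
  intro U X V _ _ _ A E Γ RΓ Hub G R D Gs Bs g hE hL hb hf
  by_cases hD : ∃ u v, D.Adj u v
  · let c : CD U X V := ⟨A, E, Γ, RΓ, Hub, G, R, D, Gs, Bs, g, hE, hL, hb, hf⟩
    obtain ⟨H, Q, _, φ, h1, h2⟩ := hMT _ _ c.prof c.F c.F_lin ((V → V → Prop) × Prop) g
    let h : CH c := ⟨H, Q, φ, h1⟩
    exact ⟨h.W, inferInstance, h.G', h.R', h.Gs', h.Bs', h.last h.thin (h.ram hD h2)⟩
  · exact ⟨V, inferInstance, G, R, Gs, Bs, hL.core, fun β hβ => .inl (hL.low β hβ),
      fun R' h1 _ => hL.ram R' h1 fun x y e => absurd ⟨x, y, e⟩ hD⟩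

end Pool.Agent.MP_1c0fc2_co.RE

end

section

open Function Set Relation

namespace Pool.Agent.MP_1c0fc2_co.RE

theorem ie_stmt (hK3 : K3Stmt) (hIE3 : IE3Stmt) (hIE4 : IE4Stmt) : IEStmt := by
  intro W V _ _ H P hP
  rcases (hK3 W V H P hP).1.1.eq_or_lt with h | h
  exacts [hIE3 W V H P hP h.symm, hIE4 W V H P hP h]

theorem col2_stmt (hIE : IEStmt) : Col2Stmt := by
  classical
  intro W V _ _ H P hP J hJ 𝒯 h𝒯 χ0 p q
  induction hn : 𝒯.ncard using Nat.strong_induction_on generalizing 𝒯 with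
  | _ n ih =>
  rcases 𝒯.eq_empty_or_nonempty with rfl | hne
  · exact ⟨χ0, rfl, rfl, fun _ h => h.elim⟩
  obtain ⟨y, y', hp, hq, e, ⟨S0, h0, hy0⟩, h1⟩ := (hIE W V H P hP J hJ 𝒯 hne h𝒯).1 p q
  obtain ⟨χ, c1, c2, c3⟩ := ih _ (hn ▸ ncard_lt_ncard (s := {S | S ∈ 𝒯 ∧ y ∉ S})
    ⟨fun _ h => h.1, fun h => (h h0).2 hy0⟩ (toFinite _)) _ (fun S h => h𝒯 S h.1) rfl
  refine ⟨update χ y (!χ y'), by rwa [update_of_ne hp.symm], by rwa [update_of_ne hq.symm],
    fun S hS => ?_⟩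
  by_cases h : y ∈ S
  · refine ⟨y, h, y', h1 S hS h, ?_⟩
    rw [update_self, update_of_ne e.ne']
    simp
  · obtain ⟨a, ha, b, hb, hab⟩ := c3 S ⟨hS, h⟩
    refine ⟨a, ha, b, hb, ?_⟩
    rwa [update_of_ne (fun e => h (e ▸ ha) : a ≠ y), update_of_ne (fun e => h (e ▸ hb) : b ≠ y)]

section
variable {W V : Type} {H : SimpleGraph W} {P : Par} {J : SimpleGraph V}

/-- good colourings of `Z` -/
def xcol2_G (P : Par) (H : SimpleGraph W) (J : SimpleGraph V) (Z : Set V) (χ : V → Bool) : Prop :=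
  (∀ S, S ⊆ Z → TS P H J S → ∃ a ∈ S, ∃ b ∈ S, χ a ≠ χ b) ∧
    ∀ S, S ⊆ Z → AS P H J S → ∃ a ∈ S, ∃ b ∈ S, χ a = false ∧ χ b = false ∧ J.Adj a b

theorem xcol2_edge {S : Set V} (h : ConnOn J.Adj S) (h2 : ¬ S.Subsingleton) :
    ∃ a ∈ S, ∃ b ∈ S, J.Adj a b := by
  obtain ⟨a, ha, b, hb, hab⟩ := not_subsingleton_iff.1 h2
  obtain ⟨y, hy, -, e⟩ := h.step ha hb hab.symm
  exact ⟨a, ha, y, hy, e⟩

theorem xcol2_glue {Z κ A B : Set V} (hT : ∀ S, TS P H J S ∨ AS P H J S → ConnOn J.Adj (S \ κ))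
    (hc : Z \ κ ⊆ A ∪ B) (hd : Disjoint A B) (hn : ∀ a ∈ A, ∀ b ∈ B, ¬ J.Adj a b)
    (hA : Disjoint A κ) (hB : Disjoint B κ) {χ1 χ2 : V → Bool} (h12 : ∀ x ∈ κ, χ2 x = χ1 x)
    (h1 : xcol2_G P H J (Z \ B) χ1) (h2 : xcol2_G P H J (Z \ A) χ2) :
    ∃ χ, (∀ x ∉ B, χ x = χ1 x) ∧ xcol2_G P H J Z χ := by
  classical
  have side : ∀ S, S ⊆ Z → TS P H J S ∨ AS P H J S → S ⊆ Z \ B ∨ S ⊆ Z \ A := fun S hS h => by
    by_contra hx
    simp only [not_or, not_subset] at hx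
    obtain ⟨⟨b, hb, hb'⟩, a, ha, ha'⟩ := hx
    have e1 : b ∈ B := by_contra fun e => hb' ⟨hS hb, e⟩
    have e2 : a ∈ A := by_contra fun e => ha' ⟨hS ha, e⟩
    obtain ⟨x, hx, y, hy, h3, h4, h5⟩ := (hT S h).cross (Y := A) ⟨ha, disjoint_left.1 hA e2⟩
      ⟨hb, disjoint_left.1 hB e1⟩ e2 (disjoint_right.1 hd e1)
    exact hn x h3 y ((hc ⟨hS hy.1, hy.2⟩).resolve_left h4) h5
  have e1 : ∀ x ∉ B, (if x ∈ B then χ2 x else χ1 x) = χ1 x := fun x hx => if_neg hx
  have e2 : ∀ x ∈ Z \ A, (if x ∈ B then χ2 x else χ1 x) = χ2 x := fun x hx => by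
    split_ifs with h
    · rfl
    · exact (h12 x (by_contra fun e => (hc ⟨hx.1, e⟩).elim hx.2 h)).symm
  refine ⟨fun x => if x ∈ B then χ2 x else χ1 x, e1, fun S hS h => ?_, fun S hS h => ?_⟩
  · rcases side S hS (.inl h) with e | e
    · obtain ⟨a, ha, b, hb, hab⟩ := h1.1 S e h
      exact ⟨a, ha, b, hb, by simp only [e1 a (e ha).2, e1 b (e hb).2]; exact hab⟩
    · obtain ⟨a, ha, b, hb, hab⟩ := h2.1 S e h
      exact ⟨a, ha, b, hb, by simp only [e2 a (e ha), e2 b (e hb)]; exact hab⟩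
  · rcases side S hS (.inr h) with e | e
    · obtain ⟨a, ha, b, hb, hab⟩ := h1.2 S e h
      exact ⟨a, ha, b, hb, by simp only [e1 a (e ha).2, e1 b (e hb).2]; exact hab⟩
    · obtain ⟨a, ha, b, hb, hab⟩ := h2.2 S e h
      exact ⟨a, ha, b, hb, by simp only [e2 a (e ha), e2 b (e hb)]; exact hab⟩

theorem xcol2_full (hA : Atoms J (Cq J) (AS P H J)) {Z O : Set V}
    (hZ : ∀ κ, Cq J κ → ConnOn J.Adj (Z \ κ)) (hO : AS P H J O) (hOZ : O ⊆ Z) : Z ⊆ O := by
  intro w hw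
  by_contra hwO
  have hk := hA.att O (comp J.Adj (Z \ O) w) hO (disjoint_left.2 fun _ h => (comp_sub h).2)
    (comp_conn (adj_symm' J))
  obtain ⟨x, hx⟩ := (hA.nsep O _ hO hk).2
  obtain ⟨a, -, b, hb, h1, h2, h3⟩ := (hZ _ hk).cross (Y := comp J.Adj (Z \ O) w)
    ⟨hw, fun h => hwO h.1⟩ ⟨hOZ hx.1, hx.2⟩ (mem_comp ⟨hw, hwO⟩) fun h => (comp_sub h).2 hx.1
  exact hb.2 ⟨by_contra fun h => h2 (comp_closed h1 ⟨hb.1, h⟩ h3), a, h1, h3.symm⟩

theorem xcol2_prime [Finite V] (hv : 4 ≤ P.vA) (hA : Atoms J (Cq J) (AS P H J)) {Z : Set V}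
    (hZ : ∀ κ, Cq J κ → ConnOn J.Adj (Z \ κ)) {p q : V} (hpq : p = q ∨ J.Adj p q)
    (χ0 : V → Bool) (h0 : ∃ χ : V → Bool, χ p = χ0 p ∧ χ q = χ0 q ∧
      ∀ S, S ⊆ Z → TS P H J S → ∃ a ∈ S, ∃ b ∈ S, χ a ≠ χ b) :
    ∃ χ : V → Bool, χ p = χ0 p ∧ χ q = χ0 q ∧ xcol2_G P H J Z χ := by
  classical
  obtain ⟨χ, ⟨c1, c2, c3⟩, hm⟩ := exists_min_image {χ : V → Bool | χ p = χ0 p ∧ χ q = χ0 q ∧
    ∀ S, S ⊆ Z → TS P H J S → ∃ a ∈ S, ∃ b ∈ S, χ a ≠ χ b} (fun χ => {x | χ x = true}.ncard)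
    (toFinite _) h0
  refine ⟨χ, c1, c2, c3, fun O hOZ hO => ?_⟩
  have hZO := xcol2_full hA hZ hO hOZ
  by_contra hx
  have key : ∀ x, x ≠ p → x ≠ q → χ x = false := fun x hp hq => by
    by_contra hc
    refine (hm (update χ x false) ⟨by rwa [update_of_ne hp.symm], by rwa [update_of_ne hq.symm],
      fun S hS hT => ?_⟩).not_gt (ncard_lt_ncard ⟨fun y hy => ?_, fun h => ?_⟩ (toFinite _))
    · by_contra hm
      simp only [not_exists, not_and, not_not] at hm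
      by_cases hxS : x ∈ S
      · obtain ⟨a, ha, ha1, -⟩ := hT.two.exists_ne x x
        obtain ⟨b, hb, hb1, e⟩ := hT.two.nbr ha x ha1
        have e1 := hm a ha x hxS
        have e2 := hm b hb x hxS
        rw [update_self, update_of_ne (by assumption)] at e1 e2
        exact hx ⟨a, hZO (hS ha), b, hZO (hS hb), e1, e2, e⟩
      · obtain ⟨a, ha, b, hb, hab⟩ := c3 S hS hT
        have e1 := hm a ha b hb
        rw [update_of_ne (fun e => hxS (e ▸ ha) : a ≠ x),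
          update_of_ne (fun e => hxS (e ▸ hb) : b ≠ x)] at e1
        exact hab e1
    · by_cases e : y = x
      · simp [e] at hy
      · simpa [update_of_ne e] using hy
    · simpa using h (show x ∈ {x | χ x = true} by simpa using hc)
  have hk : Cq J {p, q} := by
    rcases hpq with rfl | e
    · exact .inl (by simp)
    · exact .inr ⟨p, q, e, rfl⟩
  obtain ⟨a, ha, b, hb, e⟩ := xcol2_edge (hA.nsep O _ hO hk).1 fun h => by
    have h1 := (ncard_le_one (toFinite _)).2 h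
    have h2 := ncard_le_ncard_sdiff_add_ncard O {p, q} (toFinite _)
    have h3 := ncard_pair_le p q
    have h4 := hO.2.1
    omega
  exact hx ⟨a, ha.1, b, hb.1, key a (fun e => ha.2 (.inl e)) fun e => ha.2 (.inr e),
    key b (fun e => hb.2 (.inl e)) fun e => hb.2 (.inr e), e⟩

end

theorem l6_stmt (hAtomA : AtomAStmt) (hNsep : NsepStmt) (hCol2 : Col2Stmt) : L6Stmt := by
  intro W V _ _ H P hP hv J hJ
  have hA := hAtomA W V H P hP J hJ
  rcases isEmpty_or_nonempty V with hV | hV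
  · exact ⟨∅, fun S h => h.two.nonempty.elim fun x _ => hV.elim x,
      fun S h => h.two.nonempty.elim fun x _ => hV.elim x⟩
  have hT : ∀ κ, Cq J κ → ∀ S, TS P H J S ∨ AS P H J S → ConnOn J.Adj (S \ κ) := by
    rintro κ hk S (h | h)
    · obtain ⟨a, ha, b, hb, e⟩ := h.two.edge
      exact (hNsep W V H J hJ S a b κ (h.1.rs ha hb e) hk).1
    · exact (hA.nsep S κ h hk).1
  have key : ∀ (n : ℕ) (Z : Set V), Z.ncard = n → ∀ p q, (p = q ∨ J.Adj p q) → ∀ χ0 : V → Bool,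
      ∃ χ : V → Bool, χ p = χ0 p ∧ χ q = χ0 q ∧ xcol2_G P H J Z χ := by
    intro n
    induction n using Nat.strong_induction_on with
    | _ n ih =>
    intro Z hn p q hpq χ0
    by_cases hZ : ∀ κ, Cq J κ → ConnOn J.Adj (Z \ κ)
    · obtain ⟨χ, c1, c2, c3⟩ := hCol2 W V H P hP J hJ {S | S ⊆ Z ∧ TS P H J S}
        (fun _ h => h.2) χ0 p q
      exact xcol2_prime hv hA hZ hpq χ0 ⟨χ, c1, c2, fun S h1 h2 => c3 S ⟨h1, h2⟩⟩
    simp only [not_forall] at hZ
    obtain ⟨κ, hk, hZ⟩ := hZ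
    obtain ⟨u, hu, w, hw, huw⟩ := not_connOn hZ
    have lt : ∀ B : Set V, B.Nonempty → B ⊆ Z \ κ → (Z \ B).ncard < n := fun B ⟨b, hb⟩ hB =>
      hn ▸ ncard_lt_ncard ⟨sdiff_subset, fun h => (h (hB hb).1).2 hb⟩ (toFinite _)
    have main : ∀ A B : Set V, A.Nonempty → B.Nonempty → A ⊆ Z \ κ → B ⊆ Z \ κ →
        Z \ κ ⊆ A ∪ B → Disjoint A B → (∀ a ∈ A, ∀ b ∈ B, ¬ J.Adj a b) → p ∉ B → q ∉ B →
        ∃ χ : V → Bool, χ p = χ0 p ∧ χ q = χ0 q ∧ xcol2_G P H J Z χ := by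
      intro A B h1 h2 h3 h4 h5 h6 h7 hp hq
      obtain ⟨χ1, c1, c2, c3⟩ := ih _ (lt B h2 h4) _ rfl p q hpq χ0
      obtain ⟨a, b, hab, hs⟩ := hk.pair
      obtain ⟨χ2, d1, d2, d3⟩ := ih _ (lt A h1 h3) _ rfl a b hab χ1
      obtain ⟨χ, e1, e2⟩ := xcol2_glue (hT κ hk) h5 h6 h7 (disjoint_left.2 fun _ h => (h3 h).2)
        (disjoint_left.2 fun _ h => (h4 h).2)
        (fun x hx => by rcases hs hx with rfl | rfl <;> assumption) c3 d3
      exact ⟨χ, (e1 p hp).trans c1, (e1 q hq).trans c2, e2⟩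
    have hn : ∀ a ∈ comp J.Adj (Z \ κ) u, ∀ b ∈ (Z \ κ) \ comp J.Adj (Z \ κ) u, ¬ J.Adj a b :=
      fun a ha b hb e => hb.2 (comp_closed ha hb.1 e)
    have hw' : ((Z \ κ) \ comp J.Adj (Z \ κ) u).Nonempty := ⟨w, hw, huw⟩
    have hc : Z \ κ ⊆ comp J.Adj (Z \ κ) u ∪ (Z \ κ) \ comp J.Adj (Z \ κ) u := fun x hx =>
      (em _).imp id fun h => ⟨hx, h⟩
    by_cases h : p ∈ comp J.Adj (Z \ κ) u ∨ q ∈ comp J.Adj (Z \ κ) u
    · refine main _ _ ⟨u, mem_comp hu⟩ hw' comp_sub sdiff_subset hc disjoint_sdiff_right hn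
        (fun hp => ?_) fun hq => ?_
      · rcases hpq with rfl | e
        exacts [h.elim hp.2 hp.2, hn q (h.resolve_left hp.2) p hp e.symm]
      · rcases hpq with rfl | e
        exacts [h.elim hq.2 hq.2, hn p (h.resolve_right hq.2) q hq e]
    · exact main _ _ hw' ⟨u, mem_comp hu⟩ sdiff_subset comp_sub
        (fun x hx => (hc hx).symm) disjoint_sdiff_left
        (fun a ha b hb e => hn b hb a ha e.symm) (fun e => h (.inl e)) fun e => h (.inr e)
  obtain ⟨χ, -, -, c1, c2⟩ := key _ univ rfl (Classical.arbitrary V) _ (.inl rfl) fun _ => true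
  refine ⟨{x | χ x = true}, fun S h => ?_, fun S h => ?_⟩
  · obtain ⟨a, ha, b, hb, hab⟩ := c1 S (subset_univ _) h
    refine ⟨fun e => hab ((e ha).trans (e hb).symm), fun e => hab ?_⟩
    rw [Bool.eq_false_iff.2 (e ha), Bool.eq_false_iff.2 (e hb)]
  · obtain ⟨a, ha, b, hb, h1, h2, e⟩ := c2 S (subset_univ _) h
    exact ⟨a, ha, b, hb, Bool.eq_false_iff.1 h1, Bool.eq_false_iff.1 h2, e⟩

end Pool.Agent.MP_1c0fc2_co.RE

end

section

/-! Stiff sets lie in one node. -/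

open Function Set Relation

namespace Pool.Agent.MP_1c0fc2_co.RE

section
variable {U V W : Type} {A : SimpleGraph U} {G R J : SimpleGraph V} {H : SimpleGraph W}
  {Ls : Set (Set V)} {Bs : Set (Bag U V)} {g : ℕ} {S ν : Set V}

/-- two neighbours in a node of a small connected set outside the node -/
theorem xes_two [Finite V] (hP : Pre A G R Ls Bs g) (hJ : J ≤ G) (hS : S.ncard ≤ g)
    (hν : ν ∈ Nodes Ls Bs) {C : Set V} (hC : C ⊆ S \ ν) (hc : ConnOn J.Adj C) {u v : V}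
    (hu : u ∈ ν) (hv : v ∈ ν) (huv : u ≠ v) (hu' : ∃ d ∈ C, J.Adj u d) (hv' : ∃ d ∈ C, J.Adj v d) :
    G.Adj u v ∧ (∀ w ∈ ν, (∃ d ∈ C, J.Adj w d) → w = u ∨ w = v) ∧
      ∃ ν' ∈ Nodes Ls Bs, u ∈ ν' ∧ v ∈ ν' ∧ (ν' ∩ C).Nonempty := by
  have at' : ∀ w ∈ ν, (∃ d ∈ C, J.Adj w d) → w ∈ At (Nodes Ls Bs) ν C :=
    fun w hw ⟨d, hd, e⟩ => ⟨hw, d, hd, hP.tog (hJ e)⟩
  obtain ⟨h1, h2, h3⟩ := (hP.thin ν hν).two (C := C)
    ((ncard_le_ncard (fun x hx => (hC hx).1) (toFinite _)).trans hS)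
    (disjoint_left.2 fun x hx => (hC hx).2) (hc.mono fun _ _ _ _ e => hP.tog (hJ e))
    (at' u hu hu') (at' v hv hv') huv
  exact ⟨h1, fun w hw hw' => h2 (at' w hw hw'), h3⟩

theorem xes_torso [Finite V] (hP : Pre A G R Ls Bs g) (hJ : J ≤ G) (hS : S.ncard ≤ g)
    (hν : ν ∈ Nodes Ls Bs) {f : V → W} (hf : IHo G H f (S ∩ ν)) (h3 : 3 ≤ (S ∩ ν).ncard)
    (hn : ¬ S ⊆ ν) : Torso H J S (S ∩ ν) := by
  refine ⟨inter_subset_left, fun e => hn (e ▸ inter_subset_right), h3, f,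
    ⟨hf.1, fun x hx y hy e => hf.2 x hx y hy (hJ e)⟩, fun C hC hc => ?_⟩
  by_cases hs : (Nb J (S ∩ ν) C).Subsingleton
  · exact .inl (hs.image f)
  obtain ⟨u, hu, v, hv, huv⟩ := not_subsingleton_iff.1 hs
  obtain ⟨h1, h2, -⟩ := xes_two hP hJ hS hν (C := C)
    (fun x hx => ⟨(hC hx).1, fun h => (hC hx).2 ⟨(hC hx).1, h⟩⟩) hc hu.1.2 hv.1.2 huv hu.2 hv.2
  refine Cq.sub (.inr ⟨f u, f v, hf.2 u hu.1 v hv.1 h1, rfl⟩) ?_
  rintro _ ⟨w, hw, rfl⟩
  rcases h2 w hw.1.2 hw.2 with rfl | rfl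
  exacts [.inl rfl, .inr rfl]

theorem xes_bagmap (hA : In A H) (hP : Pre A G R Ls Bs g) {β : Bag U V} (hβ : β ∈ Bs)
    {T : Set V} (hT : T ⊆ range β.f) (hn : T.Nonempty) : ∃ f : V → W, IHo G H f T := by
  obtain ⟨k, hk⟩ := hA
  obtain ⟨p, h1, -, -⟩ := exists_pull' (J := A) (J' := G) (hP.ind β hβ).inj
    (fun x y e => ((hP.ind β hβ).adj x y).1 e) hT hn
  exact ⟨_, h1.comp (hk.on _)⟩

theorem xes_three [Finite V] {T : Set V} {u v z : V} (hu : u ∈ T) (hv : v ∈ T) (hz : z ∈ T)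
    (h1 : u ≠ v) (h2 : u ≠ z) (h3 : v ≠ z) : 3 ≤ T.ncard := by
  have : ({u, v, z} : Set V).ncard = 3 := ncard_eq_three.2 ⟨u, v, z, h1, h2, h3, rfl⟩
  rw [← this]
  refine ncard_le_ncard ?_ (toFinite _)
  rintro x (rfl | rfl | rfl) <;> assumption

theorem xes_next [Finite V] (hP : Pre A G R Ls Bs g) (hJ : J ≤ G) (hS : S.ncard ≤ g)
    (hν : ν ∈ Nodes Ls Bs) (h2 : TwoConn J S) (hs : ¬ (S ∩ ν).Subsingleton) (hn : ¬ S ⊆ ν) :
    ∃ u ∈ S ∩ ν, ∃ v ∈ S ∩ ν, u ≠ v ∧ ∃ ν' ∈ Nodes Ls Bs, u ∈ ν' ∧ v ∈ ν' ∧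
      ∃ z ∈ S ∩ ν', z ∉ ν := by
  obtain ⟨c, hc, hc'⟩ := not_subset.1 hn
  obtain ⟨u, hu, v, hv, huv, h3, h4⟩ := h2.two_nb hs ⟨hc, hc'⟩
  obtain ⟨-, -, ν', h5, h6, h7, z, h8, h9⟩ := xes_two hP hJ hS hν comp_sub
    (comp_conn (adj_symm' J)) hu.2 hv.2 huv h3 h4
  exact ⟨u, hu, v, hv, huv, ν', h5, h6, h7, z, ⟨(comp_sub h9).1, h8⟩, (comp_sub h9).2⟩

theorem xes_bag [Finite V] (hA : In A H) (hP : Pre A G R Ls Bs g) (hJ : J ≤ G) (hS : S.ncard ≤ g)
    {β : Bag U V} (hβ : β ∈ Bs) (h3 : 3 ≤ (S ∩ range β.f).ncard)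
    (ht : ¬ Torso H J S (S ∩ range β.f)) : S ⊆ range β.f := by
  by_contra hn
  obtain ⟨f, hf⟩ := xes_bagmap hA hP hβ (T := S ∩ range β.f) inter_subset_right
    (nonempty_of_ncard_ne_zero (by omega))
  exact ht (xes_torso hP hJ hS (.inr ⟨β, hβ, rfl⟩) hf h3 hn)

/-- the trace of a 2-connected set on a node -/
theorem xes_trace [Finite V] (hP : Pre A G R Ls Bs g) (hJ : J ≤ G) (hS : S.ncard ≤ g)
    (hν : ν ∈ Nodes Ls Bs) (h2 : TwoConn J S) (h3 : 3 ≤ (S ∩ ν).ncard) : TwoConn G (S ∩ ν) := by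
  refine ⟨h3, fun v => ?_⟩
  have e : (S ∩ ν) \ {v} = (S \ {v}) ∩ ν := by
    ext x
    simp only [mem_sdiff, mem_inter_iff]
    tauto
  rw [e]
  refine (h2.2 v).trace (adj_symm' J) ν (fun x _ y _ _ e => hJ e) fun D hD hd x hx y hy hxy h4 h5 =>
    (xes_two hP hJ hS hν (fun d h => ⟨(hD h).1.1, (hD h).2⟩) hd hx.2 hy.2 hxy h4 h5).1

end

theorem esnode_stmt : ESNodeStmt := by
  intro W U V _ _ _ H A G R Ls Bs g hA hP J hJ S hS
  have nss : ∀ {T : Set V} {u v : V}, u ∈ T → v ∈ T → u ≠ v → ¬ T.Subsingleton :=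
    fun hu hv huv h => huv (h hu hv)
  refine ⟨fun hE => ?_, fun a b hR => ?_⟩
  · by_contra hn
    have hn' : ∀ ν ∈ Nodes Ls Bs, ¬ S ⊆ ν := by
      rintro ν (h | ⟨β, hβ, rfl⟩) hs
      exacts [hn (.inl ⟨ν, h, hs⟩), hn (.inr ⟨β, hβ, hs⟩)]
    have step : ∀ ν ∈ Nodes Ls Bs, ¬ (S ∩ ν).Subsingleton → ∃ L ∈ Ls, ¬ (S ∩ L).Subsingleton ∧
        (ν ∩ L).Nonempty ∧ ν ≠ L := by
      intro ν hν hs
      obtain ⟨u, hu, v, hv, huv, ν', h1, h2, h3, z, hz, hz'⟩ :=
        xes_next hP hJ hS hν hE.1 hs (hn' ν hν)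
      rcases h1 with h1 | ⟨β, hβ, rfl⟩
      · exact ⟨ν', h1, nss ⟨hu.1, h2⟩ ⟨hv.1, h3⟩ huv, ⟨u, hu.2, h2⟩, fun e => hz' (e ▸ hz.2)⟩
      · exact absurd (xes_bag hA hP hJ hS hβ (xes_three ⟨hu.1, h2⟩ ⟨hv.1, h3⟩ hz huv
          (fun e => hz' (e ▸ hu.2)) fun e => hz' (e ▸ hv.2)) (hE.2 _)) (hn' _ (.inr ⟨β, hβ, rfl⟩))
    obtain ⟨x, hx, y, hy, e⟩ := hE.1.edge
    obtain ⟨ν, hν, h1, h2⟩ := hP.tog (hJ e)
    obtain ⟨L, hL, h3, -⟩ := step ν hν (nss ⟨hx, h1⟩ ⟨hy, h2⟩ e.ne)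
    obtain ⟨L', hL', -, ⟨w, h4, h5⟩, h6⟩ := step L (.inl hL) h3
    exact h6 (hP.eq_of_mem hL hL' h4 h5)
  · obtain ⟨ha, hb, hab, h2, ht⟩ := hR
    obtain ⟨ν, hν, h3, h4, h5⟩ : ∃ ν ∈ Nodes Ls Bs, a ∈ ν ∧ b ∈ ν ∧ 3 ≤ (S ∩ ν).ncard := by
      obtain ⟨ν, hν, h3, h4⟩ := hP.tog (hJ hab)
      by_cases h5 : ∃ z ∈ S ∩ ν, z ≠ a ∧ z ≠ b
      · obtain ⟨z, hz, h6, h7⟩ := h5
        exact ⟨ν, hν, h3, h4, xes_three ⟨ha, h3⟩ ⟨hb, h4⟩ hz hab.ne h6.symm h7.symm⟩
      have h6 : ∀ z ∈ S ∩ ν, z = a ∨ z = b := fun z hz => by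
        by_contra h
        exact h5 ⟨z, hz, fun e => h (.inl e), fun e => h (.inr e)⟩
      obtain ⟨c, hc, h7, h8⟩ := h2.exists_ne a b
      obtain ⟨u, hu, v, hv, huv, ν', h9, h10, h11, z, hz, hz'⟩ :=
        xes_next hP hJ hS hν h2 (nss ⟨ha, h3⟩ ⟨hb, h4⟩ hab.ne)
          fun hs => h5 ⟨c, ⟨hc, hs hc⟩, h7, h8⟩
      have h12 : a ∈ ν' ∧ b ∈ ν' := by
        rcases h6 u hu with rfl | rfl <;> rcases h6 v hv with rfl | rfl
        exacts [absurd rfl huv, ⟨h10, h11⟩, ⟨h11, h10⟩, absurd rfl huv]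
      exact ⟨ν', h9, h12.1, h12.2, xes_three ⟨ha, h12.1⟩ ⟨hb, h12.2⟩ hz hab.ne
        (fun e => hz' (e ▸ h3)) fun e => hz' (e ▸ h4)⟩
    rcases hν with hL | ⟨β, hβ, rfl⟩
    · refine .inr ⟨ν, hL, h3, h4, xes_trace hP hJ hS (.inl hL) h2 h5, fun h hh => ?_⟩
      by_contra hn
      exact ht (S ∩ ν) ⟨ha, h3⟩ ⟨hb, h4⟩ (xes_torso hP hJ hS (.inl hL) hh h5 hn)
    · exact .inl ⟨β, hβ, xes_bag hA hP hJ hS hβ h5 (ht _ ⟨ha, h3⟩ ⟨hb, h4⟩)⟩

end Pool.Agent.MP_1c0fc2_co.RE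

end

section

/-! The edge bound when all stiff sets are triangles. -/

open Function Set Relation

namespace Pool.Agent.MP_1c0fc2_co.RE

variable {W : Type} [Finite W] {J : SimpleGraph W}

theorem xedge_sq (S : Set W) : ec J S + S.ncard ≤ S.ncard * S.ncard := by
  have h1 : ((fun x => (x, x)) '' S).ncard = S.ncard :=
    ncard_image_of_injective _ fun _ _ e => congrArg Prod.fst e
  rw [← ncard_prod, ec]
  nth_rewrite 1 [← h1]
  rw [← ncard_union_eq]
  · refine ncard_le_ncard ?_ (toFinite _)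
    rintro _ (h | ⟨x, hx, rfl⟩)
    exacts [⟨h.1, h.2.1⟩, ⟨hx, hx⟩]
  · rw [disjoint_right]
    rintro _ ⟨x, -, rfl⟩ h
    exact h.2.2.ne rfl

theorem xedge_split {S S1 S2 : Set W}
    (h : ∀ x ∈ S, ∀ y ∈ S, J.Adj x y → (x ∈ S1 ∧ y ∈ S1) ∨ (x ∈ S2 ∧ y ∈ S2)) :
    ec J S ≤ ec J S1 + ec J S2 := by
  refine le_trans (ncard_le_ncard ?_ (toFinite _)) (ncard_union_le _ _)
  rintro ⟨x, y⟩ ⟨hx, hy, e⟩
  exact (h x hx y hy e).imp (fun h => ⟨h.1, h.2, e⟩) fun h => ⟨h.1, h.2, e⟩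

/-- real edges and unused virtual edges -/
def xedge_F (J : SimpleGraph W) (S' : Set W) (Q : W → W → Prop) (p : W → Set W) (X : Set W) :
    Set (W × W) :=
  {q | (q.1 ∈ S' ∪ X ∧ q.2 ∈ S' ∪ X ∧ J.Adj q.1 q.2) ∨
    (q.1 ∈ S' ∧ q.2 ∈ S' ∧ Q q.1 q.2 ∧ ∀ z ∈ X, p z ≠ {q.1, q.2})}

theorem xedge_groups {S' Z : Set W} {Q : W → W → Prop} {p : W → Set W}
    (hp : ∀ z ∈ Z, ∃ a ∈ S', ∃ b ∈ S', a ≠ b ∧ Q a b ∧ Q b a ∧ p z = {a, b})
    (h1 : ∀ z ∈ Z, ∀ y ∈ S', J.Adj z y → y ∈ p z) (h2 : ∀ z ∈ Z, ∀ y ∈ Z, J.Adj z y → p y = p z)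
    (hG : ∀ G ⊆ Z, ∀ a ∈ S', ∀ b ∈ S', a ≠ b → ec J (G ∪ {a, b}) ≤ 4 * G.ncard + 2) (n : ℕ) :
    ∀ X ⊆ Z, X.ncard = n →
      (xedge_F J S' Q p X).ncard ≤ (xedge_F J S' Q p ∅).ncard + 4 * X.ncard := by
  induction n using Nat.strong_induction_on with
  | _ n ih =>
  intro X hX hn
  rcases X.eq_empty_or_nonempty with rfl | ⟨z, hz⟩
  · exact Nat.le_add_right _ _
  obtain ⟨a, ha, b, hb, hab, q1, q2, hpz⟩ := hp z (hX hz)
  obtain ⟨G, hGd⟩ : ∃ G : Set W, ∀ x, x ∈ G ↔ x ∈ X ∧ p x = {a, b} := ⟨_, fun _ => Iff.rfl⟩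
  have hGX : G ⊆ X := fun x hx => ((hGd x).1 hx).1
  have c1 : (X \ G).ncard + G.ncard = X.ncard := ncard_sdiff_add_ncard_of_subset hGX
  have c2 : 0 < G.ncard := (ncard_pos (toFinite _)).2 ⟨z, (hGd z).2 ⟨hz, hpz⟩⟩
  have c3 := ih (X \ G).ncard (by omega) (X \ G) (sdiff_subset.trans hX) rfl
  have c4 := hG G (hGX.trans hX) a ha b hb hab
  have s1 : ({(a, b), (b, a)} : Set (W × W)) ⊆ xedge_F J S' Q p (X \ G) := by
    rintro _ (rfl | rfl)
    · exact .inr ⟨ha, hb, q1, fun x hx e => hx.2 ((hGd x).2 ⟨hx.1, e⟩)⟩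
    · exact .inr ⟨hb, ha, q2, fun x hx e => hx.2 ((hGd x).2 ⟨hx.1, e.trans (pair_comm _ _)⟩)⟩
  have c5 := ncard_sdiff_add_ncard_of_subset s1
  rw [ncard_pair fun e => hab (congrArg Prod.fst e)] at c5
  have k : ∀ x ∈ G, ∀ y ∈ S' ∪ X, J.Adj x y → y ∈ G ∪ {a, b} := by
    rintro x hx y (hy | hy) e
    · exact .inr (((hGd x).1 hx).2 ▸ h1 x (hX (hGX hx)) y hy e)
    · exact .inl ((hGd y).2 ⟨hy, (h2 x (hX (hGX hx)) y (hX hy) e).trans ((hGd x).1 hx).2⟩)
  have s2 : xedge_F J S' Q p X ⊆ (xedge_F J S' Q p (X \ G) \ {(a, b), (b, a)}) ∪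
      {q : W × W | q.1 ∈ G ∪ {a, b} ∧ q.2 ∈ G ∪ {a, b} ∧ J.Adj q.1 q.2} := by
    rintro ⟨x, y⟩ (⟨hx, hy, e⟩ | ⟨hx, hy, e, hz'⟩)
    · by_cases g1 : x ∈ G
      · exact .inr ⟨.inl g1, k x g1 y hy e, e⟩
      by_cases g2 : y ∈ G
      · exact .inr ⟨k y g2 x hx e.symm, .inl g2, e⟩
      by_cases g3 : (x, y) ∈ ({(a, b), (b, a)} : Set (W × W))
      · rcases g3 with g3 | g3 <;> obtain ⟨rfl, rfl⟩ := Prod.ext_iff.1 g3
        · exact .inr ⟨.inr (.inl rfl), .inr (.inr rfl), e⟩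
        · exact .inr ⟨.inr (.inr rfl), .inr (.inl rfl), e⟩
      · exact .inl ⟨.inl ⟨hx.imp_right fun h => ⟨h, g1⟩, hy.imp_right fun h => ⟨h, g2⟩, e⟩, g3⟩
    · refine .inl ⟨.inr ⟨hx, hy, e, fun w hw => hz' w hw.1⟩, ?_⟩
      rintro (g3 | g3) <;> obtain ⟨rfl, rfl⟩ := Prod.ext_iff.1 g3
      · exact hz' z hz hpz
      · exact hz' z hz (hpz.trans (pair_comm _ _))
  have c6 := (ncard_le_ncard s2 (toFinite _)).trans (ncard_union_le _ _)
  change _ ≤ _ + ec J (G ∪ {a, b}) at c6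
  omega

theorem xedge_torso {S S' : Set W} (hS : TwoConn J S) (ht : Torso J J S S')
    (ih : ∀ T : Set W, T.ncard < S.ncard → 2 ≤ T.ncard → ec J T + 6 ≤ 4 * T.ncard) :
    ec J S + 6 ≤ 4 * S.ncard := by
  obtain ⟨t1, t2, t3, f, t4, t5⟩ := ht
  have lt : S'.ncard < S.ncard := ncard_lt_ncard (ssubset_iff_subset_ne.2 ⟨t1, t2⟩) (toFinite _)
  have ns : ¬ (S ∩ S').Subsingleton := fun h => by
    rw [inter_eq_right.2 t1] at h
    have := ncard_le_one_iff_subsingleton.2 h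
    omega
  have key := xedge_groups (J := J) (S' := S') (Z := S \ S') (Q := fun x y => J.Adj (f x) (f y))
    (p := fun z => Nb J S' (comp J.Adj (S \ S') z)) (fun z hz => ?_)
    (fun z hz y hy e => ⟨hy, z, mem_comp hz, e.symm⟩)
    (fun z hz y hy e => by rw [comp_eq (adj_symm' J) (comp_closed (mem_comp hz) hy e)])
    (fun G hG a ha b hb hab => ?_) _ _ subset_rfl rfl
  · have c1 : ec J S ≤ (xedge_F J S' (fun x y => J.Adj (f x) (f y))
        (fun z => Nb J S' (comp J.Adj (S \ S') z)) (S \ S')).ncard := by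
      refine ncard_le_ncard ?_ (toFinite _)
      rintro ⟨x, y⟩ ⟨hx, hy, e⟩
      refine .inl ⟨?_, ?_, e⟩ <;> rwa [union_sdiff_cancel t1]
    have c2 : (xedge_F J S' (fun x y => J.Adj (f x) (f y))
        (fun z => Nb J S' (comp J.Adj (S \ S') z)) ∅).ncard ≤ ec J (f '' S') := by
      have m : ∀ q ∈ xedge_F J S' (fun x y => J.Adj (f x) (f y))
          (fun z => Nb J S' (comp J.Adj (S \ S') z)) ∅,
          q.1 ∈ S' ∧ q.2 ∈ S' ∧ J.Adj (f q.1) (f q.2) := by
        rintro ⟨x, y⟩ (⟨hx, hy, e⟩ | ⟨hx, hy, e, -⟩)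
        · rw [union_empty] at hx hy
          exact ⟨hx, hy, t4.2 _ hx _ hy e⟩
        · exact ⟨hx, hy, e⟩
      refine ncard_le_ncard_of_injOn (fun q => (f q.1, f q.2)) (fun q hq => ?_)
        (fun q hq q' hq' e => ?_) (toFinite _)
      · exact ⟨mem_image_of_mem f (m q hq).1, mem_image_of_mem f (m q hq).2.1, (m q hq).2.2⟩
      · exact Prod.ext (t4.1 (m q hq).1 (m q' hq').1 (congrArg Prod.fst e))
          (t4.1 (m q hq).2.1 (m q' hq').2.1 (congrArg Prod.snd e))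
    have c3 := ih (f '' S') (by rw [t4.ncard]; exact lt) (by rw [t4.ncard]; omega)
    rw [t4.ncard] at c3
    have c4 : (S \ S').ncard + S'.ncard = S.ncard := ncard_sdiff_add_ncard_of_subset t1
    omega
  · obtain ⟨u, hu, v, hv, huv, u1, v1⟩ := hS.two_nb ns hz
    have q := t5 _ comp_sub (comp_conn (C := S \ S') (a := z) (adj_symm' J))
    have u2 : u ∈ Nb J S' (comp J.Adj (S \ S') z) := ⟨hu.2, u1⟩
    have v2 : v ∈ Nb J S' (comp J.Adj (S \ S') z) := ⟨hv.2, v1⟩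
    have ne : f u ≠ f v := fun e => huv (t4.1 hu.2 hv.2 e)
    have a1 := q.adj (mem_image_of_mem f u2) (mem_image_of_mem f v2) ne
    refine ⟨u, hu.2, v, hv.2, huv, a1, a1.symm, Subset.antisymm (fun c hc => ?_)
      (pair_subset u2 v2)⟩
    rcases q.three (mem_image_of_mem f u2) (mem_image_of_mem f v2) (mem_image_of_mem f hc) with
      e | e | e
    exacts [absurd e ne, .inl (t4.1 hu.2 hc.1 e).symm, .inr (t4.1 hv.2 hc.1 e).symm]
  · have c1 : (G ∪ {a, b}).ncard = G.ncard + 2 := by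
      rw [ncard_union_eq, ncard_pair hab]
      rw [disjoint_right]
      rintro x (rfl | rfl) h
      exacts [(hG h).2 ha, (hG h).2 hb]
    have c2 := ncard_le_ncard hG (toFinite _)
    have c4 : (S \ S').ncard + S'.ncard = S.ncard := ncard_sdiff_add_ncard_of_subset t1
    have := ih (G ∪ {a, b}) (by omega) (by omega)
    omega

theorem xedge_cut {S : Set W} {v : W} (hv : ¬ ConnOn J.Adj (S \ {v}))
    (ih : ∀ T : Set W, T.ncard < S.ncard → 2 ≤ T.ncard → ec J T + 6 ≤ 4 * T.ncard) :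
    ec J S + 6 ≤ 4 * S.ncard := by
  obtain ⟨a, ha, b, hb, hab⟩ := not_connOn hv
  obtain ⟨D, hD, aD, bD, cl⟩ : ∃ D : Set W, D ⊆ S \ {v} ∧ a ∈ D ∧ b ∉ D ∧
      ∀ x ∈ D, ∀ y ∈ S \ {v}, J.Adj x y → y ∈ D :=
    ⟨_, comp_sub, mem_comp ha, hab, fun _ hx _ hy e => comp_closed hx hy e⟩
  have hDS : D ⊆ S := hD.trans sdiff_subset
  have c1 : (S \ D).ncard + D.ncard = S.ncard := ncard_sdiff_add_ncard_of_subset hDS
  have c2 : 0 < D.ncard := (ncard_pos (toFinite _)).2 ⟨a, aD⟩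
  have ih' : ∀ T : Set W, T.ncard < S.ncard → 0 < T.ncard → ec J T + 4 ≤ 4 * T.ncard := by
    intro T h1 h2
    by_cases h : 2 ≤ T.ncard
    · have := ih T h1 h
      omega
    · have := xedge_sq (J := J) T
      rw [show T.ncard = 1 by omega] at this ⊢
      omega
  by_cases hvS : v ∈ S
  · have vD : v ∉ D := fun h => (hD h).2 rfl
    have c3 : (insert v D).ncard = D.ncard + 1 := ncard_insert_of_notMem vD
    have c4 : 2 ≤ (S \ D).ncard := by
      rw [← ncard_pair (show b ≠ v from hb.2)]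
      exact ncard_le_ncard (pair_subset ⟨hb.1, bD⟩ ⟨hvS, vD⟩) (toFinite _)
    have c5 : ec J S ≤ ec J (insert v D) + ec J (S \ D) := xedge_split fun x hx y hy e => by
      by_cases h1 : x ∈ D
      · refine .inl ⟨.inr h1, ?_⟩
        by_cases h2 : y = v
        exacts [.inl h2, .inr (cl x h1 y ⟨hy, h2⟩ e)]
      by_cases h2 : y ∈ D
      · refine .inl ⟨?_, .inr h2⟩
        by_cases h3 : x = v
        exacts [.inl h3, .inr (cl y h2 x ⟨hx, h3⟩ e.symm)]
      · exact .inr ⟨⟨hx, h1⟩, hy, h2⟩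
    have := ih (insert v D) (by omega) (by omega)
    have := ih (S \ D) (by omega) c4
    omega
  · have c4 : 0 < (S \ D).ncard := (ncard_pos (toFinite _)).2 ⟨b, hb.1, bD⟩
    have c5 : ec J S ≤ ec J D + ec J (S \ D) := xedge_split fun x hx y hy e => by
      by_cases h1 : x ∈ D
      · exact .inl ⟨h1, cl x h1 y ⟨hy, fun h => hvS (h ▸ hy)⟩ e⟩
      · exact .inr ⟨⟨hx, h1⟩, hy, fun h2 => h1 (cl y h2 x ⟨hx, fun h => hvS (h ▸ hx)⟩ e.symm)⟩
    have := ih' D (by omega) c2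
    have := ih' (S \ D) (by omega) c4
    omega

theorem edge_stmt : EdgeStmt := by
  intro W _ H P hP h3 S
  obtain ⟨n, hn⟩ : ∃ n, S.ncard = n := ⟨_, rfl⟩
  induction n using Nat.strong_induction_on generalizing S with
  | _ n ih =>
  intro h2
  have ih' : ∀ T : Set W, T.ncard < S.ncard → 2 ≤ T.ncard → ec H T + 6 ≤ 4 * T.ncard :=
    fun T h => ih _ (hn ▸ h) T rfl
  by_cases h4 : S.ncard ≤ 3
  · have := xedge_sq (J := H) S
    rcases (show S.ncard = 2 ∨ S.ncard = 3 by omega) with e | e <;> rw [e] at this ⊢ <;> omega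
  by_cases hc : ∀ v, ConnOn H.Adj (S \ {v})
  · have hS : TwoConn H S := ⟨by omega, hc⟩
    by_cases ht : ∃ S', Torso H H S S'
    · obtain ⟨S', ht⟩ := ht
      exact xedge_torso hS ht ih'
    · have := hP.maxT S ⟨hS, fun S' h => ht ⟨S', h⟩⟩
      omega
  · obtain ⟨v, hv⟩ := not_forall.1 hc
    exact xedge_cut hv ih'

end Pool.Agent.MP_1c0fc2_co.RE

end

section

/-! Equality of edge counts, monotonicity of red objects, triangles. -/

open Function Set Relation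

namespace Pool.Agent.MP_1c0fc2_co.RE

variable {U V W : Type} {J : SimpleGraph V} {J' : SimpleGraph U} {H : SimpleGraph W} {S : Set V}

theorem xeqm_back [Finite U] {f : V → U} (hf : IHo J J' f S) (h : ec J' (f '' S) ≤ ec J S) :
    ∀ x ∈ S, ∀ y ∈ S, J'.Adj (f x) (f y) → J.Adj x y := by
  intro x hx y hy e
  have hi : InjOn (fun p : V × V => (f p.1, f p.2))
      {p : V × V | p.1 ∈ S ∧ p.2 ∈ S ∧ J.Adj p.1 p.2} := by
    rintro ⟨x, y⟩ ⟨hx, hy, -⟩ ⟨x', y'⟩ ⟨hx', hy', -⟩ e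
    exact Prod.ext (hf.1 hx hx' (congrArg Prod.fst e)) (hf.1 hy hy' (congrArg Prod.snd e))
  have hs : (fun p : V × V => (f p.1, f p.2)) '' {p : V × V | p.1 ∈ S ∧ p.2 ∈ S ∧ J.Adj p.1 p.2} =
      {p : U × U | p.1 ∈ f '' S ∧ p.2 ∈ f '' S ∧ J'.Adj p.1 p.2} := by
    refine eq_of_subset_of_ncard_le ?_ (by rw [hi.ncard_image]; exact h) (toFinite _)
    rintro _ ⟨⟨x, y⟩, ⟨hx, hy, e⟩, rfl⟩
    exact ⟨mem_image_of_mem f hx, mem_image_of_mem f hy, hf.2 _ hx _ hy e⟩
  have hm : (f x, f y) ∈ {p : U × U | p.1 ∈ f '' S ∧ p.2 ∈ f '' S ∧ J'.Adj p.1 p.2} :=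
    ⟨mem_image_of_mem f hx, mem_image_of_mem f hy, e⟩
  rw [← hs] at hm
  obtain ⟨⟨x', y'⟩, ⟨hx', hy', e'⟩, h2⟩ := hm
  rw [← hf.1 hx' hx (congrArg Prod.fst h2), ← hf.1 hy' hy (congrArg Prod.snd h2)]
  exact e'

theorem eq_stmt : EqStmt := by
  intro W V V' _ _ _ H P hP J J' f h S hf hh hS
  refine xeqm_back hf ((ec_le hh).trans ?_)
  rcases hS with hS | hS
  · have h1 := (hS.map hf).map hh
    rcases hP.maxT _ h1.1 with h2 | h2
    · exact absurd h1.2.1 h2.ne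
    · exact h2.2.trans hS.2.2
  · have h1 := (hS.map hf).map hh
    obtain ⟨a, b, h3⟩ := h1.1
    rcases hP.maxA _ a b h3 with h2 | h2
    · exact absurd h1.2.1 h2.ne
    · exact h2.2.trans hS.2.2

theorem roMono_stmt (hEq : EqStmt) : ROMonoStmt := by
  intro W V V' _ _ _ H P hP m J J' f h S hf hh hS
  cases m with
  | N1 =>
    refine ⟨hS.1.map hf, ?_⟩
    rintro _ ⟨c, hc, rfl⟩
    obtain ⟨v, hv, h1, h2⟩ := hS.2 c hc
    exact ⟨f v, mem_image_of_mem f hv, fun e => h1 (hf.1 hv hc e),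
      fun e => h2 (hEq W V V' H P hP J J' f h S hf hh (.inr hS.1) c hc v hv e)⟩
  | N2 =>
    refine ⟨hS.1.map hf, fun c' => ?_⟩
    by_cases hc : c' ∈ f '' S
    · obtain ⟨c, hc, rfl⟩ := hc
      obtain ⟨D, h1, h2, h3⟩ := hS.2 c
      refine ⟨f '' D, image_mono h1, h2.map (hf.sub h1), ?_⟩
      rintro ⟨d, hd, e⟩
      exact h3 (hf.1 (h1 hd) hc e ▸ hd)
    · obtain ⟨c, -⟩ := hS.1.1.nonempty
      obtain ⟨D, h1, h2, -⟩ := hS.2 c
      exact ⟨f '' D, image_mono h1, h2.map (hf.sub h1), fun e => hc (image_mono h1 e)⟩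
  | S1 => exact AS.map hS hf
  | S2 => exact TH.map hS hf

theorem xeqm_card (h : Tri J S) : S.ncard = 3 := by
  obtain ⟨a, b, c, h1, h2, h3, rfl⟩ := h
  exact ncard_eq_three.2 ⟨a, b, c, h1.ne, h2.ne, h3.ne, rfl⟩

theorem xeqm_adj (h : Tri J S) : ∀ x ∈ S, ∀ y ∈ S, x = y ∨ J.Adj x y := by
  obtain ⟨a, b, c, h1, h2, h3, rfl⟩ := h
  rintro x (rfl | rfl | rfl) y (rfl | rfl | rfl)
  exacts [.inl rfl, .inr h1, .inr h2, .inr h1.symm, .inl rfl, .inr h3, .inr h2.symm, .inr h3.symm,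
    .inl rfl]

theorem xeqm_es [Finite V] (h : Tri J S) : ES H J S := by
  refine ⟨⟨(xeqm_card h).ge, fun v x hx y hy => ?_⟩, ?_⟩
  · rcases xeqm_adj h x hx.1 y hy.1 with rfl | e
    · exact .refl
    · exact .single ⟨hx, hy, e⟩
  · rintro S' ⟨h1, h2, h3, -⟩
    exact h2 (eq_of_subset_of_ncard_le h1 ((xeqm_card h).le.trans h3) (toFinite _))

theorem xeqm_tri (h : TwoConn J S) (h3 : S.ncard = 3) : Tri J S := by
  obtain ⟨a, b, c, hab, hac, hbc, rfl⟩ := ncard_eq_three.1 h3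
  refine ⟨a, b, c, ?_, ?_, ?_, rfl⟩
  · obtain ⟨x, rfl | rfl | rfl, h1, h2⟩ := h.nbr (a := a) (by simp) c hac
    exacts [absurd rfl h2.ne, h2, absurd rfl h1]
  · obtain ⟨x, rfl | rfl | rfl, h1, h2⟩ := h.nbr (a := a) (by simp) b hab
    exacts [absurd rfl h2.ne, absurd rfl h1, h2]
  · obtain ⟨x, rfl | rfl | rfl, h1, h2⟩ := h.nbr (a := b) (by simp) a hab.symm
    exacts [absurd rfl h1, absurd rfl h2.ne, h2]

theorem xeqm_ec [Finite V] {S0 : Set W} (h0 : Tri H S0) (h : Tri J S) : ec H S0 ≤ ec J S := by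
  classical
  have ha := xeqm_adj h
  obtain ⟨a0, b0, c0, g1, g2, g3, rfl⟩ := h0
  obtain ⟨a, b, c, h1, h2, h3, rfl⟩ := h
  let f : W → V := fun w => if w = a0 then a else if w = b0 then b else c
  have fa : f a0 = a := if_pos rfl
  have fb : f b0 = b := by simp [f, g1.ne']
  have fc : f c0 = c := by simp [f, g2.ne', g3.ne']
  have e : f '' {a0, b0, c0} = {a, b, c} := by
    rw [image_insert_eq, image_insert_eq, image_singleton, fa, fb, fc]
  have hi : InjOn f {a0, b0, c0} := by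
    rintro x (rfl | rfl | rfl) y (rfl | rfl | rfl) e <;> simp only [fa, fb, fc] at e
    exacts [rfl, absurd e h1.ne, absurd e h2.ne, absurd e h1.ne', rfl, absurd e h3.ne,
      absurd e h2.ne', absurd e h3.ne', rfl]
  rw [← e]
  refine ec_le ⟨hi, fun x hx y hy hxy => ?_⟩
  exact (ha _ (e ▸ mem_image_of_mem f hx) _ (e ▸ mem_image_of_mem f hy)).resolve_left
    fun e' => hxy.ne (hi hx hy e')

theorem k3_stmt : K3Stmt := by
  intro W V _ _ H P hP
  obtain ⟨T, hT⟩ := hP.exT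
  obtain ⟨A, hA⟩ := hP.exA
  obtain ⟨B, hB⟩ := hP.exθ
  refine ⟨⟨hT.2.1 ▸ hT.two.1, ?_, hA.2.1 ▸ ncard_le_card A, hB.2 ▸ ncard_le_card B⟩,
    fun J S => ⟨xeqm_es, fun h3 => ⟨fun h => xeqm_tri h.two (h.2.1.trans h3), fun h => ?_⟩,
      fun h3 => ⟨fun h => xeqm_tri h.two (h.2.1.trans h3), fun h => ?_⟩⟩⟩
  · obtain ⟨a, ha, b, hb, e⟩ := hT.two.edge
    rcases hP.maxA _ a b (hT.1.rs ha hb e) with h | h
    · exact hT.2.1 ▸ h.le
    · exact hT.2.1 ▸ h.1.le
  · exact ⟨xeqm_es h, (xeqm_card h).trans h3.symm,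
      hT.2.2.trans (xeqm_ec (xeqm_tri hT.two (hT.2.1.trans h3)) h)⟩
  · obtain ⟨a, ha, b, hb, e⟩ := (xeqm_es (H := H) h).1.edge
    exact ⟨⟨a, b, (xeqm_es h).rs ha hb e⟩, (xeqm_card h).trans h3.symm,
      hA.2.2.trans (xeqm_ec (xeqm_tri hA.two (hA.2.1.trans h3)) h)⟩

end Pool.Agent.MP_1c0fc2_co.RE

end

section

/-! A bipartite subgraph without back paths that meets every triangle in an edge. -/

open Function Set Relation

namespace Pool.Agent.MP_1c0fc2_co.RE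

section
variable {V : Type} {Y F : SimpleGraph V} {v p q : V}

theorem xfp_tri {O : Set V} (h : Tri Y O) (hv : v ∈ O) :
    ∃ p q, Y.Adj v p ∧ Y.Adj p q ∧ O = {v, p, q} := by
  obtain ⟨a, b, c, h1, h2, h3, rfl⟩ := h
  rcases hv with rfl | rfl | rfl
  · exact ⟨b, c, h1, h3, rfl⟩
  · exact ⟨a, c, h1.symm, h2, insert_comm _ _ _⟩
  · refine ⟨a, b, h2.symm, h1, ?_⟩
    ext x
    simp only [mem_insert_iff, mem_singleton_iff]
    tauto

theorem xfp_adj {x y : V} (h : (F ⊔ SimpleGraph.edge v p).Adj x y) :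
    F.Adj x y ∨ (x = v ∧ y = p) ∨ (x = p ∧ y = v) :=
  h.imp_right fun h => ((SimpleGraph.edge_adj v p x y).1 h).1

theorem xfp_rev {e : Sym2 V} {a b : V}
    (h : ReflTransGen (fun x y => F.Adj x y ∧ s(x, y) ≠ e) a b) :
    ReflTransGen (fun x y => F.Adj x y ∧ s(x, y) ≠ e) b a := by
  induction h with
  | refl => exact .refl
  | tail _ h ih => exact ih.head ⟨h.1.symm, by rw [Sym2.eq_swap]; exact h.2⟩

open Classical in
theorem xfp_route (hv : ∀ y, ¬ F.Adj v y) {e : Sym2 V} {a b : V}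
    (h : ReflTransGen (fun x y => (F ⊔ SimpleGraph.edge v p).Adj x y ∧ s(x, y) ≠ e) a b) :
    ReflTransGen (fun x y => F.Adj x y ∧ s(x, y) ≠ e) (if a = v then p else a)
      (if b = v then p else b) := by
  induction h with
  | refl => exact .refl
  | @tail x y _ h ih =>
    rcases xfp_adj h.1 with h1 | ⟨rfl, rfl⟩ | ⟨rfl, rfl⟩
    · have hx : x ≠ v := fun e => hv y (e ▸ h1)
      have hy : y ≠ v := fun e => hv x (e ▸ h1.symm)
      rw [if_neg hx] at ih
      rw [if_neg hy]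
      exact ih.tail ⟨h1, h.2⟩
    · rw [if_pos rfl] at ih
      rw [ite_self]
      exact ih
    · rw [ite_self] at ih
      rw [if_pos rfl]
      exact ih

theorem xfp_leaf (hv : ∀ y, ¬ F.Adj v y) (hF : NoBack Y F) (hpq : Y.Adj p q) (hn : ¬ F.Adj p q)
    (hb : ∀ b z, Y.Adj v b → F.Adj b z → b = p ∨ b = q) {b : V} (h : Y.Adj v b) :
    ¬ ReflTransGen (fun x y => (F ⊔ SimpleGraph.edge v p).Adj x y ∧ s(x, y) ≠ s(v, b)) v b := by
  intro P
  by_cases hbp : b = p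
  · rcases P.cases_head with e | ⟨z, hz, -⟩
    · exact h.ne e
    · rcases xfp_adj hz.1 with h1 | ⟨-, rfl⟩ | ⟨e, -⟩
      · exact hv z h1
      · exact hz.2 (by rw [hbp])
      · exact h.ne (e.trans hbp.symm)
  have Q := xfp_route hv P
  rw [if_pos rfl, if_neg h.ne'] at Q
  rcases Q.cases_tail with e | ⟨z, -, hz⟩
  · exact hbp e
  obtain rfl : b = q := (hb b z h hz.1.symm).resolve_left hbp
  refine hF p b hpq (rtg_mono (fun x y hxy => ⟨hxy.1, fun e => hn ?_⟩) Q)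
  rcases Sym2.eq_iff.1 e with ⟨rfl, rfl⟩ | ⟨rfl, rfl⟩
  exacts [hxy.1, hxy.1.symm]

theorem xfp_noBack (hv : ∀ y, ¬ F.Adj v y) (hF : NoBack Y F) (hpq : Y.Adj p q)
    (hn : ¬ F.Adj p q) (hb : ∀ b z, Y.Adj v b → F.Adj b z → b = p ∨ b = q) :
    NoBack Y (F ⊔ SimpleGraph.edge v p) := by
  intro a b hab P
  by_cases ha : a = v
  · subst ha
    exact xfp_leaf hv hF hpq hn hb hab P
  by_cases hb' : b = v
  · subst hb'
    rw [Sym2.eq_swap (a := a)] at P
    exact xfp_leaf hv hF hpq hn hb hab.symm (xfp_rev P)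
  have Q := xfp_route hv P
  rw [if_neg ha, if_neg hb'] at Q
  exact hF a b hab Q

theorem xfp_bip (hv : ∀ y, ¬ F.Adj v y) (hvp : v ≠ p) (h : Bip F) :
    Bip (F ⊔ SimpleGraph.edge v p) := by
  classical
  obtain ⟨s, hs⟩ := h
  refine ⟨update s v (!s p), fun x y hxy => ?_⟩
  rcases xfp_adj hxy with h1 | ⟨rfl, rfl⟩ | ⟨rfl, rfl⟩
  · have hx : x ≠ v := fun e => hv y (e ▸ h1)
    have hy : y ≠ v := fun e => hv x (e ▸ h1.symm)
    rw [update_of_ne hx, update_of_ne hy]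
    exact hs x y h1
  · rw [update_self, update_of_ne hvp.symm]
    simp
  · rw [update_self, update_of_ne hvp.symm]
    simp

theorem xfp_main [Finite V] (hBr : BrStmt) (hA : Atoms Y (Cq Y) (Tri Y)) (𝒪 : Set (Set V)) :
    (∀ O ∈ 𝒪, Tri Y O) → ∃ F, F ≤ Y ∧ Bip F ∧ NoBack Y F ∧
      (∀ O ∈ 𝒪, ∃ a ∈ O, ∃ b ∈ O, F.Adj a b) ∧ ∀ x y, F.Adj x y → ∃ O ∈ 𝒪, x ∈ O := by
  induction 𝒪 using WellFoundedLT.induction with
  | ind 𝒪 ih =>
    intro h
    rcases 𝒪.eq_empty_or_nonempty with rfl | hne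
    · exact ⟨⊥, bot_le, ⟨fun _ => true, fun _ _ e => e.elim⟩, noBack_bot, fun _ e => e.elim,
        fun _ _ e => e.elim⟩
    obtain ⟨c, -⟩ := h _ hne.some_mem
    obtain ⟨O, hO, τ, Br, hτ, ⟨c1, c2, -, c4⟩, -, hd⟩ := hBr V Y _ _ hA 𝒪 hne h c
    obtain ⟨F, f1, f2, f3, f4, f5⟩ := ih (𝒪 \ {O}) (sdiff_singleton_ssubset.2 hO)
      fun O' h' => h O' h'.1
    have hout : ∀ x y, F.Adj x y → x ∉ Br := fun x y e hx => by
      obtain ⟨O', h1, h2⟩ := f5 x y e
      exact disjoint_left.1 (hd O' h1.1 h1.2) h2 hx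
    have f5' : ∀ x y, F.Adj x y → ∃ O ∈ 𝒪, x ∈ O := fun x y e =>
      let ⟨O', h1, h2⟩ := f5 x y e; ⟨O', h1.1, h2⟩
    obtain ⟨v, hv⟩ := (hA.nsep O τ (h O hO) hτ).2
    obtain ⟨p, q, hvp, hpq, e⟩ := xfp_tri (h O hO) hv.1
    have hp : p ∈ O := by simp [e]
    have hq : q ∈ O := by simp [e]
    by_cases hn : F.Adj p q
    · refine ⟨F, f1, f2, f3, fun O' h' => ?_, f5'⟩
      by_cases e' : O' = O
      · exact e' ▸ ⟨p, hp, q, hq, hn⟩
      · exact f4 O' ⟨h', e'⟩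
    have hv' : ∀ y, ¬ F.Adj v y := fun y e => hout v y e (c2 hv)
    refine ⟨F ⊔ SimpleGraph.edge v p, sup_le f1 ((SimpleGraph.edge_le_iff Y).2 (.inr hvp)),
      xfp_bip hv' hvp.ne f2, xfp_noBack hv' f3 hpq hn fun b z h1 h2 => ?_, fun O' h' => ?_,
      fun x y hxy => ?_⟩
    · have := c1 ((c4 v (c2 hv) b h1).resolve_left (hout b z h2))
      rw [e] at this
      exact this.resolve_left h1.ne'
    · by_cases e' : O' = O
      · exact e' ▸ ⟨v, hv.1, p, hp, .inr ((SimpleGraph.edge_adj v p v p).2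
          ⟨.inl ⟨rfl, rfl⟩, hvp.ne⟩)⟩
      · obtain ⟨a, ha, b, hb, e⟩ := f4 O' ⟨h', e'⟩
        exact ⟨a, ha, b, hb, .inl e⟩
    · rcases xfp_adj hxy with h1 | ⟨rfl, -⟩ | ⟨rfl, -⟩
      exacts [f5' x y h1, ⟨O, hO, hv.1⟩, ⟨O, hO, hp⟩]

end

theorem fp_stmt (hBr : BrStmt) : FPStmt := by
  intro V _ Y hA
  obtain ⟨F, f1, f2, f3, f4, -⟩ := xfp_main hBr hA {O | Tri Y O} fun _ h => h
  exact ⟨F, f1, f2, f3, f4⟩

end Pool.Agent.MP_1c0fc2_co.RE

end

section

/-! Isolating edges for families of triangles. -/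

open Function Set Relation

namespace Pool.Agent.MP_1c0fc2_co.RE

open Classical in
theorem xie3_sum {V : Type} (J : SimpleGraph V) (s : Finset V) :
    ec J ↑s = ∑ x ∈ s, (s.filter (J.Adj x)).card := by
  have e : {p : V × V | p.1 ∈ (s : Set V) ∧ p.2 ∈ (s : Set V) ∧ J.Adj p.1 p.2} =
      ↑((s ×ˢ s).filter fun p => J.Adj p.1 p.2) := by
    ext p
    simp [and_assoc]
  rw [ec, e, ncard_coe_finset, Finset.card_filter, Finset.sum_product]
  simp only [Finset.card_filter]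

theorem xie3_tri {V : Type} {J : SimpleGraph V} {S : Set V} (h : Tri J S) {y : V} (hy : y ∈ S) :
    ∃ a b, J.Adj y a ∧ J.Adj y b ∧ J.Adj a b ∧ S = {y, a, b} := by
  obtain ⟨a, b, c, h1, h2, h3, rfl⟩ := h
  rcases hy with rfl | rfl | rfl
  · exact ⟨b, c, h1, h2, h3, rfl⟩
  · exact ⟨a, c, h1.symm, h3, h2, insert_comm _ _ _⟩
  · exact ⟨a, b, h2.symm, h3.symm, h1, by rw [pair_comm b, insert_comm]⟩

theorem xie3_loc {V : Type} [DecidableEq V] {J : SimpleGraph V} {𝒯 : Set (Set V)}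
    (hT : ∀ S ∈ 𝒯, Tri J S)
    (h4 : ∀ a b c d, J.Adj a b → J.Adj a c → J.Adj a d → J.Adj b c → J.Adj b d → ¬ J.Adj c d)
    {y : V} {N : Finset V} (hN : ∀ S ∈ 𝒯, y ∈ S → ∀ x ∈ S, x ≠ y → x ∈ N) {S : Set V}
    (hS : S ∈ 𝒯) (hy : y ∈ S) : 2 ≤ N.card ∧ (N.card ≤ 3 → ∀ r,
      (∃ y', y' ≠ r ∧ Iso J 𝒯 y y') ∨ (N.card = 3 ∧ r ∈ S ∧ Iso J 𝒯 y r)) := by
  obtain ⟨a, b, ha, hb, hab, rfl⟩ := xie3_tri (hT S hS) hy
  have ma := hN _ hS hy a (by simp) ha.ne'
  have mb := hN _ hS hy b (by simp) hb.ne'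
  have key : ∀ x, J.Adj y x → x ∈ N → N.card ≤ 3 → Iso J 𝒯 y x ∨
      (N.card = 3 ∧ ∀ u ∈ N, u ≠ x → J.Adj y u ∧ ∀ w ∈ N, w ≠ x → u ≠ w → J.Adj u w) := by
    intro x hx mx h3
    by_cases h : ∀ S ∈ 𝒯, y ∈ S → x ∈ S
    · exact Or.inl ⟨hx, ⟨_, hS, hy⟩, h⟩
    push Not at h
    obtain ⟨S', hS', hy', hx'⟩ := h
    obtain ⟨c, d, hc, hd, hcd, e⟩ := xie3_tri (hT S' hS') hy'
    have h5 : ({x, c, d} : Finset V) ⊆ N := by
      rw [Finset.insert_subset_iff, Finset.insert_subset_iff, Finset.singleton_subset_iff]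
      exact ⟨mx, hN _ hS' hy' c (by simp [e]) hc.ne', hN _ hS' hy' d (by simp [e]) hd.ne'⟩
    have h6 : ({x, c, d} : Finset V).card = 3 := Finset.card_eq_three.2 ⟨x, c, d,
      fun h => hx' (by simp [e, h]), fun h => hx' (by simp [e, h]), hcd.ne, rfl⟩
    have h7 := Finset.eq_of_subset_of_card_le h5 (h6 ▸ h3)
    have h8 : ∀ u ∈ N, u ≠ x → u ∈ S' ∧ u ≠ y := fun u hu hux => by
      rw [← h7] at hu
      simp only [Finset.mem_insert, Finset.mem_singleton, hux, false_or] at hu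
      rcases hu with rfl | rfl
      · exact ⟨by simp [e], hc.ne'⟩
      · exact ⟨by simp [e], hd.ne'⟩
    exact Or.inr ⟨h7 ▸ h6, fun u hu hux => ⟨(hT _ hS').adj hy' (h8 u hu hux).1 (h8 u hu hux).2.symm,
      fun w hw hwx => (hT _ hS').adj (h8 u hu hux).1 (h8 w hw hwx).1⟩⟩
  refine ⟨Finset.one_lt_card.2 ⟨a, ma, b, mb, hab.ne⟩, fun h3 r => ?_⟩
  rcases key a ha ma h3 with h | h <;> rcases key b hb mb h3 with h' | h'
  · by_cases e : a = r
    · exact Or.inl ⟨b, e ▸ hab.ne', h'⟩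
    · exact Or.inl ⟨a, e, h⟩
  · by_cases e : a = r
    · exact Or.inr ⟨h'.1, by simp [e], e ▸ h⟩
    · exact Or.inl ⟨a, e, h⟩
  · by_cases e : b = r
    · exact Or.inr ⟨h.1, by simp [e], e ▸ h'⟩
    · exact Or.inl ⟨b, e, h'⟩
  · obtain ⟨c, hc, h5⟩ := Finset.exists_mem_notMem_of_card_lt_card
      (s := {a, b}) (t := N) (Finset.card_le_two.trans_lt (by omega))
    simp only [Finset.mem_insert, Finset.mem_singleton, not_or] at h5
    exact absurd ((h.2 b mb hab.ne').2 c hc h5.1 (Ne.symm h5.2)) (h4 y a b c ha hb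
      (h.2 c hc h5.1).1 hab ((h'.2 a ma hab.ne).2 c hc h5.2 (Ne.symm h5.1)))

theorem ie3_stmt (hK3 : K3Stmt) (hEdge : EdgeStmt) : IE3Stmt := by
  intro W V _ _ H P hP h3 J ⟨f, hf⟩ 𝒯 ⟨S₀, hS₀⟩ hTS
  classical
  have := Fintype.ofFinite V
  have hT : ∀ S ∈ 𝒯, Tri J S := fun S hS => (((hK3 W V H P hP).2 J S).2.1 h3).1 (hTS S hS)
  have hE : ∀ (J' : SimpleGraph V) (s : Finset V), J' ≤ J → 2 ≤ s.card →
      ∑ x ∈ s, (s.filter (J'.Adj x)).card + 6 ≤ 4 * s.card := fun J' s hle hs => by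
    have h1 : IHo J' H f s := ((ih_id hle).comp hf).on _
    have h2 := hEdge W H P hP h3 (f '' s) (by rwa [h1.ncard, ncard_coe_finset])
    rw [h1.ncard, ncard_coe_finset] at h2
    have h4 := ec_le h1
    rw [xie3_sum] at h4
    exact (Nat.add_le_add_right (by convert h4) 6).trans h2
  have h4 : ∀ a b c d, J.Adj a b → J.Adj a c → J.Adj a d → J.Adj b c → J.Adj b d →
      ¬ J.Adj c d := fun a b c d e1 e2 e3 e4 e5 e6 => by
    have hc : ({a, b, c, d} : Finset V).card = 4 := Finset.card_eq_four.2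
      ⟨a, b, c, d, e1.ne, e2.ne, e3.ne, e4.ne, e5.ne, e6.ne, rfl⟩
    have h1 := hE J {a, b, c, d} le_rfl (by omega)
    have h2 := Finset.card_nsmul_le_sum {a, b, c, d}
      (fun x => (({a, b, c, d} : Finset V).filter (J.Adj x)).card) 3 fun x hx => by
        refine le_trans ?_ (Finset.card_le_card (s := Finset.erase {a, b, c, d} x) fun z hz => ?_)
        · rw [Finset.card_erase_of_mem hx, hc]
        · obtain ⟨hzx, hz⟩ := Finset.mem_erase.1 hz
          refine Finset.mem_filter.2 ⟨hz, ?_⟩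
          simp only [Finset.mem_insert, Finset.mem_singleton] at hx hz
          rcases hx with rfl | rfl | rfl | rfl <;> rcases hz with rfl | rfl | rfl | rfl <;>
            first | assumption | exact absurd rfl hzx | exact SimpleGraph.Adj.symm (by assumption)
    rw [hc] at h1
    rw [hc, smul_eq_mul] at h2
    omega
  obtain ⟨J', hJ'⟩ : ∃ J' : SimpleGraph V, ∀ x y, J'.Adj x y ↔ x ≠ y ∧ ∃ S ∈ 𝒯, x ∈ S ∧ y ∈ S :=
    ⟨{ Adj := fun x y => x ≠ y ∧ ∃ S ∈ 𝒯, x ∈ S ∧ y ∈ S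
       symm := ⟨fun _ _ ⟨h, S, h1, h2, h3⟩ => ⟨h.symm, S, h1, h3, h2⟩⟩
       loopless := ⟨fun _ h => h.1 rfl⟩ }, fun _ _ => Iff.rfl⟩
  obtain ⟨U, hU⟩ : ∃ U : Finset V, ∀ x, x ∈ U ↔ ∃ S ∈ 𝒯, x ∈ S :=
    ⟨Finset.univ.filter fun x => ∃ S ∈ 𝒯, x ∈ S, fun x => by simp⟩
  have hs := hE J' U (fun x y h => by
    obtain ⟨h, S, h1, h2, h3⟩ := (hJ' x y).1 h
    exact (hT S h1).adj h2 h3 h) (by
    obtain ⟨a, b, c, h, -, -, e⟩ := hT S₀ hS₀
    exact Finset.one_lt_card.2 ⟨a, (hU a).2 ⟨S₀, hS₀, by simp [e]⟩, b,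
      (hU b).2 ⟨S₀, hS₀, by simp [e]⟩, h.ne⟩)
  have loc : ∀ y ∈ U, 2 ≤ (U.filter (J'.Adj y)).card ∧ ((U.filter (J'.Adj y)).card ≤ 3 → ∀ r,
      (∃ y', y' ≠ r ∧ Iso J 𝒯 y y') ∨
        ((U.filter (J'.Adj y)).card = 3 ∧ J'.Adj r y ∧ Iso J 𝒯 y r)) := fun y hy => by
    obtain ⟨S, hS, hyS⟩ := (hU y).1 hy
    have h := xie3_loc (N := U.filter (J'.Adj y)) hT h4 (fun S hS hy x hx e =>
      Finset.mem_filter.2 ⟨(hU x).2 ⟨S, hS, hx⟩, (hJ' _ _).2 ⟨e.symm, S, hS, hy, hx⟩⟩) hS hyS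
    exact ⟨h.1, fun h3 r => (h.2 h3 r).imp_right fun h =>
      ⟨h.1, (hJ' _ _).2 ⟨h.2.2.1.ne', S, hS, h.2.1, hyS⟩, h.2.2⟩⟩
  refine ⟨fun p q => by_contra fun hn => ?_, fun r => by_contra fun hn => ?_⟩
  · have h1 := Finset.card_nsmul_le_sum U (fun x => (U.filter (J'.Adj x)).card +
        ((if x = p then 2 else 0) + if x = q then 2 else 0)) 4 fun x hx => by
      obtain ⟨a1, a2⟩ := loc x hx
      by_cases e1 : x = p
      · simp only [if_pos e1]; omega
      by_cases e2 : x = q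
      · simp only [if_pos e2]; omega
      by_contra h
      rcases a2 (by omega) x with ⟨y', -, h'⟩ | ⟨-, -, h'⟩
      · exact hn ⟨x, y', e1, e2, h'⟩
      · exact hn ⟨x, x, e1, e2, h'⟩
    simp only [Finset.sum_add_distrib, Finset.sum_ite_eq', smul_eq_mul] at h1
    split_ifs at h1 <;> omega
  · have h1 : ∑ x ∈ U, (4 + if x = r then (U.filter (J'.Adj r)).card else 0) ≤
        ∑ x ∈ U, ((U.filter (J'.Adj x)).card +
          ((if x = r then 4 else 0) + if J'.Adj r x then 1 else 0)) := by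
      refine Finset.sum_le_sum fun x hx => ?_
      by_cases e : x = r
      · rw [if_pos e, if_pos e, e]; omega
      rw [if_neg e, if_neg e]
      by_contra h
      rcases (loc x hx).2 (by omega) r with ⟨y', h1, h'⟩ | ⟨h1, h2, -⟩
      · exact hn ⟨x, y', e, h1, h'⟩
      · rw [if_pos h2] at h
        omega
    simp only [Finset.sum_add_distrib, Finset.sum_ite_eq', Finset.sum_const, smul_eq_mul,
      ← Finset.card_filter] at h1
    split_ifs at h1 with hr
    · change _ ≤ _ + (_ + (U.filter (J'.Adj r)).card) at h1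
      omega
    · have h2 : U.filter (J'.Adj r) = ∅ := Finset.filter_eq_empty_iff.2
        fun x _ h => by
          obtain ⟨_, S, hS, h, _⟩ := (hJ' r x).1 h
          exact hr ((hU r).2 ⟨S, hS, h⟩)
      rw [h2, Finset.card_empty] at h1
      omega

end Pool.Agent.MP_1c0fc2_co.RE

end

section

open Function Set Relation

namespace Pool.Agent.MP_1c0fc2_co.RE

/-- the slot edge and the removed branch of one class -/
theorem xm0a_one (hBr : BrStmt) {U : Type} [Finite U] {A : SimpleGraph U} {Ob : Set U → Prop}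
    (hA : Atoms A (Cq A) Ob) (h4 : ∀ O, Ob O → 4 ≤ O.ncard) (K : Set U) (c : U) :
    ∃ (Br τ : Set U) (m : SimpleGraph U), m ≤ A ∧
      (∀ a b x y, m.Adj a b → m.Adj x y → x = a ∨ x = b) ∧ (∀ a b, m.Adj a b → a ∈ K ∧ a ∈ Br) ∧
      c ∉ Br ∧ (∀ O, Ob O → O ⊆ K → Disjoint O Br ∨ ∃ x ∈ O, ∃ y ∈ O, m.Adj x y) ∧
      (∀ O, Ob O → O ⊆ K → ∃ x ∈ BW Ob K, x ∈ Br) ∧ Cq A τ ∧ τ ⊆ K ∧ Disjoint Br τ ∧
      ∀ v ∈ Br, ∀ w, A.Adj v w → w ∈ Br ∨ w ∈ τ := by
  by_cases hn : {O | Ob O ∧ O ⊆ K}.Nonempty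
  · obtain ⟨O, ⟨hO, hOK⟩, τ, Br, hτ, ⟨c1, c2, c3, c4⟩, hc, hd⟩ :=
      hBr U A _ _ hA _ hn (fun _ h => h.1) c
    obtain ⟨n1, a, ha⟩ := hA.nsep O τ hO hτ
    have h2 : 1 < (O \ τ).ncard := by
      have h5 := h4 O hO
      have h6 := hτ.ncard_le
      have h7 := ncard_sdiff_add_ncard_of_subset c1
      omega
    obtain ⟨b', hb', hne⟩ := exists_ne_of_one_lt_ncard h2 a
    obtain ⟨b, hb, hba, hab⟩ := n1.step ha hb' hne
    have key : ∀ x y, (SimpleGraph.edge a b).Adj x y → (x = a ∧ y = b) ∨ (x = b ∧ y = a) :=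
      fun x y h => ((SimpleGraph.edge_adj a b x y).1 h).1
    refine ⟨Br, τ, SimpleGraph.edge a b, fun x y h => ?_, fun x y z w h h' => ?_,
      fun x y h => ?_, hc, fun O' h1 h2 => ?_, fun _ _ _ => ⟨a, ⟨O, hO, hOK, ha.1⟩, c2 ha⟩, hτ,
      c1.trans hOK, c3, c4⟩
    · rcases key x y h with ⟨rfl, rfl⟩ | ⟨rfl, rfl⟩
      exacts [hab, hab.symm]
    · rcases key x y h with ⟨rfl, rfl⟩ | ⟨rfl, rfl⟩ <;> rcases key z w h' with h3 | h3
      exacts [.inl h3.1, .inr h3.1, .inr h3.1, .inl h3.1]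
    · rcases key x y h with ⟨rfl, rfl⟩ | ⟨rfl, rfl⟩
      exacts [⟨hOK ha.1, c2 ha⟩, ⟨hOK hb.1, c2 hb⟩]
    · by_cases e : O' = O
      · subst e
        exact .inr ⟨a, ha.1, b, hb.1, (SimpleGraph.edge_adj a b a b).2 ⟨.inl ⟨rfl, rfl⟩, hab.ne⟩⟩
      · exact .inl (hd O' ⟨h1, h2⟩ e)
  · exact ⟨∅, ∅, ⊥, bot_le, fun _ _ _ _ h => h.elim, fun _ _ h => h.elim, fun h => h,
      fun _ _ _ => .inl (disjoint_empty _), fun O h1 h2 => (hn ⟨O, h1, h2⟩).elim,
      .inl subsingleton_empty, empty_subset _, disjoint_empty _, fun _ h => h.elim⟩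

/-- the convexity rule survives the removal of a branch -/
theorem xm0a_rule {U : Type} {A J : SimpleGraph U} (hJ : J ≤ A) {K Br τ : Set U}
    (h : Rule .S1 A K) (hτ : Cq A τ) (hK : τ ⊆ K) (hd : Disjoint Br τ)
    (hc : ∀ v ∈ Br, ∀ w, A.Adj v w → w ∈ Br ∨ w ∈ τ) : Rule .S1 J (K \ Br) := by
  intro t ht C hC hadj hconn
  by_cases hm : (C ∩ Br).Nonempty
  · obtain ⟨x0, hx0, hx0'⟩ := hm
    have hsub : C ⊆ Br := hconn.sub hx0 hx0' fun x _ y hy hx e =>
      (hc x hx y (hJ e)).resolve_right fun hy' =>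
        disjoint_left.1 hC hy ⟨hK hy', disjoint_right.1 hd hy'⟩
    have htτ : t ∈ τ := (hc x0 hx0' t (hJ (hadj x0 hx0)).symm).resolve_left ht.2
    rintro a ⟨ha, hta, x, hx, hax⟩ b ⟨hb, htb, y, hy, hby⟩
    have haτ : a ∈ τ := (hc x (hsub hx) a (hJ hax).symm).resolve_left ha.2
    have hbτ : b ∈ τ := (hc y (hsub hy) b (hJ hby).symm).resolve_left hb.2
    exact ((hτ.three htτ haτ hbτ).resolve_left hta.ne).resolve_left htb.ne
  · have hCK : Disjoint C K := disjoint_left.2 fun x hx hxK =>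
      disjoint_left.1 hC hx ⟨hxK, fun hxB => hm ⟨x, hx, hxB⟩⟩
    refine (h t ht.1 C hCK (fun x hx => hJ (hadj x hx))
      (hconn.mono fun _ _ _ _ e => hJ e)).anti ?_
    rintro a ⟨ha, hta, x, hx, hax⟩
    exact ⟨ha.1, hJ hta, x, hx, hJ hax⟩

theorem m0A_stmt (hEq : EqStmt) (hAtomA : AtomAStmt) (hBr : BrStmt) (hRP : RPStmt) :
    M0AStmt := by
  intro W U _ _ H P hP hcase A hAH s hfam
  obtain ⟨L, _, K, ⟨cov, rp, dis, rule⟩, wt⟩ := hfam
  rcases isEmpty_or_nonempty U with hU | hU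
  · refine ⟨⊥, Empty, inferInstance, Empty.elim, ⟨bot_le, fun _ _ _ h => h.elim,
      fun _ _ _ _ h => h.elim⟩, ⟨fun O hO => ?_, fun _ _ h => ?_, fun l => l.elim,
      fun l => l.elim⟩, fun l => l.elim, fun l => l.elim, fun h => h.elim⟩
    · obtain ⟨x, -⟩ := hO.two.nonempty
      exact isEmptyElim x
    · obtain ⟨l, -⟩ := h
      exact l.elim
  obtain ⟨c, hc⟩ := (hRP U L A K ∅).2.2.2.2 rp hU
  have hA := hAtomA W U H P hP A hAH
  choose Br τ m m1 m2 m3 m4 m5 m6 m7 m8 m9 m10 using fun l =>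
    xm0a_one hBr hA (fun O hO => hO.2.1 ▸ hcase.1) (K l) (c l)
  have same : ∀ {l l' x}, x ∈ K l → x ∈ K l' → l = l' := fun {l l' x} h h' => by
    by_contra e
    exact disjoint_left.1 (dis l l' e) h h'
  have up : ∀ O, AS P H (A \ ⨆ l, m l) O → AS P H A O := fun O hO => by
    have := hO.map ((ih_id (sdiff_le (a := A) (b := ⨆ l, m l))).on O)
    rwa [image_id] at this
  refine ⟨⨆ l, m l, L, inferInstance, fun l => K l \ Br l,
    ⟨iSup_le m1, fun a b d h h' => ?_, fun a b x y h h' e => ?_⟩,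
    ⟨fun O hO => ?_, ?_, fun l l' e => (dis l l' e).mono sdiff_subset sdiff_subset, fun l =>
      xm0a_rule sdiff_le (rule l) (m7 l) (m8 l) (m9 l) (m10 l)⟩, fun l => ?_, fun l => ?_,
    fun h => h.elim⟩
  · obtain ⟨l, h⟩ := SimpleGraph.iSup_adj.1 h
    obtain ⟨l', h'⟩ := SimpleGraph.iSup_adj.1 h'
    obtain rfl := same (m3 l _ _ h).1 (m3 l' _ _ h').1
    exact ((m2 l _ _ _ _ h h'.symm).resolve_left h'.ne').symm
  · obtain ⟨l, h⟩ := SimpleGraph.iSup_adj.1 h
    obtain ⟨l', h'⟩ := SimpleGraph.iSup_adj.1 h'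
    have ha := m3 l _ _ h
    have hx := m3 l' _ _ h'
    by_cases hl : l = l'
    · subst hl
      exact (m2 l _ _ _ _ h h').resolve_left e.ne'
    · exfalso
      rcases hc l l' hl with h1 | h1
      · have h2 : a = c l := h1 ⟨ha.1, .inr ⟨x, hx.1, fun h3 => hl (same h3 hx.1), e⟩⟩
        exact m4 l (h2 ▸ ha.2)
      · have h2 : x = c l' := h1 ⟨hx.1, .inr ⟨a, ha.1, fun h3 => hl (same ha.1 h3), e.symm⟩⟩
        exact m4 l' (h2 ▸ hx.2)
  · obtain ⟨l, hl⟩ := cov O (up O hO)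
    rcases m5 l O (up O hO) hl with h | ⟨x, hx, y, hy, h⟩
    · exact ⟨l, subset_sdiff.2 ⟨hl, h⟩⟩
    · obtain ⟨f, hf⟩ := hAH
      exact ((hEq W U U H P hP (A \ ⨆ l, m l) A id f O ((ih_id sdiff_le).on O) (hf.on _)
        (.inr hO) x hx y hy (m1 l h)).2 (SimpleGraph.iSup_adj.2 ⟨l, h⟩)).elim
  · have h1 := (hRP U L A K ∅).1 rp (A \ ⨆ l, m l) (⋃ l, K l \ Br l) sdiff_le
    have h2 : (fun l => K l ∩ ⋃ l, K l \ Br l) = fun l => K l \ Br l := by
      funext l
      refine Subset.antisymm ?_ fun x hx => ⟨hx.1, mem_iUnion.2 ⟨l, hx⟩⟩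
      rintro x ⟨hx, hx'⟩
      obtain ⟨l', hl'⟩ := mem_iUnion.1 hx'
      obtain rfl := same hx hl'.1
      exact hl'
    rwa [h2, empty_inter] at h1
  · rcases (BW (BO P H .S1 (A \ ⨆ l, m l)) (K l \ Br l)).eq_empty_or_nonempty with h | h
    · rw [h, ncard_empty]
      exact Nat.zero_le _
    · obtain ⟨_, O, hO, hOK, -⟩ := h
      obtain ⟨x, hx, hxB⟩ := m6 l O (up O hO) (hOK.trans sdiff_subset)
      refine Nat.le_of_lt_succ (lt_of_lt_of_le (ncard_lt_ncard ⟨?_, fun h => ?_⟩) (wt l))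
      · rintro w ⟨O', h1, h2, h3⟩
        exact ⟨O', up O' h1, h2.trans sdiff_subset, h3⟩
      · obtain ⟨O', -, h2, h3⟩ := h hx
        exact (h2 h3).2 hxB
  · refine disjoint_left.2 ?_
    rintro x hx ⟨y, h⟩
    obtain ⟨l', h⟩ := SimpleGraph.iSup_adj.1 h
    obtain rfl := same hx.1 (m3 l' _ _ h).1
    exact hx.2 (m3 l _ _ h).2

end Pool.Agent.MP_1c0fc2_co.RE

end

section

/-! Choice of the slot edges in the cases where the blue objects are theta sets. -/

open Function Set Relation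

namespace Pool.Agent.MP_1c0fc2_co.RE

theorem xm0t_bo {W U : Type} {P : Par} {H : SimpleGraph W} {m : Mode} (hm : m ≠ .S1)
    (J : SimpleGraph U) : BO P H m J = TH P H J := by
  cases m
  · rfl
  · rfl
  · exact absurd rfl hm
  · rfl

theorem xm0t_mono {W U : Type} [Finite U] {P : Par} {H : SimpleGraph W} {J J' : SimpleGraph U}
    (h : J ≤ J') {O : Set U} (hO : TH P H J O) : TH P H J' O := by
  have := hO.map ((ih_id h).on O)
  rwa [image_id] at this

/-- the data chosen in one class -/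
structure xm0t_Data {W U : Type} (P : Par) (H : SimpleGraph W) (A : SimpleGraph U) (K : Set U)
    (c : U) (O τ Br : Set U) (y y' : U) : Prop where
  th : TH P H A O
  sub : O ⊆ K
  one : τ.Subsingleton
  cut : Cut (TG P H A univ) O τ Br
  root : c ∉ Br
  oth : ∀ O', TH P H A O' → O' ⊆ K → O' ≠ O → Disjoint O' Br
  iso : Iso A {S | S ⊆ O ∧ TS P H A S} y y'
  yO : y ∈ O
  yO' : y' ∈ O
  yB : y ∈ Br
  yB' : y' ∈ Br

theorem xm0t_class (hAtomB : AtomBStmt) (hIE : IEStmt) (hBr : BrStmt) {W U : Type} [Finite W]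
    [Finite U] {H : SimpleGraph W} {P : Par} (hP : P.Ok H) {A : SimpleGraph U} (hA : In A H)
    (K : Set U) (c : U) (hG : ∃ O, TH P H A O ∧ O ⊆ K) :
    ∃ O τ Br y y', xm0t_Data P H A K c O τ Br y y' := by
  obtain ⟨a1, -, -, a4⟩ := hAtomB W U H P A
  obtain ⟨O, ⟨o1, o2⟩, τ, Br, b1, b2, b3, b4⟩ := hBr U _ _ _ a1 {O | TH P H A O ∧ O ⊆ K} hG
    (fun O hO => a4 hP hA O hO.1) c
  obtain ⟨r, hr⟩ : ∃ r, τ ⊆ {r} := by
    rcases b1.eq_empty_or_singleton with e | ⟨r, e⟩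
    · exact ⟨c, e ▸ empty_subset _⟩
    · exact ⟨r, e.le⟩
  obtain ⟨x, hx⟩ := o1.two.nonempty
  obtain ⟨D, d1, d2, -⟩ := o1.ts hx
  obtain ⟨y, y', h1, h2, h3⟩ := (hIE W U H P hP A hA {S | S ⊆ O ∧ TS P H A S} ⟨D, d1, d2⟩
    fun S hS => hS.2).2 r
  obtain ⟨S, hS, hy⟩ := h3.2.1
  have hy' := h3.2.2 S hS hy
  exact ⟨O, τ, Br, y, y', o1, o2, b1, b2, b3, fun O' e1 e2 => b4 O' ⟨e1, e2⟩, h3, hS.1 hy,
    hS.1 hy', b2.2.1 ⟨hS.1 hy, fun e => h1 (hr e)⟩, b2.2.1 ⟨hS.1 hy', fun e => h2 (hr e)⟩⟩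

/-- the chosen edges -/
def xm0t_M {U L : Type} (A : SimpleGraph U) (G : L → Prop) (y y' : L → U) : SimpleGraph U where
  Adj a b := A.Adj a b ∧ ∃ l, G l ∧ s(y l, y' l) = s(a, b)
  symm := ⟨fun _ _ ⟨h, l, h1, h2⟩ => ⟨h.symm, l, h1, h2.trans Sym2.eq_swap⟩⟩
  loopless := ⟨fun _ h => h.1.ne rfl⟩

theorem m0T_stmt (hK3 : K3Stmt) (hAtomB : AtomBStmt) (hIE : IEStmt) (hBr : BrStmt)
    (hBridge : BridgeStmt) (hRP : RPStmt) : M0TStmt := by
  intro W U _ _ H P hP m hm hC A hA s ⟨L, hL, K, hK, hw⟩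
  rcases isEmpty_or_nonempty U with hU | hU
  · refine ⟨⊥, L, hL, K, ⟨bot_le, fun _ _ _ h => h.elim, fun _ _ _ _ h => h.elim⟩, ?_,
      fun l => ?_, fun l => ?_, fun _ a => isEmptyElim a⟩
    · rwa [sdiff_bot]
    · rw [eq_empty_of_isEmpty (BW _ _), ncard_empty]
      exact Nat.zero_le _
    · exact disjoint_left.2 fun a => isEmptyElim a
  rw [xm0t_bo hm] at hK hw
  obtain ⟨r1, -, -, -, r5⟩ := hRP U L A K ∅
  obtain ⟨c, hc⟩ := r5 hK.rp hU
  let G : L → Prop := fun l => ∃ O, TH P H A O ∧ O ⊆ K l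
  have key : ∀ l, ∃ (O τ Br : Set U) (y y' : U),
      (G l → xm0t_Data P H A (K l) (c l) O τ Br y y') ∧ (¬ G l → Br = ∅) := by
    intro l
    by_cases h : G l
    · obtain ⟨O, τ, Br, y, y', d⟩ := xm0t_class hAtomB hIE hBr hP hA (K l) (c l) h
      exact ⟨O, τ, Br, y, y', fun _ => d, fun h' => absurd h h'⟩
    · exact ⟨∅, ∅, ∅, c l, c l, fun h' => absurd h' h, fun _ => rfl⟩
  choose O τ Br y y' hd h0 using key
  let M : SimpleGraph U := xm0t_M A G y y'
  have hM : ∀ a b, M.Adj a b → ∃ l, G l ∧ s(y l, y' l) = s(a, b) ∧ a ∈ K l ∧ a ∈ Br l := by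
    rintro a b ⟨-, l, h1, h2⟩
    refine ⟨l, h1, h2, ?_⟩
    rcases Sym2.eq_iff.1 h2 with ⟨rfl, -⟩ | ⟨-, rfl⟩
    · exact ⟨(hd l h1).sub (hd l h1).yO, (hd l h1).yB⟩
    · exact ⟨(hd l h1).sub (hd l h1).yO', (hd l h1).yB'⟩
  have heq : ∀ l l' x, x ∈ K l → x ∈ K l' → l = l' := fun l l' x h1 h2 => by
    by_contra e
    exact disjoint_left.1 (hK.dis l l' e) h1 h2
  have hMat : Mat M := by
    intro a b b' h1 h2
    obtain ⟨l, -, l2, l3, -⟩ := hM a b h1
    obtain ⟨l', -, l2', l3', -⟩ := hM a b' h2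
    obtain rfl := heq l l' a l3 l3'
    exact Sym2.congr_right.1 (l2.symm.trans l2')
  let Y : Set U := {x | ∀ l, x ∈ K l → x ∉ Br l}
  have hY : ∀ l x, x ∈ K l → x ∉ Br l → x ∈ Y := fun l x h1 h2 l' h3 => heq l l' x h1 h3 ▸ h2
  obtain ⟨b1, b2⟩ := hBridge W U H P hP A M hA
  refine ⟨M, L, hL, fun l => K l ∩ Y, ⟨fun _ _ h => h.1, hMat, fun a b a' b' h1 h2 h3 => ?_⟩,
    ⟨fun S hS => ?_, ?_, fun l l' e => (hK.dis l l' e).mono inter_subset_left inter_subset_left,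
      fun l => ?_⟩, fun l => ?_, fun l => ?_, fun _ => b2 hMat fun a b h => ?_⟩
  · obtain ⟨l, -, l2, l3, l4⟩ := hM a b h1
    obtain ⟨l', -, l2', l3', l4'⟩ := hM a' b' h2
    by_cases e : l = l'
    · subst e
      rcases Sym2.eq_iff.1 (l2.symm.trans l2') with ⟨e, -⟩ | ⟨-, e⟩
      · exact absurd e h3.ne
      · exact e.symm
    · have g : ∀ l, a ∈ Br l ∨ a' ∈ Br l → c l ∉ Br l := fun l h => by
        by_cases hG : G l
        · exact (hd l hG).root
        · rw [h0 l hG]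
          exact notMem_empty _
      rcases hc l l' e with h | h
      · have e' : a = c l := h ⟨l3, .inr ⟨a', l3', fun h4 => e (heq l l' a' h4 l3'), h3⟩⟩
        exact absurd (e' ▸ l4) (g l (.inl l4))
      · have e' : a' = c l' := h ⟨l3', .inr ⟨a, l3, fun h4 => e (heq l l' a l3 h4), h3.symm⟩⟩
        exact absurd (e' ▸ l4') (g l' (.inr l4'))
  · rw [xm0t_bo hm] at hS
    have h1 : TH P H A S := xm0t_mono sdiff_le hS
    obtain ⟨l, hl⟩ := hK.cov S h1
    have d := hd l ⟨S, h1, hl⟩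
    have h2 : S ≠ O l := by
      rintro rfl
      exact b1 _ _ _ ⟨d.iso.1, l, ⟨_, h1, hl⟩, rfl⟩ d.yO d.iso hS.1
    exact ⟨l, fun x hx => ⟨hl hx, hY l x (hl hx) (disjoint_left.1 (d.oth S h1 hl h2) hx)⟩⟩
  · have := r1 hK.rp (A \ M) Y sdiff_le
    rwa [empty_inter] at this
  · have hr := hK.rule l
    cases m
    · trivial
    · trivial
    · exact absurd rfl hm
    · intro a ha b hb w h1 h2 h3
      have hw' : w ∈ K l := hr a ha.1 b hb.1 w h1.1 h2.1 h3.1
      refine ⟨hw', hY l w hw' fun hB => ?_⟩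
      have hG : G l := by
        by_contra hG
        rw [h0 l hG] at hB
        exact hB
      obtain ⟨⟨k1, k2, -⟩, k3⟩ := hK3 W U H P hP
      have k4 : P.vT = 3 := le_antisymm (k2.trans hC.1.le) k1
      have k5 : TS P H A {a, b, w} :=
        ((k3 A _).2.1 k4).2 ⟨a, b, w, h1.1, h2.1, h3.1, rfl⟩
      have k6 : ∀ x ∈ K l ∩ Y, x ∈ ({a, b, w} : Set U) → A.Adj x w → x ∈ τ l := fun x x1 x2 x3 =>
        ((hd l hG).cut.2.2.2 w hB x ⟨x3.symm, _, subset_univ _, k5, by simp, x2⟩).resolve_left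
          (x1.2 l x1.1)
      exact h1.ne ((hd l hG).one (k6 a ha (by simp) h2.1) (k6 b hb (by simp) h3.1))
  · rw [xm0t_bo hm]
    by_cases hG : G l
    · have d := hd l hG
      have h1 : BW (TH P H (A \ M)) (K l ∩ Y) ⊆ BW (TH P H A) (K l) \ {y l} := by
        rintro x ⟨S, s1, s2, s3⟩
        refine ⟨⟨S, xm0t_mono sdiff_le s1, s2.trans inter_subset_left, s3⟩, ?_⟩
        rintro rfl
        exact (s2 s3).2 l (s2 s3).1 d.yB
      have h2 := ncard_le_ncard h1 (toFinite _)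
      have h3 := ncard_sdiff_singleton_add_one
        (show y l ∈ BW (TH P H A) (K l) from ⟨_, d.th, d.sub, d.yO⟩) (toFinite _)
      have h4 := hw l
      omega
    · have h1 : BW (TH P H (A \ M)) (K l ∩ Y) = ∅ := by
        refine eq_empty_of_forall_notMem ?_
        rintro x ⟨S, s1, s2, -⟩
        exact hG ⟨S, xm0t_mono sdiff_le s1, s2.trans inter_subset_left⟩
      rw [h1, ncard_empty]
      exact Nat.zero_le _
  · refine disjoint_left.2 ?_
    rintro a ha ⟨b, hb⟩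
    obtain ⟨l', -, -, l3, l4⟩ := hM a b hb
    exact ha.2 l' l3 l4
  · obtain ⟨l, l1, l2, -⟩ := hM a b h
    exact ⟨O l, y l, y' l, (hAtomB W U H P A).2.2.2 hP hA _ (hd l l1).th, l2, (hd l l1).iso⟩

end Pool.Agent.MP_1c0fc2_co.RE

end

section

/-! A matching and an independent set that meet all atoms. -/

open Function Set Relation

namespace Pool.Agent.MP_1c0fc2_co.RE

theorem xma_ind (hBr : BrStmt) {V : Type} [Finite V] {Y : SimpleGraph V} {Al Ob : Set V → Prop}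
    (hA : Atoms Y Al Ob) (Q : Set (Set V) → Prop) (h0 : Q ∅)
    (hs : ∀ (𝒪 : Set (Set V)) (O τ Br : Set V), Ob O → Al τ → Cut Y O τ Br →
      (∀ O' ∈ 𝒪, Disjoint O' Br) → Q 𝒪 → Q (insert O 𝒪)) :
    Q {O | Ob O} := by
  suffices h : ∀ (n : ℕ) (𝒪 : Set (Set V)), 𝒪.ncard = n → (∀ O ∈ 𝒪, Ob O) → Q 𝒪 from
    h _ _ rfl fun _ h => h
  intro n
  induction n with
  | zero =>
    intro 𝒪 hn _
    rw [(ncard_eq_zero (toFinite _)).1 hn]
    exact h0
  | succ n ih =>
    intro 𝒪 hn hO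
    have hne : 𝒪.Nonempty := nonempty_of_ncard_ne_zero (by omega)
    obtain ⟨O0, hO0⟩ := hne
    have hemp : Al ∅ :=
      hA.sub _ _ (hA.att O0 ∅ (hO O0 hO0) (empty_disjoint _) connOn_empty) (empty_subset _)
    obtain ⟨c, -⟩ := (hA.nsep O0 ∅ (hO O0 hO0) hemp).2
    obtain ⟨O, hO𝒪, τ, Br, hτ, hcut, -, hdis⟩ := hBr V Y Al Ob hA 𝒪 ⟨O0, hO0⟩ hO c
    have h1 : Q (𝒪 \ {O}) := by
      refine ih _ ?_ fun O' h => hO O' h.1
      rw [ncard_sdiff_singleton_of_mem hO𝒪, hn]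
      rfl
    have h2 := hs _ O τ Br (hO O hO𝒪) hτ hcut (fun O' h => hdis O' h.1 h.2) h1
    rwa [insert_sdiff_singleton, insert_eq_of_mem hO𝒪] at h2

theorem ma_stmt (hBr : BrStmt) : MAStmt := by
  intro V _ Y Ob hA h4
  have key := xma_ind hBr hA (fun 𝒪 => ∃ M, M ≤ Y ∧ Mat M ∧
    (∀ a b, M.Adj a b → ∃ O ∈ 𝒪, a ∈ O) ∧ ∀ O ∈ 𝒪, ∃ a ∈ O, ∃ b ∈ O, M.Adj a b)
    ⟨⊥, bot_le, fun _ _ _ h => h.elim, fun _ _ h => h.elim, fun _ h => h.elim⟩ ?_
  · obtain ⟨M, h1, h2, -, h3⟩ := key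
    exact ⟨M, h1, h2, h3⟩
  rintro 𝒪 O τ Br hO hτ ⟨-, hc2, -, -⟩ hdis ⟨M, hle, hmat, hsup, hall⟩
  have hcard : 1 < (O \ τ).ncard := by
    have h1 := h4 O hO
    have h2 := hτ.ncard_le
    have h3 := ncard_le_ncard_sdiff_add_ncard O τ (toFinite _)
    omega
  obtain ⟨a, b0, ha, hb0, hab0⟩ := (one_lt_ncard_iff (toFinite _)).1 hcard
  obtain ⟨b, hb, hba, hab⟩ := (hA.nsep O τ hO hτ).1.step ha hb0 (Ne.symm hab0)
  have hout : ∀ x ∈ O \ τ, ∀ y, ¬ M.Adj x y := by
    intro x hx y h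
    obtain ⟨O', hO', hx'⟩ := hsup x y h
    exact disjoint_left.1 (hdis O' hO') hx' (hc2 hx)
  have hadj : ∀ x y, (M ⊔ SimpleGraph.edge a b).Adj x y ↔
      M.Adj x y ∨ (x = a ∧ y = b) ∨ (x = b ∧ y = a) := by
    intro x y
    rw [SimpleGraph.sup_adj, SimpleGraph.edge_adj]
    constructor
    · rintro (h | h)
      · exact .inl h
      · exact .inr h.1
    · rintro (h | h)
      · exact .inl h
      · refine .inr ⟨h, ?_⟩
        rcases h with ⟨rfl, rfl⟩ | ⟨rfl, rfl⟩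
        · exact hba.symm
        · exact hba
  refine ⟨M ⊔ SimpleGraph.edge a b, ?_, ?_, ?_, ?_⟩
  · intro x y h
    rcases (hadj x y).1 h with h | ⟨rfl, rfl⟩ | ⟨rfl, rfl⟩
    · exact hle h
    · exact hab
    · exact hab.symm
  · intro x y z h h'
    rcases (hadj x y).1 h with h | ⟨h1, h2⟩ | ⟨h1, h2⟩ <;>
      rcases (hadj x z).1 h' with h' | ⟨h3, h4⟩ | ⟨h3, h4⟩
    · exact hmat x y z h h'
    · exact (hout x (h3 ▸ ha) y h).elim
    · exact (hout x (h3 ▸ hb) y h).elim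
    · exact (hout x (h1 ▸ ha) z h').elim
    · rw [h2, h4]
    · exact (hba (h3.symm.trans h1)).elim
    · exact (hout x (h1 ▸ hb) z h').elim
    · exact (hba (h1.symm.trans h3)).elim
    · rw [h2, h4]
  · intro x y h
    rcases (hadj x y).1 h with h | ⟨rfl, rfl⟩ | ⟨rfl, rfl⟩
    · obtain ⟨O', hO', hx⟩ := hsup x y h
      exact ⟨O', mem_insert_of_mem _ hO', hx⟩
    · exact ⟨O, mem_insert _ _, ha.1⟩
    · exact ⟨O, mem_insert _ _, hb.1⟩
  · rintro O' (rfl | hO')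
    · exact ⟨a, ha.1, b, hb.1, (hadj a b).2 (.inr (.inl ⟨rfl, rfl⟩))⟩
    · obtain ⟨x, hx, y, hy, h⟩ := hall O' hO'
      exact ⟨x, hx, y, hy, (hadj x y).2 (.inl h)⟩

theorem ia_stmt (hBr : BrStmt) : IAStmt := by
  intro V _ Y Ob hA
  have key := xma_ind hBr hA (fun 𝒪 => ∃ I, Indp Y I ∧
    (∀ a ∈ I, ∃ O ∈ 𝒪, a ∈ O) ∧ ∀ O ∈ 𝒪, ∃ v, O ∩ I = {v})
    ⟨∅, fun _ h => h.elim, fun _ h => h.elim, fun _ h => h.elim⟩ ?_
  · obtain ⟨I, h1, -, h3⟩ := key
    exact ⟨I, h1, h3⟩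
  rintro 𝒪 O τ Br hO hτ ⟨hc1, hc2, -, hc4⟩ hdis ⟨I, hind, hsup, hall⟩
  have hout : ∀ x ∈ I, x ∉ Br := by
    intro x hx h
    obtain ⟨O', hO', hx'⟩ := hsup x hx
    exact disjoint_left.1 (hdis O' hO') hx' h
  have hτI : ∀ x ∈ O ∩ I, x ∈ τ := by
    intro x hx
    by_contra h
    exact hout x hx.2 (hc2 ⟨hx.1, h⟩)
  by_cases hne : (O ∩ I).Nonempty
  · obtain ⟨v, hv⟩ := hne
    refine ⟨I, hind, fun a ha => ?_, ?_⟩
    · obtain ⟨O', hO', hx⟩ := hsup a ha
      exact ⟨O', mem_insert_of_mem _ hO', hx⟩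
    · rintro O' (rfl | hO')
      · refine ⟨v, eq_singleton_iff_unique_mem.2 ⟨hv, fun w hw => ?_⟩⟩
        by_contra h
        exact hind w hw.2 v hv.2 (hτ.adj (hτI w hw) (hτI v hv) h)
      · exact hall O' hO'
  · obtain ⟨v, hv⟩ := (hA.nsep O τ hO hτ).2
    have hnb : ∀ x ∈ I, ¬ Y.Adj v x := by
      intro x hx h
      rcases hc4 v (hc2 hv) x h with h1 | h1
      · exact hout x hx h1
      · exact hne ⟨x, hc1 h1, hx⟩
    refine ⟨insert v I, ?_, ?_, ?_⟩
    · rintro x (rfl | hx) y (rfl | hy)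
      · exact Y.irrefl
      · exact hnb y hy
      · exact fun h => hnb x hx h.symm
      · exact hind x hx y hy
    · rintro a (rfl | ha)
      · exact ⟨O, mem_insert _ _, hv.1⟩
      · obtain ⟨O', hO', hx⟩ := hsup a ha
        exact ⟨O', mem_insert_of_mem _ hO', hx⟩
    · rintro O' (rfl | hO')
      · refine ⟨v, eq_singleton_iff_unique_mem.2 ⟨⟨hv.1, mem_insert _ _⟩, ?_⟩⟩
        rintro w ⟨hw, rfl | hw'⟩
        · rfl
        · exact (hne ⟨w, hw, hw'⟩).elim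
      · obtain ⟨w, hw⟩ := hall O' hO'
        refine ⟨w, ?_⟩
        rw [inter_insert_of_notMem fun h => disjoint_left.1 (hdis O' hO') h (hc2 hv), hw]

end Pool.Agent.MP_1c0fc2_co.RE

end

section

/-! The Ramsey theorem for all types at once. -/

open Function Set Relation

namespace Pool.Agent.MP_1c0fc2_co.RE

section
variable {I T : Type} {prof : T → I → ℕ} {F H H2 : MH prof}

/-- the identity embedding -/
def xmt_id (F : MH prof) : MEmb F F where
  v := id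
  e := id
  v_inj := injective_id
  e_inj := injective_id
  kd_v _ := rfl
  ty_e _ := rfl
  mem_iff y _ := ⟨fun h => ⟨y, h, rfl⟩, fun ⟨_, h, e⟩ => e ▸ h⟩

/-- composition of embeddings -/
def xmt_comp (φ : MEmb F H) (ψ : MEmb H H2) : MEmb F H2 where
  v := ψ.v ∘ φ.v
  e := ψ.e ∘ φ.e
  v_inj := ψ.v_inj.comp φ.v_inj
  e_inj := ψ.e_inj.comp φ.e_inj
  kd_v x := (ψ.kd_v _).trans (φ.kd_v x)
  ty_e d := (ψ.ty_e _).trans (φ.ty_e d)
  mem_iff y d := by
    constructor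
    · intro h
      obtain ⟨z, h1, rfl⟩ := (ψ.mem_iff y _).1 h
      obtain ⟨x, h2, rfl⟩ := (φ.mem_iff z d).1 h1
      exact ⟨x, h2, rfl⟩
    · rintro ⟨x, h, rfl⟩
      exact (ψ.mem_iff _ _).2 ⟨_, (φ.mem_iff _ _).2 ⟨x, h, rfl⟩, rfl⟩

/-- the map on nodes -/
def xmt_n (ψ : MEmb H H2) : H.V ⊕ H.E → H2.V ⊕ H2.E := Sum.map ψ.v ψ.e

theorem xmt_inj (ψ : MEmb H H2) : Injective (xmt_n ψ) := ψ.v_inj.sumMap ψ.e_inj

theorem xmt_bag (φ : MEmb F H) (ψ : MEmb H H2) : (xmt_comp φ ψ).Bag = xmt_n ψ '' φ.Bag := by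
  rw [MEmb.Bag, MEmb.Bag, ← range_comp, xmt_n, Sum.map_comp_map]
  rfl

theorem xmt_wb (ψ : MEmb H H2) (d : H.E) : xmt_n ψ '' H.WB d = H2.WB (ψ.e d) := by
  ext n
  constructor
  · rintro ⟨_, rfl | ⟨v, h, rfl⟩, rfl⟩
    · exact .inl rfl
    · exact .inr ⟨ψ.v v, (ψ.mem_iff _ _).2 ⟨v, h, rfl⟩, rfl⟩
  · rintro (rfl | ⟨v, h, rfl⟩)
    · exact ⟨.inr d, .inl rfl, rfl⟩
    · obtain ⟨x, h1, rfl⟩ := (ψ.mem_iff _ _).1 h
      exact ⟨.inl x, .inr ⟨x, h1, rfl⟩, rfl⟩

theorem xmt_lk (ψ : MEmb H H2) (ℓ : Set (H.V ⊕ H.E)) (h : H.Lk ℓ) : H2.Lk (xmt_n ψ '' ℓ) := by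
  rcases h with ⟨v, rfl⟩ | ⟨d, rfl⟩
  · exact .inl ⟨ψ.v v, image_singleton⟩
  · exact .inr ⟨_, xmt_wb ψ d⟩

theorem xmt_inl {ψ : MEmb H H2} {v : H2.V} (h : Sum.inl v ∈ ψ.Bag) : ∃ x, ψ.v x = v := by
  obtain ⟨x | x, e⟩ := h
  · exact ⟨x, Sum.inl.inj e⟩
  · cases e

theorem xmt_inr {ψ : MEmb H H2} {d : H2.E} (h : Sum.inr d ∈ ψ.Bag) : ∃ x, ψ.e x = d := by
  obtain ⟨x | x, e⟩ := h
  · cases e
  · exact ⟨x, Sum.inr.inj e⟩

theorem xmt_wb_sub {ψ : MEmb H H2} {d : H2.E} (h : Sum.inr d ∈ ψ.Bag) : H2.WB d ⊆ ψ.Bag := by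
  obtain ⟨x, rfl⟩ := xmt_inr h
  rw [← xmt_wb]
  exact image_subset_range _ _

theorem xmt_two {ψ : MEmb H H2}
    (hs : ∀ x y d, x ≠ y → H2.mem (ψ.v x) d → H2.mem (ψ.v y) d → ∃ d0, ψ.e d0 = d)
    {x y : H2.V ⊕ H2.E} {d : H2.E} (hxy : x ≠ y) (hx : x ∈ ψ.Bag) (hy : y ∈ ψ.Bag)
    (hx' : x ∈ H2.WB d) (hy' : y ∈ H2.WB d) : Sum.inr d ∈ ψ.Bag := by
  rcases hx' with rfl | ⟨u, hu, rfl⟩
  · exact hx
  rcases hy' with rfl | ⟨v, hv, rfl⟩
  · exact hy
  obtain ⟨a, rfl⟩ := xmt_inl hx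
  obtain ⟨b, rfl⟩ := xmt_inl hy
  obtain ⟨d0, rfl⟩ := hs a b d (fun e => hxy (by rw [e])) hu hv
  exact ⟨.inr d0, rfl⟩

theorem xmt_pull {ψ : MEmb H H2} {ℓ : Set (H2.V ⊕ H2.E)} (h : H2.Lk ℓ) (hs : ℓ ⊆ ψ.Bag) :
    ∃ ℓ0, H.Lk ℓ0 ∧ xmt_n ψ '' ℓ0 = ℓ := by
  rcases h with ⟨v, rfl⟩ | ⟨d, rfl⟩
  · obtain ⟨x, rfl⟩ := xmt_inl (hs rfl)
    exact ⟨{.inl x}, .inl ⟨x, rfl⟩, image_singleton⟩
  · obtain ⟨x, rfl⟩ := xmt_inr (hs (.inl rfl))
    exact ⟨H.WB x, .inr ⟨x, rfl⟩, xmt_wb ψ x⟩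

theorem xmt_cap {ψ : MEmb H H2}
    (hs : ∀ x y d, x ≠ y → H2.mem (ψ.v x) d → H2.mem (ψ.v y) d → ∃ d0, ψ.e d0 = d)
    (ℓ : Set (H2.V ⊕ H2.E)) (h : H2.Lk ℓ) : ℓ ∩ ψ.Bag = ∅ ∨ H2.Lk (ℓ ∩ ψ.Bag) := by
  rcases h with ⟨v, rfl⟩ | ⟨d, rfl⟩
  · by_cases hv : Sum.inl v ∈ ψ.Bag
    · exact .inr (.inl ⟨v, inter_eq_left.2 (singleton_subset_iff.2 hv)⟩)
    · exact .inl (singleton_inter_eq_empty.2 hv)
  · by_cases hd : Sum.inr d ∈ ψ.Bag
    · exact .inr (.inr ⟨d, inter_eq_left.2 (xmt_wb_sub hd)⟩)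
    · have h1 : (H2.WB d ∩ ψ.Bag).Subsingleton := fun x hx y hy => by
        by_contra e
        exact hd (xmt_two hs e hx.2 hy.2 hx.1 hy.1)
      rcases h1.eq_empty_or_singleton with e | ⟨x, e⟩
      · exact .inl e
      · have hx : x ∈ H2.WB d ∩ ψ.Bag := e ▸ rfl
        rcases hx.1 with rfl | ⟨v, -, rfl⟩
        · exact absurd hx.2 hd
        · exact .inr (.inl ⟨v, e⟩)

theorem xmt_good_id (hF : F.Lin) (g : ℕ) : Good (fun _ : Unit => xmt_id F) g := by
  have h : ∀ n, n ∈ (xmt_id F).Bag := fun n => ⟨n, by cases n <;> rfl⟩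
  refine ⟨hF, fun _ _ _ d _ _ _ => ⟨d, rfl⟩, fun n => ⟨(), h n⟩, fun _ _ e => absurd rfl e,
    fun _ C _ hd _ => .inl (eq_empty_of_forall_notMem ?_)⟩
  rintro w ⟨-, c, hc, -⟩
  exact disjoint_left.1 hd hc (h c)

theorem xmt_good (hLink : LinkStmt) (hGlue : GlueStmt) (hLocal : LocalStmt) (hMap : MapStmt)
    {Q Q2 : Type} {φ : Q → MEmb F H} {ψ : Q2 → MEmb H H2} {g : ℕ} (hφ : Good φ g)
    (hψ : Good ψ g) : Good (fun z : Q2 × Q => xmt_comp (φ z.2) (ψ z.1)) g := by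
  have hstr : ∀ (z : Q2 × Q) x y d, x ≠ y → H2.mem ((xmt_comp (φ z.2) (ψ z.1)).v x) d →
      H2.mem ((xmt_comp (φ z.2) (ψ z.1)).v y) d → ∃ d0, (xmt_comp (φ z.2) (ψ z.1)).e d0 = d := by
    rintro ⟨a, p⟩ x y d hxy hx hy
    obtain ⟨d1, rfl⟩ := hψ.str a _ _ d ((φ p).v_inj.ne hxy) hx hy
    obtain ⟨x', h1, h2⟩ := ((ψ a).mem_iff _ _).1 hx
    obtain ⟨y', h3, h4⟩ := ((ψ a).mem_iff _ _).1 hy
    obtain rfl := (ψ a).v_inj h2
    obtain rfl := (ψ a).v_inj h4
    obtain ⟨d0, rfl⟩ := hφ.str p x y d1 hxy h1 h3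
    exact ⟨d0, rfl⟩
  have hsub : ∀ a p, (xmt_comp (φ p) (ψ a)).Bag ⊆ (ψ a).Bag := fun a p => by
    rw [xmt_bag]
    exact image_subset_range _ _
  refine ⟨hψ.lin, hstr, fun n => ?_, ?_, ?_⟩
  · obtain ⟨a, m, rfl⟩ := hψ.cov n
    obtain ⟨p, hp⟩ := hφ.cov m
    exact ⟨(a, p), by rw [xmt_bag]; exact mem_image_of_mem _ hp⟩
  · rintro ⟨a, p⟩ ⟨b, q⟩ hne x y hxy h1 h2 h3 h4
    by_cases hab : a = b
    · subst hab
      rw [xmt_bag] at h1 h2 h3 h4
      obtain ⟨x, h1, rfl⟩ := h1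
      obtain ⟨y, h2, rfl⟩ := h2
      obtain ⟨d, d1, d2⟩ := hφ.b2 p q (fun e => hne (by rw [e])) x y (fun e => hxy (by rw [e]))
        h1 h2 (((xmt_inj _).mem_set_image).1 h3) (((xmt_inj _).mem_set_image).1 h4)
      refine ⟨(ψ a).e d, ?_, ?_⟩ <;> rw [← xmt_wb]
      exacts [mem_image_of_mem _ d1, mem_image_of_mem _ d2]
    · exact hψ.b2 a b hab x y hxy (hsub _ _ h1) (hsub _ _ h2) (hsub _ _ h3) (hsub _ _ h4)
  · rintro ⟨a, p⟩
    obtain ⟨loc, hloc⟩ : ∃ loc : Q2 → Set (Set (H2.V ⊕ H2.E)),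
        loc = fun a => image (xmt_n (ψ a)) '' range fun q => (φ q).Bag := ⟨_, rfl⟩
    have hN : (range fun z : Q2 × Q => (xmt_comp (φ z.2) (ψ z.1)).Bag) = ⋃ b, loc b := by
      ext ν
      simp only [hloc, mem_range, mem_iUnion, mem_image, Prod.exists, xmt_bag,
        exists_exists_eq_and]
    have hl : ∀ b, ∀ ν ∈ loc b, ν ⊆ (ψ b).Bag := by
      rw [hloc]
      rintro b _ ⟨μ, -, rfl⟩
      exact image_subset_range _ _
    have key : ∀ a b x y, x ≠ y → x ∈ (ψ a).Bag → y ∈ (ψ a).Bag → Tog (loc b) x y →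
        Tog (loc a) x y := by
      rintro a b x y hxy hx hy ⟨ν, n1, n2, n3⟩
      by_cases hab : a = b
      · exact hab ▸ ⟨ν, n1, n2, n3⟩
      obtain ⟨d, d1, d2⟩ := hψ.b2 a b hab x y hxy hx hy (hl b ν n1 n2) (hl b ν n1 n3)
      obtain ⟨d0, rfl⟩ := xmt_inr (xmt_two (hψ.str a) hxy hx hy d1 d2)
      obtain ⟨q, hq⟩ := hφ.cov (.inr d0)
      rw [← xmt_wb] at d1 d2
      rw [hloc]
      exact ⟨_, ⟨_, ⟨q, rfl⟩, rfl⟩, image_mono (xmt_wb_sub hq) d1, image_mono (xmt_wb_sub hq) d2⟩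
    have hm : ∀ b Y, Thin (range fun q => (φ q).Bag) H.Lk g Y →
        Thin (loc b) H2.Lk g (xmt_n (ψ b) '' Y) := fun b Y hY => by
      rw [hloc]
      exact (hMap _ _ (xmt_n (ψ b)) _ g (xmt_inj _)).1 _ _ Y (xmt_lk _) hY
    have hX := hGlue _ _ Q2 (fun b => (ψ b).Bag) H2.Lk some (fun b => (ψ b).Bag) loc H2.Lk g
      hψ.thin (hLink I T prof H H2 Q2 ψ g hψ).1
      (fun x n b e => by rw [Option.some.inj e]) (fun _ _ _ e => by cases e) hl key
      (fun b ℓ l1 l2 => by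
        have e : {x | ∃ n ∈ ℓ, some x = some n} = ℓ := by
          ext x
          simp
        rw [e]
        obtain ⟨ℓ0, l3, rfl⟩ := xmt_pull l1 l2
        exact hm b ℓ0 ((hLink I T prof F H Q φ g hφ).2.1 ℓ0 l3)) a
    rw [hN]
    refine hLocal _ _ (loc a) H2.Lk g _ _ hX (subset_iUnion loc a) ?_ (hsub a p) ?_
      (xmt_cap (hstr (a, p)))
    · rintro x y hxy hx hy ⟨ν, n1, n2⟩
      obtain ⟨b, hb⟩ := mem_iUnion.1 n1
      exact key a b x y hxy hx hy ⟨ν, hb, n2⟩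
    · rw [xmt_bag]
      exact hm a _ (hφ.thin p)

end

theorem mt_stmt (hMT1 : MT1Stmt) (hLink : LinkStmt) (hGlue : GlueStmt) (hLocal : LocalStmt) (hMap : MapStmt) : MTStmt := by
  intro I T _ _ prof F hF κ _ _ g
  have key : ∀ l : List T, ∃ (H : MH prof) (Q : Type) (_ : Finite Q) (φ : Q → MEmb F H),
      Good φ g ∧ MRam φ κ {t | t ∈ l} := by
    intro l
    induction l with
    | nil =>
      exact ⟨F, Unit, inferInstance, _, xmt_good_id hF g,
        fun _ => ⟨(), fun _ _ h => absurd h List.not_mem_nil⟩⟩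
    | cons t l ih =>
      obtain ⟨H, Q, _, φ, h1, h2⟩ := ih
      obtain ⟨H2, Q2, _, ψ, h3, h4⟩ := hMT1 I T prof H h1.lin t κ g
      refine ⟨H2, Q2 × Q, inferInstance, _, xmt_good hLink hGlue hLocal hMap h1 h3, fun χ => ?_⟩
      obtain ⟨a, ha⟩ := h4 χ
      obtain ⟨p, hp⟩ := h2 fun d => χ ((ψ a).e d)
      refine ⟨(a, p), fun d d' hd e => ?_⟩
      rcases List.mem_cons.1 hd with hd | hd
      · exact ha _ _ (((φ p).ty_e d).trans hd)
          (((φ p).ty_e d).trans (e.trans ((φ p).ty_e d').symm))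
      · exact hp d d' hd e
  have := Fintype.ofFinite T
  obtain ⟨H, Q, _, φ, h1, h2⟩ := key Finset.univ.toList
  refine ⟨H, Q, inferInstance, φ, h1, fun χ => ?_⟩
  obtain ⟨p, hp⟩ := h2 χ
  exact ⟨p, fun d d' _ => hp d d' (Finset.mem_toList.2 (Finset.mem_univ _))⟩

end Pool.Agent.MP_1c0fc2_co.RE

end

section

open Function Set Relation

namespace Pool.Agent.MP_1c0fc2_co.GR

section
variable {A B : Geo} {P : Type} {φ : P → GHom A B} {g : ℕ}

theorem xmt1a_chain {α : Type} (R : α → α → Prop) (C : Set α)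
    (hconn : ∀ a ∈ C, ∀ b ∈ C, ReflTransGen (fun u v => u ∈ C ∧ v ∈ C ∧ R u v) a b)
    {y a b : α} (ha : a ∈ C) (hb : b ∈ C) (hyb : R b y) :
    ∃ c : List α, (a :: c).Nodup ∧ (∀ u ∈ a :: c, u ∈ C) ∧
      ∀ p ∈ path ((a :: c) ++ [y]), R p.1 p.2 := by
  rcases exists_nodup_chain _ (hconn a ha b hb) with rfl | ⟨c, hn, hc⟩
  · refine ⟨[], by simp, by simpa using ha, ?_⟩
    intro p hp
    have : p = (a, y) := by simpa [path] using hp
    subst this
    exact hyb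
  · refine ⟨c ++ [b], hn, ?_, ?_⟩
    · intro u hu
      have hu' : u ∈ (a :: c) ++ [b] := by simpa using hu
      rcases List.mem_append.1 hu' with h1 | h1
      · obtain ⟨v, hv⟩ := xatom_mem b (a :: c) u h1
        exact (hc (u, v) (by simpa using hv)).1
      · have : u = b := by simpa using h1
        subst this
        exact hb
    · intro p hp
      have e1 : ((a :: (c ++ [b])) ++ [y]) = (a :: c) ++ b :: [y] := by simp
      have e2 : (a :: c) ++ [b] = a :: (c ++ [b]) := by simp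
      rw [e1, path_append, e2] at hp
      rcases List.mem_append.1 hp with h1 | h1
      · exact (hc p h1).2.2
      · have : p = (b, y) := by simpa [path] using h1
        subst this
        exact hyb

theorem atom_twoN (h : AC φ (2 * g + 4) (2 * g + 4)) (C : Set B.N) (hf : C.Finite)
    (hC : C.ncard ≤ g)
    (hconn : ∀ a ∈ C, ∀ b ∈ C, ReflTransGen (fun u v => u ∈ C ∧ v ∈ C ∧ Adj φ u v) a b)
    {x y : B.N} (hxy : x ≠ y) (hadj : Adj φ x y) (hx : x ∉ C) (hy : y ∉ C)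
    (ha : ∃ a ∈ C, Adj φ x a) (hb : ∃ b ∈ C, Adj φ y b) : ∃ a ∈ C, InBag φ [x, y, a] := by
  classical
  obtain ⟨a, haC, hxa⟩ := ha
  obtain ⟨b, hbC, hyb⟩ := hb
  obtain ⟨c, hn, hm, hp⟩ := xmt1a_chain (Adj φ) C hconn haC hbC hyb.symm
  have hlen : (a :: c).length ≤ g := by
    rw [← List.toFinset_card_of_nodup hn, ← Set.ncard_coe_finset]
    exact le_trans (Set.ncard_le_ncard (fun u hu => hm u (by simpa using hu)) hf) hC
  have hlen' : (y :: x :: (a :: c)).length ≤ g + 2 := by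
    simp only [List.length_cons] at hlen ⊢
    omega
  have hcyc : Cyc (Adj φ) (2 * g + 4) (2 * g + 4) (y :: x :: (a :: c)) := by
    refine ⟨?_, ?_, ?_, ?_, ?_⟩
    · refine List.nodup_cons.2 ⟨?_, List.nodup_cons.2 ⟨fun hx' => hx (hm _ hx'), hn⟩⟩
      intro hy'
      rcases List.mem_cons.1 hy' with e | hy'
      · exact hxy e.symm
      · exact hy (hm _ hy')
    · simp
    · omega
    · have := wsum_le (y :: x :: (a :: c))
      omega
    · intro p hp'
      rw [steps_two] at hp'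
      rcases List.mem_cons.1 hp' with rfl | hp'
      · exact hadj.symm
      · have e : path (x :: ((a :: c) ++ [y])) = (x, a) :: path ((a :: c) ++ [y]) := by
          simp [path]
        rw [e] at hp'
        rcases List.mem_cons.1 hp' with rfl | hp'
        · exact hxa
        · exact hp p hp'
  obtain ⟨z, hz, hzy, hzx, hin⟩ := tri_of_step h hcyc (x := y) (y := x)
    (by rw [steps_two]; exact List.mem_cons_self)
  rcases List.mem_cons.1 hz with e | hz
  · exact absurd e hzy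
  rcases List.mem_cons.1 hz with e | hz
  · exact absurd e hzx
  refine ⟨z, hm z hz, hin.sub ?_⟩
  intro t ht
  simp only [List.mem_cons, List.not_mem_nil, or_false] at ht ⊢
  tauto

end

variable {K I : Type} {cl : K → I}

theorem gr_cl [Finite K] [Finite I] [LinearOrder K] (F : HG cl) (hO : F.Ord)
    (hL : F.Lin) (κ : Type) [Finite κ] [Nonempty κ] (w : ℕ) :
    ∃ (H : HG cl) (P : Type) (_ : Finite P) (φ : P → Emb F H),
      Ram (fun p => (φ p).e) κ ∧ H.Lin ∧ GoodL φ ⊥ ⊥ Set.univ w w := by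
  let s : ℕ → Setoid F.E := fun μ => Nat.casesOn μ ⊥ fun _ => ⊤
  obtain ⟨H, t, P, _, φ, h1, h2, h3⟩ := main_step (max w 2) (le_max_right _ _) 0
    (fun _ => max w 2) (fun _ => le_rfl) (Or.inl rfl) K I _ F s (fun _ => Set.univ)
    ⟨⟨fun _ _ h => h, fun _ _ _ _ => trivial, fun μ h => by
      obtain ⟨ν, rfl⟩ := Nat.exists_eq_add_of_le' h
      exact fun _ _ => trivial, fun _ _ _ _ _ _ _ _ => trivial⟩, hL,
      fun μ h h' => absurd h' (by omega)⟩ hO κ
  have e1 : t 0 = ⊥ := Setoid.ext fun x y => ⟨h2.tr.zero x y, fun h => h ▸ (t 0).refl x⟩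
  have e2 : Hi (fun _ => (Set.univ : Set I)) (0 + 1) 0 = Set.univ :=
    Set.eq_univ_of_forall fun _ => ⟨0, le_rfl, Nat.one_pos, trivial⟩
  rw [e1, e2] at h3
  obtain ⟨hc, h4, h5⟩ := h3
  have hw : w ≤ 2 * max w 2 := by omega
  exact ⟨H, P, inferInstance, φ, h1, h2.lin, hc, h4, h5.mono hw hw⟩

/-- the nodes of a copy -/
def Emb.nb {F H : HG cl} (φ : Emb F H) : Set (H.V ⊕ H.E) := range (Sum.map φ.v φ.e)

/-- an edge with its points -/
def HG.nw (H : HG cl) (d : H.E) : Set (H.V ⊕ H.E) :=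
  {n | n = .inr d ∨ ∃ v, H.On v d ∧ n = .inl v}

theorem Emb.nw_sub {F H : HG cl} (φ : Emb F H) (f : F.E) : H.nw (φ.e f) ⊆ φ.nb := by
  rintro _ (rfl | ⟨v, ⟨k, rfl⟩, rfl⟩)
  · exact ⟨.inr f, rfl⟩
  · exact ⟨.inl (F.inc f k), congrArg Sum.inl (φ.inc_e f k).symm⟩

theorem Emb.inr_mem {F H : HG cl} {φ : Emb F H} (hs : φ.Str) {d : H.E} {x y : H.V ⊕ H.E}
    (hxy : x ≠ y) (hx : x ∈ φ.nb) (hy : y ∈ φ.nb) (hxd : x ∈ H.nw d) (hyd : y ∈ H.nw d) :
    ∃ f, φ.e f = d := by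
  have k : ∀ z ∈ φ.nb, z = .inr d → ∃ f, φ.e f = d := by
    rintro _ ⟨z | z, rfl⟩ h
    · exact (Sum.inl_ne_inr h).elim
    · exact ⟨z, Sum.inr_injective h⟩
  have k' : ∀ v, Sum.inl v ∈ φ.nb → ∃ u, φ.v u = v := by
    rintro v ⟨z | z, h⟩
    · exact ⟨z, Sum.inl_injective h⟩
    · exact (Sum.inr_ne_inl h).elim
  rcases hxd with e | ⟨u, hu, rfl⟩
  · exact k _ hx e
  rcases hyd with e | ⟨v, hv, rfl⟩
  · exact k _ hy e
  obtain ⟨u, rfl⟩ := k' u hx
  obtain ⟨v, rfl⟩ := k' v hy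
  exact hs d u v (fun e => hxy (by rw [e])) hu hv

theorem gr_nodes [Finite K] [Finite I] [LinearOrder K] (F : HG cl) (hO : F.Ord)
    (hL : F.Lin) (κ : Type) [Finite κ] [Nonempty κ] (g : ℕ) :
    ∃ (H : HG cl) (P : Type) (_ : Finite P) (φ : P → Emb F H),
      Ram (fun p => (φ p).e) κ ∧ H.Lin ∧ (∀ p, (φ p).Str) ∧
      (∀ p q, p ≠ q → ∀ x y, x ≠ y → x ∈ (φ p).nb → y ∈ (φ p).nb → x ∈ (φ q).nb →
        y ∈ (φ q).nb → ∃ d, x ∈ H.nw d ∧ y ∈ H.nw d) ∧
      ∀ p (C : Set (H.V ⊕ H.E)), C.ncard ≤ g → Disjoint C (φ p).nb →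
        RE.ConnOn (RE.Tog (range fun q => (φ q).nb)) C → ∀ x ∈ (φ p).nb, ∀ y ∈ (φ p).nb, x ≠ y →
        (∃ c ∈ C, RE.Tog (range fun q => (φ q).nb) x c) →
        (∃ c ∈ C, RE.Tog (range fun q => (φ q).nb) y c) →
        ∃ q, x ∈ (φ q).nb ∧ y ∈ (φ q).nb ∧ ((φ q).nb ∩ C).Nonempty := by
  obtain ⟨H, P, _, φ, hR, hl, hc, hB, hAC⟩ := gr_cl F hO hL κ (2 * g + 4)
  let ψ := fun p => (φ p).hg (hc p) Set.univ
  let up : H.V ⊕ H.E → (hg H ⊥ Set.univ).N := Sum.map (fun v => ⟨v, trivial⟩) (Quotient.mk ⊥)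
  have hup : Injective up := Injective.sumMap (fun _ _ h => congrArg Subtype.val h)
    fun _ _ h => Quotient.exact h
  have hM : ∀ {u : (hg H ⊥ Set.univ).V} {e : H.E},
      (hg H ⊥ Set.univ).M u (Quotient.mk ⊥ e) → H.On u.1 e := by
    rintro u e ⟨e', h1, h2⟩
    obtain rfl : e' = e := Quotient.exact h1
    exact h2
  have hbag : ∀ p x, (ψ p).Bag (up x) ↔ x ∈ (φ p).nb := by
    refine fun p x => ⟨?_, ?_⟩
    · rintro ⟨y | y, h⟩
      · exact ⟨.inl y.1, hup h⟩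
      · induction y using Quotient.inductionOn with | _ f
        exact ⟨.inr f, hup h⟩
    · rintro ⟨a | a, rfl⟩
      · exact ⟨.inl ⟨a, trivial⟩, rfl⟩
      · exact ⟨.inr (Quotient.mk ⊥ a), rfl⟩
  have hwb : ∀ d x, (hg H ⊥ Set.univ).WB (Quotient.mk ⊥ d) (up x) → x ∈ H.nw d := by
    rintro d (x | x) h
    · exact .inr ⟨x, hM h, rfl⟩
    · exact .inl (congrArg Sum.inr (Quotient.exact h))
  have hwp : ∀ x y, (hg H ⊥ Set.univ).WP (up x) (up y) → ∃ d, x ∈ H.nw d ∧ y ∈ H.nw d := by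
    rintro x y ⟨d, h1, h2⟩
    induction d using Quotient.inductionOn with | _ d
    exact ⟨d, hwb _ _ h1, hwb _ _ h2⟩
  have htog : ∀ u v, RE.Tog (range fun q => (φ q).nb) u v → Adj ψ (up u) (up v) := by
    rintro u v ⟨_, ⟨p, rfl⟩, h1, h2⟩
    exact .inl ⟨p, (hbag _ _).2 h1, (hbag _ _).2 h2⟩
  have hstr : ∀ p, (φ p).Str := by
    intro p d u w huw hu hw
    obtain ⟨c, hc'⟩ := hB.str p ⟨u, trivial⟩ ⟨w, trivial⟩ (Quotient.mk ⊥ d)
      (fun e => huw (congrArg Subtype.val e)) ⟨d, rfl, hu⟩ ⟨d, rfl, hw⟩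
    induction c using Quotient.inductionOn with | _ f
    exact ⟨f, Quotient.exact hc'⟩
  refine ⟨H, P, inferInstance, φ, hR, hl, hstr, fun p q hpq x y hxy a1 a2 a3 a4 => hwp _ _
    (hB.b2 p q _ _ hpq (hup.ne hxy) ((hbag _ _).2 a1) ((hbag _ _).2 a2) ((hbag _ _).2 a3)
      ((hbag _ _).2 a4)), ?_⟩
  rintro p C hC hd hcn x hx y hy hxy ⟨a, ha, hxa⟩ ⟨b, hb, hyb⟩
  have nm : ∀ z ∈ (φ p).nb, up z ∉ up '' C := fun z hz h =>
    Set.disjoint_left.1 hd ((hup.mem_set_image).1 h) hz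
  obtain ⟨_, ⟨c, hcC, rfl⟩, hin⟩ := atom_twoN hAC (up '' C) ((Set.toFinite C).image _)
    ((Set.ncard_image_of_injective _ hup).trans_le hC)
    (hcn.image up fun u _ v _ h => .inr (htog u v h)) (hup.ne hxy)
    (.inl ⟨p, (hbag _ _).2 hx, (hbag _ _).2 hy⟩) (nm x hx) (nm y hy)
    ⟨_, ⟨a, ha, rfl⟩, htog _ _ hxa⟩ ⟨_, ⟨b, hb, rfl⟩, htog _ _ hyb⟩
  rcases hin with ⟨q, hq⟩ | ⟨d, hdd⟩
  · exact ⟨q, (hbag _ _).1 (hq _ (by simp)), (hbag _ _).1 (hq _ (by simp)), c,
      (hbag _ _).1 (hq _ (by simp)), hcC⟩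
  · induction d using Quotient.inductionOn with | _ d
    obtain ⟨f, rfl⟩ := Emb.inr_mem (hstr p) hxy hx hy (hwb _ _ (hdd _ (by simp)))
      (hwb _ _ (hdd _ (by simp)))
    exact (Set.disjoint_left.1 hd hcC ((φ p).nw_sub f (hwb _ _ (hdd _ (by simp))))).elim

end Pool.Agent.MP_1c0fc2_co.GR

end

section

open Function Set Relation

namespace Pool.Agent.MP_1c0fc2_co.RE

theorem xmt1_enum {V : Type} [Finite V] (r : V → ℕ) (hr : Injective r) (S : Set V) (n : ℕ)
    (h : S.ncard = n) : ∃ f : Fin n → V, range f = S ∧ StrictMono (r ∘ f) := by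
  letI : LinearOrder V := LinearOrder.lift' r hr
  have hc : (Set.toFinite S).toFinset.card = n := by
    rw [← h, Set.ncard_eq_toFinset_card S]
  refine ⟨(Set.toFinite S).toFinset.orderEmbOfFin hc, ?_, fun a b hab => ?_⟩
  · rw [Finset.range_orderEmbOfFin]
    simp
  · exact ((Set.toFinite S).toFinset.orderEmbOfFin hc).strictMono hab

variable {I T : Type} {prof : T → I → ℕ}

/-- positions of an edge -/
structure xmt1_K (n : I → ℕ) where
  i : I
  j : Fin (n i)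

theorem xmt1_fin [Finite I] (n : I → ℕ) : Finite (xmt1_K n) :=
  Finite.of_surjective (fun k : Σ i, Fin (n i) => (⟨k.1, k.2⟩ : xmt1_K n))
    fun k => ⟨⟨k.1, k.2⟩, rfl⟩

theorem xmt1_hg [Finite I] (F : MH prof) (t : T) :
    ∃ (_ : LinearOrder (xmt1_K (prof t))) (inc : {e : F.E // F.ty e = t} →
      xmt1_K (prof t) → F.V) (ρ : F.V → ℕ), (∀ e, StrictMono fun k => ρ (inc e k)) ∧
      (∀ e k, F.kd (inc e k) = k.1) ∧ ∀ e v, (∃ k, inc e k = v) ↔ F.mem v e.1 := by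
  let r : F.V → ℕ := fun x => Finite.equivFin F.V x
  have hr : Injective r := Fin.val_injective.comp (Finite.equivFin F.V).injective
  have hr' : ∀ v, r v < Nat.card F.V := fun v => (Finite.equivFin F.V v).2
  let c : I → ℕ := fun x => Finite.equivFin I x
  have hc : Injective c := Fin.val_injective.comp (Finite.equivFin I).injective
  have h1 : ∀ (e : {e : F.E // F.ty e = t}) i, ∃ f : Fin (prof t i) → F.V,
      range f = {v | F.mem v e.1 ∧ F.kd v = i} ∧ StrictMono (r ∘ f) :=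
    fun e i => xmt1_enum r hr _ _ (by rw [F.shape, e.2])
  choose f f1 f2 using h1
  have f3 : ∀ e i j, F.mem (f e i j) e.1 ∧ F.kd (f e i j) = i :=
    fun e i j => (f1 e i).le ⟨j, rfl⟩
  let o : xmt1_K (prof t) → ℕ ×ₗ ℕ := fun k => toLex (c k.1, k.2.1)
  have ho : Injective o := by
    rintro ⟨i, j⟩ ⟨i', j'⟩ h
    have h' := toLex.injective h
    obtain rfl : i = i' := hc (congrArg Prod.fst h')
    obtain rfl : j = j' := Fin.ext (congrArg Prod.snd h')
    rfl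
  refine ⟨LinearOrder.lift' o ho, fun e k => f e k.1 k.2,
    fun v => c (F.kd v) * Nat.card F.V + r v, ?_, fun e k => (f3 e _ _).2, fun e v => ⟨?_, ?_⟩⟩
  · rintro e ⟨i, j⟩ ⟨i', j'⟩ h
    have h' : o ⟨i, j⟩ < o ⟨i', j'⟩ := h
    simp only [(f3 e _ _).2]
    rcases Prod.Lex.toLex_lt_toLex.1 h' with h2 | ⟨h2, h3⟩
    · have a := hr' (f e i j)
      have b : (c i + 1) * Nat.card F.V ≤ c i' * Nat.card F.V := Nat.mul_le_mul_right _ h2
      rw [Nat.add_mul] at b
      omega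
    · obtain rfl : i = i' := hc h2
      exact Nat.add_lt_add_left (f2 e i (show j < j' from h3)) _
  · rintro ⟨k, rfl⟩
    exact (f3 e _ _).1
  · intro h
    obtain ⟨j, hj⟩ := (f1 e (F.kd v)).ge ⟨h, rfl⟩
    exact ⟨⟨_, j⟩, hj⟩

/-- the host with the edges of the other types -/
def xmt1_H (F : MH prof) (t : T) (H : GR.HG (xmt1_K.i : xmt1_K (prof t) → I)) (P : Type)
    [Finite P] (v : P → F.V → H.V) (hv : ∀ p, Injective (v p))
    (hk : ∀ p x, H.vc (v p x) = F.kd x) : MH prof where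
  V := H.V
  E := H.E ⊕ (P × {d : F.E // F.ty d ≠ t})
  kd := H.vc
  ty := Sum.elim (fun _ => t) fun x => F.ty x.2.1
  mem := fun y => Sum.elim (H.On y) fun x => ∃ u, F.mem u x.2.1 ∧ v x.1 u = y
  shape := by
    rintro (e | ⟨p, d⟩) i
    · have : {y | H.On y e ∧ H.vc y = i} = range fun j : Fin (prof t i) => H.inc e ⟨i, j⟩ := by
        ext y
        constructor
        · rintro ⟨⟨⟨i', j⟩, rfl⟩, h⟩
          obtain rfl : i' = i := (H.vc_inc e _).symm.trans h
          exact ⟨j, rfl⟩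
        · rintro ⟨j, rfl⟩
          exact ⟨⟨_, rfl⟩, H.vc_inc e _⟩
      refine (congrArg Set.ncard this).trans ?_
      rw [Set.ncard_range_of_injective fun a b h => by simpa using H.inc_inj e h]
      simp
    · refine Eq.trans ?_ (F.shape d.1 i)
      rw [← Set.ncard_image_of_injective _ (hv p)]
      congr 1
      ext y
      constructor
      · rintro ⟨⟨u, h1, rfl⟩, h2⟩
        exact ⟨u, ⟨h1, (hk p u).symm.trans h2⟩, rfl⟩
      · rintro ⟨u, ⟨h1, h2⟩, rfl⟩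
        exact ⟨⟨u, h1, rfl⟩, (hk p u).trans h2⟩

theorem xmt1_pair {N0 N1 P : Type} [Finite N1] (j : N0 → N1) (hj : Injective j) (B0 : P → Set N0)
    (B1 : P → Set N1) (hb : ∀ p x, j x ∈ B1 p ↔ x ∈ B0 p)
    (hp : ∀ z, z ∉ range j → ∀ p q, z ∈ B1 p → z ∈ B1 q → p = q) (g : ℕ)
    (h : ∀ p (C : Set N0), C.ncard ≤ g → Disjoint C (B0 p) → ConnOn (Tog (range B0)) C →
      ∀ x ∈ B0 p, ∀ y ∈ B0 p, x ≠ y → (∃ c ∈ C, Tog (range B0) x c) →
      (∃ c ∈ C, Tog (range B0) y c) → ∃ q, x ∈ B0 q ∧ y ∈ B0 q ∧ (B0 q ∩ C).Nonempty)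
    (p : P) (C : Set N1) (hC : C.ncard ≤ g) (hd : Disjoint C (B1 p))
    (hc : ConnOn (Tog (range B1)) C) (x : N1) (hx : x ∈ B1 p) (y : N1) (hy : y ∈ B1 p)
    (hxy : x ≠ y) (ha : ∃ c ∈ C, Tog (range B1) x c) (ha' : ∃ c ∈ C, Tog (range B1) y c) :
    ∃ q, x ∈ B1 q ∧ y ∈ B1 q ∧ (B1 q ∩ C).Nonempty := by
  have A : ∀ z ∈ B1 p, (∃ c ∈ C, Tog (range B1) z c) → z ∈ range j := by
    rintro z hz ⟨c, hc', _, ⟨q, rfl⟩, h1, h2⟩
    by_contra hn
    exact Set.disjoint_left.1 hd hc' (hp z hn q p h1 hz ▸ h2)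
  have B : ∀ D, D ⊆ C \ range j → ConnOn (Tog (range B1)) D → ∀ u w, ∀ d ∈ D, ∀ d' ∈ D,
      Tog (range B1) u d → Tog (range B1) w d' → ∃ q, u ∈ B1 q ∧ w ∈ B1 q ∧ d ∈ B1 q := by
    rintro D hD hcD u w d hd1 d' hd2 ⟨_, ⟨q, rfl⟩, h1, h2⟩ ⟨_, ⟨q', rfl⟩, h3, h4⟩
    have : D ⊆ B1 q := hcD.sub hd1 h2 (by
      rintro a ha1 b - ha2 ⟨_, ⟨r, rfl⟩, r1, r2⟩
      exact hp a (hD ha1).2 r q r1 ha2 ▸ r2)
    exact ⟨q, h1, hp d' (hD hd2).2 q' q h4 (this hd2) ▸ h3, h2⟩
  rcases (C ∩ range j).eq_empty_or_nonempty with e | ⟨c0, hc0⟩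
  · obtain ⟨a, a1, a2⟩ := ha
    obtain ⟨b, b1, b2⟩ := ha'
    obtain ⟨q, q1, q2, q3⟩ := B C (fun z hz => ⟨hz, fun h' => (e.le ⟨hz, h'⟩ : z ∈ (∅ : Set N1))⟩)
      hc x y a a1 b b1 a2 b2
    exact ⟨q, q1, q2, a, q3, a1⟩
  obtain ⟨x, rfl⟩ := A x hx ha
  obtain ⟨y, rfl⟩ := A y hy ha'
  haveI : Nonempty N0 := ⟨x⟩
  have hk : ∀ z ∈ range j, j (invFun j z) = z := fun z hz => invFun_eq hz
  have ht : ∀ u w, Tog (range B1) (j u) (j w) → Tog (range B0) u w := by
    rintro u w ⟨_, ⟨q, rfl⟩, h1, h2⟩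
    exact ⟨_, ⟨q, rfl⟩, (hb _ _).1 h1, (hb _ _).1 h2⟩
  have hat : ∀ z, (∃ c ∈ C, Tog (range B1) (j z) c) →
      ∃ c ∈ invFun j '' (C ∩ range j), Tog (range B0) z c := by
    rintro z ⟨c, c1, c2⟩
    by_cases e : c ∈ range j
    · exact ⟨_, ⟨c, ⟨c1, e⟩, rfl⟩, ht _ _ (by rwa [hk c e])⟩
    · obtain ⟨d, d1, w, w1, w2⟩ := hc.comp_nb (Y := range j) ⟨c1, e⟩ hc0
      obtain ⟨q, q1, q2, -⟩ := B _ comp_sub (comp_conn (tog_symm _)) (j z) w c
        (mem_comp ⟨c1, e⟩) d d1 c2 w2.symm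
      exact ⟨_, ⟨w, w1, rfl⟩, ht _ _ ⟨_, ⟨q, rfl⟩, q1, by rwa [hk w w1.2]⟩⟩
  have hcn : ConnOn (Tog (range B1)) (C ∩ range j) := hc.trace (tog_symm _) _
    (fun _ _ _ _ _ e => e) (by
      rintro D hD hcD u - w - - ⟨d, d1, d2⟩ ⟨d', d3, d4⟩
      obtain ⟨q, q1, q2, -⟩ := B D hD hcD u w d d1 d' d3 d2 d4
      exact ⟨_, ⟨q, rfl⟩, q1, q2⟩)
  obtain ⟨q, q1, q2, _, q3, c, q4, rfl⟩ := h p (invFun j '' (C ∩ range j))
    ((Set.ncard_image_le (Set.toFinite _)).trans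
      ((Set.ncard_le_ncard inter_subset_left (Set.toFinite _)).trans hC))
    (Set.disjoint_left.2 (by
      rintro _ ⟨c, hc', rfl⟩ e
      exact Set.disjoint_left.1 hd hc'.1 (hk c hc'.2 ▸ (hb _ _).2 e)))
    (hcn.image _ fun u hu w hw e => .inr (ht _ _ (by rwa [hk u hu.2, hk w hw.2])))
    x ((hb _ _).1 hx) y ((hb _ _).1 hy) (fun e => hxy (by rw [e])) (hat x ha) (hat y ha')
  exact ⟨q, (hb _ _).2 q1, (hb _ _).2 q2, c, hk c q4.2 ▸ (hb _ _).2 q3, q4.1⟩

theorem mt1_stmt : MT1Stmt := by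
  classical
  intro I T _ _ prof F hL t κ _ _ g
  obtain ⟨_, inc, ρ, h1, h2, h3⟩ := xmt1_hg F t
  haveI := xmt1_fin (prof t)
  let F0 : GR.HG (xmt1_K.i : xmt1_K (prof t) → I) :=
    { V := F.V, E := {e : F.E // F.ty e = t}, vc := F.kd, inc := inc
      inc_inj := fun e _ _ h => (h1 e).injective (congrArg ρ h :), vc_inc := h2 }
  have hon : ∀ v (e : F0.E), F0.On v e ↔ F.mem v e.1 := fun v e => h3 e v
  obtain ⟨H, P, _, φ, hR, hl, hs, hb2, hpair⟩ := GR.gr_nodes F0 ⟨ρ, h1⟩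
    (fun e e' u v huv a1 a2 a3 a4 => Subtype.ext (hL _ _ u v huv ((hon _ _).1 a1) ((hon _ _).1 a2)
      ((hon _ _).1 a3) ((hon _ _).1 a4))) κ g
  have hon' : ∀ p y (f : F0.E), H.On y ((φ p).e f) ↔ ∃ x, F.mem x f.1 ∧ (φ p).v x = y := by
    refine fun p y f => ⟨?_, ?_⟩
    · rintro ⟨k, rfl⟩
      exact ⟨_, (hon _ _).1 ⟨k, rfl⟩, ((φ p).inc_e f k).symm⟩
    · rintro ⟨x, hx, rfl⟩
      obtain ⟨k, rfl⟩ := (hon _ _).2 hx
      exact ⟨k, (φ p).inc_e f k⟩
  let H1 := xmt1_H F t H P (fun p => (φ p).v) (fun p => (φ p).v_inj) fun p => (φ p).vc_v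
  let ψ : P → MEmb F H1 := fun p =>
    { v := (φ p).v
      e := fun d => if h : F.ty d = t then .inl ((φ p).e ⟨d, h⟩) else .inr (p, ⟨d, h⟩)
      v_inj := (φ p).v_inj
      e_inj := by
        intro d d' h
        by_cases a : F.ty d = t <;> by_cases b : F.ty d' = t <;>
          simp only [a, b, dif_pos, dif_neg, not_false_eq_true] at h
        · exact congrArg Subtype.val ((φ p).e_inj (Sum.inl_injective h))
        · exact (Sum.inl_ne_inr h).elim
        · exact (Sum.inr_ne_inl h).elim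
        · exact congrArg (fun x => x.2.1) (Sum.inr_injective h)
      kd_v := (φ p).vc_v
      ty_e := by
        intro d
        by_cases a : F.ty d = t
        · rw [dif_pos a]
          exact a.symm
        · rw [dif_neg a]
          rfl
      mem_iff := by
        intro y d
        by_cases a : F.ty d = t
        · rw [dif_pos a]
          exact hon' p y ⟨d, a⟩
        · rw [dif_neg a]
          rfl }
  have e1 : ∀ p (f : F0.E), (ψ p).e f.1 = .inl ((φ p).e f) := fun p f => dif_pos f.2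
  have e2 : ∀ p (d : {d : F.E // F.ty d ≠ t}), (ψ p).e d.1 = .inr (p, d) := fun p d => dif_neg d.2
  let j : H.V ⊕ H.E → H1.V ⊕ H1.E := Sum.map id Sum.inl
  have hj : Injective j := injective_id.sumMap Sum.inl_injective
  have hb : ∀ p x, j x ∈ (ψ p).Bag ↔ x ∈ (φ p).nb := by
    refine fun p x => ⟨?_, ?_⟩
    · rintro ⟨y | y, h⟩
      · exact ⟨.inl y, hj h⟩
      · by_cases a : F.ty y = t
        · exact ⟨.inr ⟨y, a⟩, hj ((congrArg Sum.inr (e1 p ⟨y, a⟩)).symm.trans h)⟩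
        · have := (congrArg Sum.inr (e2 p ⟨y, a⟩)).symm.trans h
          rcases x with x | x
          · exact (Sum.inr_ne_inl this).elim
          · exact (Sum.inr_ne_inl (Sum.inr_injective this)).elim
    · rintro ⟨y | y, rfl⟩
      · exact ⟨.inl y, rfl⟩
      · exact ⟨.inr y.1, congrArg Sum.inr (e1 p y)⟩
  have hp : ∀ z, z ∉ range j → ∀ p q, z ∈ (ψ p).Bag → z ∈ (ψ q).Bag → p = q := by
    have k : ∀ r d p, Sum.inr (Sum.inr (r, d)) ∈ (ψ p).Bag → p = r := by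
      intro r d p h
      obtain ⟨y, h⟩ := xmt1b_inr.1 h
      by_cases a : F.ty y = t
      · exact (Sum.inl_ne_inr ((e1 p ⟨y, a⟩).symm.trans h)).elim
      · exact congrArg Prod.fst (Sum.inr_injective ((e2 p ⟨y, a⟩).symm.trans h))
    rintro (z | z | ⟨r, d⟩) hz p q h1 h2
    · exact (hz ⟨.inl z, rfl⟩).elim
    · exact (hz ⟨.inr z, rfl⟩).elim
    · exact (k r d p h1).trans (k r d q h2).symm
  have k1 : ∀ e p (d : {d : F.E // F.ty d ≠ t}) u v, u ≠ v → H.On u e → H.On v e →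
      H1.mem u (.inr (p, d)) → H1.mem v (.inr (p, d)) → False := by
    rintro e p d _ _ huv a1 a2 ⟨x, x1, rfl⟩ ⟨y, y1, rfl⟩
    have hxy : x ≠ y := fun h => huv (by rw [h])
    obtain ⟨f, rfl⟩ := hs p e x y hxy a1 a2
    obtain ⟨x', x2, x3⟩ := (hon' _ _ _).1 a1
    obtain ⟨y', y2, y3⟩ := (hon' _ _ _).1 a2
    rw [(φ p).v_inj x3] at x2
    rw [(φ p).v_inj y3] at y2
    exact d.2 (hL _ _ x y hxy x2 y2 x1 y1 ▸ f.2)
  have k2 : ∀ p q (d : {d : F.E // F.ty d ≠ t}) x y, x ≠ y → H1.mem ((φ p).v x) (.inr (q, d)) →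
      H1.mem ((φ p).v y) (.inr (q, d)) → p = q := by
    intro p q d x y hxy a1 a2
    by_contra hpq
    have hne := (φ p).v_inj.ne hxy
    obtain ⟨e, b1, b2⟩ := hb2 p q hpq (.inl ((φ p).v x)) (.inl ((φ p).v y))
      (Sum.inl_injective.ne hne) ⟨.inl x, rfl⟩ ⟨.inl y, rfl⟩
      (let ⟨u, _, h⟩ := a1; ⟨.inl u, congrArg Sum.inl h⟩)
      (let ⟨u, _, h⟩ := a2; ⟨.inl u, congrArg Sum.inl h⟩)
    have k : ∀ z, Sum.inl z ∈ H.nw e → H.On z e := by
      rintro z (h | ⟨v, hv, h⟩)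
      · exact (Sum.inl_ne_inr h).elim
      · exact Sum.inl_injective h ▸ hv
    exact k1 e q d _ _ hne (k _ b1) (k _ b2) a1 a2
  have hP : GoodP ψ g := by
    refine ⟨?_, ?_, ?_, xmt1_pair j hj (fun p => (φ p).nb) (fun p => (ψ p).Bag) hb hp g hpair⟩
    · rintro (e | ⟨p, d⟩) (e' | ⟨q, d'⟩) u v huv a1 a2 a3 a4
      · exact congrArg Sum.inl (hl e e' u v huv a1 a2 a3 a4)
      · exact (k1 e q d' u v huv a1 a2 a3 a4).elim
      · exact (k1 e' p d u v huv a3 a4 a1 a2).elim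
      · obtain ⟨x, x1, rfl⟩ := a1
        obtain ⟨y, y1, rfl⟩ := a2
        have hxy : x ≠ y := fun h => huv (by rw [h])
        obtain rfl := k2 p q d' x y hxy a3 a4
        obtain ⟨x', x2, x3⟩ := a3
        obtain ⟨y', y2, y3⟩ := a4
        rw [(φ p).v_inj x3] at x2
        rw [(φ p).v_inj y3] at y2
        rw [Subtype.ext (hL _ _ x y hxy x1 y1 x2 y2 : d.1 = d'.1)]
    · rintro p x y (e | ⟨q, d⟩) hxy a1 a2
      · obtain ⟨f, rfl⟩ := hs p e x y hxy a1 a2
        exact ⟨f.1, e1 p f⟩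
      · obtain rfl := k2 p q d x y hxy a1 a2
        exact ⟨d.1, e2 p d⟩
    · intro p q hpq x y hxy a1 a2 a3 a4
      obtain ⟨x, rfl⟩ : x ∈ range j := by_contra fun h => hpq (hp x h p q a1 a3)
      obtain ⟨y, rfl⟩ : y ∈ range j := by_contra fun h => hpq (hp y h p q a2 a4)
      obtain ⟨d, d1, d2⟩ := hb2 p q hpq x y (fun e => hxy (by rw [e])) ((hb _ _).1 a1)
        ((hb _ _).1 a2) ((hb _ _).1 a3) ((hb _ _).1 a4)
      have k : ∀ z ∈ H.nw d, j z ∈ H1.WB (.inl d) := by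
        rintro _ (rfl | ⟨v, hv, rfl⟩)
        · exact .inl rfl
        · exact .inr ⟨v, hv, rfl⟩
      exact ⟨_, k x d1, k y d2⟩
  obtain ⟨H', φ', h4, h5⟩ := hP.restrict (κ := κ) (S := {t}) fun χ => by
    obtain ⟨p, hp'⟩ := hR fun e => χ (.inl e)
    refine ⟨p, fun d d' a b => ?_⟩
    have a' : F.ty d = t := a
    rw [e1 p ⟨d, a'⟩, e1 p ⟨d', b.symm.trans a'⟩]
    exact hp' _ _
  exact ⟨H', P, inferInstance, φ', h4, h5⟩

end Pool.Agent.MP_1c0fc2_co.RE

end

section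

/-! Small cliques do not separate stiff sets; the cone shape of the blue objects. -/

open Function Set Relation

namespace Pool.Agent.MP_1c0fc2_co.RE

section Aux
variable {V W : Type} {J : SimpleGraph V} {H : SimpleGraph W} {S τ : Set V}

theorem xnsep_one (h : TwoConn J S) (hτ : (S ∩ τ).Subsingleton) : ConnOn J.Adj (S \ τ) := by
  rcases hτ.eq_empty_or_singleton with e | ⟨v, e⟩
  · rw [← sdiff_self_inter, e, sdiff_empty]
    exact h.conn
  · rw [← sdiff_self_inter, e]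
    exact h.2 v

theorem xnsep_three [Finite V] {a b c : V} (ha : a ∈ S) (hb : b ∈ S) (hc : c ∈ S) (hab : a ≠ b)
    (hac : a ≠ c) (hbc : b ≠ c) : 3 ≤ S.ncard :=
  (two_lt_ncard (toFinite S)).2 ⟨a, ha, b, hb, c, hc, hab, hac, hbc⟩

theorem xnsep_star {w : V} (hw : w ∈ S) (h : ∀ x ∈ S, x ≠ w → J.Adj w x) : ConnOn J.Adj S := by
  refine connOn_of_base (adj_symm' J) w fun b hb => ?_
  by_cases e : b = w
  · rw [e]
  · exact .single ⟨hw, hb, h b hb e⟩

/-- no torso if no set of at most two vertices separates -/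
theorem xnsep_torso [Finite V] (h : ∀ p q : V, ∀ τ ⊆ {p, q}, ConnOn J.Adj (S \ τ)) (S' : Set V) :
    ¬ Torso H J S S' := by
  rintro ⟨h1, h2, h3, g, hg, h4⟩
  obtain ⟨c, hc, hc'⟩ := exists_of_ssubset (ssubset_of_subset_of_ne h1 h2)
  have hcC : c ∈ comp J.Adj (S \ S') c := mem_comp ⟨hc, hc'⟩
  have h5 := h4 _ comp_sub (comp_conn (a := c) (adj_symm' J))
  set τ := Nb J S' (comp J.Adj (S \ S') c) with hτ
  have hτS : τ ⊆ S' := fun x hx => hx.1
  have h6 : τ.ncard ≤ 2 := by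
    rw [← (hg.sub hτS).ncard]
    exact h5.ncard_le
  have h7 : ∃ p q : V, τ ⊆ {p, q} := by
    have h8 : τ.ncard = 0 ∨ τ.ncard = 1 ∨ τ.ncard = 2 := by omega
    rcases h8 with e | e | e
    · rw [ncard_eq_zero] at e
      exact ⟨c, c, e ▸ empty_subset _⟩
    · obtain ⟨p, e⟩ := ncard_eq_one.1 e
      exact ⟨p, p, by rw [e]; simp⟩
    · obtain ⟨p, q, -, e⟩ := ncard_eq_two.1 e
      exact ⟨p, q, e.subset⟩
  obtain ⟨p, q, hpq⟩ := h7
  obtain ⟨s, hs, hs'⟩ : ∃ s ∈ S', s ∉ τ := by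
    by_contra hcon
    push Not at hcon
    have := ncard_le_ncard hcon (toFinite τ)
    omega
  obtain ⟨x, -, y, hy, hx, hy', e⟩ := (h p q τ hpq).cross (Y := comp J.Adj (S \ S') c)
    (a := c) (b := s) ⟨hc, fun h => hc' (hτS h)⟩ ⟨h1 hs, hs'⟩ hcC fun h => (comp_sub h).2 hs
  by_cases hyS : y ∈ S'
  · exact hy.2 ⟨hyS, x, hx, e.symm⟩
  · exact hy' (comp_closed hx ⟨hy.1, hyS⟩ e)

end Aux

theorem nsep_stmt : NsepStmt := by
  rintro W V _ _ H J ⟨f, hf⟩ S a b τ ⟨ha, hb, hab, h2, hT⟩ hτ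
  have : Nonempty V := ⟨a⟩
  constructor
  · by_cases hs : (S ∩ τ).Subsingleton
    · exact xnsep_one h2 hs
    rcases hτ with h | ⟨p, q, hpq, rfl⟩
    · exact absurd (h.anti inter_subset_right) hs
    have hp : p ∈ S := by
      by_contra hp
      refine hs ((subsingleton_singleton (a := q)).anti ?_)
      rintro x ⟨hx, rfl | rfl⟩
      · exact absurd hx hp
      · rfl
    have hq : q ∈ S := by
      by_contra hq
      refine hs ((subsingleton_singleton (a := p)).anti ?_)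
      rintro x ⟨hx, rfl | rfl⟩
      · rfl
      · exact absurd hx hq
    by_contra hcon
    obtain ⟨c, hc, hca, hcb⟩ : ∃ c ∈ S \ {p, q}, a ∈ comp J.Adj (S \ {p, q}) c ∪ {p, q} ∧
        b ∈ comp J.Adj (S \ {p, q}) c ∪ {p, q} := by
      by_cases h1 : a ∈ ({p, q} : Set V)
      · by_cases h3 : b ∈ ({p, q} : Set V)
        · obtain ⟨c, hc, -⟩ := not_connOn hcon
          exact ⟨c, hc, .inr h1, .inr h3⟩
        · exact ⟨b, ⟨hb, h3⟩, .inr h1, .inl (mem_comp ⟨hb, h3⟩)⟩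
      · by_cases h3 : b ∈ ({p, q} : Set V)
        · exact ⟨a, ⟨ha, h1⟩, .inl (mem_comp ⟨ha, h1⟩), .inr h3⟩
        · exact ⟨a, ⟨ha, h1⟩, .inl (mem_comp ⟨ha, h1⟩),
            .inl (comp_closed (mem_comp ⟨ha, h1⟩) ⟨hb, h3⟩ hab)⟩
    refine hT _ hca hcb ⟨union_subset (comp_sub.trans sdiff_subset) (pair_subset hp hq), ?_, ?_,
      f, hf.on _, fun C hC _ => ?_⟩
    · intro e
      refine hcon ?_
      have e' : S \ {p, q} = comp J.Adj (S \ {p, q}) c := by
        refine Subset.antisymm (fun x hx => ?_) comp_sub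
        have hx' : x ∈ comp J.Adj (S \ {p, q}) c ∪ {p, q} := by
          rw [e]
          exact hx.1
        exact hx'.resolve_right hx.2
      rw [e']
      exact comp_conn (adj_symm' J)
    · exact xnsep_three (a := c) (b := p) (c := q) (.inl (mem_comp hc)) (.inr (by simp))
        (.inr (by simp)) (fun e => hc.2 (by simp [e])) (fun e => hc.2 (by simp [e])) hpq.ne
    · refine Cq.sub (τ := {f p, f q}) (.inr ⟨_, _, hf.2 _ _ hpq, rfl⟩) ?_
      rw [← image_pair]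
      refine image_mono ?_
      rintro x ⟨hx | hx, d, hd, e⟩
      · exact absurd (.inl (comp_closed hx ⟨(hC hd).1, fun h => (hC hd).2 (.inr h)⟩ e)) (hC hd).2
      · exact hx
  · obtain ⟨p, q, -, h⟩ := hτ.pair
    obtain ⟨c, hc, h3, h4⟩ := h2.exists_ne p q
    exact ⟨c, hc, fun h' => (h h').elim h3 h4⟩

theorem cone_stmt (hEq : EqStmt) (hK3 : K3Stmt) (hNsep : NsepStmt) : ConeStmt := by
  rintro W V _ _ H P hP m hm J ⟨f, hf⟩ S hS
  cases m
  · exact ⟨trivial, fun h => nomatch h⟩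
  · exact ⟨trivial, fun h => nomatch h⟩
  · have hA : AS P H J S := hS
    have h1 : ¬ (AS P H H (f '' S) ∧ ∀ c ∈ f '' S, ∃ v ∈ f '' S, v ≠ c ∧ ¬ H.Adj c v) := hm.2 _
    have h2 : ∃ w ∈ S, ∀ x ∈ S, x ≠ w → J.Adj w x := by
      by_contra hcon
      push Not at hcon
      refine h1 ⟨hA.map (hf.on S), ?_⟩
      rintro _ ⟨w, hw, rfl⟩
      obtain ⟨x, hx, hxw, e⟩ := hcon w hw
      exact ⟨f x, mem_image_of_mem f hx, hf.1.ne hxw, fun e' => e (hEq W V W H P hP J H f id S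
        (hf.on S) ((ih_id le_rfl).on _) (.inr hA) w hw x hx e')⟩
    obtain ⟨w, hw, h2⟩ := h2
    obtain ⟨a, b, hab⟩ := hA.1
    have h3 : ∀ x, ConnOn J.Adj (S \ {w, x}) := fun x => by
      by_cases hx : x ∈ S ∧ x ≠ w
      · exact (hNsep W V H J ⟨f, hf⟩ S a b _ hab (.inr ⟨w, x, h2 x hx.1 hx.2, rfl⟩)).1
      · refine xnsep_one hA.two ((subsingleton_singleton (a := w)).anti ?_)
        rintro y ⟨hy, rfl | rfl⟩
        · rfl
        · by_contra e
          exact hx ⟨hy, e⟩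
    refine ⟨⟨hA.2.1 ▸ hm.1, w, hw, h2, h3⟩, fun _ => ⟨hA.two, xnsep_torso fun p q τ hτ => ?_⟩⟩
    by_cases hwτ : w ∈ τ
    · by_cases hs : (S ∩ τ).Subsingleton
      · exact xnsep_one hA.two hs
      obtain ⟨x, hx, hxw⟩ := (not_subsingleton_iff.1 hs).exists_ne w
      have e : τ = {w, x} := by
        refine Subset.antisymm (fun y hy => ?_) (pair_subset hwτ hx.2)
        have e1 := hτ hwτ
        have e2 := hτ hx.2
        have e3 := hτ hy
        simp only [mem_insert_iff, mem_singleton_iff] at e1 e2 e3 ⊢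
        grind
      rw [e]
      exact h3 x
    · exact xnsep_star ⟨hw, hwτ⟩ fun x hx => h2 x hx.1
  · have hT : TH P H J S := hS
    have h1 : ¬ (TH P H H (f '' S) ∧ ∀ c, ∃ D, D ⊆ f '' S ∧ Tri H D ∧ c ∉ D) := hm.2 _
    obtain ⟨⟨k1, k2, -⟩, k3⟩ := hK3 W V H P hP
    have k4 : P.vT = 3 := le_antisymm (hm.1 ▸ k2) k1
    have h2 : ∃ c, ∀ D, D ⊆ f '' S → Tri H D → c ∈ D := by
      by_contra hcon
      push Not at hcon
      exact h1 ⟨hT.map (hf.on S), hcon⟩
    obtain ⟨c, hc⟩ := h2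
    have h3 : ∀ x ∈ S, ∃ D, D ⊆ S ∧ Tri J D ∧ x ∈ D ∧ c ∈ f '' D := fun x hx => by
      obtain ⟨D, d1, d2, d3⟩ := hT.ts hx
      have d4 := ((k3 J D).2.1 k4).1 d2
      exact ⟨D, d1, d4, d3, hc _ (image_mono d1) (d4.map (hf.on D))⟩
    obtain ⟨x0, hx0⟩ := hT.two.nonempty
    obtain ⟨D0, d0, -, -, w, hw, rfl⟩ := h3 x0 hx0
    refine ⟨⟨hT.two.1, w, d0 hw, fun x hx hxw => ?_, hT.two.2 w⟩, fun h => nomatch h⟩
    obtain ⟨D, -, d2, d3, w', hw', e⟩ := h3 x hx
    exact d2.adj (hf.1 e ▸ hw') d3 hxw.symm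

end Pool.Agent.MP_1c0fc2_co.RE

end

section

open Function Set Relation

namespace Pool.Agent.MP_1c0fc2_co.RE

variable {V W : Type}

theorem xpar_walk {H : SimpleGraph W} {a b : W} (p : H.Walk a b) :
    ConnOn H.Adj {x | x ∈ p.support} := by
  induction p with
  | nil =>
    refine connOn_of_subsingleton fun x hx y hy => ?_
    simp only [SimpleGraph.Walk.support_nil, List.mem_singleton, mem_ofPred_eq] at hx hy
    rw [hx, hy]
  | @cons u v w h p ih =>
    have e : {x | x ∈ (SimpleGraph.Walk.cons h p).support} = insert u {x | x ∈ p.support} := by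
      ext x
      simp
    rw [e]
    exact ih.insert (adj_symm' H) p.start_mem_support h

theorem xpar_cyc_del {H : SimpleGraph W} {v : W} (c : H.Walk v v) (hc : c.IsCycle) :
    ConnOn H.Adj ({x | x ∈ c.support} \ {v}) := by
  cases c with
  | nil => exact absurd hc SimpleGraph.Walk.not_isCycle_nil
  | @cons _ w _ h p =>
    have hp : p.IsPath := ((SimpleGraph.Walk.cons_isCycle_iff p h).1 hc).1
    have hr := hp.reverse
    have hs : ∀ x, x ∈ p.reverse.support ↔ x ∈ p.support := by simp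
    generalize p.reverse = q at hr hs
    cases q with
    | nil => exact absurd rfl h.ne
    | @cons _ z _ h' q =>
      have hv : v ∉ q.support := ((SimpleGraph.Walk.cons_isPath_iff h' q).1 hr).2
      have e : {x | x ∈ (SimpleGraph.Walk.cons h p).support} \ {v} = {x | x ∈ q.support} := by
        ext x
        have := hs x
        simp only [SimpleGraph.Walk.support_cons, List.mem_cons, mem_sdiff, mem_ofPred_eq,
          mem_singleton_iff] at this ⊢
        constructor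
        · rintro ⟨h1 | h1, h2⟩
          · exact absurd h1 h2
          · exact (this.2 h1).resolve_left h2
        · intro h1
          exact ⟨.inr (this.1 (.inr h1)), fun e => hv (e ▸ h1)⟩
      rw [e]
      exact xpar_walk q

theorem xpar_cyc [Finite W] {H : SimpleGraph W} (h : ¬ H.IsAcyclic) : ∃ S, TwoConn H S := by
  classical
  obtain ⟨v, c, hc⟩ : ∃ (v : W) (c : H.Walk v v), c.IsCycle := by
    by_contra h'
    exact h fun v c hc => h' ⟨v, c, hc⟩
  refine ⟨{x | x ∈ c.support}, ?_, fun u => ?_⟩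
  · have h1 : ((c.support.tail.toFinset : Finset W) : Set W) ⊆ {x | x ∈ c.support} :=
      fun x hx => List.mem_of_mem_tail (List.mem_toFinset.1 hx)
    refine le_trans ?_ (ncard_le_ncard h1 (toFinite _))
    rw [ncard_coe_finset, List.toFinset_card_of_nodup hc.support_nodup, List.length_tail,
      SimpleGraph.Walk.length_support]
    exact hc.three_le_length
  · by_cases hu : u ∈ c.support
    · have e : {x | x ∈ c.support} = {x | x ∈ (c.rotate u hu).support} := by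
        ext x
        simp only [mem_ofPred_eq, SimpleGraph.Walk.mem_support_rotate_iff]
      rw [e]
      exact xpar_cyc_del _ (hc.rotate hu)
    · rw [sdiff_singleton_eq_self (show u ∉ {x | x ∈ c.support} from hu)]
      exact xpar_walk c

theorem xpar_torso {H : SimpleGraph W} {J : SimpleGraph V} {S S' : Set V} (hS : TwoConn J S)
    (h : Torso H J S S') : ∃ T, TwoConn H T ∧ T.ncard = S'.ncard := by
  obtain ⟨h1, -, h3, f, h4, h5⟩ := h
  have key : ∀ C, C ⊆ S → ConnOn J.Adj C → ConnOn H.Adj (f '' (C ∩ S')) := by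
    intro C hC hc
    refine (hc.trace (adj_symm' J) S' (Q := fun x y => H.Adj (f x) (f y))
      (fun x hx y hy _ e => h4.2 x hx.2 y hy.2 e) ?_).image f fun _ _ _ _ e => .inr e
    intro D hD hd x hx y hy hxy ex ey
    exact (h5 D (fun z hz => ⟨hC (hD hz).1, (hD hz).2⟩) hd).adj
      (mem_image_of_mem f ⟨hx.2, ex⟩) (mem_image_of_mem f ⟨hy.2, ey⟩)
      fun e => hxy (h4.1 hx.2 hy.2 e)
  refine ⟨f '' S', ⟨by rw [h4.ncard]; exact h3, fun v => ?_⟩, h4.ncard⟩
  by_cases hv : v ∈ f '' S'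
  · obtain ⟨u, hu, rfl⟩ := hv
    rw [← image_singleton, ← injOn_image_diff h4.1 (singleton_subset_iff.2 hu)]
    have e : S' \ {u} = (S \ {u}) ∩ S' := by
      ext x
      exact ⟨fun h => ⟨⟨h1 h.1, h.2⟩, h.1⟩, fun h => ⟨h.2, h.1.2⟩⟩
    rw [e]
    exact key _ sdiff_subset (hS.2 u)
  · rw [sdiff_singleton_eq_self hv]
    have := key S subset_rfl hS.conn
    rwa [inter_eq_right.2 h1] at this

theorem xpar_es [Finite W] {H : SimpleGraph W} (h : ¬ H.IsAcyclic) : ∃ S, ES H H S := by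
  obtain ⟨S, hS, hm⟩ := exists_min_image {S | TwoConn H S} ncard (toFinite _) (xpar_cyc h)
  refine ⟨S, hS, fun S' ht => ?_⟩
  obtain ⟨T, hT, e⟩ := xpar_torso hS ht
  have h1 := hm T hT
  have h2 : S'.ncard < S.ncard := ncard_lt_ncard (ht.1.ssubset_of_ne ht.2.1) (toFinite _)
  omega

theorem xpar_lex [Finite W] (H : SimpleGraph W) {p : Set W → Prop} (h : ∃ S, p S) :
    ∃ S, p S ∧ ∀ S', p S' → S'.ncard < S.ncard ∨ (S'.ncard = S.ncard ∧ ec H S' ≤ ec H S) := by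
  obtain ⟨S, hS, hm⟩ := exists_max_image {S | p S} ncard (toFinite _) h
  obtain ⟨T, hT, hm'⟩ := exists_max_image {T | p T ∧ T.ncard = S.ncard} (ec H) (toFinite _)
    ⟨S, hS, rfl⟩
  refine ⟨T, hT.1, fun S' h' => ?_⟩
  rcases (hm S' h').lt_or_eq with e | e
  · exact .inl (hT.2 ▸ e)
  · exact .inr ⟨e.trans hT.2.symm, hm' S' ⟨h', e⟩⟩

theorem par_stmt (hAtomB : AtomBStmt) : ParStmt := by
  intro W _ H h
  obtain ⟨T, hT, hmT⟩ := xpar_lex H (xpar_es h)
  obtain ⟨A, hA, hmA⟩ := xpar_lex H (p := fun S => ∃ a b, RS H H S a b) (by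
    obtain ⟨a, ha, b, hb, e⟩ := hT.1.edge
    exact ⟨T, a, b, hT.rs ha hb e⟩)
  let P : ℕ → Par := fun θ => ⟨T.ncard, ec H T, A.ncard, ec H A, θ⟩
  have hTS : ∀ θ, TS (P θ) H H T := fun θ => ⟨hT, rfl, le_rfl⟩
  obtain ⟨O, hO, hmO⟩ := exists_max_image {S | TwoConn (TG (P 0) H H univ) S} ncard (toFinite _)
    ⟨T, hT.1.mono fun x hx y hy e => ⟨e, T, subset_univ _, hTS 0, hx, hy⟩⟩
  refine ⟨P O.ncard, ⟨T, hTS _⟩, hmT, ⟨A, hA, rfl, le_rfl⟩, fun S a b hS => hmA S ⟨a, b, hS⟩,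
    ⟨O, (hAtomB W W H (P O.ncard) H).2.2.1 O ⟨hO, hmO⟩, rfl⟩, hmO⟩

end Pool.Agent.MP_1c0fc2_co.RE

end

section

/-! Pulling back blue families; elementary facts about families. -/

open Function Set Relation

namespace Pool.Agent.MP_1c0fc2_co.RE

theorem xpullb_rp {V Z L : Type} {B : SimpleGraph V} {Y : SimpleGraph Z} {φ : V → Z}
    {K : L → Set Z} (hφ : IH B Y φ) (h : RP Y (fun l => K l ∩ range φ) ∅) :
    RP B (fun l => φ ⁻¹' K l) ∅ := by
  intro 𝒮 R0 hn hR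
  obtain ⟨R1, h1, h2⟩ : ∃ R1 : Set Z, (R1 = ∅ ∨ (∃ l0, l0 ∉ 𝒮 ∧ R1 = K l0 ∩ range φ) ∨
      ∃ r ∈ (∅ : Set Z), R1 = {r}) ∧ ∀ x ∈ R0, φ x ∈ R1 := by
    rcases hR with rfl | ⟨l0, h0, rfl⟩ | ⟨r, hr, -⟩
    · exact ⟨∅, .inl rfl, fun _ h => h⟩
    · exact ⟨_, .inr (.inl ⟨l0, h0, rfl⟩), fun x hx => ⟨hx, mem_range_self x⟩⟩
    · exact hr.elim
  obtain ⟨l, hl, h3⟩ := h 𝒮 R1 hn h1
  have k1 : ∀ x ∈ R0 ∪ Oth (fun l => φ ⁻¹' K l) 𝒮 l,
      φ x ∈ R1 ∪ Oth (fun l => K l ∩ range φ) 𝒮 l := by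
    rintro x (hx | ⟨l', a1, a2, a3⟩)
    · exact .inl (h2 x hx)
    · exact .inr ⟨l', a1, a2, a3, mem_range_self x⟩
  have k2 : ∀ x ∈ Port B (φ ⁻¹' K l) (R0 ∪ Oth (fun l => φ ⁻¹' K l) 𝒮 l),
      φ x ∈ Port Y (K l ∩ range φ) (R1 ∪ Oth (fun l => K l ∩ range φ) 𝒮 l) := by
    rintro x ⟨hx, h' | ⟨q, a1, a2, a3⟩⟩
    · exact ⟨⟨hx, mem_range_self x⟩, .inl (k1 x h')⟩
    · exact ⟨⟨hx, mem_range_self x⟩, .inr ⟨φ q, k1 q a1, fun e => a2 e.1, hφ.2 _ _ a3⟩⟩
  exact ⟨l, hl, fun x hx y hy => hφ.1 (h3 (k2 x hx) (k2 y hy))⟩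

theorem xpullb_rule {V Z : Type} {B : SimpleGraph V} {Y : SimpleGraph Z} {φ : V → Z}
    {K : Set Z} {m : Mode} (hφ : IH B Y φ) (h : Rule m Y K) : Rule m B (φ ⁻¹' K) := by
  cases m
  · trivial
  · trivial
  · intro t ht C h1 h2 h3
    have h4 := h (φ t) ht (φ '' C) (disjoint_image_left.2 h1)
      (by rintro _ ⟨x, hx, rfl⟩; exact hφ.2 _ _ (h2 x hx)) (h3.map (hφ.on C))
    rintro a ⟨a1, a2, x, a3, a4⟩ b ⟨b1, b2, y, b3, b4⟩
    exact hφ.1 (h4 ⟨a1, hφ.2 _ _ a2, φ x, mem_image_of_mem φ a3, hφ.2 _ _ a4⟩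
      ⟨b1, hφ.2 _ _ b2, φ y, mem_image_of_mem φ b3, hφ.2 _ _ b4⟩)
  · exact fun a ha b hb w h1 h2 h3 =>
      h (φ a) ha (φ b) hb (φ w) (hφ.2 _ _ h1) (hφ.2 _ _ h2) (hφ.2 _ _ h3)

theorem pullB_stmt : PullBStmt := by
  intro W V Z L _ _ _ hL H P m B Y φ K s hφ h1 h2 h3 h4 h5
  refine ⟨L, hL, fun l => φ ⁻¹' K l, ⟨fun O hO => (h1 O hO).imp fun l h => image_subset_iff.1 h,
    xpullb_rp hφ h2, fun l l' e => (h3 l l' e).preimage φ, fun l => xpullb_rule hφ (h4 l)⟩,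
    fun l => ?_⟩
  obtain ⟨D, hD, h6⟩ := h5 l
  refine (ncard_le_ncard_of_injOn φ ?_ hφ.1.injOn (toFinite D)).trans hD
  rintro w ⟨O, a1, a2, a3⟩
  exact h6 O a1 (image_subset_iff.2 a2) (mem_image_of_mem φ a3)

theorem xpullb_univ {U : Type} (A : SimpleGraph U) (vr : Set U) :
    RP A (fun _ : Unit => univ) vr := by
  rintro 𝒮 R0 ⟨l, hl⟩ hR
  have h1 : R0.Subsingleton := by
    rcases hR with rfl | ⟨l0, h0, -⟩ | ⟨r, -, rfl⟩
    · exact subsingleton_empty
    · exact absurd hl h0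
    · exact subsingleton_singleton
  refine ⟨l, hl, h1.anti ?_⟩
  rintro x ⟨-, (h | ⟨l', -, h, -⟩) | ⟨q, -, h, -⟩⟩
  · exact h
  · exact absurd rfl h
  · exact absurd trivial h

theorem xpullb_rule_univ {U : Type} (A : SimpleGraph U) (m : Mode) : Rule m A univ := by
  cases m
  · trivial
  · trivial
  · rintro t - C h1 - - a ⟨-, -, x, hx, -⟩
    exact absurd trivial (disjoint_left.1 h1 hx)
  · exact fun _ _ _ _ _ _ _ _ => trivial

theorem fam_stmt (hRP : RPStmt) (hPullB : PullBStmt) : FamStmt := by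
  intro W U V _ _ _ H P m A B
  refine ⟨?_, ⟨Unit, inferInstance, fun _ => univ, ⟨fun O _ => ⟨(), subset_univ O⟩,
    xpullb_univ A _, fun _ _ e => absurd rfl e, fun _ => xpullb_rule_univ A m⟩,
    fun _ => ncard_le_card _⟩, ⟨Unit, inferInstance, fun _ => univ,
    ⟨fun O _ => ⟨(), subset_univ O⟩, xpullb_univ A _⟩, fun _ => ncard_le_card _⟩, ?_, ?_⟩
  · rintro ⟨φ, hφ⟩ s ⟨L, hL, K, hK, hs⟩
    have h1 := (hRP U L A K ∅).1 hK.rp A (range φ) le_rfl
    rw [empty_inter] at h1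
    exact hPullB W V U L H P m B A φ K s hφ (fun O hO => hK.cov _ (hO.map (hφ.on O))) h1 hK.dis
      hK.rule fun l => ⟨_, hs l, fun O hO h w hw => ⟨_, hO.map (hφ.on O), h, hw⟩⟩
  · rintro ⟨O, hO⟩ ⟨L, -, K, hK, hs⟩
    obtain ⟨l, hl⟩ := hK.cov O hO
    obtain ⟨w, hw⟩ := hO.two.nonempty
    exact absurd (hs l) (not_le.2 ((ncard_pos (toFinite _)).2 ⟨w, O, hO, hl, hw⟩))
  · rintro ⟨O, hO⟩ ⟨L, -, K, hK, hs⟩
    obtain ⟨l, hl⟩ := hK.cov O hO
    obtain ⟨w, hw⟩ := hO.two.nonempty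
    exact absurd (hs l) (not_le.2 ((ncard_pos (toFinite _)).2 ⟨w, O, hO, hl, .inl hw⟩))

end Pool.Agent.MP_1c0fc2_co.RE

end

section

/-! Rooted peelability: basic rules and the splitting of classes into components. -/

open Function Set Relation

namespace Pool.Agent.MP_1c0fc2_co.RE

section Aux
variable {V L : Type} {J J' : SimpleGraph V} {K : L → Set V} {vr : Set V}

theorem xrps_port_mono {A A' Y Y' : Set V} (hJ : J' ≤ J) (hA : A' ⊆ A) (hY : Y' ⊆ Y)
    (h : ∀ q ∈ Y', q ∈ A → q ∈ A') : Port J' A' Y' ⊆ Port J A Y := by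
  rintro p ⟨h1, h2 | ⟨q, h2, h3, h4⟩⟩
  · exact ⟨hA h1, .inl (hY h2)⟩
  · exact ⟨hA h1, .inr ⟨q, hY h2, fun e => h3 (h q h2 e), hJ h4⟩⟩

theorem xrps_port_le {A Y Y' : Set V} (hY : Y' ⊆ Y) : Port J A Y' ⊆ Port J A Y :=
  xrps_port_mono le_rfl subset_rfl hY fun _ _ h => h

theorem xrps_port_empty {A : Set V} : Port J A ∅ = ∅ := by
  refine eq_empty_of_forall_notMem ?_
  rintro p ⟨-, h | ⟨q, h, -⟩⟩ <;> exact h

theorem xrps_oth_root {𝒮 : Set L} (l0 l : L) :
    Oth K 𝒮 l ⊆ K l0 ∪ Oth K (𝒮 \ {l0}) l := by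
  rintro x ⟨l', h1, h2, h3⟩
  by_cases e : l' = l0
  · exact .inl (e ▸ h3)
  · exact .inr ⟨l', ⟨h1, e⟩, h2, h3⟩

theorem xrps_oth_empty {𝒮 : Set L} {l0 : L} (h : ¬ (𝒮 \ {l0}).Nonempty) : Oth K 𝒮 l0 = ∅ := by
  refine eq_empty_of_forall_notMem ?_
  rintro x ⟨l', h1, h2, -⟩
  exact h ⟨l', h1, h2⟩

theorem xrps_one (h : RP J K vr) (J' : SimpleGraph V) (Y : Set V) (hJ : J' ≤ J) :
    RP J' (fun l => K l ∩ Y) (vr ∩ Y) := by
  intro 𝒮 R0 hn hR
  obtain ⟨R1, h1, h2, h3⟩ : ∃ R1, (R1 = ∅ ∨ (∃ l0, l0 ∉ 𝒮 ∧ R1 = K l0) ∨ ∃ r ∈ vr, R1 = {r}) ∧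
      R0 ⊆ R1 ∧ R0 ⊆ Y := by
    rcases hR with rfl | ⟨l0, h1, rfl⟩ | ⟨r, h1, rfl⟩
    · exact ⟨∅, .inl rfl, subset_rfl, empty_subset _⟩
    · exact ⟨K l0, .inr (.inl ⟨l0, h1, rfl⟩), inter_subset_left, inter_subset_right⟩
    · exact ⟨{r}, .inr (.inr ⟨r, h1.1, rfl⟩), subset_rfl, singleton_subset_iff.2 h1.2⟩
  obtain ⟨l, hl, hp⟩ := h 𝒮 R1 hn h1
  refine ⟨l, hl, hp.anti (xrps_port_mono hJ inter_subset_left (union_subset_union h2 ?_) ?_)⟩
  · rintro x ⟨l', a1, a2, a3⟩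
    exact ⟨l', a1, a2, a3.1⟩
  · rintro q (a | ⟨l', -, -, a⟩) b
    · exact ⟨b, h3 a⟩
    · exact ⟨b, a.2⟩

theorem xrps_two (h : ∀ (𝒮 : Set L) (R0 : Set V), 𝒮.Nonempty →
    ((∃ l0, l0 ∉ 𝒮 ∧ R0 = K l0) ∨ ∃ r ∈ vr, R0 = {r}) →
    ∃ l ∈ 𝒮, (Port J (K l) (R0 ∪ Oth K 𝒮 l)).Subsingleton) : RP J K vr := by
  rintro 𝒮 R0 hn (rfl | hR)
  · obtain ⟨l0, h0⟩ := hn
    by_cases h1 : (𝒮 \ {l0}).Nonempty
    · obtain ⟨l, hl, hp⟩ := h _ (K l0) h1 (.inl ⟨l0, fun e => e.2 rfl, rfl⟩)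
      refine ⟨l, hl.1, hp.anti (xrps_port_le ?_)⟩
      rw [empty_union]
      exact xrps_oth_root l0 l
    · refine ⟨l0, h0, ?_⟩
      rw [xrps_oth_empty h1, empty_union, xrps_port_empty]
      exact subsingleton_empty
  · exact h 𝒮 R0 hn hR

theorem xrps_three (h : RP J K vr) (hd : ∀ l l', l ≠ l' → Disjoint (K l) (K l')) :
    RPX J K Set.Subsingleton := by
  intro 𝒮 Pt hn hP
  by_cases h0 : ∃ l0 ∈ 𝒮, (K l0 ∩ Pt).Nonempty
  · obtain ⟨l0, h0, x, hx, hx'⟩ := h0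
    by_cases h1 : (𝒮 \ {l0}).Nonempty
    · obtain ⟨l, hl, hp⟩ := h _ (K l0) h1 (.inr (.inl ⟨l0, fun e => e.2 rfl, rfl⟩))
      refine ⟨l, hl.1, hp.anti (union_subset ?_ (xrps_port_le (xrps_oth_root l0 l)))⟩
      rintro y ⟨a, b⟩
      exact absurd (hP hx' b ▸ hx) (disjoint_left.1 (hd l l0 hl.2) a)
    · refine ⟨l0, h0, ?_⟩
      rw [xrps_oth_empty h1, xrps_port_empty, union_empty]
      exact hP.anti inter_subset_right
  · obtain ⟨l, hl, hp⟩ := h 𝒮 ∅ hn (.inl rfl)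
    refine ⟨l, hl, hp.anti (union_subset (fun y hy => absurd ⟨l, hl, y, hy⟩ h0)
      (xrps_port_le subset_union_right))⟩

theorem xrps_four (h : RP J K vr) : RPX J K fun Pt => Pt.Subsingleton ∧ Pt ⊆ vr := by
  rintro 𝒮 Pt hn ⟨h1, h2⟩
  obtain ⟨l, hl, hp⟩ := h 𝒮 Pt hn (h1.eq_empty_or_singleton.imp_right
    fun ⟨r, e⟩ => .inr ⟨r, h2 (e ▸ rfl), e⟩)
  exact ⟨l, hl, hp.anti (union_subset (fun y hy => ⟨hy.1, .inl (.inl hy.2)⟩)
    (xrps_port_le subset_union_right))⟩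

theorem xrps_five [Finite L] [Nonempty V] (h : RP J K vr) (n : ℕ) : ∀ 𝒮 : Set L, 𝒮.ncard = n →
    ∃ c : L → V, ∀ l ∈ 𝒮, ∀ l' ∈ 𝒮, l ≠ l' →
      Port J (K l) (K l') ⊆ {c l} ∨ Port J (K l') (K l) ⊆ {c l'} := by
  classical
  induction n with
  | zero =>
    intro 𝒮 h0
    rw [ncard_eq_zero] at h0
    subst h0
    exact ⟨fun _ => Classical.arbitrary V, fun _ a => a.elim⟩
  | succ n ih =>
    intro 𝒮 h0
    obtain ⟨l1, h1, hp⟩ := h 𝒮 ∅ (nonempty_of_ncard_ne_zero (by omega)) (.inl rfl)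
    obtain ⟨c, hc⟩ := ih (𝒮 \ {l1}) (by rw [ncard_sdiff_singleton_of_mem h1]; omega)
    obtain ⟨x, hx⟩ : ∃ x, Port J (K l1) (∅ ∪ Oth K 𝒮 l1) ⊆ {x} := by
      rcases hp.eq_empty_or_singleton with e | ⟨x, e⟩
      · exact ⟨Classical.arbitrary V, e.le.trans (empty_subset _)⟩
      · exact ⟨x, e.le⟩
    have key : ∀ l ∈ 𝒮, l ≠ l1 → Port J (K l1) (K l) ⊆ {update c l1 x l1} := fun l a b => by
      rw [update_self]
      exact (xrps_port_le fun y hy => .inr ⟨l, a, b, hy⟩).trans hx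
    refine ⟨update c l1 x, fun l a l' a' b => ?_⟩
    by_cases e : l = l1
    · subst e
      exact .inl (key l' a' b.symm)
    by_cases e' : l' = l1
    · subst e'
      exact .inr (key l a b)
    rw [update_of_ne e, update_of_ne e']
    exact hc l ⟨a, e⟩ l' ⟨a', e'⟩ b

/-- the components of the classes -/
abbrev XrpsL (J : SimpleGraph V) (K : L → Set V) : Type :=
  {z : L × Set V // ∃ a ∈ K z.1, z.2 = comp J.Adj (K z.1) a}

theorem xrps_sub (z : XrpsL J K) : z.1.2 ⊆ K z.1.1 := by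
  obtain ⟨a, -, e⟩ := z.2
  rw [e]
  exact comp_sub

theorem xrps_eq {z z' : XrpsL J K} (h : z'.1.1 = z.1.1) {y : V} (h1 : y ∈ z'.1.2)
    (h2 : y ∈ z.1.2) : z' = z := by
  obtain ⟨a, -, e⟩ := z.2
  obtain ⟨a', -, e'⟩ := z'.2
  refine Subtype.ext (Prod.ext h ?_)
  rw [e] at h2
  rw [e', h] at h1
  rw [e, e', h, ← comp_eq (adj_symm' J) h1, ← comp_eq (adj_symm' J) h2]

theorem xrps_port (z : XrpsL J K) {Y Y' : Set V}
    (h : ∀ y ∈ Y', y ∈ Y ∨ (y ∈ K z.1.1 ∧ y ∉ z.1.2)) :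
    Port J z.1.2 Y' ⊆ Port J (K z.1.1) Y := by
  rintro p ⟨h1, h2 | ⟨q, h2, h3, h4⟩⟩
  · exact ⟨xrps_sub z h1, .inl ((h p h2).resolve_right fun e => e.2 h1)⟩
  · have h5 : q ∉ K z.1.1 := fun e => h3 (by
      obtain ⟨a, -, e'⟩ := z.2
      rw [e'] at h1 ⊢
      exact comp_closed h1 e h4)
    exact ⟨xrps_sub z h1, .inr ⟨q, (h q h2).resolve_right fun e => h5 e.1, h5, h4⟩⟩

theorem xrps_oth {𝒮 : Set (XrpsL J K)} (z : XrpsL J K) {y : V}
    (hy : y ∈ Oth (fun z : XrpsL J K => z.1.2) 𝒮 z) :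
    y ∈ Oth K ((fun z : XrpsL J K => z.1.1) '' 𝒮) z.1.1 ∨ (y ∈ K z.1.1 ∧ y ∉ z.1.2) := by
  obtain ⟨z', h1, h2, h3⟩ := hy
  by_cases e : z'.1.1 = z.1.1
  · exact .inr ⟨e ▸ xrps_sub z' h3, fun h4 => h2 (xrps_eq e h3 h4)⟩
  · exact .inl ⟨_, mem_image_of_mem _ h1, e, xrps_sub z' h3⟩

theorem xrps_split (h : RP J K univ) : RP J (fun z : XrpsL J K => z.1.2) univ := by
  refine xrps_two ?_
  rintro 𝒮 R0 hn (⟨z0, h0, rfl⟩ | ⟨r, -, rfl⟩)
  · by_cases h1 : ((fun z : XrpsL J K => z.1.1) '' 𝒮 \ {z0.1.1}).Nonempty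
    · obtain ⟨l, ⟨⟨z, hz, rfl⟩, -⟩, hp⟩ :=
        h _ (K z0.1.1) h1 (.inr (.inl ⟨_, fun e => e.2 rfl, rfl⟩))
      refine ⟨z, hz, hp.anti (xrps_port z ?_)⟩
      rintro y (a | a)
      · exact .inl (.inl (xrps_sub z0 a))
      · exact (xrps_oth z a).imp_left fun b => xrps_oth_root _ _ b
    · obtain ⟨z, hz⟩ := hn
      have e : z0.1.1 = z.1.1 := by
        by_contra e
        exact h1 ⟨_, mem_image_of_mem _ hz, fun e' => e (Eq.symm e')⟩
      refine ⟨z, hz, subsingleton_empty.anti ((xrps_port z (Y := ∅) ?_).trans xrps_port_empty.le)⟩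
      rintro y (a | a)
      · exact .inr ⟨e ▸ xrps_sub z0 a, fun b => h0 (xrps_eq e a b ▸ hz)⟩
      · refine (xrps_oth z a).imp_left fun b => ?_
        rw [e] at h1
        rwa [xrps_oth_empty h1] at b
  · obtain ⟨l, ⟨z, hz, rfl⟩, hp⟩ := h _ {r} (hn.image fun z : XrpsL J K => z.1.1)
      (.inr (.inr ⟨r, trivial, rfl⟩))
    refine ⟨z, hz, hp.anti (xrps_port z ?_)⟩
    rintro y (a | a)
    · exact .inl (.inl a)
    · exact (xrps_oth z a).imp_left .inr

end Aux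

theorem rp_stmt : RPStmt := by
  intro V L _ _ J K vr
  refine ⟨xrps_one, xrps_two, xrps_three, xrps_four, fun h _ => ?_⟩
  obtain ⟨c, hc⟩ := xrps_five h _ univ rfl
  exact ⟨c, fun l l' => hc l trivial l' trivial⟩

theorem split_stmt : SplitStmt := by
  intro V L _ _ J Ob K h hO
  refine ⟨XrpsL J K, inferInstance, fun z => z.1.2, ⟨fun O a => ?_, xrps_split h.rp⟩,
    fun z => ?_, fun z => ⟨_, xrps_sub z⟩⟩
  · obtain ⟨l, hl⟩ := h.cov O a
    obtain ⟨h1, x, hx⟩ := hO O a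
    exact ⟨⟨(l, comp J.Adj (K l) x), x, hl hx, rfl⟩, h1.sub_comp hl hx (mem_comp (hl hx))⟩
  · obtain ⟨a, -, e⟩ := z.2
    change ConnOn J.Adj z.1.2
    rw [e]
    exact comp_conn (adj_symm' J)

end Pool.Agent.MP_1c0fc2_co.RE

end

section

/-! Assembly of all steps. -/

namespace Pool.Agent.MP_1c0fc2_co.RE

theorem all_final : FinalStmt := by
  have hAtomB : AtomBStmt := atomB_stmt
  have hPar : ParStmt := par_stmt hAtomB
  have hK3 : K3Stmt := k3_stmt
  have hEq : EqStmt := eq_stmt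
  have hROMono : ROMonoStmt := roMono_stmt hEq
  have hRP : RPStmt := rp_stmt
  have hPullB : PullBStmt := pullB_stmt
  have hFam : FamStmt := fam_stmt hRP hPullB
  have hHost : HostStmt := host_stmt
  have hESNode : ESNodeStmt := esnode_stmt
  have hInvA : InvAStmt := invA_stmt hK3 hROMono hHost hESNode
  have hNsep : NsepStmt := nsep_stmt
  have hAtomA : AtomAStmt := atomA_stmt hEq hNsep
  have hEdge : EdgeStmt := edge_stmt
  have hIE3 : IE3Stmt := ie3_stmt hK3 hEdge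
  have hIE4 : IE4Stmt := ie4_stmt
  have hIE : IEStmt := ie_stmt hK3 hIE3 hIE4
  have hCol2 : Col2Stmt := col2_stmt hIE
  have hL6 : L6Stmt := l6_stmt hAtomA hNsep hCol2
  have hBr : BrStmt := br_stmt
  have hMA : MAStmt := ma_stmt hBr
  have hIA : IAStmt := ia_stmt hBr
  have hFP : FPStmt := fp_stmt hBr
  have hBridge : BridgeStmt := bridge_stmt hEq hAtomB
  have hMI : MIStmt := mi_stmt hAtomB hIE hBr hBridge
  have hParam : ParamStmt := param_stmt hEq hK3 hAtomA hL6 hMA hIA hFP hMI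
  have hMT1 : MT1Stmt := mt1_stmt
  have hLink : LinkStmt := link_stmt
  have hGlue : GlueStmt := glue_stmt
  have hLocal : LocalStmt := local_stmt
  have hMap : MapStmt := map_stmt
  have hMT : MTStmt := mt_stmt hMT1 hLink hGlue hLocal hMap
  have hMT0 : MT0Stmt := mt0_stmt hMT
  have hProt : ProtStmt := prot_stmt hMT0
  have hClose : CloseStmt := close_stmt hMT
  have hEngine : EngineStmt := engine_stmt hProt hClose
  have hThNode : ThNodeStmt := thnode_stmt hESNode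
  have hLoc : LocStmt := loc_stmt hK3 hESNode hThNode
  have hInvT : InvTStmt := invT_stmt hParam hEngine hLoc
  have hRedLoc : RedLocStmt := redLoc_stmt hK3 hROMono hLoc
  have hTwoNb : TwoNbStmt := twoNb_stmt
  have hLeaf : LeafStmt := leaf_stmt
  have hPi : PiStmt := pi_stmt hLeaf
  have hRPG : RPGStmt := rpg_stmt hRP hPi
  have hPullR : PullRStmt := pullR_stmt
  have hRedLift : RedLiftStmt := redLift_stmt hK3 hTwoNb hRPG hRedLoc hPullR
  have hInvR : InvRStmt := invR_stmt hRP hParam hEngine hLoc hRedLoc hRedLift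
  have hSplit : SplitStmt := split_stmt
  have hEO : EOStmt := eo_stmt hBr
  have hV0Abs : V0AbsStmt := v0Abs_stmt hEO
  have hV0 : V0Stmt := v0_stmt hK3 hAtomA hSplit hV0Abs
  have hM0T : M0TStmt := m0T_stmt hK3 hAtomB hIE hBr hBridge hRP
  have hGam : GamStmt := gam_stmt hMT hLink hGlue hLocal
  have hHub : HubStmt := hub_stmt
  have hGX : GXStmt := gx_stmt
  have hGRedRP : GRedRPStmt := gRedRP_stmt hRP hLeaf
  have hGRed : GRedStmt := gRed_stmt hK3 hROMono hGX hGRedRP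
  have hGBlueN : GBlueNStmt := gBlueN_stmt hK3 hRP hThNode
  have hCone : ConeStmt := cone_stmt hEq hK3 hNsep
  have hBlueLift : BlueLiftStmt := blueLift_stmt hK3 hCone hTwoNb hRPG hLoc hPullB
  have hStepN : StepNStmt := stepN_stmt hV0 hM0T hGam hParam hEngine hHub hGX hGRed hGBlueN hRedLift hBlueLift
  have hM0A : M0AStmt := m0A_stmt hEq hAtomA hBr hRP
  have hGBlueSRP : GBlueSRPStmt := gBlueSRP_stmt hRP hLeaf
  have hGBlueSRule : GBlueSRuleStmt := gBlueSRule_stmt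
  have hGBlueS : GBlueSStmt := gBlueS_stmt hGBlueSRP hGBlueSRule
  have hStepS : StepSStmt := stepS_stmt hK3 hROMono hAtomA hIA hM0A hM0T hGam hParam hEngine hHub hGX hGBlueS hRedLoc hBlueLift
  have hBoth : BothStmt := both_stmt hPar hK3 hROMono hFam hInvA hInvT hInvR hStepN hStepS
  exact final_stmt hBoth

end Pool.Agent.MP_1c0fc2_co.RE

end
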